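import Pool.Agent.BBP.StmtsB

/-!
# BBP, ARB: basic facts on arcs
-/

set_option autoImplicit false

namespace BBP

open Set Topology
open Pool.Agent.LIX (CLog)

namespace ARB

variable {Y : Type} [MetricSpace Y]

/-- subarcs -/
theorem sub {α : ℝ → Y} (hc : ContinuousOn α (Icc 0 1)) (hi : InjOn α (Icc 0 1)) {s t : ℝ}
    (hs : 0 ≤ s) (hst : s < t) (ht : t ≤ 1) : Arc (α '' Icc s t) (α s) (α t) := by
  have hd : 0 < t - s := by linarith
  have hm : MapsTo (fun u : ℝ => s + u * (t - s)) (Icc 0 1) (Icc s t) := by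
    intro u hu
    constructor
    · show s ≤ s + u * (t - s)
      nlinarith [hu.1]
    · show s + u * (t - s) ≤ t
      nlinarith [hu.2]
  have hsub : Icc s t ⊆ Icc 0 1 := Icc_subset_Icc hs ht
  refine ⟨fun u => α (s + u * (t - s)), ?_, ?_, ?_, ?_, ?_⟩
  · exact hc.comp (by fun_prop) fun u hu => hsub (hm hu)
  · intro u hu v hv huv
    have h1 := hi (hsub (hm hu)) (hsub (hm hv)) huv
    have h2 : u * (t - s) = v * (t - s) := by
      have : s + u * (t - s) = s + v * (t - s) := h1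
      linarith
    exact mul_right_cancel₀ hd.ne' h2
  · show α (s + 0 * (t - s)) = α s
    rw [zero_mul, add_zero]
  · show α (s + 1 * (t - s)) = α t
    congr 1
    ring
  · apply Subset.antisymm
    · rintro _ ⟨u, hu, rfl⟩
      refine ⟨(u - s) / (t - s), ⟨?_, ?_⟩, ?_⟩
      · exact div_nonneg (by linarith [hu.1]) hd.le
      · rw [div_le_one hd]
        linarith [hu.2]
      · show α (s + (u - s) / (t - s) * (t - s)) = α u
        rw [div_mul_cancel₀ _ hd.ne']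
        congr 1
        ring
    · rintro _ ⟨u, hu, rfl⟩
      exact ⟨_, hm hu, rfl⟩

/-- reversed arcs -/
theorem rev {A : Set Y} {a b : Y} (h : Arc A a b) : Arc A b a := by
  obtain ⟨α, hc, hi, h0, h1, hA⟩ := h
  have hm : MapsTo (fun u : ℝ => 1 - u) (Icc 0 1) (Icc 0 1) := by
    intro u hu
    constructor
    · show 0 ≤ 1 - u
      linarith [hu.2]
    · show 1 - u ≤ 1
      linarith [hu.1]
  refine ⟨fun u => α (1 - u), hc.comp (by fun_prop) hm, ?_, ?_, ?_, ?_⟩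
  · intro u hu v hv huv
    have h2 : (1 : ℝ) - u = 1 - v := hi (hm hu) (hm hv) huv
    linarith
  · show α (1 - 0) = b
    rw [sub_zero, h1]
  · show α (1 - 1) = a
    rw [sub_self, h0]
  · rw [hA]
    apply Subset.antisymm
    · rintro _ ⟨u, hu, rfl⟩
      refine ⟨1 - u, hm hu, ?_⟩
      show α (1 - (1 - u)) = α u
      rw [sub_sub_cancel]
    · rintro _ ⟨u, hu, rfl⟩
      exact ⟨_, hm hu, rfl⟩

end ARB

theorem t_ARB : S_ARB := by
  intro Y _ A a b hA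
  have hrev := ARB.rev hA
  obtain ⟨α, hc, hi, h0, h1, rfl⟩ := hA
  have z0 : (0 : ℝ) ∈ Icc (0 : ℝ) 1 := by simp
  have z1 : (1 : ℝ) ∈ Icc (0 : ℝ) 1 := by simp
  have hcp : IsCompact (α '' Icc 0 1) := isCompact_Icc.image_of_continuousOn hc
  have himg : α '' Icc 0 1 \ {a, b} = α '' Ioo 0 1 := by
    apply Subset.antisymm
    · rintro _ ⟨⟨u, hu, rfl⟩, hn⟩
      refine ⟨u, ⟨lt_of_le_of_ne hu.1 ?_, lt_of_le_of_ne hu.2 ?_⟩, rfl⟩
      · rintro rfl
        exact hn (Or.inl h0)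
      · rintro rfl
        exact hn (Or.inr h1)
    · rintro _ ⟨u, hu, rfl⟩
      refine ⟨⟨u, Ioo_subset_Icc_self hu, rfl⟩, ?_⟩
      rintro (h | h)
      · exact hu.1.ne' (hi (Ioo_subset_Icc_self hu) z0 (h.trans h0.symm))
      · exact hu.2.ne (hi (Ioo_subset_Icc_self hu) z1 (h.trans h1.symm))
  have himg1 : α '' Icc 0 1 \ {a} = α '' Ioc 0 1 := by
    apply Subset.antisymm
    · rintro _ ⟨⟨u, hu, rfl⟩, hn⟩
      refine ⟨u, ⟨lt_of_le_of_ne hu.1 ?_, hu.2⟩, rfl⟩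
      rintro rfl
      exact hn h0
    · rintro _ ⟨u, hu, rfl⟩
      refine ⟨⟨u, Ioc_subset_Icc_self hu, rfl⟩, ?_⟩
      intro h
      exact hu.1.ne' (hi (Ioc_subset_Icc_self hu) z0 (Eq.trans h h0.symm))
  refine ⟨?_, ⟨0, z0, h0⟩, ⟨1, z1, h1⟩, hrev, hcp, ?_, ?_, ?_, ?_, ?_, ?_, ?_, ?_⟩
  · intro hab
    rw [← h0, ← h1] at hab
    exact zero_ne_one (hi z0 z1 hab)
  · exact (isConnected_Icc zero_le_one).image α hc
  · intro f hf hf0
    have h2 := Pool.Agent.LIX.cLog_convex (isCompact_Icc (a := (0 : ℝ)) (b := 1))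
      (convex_Icc 0 1) (f := fun x => f (α x)) (hf.comp hc fun x hx => ⟨x, hx, rfl⟩)
      fun x hx => hf0 _ ⟨x, hx, rfl⟩
    exact CLog.image isCompact_Icc hc hi h2
  · rintro _ ⟨s, hs, rfl⟩ _ ⟨t, ht, rfl⟩ hst
    rcases lt_trichotomy s t with h | h | h
    · exact ⟨α '' Icc s t, image_mono (Icc_subset_Icc hs.1 ht.2), ARB.sub hc hi hs.1 h ht.2⟩
    · rw [h] at hst
      exact absurd rfl hst
    · exact ⟨α '' Icc t s, image_mono (Icc_subset_Icc ht.1 hs.2),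
        ARB.rev (ARB.sub hc hi ht.1 h hs.2)⟩
  · rw [himg]
    exact (isConnected_Ioo zero_lt_one).image α (hc.mono Ioo_subset_Icc_self)
  · rw [himg]
    have h2 : Icc (0 : ℝ) 1 = closure (Ioo 0 1) := (closure_Ioo zero_ne_one).symm
    rw [h2]
    apply ContinuousOn.image_closure
    rw [← h2]
    exact hc
  · rw [himg1]
    exact (isConnected_Ioc zero_lt_one).image α (hc.mono Ioc_subset_Icc_self)
  · intro N hN hbN haN
    have hcl : IsClosed (Icc (0 : ℝ) 1 ∩ α ⁻¹' N) :=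
      hc.preimage_isClosed_of_isClosed isClosed_Icc hN
    have hne : (Icc (0 : ℝ) 1 ∩ α ⁻¹' N).Nonempty := ⟨1, z1, by
      show α 1 ∈ N
      rw [h1]
      exact hbN⟩
    have hbd : BddBelow (Icc (0 : ℝ) 1 ∩ α ⁻¹' N) := ⟨0, fun x hx => hx.1.1⟩
    have hmem := hcl.csInf_mem hne hbd
    obtain ⟨t, ht⟩ : ∃ t, t = sInf (Icc (0 : ℝ) 1 ∩ α ⁻¹' N) := ⟨_, rfl⟩
    rw [← ht] at hmem
    have hmin : ∀ u ∈ Icc (0 : ℝ) 1, α u ∈ N → t ≤ u := fun u hu hu' => by
      rw [ht]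
      exact csInf_le hbd ⟨hu, hu'⟩
    have ht0 : 0 < t := by
      refine lt_of_le_of_ne hmem.1.1 ?_
      intro h
      apply haN
      rw [← h0, h]
      exact hmem.2
    have hs := ARB.sub hc hi le_rfl ht0 hmem.1.2
    rw [h0] at hs
    refine ⟨α t, hmem.2, α '' Icc 0 t, image_mono (Icc_subset_Icc le_rfl hmem.1.2), hs, ?_⟩
    apply Subset.antisymm
    · rintro _ ⟨⟨u, hu, rfl⟩, huN⟩
      have := hmin u ⟨hu.1, hu.2.trans hmem.1.2⟩ huN
      have h3 : u = t := le_antisymm hu.2 this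
      rw [h3]
      rfl
    · rintro x hx
      rw [mem_singleton_iff] at hx
      rw [hx]
      exact ⟨⟨t, ⟨ht0.le, le_rfl⟩, rfl⟩, hmem.2⟩
  · obtain ⟨α', hc', hi', h0', h1', hA'⟩ := hrev
    exact ⟨α', hc', h1', h0', hA'.symm⟩

end BBP
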