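import Pool.Agent.BBP.StmtsB

/-!
# GLU: gluing of arcs
-/

set_option autoImplicit false

namespace BBP

open Set Topology

namespace GLU

/-- two functions put together at `1/2` -/
noncomputable def gl {Y : Type} (f g : ℝ → Y) (t : ℝ) : Y := if t ≤ 1 / 2 then f t else g t

lemma gl_left {Y : Type} (f g : ℝ → Y) {t : ℝ} (h : t ≤ 1 / 2) : gl f g t = f t := if_pos h

lemma gl_right {Y : Type} (f g : ℝ → Y) (hfg : f (1 / 2) = g (1 / 2)) {t : ℝ}
    (h : 1 / 2 ≤ t) : gl f g t = g t := by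
  rcases h.eq_or_lt with h | h
  · rw [← h, gl, if_pos le_rfl, hfg]
  · rw [gl, if_neg (not_le.2 h)]

lemma gl_cont {Y : Type} [TopologicalSpace Y] (f g : ℝ → Y) (hfg : f (1 / 2) = g (1 / 2))
    (hf : ContinuousOn f (Icc 0 (1 / 2))) (hg : ContinuousOn g (Icc (1 / 2) 1)) :
    ContinuousOn (gl f g) (Icc 0 1) := by
  have h1 : ContinuousOn (gl f g) (Icc 0 (1 / 2)) :=
    hf.congr fun t ht => gl_left f g ht.2
  have h2 : ContinuousOn (gl f g) (Icc (1 / 2) 1) :=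
    hg.congr fun t ht => gl_right f g hfg ht.1
  have h3 : Icc (0 : ℝ) 1 = Icc 0 (1 / 2) ∪ Icc (1 / 2) 1 :=
    (Icc_union_Icc_eq_Icc (by norm_num) (by norm_num)).symm
  rw [h3]
  exact h1.union_of_isClosed h2 isClosed_Icc isClosed_Icc

lemma img {Y : Type} (f : ℝ → Y) : (fun t => f (2 * t)) '' Icc 0 (1 / 2) = f '' Icc 0 1 := by
  ext y
  constructor
  · rintro ⟨t, ⟨h1, h2⟩, rfl⟩
    exact ⟨2 * t, ⟨by linarith, by linarith⟩, rfl⟩
  · rintro ⟨t, ⟨h1, h2⟩, rfl⟩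
    refine ⟨t / 2, ⟨by linarith, by linarith⟩, ?_⟩
    change f (2 * (t / 2)) = f t
    congr 1
    ring

lemma img2 {Y : Type} (f : ℝ → Y) : (fun t => f (2 * t - 1)) '' Icc (1 / 2) 1 = f '' Icc 0 1 := by
  ext y
  constructor
  · rintro ⟨t, ⟨h1, h2⟩, rfl⟩
    exact ⟨2 * t - 1, ⟨by linarith, by linarith⟩, rfl⟩
  · rintro ⟨t, ⟨h1, h2⟩, rfl⟩
    refine ⟨(t + 1) / 2, ⟨by linarith, by linarith⟩, ?_⟩
    change f (2 * ((t + 1) / 2) - 1) = f t
    congr 1
    ring

lemma img3 {Y : Type} (f : ℝ → Y) : (fun t => f (2 - 2 * t)) '' Icc (1 / 2) 1 = f '' Icc 0 1 := by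
  ext y
  constructor
  · rintro ⟨t, ⟨h1, h2⟩, rfl⟩
    exact ⟨2 - 2 * t, ⟨by linarith, by linarith⟩, rfl⟩
  · rintro ⟨t, ⟨h1, h2⟩, rfl⟩
    refine ⟨1 - t / 2, ⟨by linarith, by linarith⟩, ?_⟩
    change f (2 - 2 * (1 - t / 2)) = f t
    congr 1
    ring

lemma cont1 {Y : Type} [TopologicalSpace Y] (f : ℝ → Y) (hf : ContinuousOn f (Icc 0 1)) :
    ContinuousOn (fun t => f (2 * t)) (Icc 0 (1 / 2)) := by
  refine hf.comp (Continuous.continuousOn (by fun_prop)) ?_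
  rintro t ⟨h1, h2⟩
  exact ⟨by linarith, by linarith⟩

lemma cont2 {Y : Type} [TopologicalSpace Y] (f : ℝ → Y) (hf : ContinuousOn f (Icc 0 1)) :
    ContinuousOn (fun t => f (2 * t - 1)) (Icc (1 / 2) 1) := by
  refine hf.comp (Continuous.continuousOn (by fun_prop)) ?_
  rintro t ⟨h1, h2⟩
  exact ⟨by linarith, by linarith⟩

lemma cont3 {Y : Type} [TopologicalSpace Y] (f : ℝ → Y) (hf : ContinuousOn f (Icc 0 1)) :
    ContinuousOn (fun t => f (2 - 2 * t)) (Icc (1 / 2) 1) := by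
  refine hf.comp (Continuous.continuousOn (by fun_prop)) ?_
  rintro t ⟨h1, h2⟩
  exact ⟨by linarith, by linarith⟩

end GLU

open GLU in
theorem t_GLU : S_GLU := by
  constructor
  · rintro Y _ A B a b ⟨α, hα, hαi, hα0, hα1, rfl⟩ ⟨β, hβ, hβi, hβ0, hβ1, rfl⟩ hAB
    have hfg : (fun t : ℝ => α (2 * t)) (1 / 2) = (fun t : ℝ => β (2 - 2 * t)) (1 / 2) := by
      change α (2 * (1 / 2)) = β (2 - 2 * (1 / 2))
      norm_num
      rw [hα1, hβ1]
    set δ : ℝ → Y := gl (fun t => α (2 * t)) (fun t => β (2 - 2 * t)) with hδ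
    have hδl : ∀ t : ℝ, t ≤ 1 / 2 → δ t = α (2 * t) := fun t h => gl_left _ _ h
    have hδr : ∀ t : ℝ, 1 / 2 ≤ t → δ t = β (2 - 2 * t) := fun t h => gl_right _ _ hfg h
    have hδc : ContinuousOn δ (Icc 0 1) := gl_cont _ _ hfg (cont1 α hα) (cont3 β hβ)
    have hδ0 : δ 0 = a := by
      rw [hδl 0 (by norm_num), mul_zero, hα0]
    have hδ1 : δ 1 = a := by
      rw [hδr 1 (by norm_num)]
      norm_num
      exact hβ0
    have hγc : Continuous (δ ∘ Int.fract) := hδc.comp_fract'' (hδ0.trans hδ1.symm)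
    have hγ : ∀ t : ℝ, 0 ≤ t → t < 1 → (δ ∘ Int.fract) t = δ t := by
      intro t h0 h1
      rw [Function.comp_apply, Int.fract_eq_self.2 ⟨h0, h1⟩]
    have hγ' : ∀ t : ℝ, 0 ≤ t → t ≤ 1 → (δ ∘ Int.fract) t = δ t := by
      intro t h0 h1
      rcases h1.eq_or_lt with h1 | h1
      · rw [h1, Function.comp_apply, Int.fract_one, hδ0, hδ1]
      · exact hγ t h0 h1
    have hper : Function.Periodic (δ ∘ Int.fract) 1 := by
      intro t
      rw [Function.comp_apply, Function.comp_apply, Int.fract_add_one]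
    have himA : (δ ∘ Int.fract) '' Icc 0 (1 / 2) = α '' Icc 0 1 := by
      rw [← img α]
      refine image_congr fun t ht => ?_
      rw [hγ t ht.1 (by linarith [ht.2]), hδl t ht.2]
    have himB : (δ ∘ Int.fract) '' Icc (1 / 2) 1 = β '' Icc 0 1 := by
      rw [← img3 β]
      refine image_congr fun t ht => ?_
      rw [hγ' t (by linarith [ht.1]) ht.2, hδr t ht.1]
    have hrange : range (δ ∘ Int.fract) = α '' Icc 0 1 ∪ β '' Icc 0 1 := by
      rw [← himA, ← himB, ← image_union, Icc_union_Icc_eq_Icc (by norm_num) (by norm_num)]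
      apply Subset.antisymm
      · rintro _ ⟨t, rfl⟩
        refine ⟨Int.fract t, ⟨Int.fract_nonneg t, (Int.fract_lt_one t).le⟩, ?_⟩
        rw [Function.comp_apply, Function.comp_apply, Int.fract_fract]
      · exact image_subset_range _ _
    have hinj : InjOn (δ ∘ Int.fract) (Ico 0 1) := by
      have key : ∀ s t : ℝ, 0 ≤ s → s ≤ 1 / 2 → 1 / 2 < t → t < 1 → δ s ≠ δ t := by
        intro s t h1 h2 h3 h4 heq
        rw [hδl s h2, hδr t h3.le] at heq
        have h5 : β (2 - 2 * t) ∈ α '' Icc 0 1 ∩ β '' Icc 0 1 :=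
          ⟨⟨2 * s, ⟨by linarith, by linarith⟩, heq⟩, ⟨2 - 2 * t, ⟨by linarith, by linarith⟩, rfl⟩⟩
        rw [hAB] at h5
        rcases h5 with h5 | h5
        · rw [← hβ0] at h5
          have := hβi ⟨by linarith, by linarith⟩ ⟨le_rfl, zero_le_one⟩ h5
          linarith
        · rw [mem_singleton_iff, ← hβ1] at h5
          have := hβi ⟨by linarith, by linarith⟩ ⟨zero_le_one, le_rfl⟩ h5
          linarith
      rintro s ⟨hs0, hs1⟩ t ⟨ht0, ht1⟩ heq
      rw [hγ s hs0 hs1, hγ t ht0 ht1] at heq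
      rcases le_or_gt s (1 / 2) with h1 | h1 <;> rcases le_or_gt t (1 / 2) with h2 | h2
      · rw [hδl s h1, hδl t h2] at heq
        have := hαi ⟨by linarith, by linarith⟩ ⟨by linarith, by linarith⟩ heq
        linarith
      · exact absurd heq (key s t hs0 h1 h2 ht1)
      · exact absurd heq.symm (key t s ht0 h2 h1 hs1)
      · rw [hδr s h1.le, hδr t h2.le] at heq
        have := hβi ⟨by linarith, by linarith⟩ ⟨by linarith, by linarith⟩ heq
        linarith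
    have hscp : Scp (δ ∘ Int.fract) := ⟨hγc, hper, hinj⟩
    refine ⟨⟨δ ∘ Int.fract, hscp, hrange⟩, δ ∘ Int.fract, hscp, hrange, ?_, ?_, himA, himB⟩
    · rw [hγ 0 le_rfl one_pos, hδ0]
    · rw [hγ (1 / 2) (by norm_num) (by norm_num), hδl (1 / 2) le_rfl]
      norm_num
      exact hα1
  · rintro Y _ A B a b c ⟨α, hα, hαi, hα0, hα1, rfl⟩ ⟨β, hβ, hβi, hβ0, hβ1, rfl⟩ hAB
    have hfg : (fun t : ℝ => α (2 * t)) (1 / 2) = (fun t : ℝ => β (2 * t - 1)) (1 / 2) := by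
      change α (2 * (1 / 2)) = β (2 * (1 / 2) - 1)
      norm_num
      rw [hα1, hβ0]
    set δ : ℝ → Y := gl (fun t => α (2 * t)) (fun t => β (2 * t - 1)) with hδ
    have hδl : ∀ t : ℝ, t ≤ 1 / 2 → δ t = α (2 * t) := fun t h => gl_left _ _ h
    have hδr : ∀ t : ℝ, 1 / 2 ≤ t → δ t = β (2 * t - 1) := fun t h => gl_right _ _ hfg h
    have hδc : ContinuousOn δ (Icc 0 1) := gl_cont _ _ hfg (cont1 α hα) (cont2 β hβ)
    refine ⟨δ, hδc, ?_, ?_, ?_, ?_⟩
    · have key : ∀ s t : ℝ, 0 ≤ s → s ≤ 1 / 2 → 1 / 2 < t → t ≤ 1 → δ s ≠ δ t := by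
        intro s t h1 h2 h3 h4 heq
        rw [hδl s h2, hδr t h3.le] at heq
        have h5 : β (2 * t - 1) ∈ α '' Icc 0 1 ∩ β '' Icc 0 1 :=
          ⟨⟨2 * s, ⟨by linarith, by linarith⟩, heq⟩, ⟨2 * t - 1, ⟨by linarith, by linarith⟩, rfl⟩⟩
        rw [hAB, mem_singleton_iff, ← hβ0] at h5
        have := hβi ⟨by linarith, by linarith⟩ ⟨le_rfl, zero_le_one⟩ h5
        linarith
      rintro s ⟨hs0, hs1⟩ t ⟨ht0, ht1⟩ heq
      rcases le_or_gt s (1 / 2) with h1 | h1 <;> rcases le_or_gt t (1 / 2) with h2 | h2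
      · rw [hδl s h1, hδl t h2] at heq
        have := hαi ⟨by linarith, by linarith⟩ ⟨by linarith, by linarith⟩ heq
        linarith
      · exact absurd heq (key s t hs0 h1 h2 ht1)
      · exact absurd heq.symm (key t s ht0 h2 h1 hs1)
      · rw [hδr s h1.le, hδr t h2.le] at heq
        have := hβi ⟨by linarith, by linarith⟩ ⟨by linarith, by linarith⟩ heq
        linarith
    · rw [hδl 0 (by norm_num), mul_zero, hα0]
    · rw [hδr 1 (by norm_num)]
      norm_num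
      exact hβ1
    · have h0 : δ '' Icc 0 1 = δ '' Icc 0 (1 / 2) ∪ δ '' Icc (1 / 2) 1 := by
        rw [← image_union, Icc_union_Icc_eq_Icc (by norm_num) (by norm_num)]
      rw [h0, ← img α, ← img2 β]
      congr 1
      · exact image_congr fun t ht => (hδl t ht.2).symm
      · exact image_congr fun t ht => (hδr t ht.1).symm

end BBP
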