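import Pool.Agent.BBP.StmtsB

/-!
# BBP: a path contains an arc
-/

set_option autoImplicit false

namespace BBP

open Set Topology

namespace PTA

section diam

variable {Y : Type} [MetricSpace Y] {Q : ℝ → Y}

/-- the diameter of the path on `[a, x]` -/
noncomputable def dm (Q : ℝ → Y) (a x : ℝ) : ℝ := Metric.diam (Q '' Icc a x)

theorem bdd (hQ : Continuous Q) (a x : ℝ) : Bornology.IsBounded (Q '' Icc a x) :=
  (isCompact_Icc.image hQ).isBounded

theorem dm_nonneg (a x : ℝ) : 0 ≤ dm Q a x := Metric.diam_nonneg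

theorem dm_mono (hQ : Continuous Q) (a : ℝ) {x y : ℝ} (h : x ≤ y) : dm Q a x ≤ dm Q a y :=
  Metric.diam_mono (image_mono (Icc_subset_Icc_right h)) (bdd hQ a y)

theorem dm_le (hQ : Continuous Q) (a : ℝ) {x y η : ℝ} (hη : 0 ≤ η) (h : x ≤ y)
    (hd : ∀ z ∈ Icc x y, dist (Q z) (Q x) ≤ η) : dm Q a y ≤ dm Q a x + 2 * η := by
  have h0 := dm_nonneg (Q := Q) a x
  refine Metric.diam_le_of_forall_dist_le (by linarith) ?_
  rintro _ ⟨z1, hz1, rfl⟩ _ ⟨z2, hz2, rfl⟩
  by_cases hax : a ≤ x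
  · have key : ∀ z ∈ Icc a y, min z x ∈ Icc a x ∧ dist (Q z) (Q (min z x)) ≤ η := by
      intro z hz
      refine ⟨⟨le_min hz.1 hax, min_le_right _ _⟩, ?_⟩
      rcases le_total z x with hzx | hzx
      · rw [min_eq_left hzx, dist_self]
        exact hη
      · rw [min_eq_right hzx]
        exact hd z ⟨hzx, hz.2⟩
    obtain ⟨k1, k2⟩ := key z1 hz1
    obtain ⟨k3, k4⟩ := key z2 hz2
    have k5 : dist (Q (min z1 x)) (Q (min z2 x)) ≤ dm Q a x :=
      Metric.dist_le_diam_of_mem (bdd hQ a x) (mem_image_of_mem _ k1) (mem_image_of_mem _ k3)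
    have k6 := dist_triangle4 (Q z1) (Q (min z1 x)) (Q (min z2 x)) (Q z2)
    rw [dist_comm (Q (min z2 x)) (Q z2)] at k6
    linarith
  · have k1 := hd z1 ⟨by linarith [hz1.1], hz1.2⟩
    have k2 := hd z2 ⟨by linarith [hz2.1], hz2.2⟩
    have k3 := dist_triangle_right (Q z1) (Q z2) (Q x)
    linarith

theorem dm_cont (hQ : Continuous Q) (a : ℝ) : Continuous (dm Q a) := by
  rw [Metric.continuous_iff]
  intro x ε hε
  obtain ⟨δ, hδ, h⟩ := Metric.continuous_iff.1 hQ x (ε / 8) (by linarith)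
  refine ⟨δ, hδ, fun y hy => ?_⟩
  have key : ∀ s t, s ≤ t → dist s x < δ → dist t x < δ → dm Q a t ≤ dm Q a s + ε / 2 := by
    intro s t hst hs ht
    have h1 := dm_le hQ a (η := ε / 4) (by linarith) hst (fun z hz => by
      have hz' : dist z x < δ := by
        rw [Real.dist_eq, abs_lt] at hs ht ⊢
        exact ⟨by linarith [hz.1], by linarith [hz.2]⟩
      have h2 := h z hz'
      have h3 := h s hs
      have h4 := dist_triangle_right (Q z) (Q s) (Q x)
      linarith)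
    linarith
  have hx : dist x x < δ := by
    rw [dist_self]
    exact hδ
  rw [Real.dist_eq, abs_lt]
  rcases le_total x y with hxy | hxy
  · have h1 := key x y hxy hx hy
    have h2 := dm_mono hQ a hxy
    exact ⟨by linarith, by linarith⟩
  · have h1 := key y x hxy hy hx
    have h2 := dm_mono hQ a hxy
    exact ⟨by linarith, by linarith⟩

theorem dm_const (hQ : Continuous Q) (a : ℝ) {x y : ℝ} (h : x ≤ y)
    (hc : ∀ z ∈ Icc x y, Q z = Q x) : dm Q a x = dm Q a y := by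
  apply le_antisymm (dm_mono hQ a h)
  have h1 := dm_le hQ a (η := 0) le_rfl h (fun z hz => by rw [hc z hz, dist_self])
  linarith

/-- the function that measures the movement -/
noncomputable def mm (Q : ℝ → Y) (x : ℝ) : ℝ :=
  ∑' n : ℕ, (1 / 2 : ℝ) ^ n * min 1 (dm Q (TopologicalSpace.denseSeq ℝ n) x)

theorem term_nonneg (n : ℕ) (x : ℝ) :
    0 ≤ (1 / 2 : ℝ) ^ n * min 1 (dm Q (TopologicalSpace.denseSeq ℝ n) x) :=
  mul_nonneg (by positivity) (le_min zero_le_one (dm_nonneg _ _))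

theorem term_le (n : ℕ) (x : ℝ) :
    (1 / 2 : ℝ) ^ n * min 1 (dm Q (TopologicalSpace.denseSeq ℝ n) x) ≤ (1 / 2 : ℝ) ^ n :=
  mul_le_of_le_one_right (by positivity) (min_le_left _ _)

theorem term_summable (x : ℝ) :
    Summable fun n : ℕ => (1 / 2 : ℝ) ^ n * min 1 (dm Q (TopologicalSpace.denseSeq ℝ n) x) :=
  Summable.of_nonneg_of_le (fun n => term_nonneg n x) (fun n => term_le n x)
    summable_geometric_two

theorem mm_cont (hQ : Continuous Q) : Continuous (mm Q) := by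
  refine continuous_tsum (u := fun n : ℕ => (1 / 2 : ℝ) ^ n) (fun n => ?_) summable_geometric_two
    (fun n x => ?_)
  · exact continuous_const.mul (continuous_const.min (dm_cont hQ _))
  · rw [Real.norm_eq_abs, abs_of_nonneg (term_nonneg n x)]
    exact term_le n x

theorem term_mono (hQ : Continuous Q) (n : ℕ) {x y : ℝ} (h : x ≤ y) :
    (1 / 2 : ℝ) ^ n * min 1 (dm Q (TopologicalSpace.denseSeq ℝ n) x) ≤
      (1 / 2 : ℝ) ^ n * min 1 (dm Q (TopologicalSpace.denseSeq ℝ n) y) :=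
  mul_le_mul_of_nonneg_left (min_le_min_left _ (dm_mono hQ _ h)) (by positivity)

theorem mm_mono (hQ : Continuous Q) {x y : ℝ} (h : x ≤ y) : mm Q x ≤ mm Q y :=
  (term_summable x).tsum_le_tsum (fun n => term_mono hQ n h) (term_summable y)

theorem mm_const (hQ : Continuous Q) {x y : ℝ} (h : x ≤ y)
    (hc : ∀ z ∈ Icc x y, Q z = Q x) : mm Q x = mm Q y := by
  unfold mm
  congr 1
  funext n
  rw [dm_const hQ _ h hc]

theorem mm_lt (hQ : Continuous Q) {x y : ℝ} (h : x < y) (hne : Q x ≠ Q y) :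
    mm Q x < mm Q y := by
  have ho : IsOpen ({z | Q z ≠ Q y} ∩ Ioo x y) :=
    (isOpen_ne_fun hQ continuous_const).inter isOpen_Ioo
  have hn : ({z | Q z ≠ Q y} ∩ Ioo x y).Nonempty := by
    have h1 : ∀ᶠ z in 𝓝[>] x, Q z ≠ Q y :=
      nhdsWithin_le_nhds ((isOpen_ne_fun hQ continuous_const).mem_nhds hne)
    have h2 : ∀ᶠ z in 𝓝[>] x, z ∈ Ioo x y := Ioo_mem_nhdsGT h
    obtain ⟨z, hz1, hz2⟩ := (h1.and h2).exists
    exact ⟨z, hz1, hz2⟩
  obtain ⟨n, hn1, hn2⟩ := (TopologicalSpace.denseRange_denseSeq ℝ).exists_mem_open ho hn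
  refine (term_summable x).tsum_lt_tsum (i := n) (fun k => term_mono hQ k h.le) ?_
    (term_summable y)
  refine mul_lt_mul_of_pos_left ?_ (by positivity)
  have h1 : dm Q (TopologicalSpace.denseSeq ℝ n) x = 0 := by
    unfold dm
    rw [Icc_eq_empty (not_le.2 hn2.1), image_empty, Metric.diam_empty]
  have h2 : 0 < dm Q (TopologicalSpace.denseSeq ℝ n) y := by
    have h3 : dist (Q (TopologicalSpace.denseSeq ℝ n)) (Q y) ≤
        dm Q (TopologicalSpace.denseSeq ℝ n) y :=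
      Metric.dist_le_diam_of_mem (bdd hQ _ _) (mem_image_of_mem _ ⟨le_rfl, hn2.2.le⟩)
        (mem_image_of_mem _ ⟨hn2.2.le, le_rfl⟩)
    exact (dist_pos.2 hn1).trans_le h3
  rw [h1, min_eq_right zero_le_one]
  exact lt_min zero_lt_one h2

end diam

theorem core {Y : Type} [MetricSpace Y] (Q : ℝ → Y) (m : ℝ → ℝ) (hQ : Continuous Q)
    (hm : Continuous m) (hmono : ∀ x y, x ≤ y → m x ≤ m y)
    (hiff : ∀ x y, x ≤ y → (m x = m y ↔ Q x = Q y)) (hne : Q 0 ≠ Q 1) :
    Arc (Q '' Icc 0 1) (Q 0) (Q 1) := by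
  have hiff' : ∀ x y, (m x = m y ↔ Q x = Q y) := by
    intro x y
    rcases le_total x y with h | h
    · exact hiff x y h
    · rw [eq_comm, hiff y x h, eq_comm]
  have hM : 0 < m 1 - m 0 := by
    have h1 := hmono 0 1 zero_le_one
    have h2 : m 0 ≠ m 1 := fun h => hne ((hiff' 0 1).1 h)
    have h3 := lt_of_le_of_ne h1 h2
    linarith
  have hr : ∀ x ∈ Icc (0 : ℝ) 1, (m x - m 0) / (m 1 - m 0) ∈ Icc (0 : ℝ) 1 := by
    intro x hx
    have h1 := hmono 0 x hx.1
    have h2 := hmono x 1 hx.2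
    exact ⟨div_nonneg (by linarith) hM.le, (div_le_one hM).2 (by linarith)⟩
  let φ : Icc (0 : ℝ) 1 → Icc (0 : ℝ) 1 := fun x => ⟨(m x - m 0) / (m 1 - m 0), hr x x.2⟩
  have hφc : Continuous φ := by
    refine Continuous.subtype_mk ?_ _
    exact ((hm.comp continuous_subtype_val).sub continuous_const).div_const _
  have hφs : Function.Surjective φ := by
    rintro ⟨u, hu⟩
    have h1 : m 0 + u * (m 1 - m 0) ∈ Icc (m 0) (m 1) := by
      refine ⟨?_, ?_⟩
      · have := mul_nonneg hu.1 hM.le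
        linarith
      · have := mul_le_mul_of_nonneg_right hu.2 hM.le
        linarith
    obtain ⟨x, hx, hxu⟩ := intermediate_value_Icc zero_le_one hm.continuousOn h1
    refine ⟨⟨x, hx⟩, Subtype.ext ?_⟩
    show (m x - m 0) / (m 1 - m 0) = u
    rw [hxu]
    field_simp
    ring
  have hφq : IsQuotientMap φ := hφc.isClosedMap.isQuotientMap hφc hφs
  have hφi : ∀ x y : Icc (0 : ℝ) 1, φ x = φ y ↔ Q x = Q y := by
    intro x y
    rw [← hiff', Subtype.ext_iff]
    show (m x - m 0) / (m 1 - m 0) = (m y - m 0) / (m 1 - m 0) ↔ _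
    rw [div_left_inj' hM.ne', sub_left_inj]
  let β : Icc (0 : ℝ) 1 → Y := fun u => Q ((Function.surjInv hφs u : Icc (0 : ℝ) 1) : ℝ)
  have hβφ : ∀ x, β (φ x) = Q x := fun x => (hφi _ _).1 (Function.surjInv_eq hφs (φ x))
  have hβc : Continuous β := by
    rw [hφq.continuous_iff]
    have e : β ∘ φ = fun x : Icc (0 : ℝ) 1 => Q x := funext hβφ
    rw [e]
    exact hQ.comp continuous_subtype_val
  have hβi : Function.Injective β := by
    intro u v huv
    obtain ⟨x, rfl⟩ := hφs u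
    obtain ⟨y, rfl⟩ := hφs v
    rw [hβφ, hβφ] at huv
    exact (hφi x y).2 huv
  have h01 : (0 : ℝ) ≤ 1 := zero_le_one
  refine ⟨fun u => β (projIcc 0 1 h01 u), ?_, ?_, ?_, ?_, ?_⟩
  · exact (hβc.comp continuous_projIcc).continuousOn
  · intro u hu v hv huv
    have h1 := hβi huv
    rw [projIcc_of_mem h01 hu, projIcc_of_mem h01 hv] at h1
    exact congrArg Subtype.val h1
  · show β (projIcc 0 1 h01 0) = Q 0
    have e : projIcc 0 1 h01 0 = φ ⟨0, ⟨le_rfl, h01⟩⟩ := by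
      rw [projIcc_of_mem h01 ⟨le_rfl, h01⟩]
      apply Subtype.ext
      show (0 : ℝ) = (m 0 - m 0) / (m 1 - m 0)
      rw [sub_self, zero_div]
    rw [e, hβφ]
  · show β (projIcc 0 1 h01 1) = Q 1
    have e : projIcc 0 1 h01 1 = φ ⟨1, ⟨h01, le_rfl⟩⟩ := by
      rw [projIcc_of_mem h01 ⟨h01, le_rfl⟩]
      apply Subtype.ext
      show (1 : ℝ) = (m 1 - m 0) / (m 1 - m 0)
      rw [div_self hM.ne']
    rw [e, hβφ]
  · ext y
    constructor
    · rintro ⟨x, hx, rfl⟩
      refine ⟨φ ⟨x, hx⟩, (φ ⟨x, hx⟩).2, ?_⟩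
      show β (projIcc 0 1 h01 (φ ⟨x, hx⟩)) = Q x
      rw [projIcc_of_mem h01 (φ ⟨x, hx⟩).2]
      exact hβφ ⟨x, hx⟩
    · rintro ⟨u, hu, rfl⟩
      exact ⟨((Function.surjInv hφs (projIcc 0 1 h01 u) : Icc (0 : ℝ) 1) : ℝ),
        (Function.surjInv hφs (projIcc 0 1 h01 u)).2, rfl⟩

end PTA

/-- A path contains an arc with the same ends. -/
theorem t_PTA : M_PTA := by
  intro hPTM
  have first : ∀ (Y : Type) [MetricSpace Y] (p : ℝ → Y), ContinuousOn p (Icc 0 1) →
      p 0 ≠ p 1 → ∃ A ⊆ p '' Icc 0 1, Arc A (p 0) (p 1) := by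
    intro Y _ p hp hne
    obtain ⟨q, hq, hq0, hq1, hqp, hqr⟩ := hPTM Y p hp
    have hcl : ∀ x : ℝ, max 0 (min 1 x) ∈ Icc (0 : ℝ) 1 :=
      fun x => ⟨le_max_left _ _, max_le zero_le_one (min_le_left _ _)⟩
    have hcid : ∀ x ∈ Icc (0 : ℝ) 1, max 0 (min 1 x) = x := by
      intro x hx
      rw [min_eq_right hx.2, max_eq_right hx.1]
    let Q : ℝ → Y := fun x => q (max 0 (min 1 x))
    have hQ : Continuous Q :=
      hq.comp_continuous (continuous_const.max (continuous_const.min continuous_id)) hcl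
    have hQr : ∀ x y, x ≤ y → Q x = Q y → ∀ z ∈ Icc x y, Q z = Q x := by
      intro x y hxy h z hz
      exact hqr _ _ (hcl x).1 (max_le_max_left _ (min_le_min_left _ hxy)) (hcl y).2 h _
        ⟨max_le_max_left _ (min_le_min_left _ hz.1), max_le_max_left _ (min_le_min_left _ hz.2)⟩
    have hQ0 : Q 0 = p 0 := by
      show q (max 0 (min 1 0)) = p 0
      rw [hcid 0 ⟨le_rfl, zero_le_one⟩, hq0]
    have hQ1 : Q 1 = p 1 := by
      show q (max 0 (min 1 1)) = p 1
      rw [hcid 1 ⟨zero_le_one, le_rfl⟩, hq1]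
    have hA := PTA.core Q (PTA.mm Q) hQ (PTA.mm_cont hQ) (fun x y h => PTA.mm_mono hQ h)
      (fun x y h => by
        constructor
        · intro hm
          by_contra hne'
          have hlt : x < y := lt_of_le_of_ne h (fun e => hne' (by rw [e]))
          exact absurd hm (PTA.mm_lt hQ hlt hne').ne
        · intro hqq
          exact PTA.mm_const hQ h (hQr x y h hqq)) (by rw [hQ0, hQ1]; exact hne)
    rw [hQ0, hQ1] at hA
    refine ⟨_, ?_, hA⟩
    rintro _ ⟨x, hx, rfl⟩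
    exact hqp ⟨_, hcl x, rfl⟩
  refine ⟨first, ?_⟩
  intro Y _ S a b hab hne
  have h0 : hab.somePath.extend 0 = a := Path.extend_zero _
  have h1 : hab.somePath.extend 1 = b := Path.extend_one _
  obtain ⟨A, hA1, hA2⟩ := first Y hab.somePath.extend hab.somePath.continuous_extend.continuousOn
    (by rw [h0, h1]; exact hne)
  rw [h0, h1] at hA2
  refine ⟨A, hA1.trans ?_, hA2⟩
  rintro _ ⟨x, hx, rfl⟩
  rw [Path.extend_apply _ hx]
  exact hab.somePath_mem _

end BBP
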