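import Pool.Agent.BBP.StmtsB

/-! Module PTM: a path without returns. -/

set_option autoImplicit false

namespace BBP

open Set Topology

namespace PTM

/-- the family of closed sets -/
structure Fam {Y : Type} (p : ℝ → Y) (F : Set ℝ) : Prop where
  cl : IsClosed F
  sub : F ⊆ Icc 0 1
  zero : (0 : ℝ) ∈ F
  one : (1 : ℝ) ∈ F
  gap : ∀ s ∈ F, ∀ t ∈ F, s < t → (∀ x ∈ F, ¬ (s < x ∧ x < t)) → p s = p t

theorem Fam.base {Y : Type} (p : ℝ → Y) : Fam p (Icc (0 : ℝ) 1) where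
  cl := isClosed_Icc
  sub := subset_rfl
  zero := by simp
  one := by simp
  gap := by
    intro s hs t ht hst h
    exact absurd ⟨by linarith, by linarith⟩ (h ((s + t) / 2) ⟨by linarith [hs.1, ht.1],
      by linarith [hs.2, ht.2]⟩)

theorem exists_greatest {F : Set ℝ} (hF : IsClosed F) {a b x : ℝ} (hx : x ∈ F ∩ Icc a b) :
    ∃ l, IsGreatest (F ∩ Icc a b) l :=
  (isCompact_Icc.inter_left hF).exists_isGreatest ⟨x, hx⟩

theorem exists_least {F : Set ℝ} (hF : IsClosed F) {a b x : ℝ} (hx : x ∈ F ∩ Icc a b) :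
    ∃ l, IsLeast (F ∩ Icc a b) l :=
  (isCompact_Icc.inter_left hF).exists_isLeast ⟨x, hx⟩

theorem chain {Y : Type} [MetricSpace Y] (p : ℝ → Y) (hp : ContinuousOn p (Icc 0 1))
    (c : Set (Set ℝ)) (hc : ∀ F ∈ c, Fam p F) (hch : IsChain (· ⊆ ·) c) (hne : c.Nonempty) :
    Fam p (⋂₀ c) := by
  obtain ⟨F0, hF0⟩ := hne
  refine ⟨isClosed_sInter fun F hF => (hc F hF).cl, fun x hx => (hc F0 hF0).sub (hx F0 hF0),
    fun F hF => (hc F hF).zero, fun F hF => (hc F hF).one, ?_⟩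
  intro s hs t ht hst hgap
  have hs1 : s ∈ Icc (0 : ℝ) 1 := (hc F0 hF0).sub (hs F0 hF0)
  have ht1 : t ∈ Icc (0 : ℝ) 1 := (hc F0 hF0).sub (ht F0 hF0)
  by_contra hne
  have hd : 0 < dist (p s) (p t) := dist_pos.2 hne
  have hs2 := Metric.continuousWithinAt_iff.1 (hp s hs1) (dist (p s) (p t) / 2) (by positivity)
  have ht2 := Metric.continuousWithinAt_iff.1 (hp t ht1) (dist (p s) (p t) / 2) (by positivity)
  obtain ⟨δ1, hδ1, hs3⟩ := hs2
  obtain ⟨δ2, hδ2, ht3⟩ := ht2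
  obtain ⟨δ, hδ, hδa, hδb, hδc⟩ : ∃ δ : ℝ, 0 < δ ∧ δ < δ1 ∧ δ < δ2 ∧ s + δ < t - δ := by
    refine ⟨min (min (δ1 / 2) (δ2 / 2)) ((t - s) / 4), ?_, ?_, ?_, ?_⟩
    · exact lt_min (lt_min (by positivity) (by positivity)) (by linarith)
    · have := (min_le_left (min (δ1 / 2) (δ2 / 2)) ((t - s) / 4)).trans (min_le_left _ _)
      linarith
    · have := (min_le_left (min (δ1 / 2) (δ2 / 2)) ((t - s) / 4)).trans (min_le_right _ _)
      linarith
    · have := min_le_right (min (δ1 / 2) (δ2 / 2)) ((t - s) / 4)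
      linarith
  have : Nonempty c := ⟨⟨F0, hF0⟩⟩
  have hdir : Directed (· ⊇ ·) (fun F : c => (F : Set ℝ)) := by
    intro A B
    rcases hch.total A.2 B.2 with h | h
    · exact ⟨A, subset_rfl, h⟩
    · exact ⟨B, h, subset_rfl⟩
  have hemp : Icc (s + δ) (t - δ) ∩ ⋂ F : c, (F : Set ℝ) = ∅ := by
    rw [Set.eq_empty_iff_forall_notMem]
    rintro x ⟨hx1, hx2⟩
    rw [mem_iInter] at hx2
    have hx3 : x ∈ ⋂₀ c := fun F hF => hx2 ⟨F, hF⟩
    exact hgap x hx3 ⟨by linarith [hx1.1], by linarith [hx1.2]⟩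
  obtain ⟨⟨F, hF⟩, hFe⟩ := (isCompact_Icc (a := s + δ) (b := t - δ)).elim_directed_family_closed
    (fun F : c => (F : Set ℝ)) (fun F => (hc F F.2).cl) hemp hdir
  have hFF := hc F hF
  have hsF : s ∈ F := hs F hF
  have htF : t ∈ F := ht F hF
  obtain ⟨s', hs', hs'm⟩ := exists_greatest hFF.cl (a := 0) (b := s + δ) (x := s)
    ⟨hsF, hs1.1, by linarith⟩
  obtain ⟨t', ht', ht'm⟩ := exists_least hFF.cl (a := t - δ) (b := 1) (x := t)
    ⟨htF, by linarith, ht1.2⟩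
  have h1 : s ≤ s' := hs'm ⟨hsF, hs1.1, by linarith⟩
  have h2 : t' ≤ t := ht'm ⟨htF, by linarith, ht1.2⟩
  have h3 : p s' = p t' := by
    apply hFF.gap s' hs'.1 t' ht'.1 (by linarith [hs'.2.2, ht'.2.1])
    rintro x hx ⟨hx1, hx2⟩
    have hxI := hFF.sub hx
    by_cases hxa : x ≤ s + δ
    · have := hs'm ⟨hx, hxI.1, hxa⟩
      linarith
    · by_cases hxb : t - δ ≤ x
      · have := ht'm ⟨hx, hxb, hxI.2⟩
        linarith
      · have : x ∈ Icc (s + δ) (t - δ) ∩ F := ⟨⟨by linarith, by linarith⟩, hx⟩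
        rw [hFe] at this
        exact this
  have h4 : dist (p s') (p s) < dist (p s) (p t) / 2 := by
    apply hs3 (hFF.sub hs'.1)
    rw [Real.dist_eq, abs_of_nonneg (by linarith)]
    linarith [hs'.2.2]
  have h5 : dist (p t') (p t) < dist (p s) (p t) / 2 := by
    apply ht3 (hFF.sub ht'.1)
    rw [Real.dist_eq, abs_of_nonpos (by linarith)]
    linarith [ht'.2.1]
  have h6 := dist_triangle (p s) (p s') (p t)
  rw [dist_comm] at h4
  rw [← h3] at h5
  linarith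

/-- a minimal member -/
theorem exists_min {Y : Type} [MetricSpace Y] (p : ℝ → Y) (hp : ContinuousOn p (Icc 0 1)) :
    ∃ F : Set ℝ, Fam p F ∧ ∀ x ∈ F, ∀ y ∈ F, x < y → p x = p y → ∀ z ∈ F, ¬ (x < z ∧ z < y) := by
  obtain ⟨F, hF⟩ := zorn_superset {F : Set ℝ | Fam p F} (by
    intro c hc hch
    rcases c.eq_empty_or_nonempty with rfl | hne
    · exact ⟨Icc 0 1, Fam.base p, by simp⟩
    · exact ⟨⋂₀ c, chain p hp c (fun F hF => hc hF) hch hne, fun F hF => sInter_subset_of_mem hF⟩)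
  have hFF : Fam p F := hF.prop
  refine ⟨F, hFF, ?_⟩
  intro x hx y hy hxy hpxy z hz hxz
  have h1 : Fam p (F \ Ioo x y) := by
    refine ⟨hFF.cl.sdiff isOpen_Ioo, fun a ha => hFF.sub ha.1, ⟨hFF.zero, ?_⟩, ⟨hFF.one, ?_⟩, ?_⟩
    · intro h
      exact absurd h.1 (not_lt.2 (hFF.sub hx).1)
    · intro h
      exact absurd h.2 (not_lt.2 (hFF.sub hy).2)
    · intro s hs t ht hst hgap
      by_cases hg : ∀ a ∈ F, ¬ (s < a ∧ a < t)
      · exact hFF.gap s hs.1 t ht.1 hst hg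
      · push Not at hg
        obtain ⟨a, ha, ha1, ha2⟩ := hg
        have haI : a ∈ Ioo x y := by
          by_contra hc
          exact hgap a ⟨ha, hc⟩ ⟨ha1, ha2⟩
        have hxF : x ∈ F \ Ioo x y := ⟨hx, fun h => lt_irrefl _ h.1⟩
        have hyF : y ∈ F \ Ioo x y := ⟨hy, fun h => lt_irrefl _ h.2⟩
        have h2 : x ≤ s := by
          by_contra hc
          exact hgap x hxF ⟨not_le.1 hc, haI.1.trans ha2⟩
        have h3 : t ≤ y := by
          by_contra hc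
          exact hgap y hyF ⟨ha1.trans haI.2, not_le.1 hc⟩
        have h4 : s ≤ x := by
          by_contra hc
          exact hs.2 ⟨not_le.1 hc, ha1.trans haI.2⟩
        have h5 : y ≤ t := by
          by_contra hc
          exact ht.2 ⟨haI.1.trans ha2, not_le.1 hc⟩
        rw [le_antisymm h4 h2, le_antisymm h3 h5]
        exact hpxy
  have h2 : F ⊆ F \ Ioo x y := hF.le_of_le h1 sdiff_subset
  exact (h2 hz).2 hxz

end PTM

theorem t_PTM : S_PTM := by
  intro Y _ p hp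
  obtain ⟨F, hF, hmin⟩ := PTM.exists_min p hp
  -- the neighbours
  have hex : ∀ z : ℝ, ∃ l : ℝ, z ∈ Icc (0 : ℝ) 1 → IsGreatest (F ∩ Icc 0 z) l := by
    intro z
    by_cases hz : z ∈ Icc (0 : ℝ) 1
    · obtain ⟨l, hl⟩ := PTM.exists_greatest hF.cl (a := 0) (b := z) (x := 0)
        ⟨hF.zero, le_rfl, hz.1⟩
      exact ⟨l, fun _ => hl⟩
    · exact ⟨0, fun h => absurd h hz⟩
  have hex' : ∀ z : ℝ, ∃ r : ℝ, z ∈ Icc (0 : ℝ) 1 → IsLeast (F ∩ Icc z 1) r := by
    intro z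
    by_cases hz : z ∈ Icc (0 : ℝ) 1
    · obtain ⟨l, hl⟩ := PTM.exists_least hF.cl (a := z) (b := 1) (x := 1)
        ⟨hF.one, hz.2, le_rfl⟩
      exact ⟨l, fun _ => hl⟩
    · exact ⟨0, fun h => absurd h hz⟩
  choose l hl using hex
  choose r hr using hex'
  have hlr : ∀ z ∈ Icc (0 : ℝ) 1, p (l z) = p (r z) := by
    intro z hz
    have h1 := hl z hz
    have h2 := hr z hz
    have h3 : l z ≤ z := h1.1.2.2
    have h4 : z ≤ r z := h2.1.2.1
    rcases (h3.trans h4).lt_or_eq with h5 | h5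
    · apply hF.gap _ h1.1.1 _ h2.1.1 h5
      rintro x hx ⟨hx1, hx2⟩
      have hxI := hF.sub hx
      rcases le_total x z with h6 | h6
      · exact absurd (h1.2 ⟨hx, hxI.1, h6⟩) (not_le.2 hx1)
      · exact absurd (h2.2 ⟨hx, h6, hxI.2⟩) (not_le.2 hx2)
    · rw [h5]
  have hmem : ∀ z ∈ F, l z = z := by
    intro z hz
    have hzI := hF.sub hz
    have h1 := hl z hzI
    exact le_antisymm h1.1.2.2 (h1.2 ⟨hz, hzI.1, le_rfl⟩)
  -- no points between
  have hno : ∀ x y, 0 ≤ x → x ≤ y → y ≤ 1 → (∀ z ∈ F, ¬ (x ≤ z ∧ z ≤ y)) → l x = l y := by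
    intro x y hx hxy hy hn
    have h1 := hl x ⟨hx, hxy.trans hy⟩
    have h2 := hl y ⟨hx.trans hxy, hy⟩
    apply le_antisymm
    · exact h2.2 ⟨h1.1.1, h1.1.2.1, h1.1.2.2.trans hxy⟩
    · apply h1.2
      refine ⟨h2.1.1, h2.1.2.1, ?_⟩
      by_contra hc
      exact hn _ h2.1.1 ⟨(not_le.1 hc).le, h2.1.2.2⟩
  -- points between
  have hyes : ∀ x y, 0 ≤ x → x ≤ y → y ≤ 1 → (∃ z ∈ F, x ≤ z ∧ z ≤ y) →
      x ≤ r x ∧ r x ≤ l y ∧ l y ≤ y := by
    rintro x y hx hxy hy ⟨z, hz, hz1, hz2⟩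
    have h1 := hr x ⟨hx, hxy.trans hy⟩
    have h2 := hl y ⟨hx.trans hxy, hy⟩
    have hzI := hF.sub hz
    refine ⟨h1.1.2.1, ?_, h2.1.2.2⟩
    exact (h1.2 ⟨hz, hz1, hzI.2⟩).trans (h2.2 ⟨hz, hzI.1, hz2⟩)
  refine ⟨fun z => p (l z), ?_, ?_, ?_, ?_, ?_⟩
  · -- continuity
    have hU := isCompact_Icc.uniformContinuousOn_of_continuous hp
    apply UniformContinuousOn.continuousOn
    rw [Metric.uniformContinuousOn_iff] at hU ⊢
    intro ε hε
    obtain ⟨δ, hδ, h⟩ := hU ε hε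
    refine ⟨δ, hδ, ?_⟩
    have key : ∀ x ∈ Icc (0 : ℝ) 1, ∀ y ∈ Icc (0 : ℝ) 1, x ≤ y → dist x y < δ →
        dist (p (l x)) (p (l y)) < ε := by
      intro x hx y hy hxy hd
      by_cases hc : ∃ z ∈ F, x ≤ z ∧ z ≤ y
      · obtain ⟨h1, h2, h3⟩ := hyes x y hx.1 hxy hy.2 hc
        rw [hlr x hx]
        apply h _ (hF.sub (hr x hx).1.1) _ (hF.sub (hl y hy).1.1)
        rw [Real.dist_eq, abs_of_nonpos (by linarith)] at hd ⊢
        linarith
      · push Not at hc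
        rw [hno x y hx.1 hxy hy.2 (fun z hz h => absurd h.2 (not_le.2 (hc z hz h.1))), dist_self]
        exact hε
    intro x hx y hy hd
    rcases le_total x y with hxy | hxy
    · exact key x hx y hy hxy hd
    · rw [dist_comm] at hd ⊢
      exact key y hy x hx hxy hd
  · change p (l 0) = p 0
    rw [hmem 0 hF.zero]
  · change p (l 1) = p 1
    rw [hmem 1 hF.one]
  · rintro _ ⟨z, hz, rfl⟩
    exact ⟨l z, hF.sub (hl z hz).1.1, rfl⟩
  · intro x y hx hxy hy hq z hz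
    change p (l z) = p (l x)
    change p (l x) = p (l y) at hq
    have hxI : x ∈ Icc (0 : ℝ) 1 := ⟨hx, hxy.trans hy⟩
    have hyI : y ∈ Icc (0 : ℝ) 1 := ⟨hx.trans hxy, hy⟩
    have hzI : z ∈ Icc (0 : ℝ) 1 := ⟨hx.trans hz.1, hz.2.trans hy⟩
    by_cases hc : ∃ z ∈ F, x ≤ z ∧ z ≤ y
    · obtain ⟨h1, h2, h3⟩ := hyes x y hx hxy hy hc
      have hrF : r x ∈ F := (hr x hxI).1.1
      have hlF : l y ∈ F := (hl y hyI).1.1
      have hpp : p (r x) = p (l y) := by rw [← hlr x hxI, hq]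
      have hgap : ∀ a ∈ F, ¬ (r x < a ∧ a < l y) := by
        rcases h2.lt_or_eq with h4 | h4
        · exact hmin _ hrF _ hlF h4 hpp
        · rintro a _ ⟨ha1, ha2⟩
          linarith
      rcases lt_or_ge z (r x) with h5 | h5
      · rw [hno x z hx hz.1 hzI.2 ?_]
        rintro a ha ⟨ha1, ha2⟩
        have := (hr x hxI).2 ⟨ha, ha1, (hF.sub ha).2⟩
        linarith
      · rcases lt_or_ge z (l y) with h6 | h6
        · -- `l z = r x`
          have h7 : l z = r x := by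
            apply le_antisymm
            · by_contra hcc
              exact hgap _ (hl z hzI).1.1 ⟨not_le.1 hcc, (hl z hzI).1.2.2.trans_lt h6⟩
            · exact (hl z hzI).2 ⟨hrF, (hF.sub hrF).1, h5⟩
          rw [h7, ← hlr x hxI]
        · have h7 : l z = l y := by
            apply le_antisymm
            · exact (hl y hyI).2 ⟨(hl z hzI).1.1, (hl z hzI).1.2.1, (hl z hzI).1.2.2.trans hz.2⟩
            · exact (hl z hzI).2 ⟨hlF, (hF.sub hlF).1, h6⟩
          rw [h7, hq]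
    · push Not at hc
      rw [hno x z hx hz.1 hzI.2 (fun a ha h => absurd (h.2.trans hz.2) (not_le.2 (hc a ha h.1)))]

end BBP
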