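import Pool.Agent.BBP.Defs

/-!
# BBP, block A: cochains, openness of minimal membranes, dimension, flows

Module `X` proves `theorem t_X : M_X` (or `t_X : S_X` if there is no `M_X`) in the namespace `BBP`, in the file
`Pool/Agent/BBP/A_X.lean`, importing this file.  `CLog` is `Pool.Agent.LIX.CLog` (file `Pool/Agent/LIX/Log.lean`, with many
lemmas: `cLog_convex`, `cLog_homotopy`, `CLog.image`, …).  The files of part 1 and 2 of the project are in `Pool/Agent/CTO/`
(namespace `CTO`); they may be copied or imported.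
-/

set_option autoImplicit false

namespace BBP

open Set Topology CTO

/-! ## 1. Cochains and openness -/

/-- ALT. If two of the five points are equal, say at the places `i < j`, the faces which contain both are zero (an antisymmetric
integer valued function vanishes if two arguments are equal: `2 φ = 0`), and the two other faces differ by a cyclic
permutation of `j - i` arguments and have the signs `(-1)^i`, `(-1)^j`. Ten cases, `linarith`/`omega` after the instances of
`Alt4`. -/
def S_ALT : Prop := ∀ (X : Type) (φ : X → X → X → X → ℤ), Alt4 φ →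
  ∀ a b c d e : X, ¬ [a, b, c, d, e].Nodup → d3 φ a b c d e = 0

/-- SEL. Selection. Cover `X` by finitely many balls `ball (c i) (δ / 2)`, `i : Fin k`, and let `V` be an open shrinking with at most four
sets at every point (`ShrLE X 3`); `lam` a Lebesgue number (`lebesgue_number_lemma_of_metric`): every ball of radius `lam` is
contained in some `V i`; choose `i x` with `ball x lam ⊆ V (i x)`. For every `i` choose a point `q i ∈ V i`, in `N ∩ V i` if this is not
empty; `r x = q (i x)`. For `x ∈ N`, `x ∈ N ∩ V (i x)`. Both `x` and `r x` are in `V (i x) ⊆ ball (c _) (δ / 2)`. If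
`Sm lam [a, b, c, d, e]` then `a ∈ V (i y)` for the five points `y`, so the indices `i y` take at most four values. -/
def S_SEL : Prop := ∀ (X : Type) [MetricSpace X] [CompactSpace X], ShrLE X 3 →
  ∀ (N : Set X) (δ : ℝ), 0 < δ → ∃ (r : X → X) (lam : ℝ), 0 < lam ∧ (∀ x, dist (r x) x < δ) ∧
    (∀ x ∈ N, r x ∈ N) ∧
    ∀ a b c d e : X, Sm lam [a, b, c, d, e] → ¬ [r a, r b, r c, r d, r e].Nodup

/-- an essential 3-cochain `u` on `P` relative to `D`, with the obstruction point `p0` -/
structure EssP {P : Type} [MetricSpace P] (D : Set P) (u : P → P → P → P → ℤ) (p0 : P) :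
    Prop where
  clD : IsClosed D
  nD : p0 ∉ D
  alt : Alt4 u
  cyc : ∀ a b c d e, d3 u a b c d e = 0
  zer : ∃ ε > 0, ∀ a ∈ D, ∀ b ∈ D, ∀ c ∈ D, ∀ d ∈ D, Sm ε [a, b, c, d] → u a b c d = 0
  loc : ∀ W : Set P, IsOpen W → p0 ∈ W → ∃ ψ : P → P → P → ℤ, Alt3 ψ ∧ ∃ ε > 0,
    (∀ a ∉ W, ∀ b ∉ W, ∀ c ∉ W, ∀ d ∉ W, Sm ε [a, b, c, d] → u a b c d = d2 ψ a b c d) ∧
    ∀ a ∈ D, ∀ b ∈ D, ∀ c ∈ D, Sm ε [a, b, c] → ψ a b c = 0
  ess : ¬ ∃ ψ : P → P → P → ℤ, ∃ ε > 0,
    (∀ a b c d, Sm ε [a, b, c, d] → u a b c d = d2 ψ a b c d) ∧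
    ∀ a ∈ D, ∀ b ∈ D, ∀ c ∈ D, Sm ε [a, b, c] → ψ a b c = 0

/-- ROB. The point `e p0` stays in the image under maps near the identity. PROOF. Let `η > 0` with `η < dist (e p0) (e q)` for all `q ∈ D`; `ε` from
`CTO.S_HOM` for `η`. Let `h` be given, `H` the homotopy of S_HOM, and suppose `e p0 ∉ h '' range e`. The set `Z = h '' range e ∪
H '' ((e '' D) ×ˢ Icc 0 1)` is compact and does not contain `e p0`. Let `ρ > 0` such that `ball (e p0) (2 ρ)` is disjoint from `Z` and
`e '' D`, `W = e ⁻¹' ball (e p0) ρ`, and `ψ` from `loc` for `W`. Let `ψ' a b c = ψ a b c` if `a, b, c ∉ W` and `0` otherwise, and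
`Φ (e a) (e b) (e c) (e d) = u a b c d - d2 ψ' a b c d`, `Φ = 0` if one of the points is not in `range e` (`e` is
injective, use `Function.invFun` or a choice). Then `Alt4 Φ`. Small means `Sm` for a sufficiently small number; `e` and its inverse on
the compact set `range e` preserve smallness. (i) `Φ = 0` on small 4-tuples in `Z`: if they are `e a, …` then `a, … ∉ W` and
`u = d2 ψ = d2 ψ'`. (ii) `Θ = d3 Φ` is zero on small 5-tuples in `N = range e ∪ Z`: if all points are in `range e`, `Θ = d3 u - d3 (d2 ψ') = 0`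
(`d3_d2`). Otherwise one of them is in `Z`, so all of them are outside of `ball (e p0) ρ` (small: `< ρ`), and all faces vanish as in
(i). (iii) `r`, `lam` from S_SEL for `N` and a small `δ`: by S_ALT `Θ (r a) … (r e) = 0` for small tuples, `d4 Θ = 0` (`d4_d3`), so by
`prism4` (with `f = id`, `g = r`) `Θ = - d3 (pr4 id r Θ)` on small 5-tuples; let `Φ' = Φ + pr4 id r Θ`: `d3 Φ' = 0` on small 5-tuples of
`X`, and `Φ' = Φ` on small 4-tuples in `N` by (ii), as `r` maps `N` to `N`. (iv) Let `f j a = H (e a, j / m)`, `m` so large that `f j`, `f (j+1)` are close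
(uniform continuity). Sum of `prism3` for `f j`, `f (j+1)` and `Φ'`: on small 4-tuples of `P`,
`Φ' (h (e a)) … - Φ' (e a) … = d2 (∑ j, pr3 (f j) (f (j+1)) Φ')`; the first term is `0` (points of `Z`), the second is
`u - d2 ψ'`. So `u = d2 (ψ' - ∑ …)` on small 4-tuples, and on small triples in `D` both `ψ' = ψ` (`D ∩ W = ∅`) and the
`pr3` (values of `Φ' = Φ` on small tuples in `Z`) vanish: contradiction to `ess`. -/
def S_ROB : Prop := ∀ (X P : Type) [MetricSpace X] [CompactSpace X] [MetricSpace P]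
  [CompactSpace P], IsANR X → ShrLE X 3 →
  ∀ (e : P → X) (D : Set P) (u : P → P → P → P → ℤ) (p0 : P), Continuous e →
  Function.Injective e → EssP D u p0 →
  ∃ ε : ℝ, 0 < ε ∧ ∀ h : X → X, Continuous h → (∀ x, dist (h x) x < ε) → e p0 ∈ h '' range e

def M_ROB : Prop := S_HOM → S_ALT → S_SEL → S_ROB

/-- OL. With `ε` from S_ROB: for a homeomorphism `h` with `dist (h x) x < ε` for all `x`, `h.symm` has the same property, so
`e p0 ∈ h.symm '' range e`, i.e. `h (e p0) ∈ range e`; `range e` is closed; `CTO.S_EFF` (compare `Pool/Agent/CTO/CELL2.lean`). -/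
def S_OL : Prop := ∀ (X P : Type) [MetricSpace X] [CompactSpace X] [MetricSpace P]
  [CompactSpace P], IsANR X → Homog X → ShrLE X 3 →
  ∀ (e : P → X) (D : Set P) (u : P → P → P → P → ℤ) (p0 : P), Continuous e →
  Function.Injective e → EssP D u p0 → e p0 ∈ interior (range e)

def M_OL : Prop := S_EFF → S_ROB → S_OL

/-! ## 2. The cocycle of a map to `ℂ \ 0` -/

/-- COC. `rnd (-r) = - rnd r`, `|r - rnd r| ≤ 1/2`, and `rnd r = n` if `|r - n| < 1/2`. The function `f / ‖f‖` is uniformly continuous on `L`; if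
`x, y` are close then `exp (2 π i (th f y - th f x))` is near `1`, so `th f y - th f x` is within `1/8` of the integer `cc L f x y`. The sum of
the three rounding errors is an integer of absolute value `< 1`. -/
def S_COC : Prop := ∀ (K : Type) [MetricSpace K] [CompactSpace K] (L : Set K) (f : K → ℂ),
  IsClosed L → ContinuousOn f L → (∀ x ∈ L, f x ≠ 0) →
  Alt2 (cc L f) ∧ (∃ ε > 0, ∀ a ∈ L, ∀ b ∈ L, ∀ c ∈ L, Sm ε [a, b, c] → d1 (cc L f) a b c = 0) ∧
  ∃ ε > 0, ∀ x ∈ L, ∀ y ∈ L, dist x y < ε →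
    |th f y - th f x - cc L f x y| ≤ 1 / 16

/-- EXC. If the cocycle extends then the map extends. PROOF: let `φ : Fin n → K → ℝ` be a partition of unity (continuous, `≥ 0`, sum `1`) with supports of
diameter `< ε / 4`, and points `x j` at distance `< ε / 2` from all points of the support of `φ j`, with `x j ∈ L` if the support meets `L`
(drop empty supports). `F x = exp (- 2 π i ∑ j, φ j x * b x (x j))`: it is continuous, because for `x'` near `x` the cocycle
condition gives `b x' (x j) = b x' x + b x (x j)` for the `j` with `φ j x' ≠ 0`, so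
`F x' = exp (- 2 π i ∑ φ j x' * b x (x j))` (`b x' x` is an integer). For `x ∈ L`, `φ j x ≠ 0`: `b x (x j) = cc L f x (x j) = th f (x j) - th f x - s j`
with `|s j| ≤ 1/16` (S_COC), so with `A x = ∑ j, φ j x * th f (x j)` (continuous on `K`), `F x * exp (2 π i A x)` is
`exp (2 π i th f x)` times `exp (2 π i s)`, `|s| ≤ 1/16`; and `f x = ‖f x‖ exp (2 π i th f x)`. So `f / (F exp (2 π i A))` has on `L` values in the
slit plane, has a continuous logarithm there (`cLog_of_slit`), which extends to `K` by Tietze's theorem: `f` extends. -/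
def S_EXC : Prop := ∀ (K : Type) [MetricSpace K] [CompactSpace K] (L : Set K) (f : K → ℂ),
  IsClosed L → ContinuousOn f L → (∀ x ∈ L, f x ≠ 0) → ∀ (b : K → K → ℤ) (ε : ℝ), 0 < ε →
  (∀ x y z, Sm ε [x, y, z] → d1 b x y z = 0) →
  (∀ x ∈ L, ∀ y ∈ L, dist x y < ε → b x y = cc L f x y) → ExtC L univ f

def M_EXC : Prop := S_COC → S_EXC

/-- CEX. The converse on a closed set `E`. Let `F` be the extension, `ψ = cc L f - cc E F`: on `L` we have `F = f`, so `cc E F = cc L f`
there; on small triples in `E`, `d1 (cc E F) = 0` by S_COC. -/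
def S_CEX : Prop := ∀ (K : Type) [MetricSpace K] [CompactSpace K] (L E : Set K) (f : K → ℂ),
  IsClosed L → IsClosed E → L ⊆ E → ContinuousOn f L → (∀ x ∈ L, f x ≠ 0) → ExtC L E f →
  ∃ ψ : K → K → ℤ, Alt2 ψ ∧ (∀ x ∈ L, ∀ y ∈ L, ψ x y = 0) ∧ ∃ ε > 0,
    ∀ a ∈ E, ∀ b ∈ E, ∀ c ∈ E, Sm ε [a, b, c] → d1 (cc L f) a b c = d1 ψ a b c

def M_CEX : Prop := S_COC → S_CEX

/-- minimal membrane in `K` -/
structure MinK {K : Type} [TopologicalSpace K] (L : Set K) (f : K → ℂ) : Prop where
  cl : IsClosed L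
  cont : ContinuousOn f L
  ne : ∀ x ∈ L, f x ≠ 0
  ess : ¬ ExtC L univ f
  min : ∀ W : Set K, IsOpen W → W.Nonempty → Disjoint W L → ExtC L Wᶜ f

/-- minimal connection between `a` and `b` -/
structure MinZ {Z : Type} [TopologicalSpace Z] (a b : Z) : Prop where
  ne : a ≠ b
  ess : ¬ Sepd (univ : Set Z) a b
  min : ∀ O : Set Z, IsOpen O → O.Nonempty → a ∉ O → b ∉ O → Sepd Oᶜ a b

/-- the characteristic function of a ball around `b` -/
noncomputable def chi {Z : Type} [MetricSpace Z] (b : Z) (ρ : ℝ) (z : Z) : ℤ :=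
  if dist z b < ρ then 1 else 0

/-- the boundary of the product -/
def bdP {K Z : Type} (L : Set K) (a b : Z) : Set (K × Z) := L ×ˢ univ ∪ univ ×ˢ {a, b}

/-- VZE. Let `p, q, r, s` be close together and in `bdP L a b`. If one of them has second coordinate `a` then `chi` is `0` at all of them
(`2 ρ ≤ dist a b`), and all terms vanish. If one has second coordinate `b`, `chi = 1` for all of them and `vv = d1 cc`, `d2 (d1 cc) = 0`. Otherwise all first
coordinates are in `L` and `d1 (cc L f) = 0` on the faces by S_COC. -/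
def S_VZE : Prop := ∀ (K Z : Type) [MetricSpace K] [CompactSpace K] [MetricSpace Z]
  [CompactSpace Z] (L : Set K) (f : K → ℂ) (a b : Z) (ρ : ℝ), IsClosed L → ContinuousOn f L →
  (∀ x ∈ L, f x ≠ 0) → 0 < ρ → 2 * ρ ≤ dist a b →
  ∃ ε > 0, ∀ p ∈ bdP L a b, ∀ q ∈ bdP L a b, ∀ r ∈ bdP L a b, ∀ s ∈ bdP L a b,
    Sm ε [p, q, r, s] → d2 (vv L f (chi b ρ)) p q r s = 0

def M_VZE : Prop := S_COC → S_VZE

/-- VNZ. The cochain is not null. PROOF. Suppose `d2 vv = d2 ψ` on small 4-tuples, `ψ = 0` on small triples in `bdP`; let `ζ = vv - ψ`. For `δ > 0` there is a chain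
`a = z 0, …, z N = b` in `Z` with steps `< δ` (the set of the points that can be reached from `a` is open and closed; otherwise
`Sepd univ a b`). Let `i j x = (x, z j)`. On small triples of `K`: `ζ ∘ i 0 = 0` (`chi = 0` near `a`, `ψ = 0` on
`univ ×ˢ {a}`), `ζ ∘ i N = d1 (cc L f)`. By `prism2` for `i j`, `i (j+1)` (the term `pr3 … (d2 ζ)` is `0`, because `d2 ζ = 0` on small
4-tuples): `d1 (cc L f) = d1 κ` with `κ = ∑ j, pr2 (i j) (i (j+1)) ζ`, on small triples of `K`. For `x, y ∈ L` close, `κ x y = 0`: the terms are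
`ζ ((x, z j), (x, z (j+1)), (y, z (j+1)))` and `ζ ((x, z j), (y, z j), (y, z (j+1)))`, where `ψ = 0` and
`vv = d1 cc x x y * _ = 0` resp. `d1 cc x y y * _ = 0` (antisymmetry). S_EXC with `b = cc L f - κ` contradicts `¬ ExtC L univ f`. -/
def S_VNZ : Prop := ∀ (K Z : Type) [MetricSpace K] [CompactSpace K] [MetricSpace Z]
  [CompactSpace Z] (L : Set K) (f : K → ℂ) (a b : Z) (ρ : ℝ), IsClosed L → ContinuousOn f L →
  (∀ x ∈ L, f x ≠ 0) → ¬ ExtC L univ f → ¬ Sepd (univ : Set Z) a b → 0 < ρ → 2 * ρ ≤ dist a b →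
  ¬ ∃ ψ : K × Z → K × Z → K × Z → ℤ, ∃ ε > 0,
    (∀ p q r s, Sm ε [p, q, r, s] → d2 (vv L f (chi b ρ)) p q r s = d2 ψ p q r s) ∧
    ∀ p ∈ bdP L a b, ∀ q ∈ bdP L a b, ∀ r ∈ bdP L a b, Sm ε [p, q, r] → ψ p q r = 0

def M_VNZ : Prop := S_COC → S_EXC → S_VNZ

/-- VLO. The cochain is null away from the point. PROOF. Let `ψK` be from S_CEX for `E = WKᶜ` and `Za, Zb` (closed, disjoint, union `OZᶜ`,
`a ∈ Za`, `b ∈ Zb`) from `Sepd OZᶜ a b`. Let `χ' z = 1` if `infDist z Zb ≤ infDist z Za` and `0` otherwise: it is constant on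
`ball z δ` for every `z ∉ OZ`, with a fixed `δ > 0` (depending on the positive distance of `Za` and `Zb`). Let `κ p q = ψK p.1 q.1 * max (χ' p.2) (χ' q.2)` and, for `p, q, r`:
`η p q r = d1 (cc L f) p.1 q.1 r.1` if `χ' = 1` at all three points, `0` if `χ' = 0` at all three, and `d1 κ p q r` otherwise. Then
`d2 η = 0` on small 4-tuples of the complement of `WK ×ˢ OZ`: if `χ'` is constant on the tuple this is clear (`d2_d1`). Otherwise no second coordinate is in
`OZᶜ` (small tuple), so all first coordinates are in `WKᶜ`, and on all four faces `η = d1 κ` (if `χ' = 1` on the face: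
`d1 cc = d1 ψK` there). `ψ = vv L f (chi b ρ) - η`: `d2 ψ = d2 vv` there. On small triples of `bdP L a b` it vanishes: near second coordinate `a` both `chi = 0` and
`χ' = 0`; near `b` both are `1` and `vv = d1 cc = η`; otherwise the first coordinates are in `L` and `d1 cc = 0` (S_COC), `ψK = 0`. Antisymmetry is
clear (`max` is symmetric). -/
def S_VLO : Prop := ∀ (K Z : Type) [MetricSpace K] [CompactSpace K] [MetricSpace Z]
  [CompactSpace Z] (L : Set K) (f : K → ℂ) (a b : Z) (ρ : ℝ), IsClosed L → ContinuousOn f L →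
  (∀ x ∈ L, f x ≠ 0) → 0 < ρ → 2 * ρ ≤ dist a b →
  ∀ (WK : Set K) (OZ : Set Z), IsOpen WK → IsOpen OZ → Disjoint WK L → a ∉ OZ → b ∉ OZ →
  ExtC L WKᶜ f → Sepd OZᶜ a b →
  ∃ ψ : K × Z → K × Z → K × Z → ℤ, Alt3 ψ ∧ ∃ ε > 0,
    (∀ p ∉ WK ×ˢ OZ, ∀ q ∉ WK ×ˢ OZ, ∀ r ∉ WK ×ˢ OZ, ∀ s ∉ WK ×ˢ OZ, Sm ε [p, q, r, s] →
      d2 (vv L f (chi b ρ)) p q r s = d2 ψ p q r s) ∧
    ∀ p ∈ bdP L a b, ∀ q ∈ bdP L a b, ∀ r ∈ bdP L a b, Sm ε [p, q, r] → ψ p q r = 0

def M_VLO : Prop := S_COC → S_CEX → S_VLO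

/-- OPA. Minimal membranes are open. PROOF: let `x ∉ L`, `z ≠ a, b`, `ρ = dist a b / 2`. `EssP (bdP L a b) (d2 (vv L f (chi b ρ))) (x, z)`: `alt` as `d1 (cc L f)` and `max` are
antisymmetric/symmetric (`Alt2 (cc L f)`: S_COC); `cyc` is `d3_d2`; `zer`, `loc`, `ess` are VZE, VLO (with a box `WK ×ˢ OZ ⊆ W`) and VNZ. By S_OL `e (x, z)` is an interior
point of `range e`. The set `e '' (Lᶜ ×ˢ {a, b}ᶜ)` is open: `e` is a homeomorphism onto its range (compact), so the image is `range e ∩ O` with `O`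
open, and all its points are interior points of `range e`. -/
def S_OPA : Prop := ∀ (X K Z : Type) [MetricSpace X] [CompactSpace X] [MetricSpace K]
  [CompactSpace K] [MetricSpace Z] [CompactSpace Z], IsANR X → Homog X → ShrLE X 3 →
  ∀ (e : K × Z → X) (L : Set K) (f : K → ℂ) (a b : Z), Continuous e → Function.Injective e →
  MinK L f → MinZ a b → IsOpen (e '' (Lᶜ ×ˢ {a, b}ᶜ))

def M_OPA : Prop := S_OL → S_COC → S_VZE → S_VNZ → S_VLO → S_OPA

/-! ## 3. Dimension -/

/-- OBC. Dimension 2 gives a map to `ℂ \ 0` that cannot be extended. COPY `Pool/Agent/CTO/OBS0.lean` with 3-element sets `s` instead of 4-element sets: cover without a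
shrinking with at most 2 sets at a point, shrinking `V` with at most 3 sets at a point, partition of unity `φ`; for `s = {a, b, c}`, `K s`, `L s` as
there, `f = (φ a - 1/3) + i (φ b - 1/3)` without zeros on `L s`; an extension `F = F1 + i F2`, `F3 = - F1 - F2`, `M = max (-F1) (-F2) (-F3) > 0` gives
`ψ j = 1/3 + F j / (3 M)`. -/
def S_OBC : Prop := ∀ (X : Type) [MetricSpace X] [CompactSpace X], ShrLE X 2 → ¬ ShrLE X 1 →
  ∃ (L K : Set X) (f : X → ℂ), IsClosed L ∧ IsClosed K ∧ L ⊆ K ∧ ContinuousOn f L ∧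
    (∀ y ∈ L, f y ≠ 0) ∧ ¬ ExtC L K f

/-- EQU. The equator. Let `f = (f 0, f 1, f 2)` on `L`. Extend `f 2` to a continuous `h : K → ℝ` (Tietze), `K0 = {x ∈ K | h x = 0}`, `L0 = L ∩ K0`. On `L0`, `f 0 + i f 1` has
no zero; extend it (hypothesis) to `G` on `K0` without zeros. The function `f 0 + i f 1` on `L` and `G` on `K0` agree on `L ∩ K0`; extend them to a continuous
`G' : K → ℂ` (Tietze, closed set `L ∪ K0`). `F = (re G', im G', h)` has no zero and extends `f`. -/
def S_EQU : Prop := ∀ (X : Type) [MetricSpace X] [CompactSpace X],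
  (∀ (L K : Set X) (f : X → ℂ), IsClosed L → IsClosed K → L ⊆ K → ContinuousOn f L →
    (∀ y ∈ L, f y ≠ 0) → ExtC L K f) →
  ∀ (L K : Set X) (f : X → R3), IsClosed L → IsClosed K → L ⊆ K → ContinuousOn f L →
    (∀ y ∈ L, f y ≠ 0) → Ext L K f

/-- NEX. By contradiction: all maps to `ℂ \ 0` extend, so by S_EQU all maps to `ℝ³ \ 0`, so `ShrLE K 2` by `CTO.S_OBS0`, so `ShrLE K 1` by
S_OBC. -/
def S_NEX : Prop := ∀ (X : Type) [MetricSpace X] [CompactSpace X], ShrLE X 3 → ¬ ShrLE X 1 →
  ∃ (L K : Set X) (f : X → ℂ), IsClosed L ∧ IsClosed K ∧ L ⊆ K ∧ ContinuousOn f L ∧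
    (∀ y ∈ L, f y ≠ 0) ∧ ¬ ExtC L K f

def M_NEX : Prop := S_OBS0 → S_OBC → S_EQU → S_NEX

/-- KMN. A minimal `K0` (compare `Pool/Agent/CTO/MIN.lean`, `OBS1.lean`): Zorn for the closed sets `K'` with `L ⊆ K' ⊆ K`, `¬ ExtC L K' f`; in the subtype `K0` take
`L' = Subtype.val ⁻¹' L`, `f ∘ Subtype.val`. For `W` open in the subtype, nonempty and disjoint from `L'`, `K0 \ W` is a smaller closed set that contains
`L`. -/
def S_KMN : Prop := ∀ (X : Type) [MetricSpace X] [CompactSpace X] (L K : Set X) (f : X → ℂ),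
  IsClosed L → IsClosed K → L ⊆ K → ContinuousOn f L → (∀ y ∈ L, f y ≠ 0) → ¬ ExtC L K f →
  ∃ (K0 : Set X) (L' : Set K0) (f' : K0 → ℂ), IsClosed K0 ∧ MinK L' f'

/-- DI0. Suppose that any two different points are separated. Every point `x` of an open set `u` has a clopen neighbourhood contained in `u` (separate `x` from the
points of the compact set `uᶜ` by clopen sets, finite intersection). So a finite open cover has a finite refinement by clopen sets
`V 1, …, V m`, and the sets `V i \ (V 1 ∪ … ∪ V (i-1))` are a disjoint open refinement: `CovDimLE Z 0`. -/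
def S_DI0 : Prop := ∀ (Z : Type) [MetricSpace Z] [CompactSpace Z], ¬ CovDimLE Z 0 →
  ∃ a b : Z, a ≠ b ∧ ¬ Sepd univ a b

/-- ZMN. Minimal connection. Zorn for the closed sets `E` with `a, b ∈ E`, `¬ Sepd E a b`: if the intersection `E` of a chain is separated by `A, B`, take disjoint open
neighbourhoods of `A` and `B`; by compactness some member of the chain is contained in their union, so it is separated. In the subtype `Z0` of a minimal set:
`Sepd` in the subtype and in `Z` correspond to each other. -/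
def S_ZMN : Prop := ∀ (Z : Type) [MetricSpace Z] [CompactSpace Z] (a b : Z), a ≠ b →
  ¬ Sepd univ a b → ∃ (Z0 : Set Z) (a' b' : Z0), IsClosed Z0 ∧ MinZ a' b'

/-- PEX. Approximation on products of 1-dimensional spaces. Let `U` be a finite cover of `K` and `U'` of `Z` such that `f` varies by less than `ε / 2` on
`U i ×ˢ U' j` (uniform continuity), all nonempty, `φ`, `φ'` partitions of unity subordinate to shrinkings with at most 2 sets at every
point, `v i j = f (x i, z j)`, `q (x, z) = ∑ i j, φ i x * φ' j z • v i j`. At `(x, z)` only two indices `i, i'` and two indices `j, j'` matter, so `q (x, z)` is in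
the range of the `C^1` map `(s, t) ↦ (1-s)(1-t) v i j + s (1-t) v i' j + (1-s) t v i j' + s t v i' j'` from `ℝ²` to `R3` (`EuclideanSpace ℝ (Fin 2)` or `ℝ × ℝ`). The complement of the
range of each of these finitely many maps is dense, moreover (`ContDiff.dimH_range_le` or `ContDiff.dense_compl_range_of_finrank_lt_finrank`
applied to one `C^1` map at a time) the ranges are σ-compact (images of `ℝ²`), hence each complement is a dense `Gδ` and the intersection of finitely many is dense
(Baire); or use Hausdorff dimension `dimH` of the finite union. Take `w` in it with `‖w‖ < ε / 2`, `p = q - w`. -/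
def S_PEX : Prop := ∀ (K Z : Type) [MetricSpace K] [CompactSpace K] [MetricSpace Z]
  [CompactSpace Z], ShrLE K 1 → ShrLE Z 1 → ∀ f : K × Z → R3, Continuous f → ∀ ε : ℝ, 0 < ε →
  ∃ p : K × Z → R3, Continuous p ∧ (∀ x, p x ≠ 0) ∧ ∀ x, dist (p x) (f x) < ε

/-- NPR. Suppose `¬ ShrLE (K × Z) 2`; `L, K', f` from `CTO.S_OBS0`. Tietze extension `f'` of `f` to `K × Z`; `p` from S_PEX for `f'` and
`ε = ` a positive lower bound of `‖f‖` on `L` (compact); `CTO.S_HEP` for `P = K × Z`, `Q = L` (the segment from `f x` to `p x` does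
not contain 0): `f` extends to `K × Z`. Contradiction. -/
def S_NPR : Prop := ∀ (K Z : Type) [MetricSpace K] [CompactSpace K] [MetricSpace Z]
  [CompactSpace Z], ShrLE (K × Z) 3 → ShrLE K 1 → ShrLE Z 1 → ShrLE (K × Z) 2

def M_NPR : Prop := S_OBS0 → S_HEP → S_PEX → S_NPR

/-- EMB. Closed subspaces: `P` is homeomorphic to the closed subset `range e` of `X`; `CTO.S_SUBD` and invariance of `ShrLE` under homeomorphisms. -/
def S_EMB : Prop := ∀ (X P : Type) [MetricSpace X] [CompactSpace X] [MetricSpace P]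
  [CompactSpace P] (n : ℕ) (e : P → X), Continuous e → Function.Injective e → ShrLE X n →
  ShrLE P n

def M_EMB : Prop := S_SUBD → S_EMB

/-- INT. The interval. `≤ 1`: Lebesgue number `δ` of the cover; divide `[-a, a]` in equal closed intervals of length `< δ / 2`, and take small open
neighbourhoods of them (each meets only the two neighbours); assign to each of them a `U i` that contains it, and take unions (`ShrLE` asks for a shrinking indexed by `i`; the
number of indices at a point does not increase); or use `CovDimLE` and `CTO.S_SHR`. `¬ ≤ 0`: connectedness and the cover by `[-a, a)` and `(-a, a]`. Monotone in `n`: clear. -/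
def S_INT : Prop := (∀ a : ℝ, 0 < a → ShrLE (Icc (-a) a) 1 ∧ ¬ ShrLE (Icc (-a) a) 0) ∧
  ∀ (X : Type) [TopologicalSpace X] (m n : ℕ), m ≤ n → ShrLE X m → ShrLE X n

/-! ## 4. Flows and local contractibility -/

/-- FBX. Flow box. Let `φ T p ≠ p`, `T > 0` (replace `T` by `-T` if necessary), `g x = min (dist x p) 1` or `dist x p`, and `θ x = ∫ s in 0..T, g (φ s x)`: continuous. `θ (φ t x) = ∫ s in t..(t+T), g (φ s x)`, so
`t ↦ θ (φ t x)` has the derivative `g (φ (t+T) x) - g (φ t x)`, which is `≥ c = g (φ T p) / 2 > 0` if `x` is near `p` and `|t|` small, say for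
`x ∈ B = closedBall p r`, `|t| ≤ 2 a`. Let `B' = closedBall p r'`, `r' < r` such that `φ t x ∈ B` for `x ∈ B'`, `|t| ≤ a`, and `S = {x ∈ B | θ x = θ p}` (closed). Injectivity:
`φ t x = φ t' x'`, `x, x' ∈ S`, `|t|, |t'| ≤ a`: `x' = φ (t - t') x`, `|t - t'| ≤ 2 a`, and `θ` is strictly increasing along the orbit of `x ∈ B` for times in `[-2a, 2a]`, so `t = t'`. The image
contains a neighbourhood of `p`: for `y ∈ B'` near `p`, `|θ y - θ p| < c a`, so by the intermediate value theorem there is `|t| ≤ a` with `θ (φ t y) = θ p`,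
`φ t y ∈ B`, so `y = φ (-t) (φ t y)`. -/
def S_FBX : Prop := ∀ (X : Type) [MetricSpace X] [CompactSpace X] (φ : ℝ → X → X),
  (Continuous fun p : ℝ × X => φ p.1 p.2) → (∀ x, φ 0 x = x) →
  (∀ s t x, φ (s + t) x = φ s (φ t x)) → ∀ (p : X) (T : ℝ), φ T p ≠ p →
  ∃ (S : Set X) (a : ℝ), IsClosed S ∧ 0 < a ∧
    InjOn (fun q : X × ℝ => φ q.2 q.1) (S ×ˢ Icc (-a) a) ∧
    (fun q : X × ℝ => φ q.2 q.1) '' (S ×ˢ Icc (-a) a) ∈ 𝓝 p

/-- FLP. From a flow to a product. `K = S`, `Z = Icc (-a) a` (subtypes), `e (s, t) = φ t s`, from S_FBX. By `CTO.S_SHR` we may use `ShrLE`. If `ShrLE (K × Z) 2`: the image `N` of `e` is a closed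
neighbourhood of `p` homeomorphic to `K × Z`, by homogeneity every point has a closed neighbourhood with `ShrLE _ 2`, finitely many cover `X`, so `ShrLE X 2` by
`CTO.S_SUM`: contradiction. `¬ ShrLE Z 0`: S_INT. If `ShrLE K 0` then `ShrLE K 1`, `ShrLE Z 1` (S_INT), `ShrLE (K × Z) 3` (S_EMB) and S_NPR gives
`ShrLE (K × Z) 2`. -/
def S_FLP : Prop := ∀ (X : Type) [MetricSpace X] [CompactSpace X], Homog X → ShrLE X 3 →
  ¬ ShrLE X 2 → HasFlow X → HasProduct X

def M_FLP : Prop := S_SHR → S_SUM → S_INT → S_NPR → S_EMB → S_FBX → S_FLP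

/-- ROT. Manifolds have nontrivial flows. Let `V` be a chart, `h : V ≃ₜ R3`. On `R3` let `ψ t v` be the rotation of the first two coordinates by the angle
`t * max 0 (1 - ‖v‖)`, a flow that is the identity for `‖v‖ ≥ 1`, nontrivial. `φ t x = h.symm (ψ t (h x))` for `x ∈ V`, `φ t x = x` otherwise. It is continuous: on the open
set `univ ×ˢ V` clear, and on the open set `univ ×ˢ (h.symm '' closedBall 0 1)ᶜ` it is the identity; these two open sets cover (the compact set `h.symm '' closedBall 0 1` is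
closed as `X` is Hausdorff). -/
def S_ROT : Prop := ∀ (X : Type) [TopologicalSpace X], IsMfd3 X → Nonempty X → HasFlow X

/-- LCA. ANRs are locally contractible. As in `Pool/Agent/CTO/HOM.lean`: `X` in a normed space by an isometric embedding `e`, `r : Ω → X` the retraction; there is `δ > 0` such that
`u ∈ ball (e x) δ` implies `u ∈ Ω`, `r u ∈ W`; `W1 = ball x δ ∩ W` (with `W1 ⊆ W`), `H (y, t) = r ((1 - t) • e y + t • e x)`. -/
def S_LCA : Prop := ∀ (X : Type) [MetricSpace X] [CompactSpace X], IsANR X →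
  ∀ (x : X) (W : Set X), IsOpen W → x ∈ W → ∃ W1 ⊆ W, IsOpen W1 ∧ x ∈ W1 ∧
    ∃ H : X × ℝ → X, ContinuousOn H (W1 ×ˢ Icc 0 1) ∧ (∀ y ∈ W1, H (y, 0) = y) ∧
      (∀ y ∈ W1, H (y, 1) = x) ∧ ∀ y ∈ W1, ∀ t ∈ Icc (0 : ℝ) 1, H (y, t) ∈ W

end BBP
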