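import Pool.Agent.BBP.Defs

/-!
# BBP, block B: arcs, simple closed curves, logarithms, the Jordan curve theorem, Janiszewski's theorem

Module `X` proves `theorem t_X : M_X` (or `t_X : S_X` if there is no `M_X`) in the namespace `BBP`, in the file
`Pool/Agent/BBP/B_X.lean`, importing this file. `CLog A f`: `f` has a continuous logarithm on `A`
(`Pool/Agent/LIX/Log.lean`, with many lemmas). `Scp γ`: `γ : ℝ → Y` has period 1 and parametrises a simple closed
curve (scc); `Scc C`; `Arc A a b`; `Gen C f`; `Deg C f g n`; `Contr T C`; `Mem L f Q`; `ins C`; `Ax Y`: see `Defs.lean`.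
-/

set_option autoImplicit false

namespace BBP

open Set Topology
open Pool.Agent.LIX (CLog)

/-! ## 1. Arcs and simple closed curves -/

/-- PTM. A path without returns. PROOF. Let `𝓕` be the family of the closed sets `F ⊆ [0, 1]` with `0, 1 ∈ F` and `p s = p t` for all `s < t` in `F` with
`(s, t) ∩ F = ∅`. Zorn: the intersection `F` of a nonempty chain in `𝓕` is in `𝓕`: let `s < t` be in `F`, `(s, t) ∩ F = ∅`; for small `δ` the compact set `[s + δ, t - δ]` is
disjoint from some member `F'` of the chain (compactness); let `s' ∈ F'` be maximal with `s' ≤ s + δ` and `t' ∈ F'` minimal with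
`t' ≥ t - δ`: `s ≤ s' < s + δ`, `t - δ < t' ≤ t`, `p s' = p t'`; let `δ → 0`. Let `F` be minimal in `𝓕`: if `x < y` are in `F` and `p x = p y` then
`(x, y) ∩ F = ∅` (otherwise `F \ (x, y)` is a smaller member). Let `q z = p (sSup (F ∩ [0, z]))`: on the complementary intervals `(s, t)` of `F` it is constant with the
value `p s = p t`, on `F` it is `p`. Continuity at `z ∈ F`: for `z' > z` near `z` the point `sSup (F ∩ [0, z'])` is between `z` and `z'`; for `z' < z` use
`q z' = p (sInf (F ∩ [z', 1]))`. If `q x = q y`, `x ≤ y`: let `x' = sInf (F ∩ [x, 1])`, `y' = sSup (F ∩ [0, y])`. If `y' < x'` then `q` is constant on `[x, y]`; if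
`x' ≤ y'` then `p x' = q x = q y = p y'` so `(x', y') ∩ F = ∅`, and `q` is constant on `[x, x']`, `[x', y']`, `[y', y]`. -/
def S_PTM : Prop := ∀ (Y : Type) [MetricSpace Y] (p : ℝ → Y), ContinuousOn p (Icc 0 1) →
  ∃ q : ℝ → Y, ContinuousOn q (Icc 0 1) ∧ q 0 = p 0 ∧ q 1 = p 1 ∧
    q '' Icc 0 1 ⊆ p '' Icc 0 1 ∧
    ∀ x y, 0 ≤ x → x ≤ y → y ≤ 1 → q x = q y → ∀ z ∈ Icc x y, q z = q x

/-- PTA. A path contains an arc with the same ends. PROOF. Let `q` be from S_PTM. Let `a n`, `n : ℕ`, be an enumeration of a dense subset of `[0, 1]` (rational numbers) and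
`m x = ∑' n, 2⁻ⁿ * min 1 (Metric.diam (q '' Icc (a n) x))` for `x ∈ [0, 1]`. Every term is monotone in `x` (bounded sets, `Metric.diam_mono`) and continuous (for `x < x'` the diameters differ by at most twice the
oscillation of `q` on `[x, x']`; if `x < a n` the first is `0`), so `m` is continuous and monotone on `[0, 1]`, `m 0 = 0`. For `x < x'`: `m x = m x'` iff `q` is constant on
`[x, x']`: if it is not constant, take `a n ∈ (x, x')` such that `q` is not constant on `[a n, x']`. As `q 0 ≠ q 1`, `M = m 1 > 0`. Let `α u = q x` where `m x = u M`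
(intermediate value theorem; independent of the choice). `α` is injective: `q x = q x'` implies that `q` is constant between, so `m x = m x'`. It is continuous, because
`α ∘ (m / M) = q` and `m / M : [0, 1] → [0, 1]` is a continuous surjection of compact Hausdorff spaces, so a quotient map. Last statement: `JoinedIn` gives a path. -/
def S_PTA : Prop := (∀ (Y : Type) [MetricSpace Y] (p : ℝ → Y), ContinuousOn p (Icc 0 1) →
    p 0 ≠ p 1 → ∃ A ⊆ p '' Icc 0 1, Arc A (p 0) (p 1)) ∧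
  ∀ (Y : Type) [MetricSpace Y] (S : Set Y) (a b : Y), JoinedIn S a b → a ≠ b →
    ∃ A ⊆ S, Arc A a b

def M_PTA : Prop := S_PTM → S_PTA

/-- ARB. Basic facts on arcs. `α : [0, 1] → A` is a homeomorphism. Logarithms: `cLog_convex` on `[0, 1]` and `CLog.image`. First hit: `w = α t`, `t` minimal with `α t ∈ N`.
Reparametrise affinely for subarcs. -/
def S_ARB : Prop := ∀ (Y : Type) [MetricSpace Y] (A : Set Y) (a b : Y), Arc A a b →
  a ≠ b ∧ a ∈ A ∧ b ∈ A ∧ Arc A b a ∧ IsCompact A ∧ IsConnected A ∧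
  (∀ f : Y → ℂ, ContinuousOn f A → (∀ x ∈ A, f x ≠ 0) → CLog A f) ∧
  (∀ x ∈ A, ∀ y ∈ A, x ≠ y → ∃ B ⊆ A, Arc B x y) ∧
  IsConnected (A \ {a, b}) ∧ A ⊆ closure (A \ {a, b}) ∧ IsConnected (A \ {a}) ∧
  (∀ N : Set Y, IsClosed N → b ∈ N → a ∉ N → ∃ w ∈ N, ∃ B ⊆ A, Arc B a w ∧ B ∩ N = {w}) ∧
  ∃ α : ℝ → Y, ContinuousOn α (Icc 0 1) ∧ α 1 = a ∧ α 0 = b ∧ α '' Icc 0 1 = A

/-- SCA. Arcs of a parametrised scc: `γ` is injective on every half-open interval of length 1 (subtract integers), so on `[s, t]` if `t < s + 1`. -/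
def S_SCA : Prop := ∀ (Y : Type) [MetricSpace Y] (γ : ℝ → Y), Scp γ →
  (∀ s : ℝ, InjOn γ (Ico s (s + 1)) ∧ γ '' Icc s (s + 1) = range γ) ∧
  ∀ s t : ℝ, s < t → t < s + 1 → Arc (γ '' Icc s t) (γ s) (γ t) ∧
    Arc (γ '' Icc t (s + 1)) (γ t) (γ s) ∧ γ '' Icc s t ∪ γ '' Icc t (s + 1) = range γ ∧
    γ '' Icc s t ∩ γ '' Icc t (s + 1) = {γ s, γ t}

/-- SCB. Facts on scc's, from S_SCA. (i) for `x = γ t0` take `s = t0 - δ`, `t = t0 + δ`. (iii) otherwise there are `x n = γ (s n)`, `y n = γ (t n)` with `dist → 0`, `s n ≤ t n < s n + 1`, such that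
both arcs have diameter `≥ ε`; a limit point `(s, t)` has `γ s = γ t`, so `t = s` or `t = s + 1`, and then one of the two arcs is small (uniform continuity). -/
def S_SCB : Prop := ∀ (Y : Type) [MetricSpace Y] (C : Set Y), Scc C →
  IsCompact C ∧ IsConnected C ∧ (∀ x ∈ C, IsConnected (C \ {x})) ∧
  (∀ x ∈ C, ∀ W : Set Y, IsOpen W → x ∈ W → ∃ (A B : Set Y) (a b : Y), Arc A a b ∧ Arc B a b ∧
    A ∪ B = C ∧ A ∩ B = {a, b} ∧ x ∈ B ∧ x ∉ A ∧ B ⊆ W) ∧
  (∀ a ∈ C, ∀ b ∈ C, a ≠ b → ∃ A B : Set Y, Arc A a b ∧ Arc B a b ∧ A ∪ B = C ∧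
    A ∩ B = {a, b}) ∧
  (∀ ε : ℝ, 0 < ε → ∃ η > 0, ∀ x ∈ C, ∀ y ∈ C, x ≠ y → dist x y < η → ∃ B ⊆ C, Arc B x y ∧
    ∀ u ∈ B, ∀ v ∈ B, dist u v < ε) ∧
  (∀ A B : Set Y, ∀ a b : Y, Arc A a b → Arc B a b → A ∪ B = C → A ∩ B = {a, b} →
    ∀ x ∈ C, x ∉ A → ∃ W : Set Y, IsOpen W ∧ x ∈ W ∧ W ∩ C ⊆ B \ {a, b})

def M_SCB : Prop := S_SCA → S_SCB

/-- GLU. Two arcs with the same ends and no other common point form an scc: `γ` runs through `A` on `[0, 1/2]` and backwards through `B` on `[1/2, 1]`, extended periodically (`Int.fract`,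
continuity as the values at `0` and `1` agree; or use `Function.Periodic` lifts/`AddCircle`). Three arcs: `A ∪ B` is an arc if `A` is an arc from `a` to `b`, `B` from `b` to `c`,
`A ∩ B = {b}`. -/
def S_GLU : Prop := (∀ (Y : Type) [MetricSpace Y] (A B : Set Y) (a b : Y), Arc A a b → Arc B a b →
    A ∩ B = {a, b} → Scc (A ∪ B) ∧ ∃ γ : ℝ → Y, Scp γ ∧ range γ = A ∪ B ∧ γ 0 = a ∧
      γ (1 / 2) = b ∧ γ '' Icc 0 (1 / 2) = A ∧ γ '' Icc (1 / 2) 1 = B) ∧
  ∀ (Y : Type) [MetricSpace Y] (A B : Set Y) (a b c : Y), Arc A a b → Arc B b c →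
    A ∩ B = {b} → Arc (A ∪ B) a c

/-- DEG. Degrees. (1) `f (γ t) = exp (2 π i t)` is well defined and continuous on `C` (`γ : [0, 1] → C` is a quotient map). For a function `g` on `C` without zeros, `g ∘ γ` has a
continuous logarithm `θ` on `[0, 1]` (`cLog_convex`), `θ 1 - θ 0 = 2 π i n` with an integer `n`. (5) if `θ 1 = θ 0` then `θ` descends to a logarithm on `C`; conversely two
logarithms of `g ∘ γ` differ by a constant. (3) `g / f ^ n` has the logarithm `θ t - 2 π i n t`, whose end values agree. (4) `f ^ n` has the logarithm `2 π i n t`: equal end values iff `n = 0`. -/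
def S_DEG : Prop := ∀ (Y : Type) [MetricSpace Y] (C : Set Y), Scc C →
  (∃ f : Y → ℂ, Gen C f) ∧
  (∀ f : Y → ℂ, Gen C f → ContinuousOn f C ∧ (∀ x ∈ C, f x ≠ 0) ∧
    (∀ g : Y → ℂ, ContinuousOn g C → (∀ x ∈ C, g x ≠ 0) → ∃ n : ℤ, Deg C f g n) ∧
    (∀ n : ℤ, CLog C (fun x => f x ^ n) → n = 0)) ∧
  ∀ (γ : ℝ → Y) (g : Y → ℂ), Scp γ → range γ = C → ContinuousOn g C → (∀ x ∈ C, g x ≠ 0) →
    ∀ θ : ℝ → ℂ, ContinuousOn θ (Icc 0 1) → (∀ t ∈ Icc (0 : ℝ) 1, Complex.exp (θ t) = g (γ t)) →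
      (CLog C g ↔ θ 1 = θ 0)

/-- CTR. A contractible scc has no extension of a nonzero power. PROOF: let `F` be an extension, `γ` the parametrisation in `Gen C f`, `c` the contraction in `T`. `F ∘ c` has a logarithm `l` on the
square `[0, 1]²` (`cLog_convex`). `l (1, s) - l (0, s)` is a continuous function with values in `2 π i ℤ` (as `c (0, s) = c (1, s)`), so it is constant; for `s = 1`, `F ∘ c` is
constant in `t`, so `l (·, 1)` is constant and the difference is `0`; for `s = 0` it is `2 π i n`. -/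
def S_CTR : Prop := ∀ (Y : Type) [MetricSpace Y] (T C : Set Y) (f : Y → ℂ) (n : ℤ), Gen C f →
  Contr T C → n ≠ 0 → ¬ ∃ F : Y → ℂ, ContinuousOn F T ∧ (∀ x ∈ T, F x ≠ 0) ∧
    ∀ x ∈ C, F x = f x ^ n

/-- CTH. `c (t, s) = H (γ t, s)`. -/
def S_CTH : Prop := ∀ (Y : Type) [MetricSpace Y] (T C W : Set Y) (H : Y × ℝ → Y) (x : Y),
  ContinuousOn H (W ×ˢ Icc 0 1) → (∀ y ∈ W, H (y, 0) = y) → (∀ y ∈ W, H (y, 1) = x) → C ⊆ W →
  (∀ y ∈ C, ∀ t ∈ Icc (0 : ℝ) 1, H (y, t) ∈ T) → Contr T C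

/-- TRI. Increments. PROOF: `K0 = {t ∈ [0, 1] | β t ∈ T}` is closed and contains `0, 1`. `k t = θ t - l (β t)` on `K0` is continuous with values in `2 π i ℤ`, and takes equal values at the two ends of
every complementary interval. Let `M = {t ∈ K0 | k t = k 0}`, `m = sSup M ∈ M`. If `m < 1`: as `k` is locally constant on `K0`, and `m` is maximal, there is no point of `K0` in `(m, m + δ)` for some
`δ > 0`; let `m' = sInf (K0 ∩ (m, 1])`: `(m, m')` is a complementary interval, so `k m' = k m`: contradiction. So `m = 1`. -/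
def S_TRI : Prop := ∀ (Y : Type) [MetricSpace Y] (T : Set Y) (β : ℝ → Y) (l : Y → ℂ)
  (θ : ℝ → ℂ), IsClosed T → ContinuousOn β (Icc 0 1) → ContinuousOn l T →
  ContinuousOn θ (Icc 0 1) → (∀ t ∈ Icc (0 : ℝ) 1, β t ∈ T →
    Complex.exp (θ t) = Complex.exp (l (β t))) → β 0 ∈ T → β 1 ∈ T →
  (∀ s t : ℝ, 0 ≤ s → s < t → t ≤ 1 → β s ∈ T → β t ∈ T → (∀ r ∈ Ioo s t, β r ∉ T) →
    θ t - θ s = l (β t) - l (β s)) → θ 1 - θ 0 = l (β 1) - l (β 0)

/-- INC. Equal increments over a set with a logarithm. PROOF: let `m` be a logarithm of `f` on `Σ`. `θ - m ∘ β` is continuous on `[s, t]` with values in `2 π i ℤ`, so constant; `l - m` is continuous on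
the connected set `Γ` with values in `2 π i ℤ`, so constant. -/
def S_INC : Prop := ∀ (Y : Type) [MetricSpace Y] (Sg Ga : Set Y) (f l : Y → ℂ) (β : ℝ → Y)
  (θ : ℝ → ℂ) (s t : ℝ), s ≤ t → ContinuousOn β (Icc s t) → ContinuousOn θ (Icc s t) →
  (∀ r ∈ Icc s t, Complex.exp (θ r) = f (β r)) → ContinuousOn l Ga →
  (∀ x ∈ Ga, Complex.exp (l x) = f x) → IsPreconnected Ga → β s ∈ Ga → β t ∈ Ga →
  CLog Sg f → β '' Icc s t ⊆ Sg → Ga ⊆ Sg → θ t - θ s = l (β t) - l (β s)

/-- LPC. Locally path connected: by `Ax.loc` every point `x` has arbitrarily small open neighbourhoods `W1 ⊆ W` all of whose points are joined to `x` in `W`; so the path component of `x` in an open set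
`W` is open; `LocallyPathConnectedSpace` from a basis of path connected sets (the path component of `x` in `W` is open and path connected). -/
def S_LPC : Prop := ∀ (Y : Type) [MetricSpace Y], Ax Y → LocallyPathConnectedSpace Y

/-- LOG. If `f` has logarithms on all scc's in the connected open set `Ω` then it has a logarithm on `Ω`. PROOF. (I) Let `A, A'` be arcs from `x` to `y` in `Ω`, `l` a logarithm of `f` on `A` (S_ARB), `θ` a
logarithm of `f ∘ α'`, `α'` the parametrisation of `A'`. Then `θ 1 - θ 0 = l y - l x`: S_TRI with `T = A`; for a complementary interval `(s, t)`, `α' s ≠ α' t` are in `A`, let `B ⊆ A` be the subarc between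
them; `Σ = B ∪ α' '' [s, t]` is an scc (S_GLU), so S_INC applies. (II) Fix `x0 ∈ Ω` and a logarithm `c0` of `f x0`; for `x ≠ x0` choose an arc from `x0` to `x` in `Ω` (path connected, S_PTA) and let `g x = c0 + l x - l x0` with a
logarithm `l` on the arc; `g x0 = c0`; by (I) (and S_INC) it is independent of the choice; `exp (g x) = f x`. (III) Continuity at `x1`: let `N ⊆ Ω` be an open path connected neighbourhood of `x1` on which
`f` has a logarithm `λ` (`f` is near `f x1`, `cLog_of_near`). Claim: `g x - g x1 = λ x - λ x1` for `x ∈ N`. Let `A` be an arc from `x0` to `x1` (if `x1 = x0` use arcs in `N` directly), `B ⊆ N` an arc from `x1` to `x` parametrised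
by `β`, `w = β t` the last point of `B` on `A`. The part of `A` from `x0` to `w` and the part of `B` from `w` to `x` form an arc from `x0` to `x` (or one of them is a point), so `g x - g x0` is the sum of the increments; the increment of
the logarithm on `A` from `w` to `x1` is that on `B` from `w` to `x1` by (I), and increments on `B ⊆ N` are those of `λ` (S_INC). -/
def S_LOG : Prop := ∀ (Y : Type) [MetricSpace Y], LocallyPathConnectedSpace Y →
  ∀ (Om : Set Y) (f : Y → ℂ), IsOpen Om → IsConnected Om → ContinuousOn f Om →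
  (∀ x ∈ Om, f x ≠ 0) → (∀ C : Set Y, Scc C → C ⊆ Om → CLog C f) → CLog Om f

def M_LOG : Prop := S_PTA → S_ARB → S_GLU → S_TRI → S_INC → S_LOG

/-! ## 2. Membranes -/

/-- CMP. Components. PROOF. Zorn (as in `Pool/Agent/CTO/OBS1.lean`, with Tietze): a minimal closed `K0` with `L ⊆ K0 ⊆ K`, `¬ ExtC L K0 f`. By `Ax.om` `Q = K0 \ L` is open; it is nonempty (`f` extends to `L`).
Connected: if `Q` is the union of disjoint nonempty open sets `O1`, `O2` then `f` extends to `K0 \ O1 = L ∪ O2` and to `L ∪ O1`; both are closed, with intersection `L`, so the extensions fit together to an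
extension to `K0`. `closure Q ⊆ K0 = Q ∪ L`. -/
def S_CMP : Prop := ∀ (Y : Type) [MetricSpace Y], Ax Y → ∀ (L K : Set Y) (f : Y → ℂ),
  IsCompact L → IsCompact K → L ⊆ K → ContinuousOn f L → (∀ x ∈ L, f x ≠ 0) → ¬ ExtC L K f →
  ∃ Q ⊆ K, Mem L f Q

/-- MMN. Minimality. Otherwise S_CMP with `K = (L ∪ Q) \ W` gives `Q' ⊆ Q \ W` with `Mem L f Q'`; `Q'` is open, and closed in `Q` (`closure Q' ⊆ Q' ∪ L`), nonempty, so `Q' = Q` as
`Q` is connected: contradiction. -/
def S_MMN : Prop := ∀ (Y : Type) [MetricSpace Y], Ax Y → ∀ (L Q : Set Y) (f : Y → ℂ),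
  Mem L f Q → ∀ W : Set Y, IsOpen W → W.Nonempty → W ⊆ Q → ExtC L ((L ∪ Q) \ W) f

def M_MMN : Prop := S_CMP → S_MMN

/-- NSP. Arcs and points do not separate. PROOF. Nonempty: otherwise `Q = A` is compact and open in the connected space `Y`, so `Y` is compact. Let `Q \ A = V1 ∪ V2`, disjoint, nonempty, open in `Y`. `K = L ∪ Q`.
By S_MMN there are extensions `F1` on `K \ V2`, `F2` on `K \ V1` of `f`; the intersection of these closed sets is `L ∪ A`. `F1 / F2` has a logarithm `l` on `A`; on `L` it is `1`. `L` and `A` are disjoint and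
compact, so there is a continuous `l' : Y → ℂ` with `l' = l` on `A`, `l' = 0` on `L` (Tietze). `F1` on `K \ V2` and `F2 exp l'` on `K \ V1` fit together to an extension of `f` to `K`: contradiction. -/
def S_NSP : Prop := ∀ (Y : Type) [MetricSpace Y], Ax Y → ∀ (L Q A : Set Y) (f : Y → ℂ),
  Mem L f Q → A ⊆ Q → IsCompact A →
  (∀ g : Y → ℂ, ContinuousOn g A → (∀ x ∈ A, g x ≠ 0) → CLog A g) → IsConnected (Q \ A)

def M_NSP : Prop := S_MMN → S_NSP

/-- `F` extends `f` to `(L ∪ Q) \ {y}` without zeros -/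
def PtF {Y : Type} [TopologicalSpace Y] (L : Set Y) (f : Y → ℂ) (Q : Set Y) (y : Y)
    (F : Y → ℂ) : Prop :=
  ContinuousOn F ((L ∪ Q) \ {y}) ∧ (∀ x ∈ (L ∪ Q) \ {y}, F x ≠ 0) ∧ EqOn F f L

/-- NRM. `ess`: if `F` on `closure B \ B` extends to `closure B`, the extension and `F` on `(L ∪ Q) \ B` fit together to an extension of `f` to `L ∪ Q`. -/
def S_NRM : Prop := ∀ (Y : Type) [MetricSpace Y] (L Q : Set Y) (f F : Y → ℂ) (y : Y),
  Mem L f Q → y ∈ Q → PtF L f Q y F → ∀ B : Set Y, IsOpen B → IsConnected B → y ∈ B →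
  closure B ⊆ Q → Mem (closure B \ B) F B

/-- PNT. Point functions. PROOF. Connected open neighbourhoods `W n` of `y` with `closure (W 0) ⊆ Q`, `closure (W (n+1)) ⊆ W n`, diameters `→ 0` (locally connected: S_LPC). `F 0`: extension of `f` to
`(L ∪ Q) \ W 0` (S_MMN). Given an extension `F n` of `f` to `(L ∪ Q) \ W n`: `Mem (closure (W n) \ W n) (F n) (W n)` (as in NRM), so by S_MMN `F n` on `closure (W n) \ W n` extends to `closure (W n) \ W (n+1)`;
together with `F n` this gives `F (n+1)` on `(L ∪ Q) \ W (n+1)`, equal to `F n` on `(L ∪ Q) \ W n`. Let `F x = F n x` for `x ∉ W n` (any such `n`). -/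
def S_PNT : Prop := ∀ (Y : Type) [MetricSpace Y], Ax Y → ∀ (L Q : Set Y) (f : Y → ℂ) (y : Y),
  Mem L f Q → y ∈ Q → ∃ F : Y → ℂ, PtF L f Q y F

def M_PNT : Prop := S_LPC → S_MMN → S_PNT

/-- SML. Small scc's around `y`. PROOF. Let `W0` be a connected open neighbourhood of `y`, `closure W0 ⊆ W ∩ Q`. `Mem (closure W0 \ W0) F W0` by S_NRM. By S_NSP with `A = {y}`, `Om = W0 \ {y}` is connected. If `F` had logarithms on
all scc's in `Om`, then on `Om` (S_LOG). Let `B` be a connected open neighbourhood of `y` with `closure B ⊆ W0`; the logarithm on the compact set `closure B \ B ⊆ Om` extends to `Y` (Tietze), so `F` on `closure B \ B` extends to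
`closure B`, against `Mem (closure B \ B) F B`. -/
def S_SML : Prop := ∀ (Y : Type) [MetricSpace Y], Ax Y → ∀ (L Q : Set Y) (f F : Y → ℂ) (y : Y),
  Mem L f Q → y ∈ Q → PtF L f Q y F → ∀ W : Set Y, IsOpen W → y ∈ W →
  ∃ C : Set Y, Scc C ∧ C ⊆ W ∧ C ⊆ Q ∧ y ∉ C ∧ ¬ CLog C F

def M_SML : Prop := S_LPC → S_LOG → S_NSP → S_NRM → S_SML

/-! ## 3. The Jordan curve theorem -/

/-- the universe: `U` is the inside of the scc `J0`, all scc's in `U` are contractible in the compact set `T0` -/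
structure Uni {Y : Type} [MetricSpace Y] (U J0 T0 : Set Y) (f0 : Y → ℂ) : Prop where
  ax : Ax Y
  scc : Scc J0
  gen : Gen J0 f0
  mem : Mem J0 f0 U
  cptT : IsCompact T0
  sub : U ∪ J0 ⊆ T0
  contr : ∀ C : Set Y, Scc C → C ⊆ U → Contr T0 C

/-- UNI. PROOF. S_CMP: `Mem L f Q`; `x ∈ Q`. `G0`, `H0`: from `Ax.loc` at `x` with `W = univ`. `N` an open neighbourhood of `x` with compact closure `closure N ⊆ G0 ∩ Q`. `W1`, `H1` from `Ax.loc` at `x` with `W = N`. `F` from S_PNT at `x`, `J0 ⊆ W1` an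
scc from S_SML, `f0` a generator (S_DEG). `Contr (closure N) J0` by S_CTH (`H1`), so `¬ ExtC J0 (closure N) f0` by S_CTR (`n = 1`), and S_CMP gives `U ⊆ closure N` with `Mem J0 f0 U`. `T0 = H0 '' (closure N ×ˢ Icc 0 1)`, compact, contains
`closure N`. `contr` by S_CTH (`H0`). -/
def S_UNI : Prop := ∀ (Y : Type) [MetricSpace Y], Ax Y → (∃ (L K : Set Y) (f : Y → ℂ),
  IsCompact L ∧ IsCompact K ∧ L ⊆ K ∧ ContinuousOn f L ∧ (∀ x ∈ L, f x ≠ 0) ∧ ¬ ExtC L K f) →
  ∃ (U J0 T0 : Set Y) (f0 : Y → ℂ), Uni U J0 T0 f0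

def M_UNI : Prop := S_CMP → S_PNT → S_SML → S_DEG → S_CTH → S_CTR → S_UNI

/-- INQ. The inside of an scc. PROOF. By S_CTR (`n = 1`) `f` does not extend to `T`; S_CMP gives `Q ⊆ T` with `Mem C f Q`. (a) `Y \ U` is connected: if `Y \ U = P ∪ R` with disjoint closed `P, R` and (as `J0` is connected)
`J0 ⊆ P`, then `R` is closed and its complement `U ∪ P` is closed too (`closure U ⊆ U ∪ J0`), so `R = ∅` (`Y` is connected and `U ≠ ∅`). (b) `Y \ U` is disjoint from `C` and `Q` is open, and closed in `Cᶜ`; so `Y \ U ⊆ Q` or `Y \ U` is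
disjoint from `Q`. In the first case `Y = U ∪ Q ⊆ (U ∪ J0) ∪ T` would be compact. So `Q ⊆ U`. -/
def S_INQ : Prop := ∀ (Y : Type) [MetricSpace Y] (U J0 T0 : Set Y) (f0 : Y → ℂ),
  Uni U J0 T0 f0 → ∀ (C T : Set Y) (f : Y → ℂ), Scc C → C ⊆ U → Gen C f → IsCompact T →
  Contr T C → ∃ Q ⊆ T, Q ⊆ U ∧ Mem C f Q

def M_INQ : Prop := S_DEG → S_SCB → S_CTR → S_CMP → S_INQ

/-- `V` is open and nonempty, and a union of components of `U \ C` -/
def Clo {Y : Type} [TopologicalSpace Y] (U C V : Set Y) : Prop :=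
  IsOpen V ∧ V.Nonempty ∧ V ⊆ U \ C ∧ closure V ∩ U ⊆ V ∪ C

/-- JC2. Every side of `C` has all of `C` in its boundary. PROOF. Suppose `x ∈ C`, `x ∉ closure V`. S_SCB (iv) with `W = (closure V)ᶜ`: `C = A ∪ B`, `x ∈ B`, `x ∉ A`, `B` disjoint from `closure V`. The arc `A ⊆ U` does not separate `U` (S_NSP for
`Mem J0 f0 U`, S_ARB): `U \ A` is connected. `V` is open, and `closure V ∩ (U \ A) ⊆ V` (points of `closure V ∩ C` are in `A`). So `V = U \ A` contains `x ∈ C`: contradiction. -/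
def S_JC2 : Prop := ∀ (Y : Type) [MetricSpace Y] (U J0 T0 : Set Y) (f0 : Y → ℂ),
  Uni U J0 T0 f0 → ∀ C V : Set Y, Scc C → C ⊆ U → Clo U C V → C ⊆ closure V

def M_JC2 : Prop := S_SCB → S_ARB → S_NSP → S_JC2

/-- `p` is accessible from `V` -/
def Accs {Y : Type} [TopologicalSpace Y] (V : Set Y) (p : Y) : Prop :=
  ∃ α : ℝ → Y, ContinuousOn α (Icc 0 1) ∧ α 1 = p ∧ ∀ t ∈ Ico (0 : ℝ) 1, α t ∈ V

/-- ACC. Accessible points are dense. PROOF. `N' ⊆ N ∩ U` an open path connected neighbourhood of `p`, `v ∈ V ∩ N'`, a path in `N'` from `v` to `p`; stop it at the first time when it is in `C` (closed), at the point `p'`. Before this time it is in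
`U \ C`, it starts in `V`, and `V` is open and closed in `U \ C`, so it is in `V`. The path has to be nonconstant in time: the first time is `> 0` as `v ∉ C`; rescale. (II) Cross-cut: a path from `p` to `q` in `V ∪ {p, q}` (through the two access paths and `V`), S_PTA:
an arc in it from `p` to `q`; its other points are not `p`, `q`, so in `V`. -/
def S_ACC : Prop := (∀ (Y : Type) [MetricSpace Y], LocallyPathConnectedSpace Y → ∀ U C V : Set Y,
    IsOpen U → IsClosed C → C ⊆ U → Clo U C V → ∀ p ∈ C, p ∈ closure V → ∀ N : Set Y, IsOpen N →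
    p ∈ N → ∃ p' ∈ C ∩ N, Accs (V ∩ N) p') ∧
  ∀ (Y : Type) [MetricSpace Y], LocallyPathConnectedSpace Y → ∀ (V : Set Y) (p q : Y), IsOpen V →
    IsConnected V → p ≠ q → Accs V p → Accs V q → ∃ A : Set Y, Arc A p q ∧ A \ {p, q} ⊆ V

def M_ACC : Prop := S_PTA → S_ACC

/-- JC3. At most two components. PROOF. Suppose that `x ∈ U \ C` is in neither of `V1`, `V2`. Let `V3` be the connected component of `x` in `U \ C`: open (locally connected), `Clo U C V3`, disjoint from `V1`, `V2` (which are connected components of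
`U \ C` as well). By S_JC2 `C ⊆ closure (V i)`. Let `γ` parametrise `C`. By S_ACC (with
small neighbourhoods `N` of `γ (3/16)` etc., `N ∩ C ⊆ γ '' (1/8, 1/4)`) there are `p1 = γ s1`, `q1 = γ t1` accessible from `V1`, `p2 = γ s2`, `q2 = γ t2` accessible from `V2`, with `1/8 < s1 < 1/4 < s2 < 3/8`,
`5/8 < t1 < 3/4 < t2 < 7/8`, and arcs `A1 ⊆ V1 ∪ {p1, q1}` from `p1` to `q1`, `A2 ⊆ V2 ∪ {p2, q2}` from `p2` to `q2` (S_ACC (II)). `J' = A1 ∪ γ '' [t1, t2] ∪ A2 ∪ γ '' [s1, s2]` is an scc in `U` (S_GLU, S_SCA). `C \ J'` consists of the two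
open arcs `O1 = γ '' (s2, t1)`, `O2 = γ '' (t2, s1 + 1)`, connected and nonempty; `S3 = V3 ∪ O1 ∪ O2` is connected (`O i ⊆ closure V3`) and disjoint from `J'`. `U \ J'` is not connected:
with a generator of `J'` (S_DEG), S_INQ (`T = T0`) gives `Q ⊆ U` with `Mem J' _ Q`; `Q` is open and closed in `U \ J'`, and `U ≠ J' ∪ Q` (otherwise `U` is compact and open, so `Y = U` is compact). So there is a connected component `R'` of `U \ J'`
that does not contain (so is disjoint from) the connected set `S3`; `Clo U J' R'`, so `J' ⊆ closure R'` (S_JC2). `R' ∩ C ⊆ R' ∩ (J' ∪ O1 ∪ O2) = ∅`, so `R'` is a connected subset of `U \ C`; it meets the open set `V1` (`A1 \ {p1, q1} ⊆ V1` is nonempty and in `closure R'`) and the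
open set `V2`. So it is contained in the components `V1` and `V2`: contradiction. -/
def S_JC3 : Prop := ∀ (Y : Type) [MetricSpace Y] (U J0 T0 : Set Y) (f0 : Y → ℂ),
  Uni U J0 T0 f0 → ∀ C V1 V2 : Set Y, Scc C → C ⊆ U → Clo U C V1 → Clo U C V2 →
  IsConnected V1 → IsConnected V2 → Disjoint V1 V2 → U \ C ⊆ V1 ∪ V2

def M_JC3 : Prop := S_LPC → S_SCA → S_SCB → S_ARB → S_GLU → S_DEG → S_INQ → S_JC2 → S_ACC →
  S_JC3

/-- JCT. The Jordan curve theorem. PROOF. `Q ⊆ U` with `Mem C f Q` from S_INQ (`T = T0`). (a) `ins C = Q`: `Q` is a member of the family in the definition of `ins C`. Let `Q''` be another member: `C ∪ Q''` is compact, so closed, so `closure Q'' ⊆ Q'' ∪ C`;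
as in S_INQ `Y \ U` is connected and disjoint from `C`, so `Y \ U ⊆ Q''` (impossible: `Y = (U ∪ J0) ∪ (C ∪ Q'')` would be compact) or disjoint from `Q''`, so `Q'' ⊆ U`, `Clo U C Q''`. If `Q'' ≠ Q` then they are disjoint (both are connected, open, and closed in `Cᶜ`),
`U = C ∪ Q ∪ Q''` by S_JC3 is compact and open: contradiction. (b) `E = U \ (C ∪ Q)` is nonempty (otherwise `U` is compact). Let `V2` be a connected component of `E`; `Clo U C V2`; S_JC3 with `V1 = Q` gives `E = V2`. (c) S_JC2 for `Q` and `E`. (d) if `E ⊆ T`, `T ⊆ U` compact, then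
`U = C ∪ Q ∪ T` is compact. (e) is (c) and `closure Q ⊆ Q ∪ C`. -/
def S_JCT : Prop := ∀ (Y : Type) [MetricSpace Y] (U J0 T0 : Set Y) (f0 : Y → ℂ),
  Uni U J0 T0 f0 → ∀ (C : Set Y) (f : Y → ℂ), Scc C → C ⊆ U → Gen C f →
  Mem C f (ins C) ∧ ins C ⊆ U ∧ IsConnected (U \ (C ∪ ins C)) ∧ C ⊆ closure (ins C) ∧
  C ⊆ closure (U \ (C ∪ ins C)) ∧ (∀ T : Set Y, IsCompact T → T ⊆ U → ¬ U \ (C ∪ ins C) ⊆ T) ∧
  closure (ins C) = C ∪ ins C ∧
  ∀ T : Set Y, IsCompact T → Contr T C → ins C ⊆ T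

def M_JCT : Prop := S_LPC → S_SCB → S_INQ → S_JC2 → S_JC3 → S_JCT

/-- FIV. No nonzero power extends to the inside. PROOF. `f` extends to `T0 \ ins C` (compact, contains `C`): otherwise S_CMP gives `Q'' ⊆ T0 \ ins C` with `Mem C f Q''`; `C ∪ Q''` is compact, so `Q'' ⊆ ins C` by definition of `ins`:
contradiction. Let `F` be this extension and `k` an extension of `f ^ n` to `C ∪ ins C`. Then `k` on `C ∪ ins C` and `F ^ n` on `T0 \ ins C` fit together (intersection `C`) to an extension of `f ^ n` to `T0`, against S_CTR. -/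
def S_FIV : Prop := ∀ (Y : Type) [MetricSpace Y] (U J0 T0 : Set Y) (f0 : Y → ℂ),
  Uni U J0 T0 f0 → ∀ (C : Set Y) (f : Y → ℂ) (n : ℤ), Scc C → C ⊆ U → Gen C f → n ≠ 0 →
  ¬ ∃ F : Y → ℂ, ContinuousOn F (C ∪ ins C) ∧ (∀ x ∈ C ∪ ins C, F x ≠ 0) ∧
    ∀ x ∈ C, F x = f x ^ n

def M_FIV : Prop := S_DEG → S_SCB → S_CMP → S_CTR → S_JCT → S_FIV

/-- NST. Nested. PROOF. `E = U \ (J ∪ ins J)` is connected and disjoint from `C`; `ins C` is open and closed in `U \ C`. If `E` meets `ins C` then `E ⊆ ins C ⊆ C ∪ ins C`, compact subset of `U`, against S_JCT (d). So `ins C` is disjoint from `E`, and as it is open from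
`closure E ⊇ J`; so `ins C ⊆ ins J`. -/
def S_NST : Prop := ∀ (Y : Type) [MetricSpace Y] (U J0 T0 : Set Y) (f0 : Y → ℂ),
  Uni U J0 T0 f0 → ∀ C J : Set Y, Scc C → Scc J → J ⊆ U → C ⊆ J ∪ ins J → ins C ⊆ ins J

def M_NST : Prop := S_DEG → S_JCT → S_NST

/-! ## 4. Degrees and Janiszewski's theorem -/

/-- SGN. The sign. PROOF. `N = (J ∪ ins J) \ ins C`, closed, compact, contains `C` and `J` (`ins C ⊆ ins J`: S_NST; `J ∩ ins J = ∅`). (i) `fC` extends to `g1` on `N`: otherwise S_CMP gives `Q'' ⊆ N` with `Mem C fC Q''`, so `Q'' ⊆ ins C` by the definition of `ins`: contradiction.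
Let `n` be its degree on `J`. (ii) by S_MMN (`Mem J fJ (ins J)`, `W = ins C`) `fJ` extends to `F` on `N`; let `m` be its degree on `C`. (iii) For every `g` as in the statement, `g / g1 ^ b` has a logarithm on `C`; extend the logarithm to `Y` (Tietze) and
define `h = g / g1 ^ b` on `N`, `h = exp l'` on `C ∪ ins C`; it is continuous without zeros on `J ∪ ins J` and has degree `a - b n` on `J`; if this is not `0`, `h` times the exponential of an extended logarithm is an extension of `fJ ^ (a - b n)`, against S_FIV. So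
`a = b n`. (iv) (iii) for `F`: `1 = m n`, so `n = ± 1`. -/
def S_SGN : Prop := ∀ (Y : Type) [MetricSpace Y] (U J0 T0 : Set Y) (f0 : Y → ℂ),
  Uni U J0 T0 f0 → ∀ (C J : Set Y) (fC fJ : Y → ℂ), Scc C → Scc J → J ⊆ U → C ⊆ ins J →
  Gen C fC → Gen J fJ → ∃ s : ℤ, (s = 1 ∨ s = -1) ∧ ∀ (g : Y → ℂ) (a b : ℤ),
    ContinuousOn g ((J ∪ ins J) \ ins C) → (∀ x ∈ (J ∪ ins J) \ ins C, g x ≠ 0) →
    Deg J fJ g a → Deg C fC g b → a = s * b

def M_SGN : Prop := S_DEG → S_CMP → S_MMN → S_JCT → S_FIV → S_NST → S_SGN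

/-- DGP. Degrees of point functions. If `y ∈ ins C` then `F` is continuous without zeros on `(J ∪ ins J) \ ins C`, has degree `1` on `J` (`F = fJ` there), and some degree `b` on `C` (S_DEG), `1 = s b`, `b = s`. If `y ∉ C ∪ ins C` then `F` is continuous without zeros on `C ∪ ins C`; if its
degree `b` on `C` were not `0`, multiplying with the exponential of an extended logarithm we would get an extension of `fC ^ b` to `C ∪ ins C`, against S_FIV. -/
def S_DGP : Prop := ∀ (Y : Type) [MetricSpace Y] (U J0 T0 : Set Y) (f0 : Y → ℂ),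
  Uni U J0 T0 f0 → ∀ (C J : Set Y) (fC fJ : Y → ℂ), Scc C → Scc J → J ⊆ U → C ⊆ ins J →
  Gen C fC → Gen J fJ → ∃ s : ℤ, (s = 1 ∨ s = -1) ∧ ∀ (y : Y) (F : Y → ℂ), y ∈ ins J →
    PtF J fJ (ins J) y F → (y ∈ ins C → Deg C fC F s) ∧ (y ∉ C → y ∉ ins C → Deg C fC F 0)

def M_DGP : Prop := S_DEG → S_JCT → S_FIV → S_NST → S_SGN → S_DGP

/-- EON. PROOF. `Om = ins J \ A` is connected (S_NSP for `Mem J fJ (ins J)` and S_ARB). For an scc `C ⊆ Om`: `A` is connected and disjoint from `C`, so `A ⊆ ins C` or `A` is disjoint from `ins C`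
(`ins C` is open and closed in `Cᶜ`); in both cases `F` and `G` have the same degree on `C` (S_DGP), so `F / G` has a logarithm on `C`. By S_LOG it has a logarithm on `Om`. -/
def S_EON : Prop := ∀ (Y : Type) [MetricSpace Y] (U J0 T0 : Set Y) (f0 : Y → ℂ),
  Uni U J0 T0 f0 → ∀ (J A : Set Y) (fJ F G : Y → ℂ) (y z : Y), Scc J → J ⊆ U → Gen J fJ →
  Arc A y z → A ⊆ ins J → PtF J fJ (ins J) y F → PtF J fJ (ins J) z G →
  CLog (ins J \ A) fun x => F x / G x

def M_EON : Prop := S_LPC → S_ARB → S_LOG → S_NSP → S_DEG → S_JCT → S_DGP → S_EON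

/-- ETW. PROOF. Suppose `z ∉ R`. Let `l` be a logarithm of `F / G` on `T`, `l' : Y → ℂ` continuous, `l' = l` on `T`, `l' = 0` on `J` (disjoint compact sets). `closure R ⊆ R ∪ T ∪ J` (`R ⊆ ins J`, `closure (ins J) ⊆ ins J ∪ J`) and `z ∉ closure R`. On
`T ∪ J`, `F = G exp l'` (on `J`: `F = fJ = G`). So `G exp l'` on `closure R` and `F` on `(J ∪ ins J) \ R` fit together to a continuous function without zeros on `J ∪ ins J` (note `y ∈ R`) that extends `fJ`: contradiction to `Mem J fJ (ins J)`. -/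
def S_ETW : Prop := ∀ (Y : Type) [MetricSpace Y] (J V T R : Set Y) (fJ F G : Y → ℂ) (y z : Y),
  Mem J fJ V → IsCompact T → T ⊆ V → y ∉ T → z ∉ T → z ∈ V → PtF J fJ V y F → PtF J fJ V z G →
  CLog T (fun x => F x / G x) → IsOpen R → R ⊆ V → Disjoint R T → closure R ∩ V ⊆ R ∪ T →
  y ∈ R → z ∈ R

/-- JAN. Janiszewski's theorem. PROOF. We may assume `y ≠ z`. `F`, `G`: point functions (S_PNT for `Mem J fJ (ins J)`) at `y`, `z`. By S_PTA there are arcs from `y` to `z` in `ins J \ T1` and in `ins J \ T2`; S_EON: `F / G` has logarithms `l1` on `T1`, `l2` on `T2`. On the connected nonempty set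
`T1 ∩ T2` the difference is a constant `2 π i k`; so `l1` on `T1` and `l2 + const` on `T2` fit together: `F / G` has a logarithm on `T = T1 ∪ T2`. Let `R` be the connected component of `y` in the open set `ins J \ T` (open, path connected); S_ETW gives `z ∈ R`. -/
def S_JAN : Prop := ∀ (Y : Type) [MetricSpace Y] (U J0 T0 : Set Y) (f0 : Y → ℂ),
  Uni U J0 T0 f0 → ∀ J T1 T2 : Set Y, Scc J → J ⊆ U → IsCompact T1 → IsCompact T2 →
  T1 ⊆ ins J → T2 ⊆ ins J → IsConnected (T1 ∩ T2) → ∀ y z : Y,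
  JoinedIn (ins J \ T1) y z → JoinedIn (ins J \ T2) y z → JoinedIn (ins J \ (T1 ∪ T2)) y z

def M_JAN : Prop := S_LPC → S_PTA → S_DEG → S_PNT → S_JCT → S_EON → S_ETW → S_JAN

/-- the plane-like pair `V ⊆ U` -/
structure Pln {Y : Type} [MetricSpace Y] (U V : Set Y) : Prop where
  lpc : LocallyPathConnectedSpace Y
  lc : LocallyCompactSpace Y
  opU : IsOpen U
  opV : IsOpen V
  sub : V ⊆ U
  connV : IsConnected V
  /-- arcs do not separate `V` -/
  nsp : ∀ (A : Set Y) (a b : Y), Arc A a b → A ⊆ V → IsConnected (V \ A)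
  /-- the inside of an scc in `U` -/
  opn : ∀ C : Set Y, Scc C → C ⊆ U → IsOpen (ins C)
  conn : ∀ C : Set Y, Scc C → C ⊆ U → IsConnected (ins C)
  disj : ∀ C : Set Y, Scc C → C ⊆ U → Disjoint (ins C) C
  insU : ∀ C : Set Y, Scc C → C ⊆ U → ins C ⊆ U
  insV : ∀ C : Set Y, Scc C → C ⊆ V → ins C ⊆ V
  clos : ∀ C : Set Y, Scc C → C ⊆ U → closure (ins C) = C ∪ ins C
  cpt : ∀ C : Set Y, Scc C → C ⊆ U → IsCompact (C ∪ ins C)
  /-- the outside of an scc in `U` -/
  out : ∀ C : Set Y, Scc C → C ⊆ U → IsConnected (U \ (C ∪ ins C))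
  outc : ∀ C : Set Y, Scc C → C ⊆ U → C ⊆ closure (U \ (C ∪ ins C))
  ncp : ∀ C : Set Y, Scc C → C ⊆ U → ∀ T : Set Y, IsCompact T → T ⊆ U →
    ¬ U \ (C ∪ ins C) ⊆ T
  /-- nested scc's -/
  nst : ∀ C J : Set Y, Scc C → Scc J → J ⊆ U → C ⊆ J ∪ ins J → ins C ⊆ ins J
  /-- small scc's have small insides -/
  loc : ∀ x ∈ V, ∀ W : Set Y, IsOpen W → x ∈ W → ∃ W1 ⊆ W, IsOpen W1 ∧ x ∈ W1 ∧
    ∀ C : Set Y, Scc C → C ⊆ W1 → C ∪ ins C ⊆ W ∩ V
  /-- there are small scc's around every point -/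
  sml : ∀ x ∈ V, ∀ W : Set Y, IsOpen W → x ∈ W → ∃ C : Set Y, Scc C ∧ C ⊆ V ∧ x ∈ ins C ∧
    C ∪ ins C ⊆ W
  /-- Janiszewski's theorem -/
  jan : ∀ T1 T2 : Set Y, IsCompact T1 → IsCompact T2 → T1 ⊆ V → T2 ⊆ V →
    IsConnected (T1 ∩ T2) → ∀ y z : Y, JoinedIn (V \ T1) y z → JoinedIn (V \ T2) y z →
    JoinedIn (V \ (T1 ∪ T2)) y z
  /-- dipoles -/
  dip : ∀ y ∈ V, ∀ z ∈ V, y ≠ z → ∃ f : Y → ℂ, ContinuousOn f (V \ {y, z}) ∧
    (∀ x ∈ V \ {y, z}, f x ≠ 0) ∧ (∀ A : Set Y, Arc A y z → A ⊆ V → CLog (V \ A) f) ∧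
    ∀ C : Set Y, Scc C → C ⊆ V \ {y, z} → (CLog C f ↔ (y ∈ ins C ↔ z ∈ ins C))

/-- PLN. Summary, with `V = ins J`. `lpc`: S_LPC; `lc`: `Ax.lc`; `opU`, `opV`, `connV`: `Mem`; `sub`, `opn`, …, `ncp`: S_JCT (generator: S_DEG); `insV`: S_NST (`C ⊆ ins J`); `nst`: S_NST; `nsp`: S_NSP for `Mem J fJ (ins J)` with S_ARB; `jan`: S_JAN. `loc`: let `N` be open, `x ∈ N`,
`closure N ⊆ W ∩ ins J` compact; `W1`, `H` from `Ax.loc` at `x` with `W = N`; an scc `C ⊆ W1` is contractible in `closure N` (S_CTH), so `ins C ⊆ closure N` (last item of S_JCT). `sml`: with `W1` from `loc`, point function `F` at `x` (S_PNT), scc `C ⊆ W1`, `x ∉ C`, with `¬ CLog C F` (S_SML); by S_DGP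
(degree `0` would give a logarithm) `x ∈ ins C`. `dip`: `f = F / G` with point functions at `y` and `z`; S_EON; for an scc `C`: the degree of `F / G` on `C` is `s ([y ∈ ins C] - [z ∈ ins C])` (S_DGP), and it has a logarithm iff this is `0` (S_DEG). -/
def S_PLN : Prop := ∀ (Y : Type) [MetricSpace Y] (U J0 T0 : Set Y) (f0 : Y → ℂ),
  Uni U J0 T0 f0 → ∀ J : Set Y, Scc J → J ⊆ U → Pln U (ins J)

def M_PLN : Prop := S_LPC → S_ARB → S_DEG → S_CTH → S_NSP → S_PNT → S_SML → S_JCT → S_NST →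
  S_DGP → S_EON → S_JAN → S_PLN

end BBP
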