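import Pool.Agent.BBP.StmtsA

/-!
# BBP, ALT: the coboundary of an antisymmetric 3-cochain vanishes if two points are equal
-/

set_option autoImplicit false

namespace BBP

theorem t_ALT : S_ALT := by
  intro X φ h a b c d e hn
  have s01 : ∀ a b c d, φ b a c d = -φ a b c d := fun a b c d => (h a b c d).1
  have s12 : ∀ a b c d, φ a c b d = -φ a b c d := fun a b c d => (h a b c d).2.1
  have s23 : ∀ a b c d, φ a b d c = -φ a b c d := fun a b c d => (h a b c d).2.2
  have z01 : ∀ a c d, φ a a c d = 0 := fun a c d => by have := s01 a a c d; omega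
  have z12 : ∀ a b d, φ a b b d = 0 := fun a b d => by have := s12 a b b d; omega
  have z23 : ∀ a b c, φ a b c c = 0 := fun a b c => by have := s23 a b c c; omega
  have z02 : ∀ a b d, φ a b a d = 0 := fun a b d => by
    have h1 := s12 a a b d
    have h2 := z01 a b d
    omega
  have z13 : ∀ a b c, φ a b c b = 0 := fun a b c => by
    have h1 := s23 a b b c
    have h2 := z12 a b c
    omega
  have z03 : ∀ a b c, φ a b c a = 0 := fun a b c => by
    have h1 := s23 a b a c
    have h2 := z02 a b c
    omega
  have hc : a = b ∨ a = c ∨ a = d ∨ a = e ∨ b = c ∨ b = d ∨ b = e ∨ c = d ∨ c = e ∨ d = e := by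
    by_contra hcon
    apply hn
    simp only [not_or] at hcon
    simp only [List.nodup_cons, List.mem_cons, List.not_mem_nil, or_false, not_or,
      not_false_eq_true, List.nodup_nil, and_true]
    tauto
  unfold d3
  rcases hc with rfl | rfl | rfl | rfl | rfl | rfl | rfl | rfl | rfl | rfl
  · rw [z01, z01, z01]; omega
  · have h1 := s01 a b d e
    rw [z01, z02, z02]; omega
  · have h1 := s12 b a c e
    have h2 := s01 a b c e
    rw [z02, z02, z03]; omega
  · have h1 := s23 b c a d
    have h2 := s12 b a c d
    have h3 := s01 a b c d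
    rw [z03, z03, z03]; omega
  · rw [z01, z12, z12]; omega
  · have h1 := s12 a b c e
    rw [z02, z12, z13]; omega
  · have h1 := s23 a c b d
    have h2 := s12 a b c d
    rw [z03, z13, z13]; omega
  · rw [z12, z12, z23]; omega
  · have h1 := s23 a b c d
    rw [z13, z13, z23]; omega
  · rw [z23, z23, z23]; omega

end BBP
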