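import Pool.Agent.BBP.StmtsA

set_option autoImplicit false

namespace BBP

open Set Topology CTO

theorem t_CEX : M_CEX := by
  intro hCOC K _ _ L E f hL hE hLE hf hf0 hext
  obtain ⟨F, hF, hF0, hFf⟩ := hext
  obtain ⟨a1, -, -⟩ := hCOC K L f hL hf hf0
  obtain ⟨a2, ⟨ε, hε, hco⟩, -⟩ := hCOC K E F hE hF hF0
  refine ⟨fun x y => cc L f x y - cc E F x y, ?_, ?_, ε, hε, ?_⟩
  · intro a b
    simp only
    rw [a1 a b, a2 a b]
    ring
  · intro x hx y hy
    have e1 : th F x = th f x := by simp only [th]; rw [hFf hx]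
    have e2 : th F y = th f y := by simp only [th]; rw [hFf hy]
    simp only [cc]
    rw [if_pos ⟨hx, hy⟩, if_pos ⟨hLE hx, hLE hy⟩, e1, e2]
    ring
  · intro a ha b hb c hc hs
    have h := hco a ha b hb c hc hs
    simp only [d1] at h ⊢
    linarith

end BBP
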