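import Pool.Agent.BBP.StmtsA

/-!
# BBP, module COC: the cocycle of a map to the punctured plane
-/

set_option autoImplicit false

namespace BBP

open Set Topology CTO

namespace COC

theorem rnd_neg (r : ℝ) : rnd (-r) = -rnd r := by
  unfold rnd
  rcases lt_trichotomy r 0 with h | h | h
  · rw [if_pos (by linarith), if_neg (by linarith)]
    simp
  · subst h
    norm_num
  · rw [if_neg (by linarith), if_pos h.le]
    simp

theorem abs_sub_rnd (r : ℝ) : |r - rnd r| ≤ 1 / 2 := by
  unfold rnd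
  split_ifs with h
  · have h1 := Int.floor_le (r + 1 / 2)
    have h2 := Int.lt_floor_add_one (r + 1 / 2)
    rw [abs_le]
    constructor <;> linarith
  · have h1 := Int.floor_le (-r + 1 / 2)
    have h2 := Int.lt_floor_add_one (-r + 1 / 2)
    rw [abs_le]
    push_cast
    constructor <;> linarith

theorem exp_th {K : Type} (f : K → ℂ) (x : K) (hx : f x ≠ 0) :
    Complex.exp (Complex.I * ((2 * Real.pi * th f x : ℝ) : ℂ)) = f x / ‖f x‖ := by
  have h1 : 2 * Real.pi * th f x = Complex.arg (f x) := by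
    unfold th
    field_simp
  rw [h1]
  have h2 := Complex.norm_mul_exp_arg_mul_I (f x)
  have h3 : ((‖f x‖ : ℝ) : ℂ) ≠ 0 := by
    exact_mod_cast norm_ne_zero_iff.2 hx
  rw [eq_div_iff h3, mul_comm, mul_comm Complex.I]
  exact h2

theorem key (t : ℝ) (h : ‖Complex.exp (Complex.I * ((2 * Real.pi * t : ℝ) : ℂ)) - 1‖ ≤ 1 / 4) :
    |t - rnd t| ≤ 1 / 16 := by
  obtain ⟨s, hs⟩ : ∃ s : ℝ, s = t - rnd t := ⟨_, rfl⟩
  have h1 : Complex.exp (Complex.I * ((2 * Real.pi * t : ℝ) : ℂ)) =
      Complex.exp (Complex.I * ((2 * Real.pi * s : ℝ) : ℂ)) := by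
    have h2 : Complex.I * ((2 * Real.pi * t : ℝ) : ℂ) =
        Complex.I * ((2 * Real.pi * s : ℝ) : ℂ) + (rnd t : ℤ) * (2 * Real.pi * Complex.I) := by
      rw [hs]
      push_cast
      ring
    rw [h2, Complex.exp_add, Complex.exp_int_mul_two_pi_mul_I, mul_one]
  rw [h1, Complex.norm_exp_I_mul_ofReal_sub_one] at h
  have h3 : |s| ≤ 1 / 2 := by
    rw [hs]
    exact abs_sub_rnd t
  have hpi := Real.pi_pos
  have h4 : |Real.pi * s| ≤ Real.pi / 2 := by
    rw [abs_mul, abs_of_pos hpi]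
    nlinarith
  have h5 := Real.mul_abs_le_abs_sin h4
  rw [abs_mul, abs_of_pos hpi] at h5
  have h6 : 2 / Real.pi * (Real.pi * |s|) = 2 * |s| := by
    field_simp
  rw [h6] at h5
  have h7 : 2 * Real.pi * s / 2 = Real.pi * s := by ring
  rw [h7, norm_mul, Real.norm_eq_abs, Real.norm_eq_abs] at h
  have h8 : |(2 : ℝ)| = 2 := abs_of_pos two_pos
  rw [h8] at h
  rw [← hs]
  linarith

end COC

open COC in
theorem t_COC : S_COC := by
  intro K _ _ L f hL hf hne
  have h3 : ∃ ε > 0, ∀ x ∈ L, ∀ y ∈ L, dist x y < ε →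
      |th f y - th f x - cc L f x y| ≤ 1 / 16 := by
    have hu : ContinuousOn (fun x => f x / (‖f x‖ : ℂ)) L := by
      refine hf.div ?_ ?_
      · exact Complex.continuous_ofReal.comp_continuousOn hf.norm
      · intro x hx
        exact_mod_cast norm_ne_zero_iff.2 (hne x hx)
    have huc := hL.isCompact.uniformContinuousOn_of_continuous hu
    rw [Metric.uniformContinuousOn_iff] at huc
    obtain ⟨ε, hε, h⟩ := huc (1 / 4) (by norm_num)
    refine ⟨ε, hε, fun x hx y hy hxy => ?_⟩
    have h1 := h x hx y hy hxy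
    have h2 : cc L f x y = rnd (th f y - th f x) := by
      unfold cc
      rw [if_pos ⟨hx, hy⟩]
    rw [h2]
    apply key
    have e1 := exp_th f x (hne x hx)
    have e2 := exp_th f y (hne y hy)
    have e3 : Complex.exp (Complex.I * ((2 * Real.pi * (th f y - th f x) : ℝ) : ℂ)) =
        (f y / ‖f y‖) / (f x / ‖f x‖) := by
      rw [← e1, ← e2, ← Complex.exp_sub]
      congr 1
      push_cast
      ring
    have h5 : ‖f x / (‖f x‖ : ℂ)‖ = 1 := by
      rw [norm_div, Complex.norm_real, norm_norm, div_self (norm_ne_zero_iff.2 (hne x hx))]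
    have h6 : f x / (‖f x‖ : ℂ) ≠ 0 := by
      intro h0
      rw [h0, norm_zero] at h5
      exact zero_ne_one h5
    have h7 : (f y / ‖f y‖) / (f x / ‖f x‖) - 1 = (f y / ‖f y‖ - f x / ‖f x‖) / (f x / ‖f x‖) := by
      rw [sub_div, div_self h6]
    rw [e3, h7, norm_div, h5, div_one]
    rw [dist_eq_norm, norm_sub_rev] at h1
    exact h1.le
  refine ⟨?_, ?_, h3⟩
  · intro x y
    unfold cc
    by_cases h : x ∈ L ∧ y ∈ L
    · rw [if_pos h, if_pos h.symm, ← rnd_neg, neg_sub]
    · rw [if_neg h, if_neg (fun h' => h h'.symm), neg_zero]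
  · obtain ⟨ε, hε, h⟩ := h3
    refine ⟨ε, hε, fun a ha b hb c hc hs => ?_⟩
    have hab := h a ha b hb (hs a (by simp) b (by simp))
    have hac := h a ha c hc (hs a (by simp) c (by simp))
    have hbc := h b hb c hc (hs b (by simp) c (by simp))
    rw [abs_le] at hab hac hbc
    have h1 : |((d1 (cc L f) a b c : ℤ) : ℝ)| < 1 := by
      unfold d1
      push_cast
      rw [abs_lt]
      constructor <;> linarith
    have h2 : |d1 (cc L f) a b c| < 1 := by exact_mod_cast h1
    exact Int.abs_lt_one_iff.1 h2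

end BBP
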