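import Pool.Agent.BBP.StmtsA

/-!
# BBP: a compact space in which any two points are separated has dimension 0
-/

set_option autoImplicit false

namespace BBP

open Set Topology CTO

namespace DI0

/-- the atoms of a family of sets -/
def atom {Z : Type} (t : Finset Z) (V : Z → Set Z) (z : Z) : Set Z :=
  {y | ∀ x ∈ t, (y ∈ V x ↔ z ∈ V x)}

theorem mem_atom {Z : Type} (t : Finset Z) (V : Z → Set Z) (z : Z) : z ∈ atom t V z :=
  fun _ _ => Iff.rfl

theorem atom_eq {Z : Type} (t : Finset Z) (V : Z → Set Z) {y z : Z} (h : y ∈ atom t V z) :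
    atom t V z = atom t V y := by
  ext w
  constructor
  · intro hw x hx
    rw [hw x hx, h x hx]
  · intro hw x hx
    rw [hw x hx, h x hx]

theorem atom_open {Z : Type} [TopologicalSpace Z] (t : Finset Z) (V : Z → Set Z)
    (hV : ∀ x, IsClopen (V x)) (z : Z) : IsOpen (atom t V z) := by
  have e : atom t V z = ⋂ x ∈ t, {y | y ∈ V x ↔ z ∈ V x} := by
    ext y
    simp [atom]
  rw [e]
  refine isOpen_biInter_finset fun x _ => ?_
  by_cases h : z ∈ V x
  · have e2 : {y | y ∈ V x ↔ z ∈ V x} = V x := by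
      ext y
      simp [h]
    rw [e2]
    exact (hV x).isOpen
  · have e2 : {y | y ∈ V x ↔ z ∈ V x} = (V x)ᶜ := by
      ext y
      simp [h]
    rw [e2]
    exact (hV x).compl.isOpen

theorem atom_finite {Z : Type} (t : Finset Z) (V : Z → Set Z) : (range (atom t V)).Finite := by
  classical
  have h : range (atom t V) ⊆
      (fun s : Finset Z => {y | ∀ x ∈ t, (y ∈ V x ↔ x ∈ s)}) '' (t.powerset : Set (Finset Z)) := by
    rintro _ ⟨z, rfl⟩
    refine ⟨t.filter fun x => z ∈ V x, ?_, ?_⟩
    · rw [Finset.mem_coe, Finset.mem_powerset]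
      exact Finset.filter_subset _ _
    · ext y
      simp only [mem_setOf_eq, Finset.mem_filter, atom]
      constructor
      · intro h x hx
        rw [h x hx]
        exact ⟨fun h => h.2, fun h => ⟨hx, h⟩⟩
      · intro h x hx
        rw [h x hx]
        exact ⟨fun h => ⟨hx, h⟩, fun h => h.2⟩
  exact (Set.Finite.image _ (Finset.finite_toSet _)).subset h

end DI0

/-- If the covering dimension is not zero, two different points are not separated. -/
theorem t_DI0 : S_DI0 := by
  intro Z _ _ hZ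
  by_contra hcon
  push Not at hcon
  apply hZ
  have hts : TotallySeparatedSpace Z := by
    refine totallySeparatedSpace_iff_exists_isClopen.2 fun a b hab => ?_
    obtain ⟨A, B, hA, hB, hd, hu, ha, hb⟩ := hcon a b hab
    have hAB : B = Aᶜ := by
      ext x
      constructor
      · intro hx hx'
        exact Set.disjoint_left.1 hd hx' hx
      · intro hx
        have : x ∈ A ∪ B := by
          rw [hu]
          exact mem_univ x
        exact this.resolve_left hx
    refine ⟨A, ⟨hA, ?_⟩, ha, ?_⟩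
    · rw [← isClosed_compl_iff, ← hAB]
      exact hB
    · rw [← hAB]
      exact hb
  intro U hUf hUo hUc
  have h1 : ∀ x : Z, ∃ V : Set Z, IsClopen V ∧ x ∈ V ∧ ∃ u ∈ U, V ⊆ u := by
    intro x
    have hx : x ∈ ⋃₀ U := by
      rw [hUc]
      exact mem_univ x
    obtain ⟨u, hu, hxu⟩ := hx
    obtain ⟨V, hV1, hV2, hV3⟩ := compact_exists_isClopen_in_isOpen (hUo u hu) hxu
    exact ⟨V, hV1, hV2, u, hu, hV3⟩
  choose V hV1 hV2 u hu hVu using h1
  obtain ⟨t, ht⟩ := isCompact_univ.elim_finite_subcover V (fun x => (hV1 x).isOpen)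
    (fun x _ => mem_iUnion.2 ⟨x, hV2 x⟩)
  refine ⟨range (DI0.atom t V), DI0.atom_finite t V, ?_, ?_, ?_, ?_⟩
  · rintro _ ⟨z, rfl⟩
    exact DI0.atom_open t V hV1 z
  · rw [eq_univ_iff_forall]
    intro x
    exact ⟨_, ⟨x, rfl⟩, DI0.mem_atom t V x⟩
  · rintro _ ⟨z, rfl⟩
    have hz := ht (mem_univ z)
    rw [mem_iUnion₂] at hz
    obtain ⟨x, hx, hzx⟩ := hz
    refine ⟨u x, hu x, fun y hy => hVu x ?_⟩
    exact (hy x hx).2 hzx
  · intro x
    have e : {v | v ∈ range (DI0.atom t V) ∧ x ∈ v} ⊆ {DI0.atom t V x} := by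
      rintro _ ⟨⟨z, rfl⟩, hx⟩
      exact DI0.atom_eq t V hx
    calc _ ≤ ({DI0.atom t V x} : Set (Set Z)).ncard := Set.ncard_le_ncard e (Set.finite_singleton _)
      _ = 0 + 1 := by rw [Set.ncard_singleton]

end BBP
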