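import Pool.Agent.BBP.StmtsA

/-!
# BBP, EMB: dimension of embedded compact spaces
-/

set_option autoImplicit false

namespace BBP

open Set Topology CTO

namespace EMB

/-- `ShrLE` is invariant under homeomorphisms. -/
theorem shr_homeo {P Q : Type} [TopologicalSpace P] [TopologicalSpace Q] (h : P ≃ₜ Q) {n : ℕ}
    (hQ : ShrLE Q n) : ShrLE P n := by
  intro k U hU hc
  obtain ⟨V, hV, hVU, hVc, hVn⟩ := hQ k (fun i => h.symm ⁻¹' U i)
    (fun i => (hU i).preimage h.symm.continuous) (by
      rw [← preimage_iUnion, hc, preimage_univ])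
  refine ⟨fun i => h ⁻¹' V i, fun i => (hV i).preimage h.continuous, fun i x hx => ?_, ?_,
    fun x => hVn (h x)⟩
  · have h1 := hVU i hx
    rw [mem_preimage, Homeomorph.symm_apply_apply] at h1
    exact h1
  · rw [← preimage_iUnion, hVc, preimage_univ]

end EMB

theorem t_EMB : M_EMB := by
  intro hS X P _ _ _ _ n e hc hi hX
  have hcl : IsClosedEmbedding e := hc.isClosedEmbedding hi
  exact EMB.shr_homeo hcl.isEmbedding.toHomeomorph
    (hS X n (range e) hcl.isClosed_range hX)

end BBP
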