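import Pool.Agent.BBP.StmtsA

/-!
# BBP, EQU: the equator
-/

set_option autoImplicit false

namespace BBP

open Set Topology CTO

namespace EQU

theorem tz {X Y : Type} [TopologicalSpace X] [NormalSpace X] [TopologicalSpace Y]
    [TietzeExtension.{0} Y] {L : Set X} (hL : IsClosed L) (f : X → Y) (hf : ContinuousOn f L) :
    ∃ g : X → Y, Continuous g ∧ EqOn g f L := by
  obtain ⟨g, hg⟩ := ContinuousMap.exists_restrict_eq hL ⟨L.domRestrict f, hf.domRestrict⟩
  refine ⟨g, g.continuous, fun x hx => ?_⟩
  have h1 := congrArg (fun u : C(L, Y) => u ⟨x, hx⟩) hg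
  exact h1

end EQU

theorem t_EQU : S_EQU := by
  intro X _ _ H L K f hL hK hLK hf hf0
  classical
  have hc : ∀ i : Fin 3, ContinuousOn (fun x => f x i) L := by
    intro i
    exact (EuclideanSpace.proj (𝕜 := ℝ) i).continuous.comp_continuousOn hf
  obtain ⟨h, hhc, hh⟩ := EQU.tz (Y := ℝ) hL (fun x => f x 2) (hc 2)
  set K0 : Set X := K ∩ {x | h x = 0} with hK0
  have hK0c : IsClosed K0 := hK.inter (isClosed_eq hhc continuous_const)
  set g0 : X → ℂ := fun x => ⟨f x 0, f x 1⟩ with hg0
  have hg0c : ContinuousOn g0 L := by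
    have e : g0 = fun x => ((f x 0 : ℝ) : ℂ) + ((f x 1 : ℝ) : ℂ) * Complex.I := by
      funext x
      apply Complex.ext <;> simp [hg0]
    rw [e]
    exact (Complex.continuous_ofReal.comp_continuousOn (hc 0)).add
      ((Complex.continuous_ofReal.comp_continuousOn (hc 1)).mul continuousOn_const)
  obtain ⟨G, hGc, hG0, hGe⟩ := H (L ∩ K0) K0 g0 (hL.inter hK0c) hK0c inter_subset_right
    (hg0c.mono inter_subset_left) (by
      intro y hy h0
      apply hf0 y hy.1
      have h2 : f y 2 = 0 := (hh hy.1).symm.trans hy.2.2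
      have h3 : f y 0 = 0 := congrArg Complex.re h0
      have h4 : f y 1 = 0 := congrArg Complex.im h0
      ext i
      fin_cases i
      · exact h3
      · exact h4
      · exact h2)
  set G1 : X → ℂ := fun x => if x ∈ K0 then G x else g0 x with hG1
  have hG1K : EqOn G1 G K0 := fun x hx => if_pos hx
  have hG1L : EqOn G1 g0 L := by
    intro x hx
    by_cases hx0 : x ∈ K0
    · rw [hG1K hx0]
      exact hGe ⟨hx, hx0⟩
    · exact if_neg hx0
  have hG1c : ContinuousOn G1 (L ∪ K0) :=
    (hg0c.congr hG1L).union_of_isClosed (hGc.congr hG1K) hL hK0c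
  obtain ⟨G', hG'c, hG'⟩ := EQU.tz (hL.union hK0c) G1 hG1c
  refine ⟨fun x => !₂[(G' x).re, (G' x).im, h x], ?_, ?_, ?_⟩
  · refine Continuous.continuousOn ?_
    refine (PiLp.continuous_toLp 2 _).comp (continuous_pi fun i => ?_)
    fin_cases i
    · exact Complex.continuous_re.comp hG'c
    · exact Complex.continuous_im.comp hG'c
    · exact hhc
  · intro x hx h0
    have e0 : (G' x).re = 0 := by
      have := congrArg (fun v : R3 => v 0) h0
      simpa using this
    have e1 : (G' x).im = 0 := by
      have := congrArg (fun v : R3 => v 1) h0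
      simpa using this
    have e2 : h x = 0 := by
      have := congrArg (fun v : R3 => v 2) h0
      simpa using this
    have hx0 : x ∈ K0 := ⟨hx, e2⟩
    apply hG0 x hx0
    rw [← hG1K hx0, ← hG' (Or.inr hx0)]
    exact Complex.ext e0 e1
  · intro x hx
    have e : G' x = g0 x := by
      rw [hG' (Or.inl hx), hG1L hx]
    ext i
    fin_cases i
    · change (G' x).re = f x 0
      rw [e]
    · change (G' x).im = f x 1
      rw [e]
    · change h x = f x 2
      exact hh hx

end BBP
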