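import Pool.Agent.BBP.StmtsA

/-!
# Module BBP_EXC: if the cocycle extends then the map extends
-/

set_option autoImplicit false

namespace BBP

open Set Topology CTO

namespace EXC

theorem sm3 {K : Type} [MetricSpace K] {ε : ℝ} (hε : 0 < ε) {x y z : K} (h1 : dist x y < ε)
    (h2 : dist y z < ε) (h3 : dist x z < ε) : Sm ε [x, y, z] := by
  intro a ha b hb
  simp only [List.mem_cons, List.not_mem_nil, or_false] at ha hb
  rcases ha with rfl | rfl | rfl <;> rcases hb with rfl | rfl | rfl <;>
    first | assumption | (rw [dist_self]; exact hε) | (rw [dist_comm]; assumption)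

/-- weights of a partition of unity with points close to the supports -/
theorem pou {K : Type} [MetricSpace K] [CompactSpace K] (L : Set K) (r : ℝ) (hr : 0 < r) :
    ∃ (t : Finset K) (φ : K → K → ℝ) (pt : K → K), (∀ j, Continuous (φ j)) ∧
      (∀ j x, 0 ≤ φ j x) ∧ (∀ x, ∑ j ∈ t, φ j x = 1) ∧
      (∀ j x, φ j x ≠ 0 → dist x (pt j) < 2 * r) ∧ ∀ j x, φ j x ≠ 0 → x ∈ L → pt j ∈ L := by
  classical
  obtain ⟨t, -, htf, hcov⟩ := finite_cover_balls_of_compact (isCompact_univ (X := K)) hr
  have hpt : ∀ j : K, ∃ p : K, dist j p < r ∧ ((Metric.ball j r ∩ L).Nonempty → p ∈ L) := by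
    intro j
    by_cases h : (Metric.ball j r ∩ L).Nonempty
    · obtain ⟨p, hp1, hp2⟩ := h
      exact ⟨p, Metric.mem_ball'.1 hp1, fun _ => hp2⟩
    · exact ⟨j, by rw [dist_self]; exact hr, fun h' => absurd h' h⟩
  choose pt hpt1 hpt2 using hpt
  set w : K → K → ℝ := fun j x => max 0 (r - dist x j) with hw
  have hwc : ∀ j, Continuous (w j) := fun j =>
    continuous_const.max (continuous_const.sub (continuous_id.dist continuous_const))
  have hw0 : ∀ j x, 0 ≤ w j x := fun j x => le_max_left _ _
  have hwp : ∀ j x, w j x ≠ 0 → dist x j < r := by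
    intro j x h
    by_contra h1
    apply h
    exact max_eq_left (by linarith)
  set W : K → ℝ := fun x => ∑ j ∈ htf.toFinset, w j x with hW
  have hWc : Continuous W := continuous_finsetSum _ fun j _ => hwc j
  have hWp : ∀ x, 0 < W x := by
    intro x
    have hx := hcov (mem_univ x)
    rw [mem_iUnion₂] at hx
    obtain ⟨j, hj, hjx⟩ := hx
    have h1 : 0 < w j x := by
      have h2 : dist x j < r := hjx
      exact lt_of_lt_of_le (by linarith) (le_max_right 0 (r - dist x j))
    exact Finset.sum_pos' (fun i _ => hw0 i x) ⟨j, htf.mem_toFinset.2 hj, h1⟩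
  refine ⟨htf.toFinset, fun j x => w j x / W x, pt, fun j => (hwc j).div hWc fun x =>
    (hWp x).ne', fun j x => div_nonneg (hw0 j x) (hWp x).le, ?_, ?_, ?_⟩
  · intro x
    rw [← Finset.sum_div]
    exact div_self (hWp x).ne'
  · intro j x h
    have h1 : w j x ≠ 0 := fun h0 => h (by simp only [h0, zero_div])
    calc dist x (pt j) ≤ dist x j + dist j (pt j) := dist_triangle _ _ _
      _ < r + r := add_lt_add (hwp j x h1) (hpt1 j)
      _ = 2 * r := by ring
  · intro j x h hx
    have h1 : w j x ≠ 0 := fun h0 => h (by simp only [h0, zero_div])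
    exact hpt2 j ⟨x, hwp j x h1, hx⟩

/-- full turns -/
noncomputable def tu (s : ℝ) : ℂ := Complex.exp (((2 * Real.pi * s : ℝ) : ℂ) * Complex.I)

theorem tu_cont : Continuous tu := by
  unfold tu
  fun_prop

theorem tu_ne (s : ℝ) : tu s ≠ 0 := Complex.exp_ne_zero _

theorem tu_add (s s' : ℝ) : tu (s + s') = tu s * tu s' := by
  unfold tu
  rw [← Complex.exp_add]
  congr 1
  push_cast
  ring

theorem tu_int (n : ℤ) : tu n = 1 := by
  unfold tu
  rw [← Complex.exp_int_mul_two_pi_mul_I n]
  congr 1
  push_cast
  ring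

theorem tu_th {K : Type} (f : K → ℂ) (x : K) : f x = (‖f x‖ : ℂ) * tu (th f x) := by
  have h1 : (2 * Real.pi * th f x : ℝ) = Complex.arg (f x) := by
    unfold th
    have : (2 * Real.pi : ℝ) ≠ 0 := by positivity
    field_simp
  unfold tu
  rw [h1]
  exact (Complex.norm_mul_exp_arg_mul_I (f x)).symm

theorem tu_re (s : ℝ) : (tu s).re = Real.cos (2 * Real.pi * s) := by
  unfold tu
  rw [Complex.exp_ofReal_mul_I_re]

theorem slit (a s : ℝ) (ha : 0 < a) (hs : |s| ≤ 1 / 16) : (a : ℂ) * tu s ∈ Complex.slitPlane := by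
  rw [Complex.mem_slitPlane_iff]
  left
  rw [Complex.re_ofReal_mul, tu_re]
  apply mul_pos ha
  apply Real.cos_pos_of_mem_Ioo
  have h1 := abs_le.1 hs
  have h2 := Real.pi_pos
  constructor <;> nlinarith

end EXC

open EXC in
theorem t_EXC : M_EXC := by
  intro hCOC K _ _ L f hL hf hne b ε hε hb hbL
  classical
  obtain ⟨-, -, ε1, hε1, h1⟩ := hCOC K L f hL hf hne
  set r : ℝ := min ε ε1 / 8 with hr
  have hr0 : 0 < r := by
    have := lt_min hε hε1
    positivity
  have hr1 : 8 * r ≤ ε := by
    rw [hr]
    have := min_le_left ε ε1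
    linarith
  have hr2 : 8 * r ≤ ε1 := by
    rw [hr]
    have := min_le_right ε ε1
    linarith
  obtain ⟨t, φ, pt, hφc, hφ0, hφ1, hφp, hφL⟩ := pou L r hr0
  -- the function
  set S : K → ℝ := fun x => ∑ j ∈ t, φ j x * b x (pt j) with hS
  set A : K → ℝ := fun x => ∑ j ∈ t, φ j x * th f (pt j) with hA
  have hAc : Continuous A := continuous_finsetSum _ fun j _ => (hφc j).mul continuous_const
  have hFc : Continuous fun x => tu (-(S x)) := by
    rw [continuous_iff_continuousAt]
    intro x
    have hc : ContinuousAt (fun x' => tu (-(∑ j ∈ t, φ j x' * b x (pt j)))) x := by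
      apply Continuous.continuousAt
      exact tu_cont.comp (continuous_finsetSum _ fun j _ => (hφc j).mul continuous_const).neg
    apply hc.congr
    have hball : Metric.ball x r ∈ 𝓝 x := Metric.ball_mem_nhds x hr0
    filter_upwards [hball] with x' hx'
    have hd : dist x' x < r := hx'
    have h2 : S x' = b x' x + ∑ j ∈ t, φ j x' * b x (pt j) := by
      have h3 : ((b x' x : ℤ) : ℝ) = ∑ j ∈ t, φ j x' * (b x' x : ℤ) := by
        rw [← Finset.sum_mul, hφ1, one_mul]
      rw [h3, ← Finset.sum_add_distrib, hS]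
      apply Finset.sum_congr rfl
      intro j _
      by_cases h4 : φ j x' = 0
      · rw [h4]
        ring
      · have h5 := hφp j x' h4
        have h6 : dist x (pt j) < 3 * r := by
          calc dist x (pt j) ≤ dist x x' + dist x' (pt j) := dist_triangle _ _ _
            _ < r + 2 * r := add_lt_add (by rw [dist_comm]; exact hd) h5
            _ = 3 * r := by ring
        have h7 := hb x' x (pt j) (sm3 hε (by linarith) (by linarith) (by linarith))
        have h8 : b x' (pt j) = b x' x + b x (pt j) := by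
          unfold d1 at h7
          linarith
        rw [h8]
        push_cast
        ring
    change tu (-(∑ j ∈ t, φ j x' * b x (pt j))) = tu (-(S x'))
    rw [h2, neg_add, tu_add]
    have h9 : tu (-((b x' x : ℤ) : ℝ)) = 1 := by
      rw [← Int.cast_neg]
      exact tu_int _
    rw [h9, one_mul]
  -- the quotient
  set G : K → ℂ := fun x => tu (-(S x)) * tu (A x) with hG
  have hGc : Continuous G := hFc.mul (tu_cont.comp hAc)
  have hGne : ∀ x, G x ≠ 0 := fun x => mul_ne_zero (tu_ne _) (tu_ne _)
  have hsl : ∀ x ∈ L, f x / G x ∈ Complex.slitPlane := by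
    intro x hx
    set s : ℝ := ∑ j ∈ t, φ j x * (th f (pt j) - th f x - cc L f x (pt j)) with hs
    have hss : |s| ≤ 1 / 16 := by
      calc |s| ≤ ∑ j ∈ t, |φ j x * (th f (pt j) - th f x - cc L f x (pt j))| :=
            Finset.abs_sum_le_sum_abs _ _
        _ ≤ ∑ j ∈ t, φ j x * (1 / 16) := by
            apply Finset.sum_le_sum
            intro j _
            rw [abs_mul, abs_of_nonneg (hφ0 j x)]
            by_cases h4 : φ j x = 0
            · rw [h4]
              simp
            · apply mul_le_mul_of_nonneg_left _ (hφ0 j x)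
              exact h1 x hx (pt j) (hφL j x h4 hx) (by linarith [hφp j x h4])
        _ = 1 / 16 := by rw [← Finset.sum_mul, hφ1, one_mul]
    have h2 : -(S x) + A x = th f x + s := by
      have h3 : th f x = ∑ j ∈ t, φ j x * th f x := by
        rw [← Finset.sum_mul, hφ1, one_mul]
      rw [hs, hS, hA]
      change -(∑ j ∈ t, φ j x * b x (pt j)) + ∑ j ∈ t, φ j x * th f (pt j) = _
      have h3b : th f x + ∑ j ∈ t, φ j x * (th f (pt j) - th f x - cc L f x (pt j)) =
          ∑ j ∈ t, (φ j x * th f x + φ j x * (th f (pt j) - th f x - cc L f x (pt j))) := by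
        rw [Finset.sum_add_distrib, ← h3]
      rw [← Finset.sum_neg_distrib, ← Finset.sum_add_distrib, h3b]
      apply Finset.sum_congr rfl
      intro j _
      by_cases h4 : φ j x = 0
      · rw [h4]
        ring
      · have h5 := hbL x hx (pt j) (hφL j x h4 hx) (by linarith [hφp j x h4])
        rw [h5]
        ring
    have h6 : f x / G x = (‖f x‖ : ℂ) * tu (-s) := by
      rw [div_eq_iff (hGne x)]
      have h7 : G x = tu (th f x) * tu s := by
        rw [hG]
        change tu (-(S x)) * tu (A x) = _
        rw [← tu_add, h2, tu_add]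
      rw [h7]
      have h8 : tu (-s) * tu s = 1 := by
        rw [← tu_add, neg_add_cancel]
        exact_mod_cast tu_int 0
      calc f x = (‖f x‖ : ℂ) * tu (th f x) := tu_th f x
        _ = (‖f x‖ : ℂ) * tu (th f x) * (tu (-s) * tu s) := by rw [h8, mul_one]
        _ = _ := by ring
    rw [h6]
    exact slit _ _ (norm_pos_iff.2 (hne x hx)) (by rwa [abs_neg])
  have hlog : ContinuousOn (fun x => Complex.log (f x / G x)) L :=
    (hf.div hGc.continuousOn fun x _ => hGne x).clog hsl
  obtain ⟨g, hg⟩ := ContinuousMap.exists_restrict_eq hL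
    (⟨L.domRestrict fun x => Complex.log (f x / G x), continuousOn_iff_continuous_domRestrict.1 hlog⟩ :
      C(L, ℂ))
  refine ⟨fun x => G x * Complex.exp (g x), ?_, ?_, ?_⟩
  · exact (hGc.mul (Complex.continuous_exp.comp g.continuous)).continuousOn
  · intro x _
    exact mul_ne_zero (hGne x) (Complex.exp_ne_zero _)
  · intro x hx
    have h2 : g x = Complex.log (f x / G x) := congrArg (fun h : C(L, ℂ) => h ⟨x, hx⟩) hg
    change G x * Complex.exp (g x) = f x
    rw [h2, Complex.exp_log (div_ne_zero (hne x hx) (hGne x)), mul_div_cancel₀]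
    exact hGne x

end BBP
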