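import Pool.Agent.BBP.StmtsA

/-!
# BBP, module FBX: flow box
-/

set_option autoImplicit false

namespace BBP

open Set Topology CTO

namespace FBX

variable {X : Type} [MetricSpace X]

/-- the flow box for `0 < T` -/
theorem pos (φ : ℝ → X → X)
    (hφ : Continuous fun p : ℝ × X => φ p.1 p.2) (h0 : ∀ x, φ 0 x = x)
    (hadd : ∀ s t x, φ (s + t) x = φ s (φ t x)) (p : X) (T : ℝ) (hTp : φ T p ≠ p) :
    ∃ (S : Set X) (a : ℝ), IsClosed S ∧ 0 < a ∧
      InjOn (fun q : X × ℝ => φ q.2 q.1) (S ×ˢ Icc (-a) a) ∧
      (fun q : X × ℝ => φ q.2 q.1) '' (S ×ˢ Icc (-a) a) ∈ 𝓝 p := by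
  set θ : X → ℝ := fun x => ∫ s in (0 : ℝ)..T, dist (φ s x) p with hθ
  have hθc : Continuous θ := by
    refine intervalIntegral.continuous_parametric_intervalIntegral_of_continuous'
      (f := fun (x : X) (s : ℝ) => dist (φ s x) p) ?_ 0 T
    have : Continuous fun q : X × ℝ => φ q.2 q.1 := hφ.comp (continuous_snd.prodMk continuous_fst)
    exact this.dist continuous_const
  have horb : ∀ x, Continuous fun s : ℝ => dist (φ s x) p := fun x =>
    (hφ.comp (continuous_id.prodMk continuous_const)).dist continuous_const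
  have hθt : ∀ t x, θ (φ t x) = ∫ s in t..(t + T), dist (φ s x) p := by
    intro t x
    simp only [hθ]
    have h1 : ∀ s : ℝ, dist (φ s (φ t x)) p = (fun u : ℝ => dist (φ u x) p) (s + t) := by
      intro s
      simp only [hadd]
    rw [intervalIntegral.integral_congr (fun s _ => h1 s),
      intervalIntegral.integral_comp_add_right (fun u : ℝ => dist (φ u x) p) t]
    rw [zero_add, add_comm T t]
  have hdiff : ∀ t t' x, θ (φ t' x) - θ (φ t x) =
      ∫ s in t..t', (dist (φ (s + T) x) p - dist (φ s x) p) := by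
    intro t t' x
    have hi : ∀ u v : ℝ, IntervalIntegrable (fun s : ℝ => dist (φ s x) p) MeasureTheory.volume u v :=
      fun u v => (horb x).intervalIntegrable u v
    have hi2 : IntervalIntegrable (fun s : ℝ => dist (φ (s + T) x) p)
        MeasureTheory.volume t t' :=
      ((horb x).comp (continuous_id.add continuous_const)).intervalIntegrable t t'
    rw [hθt, hθt, intervalIntegral.integral_sub hi2 (hi t t'),
      intervalIntegral.integral_comp_add_right (fun u : ℝ => dist (φ u x) p) T,
      ← intervalIntegral.integral_add_adjacent_intervals (hi t' t) (hi t (t' + T)),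
      ← intervalIntegral.integral_add_adjacent_intervals (hi t (t + T)) (hi (t + T) (t' + T)),
      intervalIntegral.integral_symm t t']
    ring
  -- the constants
  set c : ℝ := dist (φ T p) p / 2 with hc
  have hc0 : 0 < c := by
    have := dist_pos.2 hTp
    rw [hc]
    positivity
  have hev1 : ∀ᶠ q : ℝ × X in 𝓝 ((0 : ℝ), p),
      c < dist (φ (q.1 + T) q.2) p - dist (φ q.1 q.2) p := by
    have hcont : Continuous fun q : ℝ × X =>
        dist (φ (q.1 + T) q.2) p - dist (φ q.1 q.2) p := by
      refine Continuous.sub ?_ ?_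
      · exact (hφ.comp ((continuous_fst.add continuous_const).prodMk continuous_snd)).dist
          continuous_const
      · exact hφ.dist continuous_const
    refine (hcont.tendsto _).eventually (lt_mem_nhds ?_)
    simp only [zero_add, h0, dist_self, sub_zero]
    have := dist_pos.2 hTp
    rw [hc]
    linarith
  obtain ⟨δ, hδ, hδ1⟩ := Metric.eventually_nhds_iff.1 hev1
  have hB1 : ∀ s x, |s| < δ → dist x p < δ →
      c < dist (φ (s + T) x) p - dist (φ s x) p := by
    intro s x hs hx
    refine hδ1 (y := (s, x)) ?_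
    rw [Prod.dist_eq]
    refine max_lt ?_ hx
    simpa [Real.dist_eq] using hs
  have hmono : ∀ t t' x, |t| < δ → |t'| < δ → dist x p < δ → t ≤ t' →
      c * (t' - t) ≤ θ (φ t' x) - θ (φ t x) := by
    intro t t' x ht ht' hx htt
    rw [hdiff]
    have hcs : ∫ s in t..t', c = c * (t' - t) := by
      rw [intervalIntegral.integral_const, smul_eq_mul, mul_comm]
    rw [← hcs]
    refine intervalIntegral.integral_mono_on htt ?_ ?_ ?_
    · exact continuous_const.intervalIntegrable _ _
    · refine Continuous.intervalIntegrable ?_ _ _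
      exact ((horb x).comp (continuous_id.add continuous_const)).sub (horb x)
    · intro s hs
      refine (hB1 s x ?_ hx).le
      rw [abs_lt] at ht ht' ⊢
      exact ⟨by linarith [hs.1], by linarith [hs.2]⟩
  -- the second neighbourhood
  have hev2 : ∀ᶠ q : ℝ × X in 𝓝 ((0 : ℝ), p), dist (φ q.1 q.2) p < δ / 2 := by
    have hcont : Continuous fun q : ℝ × X => dist (φ q.1 q.2) p := hφ.dist continuous_const
    refine (hcont.tendsto _).eventually (gt_mem_nhds ?_)
    simp only [h0, dist_self]
    linarith
  obtain ⟨η, hη, hη1⟩ := Metric.eventually_nhds_iff.1 hev2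
  have hB2 : ∀ s x, |s| < η → dist x p < η → dist (φ s x) p < δ / 2 := by
    intro s x hs hx
    refine hη1 (y := (s, x)) ?_
    rw [Prod.dist_eq]
    refine max_lt ?_ hx
    simpa [Real.dist_eq] using hs
  set a : ℝ := min (δ / 3) (η / 2) with ha
  have ha0 : 0 < a := by
    rw [ha]
    exact lt_min (by linarith) (by linarith)
  have ha1 : a ≤ δ / 3 := min_le_left _ _
  have ha2 : a ≤ η / 2 := min_le_right _ _
  refine ⟨Metric.closedBall p (δ / 2) ∩ {x | θ x = θ p}, a, ?_, ha0, ?_, ?_⟩
  · exact Metric.isClosed_closedBall.inter (isClosed_eq hθc continuous_const)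
  · rintro ⟨x, t⟩ ⟨⟨hx, hxθ⟩, ht⟩ ⟨x', t'⟩ ⟨⟨hx', hxθ'⟩, ht'⟩ heq
    simp only [mem_ofPred_eq] at hxθ hxθ'
    simp only at heq ht ht'
    have hxx : x' = φ (t - t') x := by
      have h1 : φ (-t') (φ t x) = φ (-t') (φ t' x') := by rw [heq]
      rw [← hadd, ← hadd, neg_add_cancel, h0] at h1
      rw [← h1]
      congr 1
      ring
    have hxd : dist x p < δ := by
      have := Metric.mem_closedBall.1 hx
      linarith
    have hθx : θ (φ (t - t') x) = θ (φ 0 x) := by
      rw [h0, ← hxx, hxθ, hxθ']
    have hu : |t - t'| < δ := by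
      rw [abs_lt]
      have h1 := ht.1
      have h2 := ht.2
      have h3 := ht'.1
      have h4 := ht'.2
      exact ⟨by linarith, by linarith⟩
    have hz : |(0 : ℝ)| < δ := by simpa using hδ
    have htt : t - t' = 0 := by
      rcases le_total (t - t') 0 with h | h
      · have := hmono (t - t') 0 x hu hz hxd h
        rw [hθx, sub_self] at this
        by_contra hne
        have hlt : t - t' < 0 := lt_of_le_of_ne h hne
        have : 0 < c * (0 - (t - t')) := mul_pos hc0 (by linarith)
        linarith
      · have := hmono 0 (t - t') x hz hu hxd h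
        rw [hθx, sub_self] at this
        by_contra hne
        have hlt : 0 < t - t' := lt_of_le_of_ne h (Ne.symm hne)
        have : 0 < c * ((t - t') - 0) := mul_pos hc0 (by linarith)
        linarith
    have hte : t = t' := by linarith
    rw [htt, h0] at hxx
    rw [hxx, hte]
  · have hn1 : ∀ᶠ y in 𝓝 p, dist y p < min η δ :=
      Metric.ball_mem_nhds p (lt_min hη hδ)
    have hn2 : ∀ᶠ y in 𝓝 p, θ y < θ p + c * a := by
      refine (hθc.tendsto p).eventually (gt_mem_nhds ?_)
      have := mul_pos hc0 ha0
      linarith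
    have hn3 : ∀ᶠ y in 𝓝 p, θ p - c * a < θ y := by
      refine (hθc.tendsto p).eventually (lt_mem_nhds ?_)
      have := mul_pos hc0 ha0
      linarith
    filter_upwards [hn1, hn2, hn3] with y hy1 hy2 hy3
    have hyη : dist y p < η := lt_of_lt_of_le hy1 (min_le_left _ _)
    have hyδ : dist y p < δ := lt_of_lt_of_le hy1 (min_le_right _ _)
    have hz : |(0 : ℝ)| < δ := by simpa using hδ
    have haδ : |a| < δ := by
      rw [abs_of_pos ha0]
      linarith
    have haδ' : |-a| < δ := by
      rw [abs_neg]
      exact haδ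
    have hup := hmono 0 a y hz haδ hyδ ha0.le
    have hlo := hmono (-a) 0 y haδ' hz hyδ (by linarith)
    rw [h0] at hup hlo
    have hcont : ContinuousOn (fun t : ℝ => θ (φ t y)) (Icc (-a) a) :=
      (hθc.comp (hφ.comp (continuous_id.prodMk continuous_const))).continuousOn
    have hivt := intermediate_value_Icc (by linarith : -a ≤ a) hcont
    have hmem : θ p ∈ Icc (θ (φ (-a) y)) (θ (φ a y)) := by
      refine ⟨?_, ?_⟩
      · have : c * (0 - -a) = c * a := by ring
        linarith
      · have : c * (a - 0) = c * a := by ring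
        linarith
    obtain ⟨t, ht, hte⟩ := hivt hmem
    refine ⟨(φ t y, -t), ⟨⟨?_, hte⟩, ?_⟩, ?_⟩
    · rw [Metric.mem_closedBall]
      refine (hB2 t y ?_ hyη).le
      rw [abs_lt]
      exact ⟨by linarith [ht.1], by linarith [ht.2]⟩
    · exact ⟨by linarith [ht.2], by linarith [ht.1]⟩
    · show φ (-t) (φ t y) = y
      rw [← hadd, neg_add_cancel, h0]

end FBX

theorem t_FBX : S_FBX := by
  intro X _ _ φ hφ h0 hadd p T hTp
  exact FBX.pos φ hφ h0 hadd p T hTp

end BBP
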