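import Pool.Agent.BBP.StmtsA

/-!
# FLP: from a flow to a product
-/

set_option autoImplicit false

namespace BBP

open Set Topology CTO

namespace FLP

/-- the image of an injective continuous map of compact spaces has the same dimension -/
theorem rng (hEMB : S_EMB) {X P : Type} [MetricSpace X] [MetricSpace P] [CompactSpace P]
    (n : ℕ) (e : P → X) (he : Continuous e) (hi : Function.Injective e) (hP : ShrLE P n) :
    ShrLE (range e) n := by
  have hce : IsClosedEmbedding e := he.isClosedEmbedding hi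
  have : CompactSpace (range e) := isCompact_iff_compactSpace.mp (isCompact_range he)
  let g : range e → P := hce.isEmbedding.toHomeomorph.symm
  exact hEMB P (range e) n g (Homeomorph.continuous _) (Homeomorph.injective _) hP

/-- a homogeneous space with a compact neighbourhood of small dimension has small dimension -/
theorem homg (hEMB : S_EMB) (hSUM : S_SUM) {X P : Type} [MetricSpace X] [CompactSpace X]
    [MetricSpace P] [CompactSpace P] (hX : Homog X) (n : ℕ) (e : P → X) (he : Continuous e)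
    (hi : Function.Injective e) (hP : ShrLE P n) (p : X) (hp : range e ∈ 𝓝 p) : ShrLE X n := by
  choose h hh using fun y : X => hX p y
  have hN : ∀ y, range (h y ∘ e) ∈ 𝓝 y := by
    intro y
    have h1 : (h y) '' (range e) ∈ 𝓝 (h y p) := (h y).isOpenMap.image_mem_nhds hp
    rw [hh y, ← range_comp] at h1
    exact h1
  obtain ⟨t, ht⟩ := CompactSpace.elim_nhds_subcover (fun y => range (h y ∘ e)) hN
  refine hSUM X n t.card (fun j => range (h (t.equivFin.symm j) ∘ e)) ?_ ?_ ?_
  · intro j
    exact (isCompact_range ((h _).continuous.comp he)).isClosed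
  · rw [eq_univ_iff_forall]
    intro x
    have hx : x ∈ ⋃ y ∈ t, range (h y ∘ e) := by
      rw [ht]
      trivial
    rw [mem_iUnion₂] at hx
    obtain ⟨y, hy, hxy⟩ := hx
    rw [mem_iUnion]
    refine ⟨t.equivFin ⟨y, hy⟩, ?_⟩
    rw [Equiv.symm_apply_apply]
    exact hxy
  · intro j
    exact rng hEMB n _ ((h _).continuous.comp he) ((h _).injective.comp hi) hP

end FLP

/-- from a flow to a product -/
theorem t_FLP : M_FLP := by
  intro hSHR hSUM hINT hNPR hEMB hFBX X _ _ hX h3 h2 hF
  obtain ⟨φ, hc, h0, hadd, T, p, hT⟩ := hF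
  obtain ⟨S, a, hS, ha, hinj, hnb⟩ := hFBX X φ hc h0 hadd p T hT
  have hKc : CompactSpace S := isCompact_iff_compactSpace.mp hS.isCompact
  let e : S × Icc (-a) a → X := fun q => φ q.2.1 q.1.1
  have hec : Continuous e := by
    have h1 : Continuous fun q : S × Icc (-a) a => ((q.2.1, q.1.1) : ℝ × X) := by
      fun_prop
    exact hc.comp h1
  have hei : Function.Injective e := by
    intro q q' hq
    have h1 : ((q.1.1, q.2.1) : X × ℝ) ∈ S ×ˢ Icc (-a) a := ⟨q.1.2, q.2.2⟩
    have h1' : ((q'.1.1, q'.2.1) : X × ℝ) ∈ S ×ˢ Icc (-a) a := ⟨q'.1.2, q'.2.2⟩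
    have h4 := hinj h1 h1' hq
    have h5 := congrArg Prod.fst h4
    have h6 := congrArg Prod.snd h4
    exact Prod.ext (Subtype.ext h5) (Subtype.ext h6)
  have her : range e ∈ 𝓝 p := by
    refine Filter.mem_of_superset hnb ?_
    rintro _ ⟨q, hq, rfl⟩
    exact ⟨(⟨q.1, hq.1⟩, ⟨q.2, hq.2⟩), rfl⟩
  have hP2 : ¬ ShrLE (S × Icc (-a) a) 2 := fun h =>
    h2 (FLP.homg hEMB hSUM hX 2 e hec hei h p her)
  have hP3 : ShrLE (S × Icc (-a) a) 3 := hEMB X _ 3 e hec hei h3
  have hZ := hINT.1 a ha
  have hK0 : ¬ ShrLE S 0 := by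
    intro hK
    have hK1 : ShrLE S 1 := hINT.2 S 0 1 (Nat.zero_le _) hK
    exact hP2 (hNPR S (Icc (-a) a) hP3 hK1 hZ.1)
  refine ⟨S, Icc (-a) a, inferInstance, hKc, inferInstance, inferInstance, ?_, ?_, ?_, e, hec,
    hei⟩
  · rw [hSHR]
    exact hK0
  · rw [hSHR]
    exact hZ.2
  · rw [hSHR]
    exact hP2

end BBP
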