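import Pool.Agent.BBP.StmtsA

/-!
# MP_6eac38_gt, part 3: module INT (the interval)
-/

set_option autoImplicit false

namespace BBP

open Set Topology CTO

namespace INT

theorem le_one {a : ℝ} (ha : 0 < a) : ShrLE (Icc (-a) a) 1 := by
  intro k U hU hcov
  obtain ⟨δ, hδ, hL⟩ := lebesgue_number_lemma_of_metric (isCompact_univ (X := Icc (-a) a)) hU
    hcov.symm.subset
  set η : ℝ := δ / 2 with hη
  have hη0 : 0 < η := by positivity
  let W : ℤ → Set (Icc (-a) a) := fun j => {x | |(x : ℝ) / η - j| < 3 / 4}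
  have hWo : ∀ j, IsOpen (W j) := by
    intro j
    apply isOpen_lt _ continuous_const
    exact ((continuous_subtype_val.div_const η).sub continuous_const).abs
  have h0 : (0 : ℝ) ∈ Icc (-a) a := ⟨by linarith, ha.le⟩
  have hc : ∀ j, ∃ i, W j ⊆ U i := by
    intro j
    rcases (W j).eq_empty_or_nonempty with he | ⟨x, hx⟩
    · obtain ⟨i, _⟩ := hL ⟨0, h0⟩ (mem_univ _)
      exact ⟨i, by rw [he]; exact empty_subset _⟩
    · obtain ⟨i, hi⟩ := hL x (mem_univ _)
      refine ⟨i, fun y hy => hi ?_⟩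
      rw [Metric.mem_ball, Subtype.dist_eq, Real.dist_eq]
      have h1 : |(y : ℝ) / η - x / η| < 3 / 2 := by
        have h2 : (y : ℝ) / η - x / η = ((y : ℝ) / η - j) - (x / η - j) := by ring
        rw [h2]
        refine (abs_sub _ _).trans_lt ?_
        have h3 : |(y : ℝ) / η - j| < 3 / 4 := hy
        have h4 : |(x : ℝ) / η - j| < 3 / 4 := hx
        linarith
      rw [← sub_div, abs_div, abs_of_pos hη0, div_lt_iff₀ hη0] at h1
      linarith
  choose c hc using hc
  refine ⟨fun i => ⋃ j, ⋃ _ : c j = i, W j, ?_, ?_, ?_, ?_⟩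
  · intro i
    exact isOpen_iUnion fun j => isOpen_iUnion fun _ => hWo j
  · intro i x hx
    obtain ⟨j, hj⟩ := mem_iUnion.1 hx
    obtain ⟨hji, hxj⟩ := mem_iUnion.1 hj
    rw [← hji]
    exact hc j hxj
  · apply eq_univ_of_forall
    intro x
    have h1 := abs_sub_round ((x : ℝ) / η)
    have h2 : x ∈ W (round ((x : ℝ) / η)) := by
      show |(x : ℝ) / η - round ((x : ℝ) / η)| < 3 / 4
      linarith
    exact mem_iUnion.2 ⟨c _, mem_iUnion.2 ⟨_, mem_iUnion.2 ⟨rfl, h2⟩⟩⟩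
  · intro x
    have h1 : {i | x ∈ ⋃ j, ⋃ _ : c j = i, W j} ⊆
        {c ⌊(x : ℝ) / η⌋, c (⌊(x : ℝ) / η⌋ + 1)} := by
      intro i hi
      obtain ⟨j, hj⟩ := mem_iUnion.1 hi
      obtain ⟨hji, hxj⟩ := mem_iUnion.1 hj
      have h2 : |(x : ℝ) / η - j| < 3 / 4 := hxj
      rw [abs_lt] at h2
      have h3 : j = ⌊(x : ℝ) / η⌋ ∨ j = ⌊(x : ℝ) / η⌋ + 1 := by
        have h4 := Int.floor_le ((x : ℝ) / η)
        have h5 := Int.lt_floor_add_one ((x : ℝ) / η)
        have h6 : ((⌊(x : ℝ) / η⌋ - 1 : ℤ) : ℝ) < (j : ℝ) := by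
          push_cast
          linarith [h2.2]
        have h7 : (j : ℝ) < ((⌊(x : ℝ) / η⌋ + 2 : ℤ) : ℝ) := by
          push_cast
          linarith [h2.1]
        have h8 := Int.cast_lt.1 h6
        have h9 := Int.cast_lt.1 h7
        omega
      rw [← hji]
      rcases h3 with h3 | h3
      · rw [h3]
        exact mem_insert _ _
      · rw [h3]
        exact mem_insert_of_mem _ (mem_singleton _)
    calc {i | x ∈ ⋃ j, ⋃ _ : c j = i, W j}.ncard
        ≤ ({c ⌊(x : ℝ) / η⌋, c (⌊(x : ℝ) / η⌋ + 1)} : Set (Fin k)).ncard :=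
          Set.ncard_le_ncard h1 (toFinite _)
      _ ≤ ({c (⌊(x : ℝ) / η⌋ + 1)} : Set (Fin k)).ncard + 1 := Set.ncard_insert_le _ _
      _ = 1 + 1 := by rw [Set.ncard_singleton]

theorem not_zero {a : ℝ} (ha : 0 < a) : ¬ ShrLE (Icc (-a) a) 0 := by
  intro h
  have hm : (-a) ∈ Icc (-a) a := ⟨le_rfl, by linarith⟩
  have hp : a ∈ Icc (-a) a := ⟨by linarith, le_rfl⟩
  have hconn : PreconnectedSpace (Icc (-a) a) := Subtype.preconnectedSpace isPreconnected_Icc
  let U : Fin 2 → Set (Icc (-a) a) := ![{x | (x : ℝ) < a}, {x | -a < (x : ℝ)}]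
  have hU : ∀ i, IsOpen (U i) := by
    intro i
    fin_cases i
    · exact isOpen_lt continuous_subtype_val continuous_const
    · exact isOpen_lt continuous_const continuous_subtype_val
  have hcov : (⋃ i, U i) = univ := by
    apply eq_univ_of_forall
    intro x
    by_cases hx : (x : ℝ) < a
    · exact mem_iUnion.2 ⟨0, hx⟩
    · refine mem_iUnion.2 ⟨1, ?_⟩
      show -a < (x : ℝ)
      linarith
  obtain ⟨V, hVo, hVU, hVc, hVn⟩ := h 2 U hU hcov
  have hmem : ∀ x, x ∈ V 0 ∨ x ∈ V 1 := by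
    intro x
    have hx : x ∈ ⋃ i, V i := by rw [hVc]; exact mem_univ x
    obtain ⟨i, hi⟩ := mem_iUnion.1 hx
    fin_cases i
    · exact Or.inl hi
    · exact Or.inr hi
  have hdis : ∀ x, x ∈ V 0 → x ∉ V 1 := by
    intro x h0 h1
    have h2 := hVn x
    have h3 : ({0, 1} : Set (Fin 2)) ⊆ {i | x ∈ V i} := by
      rintro i (rfl | rfl)
      · exact h0
      · exact h1
    have h4 := Set.ncard_le_ncard h3 (toFinite _)
    rw [Set.ncard_pair (by decide)] at h4
    omega
  have hcompl : (V 0)ᶜ = V 1 := by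
    ext x
    constructor
    · intro hx
      exact (hmem x).resolve_left hx
    · intro hx h0
      exact hdis x h0 hx
  have hclopen : IsClopen (V 0) := ⟨by rw [← isOpen_compl_iff, hcompl]; exact hVo 1, hVo 0⟩
  rcases isClopen_iff.1 hclopen with he | he
  · have h1 : (⟨-a, hm⟩ : Icc (-a) a) ∈ V 1 := by
      rw [← hcompl, he]
      exact fun hh => hh
    have h2 : -a < -a := hVU 1 h1
    exact lt_irrefl _ h2
  · have h1 : (⟨a, hp⟩ : Icc (-a) a) ∈ V 0 := by
      rw [he]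
      exact mem_univ _
    have h2 : a < a := hVU 0 h1
    exact lt_irrefl _ h2

end INT

theorem t_INT : S_INT := by
  refine ⟨fun a ha => ⟨INT.le_one ha, INT.not_zero ha⟩, fun X _ m n hmn h k U hU hc => ?_⟩
  obtain ⟨V, h1, h2, h3, h4⟩ := h k U hU hc
  exact ⟨V, h1, h2, h3, fun x => (h4 x).trans (by omega)⟩

end BBP
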