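import Pool.Agent.BBP.StmtsA

/-!
# MP_6eac38_gt, third part, module KMN: a minimal closed set with a map to `ℂ \ 0` that cannot be
extended
-/

set_option autoImplicit false

namespace BBP

open Set Topology CTO

namespace KMN

/-- Tietze's theorem for `ContinuousOn` -/
theorem tietze {X : Type} [MetricSpace X] {K : Set X} (hK : IsClosed K) {F : X → ℂ}
    (hF : ContinuousOn F K) : ∃ G : X → ℂ, Continuous G ∧ EqOn G F K := by
  have : TietzeExtension.{0, 0} ℂ := TietzeExtension.of_tvs ℝ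
  obtain ⟨g, hg⟩ := ContinuousMap.exists_restrict_eq hK
    (⟨K.domRestrict F, continuousOn_iff_continuous_domRestrict.1 hF⟩ : C(K, ℂ))
  refine ⟨g, g.continuous, fun x hx => ?_⟩
  have h := congrArg (fun φ : C(K, ℂ) => φ ⟨x, hx⟩) hg
  exact h

theorem chain_inf {X : Type} [MetricSpace X] [CompactSpace X] {L : Set X} {f : X → ℂ}
    (c : Set (Set X)) (hc : ∀ K ∈ c, IsClosed K ∧ L ⊆ K ∧ ¬ ExtC L K f)
    (hch : IsChain (· ⊆ ·) c) (hne : c.Nonempty) : ¬ ExtC L (⋂₀ c) f := by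
  rintro ⟨F, hF1, hF2, hF3⟩
  have hcl : IsClosed (⋂₀ c) := isClosed_sInter fun K hK => (hc K hK).1
  obtain ⟨G, hG1, hG2⟩ := tietze hcl hF1
  have hU : IsClosed {x | G x = 0} := isClosed_eq hG1 continuous_const
  have : Nonempty c := hne.to_subtype
  obtain ⟨K, hK⟩ := hU.isCompact.elim_directed_family_closed (fun K : c => (K : Set X))
    (fun K => (hc K K.2).1) (by
      rw [← sInter_eq_iInter]
      ext x
      simp only [mem_inter_iff, mem_setOf_eq, mem_empty_iff_false, iff_false, not_and]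
      intro h1 h2
      exact hF2 x h2 (by rw [← hG2 h2]; exact h1)) (by
      intro A B
      rcases hch.total A.2 B.2 with h | h
      · exact ⟨A, subset_rfl, h⟩
      · exact ⟨B, h, subset_rfl⟩)
  refine (hc K K.2).2.2 ⟨G, hG1.continuousOn, ?_, ?_⟩
  · intro x hx h0
    have : x ∈ ({x | G x = 0} ∩ (K : Set X) : Set X) := ⟨h0, hx⟩
    rw [hK] at this
    exact this
  · intro x hx
    rw [hG2 (mem_sInter.2 fun K' hK' => (hc K' hK').2.1 hx)]
    exact hF3 hx

end KMN

open Classical in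
theorem t_KMN : S_KMN := by
  intro X _ _ L K f hL hK hLK hf hf0 hE
  obtain ⟨K', hK'K, hmin⟩ := zorn_superset_nonempty
    {K' : Set X | IsClosed K' ∧ L ⊆ K' ∧ ¬ ExtC L K' f} (fun c hc hch hne =>
      ⟨⋂₀ c, ⟨isClosed_sInter fun A hA => (hc hA).1,
        subset_sInter fun A hA => (hc hA).2.1, KMN.chain_inf c (fun A hA => hc hA) hch hne⟩,
        fun A hA => sInter_subset_of_mem hA⟩) K ⟨hK, hLK, hE⟩
  obtain ⟨h1, h2, h3⟩ := hmin.prop
  refine ⟨K', Subtype.val ⁻¹' L, fun y => f y, h1, hL.preimage continuous_subtype_val, ?_,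
    fun y hy => hf0 _ hy, ?_, ?_⟩
  · exact hf.comp continuous_subtype_val.continuousOn fun y hy => hy
  · rintro ⟨F, hF1, hF2, hF3⟩
    refine h3 ⟨fun y => if h : y ∈ K' then F ⟨y, h⟩ else 0, ?_, ?_, ?_⟩
    · rw [continuousOn_iff_continuous_domRestrict]
      refine (continuousOn_univ.1 hF1).congr fun y => ?_
      have hy : (y : X) ∈ K' := y.2
      change F y = if h : (y : X) ∈ K' then F ⟨y, h⟩ else 0
      rw [dif_pos hy]
    · intro y hy
      simp only [dif_pos hy]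
      exact hF2 _ (mem_univ _)
    · intro y hy
      simp only [dif_pos (h2 hy)]
      exact hF3 (show (⟨y, h2 hy⟩ : K') ∈ Subtype.val ⁻¹' L from hy)
  · intro W hW hne hdis
    obtain ⟨x, hxW⟩ := hne
    have hx : (x : X) ∉ L := fun h => Set.disjoint_left.1 hdis hxW h
    obtain ⟨O, hO, rfl⟩ := isOpen_induced_iff.1 hW
    have hLO : ∀ y ∈ L, y ∉ O := by
      intro y hy hyO
      exact Set.disjoint_left.1 hdis (show (⟨y, h2 hy⟩ : K') ∈ Subtype.val ⁻¹' O from hyO) hy
    have hext : ExtC L (K' \ O) f := by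
      by_contra hcon
      have hmem : K' \ O ∈ {K' : Set X | IsClosed K' ∧ L ⊆ K' ∧ ¬ ExtC L K' f} :=
        ⟨h1.sdiff hO, fun y hy => ⟨h2 hy, hLO y hy⟩, hcon⟩
      have h4 := hmin.le_of_le hmem sdiff_subset
      exact (h4 x.2).2 hxW
    obtain ⟨F, hF1, hF2, hF3⟩ := hext
    have hmaps : ∀ y ∈ ((Subtype.val ⁻¹' O)ᶜ : Set K'), (y : X) ∈ K' \ O := by
      intro y hy
      exact ⟨y.2, hy⟩
    refine ⟨fun y => F y, hF1.comp continuous_subtype_val.continuousOn hmaps,
      fun y hy => hF2 _ (hmaps y hy), fun y hy => hF3 hy⟩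

end BBP
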