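import Pool.Agent.BBP.StmtsA

/-!
# BBP, module NEX: dimension at least 2 gives a map to `ℂ \ 0` that cannot be extended
-/

set_option autoImplicit false

namespace BBP

open Set Topology CTO

theorem t_NEX : M_NEX := by
  intro h0 hC hE X _ _ h3 h1
  by_contra hne
  have hall : ∀ (L K : Set X) (f : X → ℂ), IsClosed L → IsClosed K → L ⊆ K → ContinuousOn f L →
      (∀ y ∈ L, f y ≠ 0) → ExtC L K f := by
    intro L K f a1 a2 a3 a4 a5
    by_contra h
    exact hne ⟨L, K, f, a1, a2, a3, a4, a5, h⟩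
  have h2 : ShrLE X 2 := by
    by_contra h2
    obtain ⟨L, K, f, a1, a2, a3, a4, a5, h⟩ := h0 X h3 h2
    exact h (hE X hall L K f a1 a2 a3 a4 a5)
  obtain ⟨L, K, f, a1, a2, a3, a4, a5, h⟩ := hC X h2 h1
  exact h (hall L K f a1 a2 a3 a4 a5)

end BBP
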