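import Pool.Agent.BBP.StmtsA

/-!
# Products of two 1-dimensional spaces are 2-dimensional, in a 3-dimensional space
-/

set_option autoImplicit false

namespace BBP

open Set Topology CTO

namespace NPR

/-- a positive lower bound of the norm on a compact set -/
theorem lower {P : Type} [TopologicalSpace P] {L : Set P} (hL : IsCompact L) {f : P → R3}
    (hf : ContinuousOn f L) (h0 : ∀ y ∈ L, f y ≠ 0) : ∃ ε > 0, ∀ y ∈ L, ε ≤ ‖f y‖ := by
  rcases L.eq_empty_or_nonempty with rfl | hne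
  · exact ⟨1, zero_lt_one, fun y hy => absurd hy (Set.notMem_empty y)⟩
  · obtain ⟨x, hx, hm⟩ := hL.exists_isMinOn hne hf.norm
    exact ⟨‖f x‖, norm_pos_iff.2 (h0 x hx), fun y hy => hm hy⟩

/-- Tietze extension -/
theorem tietze {P : Type} [MetricSpace P] {L : Set P} (hL : IsClosed L) {f : P → R3}
    (hf : ContinuousOn f L) : ∃ g : P → R3, Continuous g ∧ EqOn g f L := by
  obtain ⟨g, hg⟩ := ContinuousMap.exists_restrict_eq hL
    (⟨fun x => f x, continuousOn_iff_continuous_domRestrict.1 hf⟩ : C(L, R3))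
  refine ⟨g, g.continuous, fun x hx => ?_⟩
  have := congrArg (fun u : C(L, R3) => u ⟨x, hx⟩) hg
  exact this

end NPR

theorem t_NPR : M_NPR := by
  intro hO hH hX K Z _ _ _ _ h3 hK hZ
  by_contra h2
  obtain ⟨L, K', f, hL, _, _, hf, h0, hE⟩ := hO (K × Z) h3 h2
  obtain ⟨ε, hε, hlow⟩ := NPR.lower hL.isCompact hf h0
  obtain ⟨g, hg, hgf⟩ := NPR.tietze hL hf
  obtain ⟨p, hp, hp0, hpd⟩ := hX K Z hK hZ g hg ε hε
  obtain ⟨F, hF, hF0, hFf⟩ := hH (K × Z) L f p p hL hf hp.continuousOn (by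
    intro x hx t ht0 ht1 hz
    have h1 : f x = -(t • (p x - f x)) := by
      have h4 : (1 - t) • f x + t • p x = f x + t • (p x - f x) := by
        rw [sub_smul, one_smul, smul_sub]
        abel
      rw [h4] at hz
      exact eq_neg_of_add_eq_zero_left hz
    have h5 : ‖f x‖ ≤ ‖p x - f x‖ := by
      calc ‖f x‖ = ‖t • (p x - f x)‖ := by rw [h1, norm_neg]; rw [← h1]
        _ = |t| * ‖p x - f x‖ := norm_smul t _
        _ ≤ 1 * ‖p x - f x‖ := by
          apply mul_le_mul_of_nonneg_right _ (norm_nonneg _)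
          rw [abs_of_nonneg ht0]
          exact ht1
        _ = ‖p x - f x‖ := one_mul _
    have h6 := hpd x
    rw [hgf hx, dist_eq_norm] at h6
    have h7 := hlow x hx
    linarith) hp hp0 (fun _ _ => rfl)
  exact hE ⟨F, hF.continuousOn, fun x _ => hF0 x, hFf⟩

end BBP
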