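import Pool.Agent.BBP.StmtsA

/-!
# MP_6eac38_gt: dimension 2 gives a map to the punctured plane that cannot be extended
-/

set_option autoImplicit false

namespace BBP

open Set Topology CTO

namespace OBC

/-- the inductive step on the part of the space where at most three functions are nonzero -/
theorem core {X : Type} [TopologicalSpace X] (g : Fin 3 → X → ℝ) (hg : ∀ j, Continuous (g j))
    (h0 : ∀ j x, 0 ≤ g j x) (K : Set X) (hK : IsClosed K) (hs : ∀ x ∈ K, ∑ j, g j x = 1)
    (hE : ∀ (L : Set X) (f : X → ℂ), IsClosed L → L ⊆ K → ContinuousOn f L →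
      (∀ y ∈ L, f y ≠ 0) → ExtC L K f) :
    ∃ ψ : Fin 3 → X → ℝ, (∀ j, ContinuousOn (ψ j) K) ∧ (∀ x ∈ K, ∑ j, ψ j x = 1) ∧
      (∀ x ∈ K, ∃ j, ψ j x = 0) ∧ (∀ x ∈ K, (∃ j, g j x = 0) → ∀ j, ψ j x = g j x) := by
  classical
  set L : Set X := K ∩ ⋃ j, {x | g j x = 0} with hL
  have hLc : IsClosed L := by
    refine hK.inter (isClosed_iUnion_of_finite fun j => ?_)
    exact isClosed_eq (hg j) continuous_const
  set f : X → ℂ := fun x => ((g 0 x - 1/3 : ℝ) : ℂ) + ((g 1 x - 1/3 : ℝ) : ℂ) * Complex.I with hf
  have hfc : Continuous f := by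
    refine (Complex.continuous_ofReal.comp ((hg 0).sub continuous_const)).add
      ((Complex.continuous_ofReal.comp ((hg 1).sub continuous_const)).mul continuous_const)
  have hf0 : ∀ x, (f x).re = g 0 x - 1/3 := fun x => by simp [hf]
  have hf1 : ∀ x, (f x).im = g 1 x - 1/3 := fun x => by simp [hf]
  have hfne : ∀ y ∈ L, f y ≠ 0 := by
    rintro y ⟨hyK, hy⟩ h
    have e0 : g 0 y - 1/3 = 0 := by rw [← hf0, h]; rfl
    have e1 : g 1 y - 1/3 = 0 := by rw [← hf1, h]; rfl
    have e := hs y hyK
    rw [Fin.sum_univ_three] at e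
    simp only [mem_iUnion, mem_ofPred_eq] at hy
    obtain ⟨j, hj⟩ := hy
    fin_cases j
    · simp at hj; linarith
    · simp at hj; linarith
    · simp at hj; linarith
  obtain ⟨F, hFc, hFne, hFe⟩ := hE L f hLc inter_subset_left hfc.continuousOn hfne
  have hc0 : ContinuousOn (fun x => (F x).re) K := Complex.continuous_re.comp_continuousOn hFc
  have hc1 : ContinuousOn (fun x => (F x).im) K := Complex.continuous_im.comp_continuousOn hFc
  set G : Fin 3 → X → ℝ := fun j x => ![(F x).re, (F x).im, -(F x).re - (F x).im] j with hG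
  have G0 : ∀ x, G 0 x = (F x).re := fun x => by simp [hG]
  have G1 : ∀ x, G 1 x = (F x).im := fun x => by simp [hG]
  have G2 : ∀ x, G 2 x = -(F x).re - (F x).im := fun x => by simp [hG]
  have hGc : ∀ j, ContinuousOn (G j) K := by
    intro j
    fin_cases j
    · exact hc0
    · exact hc1
    · exact (hc0.neg).sub hc1
  have hGs : ∀ x, ∑ j, G j x = 0 := by
    intro x
    rw [Fin.sum_univ_three, G0, G1, G2]; ring
  set M : X → ℝ := fun x => max (max (-G 0 x) (-G 1 x)) (-G 2 x) with hM
  have hMc : ContinuousOn M K :=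
    ContinuousOn.sup (ContinuousOn.sup (hGc 0).neg (hGc 1).neg) (hGc 2).neg
  have hMle : ∀ x j, -G j x ≤ M x := by
    intro x j
    fin_cases j
    · exact (le_max_left _ _).trans (le_max_left _ _)
    · exact (le_max_right _ _).trans (le_max_left _ _)
    · exact le_max_right _ _
  have hMex : ∀ x, ∃ j, -G j x = M x := by
    intro x
    rcases max_choice (max (-G 0 x) (-G 1 x)) (-G 2 x) with h | h
    · rcases max_choice (-G 0 x) (-G 1 x) with h' | h'
      · exact ⟨0, by rw [hM]; simp only; rw [h, h']⟩
      · exact ⟨1, by rw [hM]; simp only; rw [h, h']⟩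
    · exact ⟨2, by rw [hM]; simp only; rw [h]⟩
  have hMpos : ∀ x ∈ K, 0 < M x := by
    intro x hx
    by_contra hc
    push Not at hc
    have hn : ∀ j, 0 ≤ G j x := fun j => by
      have := hMle x j
      linarith
    have hz : ∀ j, G j x = 0 := fun j =>
      (Finset.sum_eq_zero_iff_of_nonneg (fun j _ => hn j)).1 (hGs x) j (Finset.mem_univ j)
    apply hFne x hx
    apply Complex.ext
    · have := hz 0; rw [G0] at this; simpa using this
    · have := hz 1; rw [G1] at this; simpa using this
  refine ⟨fun j x => 1/3 + G j x / (3 * M x), ?_, ?_, ?_, ?_⟩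
  · intro j
    refine continuousOn_const.add ((hGc j).div (continuousOn_const.mul hMc) ?_)
    intro x hx
    have := hMpos x hx
    positivity
  · intro x hx
    have e1 : ∑ j, G j x / (3 * M x) = 0 := by rw [← Finset.sum_div, hGs x, zero_div]
    rw [Finset.sum_add_distrib, e1]
    norm_num
  · intro x hx
    obtain ⟨j, hj⟩ := hMex x
    refine ⟨j, ?_⟩
    have hp := hMpos x hx
    have hG' : G j x = -M x := by linarith
    simp only [hG']
    field_simp
    norm_num
  · intro x hx hex
    have hxL : x ∈ L := ⟨hx, by simpa using hex⟩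
    have hFx : F x = f x := hFe hxL
    have hsx := hs x hx
    rw [Fin.sum_univ_three] at hsx
    have hGx : ∀ j, G j x = g j x - 1/3 := by
      intro j
      fin_cases j
      · change G 0 x = g 0 x - 1/3
        rw [G0, hFx, hf0]
      · change G 1 x = g 1 x - 1/3
        rw [G1, hFx, hf1]
      · change G 2 x = g 2 x - 1/3
        rw [G2, hFx, hf0, hf1]; linarith
    have hMx : M x = 1/3 := by
      apply le_antisymm
      · obtain ⟨j, hj⟩ := hMex x
        rw [← hj, hGx j]
        have := h0 j x
        linarith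
      · obtain ⟨j, hj⟩ := hex
        have := hMle x j
        rw [hGx j, hj] at this
        linarith
    intro j
    simp only [hGx j, hMx]
    norm_num

/-- the same for a set of three indices -/
theorem core' {X : Type} [TopologicalSpace X] {k : ℕ} (p : Fin k → X → ℝ)
    (hp : ∀ i, Continuous (p i)) (h0 : ∀ i x, 0 ≤ p i x) (h1 : ∀ x, ∑ i, p i x = 1)
    (hE : ∀ (L K : Set X) (f : X → ℂ), IsClosed L → IsClosed K → L ⊆ K → ContinuousOn f L →
      (∀ y ∈ L, f y ≠ 0) → ExtC L K f) (s : Finset (Fin k)) (hs4 : s.card = 3) :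
    ∃ ψ : Fin k → X → ℝ, (∀ i, ContinuousOn (ψ i) {x | ∀ i ∉ s, p i x = 0}) ∧
      (∀ x, (∀ i ∉ s, p i x = 0) → ∑ i, ψ i x = 1) ∧
      (∀ i ∉ s, ∀ x, ψ i x = 0) ∧
      (∀ x, (∀ i ∉ s, p i x = 0) → ∃ i ∈ s, ψ i x = 0) ∧
      (∀ x, (∀ i ∉ s, p i x = 0) → (∃ i ∈ s, p i x = 0) → ∀ i, ψ i x = p i x) := by
  classical
  set K : Set X := {x | ∀ i ∉ s, p i x = 0} with hK
  have hKc : IsClosed K := by
    have : K = ⋂ i, ⋂ (_ : i ∉ s), {x | p i x = 0} := by
      ext x; simp [hK]
    rw [this]
    exact isClosed_iInter fun i => isClosed_iInter fun _ => isClosed_eq (hp i) continuous_const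
  let e : Fin 3 ≃ s := (s.orderIsoOfFin hs4).toEquiv
  have hsum : ∀ (q : Fin k → ℝ), (∀ i ∉ s, q i = 0) → ∑ i, q i = ∑ j : Fin 3, q (e j) := by
    intro q hq
    rw [← Finset.sum_subset (Finset.subset_univ s) (fun i _ hi => hq i hi)]
    rw [← Finset.sum_coe_sort s q]
    exact (Equiv.sum_comp e (fun i : s => q i)).symm
  obtain ⟨ψ, hc, hs1, hz, hagree⟩ := core (fun j x => p (e j) x) (fun j => hp _)
    (fun j x => h0 _ x) K hKc (fun x hx => by
      rw [← hsum (fun i => p i x) hx]; exact h1 x)
    (fun L f hL hLK hf hne => hE L K f hL hKc hLK hf hne)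
  refine ⟨fun i x => if h : i ∈ s then ψ (e.symm ⟨i, h⟩) x else 0, ?_, ?_, ?_, ?_, ?_⟩
  · intro i
    by_cases h : i ∈ s
    · simp only [h, dif_pos]
      exact hc _
    · simp only [h, dif_neg, not_false_eq_true]
      exact continuousOn_const
  · intro x hx
    rw [hsum (fun i => if h : i ∈ s then ψ (e.symm ⟨i, h⟩) x else 0)
      (fun i hi => by simp [hi])]
    rw [← hs1 x hx]
    refine Finset.sum_congr rfl fun j _ => ?_
    simp
  · intro i hi x
    simp [hi]
  · intro x hx
    obtain ⟨j, hj⟩ := hz x hx
    exact ⟨e j, (e j).2, by simpa using hj⟩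
  · intro x hx hex i
    obtain ⟨i0, hi0, h00⟩ := hex
    have hag := hagree x hx ⟨e.symm ⟨i0, hi0⟩, by simpa using h00⟩
    by_cases h : i ∈ s
    · simp only [h, dif_pos]
      rw [hag]
      simp
    · simp only [h, dif_neg, not_false_eq_true]
      exact (hx i h).symm

end OBC

open OBC in
theorem t_OBC : S_OBC := by
  classical
  intro X _ _ h3 h2
  by_contra hcon
  apply h2
  have hE : ∀ (L K : Set X) (f : X → ℂ), IsClosed L → IsClosed K → L ⊆ K → ContinuousOn f L →
      (∀ y ∈ L, f y ≠ 0) → ExtC L K f := by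
    intro L K f hL hK hLK hf hne
    by_contra hx
    exact hcon ⟨L, K, f, hL, hK, hLK, hf, hne, hx⟩
  intro k U hU hUc
  obtain ⟨V, hVo, hVU, hVc, hV4⟩ := h3 k U hU hUc
  obtain ⟨P, hP⟩ := PartitionOfUnity.exists_isSubordinate (isClosed_univ (X := X)) V hVo
    (by rw [hVc])
  set p : Fin k → X → ℝ := fun i x => P i x with hp
  have hpc : ∀ i, Continuous (p i) := fun i => (P i).continuous
  have hp0 : ∀ i x, 0 ≤ p i x := fun i x => P.nonneg i x
  have hp1 : ∀ x, ∑ i, p i x = 1 := by
    intro x
    rw [← finsum_eq_sum_of_fintype]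
    exact P.sum_eq_one (mem_univ x)
  have hpV : ∀ i x, p i x ≠ 0 → x ∈ V i := fun i x h => hP i (subset_closure h)
  choose! ψ hψc hψ1 hψs hψz hψa using fun (s : Finset (Fin k)) (hs : s.card = 3) =>
    core' p hpc hp0 hp1 hE s hs
  let supp : X → Finset (Fin k) := fun x => Finset.univ.filter fun i => p i x ≠ 0
  have hsupp : ∀ x i, i ∈ supp x ↔ p i x ≠ 0 := fun x i => by simp [supp]
  have hcard : ∀ x, (supp x).card ≤ 3 := by
    intro x
    have h1 : ((supp x : Finset (Fin k)) : Set (Fin k)) ⊆ {i | x ∈ V i} := by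
      intro i hi
      exact hpV i x ((hsupp x i).1 (by simpa using hi))
    have h2 := Set.ncard_le_ncard h1 (Set.toFinite _)
    rw [Set.ncard_coe_finset] at h2
    exact h2.trans (hV4 x)
  let q : Fin k → X → ℝ := fun i x => if (supp x).card = 3 then ψ (supp x) i x else p i x
  have hq4 : ∀ x i, (supp x).card = 3 → q i x = ψ (supp x) i x := fun x i h => by
    simp only [q, h, if_true]
  have hq3 : ∀ x i, (supp x).card ≠ 3 → q i x = p i x := fun x i h => by
    simp only [q, h, if_false]
  have hmem : ∀ x, ∀ i ∉ supp x, p i x = 0 := fun x i hi => by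
    by_contra h
    exact hi ((hsupp x i).2 h)
  -- continuity
  have hqc : ∀ i, Continuous (q i) := by
    intro i
    let F : Finset (Fin k) → Set X := fun s => if s.card ≤ 3 then {x | ∀ i ∉ s, p i x = 0} else ∅
    have hF : ∀ s : Finset (Fin k), s.card ≤ 3 → F s = {x | ∀ i ∉ s, p i x = 0} := fun s h => by
      simp only [F, h, if_true]
    have hF' : ∀ s : Finset (Fin k), ¬ s.card ≤ 3 → F s = ∅ := fun s h => by
      simp only [F, h, if_false]
    refine (locallyFinite_of_finite F).continuous ?_ ?_ ?_
    · refine eq_univ_of_forall fun x => mem_iUnion.2 ⟨supp x, ?_⟩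
      rw [hF _ (hcard x)]
      exact hmem x
    · intro s
      by_cases h : s.card ≤ 3
      · rw [hF s h]
        have : {x | ∀ i ∉ s, p i x = 0} = ⋂ i, ⋂ (_ : i ∉ s), {x | p i x = 0} := by
          ext x; simp
        rw [this]
        exact isClosed_iInter fun i => isClosed_iInter fun _ =>
          isClosed_eq (hpc i) continuous_const
      · rw [hF' s h]
        exact isClosed_empty
    · intro s
      by_cases h : s.card ≤ 3
      · rw [hF s h]
        by_cases h4 : s.card = 3
        · refine (hψc s h4 i).congr ?_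
          intro x hx
          have hsub : supp x ⊆ s := by
            intro j hj
            by_contra hjs
            exact ((hsupp x j).1 hj) (hx j hjs)
          by_cases hc : (supp x).card = 3
          · have : supp x = s := Finset.eq_of_subset_of_card_le hsub (by omega)
            rw [hq4 x i hc, this]
          · rw [hq3 x i hc]
            have : ∃ j ∈ s, p j x = 0 := by
              by_contra hne
              push Not at hne
              apply hc
              have : supp x = s := Finset.Subset.antisymm hsub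
                (fun j hj => (hsupp x j).2 (hne j hj))
              rw [this, h4]
            exact (hψa s h4 x hx this i).symm
        · refine (hpc i).continuousOn.congr ?_
          intro x hx
          have hsub : supp x ⊆ s := by
            intro j hj
            by_contra hjs
            exact ((hsupp x j).1 hj) (hx j hjs)
          have hc : (supp x).card ≠ 3 := by
            have := Finset.card_le_card hsub
            omega
          exact hq3 x i hc
      · rw [hF' s h]
        exact continuousOn_empty _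
  have hq1 : ∀ x, ∑ i, q i x = 1 := by
    intro x
    by_cases hc : (supp x).card = 3
    · rw [Finset.sum_congr rfl fun i _ => hq4 x i hc]
      exact hψ1 _ hc x (hmem x)
    · rw [Finset.sum_congr rfl fun i _ => hq3 x i hc]
      exact hp1 x
  have hqs : ∀ x i, q i x ≠ 0 → p i x ≠ 0 := by
    intro x i h
    by_cases hc : (supp x).card = 3
    · rw [hq4 x i hc] at h
      by_contra hp
      exact h (hψs _ hc i (fun hh => ((hsupp x i).1 hh) hp) x)
    · rwa [hq3 x i hc] at h
  refine ⟨fun i => {x | q i x ≠ 0}, ?_, ?_, ?_, ?_⟩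
  · intro i
    exact isOpen_ne_fun (hqc i) continuous_const
  · intro i x hx
    exact hVU i (hpV i x (hqs x i hx))
  · refine eq_univ_of_forall fun x => ?_
    by_contra hx
    simp only [mem_iUnion, mem_ofPred_eq, not_exists, not_not] at hx
    have := hq1 x
    rw [Finset.sum_eq_zero fun i _ => hx i] at this
    exact zero_ne_one this
  · intro x
    have hsub : {i | x ∈ {x | q i x ≠ 0}} ⊆ ((supp x : Finset (Fin k)) : Set (Fin k)) := by
      intro i hi
      simp only [mem_ofPred_eq] at hi
      simpa using (hsupp x i).2 (hqs x i hi)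
    by_cases hc : (supp x).card = 3
    · obtain ⟨j, hj, hj0⟩ := hψz _ hc x (hmem x)
      have hsub2 : {i | x ∈ {x | q i x ≠ 0}} ⊆
          (((supp x).erase j : Finset (Fin k)) : Set (Fin k)) := by
        intro i hi
        have h1 := hsub hi
        simp only [Finset.coe_erase, mem_sdiff, mem_singleton_iff]
        refine ⟨h1, ?_⟩
        rintro rfl
        simp only [mem_ofPred_eq] at hi
        exact hi (by rw [hq4 x i hc]; exact hj0)
      have := Set.ncard_le_ncard hsub2 (Set.toFinite _)
      rw [Set.ncard_coe_finset, Finset.card_erase_of_mem hj, hc] at this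
      exact this
    · have h5 := Set.ncard_le_ncard hsub (Set.toFinite _)
      rw [Set.ncard_coe_finset] at h5
      have h6 := hcard x
      have h7 : (supp x).card ≤ 1 + 1 := by omega
      exact h5.trans h7

end BBP
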