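import Pool.Agent.BBP.StmtsA

/-!
# BBP, OL: the image of a compact space with an essential relative 3-cochain is a neighbourhood of the
obstruction point
-/

set_option autoImplicit false

namespace BBP

open Set Topology CTO

theorem t_OL : M_OL := by
  intro hEFF hROB X P _ _ _ _ hA hH hS e D u p0 he hi hE
  obtain ⟨ε, hε, h1⟩ := hROB X P hA hS e D u p0 he hi hE
  have h2 := hEFF X hH (e p0) ε hε
  refine interior_mono ?_ h2
  refine closure_minimal ?_ (isCompact_range he).isClosed
  rintro y ⟨h, hd, rfl⟩
  obtain ⟨x, hx, hx2⟩ := h1 h.symm h.symm.continuous (by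
    intro x
    have h3 := hd (h.symm x)
    rw [h.apply_symm_apply, dist_comm] at h3
    exact h3)
  rw [← hx2, h.apply_symm_apply]
  exact hx

end BBP
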