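import Pool.Agent.BBP.StmtsA

/-!
# BBP, module OPA: minimal membranes are open
-/

set_option autoImplicit false

namespace BBP

open Set Topology CTO

namespace OPA

theorem alt3_vv {K Z : Type} (L : Set K) (f : K → ℂ) (χ : Z → ℤ) (h : Alt2 (cc L f)) :
    Alt3 (vv L f χ) := by
  intro p q r
  constructor
  · have h1 : d1 (cc L f) q.1 p.1 r.1 = -d1 (cc L f) p.1 q.1 r.1 := by
      simp only [d1]
      rw [h p.1 q.1]
      ring
    have h2 : max (χ q.2) (max (χ p.2) (χ r.2)) = max (χ p.2) (max (χ q.2) (χ r.2)) :=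
      max_left_comm _ _ _
    simp only [vv]
    rw [h1, h2, neg_mul]
  · have h1 : d1 (cc L f) p.1 r.1 q.1 = -d1 (cc L f) p.1 q.1 r.1 := by
      simp only [d1]
      rw [h q.1 r.1]
      ring
    have h2 : max (χ p.2) (max (χ r.2) (χ q.2)) = max (χ p.2) (max (χ q.2) (χ r.2)) := by
      rw [max_comm (χ r.2) (χ q.2)]
    simp only [vv]
    rw [h1, h2, neg_mul]

theorem alt4_d2 {X : Type} (ψ : X → X → X → ℤ) (h : Alt3 ψ) : Alt4 (d2 ψ) := by
  intro a b c d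
  refine ⟨?_, ?_, ?_⟩
  · simp only [d2]
    rw [(h a b d).1, (h a b c).1]
    ring
  · simp only [d2]
    rw [(h b c d).1, (h a b c).2]
    ring
  · simp only [d2]
    rw [(h b c d).2, (h a c d).2]
    ring

end OPA

theorem t_OPA : M_OPA := by
  intro hOL hCOC hVZE hVNZ hVLO X K Z _ _ _ _ _ _ hANR hHom hShr e L f a b he hinj hK hZ
  have hρ : 0 < dist a b / 2 := half_pos (dist_pos.2 hZ.ne)
  have hρ2 : 2 * (dist a b / 2) ≤ dist a b := by linarith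
  have hAlt2 : Alt2 (cc L f) := (hCOC K L f hK.cl hK.cont hK.ne).1
  have hcl : IsClosed (bdP L a b) := by
    unfold bdP
    exact (hK.cl.prod isClosed_univ).union
      (isClosed_univ.prod ((Set.finite_singleton b).insert a).isClosed)
  have hU : IsOpen (Lᶜ ×ˢ ({a, b} : Set Z)ᶜ) :=
    hK.cl.isOpen_compl.prod ((Set.finite_singleton b).insert a).isClosed.isOpen_compl
  have hint : ∀ p0 ∈ Lᶜ ×ˢ ({a, b} : Set Z)ᶜ, e p0 ∈ interior (range e) := by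
    intro p0 hp0
    refine hOL X (K × Z) hANR hHom hShr e (bdP L a b) (d2 (vv L f (chi b (dist a b / 2)))) p0
      he hinj ?_
    refine ⟨hcl, ?_, OPA.alt4_d2 _ (OPA.alt3_vv _ _ _ hAlt2), d3_d2 _, ?_, ?_, ?_⟩
    · rintro (h | h)
      · exact hp0.1 h.1
      · exact hp0.2 h.2
    · exact hVZE K Z L f a b _ hK.cl hK.cont hK.ne hρ hρ2
    · intro W hW hpW
      obtain ⟨W1, O1, hW1, hO1, hx, hz, hsub⟩ :=
        isOpen_prod_iff.1 (hW.inter hU) p0.1 p0.2 ⟨hpW, hp0⟩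
      have hW1L : Disjoint W1 L := by
        rw [Set.disjoint_left]
        intro y hy hyL
        exact (hsub (Set.mk_mem_prod hy hz)).2.1 hyL
      have hO1ab : ∀ y ∈ O1, y ∉ ({a, b} : Set Z) := by
        intro y hy
        exact (hsub (Set.mk_mem_prod hx hy)).2.2
      have haO : a ∉ O1 := fun h => hO1ab a h (by simp)
      have hbO : b ∉ O1 := fun h => hO1ab b h (by simp)
      obtain ⟨ψ, hψ, ε, hε, h1, h2⟩ := hVLO K Z L f a b _ hK.cl hK.cont hK.ne hρ hρ2 W1 O1 hW1 hO1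
        hW1L haO hbO (hK.min W1 hW1 ⟨_, hx⟩ hW1L) (hZ.min O1 hO1 ⟨_, hz⟩ haO hbO)
      have hW' : ∀ p, p ∉ W → p ∉ W1 ×ˢ O1 := fun p hp h => hp (hsub h).1
      exact ⟨ψ, hψ, ε, hε, fun p hp q hq r hr s hs hsm =>
        h1 p (hW' p hp) q (hW' q hq) r (hW' r hr) s (hW' s hs) hsm, h2⟩
    · exact hVNZ K Z L f a b _ hK.cl hK.cont hK.ne hK.ess hZ.ess hρ hρ2
  have hcle : IsClosedMap e := he.isClosedMap
  have hO : IsOpen (e '' (Lᶜ ×ˢ ({a, b} : Set Z)ᶜ)ᶜ)ᶜ := (hcle _ hU.isClosed_compl).isOpen_compl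
  rw [isOpen_iff_mem_nhds]
  rintro _ ⟨p0, hp0, rfl⟩
  have h1 : interior (range e) ∩ (e '' (Lᶜ ×ˢ ({a, b} : Set Z)ᶜ)ᶜ)ᶜ ∈ 𝓝 (e p0) := by
    refine (isOpen_interior.inter hO).mem_nhds ⟨hint p0 hp0, ?_⟩
    rintro ⟨q, hq, hqe⟩
    exact hq (hinj hqe ▸ hp0)
  refine Filter.mem_of_superset h1 ?_
  rintro y ⟨hy1, hy2⟩
  obtain ⟨q, rfl⟩ := interior_subset hy1
  refine ⟨q, ?_, rfl⟩
  by_contra hq
  exact hy2 ⟨q, hq, rfl⟩

end BBP
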