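import Pool.Agent.BBP.StmtsA

/-!
MP_6eac38_gt, module PEX: maps of products of two 1-dimensional spaces into 3-space can be
approximated by maps without zeros.
-/

set_option autoImplicit false

namespace BBP

open Set Topology CTO

namespace PEX

theorem pou (K : Type) [MetricSpace K] [CompactSpace K] (hK : ShrLE K 1) (δ : ℝ) (hδ : 0 < δ) :
    ∃ (k : ℕ) (c : Fin k → K) (φ : Fin k → K → ℝ), (∀ i, Continuous (φ i)) ∧
      (∀ i x, 0 ≤ φ i x) ∧ (∀ x, ∑ i, φ i x = 1) ∧ (∀ i x, φ i x ≠ 0 → dist x (c i) < δ) ∧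
      ∀ x, (Finset.univ.filter fun i => φ i x ≠ 0).card ≤ 2 := by
  classical
  obtain ⟨t, ht⟩ := isCompact_univ.elim_finite_subcover
    (fun x : K => Metric.ball x δ) (fun x => Metric.isOpen_ball) (fun x _ => by
      rw [mem_iUnion]
      exact ⟨x, Metric.mem_ball_self hδ⟩)
  let c : Fin t.card → K := fun i => (t.equivFin.symm i : K)
  have hcov : (⋃ i, Metric.ball (c i) δ) = univ := by
    rw [eq_univ_iff_forall]
    intro x
    have hx := ht (mem_univ x)
    rw [mem_iUnion₂] at hx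
    obtain ⟨y, hy, hxy⟩ := hx
    rw [mem_iUnion]
    refine ⟨t.equivFin ⟨y, hy⟩, ?_⟩
    have : c (t.equivFin ⟨y, hy⟩) = y := by simp [c]
    rw [this]
    exact hxy
  obtain ⟨V, hVo, hVU, hVc, hVn⟩ := hK t.card (fun i => Metric.ball (c i) δ)
    (fun i => Metric.isOpen_ball) hcov
  obtain ⟨φ, hφ⟩ := PartitionOfUnity.exists_isSubordinate isClosed_univ V hVo hVc.ge
  have hmem : ∀ x i, φ i x ≠ 0 → x ∈ V i := fun x i h => hφ i (subset_tsupport _ h)
  refine ⟨t.card, c, fun i x => φ i x, fun i => (φ i).continuous, fun i x => φ.nonneg i x, ?_, ?_, ?_⟩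
  · intro x
    have := φ.sum_eq_one (mem_univ x)
    rwa [finsum_eq_sum_of_fintype] at this
  · intro i x h
    exact hVU i (hmem x i h)
  · intro x
    refine le_trans ?_ (hVn x)
    rw [← Set.ncard_coe_finset]
    apply Set.ncard_le_ncard _ (Set.toFinite _)
    intro i hi
    have hi' : i ∈ Finset.univ.filter (fun i => φ i x ≠ 0) := hi
    exact hmem x i (Finset.mem_filter.1 hi').2

theorem two {k : ℕ} (a : Fin k → ℝ) (h1 : ∑ i, a i = 1)
    (h2 : (Finset.univ.filter fun i => a i ≠ 0).card ≤ 2) :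
    ∃ (i i' : Fin k) (s : ℝ), ∀ u : Fin k → R3, ∑ l, a l • u l = (1 - s) • u i + s • u i' := by
  classical
  have hs1 : ∑ l ∈ Finset.univ.filter (fun i => a i ≠ 0), a l = 1 := by
    rw [Finset.sum_filter_ne_zero]
    exact h1
  have hs2 : ∀ u : Fin k → R3, ∑ l, a l • u l =
      ∑ l ∈ Finset.univ.filter (fun i => a i ≠ 0), a l • u l := by
    intro u
    symm
    apply Finset.sum_subset (Finset.subset_univ _)
    intro i _ hi
    have : a i = 0 := by
      by_contra h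
      exact hi (Finset.mem_filter.2 ⟨Finset.mem_univ _, h⟩)
    rw [this, zero_smul]
  rcases Nat.lt_or_ge (Finset.univ.filter fun i => a i ≠ 0).card 2 with h | h
  · rcases Nat.lt_or_ge (Finset.univ.filter fun i => a i ≠ 0).card 1 with h' | h'
    · exfalso
      have h0 : (Finset.univ.filter fun i => a i ≠ 0) = ∅ :=
        Finset.card_eq_zero.1 (Nat.lt_one_iff.1 h')
      rw [h0, Finset.sum_empty] at hs1
      exact zero_ne_one hs1
    · obtain ⟨i, hi⟩ := Finset.card_eq_one.1 (le_antisymm (Nat.lt_succ_iff.1 h) h')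
      refine ⟨i, i, 0, fun u => ?_⟩
      rw [hs2, hi, Finset.sum_singleton]
      rw [hi, Finset.sum_singleton] at hs1
      rw [hs1]
      simp
  · obtain ⟨i, i', hne, hi⟩ := Finset.card_eq_two.1 (le_antisymm h2 h)
    refine ⟨i, i', a i', fun u => ?_⟩
    rw [hs2, hi, Finset.sum_pair hne]
    rw [hi, Finset.sum_pair hne] at hs1
    rw [← hs1, add_sub_cancel_right]

/-- the quadratic map -/
noncomputable def qm (v1 v2 v3 v4 : R3) (z : ℝ × ℝ) : R3 :=
  (1 - z.1) • ((1 - z.2) • v1 + z.2 • v2) + z.1 • ((1 - z.2) • v3 + z.2 • v4)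

theorem dimH_qm (v1 v2 v3 v4 : R3) : dimH (range (qm v1 v2 v3 v4)) ≤ 2 := by
  have h : ContDiff ℝ 1 (qm v1 v2 v3 v4) := by
    unfold qm
    fun_prop
  have h1 := h.dimH_range_le
  have h2 : Module.finrank ℝ (ℝ × ℝ) = 2 := by simp
  rw [h2] at h1
  exact_mod_cast h1

theorem avoid {ι : Type} [Finite ι] (g : ι → ℝ × ℝ → R3)
    (hg : ∀ a, dimH (range (g a)) ≤ 2) (ε : ℝ) (hε : 0 < ε) :
    ∃ w : R3, ‖w‖ < ε ∧ ∀ a z, g a z ≠ w := by
  have h1 : dimH (⋃ a, range (g a)) < Module.finrank ℝ R3 := by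
    rw [dimH_iUnion]
    have h2 : Module.finrank ℝ R3 = 3 := by simp
    rw [h2]
    refine lt_of_le_of_lt (iSup_le hg) ?_
    norm_num
  have h3 := dense_compl_of_dimH_lt_finrank h1
  obtain ⟨w, hw1, hw2⟩ := h3.inter_open_nonempty (Metric.ball (0 : R3) ε) Metric.isOpen_ball
    ⟨0, Metric.mem_ball_self hε⟩
  refine ⟨w, by simpa using hw1, fun a z h => hw2 ?_⟩
  rw [mem_iUnion]
  exact ⟨a, z, h⟩

end PEX

open PEX in
theorem t_PEX : S_PEX := by
  intro K Z _ _ _ _ hK hZ f hf ε hε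
  classical
  have hu := CompactSpace.uniformContinuous_of_continuous hf
  rw [Metric.uniformContinuous_iff] at hu
  obtain ⟨δ, hδ, hd⟩ := hu (ε / 2) (half_pos hε)
  obtain ⟨k, c, φ, a1, a2, a3, a4, a5⟩ := pou K hK δ hδ
  obtain ⟨m, d, ψ, b1, b2, b3, b4, b5⟩ := pou Z hZ δ hδ
  obtain ⟨w, hw1, hw2⟩ := avoid
    (fun a : (Fin k × Fin k) × (Fin m × Fin m) => qm (f (c a.1.1, d a.2.1)) (f (c a.1.1, d a.2.2))
      (f (c a.1.2, d a.2.1)) (f (c a.1.2, d a.2.2))) (fun a => dimH_qm _ _ _ _) (ε / 2)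
    (half_pos hε)
  have hq : ∀ x : K × Z, ∑ i, φ i x.1 • ∑ j, ψ j x.2 • f (c i, d j) ≠ w := by
    intro x
    obtain ⟨i, i', s, hs⟩ := two (fun i => φ i x.1) (a3 x.1) (a5 x.1)
    obtain ⟨j, j', t, ht⟩ := two (fun j => ψ j x.2) (b3 x.2) (b5 x.2)
    rw [hs, ht, ht]
    exact hw2 ((i, i'), (j, j')) (s, t)
  have hc : ∀ x : K × Z, dist (∑ i, φ i x.1 • ∑ j, ψ j x.2 • f (c i, d j)) (f x) < ε / 2 := by
    intro x
    have h1 : (∑ i, φ i x.1 • ∑ j, ψ j x.2 • f (c i, d j)) =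
        ∑ y : Fin k × Fin m, (φ y.1 x.1 * ψ y.2 x.2) • f (c y.1, d y.2) := by
      rw [Fintype.sum_prod_type]
      refine Finset.sum_congr rfl fun i _ => ?_
      rw [Finset.smul_sum]
      refine Finset.sum_congr rfl fun j _ => ?_
      rw [smul_smul]
    have h2 : ∑ y : Fin k × Fin m, φ y.1 x.1 * ψ y.2 x.2 = 1 := by
      rw [Fintype.sum_prod_type]
      simp only [← Finset.mul_sum, b3, mul_one, a3]
    have h3 : ∑ y : Fin k × Fin m, (φ y.1 x.1 * ψ y.2 x.2) • f (c y.1, d y.2) =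
        ∑ y ∈ Finset.univ.filter (fun y : Fin k × Fin m => φ y.1 x.1 * ψ y.2 x.2 ≠ 0),
          (φ y.1 x.1 * ψ y.2 x.2) • f (c y.1, d y.2) := by
      symm
      apply Finset.sum_subset (Finset.subset_univ _)
      intro i _ hi
      have : φ i.1 x.1 * ψ i.2 x.2 = 0 := by
        by_contra h
        exact hi (Finset.mem_filter.2 ⟨Finset.mem_univ _, h⟩)
      rw [this, zero_smul]
    have h4 : ∑ y ∈ Finset.univ.filter (fun y : Fin k × Fin m => φ y.1 x.1 * ψ y.2 x.2 ≠ 0),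
        φ y.1 x.1 * ψ y.2 x.2 = 1 := by
      rw [Finset.sum_filter_ne_zero]
      exact h2
    rw [h1, h3]
    refine Metric.mem_ball.1 ((convex_ball (f x) (ε / 2)).sum_mem (fun y _ =>
      mul_nonneg (a2 _ _) (b2 _ _)) h4 ?_)
    intro y hy
    have h5 := (Finset.mem_filter.1 hy).2
    have h6 := a4 y.1 x.1 (left_ne_zero_of_mul h5)
    have h7 := b4 y.2 x.2 (right_ne_zero_of_mul h5)
    rw [Metric.mem_ball]
    apply hd
    rw [dist_comm, Prod.dist_eq]
    exact max_lt h6 h7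
  refine ⟨fun x => (∑ i, φ i x.1 • ∑ j, ψ j x.2 • f (c i, d j)) - w, ?_, fun x => ?_, fun x => ?_⟩
  · refine Continuous.sub ?_ continuous_const
    refine continuous_finsetSum _ fun i _ => ((a1 i).comp continuous_fst).smul ?_
    exact continuous_finsetSum _ fun j _ => ((b1 j).comp continuous_snd).smul continuous_const
  · exact sub_ne_zero.2 (hq x)
  · calc dist ((∑ i, φ i x.1 • ∑ j, ψ j x.2 • f (c i, d j)) - w) (f x)
        ≤ dist ((∑ i, φ i x.1 • ∑ j, ψ j x.2 • f (c i, d j)) - w)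
          (∑ i, φ i x.1 • ∑ j, ψ j x.2 • f (c i, d j)) +
          dist (∑ i, φ i x.1 • ∑ j, ψ j x.2 • f (c i, d j)) (f x) := dist_triangle _ _ _
      _ < ε / 2 + ε / 2 := by
        refine add_lt_add ?_ (hc x)
        rw [dist_eq_norm]
        simpa using hw1
      _ = ε := add_halves ε

end BBP
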