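import Pool.Agent.BBP.StmtsA

/-! Module ROB: the point `e p0` stays in the image under maps near the identity. -/

set_option autoImplicit false

namespace BBP

open Set Topology CTO

namespace ROB

theorem map2 {X P : Type} [MetricSpace X] [MetricSpace P] {ε lam : ℝ} {l : List P} (h : Sm ε l)
    (f g : P → X) (h1 : ∀ x y, dist x y < ε → dist (f x) (f y) < lam)
    (h2 : ∀ x y, dist x y < ε → dist (f x) (g y) < lam)
    (h3 : ∀ x y, dist x y < ε → dist (g x) (g y) < lam) : Sm lam (l.map f ++ l.map g) := by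
  intro x hx y hy
  rw [List.mem_append, List.mem_map, List.mem_map] at hx hy
  rcases hx with ⟨a, ha, rfl⟩ | ⟨a, ha, rfl⟩ <;> rcases hy with ⟨b, hb, rfl⟩ | ⟨b, hb, rfl⟩
  · exact h1 a b (h a ha b hb)
  · exact h2 a b (h a ha b hb)
  · rw [dist_comm]
    exact h2 b a (h b hb a ha)
  · exact h3 a b (h a ha b hb)

theorem map1 {X P : Type} [MetricSpace X] [MetricSpace P] {ε lam : ℝ} {l : List P} (h : Sm ε l)
    (f : P → X) (h1 : ∀ x y, dist x y < ε → dist (f x) (f y) < lam) : Sm lam (l.map f) := by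
  intro x hx y hy
  rw [List.mem_map] at hx hy
  obtain ⟨a, ha, rfl⟩ := hx
  obtain ⟨b, hb, rfl⟩ := hy
  exact h1 a b (h a ha b hb)

theorem unif {X P : Type} [MetricSpace X] [MetricSpace P] [CompactSpace P] (f : P → X)
    (hf : Continuous f) (δ : ℝ) (hδ : 0 < δ) : ∃ ε : ℝ, 0 < ε ∧ ∀ x y, dist x y < ε →
      dist (f x) (f y) < δ := by
  have h1 := CompactSpace.uniformContinuous_of_continuous hf
  obtain ⟨ε, hε, h2⟩ := Metric.uniformContinuous_iff.1 h1 δ hδ
  exact ⟨ε, hε, fun x y h => h2 h⟩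

theorem inv_unif {X P : Type} [MetricSpace X] [MetricSpace P] [CompactSpace P] (e : P → X)
    (he : Continuous e) (hi : Function.Injective e) (ε : ℝ) (hε : 0 < ε) :
    ∃ δ : ℝ, 0 < δ ∧ ∀ x y, dist (e x) (e y) < δ → dist x y < ε := by
  have hK : IsCompact {q : P × P | ε ≤ dist q.1 q.2} := by
    apply IsClosed.isCompact
    exact isClosed_le continuous_const (by fun_prop)
  rcases Set.eq_empty_or_nonempty {q : P × P | ε ≤ dist q.1 q.2} with h0 | h0
  · refine ⟨1, one_pos, fun x y _ => ?_⟩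
    by_contra h
    have : (x, y) ∈ {q : P × P | ε ≤ dist q.1 q.2} := not_lt.1 h
    rw [h0] at this
    exact this
  · obtain ⟨q, hq, hmin⟩ := hK.exists_isMinOn h0
      (f := fun q : P × P => dist (e q.1) (e q.2)) (by fun_prop)
    refine ⟨dist (e q.1) (e q.2), ?_, fun x y h => ?_⟩
    · apply dist_pos.2
      intro h
      have h2 : q.1 = q.2 := hi h
      have h3 : ε ≤ dist q.1 q.2 := hq
      rw [h2, dist_self] at h3
      exact absurd hε (not_lt.2 h3)
    · by_contra hc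
      have h2 : (x, y) ∈ {q : P × P | ε ≤ dist q.1 q.2} := not_lt.1 hc
      exact absurd h (not_lt.2 (hmin h2))

theorem d3_add {X : Type} (φ φ' : X → X → X → X → ℤ) (a b c d e : X) :
    d3 (fun a b c d => φ a b c d + φ' a b c d) a b c d e = d3 φ a b c d e + d3 φ' a b c d e := by
  simp only [d3]
  ring

theorem d2_add {X : Type} (ψ ψ' : X → X → X → ℤ) (a b c d : X) :
    d2 (fun a b c => ψ a b c + ψ' a b c) a b c d = d2 ψ a b c d + d2 ψ' a b c d := by
  simp only [d2]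
  ring

theorem d2_sub {X : Type} (ψ ψ' : X → X → X → ℤ) (a b c d : X) :
    d2 (fun a b c => ψ a b c - ψ' a b c) a b c d = d2 ψ a b c d - d2 ψ' a b c d := by
  simp only [d2]
  ring

theorem alt_d2 {X : Type} (ψ : X → X → X → ℤ) (h : Alt3 ψ) : Alt4 (d2 ψ) := by
  intro a b c d
  simp only [d2]
  refine ⟨?_, ?_, ?_⟩
  · rw [(h a b d).1, (h a b c).1]
    ring
  · rw [(h b c d).1, (h a b c).2]
    ring
  · rw [(h b c d).2, (h a c d).2]
    ring

/-- extension of a cochain that is a cocycle on `N` -/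
theorem extend (hALT : S_ALT) (hSEL : S_SEL) (X : Type) [MetricSpace X] [CompactSpace X]
    (hX : ShrLE X 3) (N : Set X) (Φ : X → X → X → X → ℤ) (hΦ : Alt4 Φ) (δ : ℝ) (hδ : 0 < δ)
    (h0 : ∀ a ∈ N, ∀ b ∈ N, ∀ c ∈ N, ∀ d ∈ N, ∀ e ∈ N, Sm δ [a, b, c, d, e] →
      d3 Φ a b c d e = 0) :
    ∃ (Φ' : X → X → X → X → ℤ) (δ' : ℝ), 0 < δ' ∧
      (∀ a b c d e, Sm δ' [a, b, c, d, e] → d3 Φ' a b c d e = 0) ∧
      ∀ a ∈ N, ∀ b ∈ N, ∀ c ∈ N, ∀ d ∈ N, Sm δ' [a, b, c, d] → Φ' a b c d = Φ a b c d := by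
  obtain ⟨r, lam, hlam, hr1, hr2, hr3⟩ := hSEL X hX N (δ / 4) (by positivity)
  refine ⟨fun a b c d => Φ a b c d + pr4 id r (d3 Φ) a b c d, min lam (δ / 4),
    lt_min hlam (by positivity), ?_, ?_⟩
  · intro a b c d e hs
    have h1 := prism4 id r (d3 Φ) a b c d e
    have h2 := hALT X Φ hΦ (r a) (r b) (r c) (r d) (r e)
      (hr3 a b c d e (hs.mono (fun _ h => h) (min_le_left _ _)))
    have h3 : pr5 id r (d4 (d3 Φ)) a b c d e = 0 := by
      simp only [pr5, d4_d3]
      norm_num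
    rw [d3_add]
    rw [h2, h3] at h1
    simp only [id] at h1
    linarith
  · intro a ha b hb c hc d hd hs
    have h1 : Sm δ ([a, b, c, d].map id ++ [a, b, c, d].map r) := by
      have hs' : Sm (δ / 4) [a, b, c, d] := hs.mono (fun _ h => h) (min_le_right _ _)
      refine map2 hs' id r ?_ ?_ ?_
      · intro x y h
        simp only [id]
        linarith
      · intro x y h
        simp only [id]
        have h2 := dist_triangle x y (r y)
        have h3 := hr1 y
        rw [dist_comm] at h3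
        linarith
      · intro x y h
        have h2 := dist_triangle4 (r x) x y (r y)
        have h3 := hr1 y
        rw [dist_comm] at h3
        have h4 := hr1 x
        linarith
    have h2 : pr4 id r (d3 Φ) a b c d = 0 := by
      simp only [pr4, id]
      rw [h0 a ha (r a) (hr2 a ha) (r b) (hr2 b hb) (r c) (hr2 c hc) (r d) (hr2 d hd)
          (h1.mono (by simp) le_rfl),
        h0 a ha b hb (r b) (hr2 b hb) (r c) (hr2 c hc) (r d) (hr2 d hd)
          (h1.mono (by simp) le_rfl),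
        h0 a ha b hb c hc (r c) (hr2 c hc) (r d) (hr2 d hd)
          (h1.mono (by simp) le_rfl),
        h0 a ha b hb c hc d hd (r d) (hr2 d hd)
          (h1.mono (by simp) le_rfl)]
      norm_num
    simp only [h2, add_zero]

/-- homotopy -/
theorem homot {X P : Type} [MetricSpace X] [MetricSpace P] [CompactSpace P]
    (Φ' : X → X → X → X → ℤ) (δ : ℝ) (hδ : 0 < δ)
    (h0 : ∀ a b c d e, Sm δ [a, b, c, d, e] → d3 Φ' a b c d e = 0) (F : P × ℝ → X)
    (hF : ContinuousOn F (univ ×ˢ Icc 0 1)) (D : Set P)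
    (hD : ∀ a ∈ D, ∀ b ∈ D, ∀ c ∈ D, ∀ d ∈ D, ∀ s ∈ Icc (0 : ℝ) 1, ∀ s' ∈ Icc (0 : ℝ) 1,
      ∀ t ∈ Icc (0 : ℝ) 1, ∀ t' ∈ Icc (0 : ℝ) 1, Sm δ [F (a, s), F (b, s'), F (c, t), F (d, t')] →
        Φ' (F (a, s)) (F (b, s')) (F (c, t)) (F (d, t')) = 0) :
    ∃ (κ : P → P → P → ℤ) (ε : ℝ), 0 < ε ∧
      (∀ a b c d, Sm ε [a, b, c, d] → Φ' (F (a, 1)) (F (b, 1)) (F (c, 1)) (F (d, 1)) -
        Φ' (F (a, 0)) (F (b, 0)) (F (c, 0)) (F (d, 0)) = d2 κ a b c d) ∧
      ∀ a ∈ D, ∀ b ∈ D, ∀ c ∈ D, Sm ε [a, b, c] → κ a b c = 0 := by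
  have hK : IsCompact ((univ : Set P) ×ˢ Icc (0 : ℝ) 1) := isCompact_univ.prod isCompact_Icc
  have hU := hK.uniformContinuousOn_of_continuous hF
  obtain ⟨μ, hμ, hU⟩ := Metric.uniformContinuousOn_iff.1 hU δ hδ
  obtain ⟨m', hm'⟩ := exists_nat_one_div_lt hμ
  set m : ℕ := m' + 1 with hm
  have hmpos : (0 : ℝ) < m := by positivity
  have hmμ : 1 / (m : ℝ) < μ := by
    rw [hm]
    push_cast
    exact hm'
  let f : ℕ → P → X := fun j a => F (a, (j : ℝ) / m)
  have hI : ∀ j : ℕ, j ≤ m → (j : ℝ) / m ∈ Icc (0 : ℝ) 1 := by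
    intro j hj
    refine ⟨by positivity, ?_⟩
    rw [div_le_one hmpos]
    exact_mod_cast hj
  have h1 : ∀ j : ℕ, j ≤ m → ∀ x y, dist x y < μ → dist (f j x) (f j y) < δ := by
    intro j hj x y hxy
    apply hU _ ⟨mem_univ _, hI j hj⟩ _ ⟨mem_univ _, hI j hj⟩
    rw [Prod.dist_eq]
    simp only [dist_self]
    exact max_lt hxy hμ
  have h2 : ∀ j : ℕ, j + 1 ≤ m → ∀ x y, dist x y < μ → dist (f j x) (f (j + 1) y) < δ := by
    intro j hj x y hxy
    apply hU _ ⟨mem_univ _, hI j (by omega)⟩ _ ⟨mem_univ _, hI (j + 1) hj⟩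
    rw [Prod.dist_eq]
    refine max_lt hxy ?_
    simp only [Real.dist_eq]
    have : (j : ℝ) / m - ((j + 1 : ℕ) : ℝ) / m = - (1 / (m : ℝ)) := by
      push_cast
      ring
    rw [this, abs_neg, abs_of_pos (by positivity)]
    exact hmμ
  have h3 : ∀ j : ℕ, j + 1 ≤ m → ∀ l : List P, Sm μ l →
      Sm δ (l.map (f j) ++ l.map (f (j + 1))) := by
    intro j hj l hl
    exact map2 hl _ _ (h1 j (by omega)) (h2 j hj) (h1 (j + 1) hj)
  -- the sum
  have h4 : ∀ k : ℕ, k ≤ m → ∀ a b c d, Sm μ [a, b, c, d] →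
      Φ' (f k a) (f k b) (f k c) (f k d) - Φ' (f 0 a) (f 0 b) (f 0 c) (f 0 d) =
        d2 (fun a b c => ∑ j ∈ Finset.range k, pr3 (f j) (f (j + 1)) Φ' a b c) a b c d := by
    intro k
    induction k with
    | zero =>
      intro _ a b c d _
      simp [d2]
    | succ k ih =>
      intro hk a b c d hs
      have h5 := ih (by omega) a b c d hs
      simp only [Finset.sum_range_succ]
      rw [d2_add, ← h5]
      have h6 := prism3 (f k) (f (k + 1)) Φ' a b c d
      have h7 := h3 k hk _ hs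
      have h8 : pr4 (f k) (f (k + 1)) (d3 Φ') a b c d = 0 := by
        simp only [pr4]
        rw [h0 _ _ _ _ _ (h7.mono (by simp) le_rfl), h0 _ _ _ _ _ (h7.mono (by simp) le_rfl),
          h0 _ _ _ _ _ (h7.mono (by simp) le_rfl), h0 _ _ _ _ _ (h7.mono (by simp) le_rfl)]
        norm_num
      rw [h8] at h6
      linarith
  refine ⟨fun a b c => ∑ j ∈ Finset.range m, pr3 (f j) (f (j + 1)) Φ' a b c, μ, hμ, ?_, ?_⟩
  · intro a b c d hs
    have h5 := h4 m le_rfl a b c d hs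
    have h6 : ∀ x, f m x = F (x, 1) := by
      intro x
      change F (x, (m : ℝ) / m) = _
      rw [div_self hmpos.ne']
    have h7 : ∀ x, f 0 x = F (x, 0) := by
      intro x
      change F (x, ((0 : ℕ) : ℝ) / m) = _
      rw [Nat.cast_zero, zero_div]
    simp only [h6, h7] at h5
    exact h5
  · intro a ha b hb c hc hs
    apply Finset.sum_eq_zero
    intro j hj
    have hj' : j + 1 ≤ m := Finset.mem_range.1 hj
    have h7 := h3 j hj' _ hs
    have hj0 := hI j (by omega)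
    have hj1 := hI (j + 1) hj'
    simp only [pr3]
    rw [hD a ha a ha b hb c hc _ hj0 _ hj1 _ hj1 _ hj1 (h7.mono (by simp [f]) le_rfl),
      hD a ha b hb b hb c hc _ hj0 _ hj0 _ hj1 _ hj1 (h7.mono (by simp [f]) le_rfl),
      hD a ha b hb c hc c hc _ hj0 _ hj0 _ hj0 _ hj1 (h7.mono (by simp [f]) le_rfl)]
    norm_num

end ROB

open Classical in
theorem t_ROB : M_ROB := by
  intro hHOM hALT hSEL X P _ _ _ _ hANR hShr e D u p0 he hi hE
  have hp0 : e p0 ∈ (e '' D)ᶜ := by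
    rintro ⟨q, hq, hq2⟩
    exact hE.nD (hi hq2 ▸ hq)
  have hDc : IsCompact D := hE.clD.isCompact
  have hopen : IsOpen (e '' D)ᶜ := (hDc.image he).isClosed.isOpen_compl
  obtain ⟨η, hη, hball⟩ := Metric.isOpen_iff.1 hopen _ hp0
  have hη2 : ∀ q ∈ D, η ≤ dist (e q) (e p0) := by
    intro q hq
    by_contra h
    exact hball (Metric.mem_ball.2 (not_le.1 h)) ⟨q, hq, rfl⟩
  obtain ⟨ε, hε, hH⟩ := hHOM X hANR η hη
  refine ⟨ε, hε, fun h hh hhε => ?_⟩
  by_contra hne
  obtain ⟨H, hHc, hH0, hH1, hHη⟩ := hH h hh hhε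
  set Z : Set X := h '' range e ∪ H '' ((e '' D) ×ˢ Icc 0 1) with hZ
  have hZc : IsCompact Z := by
    refine ((isCompact_range he).image hh).union ?_
    refine ((hDc.image he).prod isCompact_Icc).image_of_continuousOn (hHc.mono ?_)
    exact Set.prod_mono (subset_univ _) subset_rfl
  have hpZ : e p0 ∈ Zᶜ := by
    rintro (h1 | ⟨⟨x, t⟩, ⟨⟨q, hq, rfl⟩, ht⟩, hx⟩)
    · exact hne h1
    · have h1 := hHη (e q) t ht
      have h2 := hη2 q hq
      rw [hx, dist_comm] at h1
      linarith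
  obtain ⟨ρ2, hρ2, hballZ⟩ := Metric.isOpen_iff.1 hZc.isClosed.isOpen_compl _ hpZ
  set ρ : ℝ := ρ2 / 2 with hρ
  have hρpos : 0 < ρ := by positivity
  have hZρ : ∀ z ∈ Z, 2 * ρ ≤ dist z (e p0) := by
    intro z hz
    by_contra hc
    apply hballZ (Metric.mem_ball.2 _) hz
    have := not_le.1 hc
    linarith
  set B : Set X := Metric.ball (e p0) ρ with hB
  set W : Set P := e ⁻¹' B with hW
  have hWo : IsOpen W := Metric.isOpen_ball.preimage he
  have hpW : p0 ∈ W := Metric.mem_ball_self hρpos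
  obtain ⟨ψ, hψA, ε1, hε1, hψ1, hψ2⟩ := hE.loc W hWo hpW
  let ψ' : P → P → P → ℤ := fun a b c => if a ∉ W ∧ b ∉ W ∧ c ∉ W then ψ a b c else 0
  have hψ'A : Alt3 ψ' := by
    intro a b c
    simp only [ψ']
    by_cases ha : a ∈ W
    · simp [ha]
    · by_cases hb : b ∈ W
      · simp [hb]
      · by_cases hc : c ∈ W
        · simp [hc]
        · simp only [ha, hb, hc, not_false_eq_true, and_self, if_true]
          exact hψA a b c
  have : Nonempty P := ⟨p0⟩
  set g : X → P := Function.invFun e with hg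
  have hge : ∀ a, g (e a) = a := Function.leftInverse_invFun hi
  let U : P → P → P → P → ℤ := fun a b c d => u a b c d - d2 ψ' a b c d
  have hUA : Alt4 U := by
    intro a b c d
    have h1 := hE.alt a b c d
    have h2 := ROB.alt_d2 ψ' hψ'A a b c d
    refine ⟨?_, ?_, ?_⟩
    · change u b a c d - d2 ψ' b a c d = - (u a b c d - d2 ψ' a b c d)
      rw [h1.1, h2.1]
      ring
    · change u a c b d - d2 ψ' a c b d = - (u a b c d - d2 ψ' a b c d)
      rw [h1.2.1, h2.2.1]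
      ring
    · change u a b d c - d2 ψ' a b d c = - (u a b c d - d2 ψ' a b c d)
      rw [h1.2.2, h2.2.2]
      ring
  let Φ : X → X → X → X → ℤ := fun x y z w =>
    if x ∈ range e ∧ y ∈ range e ∧ z ∈ range e ∧ w ∈ range e then U (g x) (g y) (g z) (g w) else 0
  have hΦA : Alt4 Φ := by
    intro a b c d
    simp only [Φ]
    by_cases ha : a ∈ range e
    · by_cases hb : b ∈ range e
      · by_cases hc : c ∈ range e
        · by_cases hd : d ∈ range e
          · simp only [ha, hb, hc, hd, and_self, if_true]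
            exact hUA _ _ _ _
          · simp only [hd, and_false, false_and, if_false, neg_zero, and_self]
        · simp only [hc, and_false, false_and, if_false, neg_zero, and_self]
      · simp only [hb, and_false, false_and, if_false, neg_zero, and_self]
    · simp only [ha, and_false, false_and, if_false, neg_zero, and_self]
  have hΦe : ∀ a b c d, Φ (e a) (e b) (e c) (e d) = U a b c d := by
    intro a b c d
    simp only [Φ, mem_range_self, and_self, if_true, hge]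
  obtain ⟨δ1, hδ1, hinv⟩ := ROB.inv_unif e he hi ε1 hε1
  -- (i)
  have hΦ0 : ∀ x y z w, x ∉ B → y ∉ B → z ∉ B → w ∉ B → Sm δ1 [x, y, z, w] →
      Φ x y z w = 0 := by
    intro x y z w hx hy hz hw hs
    by_cases hr : x ∈ range e ∧ y ∈ range e ∧ z ∈ range e ∧ w ∈ range e
    · obtain ⟨⟨a, rfl⟩, ⟨b, rfl⟩, ⟨c, rfl⟩, ⟨d, rfl⟩⟩ := hr
      rw [hΦe]
      have ha : a ∉ W := hx
      have hb : b ∉ W := hy
      have hc : c ∉ W := hz
      have hd : d ∉ W := hw
      have hs' : Sm ε1 [a, b, c, d] := by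
        intro p hp q hq
        apply hinv
        exact hs (e p) (List.mem_map_of_mem (f := e) hp) (e q) (List.mem_map_of_mem (f := e) hq)
      change u a b c d - d2 ψ' a b c d = 0
      rw [hψ1 a ha b hb c hc d hd hs']
      simp only [d2, ψ', ha, hb, hc, hd, not_false_eq_true, and_self, if_true]
      ring
    · simp only [Φ, hr, if_false]
  set N : Set X := range e ∪ Z with hN
  set δ2 : ℝ := min δ1 ρ with hδ2
  have hδ2pos : 0 < δ2 := lt_min hδ1 hρpos
  -- (ii)
  have hΘ : ∀ a ∈ N, ∀ b ∈ N, ∀ c ∈ N, ∀ d ∈ N, ∀ f ∈ N, Sm δ2 [a, b, c, d, f] →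
      d3 Φ a b c d f = 0 := by
    intro a ha b hb c hc d hd f hf hs
    by_cases hr : ∀ x ∈ [a, b, c, d, f], x ∈ range e
    · obtain ⟨a', rfl⟩ := hr a (by simp)
      obtain ⟨b', rfl⟩ := hr b (by simp)
      obtain ⟨c', rfl⟩ := hr c (by simp)
      obtain ⟨d', rfl⟩ := hr d (by simp)
      obtain ⟨f', rfl⟩ := hr f (by simp)
      have h1 := hE.cyc a' b' c' d' f'
      have h2 := d3_d2 ψ' a' b' c' d' f'
      have h3 : d3 Φ (e a') (e b') (e c') (e d') (e f') =
          d3 u a' b' c' d' f' - d3 (d2 ψ') a' b' c' d' f' := by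
        simp only [d3, hΦe, U]
        ring
      rw [h3, h1, h2, sub_zero]
    · push Not at hr
      obtain ⟨x, hx, hxr⟩ := hr
      have hxZ : x ∈ Z := by
        have hxN : x ∈ N := by
          simp only [List.mem_cons, List.not_mem_nil, or_false] at hx
          rcases hx with rfl | rfl | rfl | rfl | rfl <;> assumption
        rcases hxN with h1 | h1
        · exact absurd h1 hxr
        · exact h1
      have h1 := hZρ x hxZ
      have hout : ∀ y ∈ [a, b, c, d, f], y ∉ B := by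
        intro y hy hyB
        have h2 := hs x hx y hy
        have h3 : dist y (e p0) < ρ := hyB
        have h4 := dist_triangle x y (e p0)
        have h5 : δ2 ≤ ρ := min_le_right _ _
        linarith
      have ha' := hout a (by simp)
      have hb' := hout b (by simp)
      have hc' := hout c (by simp)
      have hd' := hout d (by simp)
      have hf' := hout f (by simp)
      simp only [d3]
      have hle : δ2 ≤ δ1 := min_le_left _ _
      rw [hΦ0 b c d f hb' hc' hd' hf' (hs.mono (by simp) hle),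
        hΦ0 a c d f ha' hc' hd' hf' (hs.mono (by simp) hle),
        hΦ0 a b d f ha' hb' hd' hf' (hs.mono (by simp) hle),
        hΦ0 a b c f ha' hb' hc' hf' (hs.mono (by simp) hle),
        hΦ0 a b c d ha' hb' hc' hd' (hs.mono (by simp) hle)]
      norm_num
  obtain ⟨Φ', δ3, hδ3, hc3, hN3⟩ := ROB.extend hALT hSEL X hShr N Φ hΦA δ2 hδ2pos hΘ
  set δ4 : ℝ := min δ3 δ1 with hδ4
  have hδ4pos : 0 < δ4 := lt_min hδ3 hδ1
  have hZB : ∀ z ∈ Z, z ∉ B := by
    intro z hz hzB
    have h1 := hZρ z hz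
    have h2 : dist z (e p0) < ρ := hzB
    linarith
  have hZ0 : ∀ x ∈ Z, ∀ y ∈ Z, ∀ z ∈ Z, ∀ w ∈ Z, Sm δ4 [x, y, z, w] → Φ' x y z w = 0 := by
    intro x hx y hy z hz w hw hs
    rw [hN3 x (Or.inr hx) y (Or.inr hy) z (Or.inr hz) w (Or.inr hw)
      (hs.mono (fun _ h => h) (min_le_left _ _))]
    exact hΦ0 x y z w (hZB x hx) (hZB y hy) (hZB z hz) (hZB w hw)
      (hs.mono (fun _ h => h) (min_le_right _ _))
  obtain ⟨κ, ε2, hε2, hκ1, hκ2⟩ := ROB.homot Φ' δ4 hδ4pos
    (fun a b c d f hs => hc3 a b c d f (hs.mono (fun _ h => h) (min_le_left _ _)))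
    (fun q : P × ℝ => H (e q.1, q.2)) (by
      refine hHc.comp (by fun_prop) ?_
      rintro ⟨a, t⟩ ⟨_, ht⟩
      exact ⟨mem_univ _, ht⟩) D (by
      intro a ha b hb c hc d hd s hs s' hs' t ht t' ht' hsm
      exact hZ0 _ (Or.inr ⟨(e a, s), ⟨⟨a, ha, rfl⟩, hs⟩, rfl⟩)
        _ (Or.inr ⟨(e b, s'), ⟨⟨b, hb, rfl⟩, hs'⟩, rfl⟩)
        _ (Or.inr ⟨(e c, t), ⟨⟨c, hc, rfl⟩, ht⟩, rfl⟩)
        _ (Or.inr ⟨(e d, t'), ⟨⟨d, hd, rfl⟩, ht'⟩, rfl⟩) hsm)
  obtain ⟨ε3, hε3, hu3⟩ := ROB.unif e he δ4 hδ4pos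
  obtain ⟨ε4, hε4, hu4⟩ := ROB.unif (fun a => h (e a)) (hh.comp he) δ4 hδ4pos
  apply hE.ess
  refine ⟨fun a b c => ψ' a b c - κ a b c, min (min ε1 ε2) (min ε3 ε4),
    lt_min (lt_min hε1 hε2) (lt_min hε3 hε4), ?_, ?_⟩
  · intro a b c d hs
    have hs2 : Sm ε2 [a, b, c, d] :=
      hs.mono (fun _ h => h) ((min_le_left _ _).trans (min_le_right _ _))
    have hs3 : Sm ε3 [a, b, c, d] :=
      hs.mono (fun _ h => h) ((min_le_right _ _).trans (min_le_left _ _))
    have hs4 : Sm ε4 [a, b, c, d] :=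
      hs.mono (fun _ h => h) ((min_le_right _ _).trans (min_le_right _ _))
    have h1 := hκ1 a b c d hs2
    simp only [hH0, hH1] at h1
    have h2 : Sm δ4 [e a, e b, e c, e d] := ROB.map1 hs3 e hu3
    have h3 : Sm δ4 [h (e a), h (e b), h (e c), h (e d)] := ROB.map1 hs4 (fun a => h (e a)) hu4
    have hz : ∀ x, h (e x) ∈ Z := fun x => Or.inl ⟨e x, ⟨x, rfl⟩, rfl⟩
    rw [hZ0 _ (hz a) _ (hz b) _ (hz c) _ (hz d) h3] at h1
    have hn : ∀ x, e x ∈ N := fun x => Or.inl ⟨x, rfl⟩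
    rw [hN3 _ (hn a) _ (hn b) _ (hn c) _ (hn d) (h2.mono (fun _ h => h) (min_le_left _ _)),
      hΦe] at h1
    rw [ROB.d2_sub, ← h1]
    simp only [U]
    ring
  · intro a ha b hb c hc hs
    have hs2 : Sm ε2 [a, b, c] :=
      hs.mono (fun _ h => h) ((min_le_left _ _).trans (min_le_right _ _))
    have hs1 : Sm ε1 [a, b, c] :=
      hs.mono (fun _ h => h) ((min_le_left _ _).trans (min_le_left _ _))
    have h1 := hκ2 a ha b hb c hc hs2
    have h2 : ψ' a b c = 0 := by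
      simp only [ψ']
      split_ifs
      · exact hψ2 a ha b hb c hc hs1
      · rfl
    simp only [h1, h2, sub_zero]

end BBP
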