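import Pool.Agent.BBP.StmtsA

/-!
# BBP, module ROT: manifolds have nontrivial flows
-/

set_option autoImplicit false

namespace BBP

open Set Topology CTO

namespace ROT

/-- the speed of the rotation -/
noncomputable def b (v : R3) : ℝ := max 0 (1 - ‖v‖)

/-- the rotation -/
noncomputable def rot (a : ℝ) (v : R3) : R3 :=
  WithLp.toLp 2 ![Real.cos a * v 0 - Real.sin a * v 1, Real.sin a * v 0 + Real.cos a * v 1, v 2]

theorem rot_0 (a : ℝ) (v : R3) : rot a v 0 = Real.cos a * v 0 - Real.sin a * v 1 := rfl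
theorem rot_1 (a : ℝ) (v : R3) : rot a v 1 = Real.sin a * v 0 + Real.cos a * v 1 := rfl
theorem rot_2 (a : ℝ) (v : R3) : rot a v 2 = v 2 := rfl

theorem ext3 {u v : R3} (h0 : u 0 = v 0) (h1 : u 1 = v 1) (h2 : u 2 = v 2) : u = v := by
  ext i
  fin_cases i
  · exact h0
  · exact h1
  · exact h2

theorem norm_rot (a : ℝ) (v : R3) : ‖rot a v‖ = ‖v‖ := by
  rw [EuclideanSpace.norm_eq, EuclideanSpace.norm_eq]
  congr 1
  rw [Fin.sum_univ_three, Fin.sum_univ_three, rot_0, rot_1, rot_2]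
  simp only [Real.norm_eq_abs, sq_abs]
  have h := Real.sin_sq_add_cos_sq a
  linear_combination (v 0 ^ 2 + v 1 ^ 2) * h

theorem rot_rot (a c : ℝ) (v : R3) : rot a (rot c v) = rot (a + c) v := by
  apply ext3
  · rw [rot_0, rot_0, rot_1, rot_0, Real.cos_add, Real.sin_add]
    ring
  · rw [rot_1, rot_0, rot_1, rot_1, Real.cos_add, Real.sin_add]
    ring
  · rw [rot_2, rot_2, rot_2]

theorem rot_zero (v : R3) : rot 0 v = v := by
  apply ext3
  · rw [rot_0, Real.cos_zero, Real.sin_zero]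
    ring
  · rw [rot_1, Real.cos_zero, Real.sin_zero]
    ring
  · rw [rot_2]

/-- the flow on the space -/
noncomputable def psi (t : ℝ) (v : R3) : R3 := rot (t * b v) v

theorem b_psi (t : ℝ) (v : R3) : b (psi t v) = b v := by
  rw [b, psi, norm_rot, ← b]

theorem psi_zero (v : R3) : psi 0 v = v := by
  rw [psi, zero_mul, rot_zero]

theorem psi_add (s t : ℝ) (v : R3) : psi (s + t) v = psi s (psi t v) := by
  rw [psi, psi, b_psi, psi, rot_rot]
  congr 1
  ring

theorem psi_out (t : ℝ) (v : R3) (h : 1 ≤ ‖v‖) : psi t v = v := by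
  have hb : b v = 0 := by
    rw [b, max_eq_left]
    linarith
  rw [psi, hb, mul_zero, rot_zero]

theorem psi_cont : Continuous fun p : ℝ × R3 => psi p.1 p.2 := by
  have hb : Continuous fun p : ℝ × R3 => p.1 * b p.2 := by
    unfold b
    fun_prop
  have hc : ∀ i : Fin 3, Continuous fun p : ℝ × R3 => p.2 i := by
    intro i
    fun_prop
  unfold psi rot
  apply (PiLp.continuous_toLp 2 (fun _ : Fin 3 => ℝ)).comp
  apply continuous_pi
  intro i
  fin_cases i
  · exact ((Real.continuous_cos.comp hb).mul (hc 0)).sub ((Real.continuous_sin.comp hb).mul (hc 1))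
  · exact ((Real.continuous_sin.comp hb).mul (hc 0)).add ((Real.continuous_cos.comp hb).mul (hc 1))
  · exact hc 2

theorem psi_nontriv : ∃ t v, psi t v ≠ v := by
  refine ⟨2 * Real.pi, WithLp.toLp 2 ![1 / 2, 0, 0], ?_⟩
  intro h
  have h0 := congrArg (fun u : R3 => u 0) h
  have hn : ‖(WithLp.toLp 2 ![1 / 2, 0, 0] : R3)‖ = 1 / 2 := by
    rw [EuclideanSpace.norm_eq, Fin.sum_univ_three]
    have e : ‖(WithLp.toLp 2 ![1 / 2, 0, 0] : R3) 0‖ ^ 2 + ‖(WithLp.toLp 2 ![1 / 2, 0, 0] : R3) 1‖ ^ 2 +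
        ‖(WithLp.toLp 2 ![1 / 2, 0, 0] : R3) 2‖ ^ 2 = (1 / 2) ^ 2 := by
      change ‖(1 / 2 : ℝ)‖ ^ 2 + ‖(0 : ℝ)‖ ^ 2 + ‖(0 : ℝ)‖ ^ 2 = (1 / 2) ^ 2
      norm_num
    rw [e]
    exact Real.sqrt_sq (by norm_num)
  have hb : b (WithLp.toLp 2 ![1 / 2, 0, 0] : R3) = 1 / 2 := by
    rw [b, hn]
    norm_num
  change rot (2 * Real.pi * b (WithLp.toLp 2 ![1 / 2, 0, 0])) (WithLp.toLp 2 ![1 / 2, 0, 0]) 0 = 1 / 2 at h0
  rw [hb, rot_0] at h0
  have e : 2 * Real.pi * (1 / 2) = Real.pi := by ring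
  rw [e, Real.cos_pi, Real.sin_pi] at h0
  change (-1 : ℝ) * (1 / 2) - 0 * 0 = 1 / 2 at h0
  norm_num at h0

open Classical in
/-- the extension of a flow on a chart -/
noncomputable def phi {X : Type} [TopologicalSpace X] {V : Set X} (F : ℝ → R3 → R3) (h : V ≃ₜ R3)
    (t : ℝ) (x : X) : X :=
  if hx : x ∈ V then (h.symm (F t (h ⟨x, hx⟩)) : V) else x

section

variable {X : Type} [TopologicalSpace X] {V : Set X} (F : ℝ → R3 → R3) (h : V ≃ₜ R3)

theorem phi_in (t : ℝ) (x : V) : phi F h t x = (h.symm (F t (h x)) : V) := by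
  rw [phi, dif_pos x.2]

theorem phi_out (t : ℝ) {x : X} (hx : x ∉ V) : phi F h t x = x := by
  rw [phi, dif_neg hx]

theorem phi_cont [T2Space X] (hV : IsOpen V) (hc : Continuous fun p : ℝ × R3 => F p.1 p.2)
    (ho : ∀ t v, 1 ≤ ‖v‖ → F t v = v) : Continuous fun p : ℝ × X => phi F h p.1 p.2 := by
  rw [continuous_iff_continuousAt]
  rintro ⟨t0, x0⟩
  by_cases hx : x0 ∈ V
  · have h1 : ContinuousOn (fun p : ℝ × X => phi F h p.1 p.2) (univ ×ˢ V) := by
      rw [continuousOn_iff_continuous_domRestrict]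
      have h2 : ((univ : Set ℝ) ×ˢ V).domRestrict (fun p : ℝ × X => phi F h p.1 p.2) =
          fun p : ((univ : Set ℝ) ×ˢ V : Set (ℝ × X)) =>
            ((h.symm (F p.1.1 (h ⟨p.1.2, p.2.2⟩)) : V) : X) := by
        funext p
        exact phi_in F h p.1.1 ⟨p.1.2, p.2.2⟩
      rw [h2]
      have h3 : Continuous fun p : ((univ : Set ℝ) ×ˢ V : Set (ℝ × X)) =>
          ((p.1.1, h ⟨p.1.2, p.2.2⟩) : ℝ × R3) := by
        refine (continuous_fst.comp continuous_subtype_val).prodMk ?_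
        exact h.continuous.comp ((continuous_snd.comp continuous_subtype_val).subtype_mk _)
      exact continuous_subtype_val.comp (h.symm.continuous.comp (hc.comp h3))
    exact h1.continuousAt ((isOpen_univ.prod hV).mem_nhds ⟨mem_univ _, hx⟩)
  · -- the compact set
    have hK : IsCompact (Subtype.val '' (h.symm '' Metric.closedBall (0 : R3) 1)) :=
      ((isCompact_closedBall (0 : R3) 1).image h.symm.continuous).image continuous_subtype_val
    have hO : IsOpen (Subtype.val '' (h.symm '' Metric.closedBall (0 : R3) 1))ᶜ :=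
      hK.isClosed.isOpen_compl
    have hx0 : x0 ∈ (Subtype.val '' (h.symm '' Metric.closedBall (0 : R3) 1))ᶜ := by
      rintro ⟨y, -, rfl⟩
      exact hx y.2
    have hev : (fun p : ℝ × X => phi F h p.1 p.2) =ᶠ[𝓝 (t0, x0)] Prod.snd := by
      filter_upwards [(isOpen_univ.prod hO).mem_nhds ⟨mem_univ t0, hx0⟩] with p hp
      by_cases hp2 : p.2 ∈ V
      · have h4 : 1 ≤ ‖h ⟨p.2, hp2⟩‖ := by
          by_contra hlt
          push Not at hlt
          apply hp.2
          refine ⟨⟨p.2, hp2⟩, ⟨h ⟨p.2, hp2⟩, ?_, ?_⟩, rfl⟩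
          · rw [mem_closedBall_zero_iff]
            exact hlt.le
          · rw [Homeomorph.symm_apply_apply]
        have h5 := phi_in F h p.1 ⟨p.2, hp2⟩
        rw [ho _ _ h4, Homeomorph.symm_apply_apply] at h5
        exact h5
      · exact phi_out F h p.1 hp2
    exact (continuous_snd.continuousAt (x := (t0, x0))).congr hev.symm

theorem phi_zero (h0 : ∀ v, F 0 v = v) (x : X) : phi F h 0 x = x := by
  by_cases hx : x ∈ V
  · have h5 := phi_in F h 0 ⟨x, hx⟩
    rwa [h0, Homeomorph.symm_apply_apply] at h5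
  · exact phi_out F h 0 hx

theorem phi_add (ha : ∀ s t v, F (s + t) v = F s (F t v)) (s t : ℝ) (x : X) :
    phi F h (s + t) x = phi F h s (phi F h t x) := by
  by_cases hx : x ∈ V
  · have h5 := phi_in F h (s + t) ⟨x, hx⟩
    have h6 := phi_in F h t ⟨x, hx⟩
    change phi F h (s + t) x = _ at h5
    change phi F h t x = _ at h6
    rw [h5, h6, phi_in, Homeomorph.apply_symm_apply, ha]
  · rw [phi_out F h _ hx, phi_out F h _ hx, phi_out F h _ hx]

include h in
theorem flow [T2Space X] (hV : IsOpen V) (hc : Continuous fun p : ℝ × R3 => F p.1 p.2)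
    (ho : ∀ t v, 1 ≤ ‖v‖ → F t v = v) (h0 : ∀ v, F 0 v = v)
    (ha : ∀ s t v, F (s + t) v = F s (F t v)) (hn : ∃ t v, F t v ≠ v) : HasFlow X := by
  refine ⟨phi F h, phi_cont F h hV hc ho, phi_zero F h h0, phi_add F h ha, ?_⟩
  obtain ⟨t, v, htv⟩ := hn
  refine ⟨t, (h.symm v : V), ?_⟩
  rw [phi_in, Homeomorph.apply_symm_apply]
  intro he
  exact htv (h.symm.injective (Subtype.ext he))

end

end ROT

/-- Module ROT. -/
theorem t_ROT : S_ROT := by
  intro X _ hX hne
  obtain ⟨hT, -, hch⟩ := hX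
  obtain ⟨x0⟩ := hne
  obtain ⟨V, hV, -, ⟨h⟩⟩ := hch x0
  exact ROT.flow ROT.psi h hV ROT.psi_cont ROT.psi_out ROT.psi_zero ROT.psi_add ROT.psi_nontriv

end BBP
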