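import Pool.Agent.BBP.StmtsA

/-!
# BBP: module SEL (selection of close points with at most four values on small sets)
-/

set_option autoImplicit false

namespace BBP

open Set Topology CTO

theorem t_SEL : S_SEL := by
  classical
  intro X _ _ hS N δ hδ
  rcases isEmpty_or_nonempty X with hX | hX
  · exact ⟨id, 1, one_pos, fun x => hX.elim x, fun x => hX.elim x, fun a => hX.elim a⟩
  obtain ⟨t0, -, ht0, hcov⟩ :=
    (isCompact_univ : IsCompact (univ : Set X)).finite_cover_balls (half_pos hδ)
  let t : Finset X := ht0.toFinset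
  let c : Fin t.card → X := fun i => (t.equivFin.symm i : X)
  have hUcov : (⋃ i, Metric.ball (c i) (δ / 2)) = univ := by
    rw [Set.eq_univ_iff_forall]
    intro x
    have hx := hcov (mem_univ x)
    rw [Set.mem_iUnion₂] at hx
    obtain ⟨y, hy, hxy⟩ := hx
    have hyt : y ∈ t := ht0.mem_toFinset.2 hy
    rw [Set.mem_iUnion]
    refine ⟨t.equivFin ⟨y, hyt⟩, ?_⟩
    have hc : c (t.equivFin ⟨y, hyt⟩) = y := by
      change ((t.equivFin.symm (t.equivFin ⟨y, hyt⟩) : t) : X) = y
      rw [Equiv.symm_apply_apply]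
    rw [hc]
    exact hxy
  obtain ⟨V, hVo, hVU, hVc, hVn⟩ := hS t.card (fun i => Metric.ball (c i) (δ / 2))
    (fun i => Metric.isOpen_ball) hUcov
  obtain ⟨lam, hlam, hL⟩ := lebesgue_number_lemma_of_metric
    (isCompact_univ : IsCompact (univ : Set X)) hVo hVc.ge
  choose i hi using fun x => hL x (mem_univ x)
  have hq : ∀ j, ∃ y : X, ((V j).Nonempty → y ∈ V j) ∧ ((N ∩ V j).Nonempty → y ∈ N) := by
    intro j
    by_cases h1 : (N ∩ V j).Nonempty
    · obtain ⟨y, hy1, hy2⟩ := h1
      exact ⟨y, fun _ => hy2, fun _ => hy1⟩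
    · by_cases h2 : (V j).Nonempty
      · obtain ⟨y, hy⟩ := h2
        exact ⟨y, fun _ => hy, fun h => absurd h h1⟩
      · exact ⟨hX.some, fun h => absurd h h2, fun h => absurd h h1⟩
  choose r hr1 hr2 using hq
  have hself : ∀ x, x ∈ V (i x) := fun x => hi x (Metric.mem_ball_self hlam)
  refine ⟨fun x => r (i x), lam, hlam, ?_, ?_, ?_⟩
  · intro x
    have h1 : r (i x) ∈ V (i x) := hr1 (i x) ⟨x, hself x⟩
    have h2 := hVU (i x) h1
    have h3 := hVU (i x) (hself x)
    rw [Metric.mem_ball] at h2 h3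
    have h4 := dist_triangle_right (r (i x)) x (c (i x))
    linarith
  · intro x hx
    exact hr2 (i x) ⟨x, hx, hself x⟩
  · intro a b d e f hs hnd
    have hnd' : [i a, i b, i d, i e, i f].Nodup := by
      apply List.Nodup.of_map r
      exact hnd
    have hmem : ∀ y ∈ [a, b, d, e, f], a ∈ V (i y) := by
      intro y hy
      apply hi y
      rw [Metric.mem_ball]
      exact hs a (by simp) y hy
    have hsub : (([i a, i b, i d, i e, i f].toFinset : Finset (Fin t.card)) : Set (Fin t.card)) ⊆
        {j | a ∈ V j} := by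
      intro j hj
      rw [Finset.mem_coe, List.mem_toFinset] at hj
      have hj' : j ∈ [a, b, d, e, f].map i := hj
      rw [List.mem_map] at hj'
      obtain ⟨y, hy, rfl⟩ := hj'
      exact hmem y hy
    have h1 := Set.ncard_le_ncard hsub (Set.toFinite _)
    rw [Set.ncard_coe_finset, List.toFinset_card_of_nodup hnd'] at h1
    have h2 := hVn a
    have h3 : [i a, i b, i d, i e, i f].length = 5 := rfl
    omega

end BBP
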