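import Pool.Agent.BBP.StmtsA

/-!
# BBP, block A, module VLO: the cochain is null away from the point
-/

set_option autoImplicit false

namespace BBP

open Set Topology CTO

namespace VLO

variable {K Z : Type}

/-- the 1-cochain `ψK * max` on the product -/
def kap (ψK : K → K → ℤ) (χ : Z → ℤ) (p q : K × Z) : ℤ :=
  ψK p.1 q.1 * max (χ p.2) (χ q.2)

/-- the 2-cochain on the product -/
def eta (c ψK : K → K → ℤ) (χ : Z → ℤ) (p q r : K × Z) : ℤ :=
  if χ p.2 = 1 ∧ χ q.2 = 1 ∧ χ r.2 = 1 then d1 c p.1 q.1 r.1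
  else if χ p.2 = 0 ∧ χ q.2 = 0 ∧ χ r.2 = 0 then 0 else d1 (kap ψK χ) p q r

theorem kap_alt {ψK : K → K → ℤ} (h : Alt2 ψK) (χ : Z → ℤ) : Alt2 (kap ψK χ) := by
  intro p q
  unfold kap
  rw [h p.1 q.1, max_comm]
  ring

theorem d1_alt {X : Type} {κ : X → X → ℤ} (h : Alt2 κ) : Alt3 (d1 κ) := by
  intro a b c
  have h1 := h a b
  have h2 := h b c
  constructor
  · unfold d1
    linarith
  · unfold d1
    linarith

theorem eta_alt {c ψK : K → K → ℤ} (hc : Alt2 c) (h : Alt2 ψK) (χ : Z → ℤ) :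
    Alt3 (eta c ψK χ) := by
  intro p q r
  have h1 := d1_alt hc p.1 q.1 r.1
  have h2 := d1_alt (kap_alt h χ) p q r
  constructor
  · unfold eta
    by_cases a1 : χ p.2 = 1 ∧ χ q.2 = 1 ∧ χ r.2 = 1
    · rw [if_pos a1, if_pos ⟨a1.2.1, a1.1, a1.2.2⟩]
      exact h1.1
    · rw [if_neg a1, if_neg fun h => a1 ⟨h.2.1, h.1, h.2.2⟩]
      by_cases a2 : χ p.2 = 0 ∧ χ q.2 = 0 ∧ χ r.2 = 0
      · rw [if_pos a2, if_pos ⟨a2.2.1, a2.1, a2.2.2⟩, neg_zero]
      · rw [if_neg a2, if_neg fun h => a2 ⟨h.2.1, h.1, h.2.2⟩]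
        exact h2.1
  · unfold eta
    by_cases a1 : χ p.2 = 1 ∧ χ q.2 = 1 ∧ χ r.2 = 1
    · rw [if_pos a1, if_pos ⟨a1.1, a1.2.2, a1.2.1⟩]
      exact h1.2
    · rw [if_neg a1, if_neg fun h => a1 ⟨h.1, h.2.2, h.2.1⟩]
      by_cases a2 : χ p.2 = 0 ∧ χ q.2 = 0 ∧ χ r.2 = 0
      · rw [if_pos a2, if_pos ⟨a2.1, a2.2.2, a2.2.1⟩, neg_zero]
      · rw [if_neg a2, if_neg fun h => a2 ⟨h.1, h.2.2, h.2.1⟩]
        exact h2.2

theorem vv_alt {L : Set K} {f : K → ℂ} (h : Alt2 (cc L f)) (χ : Z → ℤ) :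
    Alt3 (vv L f χ) := by
  intro p q r
  have h1 := d1_alt h p.1 q.1 r.1
  constructor
  · unfold vv
    rw [h1.1, max_left_comm (χ q.2)]
    ring
  · unfold vv
    rw [h1.2, max_comm (χ r.2) (χ q.2)]
    ring

theorem eta_one {c ψK : K → K → ℤ} {χ : Z → ℤ} {p q r : K × Z} (h1 : χ p.2 = 1)
    (h2 : χ q.2 = 1) (h3 : χ r.2 = 1) : eta c ψK χ p q r = d1 c p.1 q.1 r.1 :=
  if_pos ⟨h1, h2, h3⟩

theorem eta_zero {c ψK : K → K → ℤ} {χ : Z → ℤ} {p q r : K × Z} (h1 : χ p.2 = 0)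
    (h2 : χ q.2 = 0) (h3 : χ r.2 = 0) : eta c ψK χ p q r = 0 := by
  unfold eta
  rw [if_neg (by rw [h1]; simp), if_pos ⟨h1, h2, h3⟩]

theorem eta_face {c ψK : K → K → ℤ} {χ : Z → ℤ} {p q r : K × Z}
    (h : d1 c p.1 q.1 r.1 = d1 ψK p.1 q.1 r.1) :
    eta c ψK χ p q r = d1 (kap ψK χ) p q r := by
  unfold eta
  by_cases a1 : χ p.2 = 1 ∧ χ q.2 = 1 ∧ χ r.2 = 1
  · rw [if_pos a1, h]
    unfold d1 kap
    rw [a1.1, a1.2.1, a1.2.2, max_self, mul_one, mul_one, mul_one]
  · rw [if_neg a1]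
    by_cases a2 : χ p.2 = 0 ∧ χ q.2 = 0 ∧ χ r.2 = 0
    · rw [if_pos a2]
      unfold d1 kap
      rw [a2.1, a2.2.1, a2.2.2, max_self, mul_zero, mul_zero, mul_zero]
      simp
    · rw [if_neg a2]

theorem Sm.fst [MetricSpace K] [MetricSpace Z] {ε : ℝ} {l : List (K × Z)} (h : Sm ε l) :
    Sm ε (l.map Prod.fst) := by
  intro x hx y hy
  obtain ⟨p, hp, rfl⟩ := List.mem_map.1 hx
  obtain ⟨q, hq, rfl⟩ := List.mem_map.1 hy
  refine lt_of_le_of_lt ?_ (h p hp q hq)
  rw [Prod.dist_eq]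
  exact le_max_left _ _

theorem dist_snd [MetricSpace K] [MetricSpace Z] {ε : ℝ} {l : List (K × Z)} (h : Sm ε l)
    {p q : K × Z} (hp : p ∈ l) (hq : q ∈ l) : dist p.2 q.2 < ε := by
  refine lt_of_le_of_lt ?_ (h p hp q hq)
  rw [Prod.dist_eq]
  exact le_max_right _ _

end VLO

open VLO in
theorem t_VLO : M_VLO := by
  classical
  intro hCOC hCEX K Z _ _ _ _ L f a b ρ hL hf hf0 hρ hab WK OZ hWK hOZ hdis haO hbO hext hsep
  obtain ⟨hcc, ⟨ε2, hε2, hd⟩, -⟩ := hCOC K L f hL hf hf0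
  have hLE : L ⊆ WKᶜ := fun x hx hxW => (Set.disjoint_left.1 hdis) hxW hx
  obtain ⟨ψK, hψa, hψ0, ε1, hε1, hψ⟩ := hCEX K L WKᶜ f hL hWK.isClosed_compl hLE hf hf0 hext
  obtain ⟨Za, Zb, hZa, hZb, hdisj, hun, haZ, hbZ⟩ := hsep
  obtain ⟨δ, hδ, hth⟩ := hdisj.exists_thickenings hZa.isCompact hZb
  let χ : Z → ℤ := fun z => if z ∈ Metric.thickening δ Zb then 1 else 0
  have hχb : ∀ z ∈ Zb, ∀ z', dist z' z < δ → χ z' = 1 := by
    intro z hz z' hzz
    exact if_pos (Metric.mem_thickening_iff.2 ⟨z, hz, hzz⟩)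
  have hχa : ∀ z ∈ Za, ∀ z', dist z' z < δ → χ z' = 0 := by
    intro z hz z' hzz
    refine if_neg fun h => ?_
    exact (Set.disjoint_left.1 hth) (Metric.mem_thickening_iff.2 ⟨z, hz, hzz⟩) h
  have hχc : ∀ z ∉ OZ, (∀ z', dist z' z < δ → χ z' = 1) ∨ ∀ z', dist z' z < δ → χ z' = 0 := by
    intro z hz
    have : z ∈ Za ∪ Zb := by rw [hun]; exact hz
    rcases this with h | h
    · exact Or.inr (hχa z h)
    · exact Or.inl (hχb z h)
  set c := cc L f with hc
  refine ⟨fun p q r => vv L f (chi b ρ) p q r - eta c ψK χ p q r, ?_,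
    min (min ε1 ε2) (min δ ρ), by positivity, ?_, ?_⟩
  · intro p q r
    have h1 := vv_alt hcc (chi b ρ) p q r
    have h2 := eta_alt hcc hψa χ p q r
    constructor
    · show vv L f (chi b ρ) q p r - eta c ψK χ q p r =
        -(vv L f (chi b ρ) p q r - eta c ψK χ p q r)
      rw [h1.1, h2.1]; ring
    · show vv L f (chi b ρ) p r q - eta c ψK χ p r q =
        -(vv L f (chi b ρ) p q r - eta c ψK χ p q r)
      rw [h1.2, h2.2]; ring
  · intro p hp q hq r hr s hs hsm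
    have key : d2 (eta c ψK χ) p q r s = 0 := by
      by_cases a1 : χ p.2 = 1 ∧ χ q.2 = 1 ∧ χ r.2 = 1 ∧ χ s.2 = 1
      · obtain ⟨e1, e2, e3, e4⟩ := a1
        unfold d2
        rw [eta_one e2 e3 e4, eta_one e1 e3 e4, eta_one e1 e2 e4, eta_one e1 e2 e3]
        exact d2_d1 c p.1 q.1 r.1 s.1
      by_cases a2 : χ p.2 = 0 ∧ χ q.2 = 0 ∧ χ r.2 = 0 ∧ χ s.2 = 0
      · obtain ⟨e1, e2, e3, e4⟩ := a2
        unfold d2
        rw [eta_zero e2 e3 e4, eta_zero e1 e3 e4, eta_zero e1 e2 e4, eta_zero e1 e2 e3]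
        simp
      -- all second coordinates are in `OZ`
      have hin : ∀ x ∈ [p, q, r, s], x.2 ∈ OZ := by
        intro x hx
        by_contra hxO
        have hdist : ∀ y ∈ [p, q, r, s], dist y.2 x.2 < δ := fun y hy =>
          (dist_snd hsm hy hx).trans_le ((min_le_right _ _).trans (min_le_left _ _))
        rcases hχc x.2 hxO with h | h
        · exact a1 ⟨h _ (hdist p (by simp)), h _ (hdist q (by simp)), h _ (hdist r (by simp)),
            h _ (hdist s (by simp))⟩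
        · exact a2 ⟨h _ (hdist p (by simp)), h _ (hdist q (by simp)), h _ (hdist r (by simp)),
            h _ (hdist s (by simp))⟩
      have hK : ∀ x ∈ [p, q, r, s], x ∉ WK ×ˢ OZ → x.1 ∈ WKᶜ := fun x hx hxn hxW =>
        hxn ⟨hxW, hin x hx⟩
      have kp := hK p (by simp) hp
      have kq := hK q (by simp) hq
      have kr := hK r (by simp) hr
      have ks := hK s (by simp) hs
      have hface : ∀ x ∈ [p, q, r, s], ∀ y ∈ [p, q, r, s], ∀ z ∈ [p, q, r, s],
          Sm ε1 [x.1, y.1, z.1] := by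
        intro x hx y hy z hz
        have h1 : Sm ε1 ([x, y, z].map Prod.fst) := by
          refine Sm.fst (Sm.mono hsm ?_ ((min_le_left _ _).trans (min_le_left _ _)))
          intro w hw
          simp only [List.mem_cons, List.not_mem_nil, or_false] at hw
          rcases hw with rfl | rfl | rfl
          · exact hx
          · exact hy
          · exact hz
        exact h1
      have f1 := eta_face (χ := χ) (hψ _ kq _ kr _ ks
        (hface q (by simp) r (by simp) s (by simp)))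
      have f2 := eta_face (χ := χ) (hψ _ kp _ kr _ ks
        (hface p (by simp) r (by simp) s (by simp)))
      have f3 := eta_face (χ := χ) (hψ _ kp _ kq _ ks
        (hface p (by simp) q (by simp) s (by simp)))
      have f4 := eta_face (χ := χ) (hψ _ kp _ kq _ kr
        (hface p (by simp) q (by simp) r (by simp)))
      unfold d2
      rw [f1, f2, f3, f4]
      exact d2_d1 (kap ψK χ) p q r s
    have e : d2 (fun p q r => vv L f (chi b ρ) p q r - eta c ψK χ p q r) p q r s =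
        d2 (vv L f (chi b ρ)) p q r s - d2 (eta c ψK χ) p q r s := by
      simp only [d2]
      ring
    rw [e, key, sub_zero]
  · intro p hp q hq r hr hsm
    show vv L f (chi b ρ) p q r - eta c ψK χ p q r = 0
    by_cases ha : ∃ x ∈ [p, q, r], x.2 = a
    · obtain ⟨x, hx, hxa⟩ := ha
      have h1 : ∀ y ∈ [p, q, r], χ y.2 = 0 ∧ chi b ρ y.2 = 0 := by
        intro y hy
        have hd1 : dist y.2 a < min (min ε1 ε2) (min δ ρ) := by
          rw [← hxa]
          exact dist_snd hsm hy hx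
        refine ⟨hχa a haZ _ (hd1.trans_le ((min_le_right _ _).trans (min_le_left _ _))), ?_⟩
        refine if_neg ?_
        have h2 : dist y.2 a < ρ := hd1.trans_le ((min_le_right _ _).trans (min_le_right _ _))
        have h3 := dist_triangle_left a b y.2
        intro h4
        linarith
      have e1 := h1 p (by simp)
      have e2 := h1 q (by simp)
      have e3 := h1 r (by simp)
      rw [eta_zero e1.1 e2.1 e3.1]
      unfold vv
      rw [e1.2, e2.2, e3.2]
      simp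
    by_cases hb : ∃ x ∈ [p, q, r], x.2 = b
    · obtain ⟨x, hx, hxb⟩ := hb
      have h1 : ∀ y ∈ [p, q, r], χ y.2 = 1 ∧ chi b ρ y.2 = 1 := by
        intro y hy
        have hd1 : dist y.2 b < min (min ε1 ε2) (min δ ρ) := by
          rw [← hxb]
          exact dist_snd hsm hy hx
        refine ⟨hχb b hbZ _ (hd1.trans_le ((min_le_right _ _).trans (min_le_left _ _))), ?_⟩
        exact if_pos (hd1.trans_le ((min_le_right _ _).trans (min_le_right _ _)))
      have e1 := h1 p (by simp)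
      have e2 := h1 q (by simp)
      have e3 := h1 r (by simp)
      rw [eta_one e1.1 e2.1 e3.1]
      unfold vv
      rw [e1.2, e2.2, e3.2]
      simp [hc]
    -- all first coordinates are in `L`
    have hLm : ∀ x ∈ [p, q, r], x ∈ bdP L a b → x.1 ∈ L := by
      intro x hx hxb
      rcases hxb with h | h
      · exact h.1
      · rcases h.2 with h2 | h2
        · exact absurd ⟨x, hx, h2⟩ ha
        · exact absurd ⟨x, hx, h2⟩ hb
    have lp := hLm p (by simp) hp
    have lq := hLm q (by simp) hq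
    have lr := hLm r (by simp) hr
    have h0 : d1 c p.1 q.1 r.1 = 0 := by
      refine hd _ lp _ lq _ lr ?_
      have h1 : Sm ε2 ([p, q, r].map Prod.fst) :=
        Sm.fst (Sm.mono hsm (fun _ h => h) ((min_le_left _ _).trans (min_le_right _ _)))
      exact h1
    have h2 : eta c ψK χ p q r = 0 := by
      have h3 : d1 ψK p.1 q.1 r.1 = 0 := by
        unfold d1
        rw [hψ0 _ lq _ lr, hψ0 _ lp _ lr, hψ0 _ lp _ lq]
        simp
      rw [eta_face (by rw [h0, h3])]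
      unfold d1 kap
      rw [hψ0 _ lq _ lr, hψ0 _ lp _ lr, hψ0 _ lp _ lq]
      simp
    have h4 : vv L f (chi b ρ) p q r = 0 := by
      unfold vv
      rw [← hc, h0, zero_mul]
    rw [h2, h4, sub_zero]

end BBP
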