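import Pool.Agent.BBP.StmtsA

/-!
# VNZ: the cochain on the product is not null
-/

set_option autoImplicit false

namespace BBP

open Set Topology CTO

namespace VNZ

variable {K Z : Type} [MetricSpace K] [MetricSpace Z]

lemma chain (a b : Z) (h : ¬ Sepd (univ : Set Z) a b) (δ : ℝ) (hδ : 0 < δ) :
    Relation.ReflTransGen (fun z z' : Z => dist z z' < δ) a b := by
  by_contra hb
  apply h
  have hmove : ∀ z z' : Z, dist z z' < δ →
      Relation.ReflTransGen (fun z z' : Z => dist z z' < δ) a z →
      Relation.ReflTransGen (fun z z' : Z => dist z z' < δ) a z' :=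
    fun z z' h1 h2 => h2.tail h1
  refine ⟨{z | Relation.ReflTransGen (fun z z' : Z => dist z z' < δ) a z},
    {z | Relation.ReflTransGen (fun z z' : Z => dist z z' < δ) a z}ᶜ, ?_, ?_,
    disjoint_compl_right, union_compl_self _, Relation.ReflTransGen.refl, hb⟩
  · rw [← isOpen_compl_iff, Metric.isOpen_iff]
    intro z hz
    refine ⟨δ, hδ, fun z' hz' hz'' => hz (hmove z' z ?_ hz'')⟩
    exact hz'
  · rw [isClosed_compl_iff, Metric.isOpen_iff]
    intro z hz
    refine ⟨δ, hδ, fun z' hz' => hmove z z' ?_ hz⟩
    rw [dist_comm]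
    exact hz'

lemma dlt {x y : K} {z z' : Z} {ε : ℝ} (h1 : dist x y < ε) (h2 : dist z z' < ε) :
    dist (x, z) (y, z') < ε := by
  rw [Prod.dist_eq]
  exact max_lt h1 h2

end VNZ

theorem t_VNZ : M_VNZ := by
  intro hCOC hEXC K Z _ _ _ _ L f a b ρ hL hf hf0 hext hsep hρ hρ2
  rintro ⟨ψ, ε, hε, hd, hb⟩
  obtain ⟨halt, -, -⟩ := hCOC K L f hL hf hf0
  have hcc0 : ∀ x, cc L f x x = 0 := by
    intro x
    have := halt x x
    omega
  set ζ : K × Z → K × Z → K × Z → ℤ := fun p q r => vv L f (chi b ρ) p q r - ψ p q r with hζ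
  have hdζ : ∀ p q r s, Sm ε [p, q, r, s] → d2 ζ p q r s = 0 := by
    intro p q r s h
    have h1 := hd p q r s h
    simp only [d2, hζ] at h1 ⊢
    linarith
  have key : ∀ z : Z, Relation.ReflTransGen (fun z z' : Z => dist z z' < ε) a z →
      ∃ κ : K → K → ℤ, (∀ x y w, Sm ε [x, y, w] → ζ (x, z) (y, z) (w, z) = d1 κ x y w) ∧
        ∀ x ∈ L, ∀ y ∈ L, dist x y < ε → κ x y = 0 := by
    intro z hz
    induction hz with
    | refl =>
      refine ⟨fun _ _ => 0, ?_, fun _ _ _ _ _ => rfl⟩
      intro x y w hs
      have h1 : ψ (x, a) (y, a) (w, a) = 0 := by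
        refine hb _ ?_ _ ?_ _ ?_ ?_
        · exact Or.inr ⟨mem_univ _, Or.inl rfl⟩
        · exact Or.inr ⟨mem_univ _, Or.inl rfl⟩
        · exact Or.inr ⟨mem_univ _, Or.inl rfl⟩
        · intro p hp q hq
          have hp' : p.2 = a ∧ p.1 ∈ [x, y, w] := by
            simp only [List.mem_cons, List.not_mem_nil, or_false] at hp ⊢
            rcases hp with rfl | rfl | rfl <;> simp
          have hq' : q.2 = a ∧ q.1 ∈ [x, y, w] := by
            simp only [List.mem_cons, List.not_mem_nil, or_false] at hq ⊢
            rcases hq with rfl | rfl | rfl <;> simp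
          rw [Prod.dist_eq, hp'.1, hq'.1, dist_self]
          exact max_lt (hs _ hp'.2 _ hq'.2) hε
      have h2 : chi b ρ a = 0 := by
        rw [chi, if_neg]
        linarith
      simp only [hζ, vv, h1, h2, d1, max_self, mul_zero, sub_self, add_zero]
    | @tail z z' hz hzz' ih =>
      obtain ⟨κ, hκ1, hκ2⟩ := ih
      have hz'z : dist z' z < ε := by rwa [dist_comm]
      refine ⟨fun x y => κ x y + pr2 (fun x => (x, z)) (fun x => (x, z')) ζ x y, ?_, ?_⟩
      · intro x y w hs
        have h1 := prism2 (fun x : K => (x, z)) (fun x : K => (x, z')) ζ x y w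
        have hsm : ∀ l : List (K × Z), (∀ p ∈ l, p.1 ∈ [x, y, w] ∧ (p.2 = z ∨ p.2 = z')) →
            Sm ε l := by
          intro l hl p hp q hq
          obtain ⟨h2, h3⟩ := hl p hp
          obtain ⟨h4, h5⟩ := hl q hq
          rw [Prod.dist_eq]
          refine max_lt (hs _ h2 _ h4) ?_
          rcases h3 with h3 | h3 <;> rcases h5 with h5 | h5 <;> rw [h3, h5]
          · rw [dist_self]
            exact hε
          · exact hzz'
          · exact hz'z
          · rw [dist_self]
            exact hε
        have h2 : pr3 (fun x : K => (x, z)) (fun x : K => (x, z')) (d2 ζ) x y w = 0 := by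
          rw [pr3]
          rw [hdζ, hdζ, hdζ]
          · ring
          all_goals
            apply hsm
            intro p hp
            simp only [List.mem_cons, List.not_mem_nil, or_false] at hp ⊢
            rcases hp with rfl | rfl | rfl | rfl <;> simp
        rw [h2, add_zero] at h1
        have h3 := hκ1 x y w hs
        simp only [d1] at h1 h3 ⊢
        linarith
      · intro x hx y hy hxy
        have hbd : ∀ u : Z, (x, u) ∈ bdP L a b ∧ (y, u) ∈ bdP L a b :=
          fun u => ⟨Or.inl ⟨hx, mem_univ _⟩, Or.inl ⟨hy, mem_univ _⟩⟩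
        have hyx : dist y x < ε := by rwa [dist_comm]
        have hsm : ∀ l : List (K × Z),
            (∀ p ∈ l, (p.1 = x ∨ p.1 = y) ∧ (p.2 = z ∨ p.2 = z')) → Sm ε l := by
          intro l hl p hp q hq
          obtain ⟨h2, h3⟩ := hl p hp
          obtain ⟨h4, h5⟩ := hl q hq
          rw [Prod.dist_eq]
          refine max_lt ?_ ?_
          · rcases h2 with h2 | h2 <;> rcases h4 with h4 | h4 <;> rw [h2, h4]
            · rw [dist_self]
              exact hε
            · exact hxy
            · exact hyx
            · rw [dist_self]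
              exact hε
          · rcases h3 with h3 | h3 <;> rcases h5 with h5 | h5 <;> rw [h3, h5]
            · rw [dist_self]
              exact hε
            · exact hzz'
            · exact hz'z
            · rw [dist_self]
              exact hε
        have h1 : ψ (x, z) (x, z') (y, z') = 0 := by
          refine hb _ (hbd z).1 _ (hbd z').1 _ (hbd z').2 (hsm _ ?_)
          intro p hp
          simp only [List.mem_cons, List.not_mem_nil, or_false] at hp
          rcases hp with rfl | rfl | rfl <;> simp
        have h2 : ψ (x, z) (y, z) (y, z') = 0 := by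
          refine hb _ (hbd z).1 _ (hbd z).2 _ (hbd z').2 (hsm _ ?_)
          intro p hp
          simp only [List.mem_cons, List.not_mem_nil, or_false] at hp
          rcases hp with rfl | rfl | rfl <;> simp
        have h3 : d1 (cc L f) x x y = 0 := by
          rw [d1, hcc0 x]
          ring
        have h4 : d1 (cc L f) x y y = 0 := by
          rw [d1, hcc0 y]
          ring
        have h5 := hκ2 x hx y hy hxy
        simp only [pr2, hζ, vv, h1, h2, h3, h4, h5]
        ring
  obtain ⟨κ, hκ1, hκ2⟩ := key b (VNZ.chain a b hsep ε hε)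
  apply hext
  refine hEXC K L f hL hf hf0 (fun x y => cc L f x y - κ x y) ε hε ?_ ?_
  · intro x y z hs
    have h1 := hκ1 x y z hs
    have h2 : ψ (x, b) (y, b) (z, b) = 0 := by
      refine hb _ ?_ _ ?_ _ ?_ ?_
      · exact Or.inr ⟨mem_univ _, Or.inr rfl⟩
      · exact Or.inr ⟨mem_univ _, Or.inr rfl⟩
      · exact Or.inr ⟨mem_univ _, Or.inr rfl⟩
      · intro p hp q hq
        have hp' : p.2 = b ∧ p.1 ∈ [x, y, z] := by
          simp only [List.mem_cons, List.not_mem_nil, or_false] at hp ⊢
          rcases hp with rfl | rfl | rfl <;> simp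
        have hq' : q.2 = b ∧ q.1 ∈ [x, y, z] := by
          simp only [List.mem_cons, List.not_mem_nil, or_false] at hq ⊢
          rcases hq with rfl | rfl | rfl <;> simp
        rw [Prod.dist_eq, hp'.1, hq'.1, dist_self]
        exact max_lt (hs _ hp'.2 _ hq'.2) hε
    have h3 : chi b ρ b = 1 := by
      rw [chi, if_pos]
      rw [dist_self]
      exact hρ
    simp only [hζ, vv, h2, h3, max_self, mul_one, sub_zero] at h1
    simp only [d1] at h1 ⊢
    linarith
  · intro x hx y hy hxy
    have h1 := hκ2 x hx y hy hxy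
    simp only [h1, sub_zero]

end BBP
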