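import Pool.Agent.BBP.StmtsA

/-!
# BBP, module VZE: the cochain vanishes on the boundary of the product
-/

set_option autoImplicit false

namespace BBP

open Set Topology CTO

namespace VZE

theorem chi_zero {Z : Type} [MetricSpace Z] {a b z : Z} {ρ : ℝ} (h : 2 * ρ ≤ dist a b)
    (hz : dist z a < ρ) : chi b ρ z = 0 := by
  unfold chi
  rw [if_neg]
  intro h1
  have h2 : dist a b ≤ dist z a + dist z b := by
    rw [dist_comm z a]
    exact dist_triangle a z b
  linarith

theorem chi_one {Z : Type} [MetricSpace Z] {b z : Z} {ρ : ℝ} (hz : dist z b < ρ) : chi b ρ z = 1 := by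
  unfold chi
  rw [if_pos hz]

theorem dist_fst {K Z : Type} [MetricSpace K] [MetricSpace Z] (p q : K × Z) :
    dist p.1 q.1 ≤ dist p q := by
  rw [Prod.dist_eq]
  exact le_max_left _ _

theorem dist_snd {K Z : Type} [MetricSpace K] [MetricSpace Z] (p q : K × Z) :
    dist p.2 q.2 ≤ dist p q := by
  rw [Prod.dist_eq]
  exact le_max_right _ _

theorem sm_fst {K Z : Type} [MetricSpace K] [MetricSpace Z] {ε ε' : ℝ} {l : List (K × Z)}
    (h : Sm ε l) (he : ε ≤ ε') (l' : List (K × Z)) (hl : ∀ x ∈ l', x ∈ l) :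
    Sm ε' (l'.map Prod.fst) := by
  intro x hx y hy
  obtain ⟨p, hp, rfl⟩ := List.mem_map.1 hx
  obtain ⟨q, hq, rfl⟩ := List.mem_map.1 hy
  exact ((dist_fst p q).trans_lt (h p (hl p hp) q (hl q hq))).trans_le he

end VZE

open VZE in
theorem t_VZE : M_VZE := by
  intro hCOC K Z _ _ _ _ L f a b ρ hL hf hne hρ hab
  obtain ⟨-, ⟨ε1, hε1, hc⟩, -⟩ := hCOC K L f hL hf hne
  refine ⟨min ε1 ρ, lt_min hε1 hρ, ?_⟩
  intro p hp q hq r hr s hs hsm
  have hbd : ∀ x ∈ [p, q, r, s], x ∈ bdP L a b := by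
    intro x hx
    simp only [List.mem_cons, List.not_mem_nil, or_false] at hx
    rcases hx with rfl | rfl | rfl | rfl
    · exact hp
    · exact hq
    · exact hr
    · exact hs
  have mp : p ∈ [p, q, r, s] := by simp
  have mq : q ∈ [p, q, r, s] := by simp
  have mr : r ∈ [p, q, r, s] := by simp
  have ms : s ∈ [p, q, r, s] := by simp
  by_cases ha : ∃ y ∈ [p, q, r, s], y.2 = a
  · obtain ⟨y, hy, hya⟩ := ha
    have h0 : ∀ x ∈ [p, q, r, s], chi b ρ x.2 = 0 := by
      intro x hx
      apply chi_zero hab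
      rw [← hya]
      exact ((dist_snd x y).trans_lt (hsm x hx y hy)).trans_le (min_le_right _ _)
    simp only [d2, vv, h0 p mp, h0 q mq, h0 r mr, h0 s ms, max_self, mul_zero]
    norm_num
  by_cases hb : ∃ y ∈ [p, q, r, s], y.2 = b
  · obtain ⟨y, hy, hyb⟩ := hb
    have h1 : ∀ x ∈ [p, q, r, s], chi b ρ x.2 = 1 := by
      intro x hx
      apply chi_one
      rw [← hyb]
      exact ((dist_snd x y).trans_lt (hsm x hx y hy)).trans_le (min_le_right _ _)
    simp only [d2, vv, h1 p mp, h1 q mq, h1 r mr, h1 s ms, max_self, mul_one]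
    exact d2_d1 (cc L f) p.1 q.1 r.1 s.1
  · have hin : ∀ x ∈ [p, q, r, s], x.1 ∈ L := by
      intro x hx
      rcases hbd x hx with h | h
      · exact h.1
      · exfalso
        rcases h.2 with h2 | h2
        · exact ha ⟨x, hx, h2⟩
        · exact hb ⟨x, hx, h2⟩
    have hz : ∀ x ∈ [p, q, r, s], ∀ y ∈ [p, q, r, s], ∀ z ∈ [p, q, r, s],
        vv L f (chi b ρ) x y z = 0 := by
      intro x hx y hy z hz
      have h1 : Sm ε1 [x.1, y.1, z.1] := by
        refine sm_fst hsm (min_le_left _ _) [x, y, z] ?_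
        intro w hw
        simp only [List.mem_cons, List.not_mem_nil, or_false] at hw
        rcases hw with rfl | rfl | rfl
        · exact hx
        · exact hy
        · exact hz
      have h2 := hc x.1 (hin x hx) y.1 (hin y hy) z.1 (hin z hz) h1
      rw [vv, h2, zero_mul]
    simp only [d2, hz q mq r mr s ms, hz p mp r mr s ms, hz p mp q mq s ms, hz p mp q mq r mr]
    norm_num

end BBP
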