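import Pool.Agent.BBP.StmtsA

/-!
# MP_6eac38_gt, third part, module ZMN: a minimal connection
-/

set_option autoImplicit false

namespace BBP

open Set Topology CTO

namespace ZMN

/-- the family of the connections between `a` and `b` -/
def Fam {Z : Type} [TopologicalSpace Z] (a b : Z) : Set (Set Z) :=
  {E | IsClosed E ∧ a ∈ E ∧ b ∈ E ∧ ¬ Sepd E a b}

/-- the intersection of a chain of connections is a connection -/
theorem chain_inf {Z : Type} [MetricSpace Z] [CompactSpace Z] {a b : Z}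
    (c : Set (Set Z)) (hc : c ⊆ Fam a b) (hch : IsChain (· ⊆ ·) c) (hne : c.Nonempty) :
    ¬ Sepd (⋂₀ c) a b := by
  rintro ⟨A, B, hA, hB, hAB, hU, ha, hb⟩
  obtain ⟨U, V, hUo, hVo, hAU, hBV, hUV⟩ := normal_separation hA hB hAB
  have hcl : IsClosed (U ∪ V)ᶜ := (hUo.union hVo).isClosed_compl
  have : Nonempty c := hne.to_subtype
  obtain ⟨K, hK⟩ := hcl.isCompact.elim_directed_family_closed (fun K : c => (K : Set Z))
    (fun K => (hc K.2).1) (by
      rw [← sInter_eq_iInter, ← hU]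
      ext x
      simp only [mem_inter_iff, mem_compl_iff, mem_union, mem_empty_iff_false, iff_false]
      rintro ⟨h1, h2 | h2⟩
      · exact h1 (Or.inl (hAU h2))
      · exact h1 (Or.inr (hBV h2))) (by
      intro A B
      rcases hch.total A.2 B.2 with h | h
      · exact ⟨A, subset_rfl, h⟩
      · exact ⟨B, h, subset_rfl⟩)
  have hKsub : (K : Set Z) ⊆ U ∪ V := by
    intro x hx
    by_contra hcon
    have : x ∈ (U ∪ V)ᶜ ∩ (K : Set Z) := ⟨hcon, hx⟩
    rw [hK] at this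
    exact this
  have hd : ∀ x, x ∈ U → x ∈ V → False := fun x h1 h2 => (Set.disjoint_left.1 hUV) h1 h2
  refine (hc K.2).2.2.2 ⟨(K : Set Z) \ V, (K : Set Z) \ U, (hc K.2).1.sdiff hVo,
    (hc K.2).1.sdiff hUo, ?_, ?_, ?_, ?_⟩
  · rw [Set.disjoint_left]
    rintro x ⟨h1, h2⟩ ⟨-, h3⟩
    rcases hKsub h1 with h | h
    · exact h3 h
    · exact h2 h
  · ext x
    constructor
    · rintro (h | h)
      · exact h.1
      · exact h.1
    · intro h
      rcases hKsub h with h1 | h1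
      · exact Or.inl ⟨h, fun h2 => hd x h1 h2⟩
      · exact Or.inr ⟨h, fun h2 => hd x h2 h1⟩
  · exact ⟨(hc K.2).2.1, fun h2 => hd a (hAU ha) h2⟩
  · exact ⟨(hc K.2).2.2.1, fun h2 => hd b h2 (hBV hb)⟩

end ZMN

open ZMN in
theorem t_ZMN : S_ZMN := by
  intro Z _ _ a b hab hS
  obtain ⟨E, -, hmin⟩ := zorn_superset_nonempty (Fam a b) (fun c hc hch hne =>
      ⟨⋂₀ c, ⟨isClosed_sInter fun A hA => (hc hA).1,
        mem_sInter.2 fun A hA => (hc hA).2.1, mem_sInter.2 fun A hA => (hc hA).2.2.1,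
        chain_inf c hc hch hne⟩,
        fun A hA => sInter_subset_of_mem hA⟩) univ ⟨isClosed_univ, mem_univ _, mem_univ _, hS⟩
  obtain ⟨h1, h2, h3, h4⟩ := hmin.prop
  refine ⟨E, ⟨a, h2⟩, ⟨b, h3⟩, h1, ⟨?_, ?_, ?_⟩⟩
  · intro h
    exact hab (congrArg Subtype.val h)
  · rintro ⟨A, B, hA, hB, hAB, hU, ha, hb⟩
    have hemb : IsClosedEmbedding (Subtype.val : E → Z) := h1.isClosedEmbedding_subtypeVal
    refine h4 ⟨Subtype.val '' A, Subtype.val '' B, hemb.isClosedMap _ hA,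
      hemb.isClosedMap _ hB, ?_, ?_, ⟨_, ha, rfl⟩, ⟨_, hb, rfl⟩⟩
    · exact (Set.disjoint_image_iff Subtype.val_injective).2 hAB
    · rw [← Set.image_union, hU, Set.image_univ, Subtype.range_coe]
  · intro O hO hOne haO hbO
    obtain ⟨O', hO', rfl⟩ := isOpen_induced_iff.1 hO
    obtain ⟨x, hx⟩ := hOne
    have hsep : Sepd (E \ O') a b := by
      by_contra hcon
      have hmem : E \ O' ∈ Fam a b := ⟨h1.sdiff hO', ⟨h2, haO⟩, ⟨h3, hbO⟩, hcon⟩
      have h5 := hmin.le_of_le hmem sdiff_subset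
      exact (h5 x.2).2 hx
    obtain ⟨A, B, hA, hB, hAB, hU, ha, hb⟩ := hsep
    refine ⟨Subtype.val ⁻¹' A, Subtype.val ⁻¹' B, hA.preimage continuous_subtype_val,
      hB.preimage continuous_subtype_val, hAB.preimage _, ?_, ha, hb⟩
    rw [← Set.preimage_union, hU]
    ext y
    constructor
    · intro hy
      exact hy.2
    · intro hy
      exact ⟨y.2, hy⟩

end BBP
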