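import Pool.Agent.BBP.StmtsB

/-!
# BBP, block B: accessible points (module ACC)
-/

set_option autoImplicit false

namespace BBP

open Set Topology

namespace ACC

theorem part1 (Y : Type) [MetricSpace Y] (hY : LocallyPathConnectedSpace Y) (U C V : Set Y)
    (hU : IsOpen U) (hC : IsClosed C) (hCU : C ⊆ U) (hV : Clo U C V) (p : Y) (hp : p ∈ C)
    (hpV : p ∈ closure V) (N : Set Y) (hN : IsOpen N) (hpN : p ∈ N) :
    ∃ p' ∈ C ∩ N, Accs (V ∩ N) p' := by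
  obtain ⟨hVo, -, hVU, hcl⟩ := hV
  have hNU : N ∩ U ∈ 𝓝 p := (hN.inter hU).mem_nhds ⟨hpN, hCU hp⟩
  obtain ⟨N', ⟨hN'1, hN'2⟩, hN'3⟩ := (path_connected_basis p).mem_iff.mp hNU
  obtain ⟨v, hvN, hvV⟩ := mem_closure_iff_nhds.mp hpV N' hN'1
  obtain ⟨γ, hγ⟩ := hN'2.joinedIn v hvN p (mem_of_mem_nhds hN'1)
  -- the first time in `C`
  set g : ℝ → Y := fun t => γ.extend t with hg
  have hgc : Continuous g := γ.extend.continuous
  have hg0 : g 0 = v := γ.extend_zero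
  have hg1 : g 1 = p := γ.extend_one
  have hgN : ∀ t : ℝ, t ∈ Icc (0 : ℝ) 1 → g t ∈ N' := by
    intro t ht
    have h1 : g t = γ ⟨t, ht⟩ := γ.extend_apply ht
    rw [h1]
    exact hγ _
  set S : Set ℝ := Icc (0 : ℝ) 1 ∩ g ⁻¹' C with hS
  have hScl : IsClosed S := isClosed_Icc.inter (hC.preimage hgc)
  have hS1 : (1 : ℝ) ∈ S := ⟨by simp, by show g 1 ∈ C; rw [hg1]; exact hp⟩
  have hSb : BddBelow S := ⟨0, fun t ht => ht.1.1⟩
  have ht0 : sInf S ∈ S := hScl.csInf_mem ⟨1, hS1⟩ hSb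
  set t0 := sInf S with ht0d
  have hlt : ∀ t : ℝ, 0 ≤ t → t < t0 → g t ∉ C := by
    intro t h0 h1 h2
    have h3 : t ∈ S := ⟨⟨h0, (h1.trans_le ht0.1.2).le⟩, h2⟩
    exact absurd (csInf_le hSb h3) (not_le.mpr h1)
  have ht0pos : 0 < t0 := by
    rcases ht0.1.1.lt_or_eq with h | h
    · exact h
    · exfalso
      have h1 : g 0 ∈ C := by
        rw [h]
        exact ht0.2
      rw [hg0] at h1
      exact (hVU hvV).2 h1
  have hV' : g '' Ico 0 t0 ⊆ V := by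
    have hcon : IsPreconnected (g '' Ico 0 t0) :=
      isPreconnected_Ico.image g hgc.continuousOn
    have hne : (g '' Ico 0 t0 ∩ V).Nonempty :=
      ⟨g 0, ⟨0, ⟨le_refl _, ht0pos⟩, rfl⟩, by rw [hg0]; exact hvV⟩
    have hsub : g '' Ico 0 t0 ⊆ V ∪ (closure V)ᶜ := by
      rintro _ ⟨t, ht, rfl⟩
      by_cases h1 : g t ∈ closure V
      · left
        have h2 : g t ∈ N' := hgN t ⟨ht.1, (ht.2.trans_le ht0.1.2).le⟩
        rcases hcl ⟨h1, (hN'3 h2).2⟩ with h3 | h3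
        · exact h3
        · exact absurd h3 (hlt t ht.1 ht.2)
      · right
        exact h1
    exact hcon.subset_left_of_subset_union hVo isClosed_closure.isOpen_compl
      (disjoint_compl_right_iff_subset.mpr subset_closure) hsub hne
  refine ⟨g t0, ⟨ht0.2, (hN'3 (hgN t0 ht0.1)).1⟩, fun t => g (t * t0), ?_, ?_, ?_⟩
  · exact (hgc.comp (continuous_id.mul continuous_const)).continuousOn
  · show g (1 * t0) = g t0
    rw [one_mul]
  · intro t ht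
    have h1 : t * t0 < t0 := by
      have := mul_lt_mul_of_pos_right ht.2 ht0pos
      rwa [one_mul] at this
    have h2 : 0 ≤ t * t0 := mul_nonneg ht.1 ht0pos.le
    exact ⟨hV' ⟨t * t0, ⟨h2, h1⟩, rfl⟩,
      (hN'3 (hgN (t * t0) ⟨h2, (h1.trans_le ht0.1.2).le⟩)).1⟩

theorem joined {Y : Type} [MetricSpace Y] {V W : Set Y} {p : Y} (h : Accs V p) (hVW : V ⊆ W)
    (hp : p ∈ W) : ∃ v ∈ V, JoinedIn W v p := by
  obtain ⟨α, h1, h2, h3⟩ := h
  refine ⟨α 0, h3 0 (by simp), JoinedIn.ofLine h1 rfl h2 ?_⟩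
  rintro _ ⟨t, ht, rfl⟩
  rcases ht.2.lt_or_eq with h4 | h4
  · exact hVW (h3 t ⟨ht.1, h4⟩)
  · rw [h4, h2]
    exact hp

end ACC

open ACC in
theorem t_ACC : M_ACC := by
  intro hA
  refine ⟨fun Y _ hY U C V hU hC hCU hV p hp hpV N hN hpN =>
    part1 Y hY U C V hU hC hCU hV p hp hpV N hN hpN, ?_⟩
  intro Y _ hY V p q hVo hVc hpq hp hq
  have hsub : V ⊆ V ∪ {p, q} := subset_union_left
  obtain ⟨v, hv, h1⟩ := joined hp hsub (by simp)
  obtain ⟨w, hw, h2⟩ := joined hq hsub (by simp)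
  have h3 : JoinedIn V v w :=
    ((hVo.isConnected_iff_isPathConnected).mp hVc).joinedIn v hv w hw
  obtain ⟨A, hAs, hArc⟩ := hA.2 Y (V ∪ {p, q}) p q ((h1.symm.trans (h3.mono hsub)).trans h2) hpq
  refine ⟨A, hArc, ?_⟩
  rintro x ⟨hx1, hx2⟩
  rcases hAs hx1 with h4 | h4
  · exact h4
  · exact absurd h4 hx2

end BBP
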