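import Pool.Agent.BBP.StmtsB

/-!
# MP_6eac38_gt, module CMP: a minimal membrane
-/

set_option autoImplicit false

namespace BBP

open Set Topology

namespace CMP

/-- Tietze's theorem for `ContinuousOn` -/
theorem tietze {X : Type} [MetricSpace X] {K : Set X} (hK : IsClosed K) {F : X → ℂ}
    (hF : ContinuousOn F K) : ∃ G : X → ℂ, Continuous G ∧ EqOn G F K := by
  haveI : TietzeExtension.{0, 0} ℂ := TietzeExtension.of_tvs ℝ
  obtain ⟨g, hg⟩ := ContinuousMap.exists_restrict_eq hK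
    (⟨K.restrict F, continuousOn_iff_continuous_restrict.1 hF⟩ : C(K, ℂ))
  refine ⟨g, g.continuous, fun x hx => ?_⟩
  have h := congrArg (fun φ : C(K, ℂ) => φ ⟨x, hx⟩) hg
  exact h

theorem chain_inf {X : Type} [MetricSpace X] {L K0 : Set X} (hK0 : IsCompact K0) {f : X → ℂ}
    (c : Set (Set X)) (hc : ∀ K ∈ c, IsClosed K ∧ L ⊆ K ∧ K ⊆ K0 ∧ ¬ ExtC L K f)
    (hch : IsChain (· ⊆ ·) c) (hne : c.Nonempty) : ¬ ExtC L (⋂₀ c) f := by
  rintro ⟨F, hF1, hF2, hF3⟩
  have hcl : IsClosed (⋂₀ c) := isClosed_sInter fun K hK => (hc K hK).1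
  obtain ⟨G, hG1, hG2⟩ := tietze hcl hF1
  have hU : IsClosed {x | G x = 0} := isClosed_eq hG1 continuous_const
  have hUK : IsCompact ({x | G x = 0} ∩ K0) := hK0.inter_left hU
  haveI : Nonempty c := hne.to_subtype
  obtain ⟨K, hK⟩ := hUK.elim_directed_family_closed (fun K : c => (K : Set X))
    (fun K => (hc K K.2).1) (by
      rw [← sInter_eq_iInter]
      ext x
      simp only [mem_inter_iff, mem_setOf_eq, mem_empty_iff_false, iff_false, not_and]
      intro h1 h2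
      exact hF2 x h2 (by rw [← hG2 h2]; exact h1.1)) (by
      intro A B
      rcases hch.total A.2 B.2 with h | h
      · exact ⟨A, subset_rfl, h⟩
      · exact ⟨B, h, subset_rfl⟩)
  refine (hc K K.2).2.2.2 ⟨G, hG1.continuousOn, ?_, ?_⟩
  · intro x hx h0
    have : x ∈ ({x | G x = 0} ∩ K0 ∩ (K : Set X) : Set X) := ⟨⟨h0, (hc K K.2).2.2.1 hx⟩, hx⟩
    rw [hK] at this
    exact this
  · intro x hx
    rw [hG2 (mem_sInter.2 fun K' hK' => (hc K' hK').2.1 hx)]
    exact hF3 hx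

open Classical in
/-- two extensions on closed sets with intersection `L` fit together -/
theorem glue {X : Type} [MetricSpace X] {L A B : Set X} {f : X → ℂ} (hA : IsClosed A)
    (hB : IsClosed B) (hLA : L ⊆ A) (hAB : A ∩ B ⊆ L) (hLB : L ⊆ B) (h1 : ExtC L A f)
    (h2 : ExtC L B f) : ExtC L (A ∪ B) f := by
  obtain ⟨F, hF1, hF2, hF3⟩ := h1
  obtain ⟨G, hG1, hG2, hG3⟩ := h2
  have e1 : EqOn (fun x => if x ∈ A then F x else G x) F A := fun x hx => by simp [hx]
  have e2 : EqOn (fun x => if x ∈ A then F x else G x) G B := fun x hx => by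
    by_cases h : x ∈ A
    · have hxL := hAB ⟨h, hx⟩
      simp only [h, if_true]
      rw [hF3 hxL, hG3 hxL]
    · simp [h]
  refine ⟨fun x => if x ∈ A then F x else G x, ?_, ?_, ?_⟩
  · exact (hF1.congr e1).union_of_isClosed (hG1.congr e2) hA hB
  · rintro x (hx | hx)
    · rw [e1 hx]
      exact hF2 x hx
    · rw [e2 hx]
      exact hG2 x hx
  · intro x hx
    rw [e1 (hLA hx)]
    exact hF3 hx

end CMP

open CMP in
theorem t_CMP : S_CMP := by
  intro Y _ hY L K f hL hK hLK hf hf0 hE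
  obtain ⟨K', hK'K, hmin⟩ := zorn_superset_nonempty
    {K' : Set Y | IsClosed K' ∧ L ⊆ K' ∧ K' ⊆ K ∧ ¬ ExtC L K' f} (fun c hc hch hne =>
      ⟨⋂₀ c, ⟨isClosed_sInter fun A hA => (hc hA).1,
        subset_sInter fun A hA => (hc hA).2.1,
        (sInter_subset_of_mem hne.some_mem).trans (hc hne.some_mem).2.2.1,
        chain_inf hK c (fun A hA => hc hA) hch hne⟩,
        fun A hA => sInter_subset_of_mem hA⟩) K ⟨hK.isClosed, hLK, subset_rfl, hE⟩
  obtain ⟨h1, h2, h2', h3⟩ := hmin.prop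
  have hKc : IsCompact K' := hK.of_isClosed_subset h1 h2'
  have hred : ∀ W : Set Y, IsOpen W → (W ∩ (K' \ L)).Nonempty → ExtC L ((K' \ W) ∪ L) f := by
    intro W hW hxW
    obtain ⟨x, hx1, hx2, hx3⟩ := hxW
    by_contra hcon
    have hsub : (K' \ W) ∪ L ⊆ K' := union_subset diff_subset h2
    have hmem : (K' \ W) ∪ L ∈ {K' : Set Y | IsClosed K' ∧ L ⊆ K' ∧ K' ⊆ K ∧ ¬ ExtC L K' f} :=
      ⟨(h1.sdiff hW).union hL.isClosed, subset_union_right, hsub.trans h2', hcon⟩
    have h4 := hmin.le_of_le hmem hsub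
    rcases h4 hx2 with h5 | h5
    · exact h5.2 hx1
    · exact hx3 h5
  have hop : IsOpen (K' \ L) := hY.om L K' f hL hKc h2 hf hf0 h3 hred
  have hun : L ∪ (K' \ L) = K' := union_diff_cancel h2
  refine ⟨K' \ L, diff_subset.trans h2', ⟨hf, hf0, hL, hop, ⟨?_, ?_⟩, disjoint_sdiff_left, ?_,
    ?_, ?_⟩⟩
  · by_contra hcon
    rw [not_nonempty_iff_eq_empty] at hcon
    rw [hcon, union_empty] at hun
    apply h3
    rw [← hun]
    exact ⟨f, hf, hf0, fun _ _ => rfl⟩
  · rintro U V hU hV hUV ⟨x, hx1, hx2⟩ ⟨y, hy1, hy2⟩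
    by_contra hcon
    rw [not_nonempty_iff_eq_empty] at hcon
    have hdis : ∀ z ∈ K' \ L, z ∈ U → z ∈ V → False := fun z hz hzU hzV => by
      have : z ∈ (K' \ L) ∩ (U ∩ V) := ⟨hz, hzU, hzV⟩
      rw [hcon] at this
      exact this
    have e1 := hred ((K' \ L) ∩ U) (hop.inter hU) ⟨x, ⟨hx1, hx2⟩, hx1⟩
    have e2 := hred ((K' \ L) ∩ V) (hop.inter hV) ⟨y, ⟨hy1, hy2⟩, hy1⟩
    have e3 := glue ((h1.sdiff (hop.inter hU)).union hL.isClosed)
      ((h1.sdiff (hop.inter hV)).union hL.isClosed) subset_union_right (by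
        rintro z ⟨hz1 | hz1, hz2 | hz2⟩
        · by_contra hzL
          rcases hUV ⟨hz1.1, hzL⟩ with h | h
          · exact hz1.2 ⟨⟨hz1.1, hzL⟩, h⟩
          · exact hz2.2 ⟨⟨hz1.1, hzL⟩, h⟩
        · exact hz2
        · exact hz1
        · exact hz1) subset_union_right e1 e2
    apply h3
    have e4 : K' \ ((K' \ L) ∩ U) ∪ L ∪ (K' \ ((K' \ L) ∩ V) ∪ L) = K' := by
      apply subset_antisymm
      · exact union_subset (union_subset diff_subset h2) (union_subset diff_subset h2)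
      · intro z hz
        by_cases h : z ∈ (K' \ L) ∩ U
        · right
          left
          exact ⟨hz, fun h' => hdis z h.1 h.2 h'.2⟩
        · left
          left
          exact ⟨hz, h⟩
    rwa [e4] at e3
  · rw [union_comm, hun]
    exact h1.closure_subset_iff.2 diff_subset
  · rwa [hun]
  · rwa [hun]

end BBP
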