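import Pool.Agent.BBP.StmtsB

/-!
# MP_6eac38_gt, BBP: curves in a contractible set are contractible
-/

set_option autoImplicit false

namespace BBP

open Set Topology

theorem t_CTH : S_CTH := by
  intro Y _ T C W H x hH h0 h1 hCW hT γ hγ hrange
  have hmem : ∀ t, γ t ∈ C := fun t => hrange ▸ mem_range_self t
  have hγ1 : γ 1 = γ 0 := by
    have h := hγ.2.1 0
    rwa [zero_add] at h
  refine ⟨fun p => H (γ p.1, p.2), ?_, ?_, ?_, ?_, ?_⟩
  · refine hH.comp (((hγ.1.comp continuous_fst).prodMk continuous_snd).continuousOn) ?_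
    intro p hp
    exact ⟨hCW (hmem p.1), hp.2⟩
  · intro t _
    exact h0 _ (hCW (hmem t))
  · intro s _
    change H (γ 0, s) = H (γ 1, s)
    rw [hγ1]
  · intro t _
    exact (h1 _ (hCW (hmem t))).trans (h1 _ (hCW (hmem 0))).symm
  · intro q hq
    exact hT _ (hmem q.1) _ hq.2

end BBP
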