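import Pool.Agent.BBP.StmtsB

/-!
# BBP, module CTR: a contractible simple closed curve has no extension of a nonzero power
-/

set_option autoImplicit false

namespace BBP

open Set Topology
open Pool.Agent.LIX (CLog)

namespace CTR

/-- a continuous function `g` with `exp g = 1` is constant on an interval -/
theorem const_of_exp {g : ℝ → ℂ} (hg : ContinuousOn g (Icc 0 1))
    (he : ∀ x ∈ Icc (0 : ℝ) 1, Complex.exp (g x) = 1) :
    ∀ x ∈ Icc (0 : ℝ) 1, ∀ y ∈ Icc (0 : ℝ) 1, g x = g y := by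
  have hn : ∀ x ∈ Icc (0 : ℝ) 1, ∃ n : ℤ, g x = n * (2 * Real.pi * Complex.I) :=
    fun x hx => Complex.exp_eq_one_iff.1 (he x hx)
  choose! n hn using hn
  have hpi : (0 : ℝ) < 2 * Real.pi := by positivity
  have hr : ∀ x ∈ Icc (0 : ℝ) 1, (g x).im / (2 * Real.pi) = n x := by
    intro x hx
    rw [hn x hx]
    have : ((n x : ℂ) * (2 * Real.pi * Complex.I)).im = n x * (2 * Real.pi) := by
      simp
    rw [this]
    field_simp
  have hc : ContinuousOn (fun x => (g x).im / (2 * Real.pi)) (Icc 0 1) :=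
    (Complex.continuous_im.comp_continuousOn hg).div_const _
  have key : ∀ x ∈ Icc (0 : ℝ) 1, ∀ y ∈ Icc (0 : ℝ) 1, ¬ n x < n y := by
    intro x hx y hy hlt
    have h1 := isPreconnected_Icc.intermediate_value hx hy hc
    have h2 : ((n x : ℝ) + 1 / 2) ∈ Icc ((g x).im / (2 * Real.pi)) ((g y).im / (2 * Real.pi)) := by
      rw [hr x hx, hr y hy]
      have h3 : (n x : ℝ) + 1 ≤ n y := by exact_mod_cast hlt
      constructor <;> linarith
    obtain ⟨z, hz, hz2⟩ := h1 h2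
    simp only at hz2
    rw [hr z hz] at hz2
    have h4 : (n z : ℝ) * 2 = n x * 2 + 1 := by linarith
    have h5 : n z * 2 = n x * 2 + 1 := by exact_mod_cast h4
    omega
  intro x hx y hy
  have h : n x = n y := le_antisymm (not_lt.1 (key y hy x hx)) (not_lt.1 (key x hx y hy))
  rw [hn x hx, hn y hy, h]

end CTR

open CTR in
theorem t_CTR : S_CTR := by
  rintro Y _ T C f n ⟨γ, hγ, hrγ, hfγ⟩ hcon hn ⟨F, hF, hF0, hFC⟩
  obtain ⟨c, hc, hc0, hcs, hc1, hcT⟩ := hcon γ hγ hrγ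
  have hK : IsCompact (Icc (0 : ℝ) 1 ×ˢ Icc (0 : ℝ) 1) := isCompact_Icc.prod isCompact_Icc
  have hKc : Convex ℝ (Icc (0 : ℝ) 1 ×ˢ Icc (0 : ℝ) 1) := (convex_Icc 0 1).prod (convex_Icc 0 1)
  obtain ⟨l, hl, hle⟩ := Pool.Agent.LIX.cLog_convex (f := fun q => F (c q)) hK hKc
    (hF.comp hc fun q hq => hcT q hq) (fun q hq => hF0 _ (hcT q hq))
  replace hle : ∀ q ∈ Icc (0 : ℝ) 1 ×ˢ Icc (0 : ℝ) 1, Complex.exp (l q) = F (c q) := hle
  have h0 : (0 : ℝ) ∈ Icc (0 : ℝ) 1 := by simp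
  have h1 : (1 : ℝ) ∈ Icc (0 : ℝ) 1 := by simp
  have hv : ∀ t ∈ Icc (0 : ℝ) 1, ContinuousOn (fun s => l (t, s)) (Icc 0 1) := fun t ht =>
    hl.comp (by fun_prop) fun s hs => ⟨ht, hs⟩
  have hh : ∀ s ∈ Icc (0 : ℝ) 1, ContinuousOn (fun t => l (t, s)) (Icc 0 1) := fun s hs =>
    hl.comp (by fun_prop) fun t ht => ⟨ht, hs⟩
  -- the difference of the two sides
  have e1 := const_of_exp (g := fun s => l (1, s) - l (0, s)) ((hv 1 h1).sub (hv 0 h0))
    (fun s hs => by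
      rw [Complex.exp_sub, hle _ ⟨h1, hs⟩, hle _ ⟨h0, hs⟩, hcs s hs]
      exact div_self (hF0 _ (hcT _ ⟨h1, hs⟩))) 0 h0 1 h1
  -- the end
  have e2 := const_of_exp (g := fun t => l (t, 1) - l (0, 1)) ((hh 1 h1).sub continuousOn_const)
    (fun t ht => by
      rw [Complex.exp_sub, hle _ ⟨ht, h1⟩, hle _ ⟨h0, h1⟩, hc1 t ht]
      exact div_self (hF0 _ (hcT _ ⟨h0, h1⟩))) 0 h0 1 h1
  -- the beginning
  have e3 := const_of_exp (g := fun t => l (t, 0) - n * (2 * Real.pi * t * Complex.I))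
    ((hh 0 h0).sub (by fun_prop))
    (fun t ht => by
      rw [Complex.exp_sub, hle _ ⟨ht, h0⟩, hc0 t ht, Complex.exp_int_mul, ← hfγ t,
        hFC _ (hrγ ▸ mem_range_self t)]
      refine div_self ?_
      rw [hfγ t]
      exact zpow_ne_zero _ (Complex.exp_ne_zero _)) 0 h0 1 h1
  simp only [Complex.ofReal_zero, Complex.ofReal_one] at e1 e2 e3
  have e4 : (n : ℂ) * (2 * Real.pi * Complex.I) = 0 := by
    linear_combination e3 + e1 - e2
  rcases mul_eq_zero.1 e4 with h | h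
  · exact hn (by exact_mod_cast h)
  · exact Complex.two_pi_I_ne_zero h

end BBP
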