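import Pool.Agent.BBP.StmtsB

/-!
# BBP, block B, module DEG: degrees on simple closed curves
-/

set_option autoImplicit false

namespace BBP

open Set Topology
open Pool.Agent.LIX (CLog)

namespace DEG

theorem const_aux {ψ : ℝ → ℝ} (hc : ContinuousOn ψ (Icc 0 1))
    (hi : ∀ t ∈ Icc (0 : ℝ) 1, ∃ n : ℤ, ψ t = n) : ¬ ψ 0 < ψ 1 := by
  intro h
  obtain ⟨m, hm⟩ := hi 0 (by simp)
  obtain ⟨n, hn⟩ := hi 1 (by simp)
  have h1 : m < n := by
    rw [hm, hn] at h
    exact_mod_cast h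
  have h2 : (m : ℝ) + 1 ≤ n := by exact_mod_cast h1
  obtain ⟨t, ht, hte⟩ := intermediate_value_Icc zero_le_one hc
    (show (m : ℝ) + 1 / 2 ∈ Icc (ψ 0) (ψ 1) by
      rw [hm, hn]
      constructor <;> linarith)
  obtain ⟨k, hk⟩ := hi t ht
  rw [hk] at hte
  have h3 : ((2 * k : ℤ) : ℝ) = ((2 * m + 1 : ℤ) : ℝ) := by
    push_cast
    linarith
  have h4 : 2 * k = 2 * m + 1 := by exact_mod_cast h3
  omega

/-- a continuous function on `[0, 1]` whose exponential is `1` takes the same values at the ends -/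
theorem const_of_exp {φ : ℝ → ℂ} (hc : ContinuousOn φ (Icc 0 1))
    (he : ∀ t ∈ Icc (0 : ℝ) 1, Complex.exp (φ t) = 1) : φ 1 = φ 0 := by
  have hi : ∀ t ∈ Icc (0 : ℝ) 1, ∃ n : ℤ, φ t = n * (2 * Real.pi * Complex.I) := fun t ht =>
    Complex.exp_eq_one_iff.1 (he t ht)
  have hpi : (2 * Real.pi : ℝ) ≠ 0 := by positivity
  set ψ : ℝ → ℝ := fun t => (φ t).im / (2 * Real.pi) with hψ
  have hψc : ContinuousOn ψ (Icc 0 1) :=
    (Complex.continuous_im.comp_continuousOn hc).div_const _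
  have him : ∀ (t : ℝ) (n : ℤ), φ t = n * (2 * Real.pi * Complex.I) → ψ t = n := by
    intro t n h
    have : (φ t).im = n * (2 * Real.pi) := by
      rw [h]
      simp
    rw [hψ]
    simp only [this]
    field_simp
  have hψi : ∀ t ∈ Icc (0 : ℝ) 1, ∃ n : ℤ, ψ t = n := fun t ht => by
    obtain ⟨n, hn⟩ := hi t ht
    exact ⟨n, him t n hn⟩
  have h1 := const_aux hψc hψi
  have h2 := const_aux (ψ := fun t => -ψ t) hψc.neg fun t ht => by
    obtain ⟨n, hn⟩ := hψi t ht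
    exact ⟨-n, by rw [hn]; push_cast; ring⟩
  obtain ⟨m, hm⟩ := hi 0 (by simp)
  obtain ⟨n, hn⟩ := hi 1 (by simp)
  have h3 := him _ _ hm
  have h4 := him _ _ hn
  have h5 : ψ 0 = ψ 1 := le_antisymm (by linarith) (by linarith)
  rw [h3, h4] at h5
  have h6 : m = n := by exact_mod_cast h5
  rw [hm, hn, h6]

variable {Y : Type} [MetricSpace Y]

theorem exists_icc {γ : ℝ → Y} (hγ : Scp γ) {C : Set Y} (hC : range γ = C) :
    ∀ y ∈ C, ∃ t ∈ Ico (0 : ℝ) 1, γ t = y := by
  intro y hy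
  rw [← hC] at hy
  obtain ⟨t, rfl⟩ := hy
  refine ⟨Int.fract t, ⟨Int.fract_nonneg t, Int.fract_lt_one t⟩, ?_⟩
  have h := hγ.2.1.sub_int_mul_eq (x := t) ⌊t⌋
  rw [mul_one] at h
  exact h

theorem per_one {γ : ℝ → Y} (hγ : Scp γ) : γ 1 = γ 0 := by
  have := hγ.2.1 0
  rwa [zero_add] at this

/-- functions on `[0, 1]` with equal values at the ends descend to the curve -/
theorem descend {γ : ℝ → Y} (hγ : Scp γ) {C : Set Y} (hC : range γ = C) {h : ℝ → ℂ}
    (hc : ContinuousOn h (Icc 0 1)) (h01 : h 1 = h 0) :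
    ∃ H : Y → ℂ, ContinuousOn H C ∧ ∀ t ∈ Icc (0 : ℝ) 1, H (γ t) = h t := by
  classical
  have hex := exists_icc hγ hC
  choose! ρ hρ1 hρ2 using hex
  have hmem : ∀ t, γ t ∈ C := fun t => by
    rw [← hC]
    exact mem_range_self t
  have hval : ∀ t ∈ Icc (0 : ℝ) 1, h (ρ (γ t)) = h t := by
    intro t ht
    rcases ht.2.lt_or_eq with h1 | h1
    · rw [hγ.2.2 (hρ1 _ (hmem t)) ⟨ht.1, h1⟩ (hρ2 _ (hmem t))]
    · subst h1
      rw [h01, per_one hγ, hγ.2.2 (hρ1 _ (hmem 0)) ⟨le_rfl, zero_lt_one⟩ (hρ2 _ (hmem 0))]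
  refine ⟨fun y => h (ρ y), ?_, hval⟩
  let q : Icc (0 : ℝ) 1 → C := fun t => ⟨γ t, hmem t⟩
  have hq : Continuous q := (hγ.1.comp continuous_subtype_val).subtype_mk _
  have hs : Function.Surjective q := by
    rintro ⟨y, hy⟩
    exact ⟨⟨ρ y, Ico_subset_Icc_self (hρ1 y hy)⟩, Subtype.ext (hρ2 y hy)⟩
  have hQ : IsQuotientMap q := hq.isClosedMap.isQuotientMap hq hs
  rw [continuousOn_iff_continuous_domRestrict, hQ.continuous_iff]
  refine (continuousOn_iff_continuous_domRestrict.1 hc).congr fun t => ?_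
  exact (hval t t.2).symm

theorem lift_iff {γ : ℝ → Y} (hγ : Scp γ) {C : Set Y} (hC : range γ = C) {g : Y → ℂ}
    {θ : ℝ → ℂ} (hθ : ContinuousOn θ (Icc 0 1))
    (he : ∀ t ∈ Icc (0 : ℝ) 1, Complex.exp (θ t) = g (γ t)) : CLog C g ↔ θ 1 = θ 0 := by
  have hmem : ∀ t, γ t ∈ C := fun t => by
    rw [← hC]
    exact mem_range_self t
  constructor
  · rintro ⟨l, hl, hle⟩
    have h1 := const_of_exp (φ := fun t => l (γ t) - θ t)
      ((hl.comp hγ.1.continuousOn fun t _ => hmem t).sub hθ) fun t ht => by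
        rw [Complex.exp_sub, hle _ (hmem t), he t ht, div_self]
        rw [← he t ht]
        exact Complex.exp_ne_zero _
    simp only [per_one hγ] at h1
    have := sub_right_inj.1 h1
    exact this
  · intro h
    obtain ⟨H, hH, hv⟩ := descend hγ hC hθ h
    refine ⟨H, hH, fun y hy => ?_⟩
    obtain ⟨t, ht, rfl⟩ := exists_icc hγ hC y hy
    rw [hv t (Ico_subset_Icc_self ht), he t (Ico_subset_Icc_self ht)]

theorem exp_cont : Continuous fun t : ℝ => Complex.exp (2 * Real.pi * t * Complex.I) := by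
  fun_prop

theorem exp_one : Complex.exp (2 * Real.pi * ((1 : ℝ) : ℂ) * Complex.I) =
    Complex.exp (2 * Real.pi * ((0 : ℝ) : ℂ) * Complex.I) := by
  push_cast
  rw [mul_one, Complex.exp_two_pi_mul_I]
  simp

end DEG

open DEG in
theorem t_DEG : S_DEG := by
  intro Y _ C hCs
  refine ⟨?_, ?_, ?_⟩
  · obtain ⟨γ, hγ, hC⟩ := hCs
    obtain ⟨f, hf, hv⟩ := descend hγ hC exp_cont.continuousOn exp_one
    refine ⟨f, γ, hγ, hC, fun t => ?_⟩
    have h := hγ.2.1.sub_int_mul_eq (x := t) ⌊t⌋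
    rw [mul_one] at h
    have hfr : t - ⌊t⌋ ∈ Icc (0 : ℝ) 1 := ⟨Int.fract_nonneg t, (Int.fract_lt_one t).le⟩
    rw [← h, hv _ hfr]
    have h1 : (2 * Real.pi * ((t - ⌊t⌋ : ℝ) : ℂ) * Complex.I : ℂ) =
        2 * Real.pi * t * Complex.I - (⌊t⌋ : ℤ) * (2 * Real.pi * Complex.I) := by
      push_cast
      ring
    rw [h1, Complex.exp_sub, Complex.exp_int_mul_two_pi_mul_I, div_one]
  · rintro f ⟨γ, hγ, hC, hf⟩
    have hmem : ∀ t, γ t ∈ C := fun t => by
      rw [← hC]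
      exact mem_range_self t
    have hcont : ContinuousOn f C := by
      obtain ⟨H, hH, hv⟩ := descend hγ hC exp_cont.continuousOn exp_one
      refine hH.congr fun y hy => ?_
      obtain ⟨t, ht, rfl⟩ := exists_icc hγ hC y hy
      rw [hv t (Ico_subset_Icc_self ht), hf]
    have hne : ∀ x ∈ C, f x ≠ 0 := by
      intro y hy
      obtain ⟨t, ht, rfl⟩ := exists_icc hγ hC y hy
      rw [hf]
      exact Complex.exp_ne_zero _
    refine ⟨hcont, hne, ?_, ?_⟩
    · intro g hg hg0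
      obtain ⟨θ, hθ, he⟩ := Pool.Agent.LIX.cLog_convex isCompact_Icc (convex_Icc (0 : ℝ) 1)
        (hg.comp hγ.1.continuousOn fun t _ => hmem t) fun t _ => hg0 _ (hmem t)
      have h1 : Complex.exp (θ 1) = Complex.exp (θ 0) := by
        rw [he 1 (by simp), he 0 (by simp), Function.comp_apply, Function.comp_apply, per_one hγ]
      obtain ⟨n, hn⟩ := Complex.exp_eq_exp_iff_exists_int.1 h1
      refine ⟨n, ?_⟩
      have h2 : ContinuousOn (fun t : ℝ => θ t - n * (2 * Real.pi * t * Complex.I))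
          (Icc 0 1) := hθ.sub (by fun_prop)
      refine (lift_iff hγ hC h2 fun t ht => ?_).2 ?_
      · rw [Complex.exp_sub, Complex.exp_int_mul, he t ht, hf, Function.comp_apply]
      · rw [hn]
        push_cast
        ring
    · intro n hn
      have h2 : ContinuousOn (fun t : ℝ => (n * (2 * Real.pi * t * Complex.I) : ℂ))
          (Icc 0 1) := by fun_prop
      have h3 := (lift_iff hγ hC h2 fun t ht => by
        rw [Complex.exp_int_mul, hf]).1 hn
      have h4 : (n : ℂ) * (2 * Real.pi * Complex.I) = 0 := by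
        push_cast at h3
        simpa using h3
      rcases mul_eq_zero.1 h4 with h5 | h5
      · exact_mod_cast h5
      · exact absurd h5 Complex.two_pi_I_ne_zero
  · intro γ g hγ hC _ _ θ hθ he
    exact lift_iff hγ hC hθ he

end BBP
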