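import Pool.Agent.BBP.StmtsB

/-!
# BBP, module DGP: degrees of point functions
-/

set_option autoImplicit false

namespace BBP

open Set Topology
open Pool.Agent.LIX (CLog)

namespace DGP

/-- extension of a continuous function from a closed set -/
theorem extend {X : Type} [MetricSpace X] {L : Set X} (hL : IsClosed L) {f : X → ℂ}
    (hf : ContinuousOn f L) : ∃ g : X → ℂ, Continuous g ∧ ∀ x ∈ L, g x = f x := by
  obtain ⟨g, hg⟩ := ContinuousMap.exists_restrict_eq hL ⟨L.domRestrict f, hf.domRestrict⟩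
  refine ⟨g, g.continuous, fun x hx => ?_⟩
  have h := congrArg (fun k : C(L, ℂ) => k ⟨x, hx⟩) hg
  exact h

end DGP

theorem t_DGP : M_DGP := by
  intro hDEG hJCT hFIV hNST hSGN Y _ U J0 T0 f0 hU C J fC fJ hC hJ hJU hCJ hgC hgJ
  obtain ⟨s, hs, hsg⟩ := hSGN Y U J0 T0 f0 hU C J fC fJ hC hJ hJU hCJ hgC hgJ
  have hJ1 := hJCT Y U J0 T0 f0 hU J fJ hJ hJU hgJ
  have hCU : C ⊆ U := hCJ.trans hJ1.2.1
  have hC1 := hJCT Y U J0 T0 f0 hU C fC hC hCU hgC
  have hmJ : Mem J fJ (ins J) := hJ1.1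
  have hmC : Mem C fC (ins C) := hC1.1
  have hn : ins C ⊆ ins J := hNST Y U J0 T0 f0 hU C J hC hJ hJU fun x hx => Or.inr (hCJ hx)
  have hDC := (hDEG Y C hC).2.1 fC hgC
  refine ⟨s, hs, ?_⟩
  intro y F hy hF
  obtain ⟨hF1, hF2, hF3⟩ := hF
  have hyJ : y ∉ J := fun h => Set.disjoint_left.1 hmJ.disj hy h
  constructor
  · intro hyC
    have hyC' : y ∉ C := fun h => Set.disjoint_left.1 hmC.disj hyC h
    have hsub : (J ∪ ins J) \ ins C ⊆ (J ∪ ins J) \ {y} := by
      rintro x ⟨hx1, hx2⟩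
      refine ⟨hx1, ?_⟩
      rintro rfl
      exact hx2 hyC
    have hsubC : C ⊆ (J ∪ ins J) \ {y} := by
      intro x hx
      refine ⟨Or.inr (hCJ hx), ?_⟩
      rintro rfl
      exact hyC' hx
    have hDJ : Deg J fJ F 1 := by
      refine (Pool.Agent.LIX.cLog_const (K := J) (one_ne_zero (α := ℂ))).congr ?_
      intro x hx
      show F x / fJ x ^ (1 : ℤ) = 1
      rw [zpow_one, hF3 hx, div_self (hmJ.ne x hx)]
    obtain ⟨b, hb⟩ := hDC.2.2.1 F (hF1.mono hsubC) fun x hx => hF2 x (hsubC hx)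
    have h1 := hsg F 1 b (hF1.mono hsub) (fun x hx => hF2 x (hsub hx)) hDJ hb
    have h2 : b = s := by
      rcases hs with h | h
      · rw [h] at h1 ⊢
        omega
      · rw [h] at h1 ⊢
        omega
    rw [← h2]
    exact hb
  · intro hyC hyC'
    have hsub : C ∪ ins C ⊆ (J ∪ ins J) \ {y} := by
      rintro x (hx | hx)
      · refine ⟨Or.inr (hCJ hx), ?_⟩
        rintro rfl
        exact hyC hx
      · refine ⟨Or.inr (hn hx), ?_⟩
        rintro rfl
        exact hyC' hx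
    have hsubC : C ⊆ (J ∪ ins J) \ {y} := fun x hx => hsub (Or.inl hx)
    obtain ⟨b, hb⟩ := hDC.2.2.1 F (hF1.mono hsubC) fun x hx => hF2 x (hsubC hx)
    have hb0 : b = 0 := by
      by_contra hb0
      obtain ⟨l, hl1, hl2⟩ := hb
      obtain ⟨l', hl'1, hl'2⟩ := DGP.extend hmC.cptL.isClosed hl1
      refine hFIV Y U J0 T0 f0 hU C fC b hC hCU hgC hb0
        ⟨fun x => F x * Complex.exp (-l' x), ?_, ?_, ?_⟩
      · exact (hF1.mono hsub).mul
          (Complex.continuous_exp.comp hl'1.neg).continuousOn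
      · intro x hx
        exact mul_ne_zero (hF2 x (hsub hx)) (Complex.exp_ne_zero _)
      · intro x hx
        show F x * Complex.exp (-l' x) = fC x ^ b
        have h1 : F x ≠ 0 := hF2 x (hsubC hx)
        have h2 : fC x ^ b ≠ 0 := zpow_ne_zero b (hmC.ne x hx)
        rw [hl'2 x hx, Complex.exp_neg, hl2 x hx]
        field_simp
    rw [← hb0]
    exact hb

end BBP
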