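import Pool.Agent.BBP.StmtsB

set_option autoImplicit false

namespace BBP

open Set Topology
open Pool.Agent.LIX (CLog)

theorem t_EON : M_EON := by
  intro hLPC hARB hLOG hNSP hDEG hJCT hDGP Y _ U J0 T0 f0 hU J A fJ F G y z hJ hJU hfJ hA hAJ hF hG
  have hlp : LocallyPathConnectedSpace Y := hLPC Y hU.ax
  obtain ⟨hMem, -⟩ := hJCT Y U J0 T0 f0 hU J fJ hJ hJU hfJ
  obtain ⟨-, hyA, hzA, -, hAc, hAconn, hAlog, -⟩ := hARB Y A y z hA
  have hconn : IsConnected (ins J \ A) := hNSP Y hU.ax J (ins J) A fJ hMem hAJ hAc hAlog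
  have hopen : IsOpen (ins J \ A) := hMem.opn.sdiff hAc.isClosed
  have hsubF : ins J \ A ⊆ (J ∪ ins J) \ {y} := fun x hx =>
    ⟨Or.inr hx.1, fun h => hx.2 (by rw [mem_singleton_iff] at h; rw [h]; exact hyA)⟩
  have hsubG : ins J \ A ⊆ (J ∪ ins J) \ {z} := fun x hx =>
    ⟨Or.inr hx.1, fun h => hx.2 (by rw [mem_singleton_iff] at h; rw [h]; exact hzA)⟩
  have hF0 : ∀ x ∈ ins J \ A, F x ≠ 0 := fun x hx => hF.2.1 x (hsubF hx)
  have hG0 : ∀ x ∈ ins J \ A, G x ≠ 0 := fun x hx => hG.2.1 x (hsubG hx)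
  have hFc : ContinuousOn F (ins J \ A) := hF.1.mono hsubF
  have hGc : ContinuousOn G (ins J \ A) := hG.1.mono hsubG
  refine hLOG Y hlp (ins J \ A) (fun x => F x / G x) hopen hconn (hFc.div hGc hG0)
    (fun x hx => div_ne_zero (hF0 x hx) (hG0 x hx)) ?_
  intro C hC hCsub
  obtain ⟨⟨fC, hfC⟩, -⟩ := hDEG Y C hC
  obtain ⟨-, hgen, -⟩ := hDEG Y C hC
  have hCJ : C ⊆ ins J := fun x hx => (hCsub hx).1
  have hCU : C ⊆ U := hCJ.trans (hJCT Y U J0 T0 f0 hU J fJ hJ hJU hfJ).2.1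
  obtain ⟨hMC, -, -, -, -, -, hclos, -⟩ := hJCT Y U J0 T0 f0 hU C fC hC hCU hfC
  have hAC : Disjoint A C := by
    rw [Set.disjoint_left]
    intro x hx hxC
    exact (hCsub hxC).2 hx
  obtain ⟨s, -, hs⟩ := hDGP Y U J0 T0 f0 hU C J fC fJ hC hJ hJU hCJ hfC hfJ
  obtain ⟨hy1, hy2⟩ := hs y F (hAJ hyA) hF
  obtain ⟨hz1, hz2⟩ := hs z G (hAJ hzA) hG
  have hyC : y ∉ C := fun h => Set.disjoint_left.1 hAC hyA h
  have hzC : z ∉ C := fun h => Set.disjoint_left.1 hAC hzA h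
  obtain ⟨hfCc, hfC0, -, -⟩ := hgen fC hfC
  have key : ∀ n : ℤ, Deg C fC F n → Deg C fC G n → CLog C fun x => F x / G x := by
    intro n h1 h2
    refine (CLog.div h1 h2).congr fun x hx => ?_
    have h3 : fC x ^ n ≠ 0 := zpow_ne_zero n (hfC0 x hx)
    have h4 : G x ≠ 0 := hG0 x (hCsub hx)
    field_simp
  have hAcov : A ⊆ ins C ∪ (closure (ins C))ᶜ := by
    intro x hx
    by_cases h : x ∈ ins C
    · exact Or.inl h
    · refine Or.inr fun h' => ?_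
      rw [hclos] at h'
      rcases h' with h' | h'
      · exact Set.disjoint_left.1 hAC hx h'
      · exact h h'
  have hdis : Disjoint (ins C) (closure (ins C))ᶜ := by
    rw [Set.disjoint_left]
    intro x hx hx'
    exact hx' (subset_closure hx)
  have hiff : ∀ u ∈ A, ∀ v ∈ A, u ∈ ins C → v ∈ ins C := by
    intro u hu v hv huC
    by_contra hvC
    have hv' : v ∈ (closure (ins C))ᶜ := (hAcov hv).resolve_left hvC
    obtain ⟨w, -, hw1, hw2⟩ := hAconn.isPreconnected (ins C) (closure (ins C))ᶜ hMC.opn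
      isClosed_closure.isOpen_compl hAcov ⟨u, hu, huC⟩ ⟨v, hv, hv'⟩
    exact Set.disjoint_left.1 hdis hw1 hw2
  by_cases h : y ∈ ins C
  · exact key s (hy1 h) (hz1 (hiff y hyA z hzA h))
  · exact key 0 (hy2 hyC h) (hz2 hzC fun h' => h (hiff z hzA y hyA h'))

end BBP
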