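import Pool.Agent.BBP.StmtsB

/-!
# BBP, module ETW: separation by a set with a logarithm of the quotient of two point functions
-/

set_option autoImplicit false

namespace BBP

open Set Topology
open Pool.Agent.LIX (CLog)

namespace ETW

/-- Tietze extension for functions given on a set. -/
theorem tietze {Y : Type} [MetricSpace Y] {C : Set Y} (hC : IsClosed C) {f : Y → ℂ}
    (hf : ContinuousOn f C) : ∃ g : Y → ℂ, Continuous g ∧ ∀ x ∈ C, g x = f x := by
  obtain ⟨g, hg⟩ := ContinuousMap.exists_restrict_eq hC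
    (⟨C.domRestrict f, continuousOn_iff_continuous_domRestrict.1 hf⟩ : C(C, ℂ))
  refine ⟨g, g.continuous, fun x hx => ?_⟩
  exact congrArg (fun φ : C(C, ℂ) => φ ⟨x, hx⟩) hg

end ETW

theorem t_ETW : S_ETW := by
  intro Y _ J V T R fJ F G y z hM hT hTV hyT hzT hzV hF hG hlog hRo hRV hRT hcl hyR
  classical
  by_contra hzR
  obtain ⟨l, hl, hle⟩ := hlog
  obtain ⟨hFc, hF0, hFJ⟩ := hF
  obtain ⟨hGc, hG0, hGJ⟩ := hG
  have hTJ : ∀ x ∈ T, x ∉ J := fun x hx hJ => Set.disjoint_left.1 hM.disj (hTV hx) hJ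
  have hJcl : IsClosed J := hM.cptL.isClosed
  have hTcl : IsClosed T := hT.isClosed
  have hKcl : IsClosed (J ∪ V) := hM.cpt.isClosed
  -- the logarithm, extended
  obtain ⟨l', hl'c, hl'⟩ := ETW.tietze (hTcl.union hJcl)
    (f := fun x => if x ∈ J then 0 else l x) (by
      refine ContinuousOn.union_of_isClosed ?_ ?_ hTcl hJcl
      · exact hl.congr fun x hx => if_neg (hTJ x hx)
      · exact continuousOn_const.congr fun x hx => if_pos hx)
  have hl'T : ∀ x ∈ T, l' x = l x := fun x hx => by
    rw [hl' x (Or.inl hx), if_neg (hTJ x hx)]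
  have hl'J : ∀ x ∈ J, l' x = 0 := fun x hx => by
    rw [hl' x (Or.inr hx), if_pos hx]
  have hzcl : z ∉ closure R := by
    intro h
    rcases hcl ⟨h, hzV⟩ with h' | h'
    · exact hzR h'
    · exact hzT h'
  have hyJ : y ∉ J := fun h => Set.disjoint_left.1 hM.disj (hRV hyR) h
  have hzJ : z ∉ J := fun h => Set.disjoint_left.1 hM.disj hzV h
  -- the two functions agree on the intersection
  have hagree : ∀ x ∈ closure R, x ∈ J ∪ V → x ∉ R → G x * Complex.exp (l' x) = F x := by
    intro x hx hJV hxR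
    rcases hJV with hJ | hV
    · rw [hl'J x hJ, Complex.exp_zero, mul_one, hFJ hJ, hGJ hJ]
    · have hxT : x ∈ T := by
        rcases hcl ⟨hx, hV⟩ with h | h
        · exact absurd h hxR
        · exact h
      have hGx : G x ≠ 0 := hG0 x ⟨Or.inr hV, fun h => hzT (h ▸ hxT)⟩
      have h1 := hle x hxT
      rw [hl'T x hxT, h1, mul_div_cancel₀ _ hGx]
  apply hM.ess
  refine ⟨fun x => if x ∈ closure R then G x * Complex.exp (l' x) else F x, ?_, ?_, ?_⟩
  · have hA : J ∪ V = (closure R ∩ (J ∪ V)) ∪ ((J ∪ V) ∩ Rᶜ) := by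
      ext x
      constructor
      · intro hx
        by_cases hxR : x ∈ R
        · exact Or.inl ⟨subset_closure hxR, hx⟩
        · exact Or.inr ⟨hx, hxR⟩
      · rintro (hx | hx)
        · exact hx.2
        · exact hx.1
    rw [hA]
    refine ContinuousOn.union_of_isClosed ?_ ?_ (isClosed_closure.inter hKcl)
      (hKcl.inter hRo.isClosed_compl)
    · have h1 : ContinuousOn (fun x => G x * Complex.exp (l' x)) (closure R ∩ (J ∪ V)) := by
        refine ContinuousOn.mul (hGc.mono ?_) (Complex.continuous_exp.comp hl'c).continuousOn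
        rintro x ⟨hx, hJV⟩
        exact ⟨hJV, fun h => hzcl (h ▸ hx)⟩
      exact h1.congr fun x hx => if_pos hx.1
    · have h1 : ContinuousOn F ((J ∪ V) ∩ Rᶜ) := by
        refine hFc.mono ?_
        rintro x ⟨hJV, hx⟩
        exact ⟨hJV, fun h => hx (by rw [h]; exact hyR)⟩
      refine h1.congr ?_
      rintro x ⟨hJV, hx⟩
      by_cases hc : x ∈ closure R
      · simp only [if_pos hc]
        exact hagree x hc hJV hx
      · simp only [if_neg hc]
  · intro x hJV
    by_cases hc : x ∈ closure R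
    · simp only [if_pos hc]
      exact mul_ne_zero (hG0 x ⟨hJV, fun h => hzcl (h ▸ hc)⟩) (Complex.exp_ne_zero _)
    · simp only [if_neg hc]
      exact hF0 x ⟨hJV, fun h => hc (subset_closure (by rw [h]; exact hyR))⟩
  · intro x hx
    by_cases hc : x ∈ closure R
    · simp only [if_pos hc]
      rw [hl'J x hx, Complex.exp_zero, mul_one, hGJ hx]
    · simp only [if_neg hc]
      exact hFJ hx

end BBP
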