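import Pool.Agent.BBP.StmtsB

/-!
# Module FIV: no nonzero power extends to the inside
-/

set_option autoImplicit false

namespace BBP

open Set Topology

/-- Module FIV. -/
theorem t_FIV : M_FIV := by
  classical
  intro _ _ hCMP hCTR hJCT Y _ U J0 T0 f0 hU C f n hS hCU hG hn
  rintro ⟨k, hk1, hk2, hk3⟩
  obtain ⟨hM, -, -, -, -, -, -, -⟩ := hJCT Y U J0 T0 f0 hU C f hS hCU hG
  have hKc : IsCompact (T0 \ ins C) := hU.cptT.diff hM.opn
  have hCK : C ⊆ T0 \ ins C := fun x hx =>
    ⟨hU.sub (Or.inl (hCU hx)), fun h => Set.disjoint_left.1 hM.disj h hx⟩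
  have hext : ExtC C (T0 \ ins C) f := by
    by_contra h
    obtain ⟨Q, hQ, hMQ⟩ := hCMP Y hU.ax C (T0 \ ins C) f hM.cptL hKc hCK hM.cont hM.ne h
    have h1 : Q ⊆ ins C := by
      intro x hx
      exact ⟨Q, ⟨hMQ.opn, hMQ.conn, hMQ.disj, hMQ.cpt⟩, hx⟩
    obtain ⟨x, hx⟩ := hMQ.conn.nonempty
    exact (hQ hx).2 (h1 hx)
  obtain ⟨F, hF1, hF2, hF3⟩ := hext
  refine hCTR Y T0 C f n hG (hU.contr C hS hCU) hn
    ⟨fun x => if x ∈ ins C then k x else F x ^ n, ?_, ?_, ?_⟩
  · have hsub : T0 ⊆ (C ∪ ins C) ∪ (T0 \ ins C) := by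
      intro x hx
      by_cases h : x ∈ ins C
      · exact Or.inl (Or.inr h)
      · exact Or.inr ⟨hx, h⟩
    refine ContinuousOn.mono ?_ hsub
    apply ContinuousOn.union_of_isClosed
    · refine hk1.congr ?_
      intro x hx
      by_cases h : x ∈ ins C
      · simp only [h, if_true]
      · have hxC : x ∈ C := hx.resolve_right h
        simp only [h, if_false]
        rw [hF3 hxC, hk3 x hxC]
    · refine ContinuousOn.congr (hF1.zpow₀ n fun x hx => Or.inl (hF2 x hx)) ?_
      intro x hx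
      simp only [hx.2, if_false]
    · exact hM.cpt.isClosed
    · exact hKc.isClosed
  · intro x hx
    by_cases h : x ∈ ins C
    · simp only [h, if_true]
      exact hk2 x (Or.inr h)
    · simp only [h, if_false]
      exact zpow_ne_zero n (hF2 x ⟨hx, h⟩)
  · intro x hx
    have h : x ∉ ins C := (hCK hx).2
    simp only [h, if_false]
    rw [hF3 hx]

end BBP
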