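import Pool.Agent.BBP.StmtsB

/-!
# BBP, module INC: equal increments over a set with a logarithm
-/

set_option autoImplicit false

namespace BBP

open Set Topology
open Pool.Agent.LIX (CLog)

namespace INC

theorem disc : DiscreteTopology (Set.range ((↑) : ℤ → ℝ)) :=
  (Int.isClosedEmbedding_coe_real.isEmbedding.toHomeomorph.symm.isEmbedding).discreteTopology

/-- two continuous logarithms on a preconnected set differ by a constant -/
theorem lift_const {X : Type*} [TopologicalSpace X] {S : Set X} (hS : IsPreconnected S)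
    {g1 g2 : X → ℂ} (h1 : ContinuousOn g1 S) (h2 : ContinuousOn g2 S)
    (he : ∀ x ∈ S, Complex.exp (g1 x) = Complex.exp (g2 x)) {x y : X} (hx : x ∈ S) (hy : y ∈ S) :
    g1 x - g2 x = g1 y - g2 y := by
  have hπ : (2 * Real.pi * Complex.I : ℂ) ≠ 0 := Complex.two_pi_I_ne_zero
  have hn : ∀ z ∈ S, ∃ n : ℤ, g1 z - g2 z = n * (2 * Real.pi * Complex.I) := by
    intro z hz
    obtain ⟨n, hn⟩ := Complex.exp_eq_exp_iff_exists_int.1 (he z hz)
    exact ⟨n, by rw [hn]; ring⟩

  let h : X → ℝ := fun z => ((g1 z - g2 z) / (2 * Real.pi * Complex.I)).re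
  have hh : ∀ z ∈ S, ∀ n : ℤ, g1 z - g2 z = n * (2 * Real.pi * Complex.I) → h z = n := by
    intro z _ n hn
    change ((g1 z - g2 z) / (2 * Real.pi * Complex.I)).re = n
    rw [hn, mul_div_cancel_right₀ _ hπ]
    exact Complex.intCast_re n
  have hc : ContinuousOn h S :=
    Complex.continuous_re.comp_continuousOn ((h1.sub h2).div_const _)
  have hm : MapsTo h S (Set.range ((↑) : ℤ → ℝ)) := by
    intro z hz
    obtain ⟨n, hn'⟩ := hn z hz
    exact ⟨n, (hh z hz n hn').symm⟩
  have hxy : h x = h y := hS.constant_of_mapsTo ⟨disc⟩ hc hm hx hy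
  obtain ⟨n, hn1⟩ := hn x hx
  obtain ⟨m, hm1⟩ := hn y hy
  rw [hh x hx n hn1, hh y hy m hm1, Int.cast_inj] at hxy
  rw [hn1, hm1, hxy]

end INC

/-- Equal increments over a set with a logarithm. -/
theorem t_INC : S_INC := by
  intro Y _ Sg Ga f l β θ s t hst hβ hθ he hl hel hGa hs ht hlog hsub hGS
  obtain ⟨m, hm, hem⟩ := hlog
  have hmem : ∀ r ∈ Icc s t, β r ∈ Sg := fun r hr => hsub (mem_image_of_mem β hr)
  have h1 : θ t - m (β t) = θ s - m (β s) := by
    refine INC.lift_const (isPreconnected_Icc (a := s) (b := t)) hθ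
      (hm.comp hβ fun r hr => hmem r hr) ?_ (right_mem_Icc.2 hst) (left_mem_Icc.2 hst)
    intro r hr
    rw [he r hr]
    exact (hem _ (hmem r hr)).symm
  have h2 : l (β t) - m (β t) = l (β s) - m (β s) := by
    refine INC.lift_const hGa hl (hm.mono hGS) ?_ ht hs
    intro x hx
    rw [hel x hx, hem x (hGS hx)]
  have h3 : θ t - θ s = m (β t) - m (β s) := by linear_combination h1
  have h4 : l (β t) - l (β s) = m (β t) - m (β s) := by linear_combination h2
  rw [h3, h4]

end BBP
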