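import Pool.Agent.BBP.StmtsB

/-!
# BBP, module INQ: the inside of a simple closed curve
-/

set_option autoImplicit false

namespace BBP

open Set Topology
open Pool.Agent.LIX (CLog)

namespace INQ

/-- the outside of `U` is preconnected -/
theorem compl_conn {Y : Type} [TopologicalSpace Y] [PreconnectedSpace Y] {U J : Set Y}
    (hU : IsOpen U) (hne : U.Nonempty) (hJ : IsConnected J) (hd : Disjoint U J)
    (hc : closure U ⊆ U ∪ J) : IsPreconnected Uᶜ := by
  have key : ∀ u v : Set Y, IsClosed u → IsClosed v → Uᶜ ⊆ u ∪ v → Disjoint u v → J ⊆ u →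
      Uᶜ ⊆ u := by
    intro u v hu hv huv hdis hJu
    have hR : IsClosed (Uᶜ ∩ v) := hU.isClosed_compl.inter hv
    have hP : IsClosed (Uᶜ ∩ u) := hU.isClosed_compl.inter hu
    have hJc : ∀ x ∈ J, x ∉ U := fun x hx hxU => Set.disjoint_left.1 hd hxU hx
    have hcompl : (Uᶜ ∩ v)ᶜ = closure U ∪ (Uᶜ ∩ u) := by
      ext x
      constructor
      · intro hx
        by_cases hxU : x ∈ U
        · exact Or.inl (subset_closure hxU)
        · rcases huv hxU with h | h
          · exact Or.inr ⟨hxU, h⟩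
          · exact absurd ⟨hxU, h⟩ hx
      · rintro (hx | hx)
        · rcases hc hx with h | h
          · exact fun h' => h'.1 h
          · exact fun h' => Set.disjoint_left.1 hdis (hJu h) h'.2
        · exact fun h' => Set.disjoint_left.1 hdis hx.2 h'.2
    have hR' : IsOpen (Uᶜ ∩ v) := by
      rw [← isClosed_compl_iff, hcompl]
      exact isClosed_closure.union hP
    rcases isClopen_iff.1 ⟨hR, hR'⟩ with h | h
    · intro x hx
      rcases huv hx with h1 | h1
      · exact h1
      · have : x ∈ (∅ : Set Y) := h ▸ ⟨hx, h1⟩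
        exact absurd this (Set.notMem_empty x)
    · obtain ⟨x, hx⟩ := hne
      have : x ∈ Uᶜ ∩ v := h ▸ Set.mem_univ x
      exact absurd hx this.1
  rw [isPreconnected_iff_subset_of_fully_disjoint_closed hU.isClosed_compl]
  intro u v hu hv huv hdis
  have hJU : J ⊆ Uᶜ := fun x hx hxU => Set.disjoint_left.1 hd hxU hx
  rcases (isPreconnected_iff_subset_of_disjoint_closed.1 hJ.isPreconnected) u v hu hv
    (hJU.trans huv) (by rw [hdis.inter_eq, Set.inter_empty]) with h | h
  · exact Or.inl (key u v hu hv huv hdis h)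
  · exact Or.inr (key v u hv hu (by rwa [Set.union_comm]) hdis.symm h)

/-- a contractible curve lies in the set in which it is contracted -/
theorem contr_sub {Y : Type} [TopologicalSpace Y] {T C : Set Y} (hC : Scc C)
    (h : Contr T C) : C ⊆ T := by
  obtain ⟨γ, hγ, hr⟩ := hC
  obtain ⟨c, -, h0, -, -, hT⟩ := h γ hγ hr
  intro x hx
  rw [← hr] at hx
  obtain ⟨t, rfl⟩ := hx
  have h1 : γ (Int.fract t) = γ t := by
    have := hγ.2.1.sub_int_mul_eq (x := t) ⌊t⌋
    rw [mul_one] at this
    rw [Int.fract]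
    exact this
  have h2 : Int.fract t ∈ Icc (0 : ℝ) 1 := ⟨Int.fract_nonneg t, (Int.fract_lt_one t).le⟩
  rw [← h1, ← h0 _ h2]
  exact hT _ ⟨h2, by simp⟩

end INQ

theorem t_INQ : M_INQ := by
  intro hDEG hSCB hCTR hCMP Y _ U J0 T0 f0 hU C T f hC hCU hf hT hCT
  have hcC : IsCompact C := (hSCB Y C hC).1
  have hJc : IsConnected J0 := (hSCB Y J0 hU.scc).2.1
  have hCT' : C ⊆ T := INQ.contr_sub hC hCT
  obtain ⟨hfc, hf0, -, -⟩ := (hDEG Y C hC).2.1 f hf
  have hne : ¬ ExtC C T f := by
    rintro ⟨F, hF, hF0, hFf⟩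
    exact hCTR Y T C f 1 hf hCT one_ne_zero ⟨F, hF, hF0, fun x hx => by
      rw [zpow_one]; exact hFf hx⟩
  obtain ⟨Q, hQT, hQ⟩ := hCMP Y hU.ax C T f hcC hT hCT' hfc hf0 hne
  refine ⟨Q, hQT, ?_, hQ⟩
  have : ConnectedSpace Y := hU.ax.conn
  have hpre : IsPreconnected Uᶜ :=
    INQ.compl_conn hU.mem.opn hU.mem.conn.nonempty hJc hU.mem.disj hU.mem.clos
  intro x hxQ
  by_contra hxU
  have hsub : Uᶜ ⊆ Q := by
    refine hpre.subset_left_of_subset_union hQ.opn (isClosed_closure (s := Q)).isOpen_compl ?_ ?_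
      ⟨x, hxU, hxQ⟩
    · rw [Set.disjoint_left]
      exact fun y hy hy' => hy' (subset_closure hy)
    · intro y hy
      by_cases hyQ : y ∈ closure Q
      · rcases hQ.clos hyQ with h | h
        · exact Or.inl h
        · exact absurd (hCU h) hy
      · exact Or.inr hyQ
  apply hU.ax.ncpt
  refine ⟨?_⟩
  have huniv : (Set.univ : Set Y) = (J0 ∪ U) ∪ T := by
    symm
    rw [Set.eq_univ_iff_forall]
    intro y
    by_cases hy : y ∈ U
    · exact Or.inl (Or.inr hy)
    · exact Or.inr (hQT (hsub hy))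
  rw [huniv]
  exact hU.mem.cpt.union hT

end BBP
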