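import Pool.Agent.BBP.StmtsB

/-!
# Module JAN: Janiszewski's theorem
-/

set_option autoImplicit false

namespace BBP

open Set Topology
open Pool.Agent.LIX (CLog)

namespace JAN

theorem int_le {Y : Type} [TopologicalSpace Y] {K : Set Y} (hK : IsPreconnected K) {g : Y → ℝ}
    (hg : ContinuousOn g K) (h : ∀ x ∈ K, ∃ n : ℤ, g x = n) {x y : Y} (hx : x ∈ K) (hy : y ∈ K) :
    g y ≤ g x := by
  by_contra hlt
  rw [not_le] at hlt
  obtain ⟨n, hn⟩ := h x hx
  obtain ⟨m, hm⟩ := h y hy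
  rw [hn, hm] at hlt
  have hlt' : n < m := by exact_mod_cast hlt
  have hle : (n : ℝ) + 1 ≤ m := by exact_mod_cast hlt'
  have hmem : (n : ℝ) + 1 / 2 ∈ g '' K := by
    apply hK.intermediate_value hx hy hg
    rw [hn, hm]
    constructor <;> linarith
  obtain ⟨w, hw, hgw⟩ := hmem
  obtain ⟨k, hk⟩ := h w hw
  rw [hk] at hgw
  have h2 : ((2 * k : ℤ) : ℝ) = ((2 * n + 1 : ℤ) : ℝ) := by
    push_cast
    linarith
  have h3 : 2 * k = 2 * n + 1 := by exact_mod_cast h2
  omega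

theorem const {Y : Type} [TopologicalSpace Y] {K : Set Y} (hK : IsPreconnected K) {l : Y → ℂ}
    (hl : ContinuousOn l K) (h : ∀ x ∈ K, Complex.exp (l x) = 1) {x y : Y} (hx : x ∈ K)
    (hy : y ∈ K) : l x = l y := by
  have hpi : (2 * Real.pi : ℝ) ≠ 0 := by positivity
  have hint : ∀ z ∈ K, ∃ n : ℤ, l z = n * (2 * Real.pi * Complex.I) := fun z hz =>
    Complex.exp_eq_one_iff.1 (h z hz)
  have hg : ContinuousOn (fun z => (l z).im / (2 * Real.pi)) K :=
    (Complex.continuous_im.comp_continuousOn hl).div_const _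
  have hgi : ∀ z ∈ K, ∃ n : ℤ, (l z).im / (2 * Real.pi) = n := by
    intro z hz
    obtain ⟨n, hn⟩ := hint z hz
    refine ⟨n, ?_⟩
    rw [hn, div_eq_iff hpi]
    simp
  have h1 := int_le hK hg hgi hx hy
  have h2 := int_le hK hg hgi hy hx
  have h3 : (l x).im / (2 * Real.pi) = (l y).im / (2 * Real.pi) := le_antisymm h2 h1
  have h4 : (l x).im = (l y).im := by
    rw [div_left_inj' hpi] at h3
    exact h3
  obtain ⟨n, hn⟩ := hint x hx
  obtain ⟨m, hm⟩ := hint y hy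
  apply Complex.ext
  · rw [hn, hm]
    simp
  · exact h4

theorem glue {Y : Type} [TopologicalSpace Y] {S T : Set Y} (hS : IsClosed S) (hT : IsClosed T)
    (hc : IsConnected (S ∩ T)) {f : Y → ℂ} (h1 : CLog S f) (h2 : CLog T f) :
    CLog (S ∪ T) f := by
  classical
  obtain ⟨l1, c1, e1⟩ := h1
  obtain ⟨l2, c2, e2⟩ := h2
  obtain ⟨p, hp⟩ := hc.nonempty
  have hk : ∀ x ∈ S ∩ T, l1 x - l2 x = l1 p - l2 p := by
    intro x hx
    refine const hc.isPreconnected (l := fun x => l1 x - l2 x) ?_ ?_ hx hp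
    · exact (c1.mono inter_subset_left).sub (c2.mono inter_subset_right)
    · intro z hz
      rw [Complex.exp_sub, e1 z hz.1, e2 z hz.2]
      refine div_self ?_
      rw [← e1 z hz.1]
      exact Complex.exp_ne_zero _
  have hone : Complex.exp (l1 p - l2 p) = 1 := by
    rw [Complex.exp_sub, e1 p hp.1, e2 p hp.2]
    refine div_self ?_
    rw [← e1 p hp.1]
    exact Complex.exp_ne_zero _
  refine ⟨fun x => if x ∈ S then l1 x else l2 x + (l1 p - l2 p), ?_, ?_⟩
  · apply ContinuousOn.union_of_isClosed _ _ hS hT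
    · refine c1.congr fun x hx => ?_
      change (if x ∈ S then l1 x else l2 x + (l1 p - l2 p)) = l1 x
      rw [if_pos hx]
    · refine (c2.add continuousOn_const).congr (f := fun x => l2 x + (l1 p - l2 p))
        fun x hx => ?_
      change (if x ∈ S then l1 x else l2 x + (l1 p - l2 p)) = l2 x + (l1 p - l2 p)
      by_cases hxS : x ∈ S
      · rw [if_pos hxS, ← hk x ⟨hxS, hx⟩]
        ring
      · rw [if_neg hxS]
  · intro x hx
    change Complex.exp (if x ∈ S then l1 x else l2 x + (l1 p - l2 p)) = f x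
    by_cases hxS : x ∈ S
    · rw [if_pos hxS, e1 x hxS]
    · rw [if_neg hxS, Complex.exp_add, hone, mul_one]
      rcases hx with hx | hx
      · exact absurd hx hxS
      · exact e2 x hx

end JAN

open JAN in
theorem t_JAN : M_JAN := by
  intro hLPC hPTA hDEG hPNT hJCT hEON hETW Y _ U J0 T0 f0 hU J T1 T2 hJ hJU c1 c2 s1 s2 hconn y z
    j1 j2
  have m1 := j1.mem
  have m2 := j2.mem
  have hy : y ∈ ins J \ (T1 ∪ T2) := ⟨m1.1.1, fun h => h.elim m1.1.2 m2.1.2⟩
  have hz : z ∈ ins J \ (T1 ∪ T2) := ⟨m1.2.1, fun h => h.elim m1.2.2 m2.2.2⟩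
  by_cases hyz : y = z
  · rw [← hyz]
    exact JoinedIn.refl hy
  have hAx := hU.ax
  have := hLPC Y hAx
  obtain ⟨⟨fJ, hfJ⟩, -, -⟩ := hDEG Y J hJ
  obtain ⟨hM, -, -, -, -, -, -, -⟩ := hJCT Y U J0 T0 f0 hU J fJ hJ hJU hfJ
  obtain ⟨F, hF⟩ := hPNT Y hAx J (ins J) fJ y hM hy.1
  obtain ⟨G, hG⟩ := hPNT Y hAx J (ins J) fJ z hM hz.1
  obtain ⟨A1, a1, b1⟩ := hPTA.2 Y (ins J \ T1) y z j1 hyz
  obtain ⟨A2, a2, b2⟩ := hPTA.2 Y (ins J \ T2) y z j2 hyz
  have l1 : CLog T1 fun x => F x / G x := by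
    refine (hEON Y U J0 T0 f0 hU J A1 fJ F G y z hJ hJU hfJ b1 (fun x hx => (a1 hx).1) hF hG).mono
      fun x hx => ⟨s1 hx, fun h => (a1 h).2 hx⟩
  have l2 : CLog T2 fun x => F x / G x := by
    refine (hEON Y U J0 T0 f0 hU J A2 fJ F G y z hJ hJU hfJ b2 (fun x hx => (a2 hx).1) hF hG).mono
      fun x hx => ⟨s2 hx, fun h => (a2 h).2 hx⟩
  have l3 := glue c1.isClosed c2.isClosed hconn l1 l2
  have hTc : IsCompact (T1 ∪ T2) := c1.union c2
  have hop : IsOpen (ins J \ (T1 ∪ T2)) := hM.opn.sdiff hTc.isClosed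
  have hR : z ∈ pathComponentIn (ins J \ (T1 ∪ T2)) y := by
    refine hETW Y J (ins J) (T1 ∪ T2) (pathComponentIn (ins J \ (T1 ∪ T2)) y) fJ F G y z hM hTc
      (union_subset s1 s2) hy.2 hz.2 hz.1 hF hG l3 (hop.pathComponentIn y) ?_ ?_ ?_ ?_
    · intro x hx
      exact (pathComponentIn_subset hx).1
    · rw [Set.disjoint_left]
      intro x hx
      exact (pathComponentIn_subset hx).2
    · rintro x ⟨hx, hxV⟩
      by_cases hxT : x ∈ T1 ∪ T2
      · exact Or.inr hxT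
      · left
        have hxm : x ∈ ins J \ (T1 ∪ T2) := ⟨hxV, hxT⟩
        obtain ⟨w, hw1, hw2⟩ := mem_closure_iff.1 hx (pathComponentIn (ins J \ (T1 ∪ T2)) x)
          (hop.pathComponentIn x) (mem_pathComponentIn_self hxm)
        have h1 : JoinedIn (ins J \ (T1 ∪ T2)) x w := hw1
        have h2 : JoinedIn (ins J \ (T1 ∪ T2)) y w := hw2
        exact h2.trans h1.symm
    · exact mem_pathComponentIn_self hy
  exact hR

end BBP
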