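import Pool.Agent.BBP.StmtsB

/-!
MP_6eac38_gt, module JC2: every side of a simple closed curve has the whole curve in its boundary.
-/

set_option autoImplicit false

namespace BBP

open Set Topology

theorem t_JC2 : M_JC2 := by
  intro hSCB hARB hNSP Y _ U J0 T0 f0 hU C V hC hCU hV x hx
  by_contra hxV
  obtain ⟨-, -, -, h4, -⟩ := hSCB Y C hC
  obtain ⟨A, B, a, b, hA, -, hAB, -, -, hxA, hBW⟩ :=
    h4 x hx (closure V)ᶜ isClosed_closure.isOpen_compl hxV
  have hAC : A ⊆ C := fun y hy => hAB ▸ Or.inl hy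
  obtain ⟨-, -, -, -, hAc, -, hAlog, -⟩ := hARB Y A a b hA
  have hconn : IsConnected (U \ A) :=
    hNSP Y hU.ax J0 U A f0 hU.mem (hAC.trans hCU) hAc hAlog
  obtain ⟨hVo, ⟨v, hv⟩, hVU, hVc⟩ := hV
  have h1 : U \ A ⊆ V ∪ (closure V)ᶜ := by
    intro y hy
    by_cases hyV : y ∈ closure V
    · rcases hVc ⟨hyV, hy.1⟩ with h | h
      · exact Or.inl h
      · rw [← hAB] at h
        rcases h with h | h
        · exact absurd h hy.2
        · exact absurd hyV (hBW h)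
    · exact Or.inr hyV
  obtain ⟨y, -, hy1, hy2⟩ := hconn.isPreconnected V (closure V)ᶜ hVo
    isClosed_closure.isOpen_compl h1 ⟨v, ⟨(hVU hv).1, fun h => (hVU hv).2 (hAC h)⟩, hv⟩
    ⟨x, ⟨hCU hx, hxA⟩, hxV⟩
  exact hy2 (subset_closure hy1)

end BBP
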