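import Pool.Agent.BBP.StmtsB

/-!
# JC3: an scc has at most two sides
-/

set_option autoImplicit false

namespace BBP

open Set Topology
open Pool.Agent.LIX (CLog)

namespace JC3

variable {Y : Type} [MetricSpace Y]

theorem clo_sub {U C V S : Set Y} (hV : Clo U C V) (hS : IsPreconnected S) (hSU : S ⊆ U \ C)
    (hne : (S ∩ V).Nonempty) : S ⊆ V := by
  apply hS.subset_of_closure_inter_subset hV.1 hne
  rintro x ⟨hx, hxS⟩
  have h1 := hSU hxS
  rcases hV.2.2.2 ⟨hx, h1.1⟩ with h | h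
  · exact h
  · exact absurd h h1.2

theorem clo_comp [LocallyConnectedSpace Y] {U C : Set Y} (hU : IsOpen U) (hC : IsClosed C)
    {x : Y} (hx : x ∈ U \ C) : Clo U C (connectedComponentIn (U \ C) x) := by
  have ho : IsOpen (U \ C) := hU.sdiff hC
  refine ⟨ho.connectedComponentIn, ⟨x, mem_connectedComponentIn hx⟩,
    connectedComponentIn_subset _ _, ?_⟩
  rintro y ⟨hy, hyU⟩
  by_cases hyC : y ∈ C
  · exact Or.inr hyC
  · left
    have hyUC : y ∈ U \ C := ⟨hyU, hyC⟩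
    have h1 : IsOpen (connectedComponentIn (U \ C) y) := ho.connectedComponentIn
    obtain ⟨z, hz1, hz2⟩ := mem_closure_iff.mp hy _ h1 (mem_connectedComponentIn hyUC)
    have e1 := connectedComponentIn_eq hz1
    have e2 := connectedComponentIn_eq hz2
    rw [e2, ← e1]
    exact mem_connectedComponentIn hyUC

/-- small neighbourhoods of the points of an scc -/
theorem nbh {γ : ℝ → Y} (hSCA : S_SCA) (hγ : Scp γ) {a m b : ℝ} (ham : a < m) (hmb : m < b)
    (hb : b < a + 1) : ∃ N : Set Y, IsOpen N ∧ γ m ∈ N ∧ N ∩ range γ ⊆ γ '' Ioo a b := by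
  obtain ⟨h1, -⟩ := hSCA Y γ hγ
  have hper : γ (a + 1) = γ a := hγ.2.1 a
  have e : ∀ {s t : ℝ}, s ∈ Ico a (a + 1) → t ∈ Ico a (a + 1) → γ s = γ t → s = t :=
    fun hs ht h => (h1 a).1 hs ht h
  refine ⟨(γ '' Icc b (a + 1))ᶜ, (isCompact_Icc.image hγ.1).isClosed.isOpen_compl, ?_, ?_⟩
  · rintro ⟨t, ht, hte⟩
    have ht1 := ht.1
    rcases ht.2.lt_or_eq with h | h
    · have h2 := e (s := t) (t := m) ⟨by linarith, h⟩ ⟨ham.le, by linarith⟩ hte
      linarith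
    · rw [h, hper] at hte
      have h2 := e (s := a) (t := m) ⟨le_refl _, by linarith⟩ ⟨ham.le, by linarith⟩ hte
      linarith
  · rintro y ⟨hyN, hyC⟩
    rw [← (h1 a).2] at hyC
    obtain ⟨t, ht, rfl⟩ := hyC
    refine ⟨t, ⟨?_, ?_⟩, rfl⟩
    · rcases ht.1.lt_or_eq with h | h
      · exact h
      · exfalso
        apply hyN
        rw [← h]
        exact ⟨a + 1, ⟨hb.le, le_refl _⟩, hper⟩
    · by_contra h
      exact hyN ⟨t, ⟨not_lt.mp h, ht.2⟩, rfl⟩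

theorem access (hSCA : S_SCA) (hACC : S_ACC) [LocallyPathConnectedSpace Y] {U V : Set Y}
    {γ : ℝ → Y} (hγ : Scp γ) (hU : IsOpen U) (hCc : IsClosed (range γ)) (hCU : range γ ⊆ U)
    (hV : Clo U (range γ) V) (hCV : range γ ⊆ closure V) {a m b : ℝ} (ham : a < m) (hmb : m < b)
    (hb : b < a + 1) : ∃ s ∈ Ioo a b, Accs V (γ s) := by
  obtain ⟨N, hN, hmN, hNC⟩ := nbh hSCA hγ ham hmb hb
  have hmC : γ m ∈ range γ := mem_range_self m
  obtain ⟨p', ⟨hp'C, hp'N⟩, hacc⟩ := hACC.1 Y inferInstance U (range γ) V hU hCc hCU hV (γ m)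
    hmC (hCV hmC) N hN hmN
  obtain ⟨s, hs, rfl⟩ := hNC ⟨hp'N, hp'C⟩
  refine ⟨s, hs, ?_⟩
  obtain ⟨α, h1, h2, h3⟩ := hacc
  exact ⟨α, h1, h2, fun t ht => (h3 t ht).1⟩

/-- the points of a cross-cut -/
theorem cases_A {A V : Set Y} {p q y : Y} (hA : A \ {p, q} ⊆ V) (hy : y ∈ A) :
    y = p ∨ y = q ∨ y ∈ V := by
  by_cases h : y ∈ ({p, q} : Set Y)
  · rcases h with h | h
    · exact Or.inl h
    · exact Or.inr (Or.inl h)
  · exact Or.inr (Or.inr (hA ⟨hy, h⟩))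

/-- the second scc -/
theorem theta (hSCA : S_SCA) (hARB : S_ARB) (hGLU : S_GLU) {γ : ℝ → Y} (hγ : Scp γ)
    {V1 V2 A1 A2 : Set Y} (hd : Disjoint V1 V2) (h1C : Disjoint V1 (range γ))
    (h2C : Disjoint V2 (range γ)) {s1 s2 t1 t2 : ℝ} (h12 : s1 < s2) (h23 : s2 < t1)
    (h34 : t1 < t2) (h45 : t2 < s1 + 1)
    (hA1 : Arc A1 (γ s1) (γ t1)) (hA1V : A1 \ {γ s1, γ t1} ⊆ V1)
    (hA2 : Arc A2 (γ s2) (γ t2)) (hA2V : A2 \ {γ s2, γ t2} ⊆ V2) :
    Scc ((A1 ∪ γ '' Icc t1 t2) ∪ (A2 ∪ γ '' Icc s1 s2)) := by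
  obtain ⟨hin, harc⟩ := hSCA Y γ hγ
  have inj := (hin s1).1
  have e : ∀ {s t : ℝ}, s ∈ Ico s1 (s1 + 1) → t ∈ Ico s1 (s1 + 1) → γ s = γ t → s = t :=
    fun hs ht h => inj hs ht h
  have m1 : s1 ∈ Ico s1 (s1 + 1) := ⟨le_refl _, by linarith⟩
  have m2 : s2 ∈ Ico s1 (s1 + 1) := ⟨by linarith, by linarith⟩
  have m3 : t1 ∈ Ico s1 (s1 + 1) := ⟨by linarith, by linarith⟩
  have m4 : t2 ∈ Ico s1 (s1 + 1) := ⟨by linarith, by linarith⟩
  have mB1 : ∀ {t : ℝ}, t ∈ Icc t1 t2 → t ∈ Ico s1 (s1 + 1) := fun ht =>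
    ⟨by linarith [ht.1], by linarith [ht.2]⟩
  have mB2 : ∀ {t : ℝ}, t ∈ Icc s1 s2 → t ∈ Ico s1 (s1 + 1) := fun ht =>
    ⟨ht.1, by linarith [ht.2]⟩
  have v1 : ∀ {t : ℝ}, γ t ∉ V1 := fun h => Set.disjoint_left.mp h1C h (mem_range_self _)
  have v2 : ∀ {t : ℝ}, γ t ∉ V2 := fun h => Set.disjoint_left.mp h2C h (mem_range_self _)
  have hB1 : Arc (γ '' Icc t1 t2) (γ t1) (γ t2) := (harc t1 t2 h34 (by linarith)).1
  have hB2 : Arc (γ '' Icc s1 s2) (γ s1) (γ s2) := (harc s1 s2 h12 (by linarith)).1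
  have hB2' : Arc (γ '' Icc s1 s2) (γ s2) (γ s1) := (hARB Y _ _ _ hB2).2.2.2.1
  have hA1e := hARB Y _ _ _ hA1
  have hA2e := hARB Y _ _ _ hA2
  have hA2' : Arc A2 (γ t2) (γ s2) := hA2e.2.2.2.1
  have hP : Arc (A1 ∪ γ '' Icc t1 t2) (γ s1) (γ t2) := by
    refine hGLU.2 Y _ _ _ _ _ hA1 hB1 ?_
    ext y
    constructor
    · rintro ⟨hy, t, ht, rfl⟩
      rcases cases_A hA1V hy with h | h | h
      · have h3 := e (mB1 ht) m1 h
        linarith [ht.1]
      · exact h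
      · exact absurd h v1
    · rintro rfl
      exact ⟨hA1e.2.2.1, t1, ⟨le_refl _, h34.le⟩, rfl⟩
  have hQ : Arc (A2 ∪ γ '' Icc s1 s2) (γ t2) (γ s1) := by
    refine hGLU.2 Y _ _ _ _ _ hA2' hB2' ?_
    ext y
    constructor
    · rintro ⟨hy, t, ht, rfl⟩
      rcases cases_A hA2V hy with h | h | h
      · exact h
      · have h3 := e (mB2 ht) m4 h
        linarith [ht.2]
      · exact absurd h v2
    · rintro rfl
      exact ⟨hA2e.2.1, s2, ⟨h12.le, le_refl _⟩, rfl⟩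
  have hQ' : Arc (A2 ∪ γ '' Icc s1 s2) (γ s1) (γ t2) := (hARB Y _ _ _ hQ).2.2.2.1
  refine (hGLU.1 Y _ _ _ _ hP hQ' ?_).1
  ext y
  constructor
  · rintro ⟨hy | ⟨t, ht, rfl⟩, hy' | ⟨t', ht', hte⟩⟩
    · rcases cases_A hA1V hy with rfl | rfl | h
      · rcases cases_A hA2V hy' with h' | h' | h'
        · have h3 := e m1 m2 h'
          linarith
        · have h3 := e m1 m4 h'
          linarith
        · exact absurd h' v2
      · rcases cases_A hA2V hy' with h' | h' | h'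
        · have h3 := e m3 m2 h'
          linarith
        · have h3 := e m3 m4 h'
          linarith
        · exact absurd h' v2
      · rcases cases_A hA2V hy' with rfl | rfl | h'
        · exact absurd h v1
        · exact absurd h v1
        · exact absurd h' (Set.disjoint_left.mp hd h)
    · rcases cases_A hA1V hy with h | h | h
      · exact Or.inl h
      · have h3 := e (mB2 ht') m3 (hte.trans h)
        linarith [ht'.2]
      · rw [← hte] at h
        exact absurd h v1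
    · rcases cases_A hA2V hy' with h | h | h
      · have h3 := e (mB1 ht) m2 h
        linarith [ht.1]
      · exact Or.inr h
      · exact absurd h v2
    · have h3 := e (mB2 ht') (mB1 ht) hte
      linarith [ht.1, ht'.2]
  · rintro (rfl | rfl)
    · exact ⟨Or.inl hA1e.2.1, Or.inr ⟨s1, ⟨le_refl _, h12.le⟩, rfl⟩⟩
    · exact ⟨Or.inr ⟨t2, ⟨h34.le, le_refl _⟩, rfl⟩, Or.inl hA2e.2.2.1⟩

/-- an scc in `U` has two sides, and a connected set misses one of them -/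
theorem side (hDEG : S_DEG) (hINQ : S_INQ) (hSCB : S_SCB) [LocallyConnectedSpace Y]
    {U J0 T0 : Set Y} {f0 : Y → ℂ} (hU : Uni U J0 T0 f0) {J S : Set Y} (hJ : Scc J)
    (hJU : J ⊆ U) (hS : IsPreconnected S) (hSU : S ⊆ U \ J) :
    ∃ R : Set Y, Clo U J R ∧ IsPreconnected R ∧ Disjoint R S := by
  obtain ⟨f, hf⟩ := (hDEG Y J hJ).1
  obtain ⟨Q, hQT, hQU, hQ⟩ := hINQ Y U J0 T0 f0 hU J T0 f hJ hJU hf hU.cptT
    (hU.contr J hJ hJU)
  have hJc : IsClosed J := ((hSCB Y J hJ).1).isClosed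
  have hUo : IsOpen U := hU.mem.opn
  have hQclo : Clo U J Q := by
    refine ⟨hQ.opn, hQ.conn.nonempty, ?_, ?_⟩
    · intro y hy
      exact ⟨hQU hy, fun h => Set.disjoint_left.mp hQ.disj hy h⟩
    · rintro y ⟨hy, -⟩
      exact hQ.clos hy
  by_cases hSQ : (S ∩ Q).Nonempty
  · have hSsub : S ⊆ Q := clo_sub hQclo hS hSU hSQ
    have hne : ∃ y, y ∈ U \ (J ∪ Q) := by
      by_contra hcon
      push Not at hcon
      have hUe : U = J ∪ Q := by
        apply Subset.antisymm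
        · intro y hy
          by_contra h
          exact hcon y ⟨hy, h⟩
        · exact union_subset hJU hQU
      have hcU : IsClosed U := by
        rw [hUe]
        exact hQ.cpt.isClosed
      have := hU.ax.conn
      have huniv : U = univ := IsClopen.eq_univ ⟨hcU, hUo⟩ hU.mem.conn.nonempty
      apply hU.ax.ncpt
      rw [← isCompact_univ_iff, ← huniv, hUe]
      exact hQ.cpt
    obtain ⟨y, hyU, hyJQ⟩ := hne
    have hy : y ∈ U \ J := ⟨hyU, fun h => hyJQ (Or.inl h)⟩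
    refine ⟨connectedComponentIn (U \ J) y, clo_comp hUo hJc hy,
      isPreconnected_connectedComponentIn, ?_⟩
    rw [Set.disjoint_left]
    intro z hz hzS
    have h1 : connectedComponentIn (U \ J) y ⊆ Q :=
      clo_sub hQclo isPreconnected_connectedComponentIn (connectedComponentIn_subset _ _)
        ⟨z, hz, hSsub hzS⟩
    exact hyJQ (Or.inr (h1 (mem_connectedComponentIn hy)))
  · refine ⟨Q, hQclo, hQ.conn.isPreconnected, ?_⟩
    rw [Set.disjoint_left]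
    intro z hz hzS
    exact hSQ ⟨z, hzS, hz⟩

end JC3

/-- at most two components -/
theorem t_JC3 : M_JC3 := by
  intro hLPC hSCA hSCB hARB hGLU hDEG hINQ hJC2 hACC Y _ U J0 T0 f0 hU C V1 V2 hC hCU hV1 hV2
    hV1c hV2c hd x hx
  have hlpc : LocallyPathConnectedSpace Y := hLPC Y hU.ax
  by_contra hcon
  have hUo : IsOpen U := hU.mem.opn
  have hCcl : IsClosed C := ((hSCB Y C hC).1).isClosed
  have hx1 : x ∉ V1 := fun h => hcon (Or.inl h)
  have hx2 : x ∉ V2 := fun h => hcon (Or.inr h)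
  set V3 := connectedComponentIn (U \ C) x with hV3d
  have hV3 : Clo U C V3 := JC3.clo_comp hUo hCcl hx
  have hxV3 : x ∈ V3 := mem_connectedComponentIn hx
  have hV3c : IsPreconnected V3 := isPreconnected_connectedComponentIn
  have hd13 : Disjoint V3 V1 := by
    rw [Set.disjoint_left]
    intro z hz hz1
    exact hx1 (JC3.clo_sub hV1 hV3c hV3.2.2.1 ⟨z, hz, hz1⟩ hxV3)
  have hd23 : Disjoint V3 V2 := by
    rw [Set.disjoint_left]
    intro z hz hz2
    exact hx2 (JC3.clo_sub hV2 hV3c hV3.2.2.1 ⟨z, hz, hz2⟩ hxV3)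
  have hc1 : C ⊆ closure V1 := hJC2 Y U J0 T0 f0 hU C V1 hC hCU hV1
  have hc2 : C ⊆ closure V2 := hJC2 Y U J0 T0 f0 hU C V2 hC hCU hV2
  have hc3 : C ⊆ closure V3 := hJC2 Y U J0 T0 f0 hU C V3 hC hCU hV3
  have hdC : ∀ {V : Set Y}, Clo U C V → Disjoint V C := fun hV => by
    rw [Set.disjoint_left]
    intro z hz hzC
    exact (hV.2.2.1 hz).2 hzC
  obtain ⟨γ, hγ, rfl⟩ := id hC
  obtain ⟨s1, hs1, hs1A⟩ := JC3.access (a := 1 / 8) (m := 3 / 16) (b := 1 / 4) hSCA hACC hγ hUo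
    hCcl hCU hV1 hc1 (by norm_num) (by norm_num) (by norm_num)
  obtain ⟨s2, hs2, hs2A⟩ := JC3.access (a := 1 / 4) (m := 5 / 16) (b := 3 / 8) hSCA hACC hγ hUo
    hCcl hCU hV2 hc2 (by norm_num) (by norm_num) (by norm_num)
  obtain ⟨t1, ht1, ht1A⟩ := JC3.access (a := 5 / 8) (m := 11 / 16) (b := 3 / 4) hSCA hACC hγ hUo
    hCcl hCU hV1 hc1 (by norm_num) (by norm_num) (by norm_num)
  obtain ⟨t2, ht2, ht2A⟩ := JC3.access (a := 3 / 4) (m := 13 / 16) (b := 7 / 8) hSCA hACC hγ hUo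
    hCcl hCU hV2 hc2 (by norm_num) (by norm_num) (by norm_num)
  have h12 : s1 < s2 := by linarith [hs1.2, hs2.1]
  have h23 : s2 < t1 := by linarith [hs2.2, ht1.1]
  have h34 : t1 < t2 := by linarith [ht1.2, ht2.1]
  have h45 : t2 < s1 + 1 := by linarith [ht2.2, hs1.1]
  obtain ⟨hin, harc⟩ := hSCA Y γ hγ
  have e : ∀ {s t : ℝ}, s ∈ Ico s1 (s1 + 1) → t ∈ Ico s1 (s1 + 1) → γ s = γ t → s = t :=
    fun hs ht h => (hin s1).1 hs ht h
  have m1 : s1 ∈ Ico s1 (s1 + 1) := ⟨le_refl _, by linarith⟩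
  have m2 : s2 ∈ Ico s1 (s1 + 1) := ⟨by linarith, by linarith⟩
  have m3 : t1 ∈ Ico s1 (s1 + 1) := ⟨by linarith, by linarith⟩
  have m4 : t2 ∈ Ico s1 (s1 + 1) := ⟨by linarith, by linarith⟩
  obtain ⟨A1, hA1, hA1V⟩ := hACC.2 Y hlpc V1 (γ s1) (γ t1) hV1.1 hV1c
    (fun h => by linarith [e m1 m3 h]) hs1A ht1A
  obtain ⟨A2, hA2, hA2V⟩ := hACC.2 Y hlpc V2 (γ s2) (γ t2) hV2.1 hV2c
    (fun h => by linarith [e m2 m4 h]) hs2A ht2A
  have hJ := JC3.theta hSCA hARB hGLU hγ hd (hdC hV1) (hdC hV2) h12 h23 h34 h45 hA1 hA1V hA2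
    hA2V
  set J := (A1 ∪ γ '' Icc t1 t2) ∪ (A2 ∪ γ '' Icc s1 s2) with hJd
  have hJU : J ⊆ U := by
    rintro y ((hy | ⟨t, -, rfl⟩) | (hy | ⟨t, -, rfl⟩))
    · rcases JC3.cases_A hA1V hy with rfl | rfl | h
      · exact hCU (mem_range_self _)
      · exact hCU (mem_range_self _)
      · exact (hV1.2.2.1 h).1
    · exact hCU (mem_range_self _)
    · rcases JC3.cases_A hA2V hy with rfl | rfl | h
      · exact hCU (mem_range_self _)
      · exact hCU (mem_range_self _)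
      · exact (hV2.2.2.1 h).1
    · exact hCU (mem_range_self _)
  have v1 : ∀ {t : ℝ}, γ t ∉ V1 := fun h => (hV1.2.2.1 h).2 (mem_range_self _)
  have v2 : ∀ {t : ℝ}, γ t ∉ V2 := fun h => (hV2.2.2.1 h).2 (mem_range_self _)
  -- a point of the two open arcs is not in `J`
  have hOJ : ∀ r : ℝ, r ∈ Ioo s2 t1 ∪ Ioo t2 (s1 + 1) → γ r ∉ J := by
    intro r hr
    have mr : r ∈ Ico s1 (s1 + 1) := by
      rcases hr with hr | hr
      · exact ⟨by linarith [hr.1], by linarith [hr.2]⟩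
      · exact ⟨by linarith [hr.1], hr.2⟩
    have hr' : r ≠ s1 ∧ r ≠ s2 ∧ r ≠ t1 ∧ r ≠ t2 := by
      rcases hr with hr | hr
      · refine ⟨?_, ?_, ?_, ?_⟩ <;> intro h <;> linarith [hr.1, hr.2]
      · refine ⟨?_, ?_, ?_, ?_⟩ <;> intro h <;> linarith [hr.1, hr.2]
    rintro ((hy | ⟨t, ht, hte⟩) | (hy | ⟨t, ht, hte⟩))
    · rcases JC3.cases_A hA1V hy with h | h | h
      · exact hr'.1 (e mr m1 h)
      · exact hr'.2.2.1 (e mr m3 h)
      · exact v1 h
    · have h3 := e (s := t) (t := r) ⟨by linarith [ht.1], by linarith [ht.2]⟩ mr hte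
      subst h3
      rcases hr with hr | hr
      · linarith [ht.1, hr.2]
      · linarith [ht.2, hr.1]
    · rcases JC3.cases_A hA2V hy with h | h | h
      · exact hr'.2.1 (e mr m2 h)
      · exact hr'.2.2.2 (e mr m4 h)
      · exact v2 h
    · have h3 := e (s := t) (t := r) ⟨ht.1, by linarith [ht.2]⟩ mr hte
      subst h3
      rcases hr with hr | hr
      · linarith [ht.2, hr.1]
      · linarith [ht.2, hr.1]
  -- the third side with the two open arcs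
  set S := V3 ∪ γ '' (Ioo s2 t1 ∪ Ioo t2 (s1 + 1)) with hSd
  have hS : IsPreconnected S := by
    refine hV3c.subset_closure subset_union_left (union_subset subset_closure ?_)
    exact (image_subset_range _ _).trans hc3
  have hSU : S ⊆ U \ J := by
    rintro y (hy | ⟨r, hr, rfl⟩)
    · refine ⟨(hV3.2.2.1 hy).1, ?_⟩
      have hyC : y ∉ range γ := (hV3.2.2.1 hy).2
      rintro ((hy' | ⟨t, -, rfl⟩) | (hy' | ⟨t, -, rfl⟩))
      · rcases JC3.cases_A hA1V hy' with rfl | rfl | h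
        · exact hyC (mem_range_self _)
        · exact hyC (mem_range_self _)
        · exact Set.disjoint_left.mp hd13 hy h
      · exact hyC (mem_range_self _)
      · rcases JC3.cases_A hA2V hy' with rfl | rfl | h
        · exact hyC (mem_range_self _)
        · exact hyC (mem_range_self _)
        · exact Set.disjoint_left.mp hd23 hy h
      · exact hyC (mem_range_self _)
    · exact ⟨hCU (mem_range_self _), hOJ r hr⟩
  obtain ⟨R, hR, hRc, hRS⟩ := JC3.side hDEG hINQ hSCB hU hJ hJU hS hSU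
  have hJR : J ⊆ closure R := hJC2 Y U J0 T0 f0 hU J R hJ hJU hR
  have hRC : R ⊆ U \ range γ := by
    intro y hy
    refine ⟨(hR.2.2.1 hy).1, ?_⟩
    intro hyC
    rw [← (hin s1).2] at hyC
    obtain ⟨t, ht, rfl⟩ := hyC
    have hnJ : γ t ∉ J := (hR.2.2.1 hy).2
    have hnS : γ t ∉ S := fun h => Set.disjoint_left.mp hRS hy h
    rcases le_or_gt t s2 with h1 | h1
    · exact hnJ (Or.inr (Or.inr ⟨t, ⟨ht.1, h1⟩, rfl⟩))
    rcases lt_or_ge t t1 with h2 | h2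
    · exact hnS (Or.inr ⟨t, Or.inl ⟨h1, h2⟩, rfl⟩)
    rcases le_or_gt t t2 with h3 | h3
    · exact hnJ (Or.inl (Or.inr ⟨t, ⟨h2, h3⟩, rfl⟩))
    rcases ht.2.lt_or_eq with h4 | h4
    · exact hnS (Or.inr ⟨t, Or.inr ⟨h3, h4⟩, rfl⟩)
    · have hper : γ (s1 + 1) = γ s1 := hγ.2.1 s1
      rw [h4, hper] at hnJ
      exact hnJ (Or.inr (Or.inr ⟨s1, ⟨le_refl _, h12.le⟩, rfl⟩))
  have key : ∀ {A V : Set Y} {p q : Y}, Arc A p q → A \ {p, q} ⊆ V → A ⊆ J → Clo U (range γ) V →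
      R ⊆ V := by
    intro A V p q hA hAV hAJ hV
    obtain ⟨z, hz⟩ := ((hARB Y A p q hA).2.2.2.2.2.2.2.2.1).nonempty
    obtain ⟨u, hu1, hu2⟩ := mem_closure_iff.mp (hJR (hAJ hz.1)) V hV.1 (hAV hz)
    exact JC3.clo_sub hV hRc hRC ⟨u, hu2, hu1⟩
  have hR1 : R ⊆ V1 := key hA1 hA1V (subset_union_left.trans subset_union_left) hV1
  have hR2 : R ⊆ V2 := key hA2 hA2V (subset_union_left.trans subset_union_right) hV2
  obtain ⟨z, hz⟩ := hR.2.1
  exact Set.disjoint_left.mp hd (hR1 hz) (hR2 hz)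

end BBP
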