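import Pool.Agent.BBP.StmtsB

/-!
# BBP, block B, module JCT: the Jordan curve theorem
-/

set_option autoImplicit false

namespace BBP

open Set Topology

namespace JCT

variable {Y : Type} [MetricSpace Y] {U J0 T0 : Set Y} {f0 : Y → ℂ}

/-- the universe is not compact -/
theorem ncp (hU : Uni U J0 T0 f0) : ¬ IsCompact U := by
  intro h
  have hc : ConnectedSpace Y := hU.ax.conn
  have h1 : IsClopen U := ⟨h.isClosed, hU.mem.opn⟩
  rcases isClopen_iff.1 h1 with h2 | h2
  · obtain ⟨x, hx⟩ := hU.mem.conn.nonempty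
    rw [h2] at hx
    exact hx
  · exact hU.ax.ncpt ⟨by rwa [h2] at h⟩

/-- the complement of the universe is connected -/
theorem pre (hU : Uni U J0 T0 f0) (hJ : IsConnected J0) : IsPreconnected Uᶜ := by
  have hc : ConnectedSpace Y := hU.ax.conn
  have hJU : J0 ⊆ Uᶜ := fun x hx hxU => (Set.disjoint_left.1 hU.mem.disj) hxU hx
  have key : ∀ u v : Set Y, IsClosed u → IsClosed v → Uᶜ ⊆ u ∪ v → Uᶜ ∩ (u ∩ v) = ∅ →
      J0 ⊆ u → Uᶜ ⊆ u := by
    intro u v hu hv huv hd hJu
    have hR : IsClosed (Uᶜ ∩ v) := hU.mem.opn.isClosed_compl.inter hv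
    have hP : IsClosed (U ∪ (Uᶜ ∩ u)) := by
      apply isClosed_of_closure_subset
      rw [closure_union]
      rintro x (hx | hx)
      · rcases hU.mem.clos hx with h | h
        · exact Or.inl h
        · exact Or.inr ⟨hJU h, hJu h⟩
      · rw [(hU.mem.opn.isClosed_compl.inter hu).closure_eq] at hx
        exact Or.inr hx
    have he : (Uᶜ ∩ v)ᶜ = U ∪ (Uᶜ ∩ u) := by
      ext x
      constructor
      · intro hx
        by_cases hxU : x ∈ U
        · exact Or.inl hxU
        · rcases huv hxU with h | h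
          · exact Or.inr ⟨hxU, h⟩
          · exact absurd ⟨hxU, h⟩ hx
      · rintro (hx | hx) ⟨h1, h2⟩
        · exact h1 hx
        · have : x ∈ Uᶜ ∩ (u ∩ v) := ⟨h1, hx.2, h2⟩
          rw [hd] at this
          exact this
    have hop : IsOpen (Uᶜ ∩ v) := by
      rw [← compl_compl (Uᶜ ∩ v), he]
      exact hP.isOpen_compl
    rcases isClopen_iff.1 (⟨hR, hop⟩ : IsClopen (Uᶜ ∩ v)) with h | h
    · intro x hx
      rcases huv hx with h1 | h1
      · exact h1
      · have : x ∈ Uᶜ ∩ v := ⟨hx, h1⟩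
        rw [h] at this
        exact this.elim
    · obtain ⟨x, hx⟩ := hU.mem.conn.nonempty
      have : x ∈ Uᶜ ∩ v := by rw [h]; exact mem_univ x
      exact absurd hx this.1
  rw [isPreconnected_iff_subset_of_disjoint_closed]
  intro u v hu hv huv hd
  rcases (isPreconnected_iff_subset_of_disjoint_closed.1 hJ.isPreconnected) u v hu hv
    (hJU.trans huv) (subset_empty_iff.1 (by
      rw [← hd]; exact inter_subset_inter_left _ hJU)) with h | h
  · exact Or.inl (key u v hu hv huv hd h)
  · exact Or.inr (key v u hv hu (by rwa [union_comm]) (by rwa [inter_comm v u]) h)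

/-- the members of the family in the definition of `ins` -/
def Fam (C Q : Set Y) : Prop :=
  IsOpen Q ∧ IsConnected Q ∧ Disjoint Q C ∧ IsCompact (C ∪ Q)

/-- a connected set disjoint from `C` is in `Q` or disjoint from it -/
theorem dich {C Q Z : Set Y} (hQ : Fam C Q) (hZ : IsPreconnected Z) (hZC : Disjoint Z C) :
    Z ⊆ Q ∨ Disjoint Z Q := by
  rcases (isPreconnected_iff_subset_of_disjoint.1 hZ) Q (C ∪ Q)ᶜ hQ.1
    hQ.2.2.2.isClosed.isOpen_compl (by
      intro x hx
      by_cases h : x ∈ Q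
      · exact Or.inl h
      · refine Or.inr ?_
        rintro (h1 | h1)
        · exact (Set.disjoint_left.1 hZC) hx h1
        · exact h h1) (by
      ext x
      constructor
      · rintro ⟨_, h1, h2⟩
        exact h2 (Or.inr h1)
      · intro h
        exact h.elim) with h | h
  · exact Or.inl h
  · exact Or.inr (Set.disjoint_left.2 fun x hx hxQ => h hx (Or.inr hxQ))

theorem fam_sub (hU : Uni U J0 T0 f0) (hJ : IsConnected J0) {C Q : Set Y} (hCU : C ⊆ U)
    (hQ : Fam C Q) : Q ⊆ U := by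
  have hd : Disjoint Uᶜ C := Set.disjoint_left.2 fun x hx hxC => hx (hCU hxC)
  rcases dich hQ (pre hU hJ) hd with h | h
  · exfalso
    apply hU.ax.ncpt
    refine ⟨?_⟩
    have e : (univ : Set Y) = (J0 ∪ U) ∪ (C ∪ Q) := by
      ext x
      constructor
      · intro _
        by_cases hx : x ∈ U
        · exact Or.inl (Or.inr hx)
        · exact Or.inr (Or.inr (h hx))
      · intro _
        exact mem_univ x
    rw [e]
    exact hU.mem.cpt.union hQ.2.2.2
  · intro x hx
    by_contra hxU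
    exact (Set.disjoint_left.1 h) hxU hx

theorem fam_clo (hU : Uni U J0 T0 f0) (hJ : IsConnected J0) {C Q : Set Y} (hCU : C ⊆ U)
    (hQ : Fam C Q) : Clo U C Q := by
  refine ⟨hQ.1, hQ.2.1.nonempty, fun x hx => ⟨fam_sub hU hJ hCU hQ hx, fun hxC =>
    (Set.disjoint_left.1 hQ.2.2.1) hx hxC⟩, ?_⟩
  rintro x ⟨hx, _⟩
  have h1 : closure Q ⊆ C ∪ Q := closure_minimal subset_union_right hQ.2.2.2.isClosed
  rcases h1 hx with h | h
  · exact Or.inr h
  · exact Or.inl h

theorem fam_uniq (hU : Uni U J0 T0 f0) (hJ : IsConnected J0) (h3 : S_JC3) {C Q Q' : Set Y}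
    (hC : Scc C) (hCU : C ⊆ U) (hQ : Fam C Q) (hQ' : Fam C Q') : Q = Q' := by
  rcases dich hQ hQ'.2.1.isPreconnected hQ'.2.2.1 with h1 | h1
  · rcases dich hQ' hQ.2.1.isPreconnected hQ.2.2.1 with h2 | h2
    · exact Subset.antisymm h2 h1
    · obtain ⟨x, hx⟩ := hQ'.2.1.nonempty
      exact ((Set.disjoint_left.1 h2) (h1 hx) hx).elim
  · exfalso
    have h2 := h3 Y U J0 T0 f0 hU C Q Q' hC hCU (fam_clo hU hJ hCU hQ) (fam_clo hU hJ hCU hQ')
      hQ.2.1 hQ'.2.1 h1.symm
    apply ncp hU
    have e : U = (C ∪ Q) ∪ (C ∪ Q') := by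
      ext x
      constructor
      · intro hx
        by_cases hxC : x ∈ C
        · exact Or.inl (Or.inl hxC)
        · rcases h2 ⟨hx, hxC⟩ with h | h
          · exact Or.inl (Or.inr h)
          · exact Or.inr (Or.inr h)
      · rintro ((h | h) | (h | h))
        · exact hCU h
        · exact fam_sub hU hJ hCU hQ h
        · exact hCU h
        · exact fam_sub hU hJ hCU hQ' h
    rw [e]
    exact hQ.2.2.2.union hQ'.2.2.2

theorem fam_of_mem {C Q : Set Y} {f : Y → ℂ} (h : Mem C f Q) : Fam C Q :=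
  ⟨h.opn, h.conn, h.disj, h.cpt⟩

end JCT

open JCT in
theorem t_JCT : M_JCT := by
  intro hLPC hSCB hINQ hJC2 hJC3 Y _ U J0 T0 f0 hU C f hC hCU hf
  have hJ : IsConnected J0 := (hSCB Y J0 hU.scc).2.1
  have hCc : IsCompact C := (hSCB Y C hC).1
  obtain ⟨Q, -, hQU, hQ⟩ := hINQ Y U J0 T0 f0 hU C T0 f hC hCU hf hU.cptT (hU.contr C hC hCU)
  have hFQ : Fam C Q := fam_of_mem hQ
  have hins : ins C = Q := by
    apply Subset.antisymm
    · rintro x ⟨Q', hQ', hx⟩
      rw [fam_uniq hU hJ hJC3 hC hCU hFQ hQ']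
      exact hx
    · intro x hx
      exact ⟨Q, hFQ, hx⟩
  rw [hins]
  have hcl : IsClosed (C ∪ Q) := hFQ.2.2.2.isClosed
  have hclo : Clo U C Q := fam_clo hU hJ hCU hFQ
  have hbd : C ⊆ closure Q := hJC2 Y U J0 T0 f0 hU C Q hC hCU hclo
  set E := U \ (C ∪ Q) with hE
  have hEo : IsOpen E := hU.mem.opn.sdiff hcl
  have hEn : E.Nonempty := by
    by_contra h
    rw [Set.not_nonempty_iff_eq_empty] at h
    apply ncp hU
    have e : U = C ∪ Q := by
      apply Subset.antisymm
      · rw [hE, Set.diff_eq_empty] at h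
        exact h
      · exact union_subset hCU hQU
    rw [e]
    exact hFQ.2.2.2
  obtain ⟨x, hx⟩ := hEn
  have hlpc : LocallyPathConnectedSpace Y := hLPC Y hU.ax
  set V2 := connectedComponentIn E x with hV2
  have hV2o : IsOpen V2 := hEo.connectedComponentIn
  have hV2c : IsConnected V2 := isConnected_connectedComponentIn_iff.2 hx
  have hV2E : V2 ⊆ E := connectedComponentIn_subset E x
  have hV2clo : Clo U C V2 := by
    refine ⟨hV2o, hV2c.nonempty, fun y hy => ⟨(hV2E hy).1, fun h => (hV2E hy).2 (Or.inl h)⟩, ?_⟩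
    rintro y ⟨hy, hyU⟩
    by_cases hyC : y ∈ C
    · exact Or.inr hyC
    left
    have hyQ : y ∉ Q := by
      intro h
      obtain ⟨z, hz1, hz2⟩ := mem_closure_iff.1 hy Q hFQ.1 h
      exact (hV2E hz2).2 (Or.inr hz1)
    have hyE : y ∈ E := ⟨hyU, fun h => h.elim hyC hyQ⟩
    have h1 : IsPreconnected (insert y V2) := by
      refine hV2c.isPreconnected.subset_closure (subset_insert _ _) ?_
      exact insert_subset hy subset_closure
    have h2 : insert y V2 ⊆ connectedComponentIn E x :=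
      h1.subset_connectedComponentIn (mem_insert_of_mem _ (mem_connectedComponentIn hx))
        (insert_subset hyE hV2E)
    exact h2 (mem_insert _ _)
  have hEV : E = V2 := by
    apply Subset.antisymm _ hV2E
    have hd : Disjoint Q V2 := Set.disjoint_left.2 fun y hy hyV => (hV2E hyV).2 (Or.inr hy)
    have h1 := hJC3 Y U J0 T0 f0 hU C Q V2 hC hCU hclo hV2clo hFQ.2.1 hV2c hd
    intro y hy
    rcases h1 ⟨hy.1, fun h => hy.2 (Or.inl h)⟩ with h | h
    · exact absurd (Or.inr h) hy.2
    · exact h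
  refine ⟨hQ, hQU, ?_, hbd, ?_, ?_, ?_, ?_⟩
  · rw [hEV]
    exact hV2c
  · rw [hEV]
    exact hJC2 Y U J0 T0 f0 hU C V2 hC hCU hV2clo
  · intro T hT hTU hET
    apply ncp hU
    have e : U = (C ∪ Q) ∪ T := by
      ext y
      constructor
      · intro hy
        by_cases h : y ∈ C ∪ Q
        · exact Or.inl h
        · exact Or.inr (hET ⟨hy, h⟩)
      · rintro (h | h)
        · exact (union_subset hCU hQU) h
        · exact hTU h
    rw [e]
    exact hFQ.2.2.2.union hT
  · apply Subset.antisymm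
    · exact closure_minimal subset_union_right hcl
    · exact union_subset hbd subset_closure
  · intro T hT hcT
    obtain ⟨Q', hQT, -, hQ'⟩ := hINQ Y U J0 T0 f0 hU C T f hC hCU hf hT hcT
    rw [fam_uniq hU hJ hJC3 hC hCU hFQ (fam_of_mem hQ')]
    exact hQT

end BBP
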