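import Pool.Agent.BBP.StmtsB

/-!
# BBP, block B: LOG, logarithms on connected open sets from logarithms on simple closed curves
-/

set_option autoImplicit false

namespace BBP

open Set Topology
open Pool.Agent.LIX (CLog)

namespace LOG

variable {Y : Type} [MetricSpace Y]

/-- the piece of a curve between two parameters is an arc -/
theorem arc_image {α : ℝ → Y} (hα : ContinuousOn α (Icc 0 1)) (hi : InjOn α (Icc 0 1)) {s t : ℝ}
    (h0 : 0 ≤ s) (hst : s < t) (h1 : t ≤ 1) : Arc (α '' Icc s t) (α s) (α t) := by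
  have hpos : 0 < t - s := by linarith
  have hmaps : ∀ u ∈ Icc (0 : ℝ) 1, s + u * (t - s) ∈ Icc s t := by
    intro u hu
    constructor
    · nlinarith [hu.1]
    · nlinarith [hu.2]
  have hsub : Icc s t ⊆ Icc (0 : ℝ) 1 := Icc_subset_Icc h0 h1
  refine ⟨fun u => α (s + u * (t - s)), ?_, ?_, ?_, ?_, ?_⟩
  · refine hα.comp (by fun_prop) ?_
    intro u hu
    exact hsub (hmaps u hu)
  · intro u hu v hv huv
    have h2 := hi (hsub (hmaps u hu)) (hsub (hmaps v hv)) huv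
    have h3 : u * (t - s) = v * (t - s) := by linarith
    exact mul_right_cancel₀ hpos.ne' h3
  · simp
  · simp
  · ext y
    constructor
    · rintro ⟨r, hr, rfl⟩
      refine ⟨(r - s) / (t - s), ⟨div_nonneg (by linarith [hr.1]) hpos.le, ?_⟩, ?_⟩
      · rw [div_le_one hpos]
        linarith [hr.2]
      · simp only
        rw [div_mul_cancel₀ _ hpos.ne']
        congr 1
        ring
    · rintro ⟨u, hu, rfl⟩
      exact ⟨_, hmaps u hu, rfl⟩

/-- increments along two arcs with the same ends -/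
theorem arc_inc (hARB : S_ARB) (hGLU : S_GLU) (hTRI : S_TRI) (hINC : S_INC) {Om : Set Y}
    {f : Y → ℂ} (hC : ∀ C : Set Y, Scc C → C ⊆ Om → CLog C f) {A A' : Set Y} {a b : Y}
    (hA : Arc A a b) (hA' : Arc A' a b) (hAO : A ⊆ Om) (hAO' : A' ⊆ Om) {l l' : Y → ℂ}
    (hl : ContinuousOn l A) (hle : ∀ x ∈ A, Complex.exp (l x) = f x)
    (hl' : ContinuousOn l' A') (hle' : ∀ x ∈ A', Complex.exp (l' x) = f x) :
    l' b - l' a = l b - l a := by
  obtain ⟨-, haA, hbA, -, hAc, -, -, hsubarc, -⟩ := hARB Y A a b hA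
  obtain ⟨α, hαc, hαi, hα0, hα1, hαA⟩ := hA'
  have hmem : ∀ t ∈ Icc (0 : ℝ) 1, α t ∈ A' := fun t ht => by
    rw [hαA]
    exact mem_image_of_mem _ ht
  have hθc : ContinuousOn (fun t => l' (α t)) (Icc 0 1) := hl'.comp hαc hmem
  have key := hTRI Y A α l (fun t => l' (α t)) hAc.isClosed hαc hl hθc
    (fun t ht hA2 => by
      rw [hle' _ (hmem t ht), hle _ hA2])
    (by rw [hα0]; exact haA) (by rw [hα1]; exact hbA) ?_
  · simp only [hα0, hα1] at key
    exact key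
  intro s t hs0 hst ht1 hsA htA hno
  have hsI : s ∈ Icc (0 : ℝ) 1 := ⟨hs0, by linarith⟩
  have htI : t ∈ Icc (0 : ℝ) 1 := ⟨by linarith, ht1⟩
  have hne : α s ≠ α t := fun h => hst.ne (hαi hsI htI h)
  obtain ⟨B, hBA, hB⟩ := hsubarc _ hsA _ htA hne
  obtain ⟨-, hsB, htB, -, -, hBconn, -⟩ := hARB Y B _ _ hB
  have hP := arc_image hαc hαi hs0 hst ht1
  have hinter : B ∩ α '' Icc s t = {α s, α t} := by
    apply Subset.antisymm
    · rintro x ⟨hxB, r, hr, rfl⟩
      rcases eq_or_lt_of_le hr.1 with h | h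
      · rw [← h]
        exact Or.inl rfl
      · rcases eq_or_lt_of_le hr.2 with h' | h'
        · rw [h']
          exact Or.inr rfl
        · exact absurd (hBA hxB) (hno r ⟨h, h'⟩)
    · rintro x (rfl | rfl)
      · exact ⟨hsB, mem_image_of_mem _ (left_mem_Icc.2 hst.le)⟩
      · exact ⟨htB, mem_image_of_mem _ (right_mem_Icc.2 hst.le)⟩
  have hscc := (hGLU.1 Y B _ _ _ hB hP hinter).1
  have hPA : α '' Icc s t ⊆ A' := by
    rintro x ⟨r, hr, rfl⟩
    exact hmem r ⟨le_trans hs0 hr.1, le_trans hr.2 ht1⟩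
  have hsubO : B ∪ α '' Icc s t ⊆ Om :=
    union_subset (hBA.trans hAO) (hPA.trans hAO')
  have hIs : Icc s t ⊆ Icc (0 : ℝ) 1 := Icc_subset_Icc hs0 ht1
  exact hINC Y (B ∪ α '' Icc s t) B f l α (fun t => l' (α t)) s t hst.le (hαc.mono hIs)
    (hθc.mono hIs) (fun r hr => hle' _ (hmem r (hIs hr))) (hl.mono hBA)
    (fun x hx => hle x (hBA hx)) hBconn.isPreconnected hsB htB (hC _ hscc hsubO)
    subset_union_right subset_union_left

/-- `z` is the increment of the logarithm of `f` from `a` to `b` along an arc in `Om` -/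
def IsInc (Om : Set Y) (f : Y → ℂ) (a b : Y) (z : ℂ) : Prop :=
  (a = b ∧ z = 0) ∨ (a ≠ b ∧ ∃ A ⊆ Om, Arc A a b ∧ ∃ l : Y → ℂ, ContinuousOn l A ∧
    (∀ x ∈ A, Complex.exp (l x) = f x) ∧ z = l b - l a)

theorem IsInc.uniq (hARB : S_ARB) (hGLU : S_GLU) (hTRI : S_TRI) (hINC : S_INC) {Om : Set Y}
    {f : Y → ℂ} (hC : ∀ C : Set Y, Scc C → C ⊆ Om → CLog C f) {a b : Y} {z z' : ℂ}
    (h : IsInc Om f a b z) (h' : IsInc Om f a b z') : z = z' := by
  rcases h with ⟨hab, hz⟩ | ⟨hab, A, hAO, hA, l, hl, hle, hz⟩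
  · rcases h' with ⟨-, hz'⟩ | ⟨hab', -⟩
    · rw [hz, hz']
    · exact absurd hab hab'
  · rcases h' with ⟨hab', -⟩ | ⟨-, A', hAO', hA', l', hl', hle', hz'⟩
    · exact absurd hab' hab
    · rw [hz, hz']
      exact (arc_inc hARB hGLU hTRI hINC hC hA hA' hAO hAO' hl hle hl' hle').symm

/-- increments along subarcs -/
theorem isInc_of_mem (hARB : S_ARB) {Om : Set Y} {f : Y → ℂ} {A : Set Y} {a b : Y}
    (hA : Arc A a b) (hAO : A ⊆ Om) {l : Y → ℂ} (hl : ContinuousOn l A)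
    (hle : ∀ x ∈ A, Complex.exp (l x) = f x) {x y : Y} (hx : x ∈ A) (hy : y ∈ A) :
    IsInc Om f x y (l y - l x) := by
  by_cases hxy : x = y
  · exact Or.inl ⟨hxy, by rw [hxy, sub_self]⟩
  · obtain ⟨-, -, -, -, -, -, -, hsub, -⟩ := hARB Y A a b hA
    obtain ⟨B, hBA, hB⟩ := hsub x hx y hy hxy
    exact Or.inr ⟨hxy, B, hBA.trans hAO, hB, l, hl.mono hBA, fun u hu => hle u (hBA hu), rfl⟩

theorem IsInc.rev (hARB : S_ARB) {Om : Set Y} {f : Y → ℂ} {a b : Y} {z : ℂ}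
    (h : IsInc Om f a b z) : IsInc Om f b a (-z) := by
  rcases h with ⟨hab, hz⟩ | ⟨hab, A, hAO, hA, l, hl, hle, hz⟩
  · exact Or.inl ⟨hab.symm, by rw [hz, neg_zero]⟩
  · obtain ⟨-, ha, hb, -⟩ := hARB Y A a b hA
    have h2 := isInc_of_mem hARB hA hAO hl hle hb ha
    rw [hz, neg_sub]
    exact h2

theorem IsInc.add (hARB : S_ARB) (hGLU : S_GLU) (hTRI : S_TRI) (hINC : S_INC) {Om : Set Y}
    {f : Y → ℂ} (hfc : ContinuousOn f Om) (hf0 : ∀ x ∈ Om, f x ≠ 0)
    (hC : ∀ C : Set Y, Scc C → C ⊆ Om → CLog C f) {a b c : Y} {z z' : ℂ}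
    (h : IsInc Om f a b z) (h' : IsInc Om f b c z') : IsInc Om f a c (z + z') := by
  rcases h with ⟨hab, hz⟩ | ⟨hab, A, hAO, hA, l, hl, hle, hz⟩
  · rw [hab, hz, zero_add]
    exact h'
  rcases h' with ⟨hbc, hz'⟩ | ⟨hbc, B, hBO, hB, k, hk, hke, hz'⟩
  · rw [← hbc, hz', add_zero]
    exact Or.inr ⟨hab, A, hAO, hA, l, hl, hle, hz⟩
  obtain ⟨-, haA, hbA, hAr, hAc, -, -, hAsub, -⟩ := hARB Y A a b hA
  obtain ⟨-, hbB, hcB, hBr, -⟩ := hARB Y B b c hB
  have inA : ∀ {x y : Y}, x ∈ A → y ∈ A → IsInc Om f x y (l y - l x) := fun hx hy =>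
    isInc_of_mem hARB hA hAO hl hle hx hy
  have inB : ∀ {x y : Y}, x ∈ B → y ∈ B → IsInc Om f x y (k y - k x) := fun hx hy =>
    isInc_of_mem hARB hB hBO hk hke hx hy
  by_cases hcA : c ∈ A
  · have h1 : k c - k b = l c - l b :=
      IsInc.uniq hARB hGLU hTRI hINC hC (inB hbB hcB) (inA hbA hcA)
    have h2 : z + z' = l c - l a := by
      rw [hz, hz', h1]
      ring
    rw [h2]
    exact inA haA hcA
  · obtain ⟨-, -, -, -, -, -, -, -, -, -, -, hhit, -⟩ := hARB Y B c b hBr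
    obtain ⟨w, hwA, B', hB'B, hB', hB'A⟩ := hhit A hAc.isClosed hbA hcA
    obtain ⟨-, hcB', hwB', hB'r, -⟩ := hARB Y B' c w hB'
    have hwB : w ∈ B := hB'B hwB'
    have h1 : l b - l w = k b - k w :=
      IsInc.uniq hARB hGLU hTRI hINC hC (inA hwA hbA) (inB hwB hbB)
    have h2 : z + z' = (l w - l a) + (k c - k w) := by
      rw [hz, hz']
      linear_combination h1
    rw [h2]
    by_cases hwa : a = w
    · rw [← hwa, sub_self, zero_add]
      exact inB (hwa ▸ hwB) hcB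
    · obtain ⟨A', hA'A, hA'⟩ := hAsub a haA w hwA hwa
      obtain ⟨-, haA', hwA', -⟩ := hARB Y A' a w hA'
      have hint : A' ∩ B' = {w} := by
        apply Subset.antisymm
        · rintro x ⟨hx1, hx2⟩
          rw [← hB'A]
          exact ⟨hx2, hA'A hx1⟩
        · rintro x rfl
          exact ⟨hwA', hwB'⟩
      have hU : Arc (A' ∪ B') a c := hGLU.2 Y A' B' a w c hA' hB'r hint
      have hUO : A' ∪ B' ⊆ Om := union_subset (hA'A.trans hAO) (hB'B.trans hBO)
      obtain ⟨-, -, -, -, -, -, hlog, -⟩ := hARB Y _ a c hU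
      obtain ⟨j, hj, hje⟩ := hlog f (hfc.mono hUO) fun x hx => hf0 x (hUO hx)
      have inU : ∀ {x y : Y}, x ∈ A' ∪ B' → y ∈ A' ∪ B' → IsInc Om f x y (j y - j x) :=
        fun hx hy => isInc_of_mem hARB hU hUO hj hje hx hy
      have e1 : l w - l a = j w - j a :=
        IsInc.uniq hARB hGLU hTRI hINC hC (inA haA hwA) (inU (Or.inl haA') (Or.inl hwA'))
      have e2 : k c - k w = j c - j w :=
        IsInc.uniq hARB hGLU hTRI hINC hC (inB hwB hcB) (inU (Or.inl hwA') (Or.inr hcB'))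
      have e3 : (l w - l a) + (k c - k w) = j c - j a := by
        rw [e1, e2]
        ring
      rw [e3]
      exact inU (Or.inl haA') (Or.inr hcB')

theorem IsInc.exp_eq (hARB : S_ARB) {Om : Set Y} {f : Y → ℂ} (hf0 : ∀ x ∈ Om, f x ≠ 0) {a b : Y}
    {z : ℂ} (ha : a ∈ Om) (h : IsInc Om f a b z) : Complex.exp z = f b / f a := by
  rcases h with ⟨hab, hz⟩ | ⟨hab, A, hAO, hA, l, hl, hle, hz⟩
  · rw [hz, ← hab, div_self (hf0 a ha), Complex.exp_zero]
  · obtain ⟨-, haA, hbA, -⟩ := hARB Y A a b hA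
    rw [hz, Complex.exp_sub, hle b hbA, hle a haA]

end LOG

theorem t_LOG : M_LOG := by
  intro hPTA hARB hGLU hTRI hINC Y _ hLPC Om f hO hconn hfc hf0 hC
  have hpc : IsPathConnected Om := hO.isConnected_iff_isPathConnected.1 hconn
  have hex : ∀ (N : Set Y), N ⊆ Om → ∀ a b : Y, JoinedIn N a b →
      ∃ z : ℂ, LOG.IsInc Om f a b z := by
    intro N hN a b hab
    by_cases h : a = b
    · exact ⟨0, Or.inl ⟨h, rfl⟩⟩
    · obtain ⟨A, hAN, hA⟩ := hPTA.2 Y N a b hab h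
      obtain ⟨-, -, -, -, -, -, hlog, -⟩ := hARB Y A a b hA
      have hAO := hAN.trans hN
      obtain ⟨l, hl, hle⟩ := hlog f (hfc.mono hAO) fun x hx => hf0 x (hAO hx)
      exact ⟨l b - l a, Or.inr ⟨h, A, hAO, hA, l, hl, hle, rfl⟩⟩
  obtain ⟨x0, hx0⟩ := hconn.nonempty
  have hex2 : ∀ x : Y, ∃ z : ℂ, x ∈ Om → LOG.IsInc Om f x0 x z := by
    intro x
    by_cases hx : x ∈ Om
    · obtain ⟨z, hz⟩ := hex Om Subset.rfl x0 x (hpc.joinedIn x0 hx0 x hx)
      exact ⟨z, fun _ => hz⟩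
    · exact ⟨0, fun h => absurd h hx⟩
  choose I hI using hex2
  refine ⟨fun x => Complex.log (f x0) + I x, ?_, ?_⟩
  · intro x1 hx1
    apply ContinuousAt.continuousWithinAt
    have hf1 : f x1 ≠ 0 := hf0 x1 hx1
    have hcf : ContinuousAt f x1 := (hfc x1 hx1).continuousAt (hO.mem_nhds hx1)
    have hcont : ContinuousAt (fun x => ‖f x / f x1 - 1‖) x1 :=
      ((hcf.div_const _).sub continuousAt_const).norm
    have hval : ‖f x1 / f x1 - 1‖ < 1 := by
      rw [div_self hf1, sub_self, norm_zero]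
      exact zero_lt_one
    have hev : ∀ᶠ x in 𝓝 x1, x ∈ Om ∧ ‖f x / f x1 - 1‖ < 1 := by
      have hO2 : ∀ᶠ x in 𝓝 x1, x ∈ Om := hO.mem_nhds hx1
      exact hO2.and (hcont.eventually_lt_const hval)
    obtain ⟨N, ⟨hN1, hN2⟩, hN3⟩ := (path_connected_basis x1).mem_iff.1 hev
    have hN3' : N ⊆ {x | x ∈ Om ∧ ‖f x / f x1 - 1‖ < 1} := hN3
    have hNO : N ⊆ Om := fun x hx => (hN3' hx).1
    have hlogN : CLog N f := by
      have h1 : CLog N fun x => f x / f x1 :=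
        Pool.Agent.LIX.cLog_of_near ((hfc.mono hNO).div_const _) fun x hx => (hN3' hx).2
      refine (h1.mul (Pool.Agent.LIX.cLog_const hf1)).congr fun x _ => ?_
      rw [div_mul_cancel₀ _ hf1]
    obtain ⟨lam, hlam, hlame⟩ := hlogN
    have hx1N : x1 ∈ N := mem_of_mem_nhds hN1
    have hloc : ∀ x ∈ N, I x = I x1 + (lam x - lam x1) := by
      intro x hx
      have hinc : LOG.IsInc Om f x1 x (lam x - lam x1) := by
        by_cases h : x1 = x
        · exact Or.inl ⟨h, by rw [h, sub_self]⟩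
        · obtain ⟨A, hAN, hA⟩ := hPTA.2 Y N x1 x (hN2.joinedIn x1 hx1N x hx) h
          exact Or.inr ⟨h, A, hAN.trans hNO, hA, lam, hlam.mono hAN,
            fun u hu => hlame u (hAN hu), rfl⟩
      exact LOG.IsInc.uniq hARB hGLU hTRI hINC hC (hI x (hNO hx))
        (LOG.IsInc.add hARB hGLU hTRI hINC hfc hf0 hC (hI x1 hx1) hinc)
    have hc : ContinuousAt (fun x => Complex.log (f x0) + (I x1 + (lam x - lam x1))) x1 := by
      have h2 : ContinuousAt lam x1 := (hlam x1 hx1N).continuousAt hN1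
      exact continuousAt_const.add (continuousAt_const.add (h2.sub continuousAt_const))
    refine hc.congr ?_
    filter_upwards [hN1] with x hx
    rw [hloc x hx]
  · intro x hx
    simp only
    rw [Complex.exp_add, Complex.exp_log (hf0 x0 hx0),
      LOG.IsInc.exp_eq hARB hf0 hx0 (hI x hx), mul_div_cancel₀ _ (hf0 x0 hx0)]

end BBP
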