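import Pool.Agent.BBP.StmtsB

/-!
# BBP, module LPC: the space is locally path connected
-/

set_option autoImplicit false

namespace BBP

open Set Topology

theorem t_LPC : S_LPC := by
  intro Y _ hY
  rw [locallyPathConnectedSpace_iff_pathComponentIn_mem_nhds]
  intro x u hu hxu
  obtain ⟨W1, hW1, hW1o, hxW1, H, hH, h0, h1, h2⟩ := hY.loc x u hu hxu
  refine Filter.mem_of_superset (hW1o.mem_nhds hxW1) ?_
  intro y hy
  have hc : Continuous fun t : unitInterval => H (y, (t : ℝ)) := by
    have h3 : Continuous fun t : unitInterval => ((y, (t : ℝ)) : Y × ℝ) := by fun_prop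
    exact hH.comp_continuous h3 fun t => ⟨hy, t.2⟩
  have hj : JoinedIn u y x :=
    ⟨⟨⟨fun t : unitInterval => H (y, (t : ℝ)), hc⟩, by simpa using h0 y hy,
      by simpa using h1 y hy⟩, fun t => h2 y hy t t.2⟩
  exact hj.symm

end BBP
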