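import Pool.Agent.BBP.StmtsB

/-!
# BBP, module MMN: minimality of minimal membranes
-/

set_option autoImplicit false

namespace BBP

open Set Topology

theorem t_MMN : M_MMN := by
  intro hCMP Y _ hA L Q f hM W hWo hWn hWQ
  by_contra hne
  have hLW : L ⊆ (L ∪ Q) \ W := fun x hx =>
    ⟨Or.inl hx, fun hxW => Set.disjoint_left.mp hM.disj (hWQ hxW) hx⟩
  have hcK : IsCompact ((L ∪ Q) \ W) := hM.cpt.diff hWo
  obtain ⟨Q', hQ'K, hM'⟩ := hCMP Y hA L ((L ∪ Q) \ W) f hM.cptL hcK hLW hM.cont hM.ne hne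
  have hQ'Q : Q' ⊆ Q := fun x hx => by
    rcases (hQ'K hx).1 with h | h
    · exact absurd h (Set.disjoint_left.mp hM'.disj hx)
    · exact h
  have hsub : Q ⊆ Q' := by
    refine hM.conn.isPreconnected.subset_of_closure_inter_subset hM'.opn ?_ ?_
    · obtain ⟨x, hx⟩ := hM'.conn.nonempty
      exact ⟨x, hQ'Q hx, hx⟩
    · rintro x ⟨hxc, hxQ⟩
      rcases hM'.clos hxc with h | h
      · exact h
      · exact absurd h (Set.disjoint_left.mp hM.disj hxQ)
  obtain ⟨w, hw⟩ := hWn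
  exact (hQ'K (hsub (hWQ hw))).2 hw

end BBP
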