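import Pool.Agent.BBP.StmtsB

/-!
# BBP, module NRM: small neighbourhoods are insides of minimal membranes
-/

set_option autoImplicit false

namespace BBP

open Set Topology CTO

theorem t_NRM : S_NRM := by
  classical
  intro Y _ L Q f F y hM hy hF B hB hBc hyB hBQ
  have hLQ : IsCompact (L ∪ Q) := hM.cpt
  have hcB : IsCompact (closure B) :=
    hLQ.of_isClosed_subset isClosed_closure (hBQ.trans subset_union_right)
  have hsub : closure B \ B ⊆ (L ∪ Q) \ {y} := by
    intro x hx
    refine ⟨Or.inr (hBQ hx.1), ?_⟩
    rintro rfl
    exact hx.2 hyB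
  have hun : (closure B \ B) ∪ B = closure B := by
    rw [sdiff_union_self]
    exact union_eq_self_of_subset_right subset_closure
  refine ⟨hF.1.mono hsub, fun x hx => hF.2.1 x (hsub hx), hcB.diff hB, hB, hBc, ?_, ?_, ?_, ?_⟩
  · exact disjoint_sdiff_right
  · intro x hx
    by_cases h : x ∈ B
    · exact Or.inl h
    · exact Or.inr ⟨hx, h⟩
  · rw [hun]
    exact hcB
  · rintro ⟨G, hG1, hG2, hG3⟩
    rw [hun] at hG1 hG2
    apply hM.ess
    refine ⟨fun x => if x ∈ closure B then G x else F x, ?_, ?_, ?_⟩
    · have h1 : L ∪ Q = closure B ∪ (L ∪ Q) \ B := by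
        ext x
        constructor
        · intro hx
          by_cases h : x ∈ B
          · exact Or.inl (subset_closure h)
          · exact Or.inr ⟨hx, h⟩
        · rintro (hx | hx)
          · exact Or.inr (hBQ hx)
          · exact hx.1
      rw [h1]
      refine ContinuousOn.union_of_isClosed ?_ ?_ isClosed_closure (hLQ.diff hB).isClosed
      · refine hG1.congr fun x hx => ?_
        show (if x ∈ closure B then G x else F x) = G x
        rw [if_pos hx]
      · have h2 : ContinuousOn F ((L ∪ Q) \ B) := by
          refine hF.1.mono fun x hx => ⟨hx.1, ?_⟩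
          rintro rfl
          exact hx.2 hyB
        refine h2.congr fun x hx => ?_
        show (if x ∈ closure B then G x else F x) = F x
        by_cases h : x ∈ closure B
        · rw [if_pos h]
          exact hG3 ⟨h, hx.2⟩
        · rw [if_neg h]
    · intro x hx
      show (if x ∈ closure B then G x else F x) ≠ 0
      by_cases h : x ∈ closure B
      · rw [if_pos h]
        exact hG2 x h
      · rw [if_neg h]
        refine hF.2.1 x ⟨hx, ?_⟩
        rintro rfl
        exact h (subset_closure hyB)
    · intro x hx
      show (if x ∈ closure B then G x else F x) = f x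
      have h : x ∉ closure B := fun h => disjoint_left.1 hM.disj (hBQ h) hx
      rw [if_neg h]
      exact hF.2.2 hx

end BBP
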