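import Pool.Agent.BBP.StmtsB

/-!
# Module BBP_NSP: arcs and points do not separate a minimal membrane
-/

set_option autoImplicit false

namespace BBP

open Set Topology
open Pool.Agent.LIX (CLog)

namespace NSP

/-- a function on the union of two disjoint compact sets, extended to the whole space -/
theorem tietze {Y : Type} [MetricSpace Y] (L A : Set Y) (l : Y → ℂ) (hL : IsCompact L)
    (hA : IsCompact A) (hd : Disjoint A L) (hl : ContinuousOn l A) :
    ∃ g : Y → ℂ, Continuous g ∧ (∀ x ∈ A, g x = l x) ∧ ∀ x ∈ L, g x = 0 := by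
  classical
  set m : Y → ℂ := fun x => if x ∈ A then l x else 0 with hm
  have h1 : ContinuousOn m A := hl.congr fun x hx => if_pos hx
  have h2 : ContinuousOn m L := by
    have h3 : ∀ x ∈ L, m x = 0 := fun x hx => if_neg fun h => disjoint_left.1 hd h hx
    exact continuousOn_const.congr h3
  have h3 : ContinuousOn m (A ∪ L) := h1.union_of_isClosed h2 hA.isClosed hL.isClosed
  obtain ⟨g, hg⟩ := ContinuousMap.exists_restrict_eq (hA.isClosed.union hL.isClosed)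
    (⟨(A ∪ L).domRestrict m, continuousOn_iff_continuous_domRestrict.1 h3⟩ :
      C((A ∪ L : Set Y), ℂ))
  have h4 : ∀ x (hx : x ∈ A ∪ L), g x = m x := fun x hx =>
    congrArg (fun h : C((A ∪ L : Set Y), ℂ) => h ⟨x, hx⟩) hg
  refine ⟨g, g.continuous, fun x hx => ?_, fun x hx => ?_⟩
  · rw [h4 x (Or.inl hx)]
    exact if_pos hx
  · rw [h4 x (Or.inr hx)]
    exact if_neg fun h => disjoint_left.1 hd h hx

end NSP

theorem t_NSP : M_NSP := by
  intro hMMN Y _ hAx L Q A f hM hAQ hA hlog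
  classical
  have hne : (Q \ A).Nonempty := by
    by_contra h
    rw [not_nonempty_iff_eq_empty, sdiff_eq_empty] at h
    have hQA : Q = A := Subset.antisymm h hAQ
    have hcl : IsClopen Q := ⟨by rw [hQA]; exact hA.isClosed, hM.opn⟩
    have := hAx.conn
    have h1 := hcl.eq_univ hM.conn.nonempty
    apply hAx.ncpt
    rw [← isCompact_univ_iff, ← h1, hQA]
    exact hA
  refine ⟨hne, ?_⟩
  intro u v hu hv huv hsu hsv
  by_contra hcon
  have hopn : IsOpen (Q \ A) := hM.opn.sdiff hA.isClosed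
  set V1 : Set Y := (Q \ A) ∩ u with hV1
  set V2 : Set Y := (Q \ A) ∩ v with hV2
  have ho1 : IsOpen V1 := hopn.inter hu
  have ho2 : IsOpen V2 := hopn.inter hv
  have hdis : ∀ x, x ∈ V1 → x ∉ V2 := fun x h1 h2 => hcon ⟨x, h1.1, h1.2, h2.2⟩
  have hV1Q : V1 ⊆ Q := fun x hx => hx.1.1
  have hV2Q : V2 ⊆ Q := fun x hx => hx.1.1
  have hLQ : ∀ x ∈ L, x ∉ Q := fun x hx h => disjoint_left.1 hM.disj h hx
  obtain ⟨F1, hc1, hn1, he1⟩ := hMMN Y hAx L Q f hM V2 ho2 hsv hV2Q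
  obtain ⟨F2, hc2, hn2, he2⟩ := hMMN Y hAx L Q f hM V1 ho1 hsu hV1Q
  have hcl1 : IsClosed ((L ∪ Q) \ V2) := hM.cpt.isClosed.sdiff ho2
  have hcl2 : IsClosed ((L ∪ Q) \ V1) := hM.cpt.isClosed.sdiff ho1
  have hA1 : ∀ x ∈ A, x ∈ (L ∪ Q) \ V2 := fun x hx => ⟨Or.inr (hAQ hx), fun h => h.1.2 hx⟩
  have hA2 : ∀ x ∈ A, x ∈ (L ∪ Q) \ V1 := fun x hx => ⟨Or.inr (hAQ hx), fun h => h.1.2 hx⟩
  have hL1 : ∀ x ∈ L, x ∈ (L ∪ Q) \ V2 := fun x hx => ⟨Or.inl hx, fun h => hLQ x hx (hV2Q h)⟩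
  have hL2 : ∀ x ∈ L, x ∈ (L ∪ Q) \ V1 := fun x hx => ⟨Or.inl hx, fun h => hLQ x hx (hV1Q h)⟩
  obtain ⟨l, hlc, hle⟩ := hlog (fun x => F1 x / F2 x)
    ((hc1.mono hA1).div (hc2.mono hA2) fun x hx => hn2 x (hA2 x hx))
    fun x hx => div_ne_zero (hn1 x (hA1 x hx)) (hn2 x (hA2 x hx))
  obtain ⟨g, hg, hgA, hgL⟩ := NSP.tietze L A l hM.cptL hA
    (disjoint_left.2 fun x hx h => hLQ x h (hAQ hx)) hlc
  apply hM.ess
  set F : Y → ℂ := fun x => if x ∈ (L ∪ Q) \ V2 then F1 x else F2 x * Complex.exp (g x) with hF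
  have hF1 : ∀ x ∈ (L ∪ Q) \ V2, F x = F1 x := fun x hx => if_pos hx
  have hF2 : ∀ x ∈ (L ∪ Q) \ V1, F x = F2 x * Complex.exp (g x) := by
    intro x hx
    by_cases h : x ∈ (L ∪ Q) \ V2
    · rw [hF1 x h]
      have hx0 : x ∈ L ∨ x ∈ A := by
        rcases hx.1 with h1 | h1
        · exact Or.inl h1
        · by_cases h2 : x ∈ A
          · exact Or.inr h2
          · exfalso
            rcases huv ⟨h1, h2⟩ with h3 | h3
            · exact hx.2 ⟨⟨h1, h2⟩, h3⟩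
            · exact h.2 ⟨⟨h1, h2⟩, h3⟩
      rcases hx0 with h1 | h1
      · rw [hgL x h1, Complex.exp_zero, mul_one, he1 h1, he2 h1]
      · rw [hgA x h1, hle x h1, mul_div_cancel₀]
        exact hn2 x hx
    · exact if_neg h
  have hun : L ∪ Q = ((L ∪ Q) \ V2) ∪ ((L ∪ Q) \ V1) := by
    apply Subset.antisymm
    · intro x hx
      by_cases h : x ∈ V2
      · exact Or.inr ⟨hx, fun h1 => hdis x h1 h⟩
      · exact Or.inl ⟨hx, h⟩
    · rintro x (h | h)
      · exact h.1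
      · exact h.1
  refine ⟨F, ?_, ?_, ?_⟩
  · rw [hun]
    have a1 : ContinuousOn F ((L ∪ Q) \ V2) := hc1.congr hF1
    have a2 : ContinuousOn F ((L ∪ Q) \ V1) :=
      (hc2.mul (Complex.continuous_exp.comp hg).continuousOn).congr hF2
    exact a1.union_of_isClosed a2 hcl1 hcl2
  · intro x hx
    rw [hun] at hx
    rcases hx with h | h
    · rw [hF1 x h]
      exact hn1 x h
    · rw [hF2 x h]
      exact mul_ne_zero (hn2 x h) (Complex.exp_ne_zero _)
  · intro x hx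
    rw [hF1 x (hL1 x hx)]
    exact he1 hx

end BBP
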