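import Pool.Agent.BBP.StmtsB

/-!
# BBP, NST: nested simple closed curves
-/

set_option autoImplicit false

namespace BBP

open Set Topology
open Pool.Agent.LIX (CLog)

theorem t_NST : M_NST := by
  intro hDEG hJCT Y _ U J0 T0 f0 hU C J hC hJ hJU hCJ
  obtain ⟨fJ, hfJ⟩ := (hDEG Y J hJ).1
  obtain ⟨fC, hfC⟩ := (hDEG Y C hC).1
  obtain ⟨-, hJ2, hJ3, -, hJ5, hJ6, -, -⟩ := hJCT Y U J0 T0 f0 hU J fJ hJ hJU hfJ
  have hCU : C ⊆ U := hCJ.trans (union_subset hJU hJ2)
  obtain ⟨hC1, hC2, -, -, -, -, -, -⟩ := hJCT Y U J0 T0 f0 hU C fC hC hCU hfC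
  have hdis : Disjoint (U \ (J ∪ ins J)) (ins C) := by
    rw [Set.disjoint_iff_inter_eq_empty]
    by_contra hne
    have hne' : ((U \ (J ∪ ins J)) ∩ ins C).Nonempty := nonempty_iff_ne_empty.mpr hne
    have hcl : IsClosed (C ∪ ins C) := hC1.cpt.isClosed
    have hsub : U \ (J ∪ ins J) ⊆ ins C := by
      refine IsPreconnected.subset_left_of_subset_union hC1.opn hcl.isOpen_compl ?_ ?_ hne'
        hJ3.isPreconnected
      · rw [disjoint_compl_right_iff_subset]
        exact subset_union_right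
      · intro x hx
        by_cases h1 : x ∈ ins C
        · exact Or.inl h1
        · refine Or.inr fun h2 => ?_
          rcases h2 with h2 | h2
          · exact hx.2 (hCJ h2)
          · exact h1 h2
    exact hJ6 (C ∪ ins C) hC1.cpt (union_subset hCU hC2) (hsub.trans subset_union_right)
  have hdis2 : Disjoint (closure (U \ (J ∪ ins J))) (ins C) := hdis.closure_left hC1.opn
  intro x hx
  by_contra h
  by_cases h2 : x ∈ J
  · exact Set.disjoint_left.mp hdis2 (hJ5 h2) hx
  · exact Set.disjoint_left.mp hdis ⟨hC2 hx, fun h3 => h3.elim h2 h⟩ hx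

end BBP
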