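import Pool.Agent.BBP.StmtsB

/-!
# BBP, block B: the summary of the plane-like properties (module PLN)
-/

set_option autoImplicit false

namespace BBP

open Set Topology
open Pool.Agent.LIX (CLog)

namespace PLN

variable {Y : Type} [TopologicalSpace Y] {C : Set Y}

/-- The degree of a quotient. -/
theorem quot {f F G : Y → ℂ} {a b : ℤ} (h0 : ∀ x ∈ C, f x ≠ 0) (hF0 : ∀ x ∈ C, F x ≠ 0)
    (hG0 : ∀ x ∈ C, G x ≠ 0) (hF : Deg C f F a) (hG : Deg C f G b)
    (hz : ∀ n : ℤ, CLog C (fun x => f x ^ n) → n = 0) :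
    CLog C (fun x => F x / G x) ↔ a = b := by
  constructor
  · intro h
    have h1 : CLog C (fun x => f x ^ (a - b)) := by
      refine ((h.div hF).mul hG).congr fun x hx => ?_
      have h2 := h0 x hx
      have h3 := hF0 x hx
      have h4 := hG0 x hx
      rw [zpow_sub₀ h2]
      have h5 : f x ^ a ≠ 0 := zpow_ne_zero _ h2
      have h6 : f x ^ b ≠ 0 := zpow_ne_zero _ h2
      field_simp
    have := hz _ h1
    omega
  · rintro rfl
    refine (CLog.div hF hG).congr fun x hx => ?_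
    have h2 := h0 x hx
    have h4 := hG0 x hx
    have h5 : f x ^ a ≠ 0 := zpow_ne_zero _ h2
    field_simp

end PLN

open PLN in
theorem t_PLN : M_PLN := by
  intro hLPC hARB hDEG hCTH hNSP hPNT hSML hJCT hNST hDGP hEON hJAN
  intro Y _ U J0 T0 f0 hu J hJ hJU
  obtain ⟨⟨fJ, hfJ⟩, hgJ, -⟩ := hDEG Y J hJ
  obtain ⟨hmJ, hinsU, -⟩ := hJCT Y U J0 T0 f0 hu J fJ hJ hJU hfJ
  have key : ∀ C : Set Y, Scc C → C ⊆ U → ∃ f : Y → ℂ, Mem C f (ins C) ∧ ins C ⊆ U ∧
      IsConnected (U \ (C ∪ ins C)) ∧ C ⊆ closure (ins C) ∧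
      C ⊆ closure (U \ (C ∪ ins C)) ∧ (∀ T : Set Y, IsCompact T → T ⊆ U →
        ¬ U \ (C ∪ ins C) ⊆ T) ∧ closure (ins C) = C ∪ ins C ∧
      ∀ T : Set Y, IsCompact T → Contr T C → ins C ⊆ T := by
    intro C hC hCU
    obtain ⟨⟨f, hf⟩, -, -⟩ := hDEG Y C hC
    exact ⟨f, hJCT Y U J0 T0 f0 hu C f hC hCU hf⟩
  have hlc : LocallyCompactSpace Y := hu.ax.lc
  have hloc : ∀ x ∈ ins J, ∀ W : Set Y, IsOpen W → x ∈ W → ∃ W1 ⊆ W, IsOpen W1 ∧ x ∈ W1 ∧
      ∀ C : Set Y, Scc C → C ⊆ W1 → C ∪ ins C ⊆ W ∩ ins J := by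
    intro x hx W hW hxW
    obtain ⟨N0, hN0, hN1, hN2⟩ := exists_compact_subset (hW.inter hmJ.opn)
      (⟨hxW, hx⟩ : x ∈ W ∩ ins J)
    have hcl : closure (interior N0) ⊆ N0 :=
      closure_minimal interior_subset hN0.isClosed
    have hcN : IsCompact (closure (interior N0)) := hN0.of_isClosed_subset isClosed_closure hcl
    obtain ⟨W1, hW1, hW1o, hxW1, H, hH, hH0, hH1, hHm⟩ :=
      hu.ax.loc x (interior N0) isOpen_interior hN1
    have hNW : interior N0 ⊆ W ∩ ins J := interior_subset.trans hN2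
    refine ⟨W1, fun y hy => (hNW (hW1 hy)).1, hW1o, hxW1, ?_⟩
    intro C hC hCW
    have hCN : C ⊆ interior N0 := hCW.trans hW1
    have hCU : C ⊆ U := fun y hy => hinsU (hNW (hCN hy)).2
    have hct : Contr (closure (interior N0)) C :=
      hCTH Y _ C W1 H x hH hH0 hH1 hCW fun y hy t ht => subset_closure (hHm y (hCW hy) t ht)
    obtain ⟨f, -, -, -, -, -, -, -, hlast⟩ := key C hC hCU
    have h1 := hlast _ hcN hct
    exact union_subset (hCN.trans hNW) (h1.trans (hcl.trans hN2))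
  refine
    { lpc := hLPC Y hu.ax
      lc := hlc
      opU := hu.mem.opn
      opV := hmJ.opn
      sub := hinsU
      connV := hmJ.conn
      nsp := ?_
      opn := fun C hC hCU => (key C hC hCU).choose_spec.1.opn
      conn := fun C hC hCU => (key C hC hCU).choose_spec.1.conn
      disj := fun C hC hCU => (key C hC hCU).choose_spec.1.disj
      insU := fun C hC hCU => (key C hC hCU).choose_spec.2.1
      insV := ?_
      clos := fun C hC hCU => (key C hC hCU).choose_spec.2.2.2.2.2.2.1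
      cpt := fun C hC hCU => (key C hC hCU).choose_spec.1.cpt
      out := fun C hC hCU => (key C hC hCU).choose_spec.2.2.1
      outc := fun C hC hCU => (key C hC hCU).choose_spec.2.2.2.2.1
      ncp := fun C hC hCU => (key C hC hCU).choose_spec.2.2.2.2.2.1
      nst := fun C J' hC hJ' hJU' h => hNST Y U J0 T0 f0 hu C J' hC hJ' hJU' h
      loc := hloc
      sml := ?_
      jan := ?_
      dip := ?_ }
  · intro A a b hA hAV
    obtain ⟨-, -, -, -, hAc, -, hAl, -⟩ := hARB Y A a b hA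
    exact hNSP Y hu.ax J (ins J) A fJ hmJ hAV hAc hAl
  · intro C hC hCV
    exact hNST Y U J0 T0 f0 hu C J hC hJ hJU (hCV.trans subset_union_right)
  · intro x hx W hW hxW
    obtain ⟨W1, hW1, hW1o, hxW1, hW1c⟩ := hloc x hx W hW hxW
    obtain ⟨F, hF⟩ := hPNT Y hu.ax J (ins J) fJ x hmJ hx
    obtain ⟨C, hC, hCW, hCJ, hxC, hlog⟩ := hSML Y hu.ax J (ins J) fJ F x hmJ hx hF W1 hW1o hxW1
    obtain ⟨⟨fC, hfC⟩, -, -⟩ := hDEG Y C hC
    obtain ⟨s, -, hs⟩ := hDGP Y U J0 T0 f0 hu C J fC fJ hC hJ hJU hCJ hfC hfJ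
    have hsub := hW1c C hC hCW
    refine ⟨C, hC, hCJ, ?_, fun y hy => (hsub hy).1⟩
    by_contra hxi
    apply hlog
    refine ((hs x F hx hF).2 hxC hxi).congr fun y _ => ?_
    rw [zpow_zero, div_one]
  · intro T1 T2 h1 h2 h3 h4 h5 y z h6 h7
    exact hJAN Y U J0 T0 f0 hu J T1 T2 hJ hJU h1 h2 h3 h4 h5 y z h6 h7
  · intro y hy z hz hyz
    obtain ⟨F, hF⟩ := hPNT Y hu.ax J (ins J) fJ y hmJ hy
    obtain ⟨G, hG⟩ := hPNT Y hu.ax J (ins J) fJ z hmJ hz
    have hs1 : ins J \ {y, z} ⊆ (J ∪ ins J) \ {y} := fun x hx =>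
      ⟨Or.inr hx.1, fun h => hx.2 (Or.inl h)⟩
    have hs2 : ins J \ {y, z} ⊆ (J ∪ ins J) \ {z} := fun x hx =>
      ⟨Or.inr hx.1, fun h => hx.2 (Or.inr h)⟩
    refine ⟨fun x => F x / G x, ?_, ?_, ?_, ?_⟩
    · exact (hF.1.mono hs1).div (hG.1.mono hs2) fun x hx => hG.2.1 x (hs2 hx)
    · intro x hx
      exact div_ne_zero (hF.2.1 x (hs1 hx)) (hG.2.1 x (hs2 hx))
    · intro A hA hAV
      exact hEON Y U J0 T0 f0 hu J A fJ F G y z hJ hJU hfJ hA hAV hF hG
    · intro C hC hCV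
      have hCJ : C ⊆ ins J := fun x hx => (hCV hx).1
      obtain ⟨⟨fC, hfC⟩, hgC, -⟩ := hDEG Y C hC
      obtain ⟨-, hf0, -, hzero⟩ := hgC fC hfC
      obtain ⟨s, hs1', hs⟩ := hDGP Y U J0 T0 f0 hu C J fC fJ hC hJ hJU hCJ hfC hfJ
      have hyC : y ∉ C := fun h => (hCV h).2 (Or.inl rfl)
      have hzC : z ∉ C := fun h => (hCV h).2 (Or.inr rfl)
      have hF0 : ∀ x ∈ C, F x ≠ 0 := fun x hx => hF.2.1 x (hs1 (hCV hx))
      have hG0 : ∀ x ∈ C, G x ≠ 0 := fun x hx => hG.2.1 x (hs2 (hCV hx))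
      have hs0 : s ≠ 0 := by
        rcases hs1' with h | h <;> rw [h] <;> norm_num
      by_cases h1 : y ∈ ins C
      · by_cases h2 : z ∈ ins C
        · rw [quot hf0 hF0 hG0 ((hs y F hy hF).1 h1) ((hs z G hz hG).1 h2) hzero]
          simp [h1, h2]
        · rw [quot hf0 hF0 hG0 ((hs y F hy hF).1 h1) ((hs z G hz hG).2 hzC h2) hzero]
          simp [h1, h2, hs0]
      · by_cases h2 : z ∈ ins C
        · rw [quot hf0 hF0 hG0 ((hs y F hy hF).2 hyC h1) ((hs z G hz hG).1 h2) hzero]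
          simp [h1, h2, hs0.symm]
        · rw [quot hf0 hF0 hG0 ((hs y F hy hF).2 hyC h1) ((hs z G hz hG).2 hzC h2) hzero]
          simp [h1, h2]

end BBP
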