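import Pool.Agent.BBP.StmtsB

/-!
# MP_6eac38_gt, third part, module PNT: point functions
-/

set_option autoImplicit false

namespace BBP

open Set Topology
open Pool.Agent.LIX (CLog)

namespace PNT

variable {Y : Type} [MetricSpace Y]

/-- gluing on closed sets -/
theorem glue {A B : Set Y} {F G : Y → ℂ} (hA : IsClosed A) (hB : IsClosed B)
    (hF : ContinuousOn F A) (hG : ContinuousOn G B) (h : ∀ x ∈ A ∩ B, F x = G x) :
    ∃ H : Y → ℂ, ContinuousOn H (A ∪ B) ∧ EqOn H F A ∧ EqOn H G B := by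
  classical
  have e1 : EqOn (fun x => if x ∈ A then F x else G x) F A := fun x hx => if_pos hx
  have e2 : EqOn (fun x => if x ∈ A then F x else G x) G B := by
    intro x hx
    by_cases hxA : x ∈ A
    · show (if x ∈ A then F x else G x) = G x
      rw [if_pos hxA]
      exact h x ⟨hxA, hx⟩
    · exact if_neg hxA
  exact ⟨fun x => if x ∈ A then F x else G x,
    (hF.congr e1).union_of_isClosed (hG.congr e2) hA hB, e1, e2⟩

/-- small connected neighbourhoods -/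
theorem small (hlp : LocallyPathConnectedSpace Y) (y : Y) {U : Set Y} (hU : IsOpen U)
    (hy : y ∈ U) {δ : ℝ} (hδ : 0 < δ) : ∃ V : Set Y, IsOpen V ∧ IsConnected V ∧ y ∈ V ∧
      closure V ⊆ U ∧ V ⊆ Metric.ball y δ := by
  obtain ⟨ε, hε, h1⟩ := Metric.isOpen_iff.1 hU y hy
  have h2 : Metric.ball y (min (ε / 2) δ) ∈ 𝓝 y :=
    Metric.ball_mem_nhds y (lt_min (half_pos hε) hδ)
  obtain ⟨V, ⟨hV1, hV2, hV3⟩, hV4⟩ :=
    (LocallyConnectedSpace.open_connected_basis y).mem_iff.1 h2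
  refine ⟨V, hV1, hV3, hV2, ?_, fun z hz => ?_⟩
  · intro z hz
    apply h1
    have h3 : z ∈ Metric.closedBall y (min (ε / 2) δ) :=
      Metric.closure_ball_subset_closedBall (closure_mono hV4 hz)
    rw [Metric.mem_closedBall] at h3
    rw [Metric.mem_ball]
    have h4 := min_le_left (ε / 2) δ
    linarith
  · exact Metric.ball_subset_ball (min_le_right _ _) (hV4 hz)

/-- a state of the construction -/
structure St (L : Set Y) (f : Y → ℂ) (Q : Set Y) (y : Y) (W : Set Y) (F : Y → ℂ) : Prop where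
  opn : IsOpen W
  conn : IsConnected W
  mem : y ∈ W
  clos : closure W ⊆ Q
  cont : ContinuousOn F ((L ∪ Q) \ W)
  ne : ∀ x ∈ (L ∪ Q) \ W, F x ≠ 0
  eq : EqOn F f L

/-- the step -/
theorem step (hY : Ax Y) (hlp : LocallyPathConnectedSpace Y) (hM : S_MMN) {L Q : Set Y}
    {f : Y → ℂ} {y : Y} (hQ : Mem L f Q) {W : Set Y} {F : Y → ℂ} (hs : St L f Q y W F) {δ : ℝ}
    (hδ : 0 < δ) : ∃ (W' : Set Y) (F' : Y → ℂ), St L f Q y W' F' ∧ W' ⊆ W ∧
      W' ⊆ Metric.ball y δ ∧ EqOn F' F ((L ∪ Q) \ W) := by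
  have hcl : IsClosed (L ∪ Q) := hQ.cpt.isClosed
  have hLW : ∀ x ∈ L, x ∈ (L ∪ Q) \ W := fun x hx =>
    ⟨Or.inl hx, fun h => Set.disjoint_left.1 hQ.disj (hs.clos (subset_closure h)) hx⟩
  have hcW : closure W \ W ⊆ (L ∪ Q) \ W := fun x hx => ⟨Or.inr (hs.clos hx.1), hx.2⟩
  have hcW2 : (closure W \ W) ∪ W = closure W := by
    rw [sdiff_union_self, union_eq_left.2 subset_closure]
  have hcpt : IsCompact (closure W) :=
    hQ.cpt.of_isClosed_subset isClosed_closure fun x hx => Or.inr (hs.clos hx)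
  -- the membrane in `W`
  have hMem : Mem (closure W \ W) F W := by
    refine ⟨hs.cont.mono hcW, fun x hx => hs.ne x (hcW hx), hcpt.diff hs.opn, hs.opn, hs.conn,
      ?_, ?_, ?_, ?_⟩
    · exact disjoint_sdiff_right
    · rw [union_comm, hcW2]
    · rw [hcW2]
      exact hcpt
    · rintro ⟨G, hG1, hG2, hG3⟩
      rw [hcW2] at hG1 hG2
      obtain ⟨H, hH1, hH2, hH3⟩ := glue (hcl.sdiff hs.opn) isClosed_closure hs.cont hG1
        (fun x hx => (hG3 ⟨hx.2, hx.1.2⟩).symm)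
      have hun : ((L ∪ Q) \ W) ∪ closure W = L ∪ Q := by
        apply subset_antisymm
        · exact union_subset sdiff_subset fun x hx => Or.inr (hs.clos hx)
        · intro x hx
          by_cases hxW : x ∈ W
          · exact Or.inr (subset_closure hxW)
          · exact Or.inl ⟨hx, hxW⟩
      rw [hun] at hH1
      refine hQ.ess ⟨H, hH1, ?_, ?_⟩
      · intro x hx
        rw [← hun] at hx
        rcases hx with hx | hx
        · rw [hH2 hx]
          exact hs.ne x hx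
        · rw [hH3 hx]
          exact hG2 x hx
      · intro x hx
        rw [hH2 (hLW x hx)]
        exact hs.eq hx
  obtain ⟨V, hV1, hV2, hV3, hV4, hV5⟩ := small hlp y hs.opn hs.mem hδ
  have hVW : V ⊆ W := subset_closure.trans hV4
  obtain ⟨G, hG1, hG2, hG3⟩ := hM Y hY _ _ _ hMem V hV1 ⟨y, hV3⟩ hVW
  rw [hcW2] at hG1 hG2
  obtain ⟨H, hH1, hH2, hH3⟩ := glue (hcl.sdiff hs.opn) (isClosed_closure.sdiff hV1) hs.cont hG1
    (fun x hx => (hG3 ⟨hx.2.1, hx.1.2⟩).symm)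
  have hun : ((L ∪ Q) \ W) ∪ (closure W \ V) = (L ∪ Q) \ V := by
    apply subset_antisymm
    · exact union_subset (fun x hx => ⟨hx.1, fun h => hx.2 (hVW h)⟩)
        fun x hx => ⟨Or.inr (hs.clos hx.1), hx.2⟩
    · intro x hx
      by_cases hxW : x ∈ W
      · exact Or.inr ⟨subset_closure hxW, hx.2⟩
      · exact Or.inl ⟨hx.1, hxW⟩
  rw [hun] at hH1
  refine ⟨V, H, ⟨hV1, hV2, hV3, ?_, hH1, ?_, ?_⟩, hVW, hV5, hH2⟩
  · exact hV4.trans (subset_closure.trans hs.clos)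
  · intro x hx
    rw [← hun] at hx
    rcases hx with hx | hx
    · rw [hH2 hx]
      exact hs.ne x hx
    · rw [hH3 hx]
      exact hG2 x hx
  · intro x hx
    rw [hH2 (hLW x hx)]
    exact hs.eq hx

end PNT

open PNT in
theorem t_PNT : M_PNT := by
  classical
  intro hL hM Y _ hY L Q f y hQ hyQ
  have hlp := hL Y hY
  -- the first state
  have h0 : ∃ (W : Set Y) (F : Y → ℂ), St L f Q y W F := by
    obtain ⟨V, hV1, hV2, hV3, hV4, -⟩ := small hlp y hQ.opn hyQ one_pos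
    obtain ⟨F, hF1, hF2, hF3⟩ := hM Y hY _ _ _ hQ V hV1 ⟨y, hV3⟩ (subset_closure.trans hV4)
    exact ⟨V, F, hV1, hV2, hV3, hV4, hF1, hF2, hF3⟩
  obtain ⟨W0, F0, hs0⟩ := h0
  let S := {p : Set Y × (Y → ℂ) // St L f Q y p.1 p.2}
  have hst : ∀ (p : S) (n : ℕ), ∃ p' : S, p'.1.1 ⊆ p.1.1 ∧
      p'.1.1 ⊆ Metric.ball y (1 / ((n : ℝ) + 1)) ∧ EqOn p'.1.2 p.1.2 ((L ∪ Q) \ p.1.1) := by
    intro p n
    obtain ⟨W', F', h1, h2, h3, h4⟩ := step hY hlp hM hQ p.2
      (show 0 < 1 / ((n : ℝ) + 1) by positivity)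
    exact ⟨⟨(W', F'), h1⟩, h2, h3, h4⟩
  choose g hg1 hg2 hg3 using hst
  let u : ℕ → S := fun n => Nat.rec ⟨(W0, F0), hs0⟩ (fun n p => g p n) n
  have hu : ∀ n, u (n + 1) = g (u n) n := fun n => rfl
  have hdec : ∀ n m, n ≤ m → (u m).1.1 ⊆ (u n).1.1 := by
    intro n m h
    induction m, h using Nat.le_induction with
    | base => exact subset_rfl
    | succ m _ ih => exact (hg1 (u m) m).trans ih
  have heq : ∀ n m, n ≤ m → EqOn (u m).1.2 (u n).1.2 ((L ∪ Q) \ (u n).1.1) := by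
    intro n m h
    induction m, h using Nat.le_induction with
    | base => exact fun _ _ => rfl
    | succ m hm ih =>
      intro x hx
      have hx' : x ∈ (L ∪ Q) \ (u m).1.1 := ⟨hx.1, fun h => hx.2 (hdec n m hm h)⟩
      rw [hu, hg3 (u m) m hx', ih hx]
  set F : Y → ℂ := fun x => if h : ∃ n, x ∉ (u n).1.1 then (u (Nat.find h)).1.2 x else 0 with hF
  have hFn : ∀ n x, x ∈ (L ∪ Q) \ (u n).1.1 → F x = (u n).1.2 x := by
    intro n x hx
    have h : ∃ n, x ∉ (u n).1.1 := ⟨n, hx.2⟩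
    have h1 : Nat.find h ≤ n := Nat.find_min' h hx.2
    have h2 : F x = (u (Nat.find h)).1.2 x := dif_pos h
    rw [h2]
    exact (heq _ _ h1 ⟨hx.1, Nat.find_spec h⟩).symm
  -- every point different from `y` is outside the closure of some `W n`
  have hout : ∀ x, x ≠ y → ∃ n, x ∉ closure (u n).1.1 := by
    intro x hx
    have hd : 0 < dist x y := dist_pos.2 hx
    obtain ⟨n, hn⟩ := exists_nat_one_div_lt hd
    refine ⟨n + 1, fun h => ?_⟩
    have h1 : (u (n + 1)).1.1 ⊆ Metric.ball y (1 / ((n : ℝ) + 1)) := by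
      rw [hu]
      exact hg2 (u n) n
    have h2 : x ∈ Metric.closedBall y (1 / ((n : ℝ) + 1)) :=
      Metric.closure_ball_subset_closedBall (closure_mono h1 h)
    rw [Metric.mem_closedBall] at h2
    linarith
  refine ⟨F, ?_, ?_, ?_⟩
  · intro x hx
    obtain ⟨n, hn⟩ := hout x hx.2
    have hx' : x ∈ (L ∪ Q) \ (u n).1.1 := ⟨hx.1, fun h => hn (subset_closure h)⟩
    have h1 : ContinuousWithinAt (u n).1.2 ((L ∪ Q) \ (u n).1.1) x := (u n).2.cont x hx'
    have h2 : ContinuousWithinAt F ((L ∪ Q) \ (u n).1.1) x :=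
      h1.congr (fun z hz => hFn n z hz) (hFn n x hx')
    refine h2.mono_of_mem_nhdsWithin ?_
    rw [mem_nhdsWithin]
    exact ⟨(closure (u n).1.1)ᶜ, isClosed_closure.isOpen_compl, hn,
      fun z hz => ⟨hz.2.1, fun h => hz.1 (subset_closure h)⟩⟩
  · intro x hx
    obtain ⟨n, hn⟩ := hout x hx.2
    have hx' : x ∈ (L ∪ Q) \ (u n).1.1 := ⟨hx.1, fun h => hn (subset_closure h)⟩
    rw [hFn n x hx']
    exact (u n).2.ne x hx'
  · intro x hx
    have hx' : x ∈ (L ∪ Q) \ (u 0).1.1 := ⟨Or.inl hx, fun h =>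
      Set.disjoint_left.1 hQ.disj ((u 0).2.clos (subset_closure h)) hx⟩
    rw [hFn 0 x hx']
    exact (u 0).2.eq hx

end BBP
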