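import Pool.Agent.BBP.StmtsB

/-!
# BBP, module SCA: arcs of a parametrised simple closed curve
-/

set_option autoImplicit false

namespace BBP

open Set Topology

namespace SCA

variable {Y : Type} [MetricSpace Y]

theorem injOn {γ : ℝ → Y} (hγ : Scp γ) (s : ℝ) : InjOn γ (Ico s (s + 1)) := by
  obtain ⟨_, hp, hi⟩ := hγ
  intro x hx y hy hxy
  have hfr : ∀ z : ℝ, γ (Int.fract z) = γ z := by
    intro z
    have h := hp.sub_int_mul_eq (x := z) ⌊z⌋
    rw [mul_one] at h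
    exact h
  have h1 : Int.fract x = Int.fract y := by
    refine hi ⟨Int.fract_nonneg x, Int.fract_lt_one x⟩ ⟨Int.fract_nonneg y, Int.fract_lt_one y⟩ ?_
    rw [hfr, hfr, hxy]
  obtain ⟨n, hn⟩ := Int.fract_eq_fract.1 h1
  have h2 : (n : ℝ) < 1 := by
    rw [← hn]
    linarith [hx.2, hy.1]
  have h3 : (-1 : ℝ) < n := by
    rw [← hn]
    linarith [hx.1, hy.2]
  have h4 : n < 1 := by exact_mod_cast h2
  have h5 : -1 < n := by exact_mod_cast h3
  have h6 : n = 0 := by omega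
  rw [h6, Int.cast_zero] at hn
  linarith

theorem arc {γ : ℝ → Y} (hc : Continuous γ) {s t : ℝ} (hst : s < t) (hi : InjOn γ (Icc s t)) :
    Arc (γ '' Icc s t) (γ s) (γ t) := by
  have hpos : 0 < t - s := by linarith
  have hmem : ∀ u ∈ Icc (0 : ℝ) 1, s + u * (t - s) ∈ Icc s t := by
    intro u hu
    have h1 : 0 ≤ u * (t - s) := mul_nonneg hu.1 hpos.le
    have h2 : u * (t - s) ≤ 1 * (t - s) := mul_le_mul_of_nonneg_right hu.2 hpos.le
    exact ⟨by linarith, by linarith⟩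
  refine ⟨fun u => γ (s + u * (t - s)), ?_, ?_, ?_, ?_, ?_⟩
  · exact (hc.comp (by fun_prop)).continuousOn
  · intro u hu u' hu' h
    have h1 := hi (hmem u hu) (hmem u' hu') h
    have h2 : u * (t - s) = u' * (t - s) := by linarith
    exact mul_right_cancel₀ hpos.ne' h2
  · show γ (s + 0 * (t - s)) = γ s
    congr 1
    ring
  · show γ (s + 1 * (t - s)) = γ t
    congr 1
    ring
  · ext y
    constructor
    · rintro ⟨z, hz, rfl⟩
      refine ⟨(z - s) / (t - s), ⟨?_, ?_⟩, ?_⟩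
      · exact div_nonneg (by linarith [hz.1]) hpos.le
      · rw [div_le_one hpos]
        linarith [hz.2]
      · show γ (s + (z - s) / (t - s) * (t - s)) = γ z
        congr 1
        rw [div_mul_cancel₀ _ hpos.ne']
        ring
    · rintro ⟨u, hu, rfl⟩
      exact ⟨_, hmem u hu, rfl⟩

end SCA

theorem t_SCA : S_SCA := by
  intro Y _ γ hγ
  have hper : ∀ s : ℝ, γ (s + 1) = γ s := hγ.2.1
  have himg : ∀ s : ℝ, γ '' Icc s (s + 1) = range γ := fun s => hγ.2.1.image_Icc one_pos s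
  refine ⟨fun s => ⟨SCA.injOn hγ s, himg s⟩, ?_⟩
  intro s t hst hts
  refine ⟨?_, ?_, ?_, ?_⟩
  · refine SCA.arc hγ.1 hst ((SCA.injOn hγ s).mono ?_)
    intro u hu
    exact ⟨hu.1, lt_of_le_of_lt hu.2 hts⟩
  · rw [← hper s]
    refine SCA.arc hγ.1 hts ((SCA.injOn hγ t).mono ?_)
    intro u hu
    exact ⟨hu.1, by linarith [hu.2]⟩
  · rw [← image_union, Icc_union_Icc_eq_Icc hst.le hts.le]
    exact himg s
  · ext y
    constructor
    · rintro ⟨⟨u, hu, rfl⟩, v, hv, hvu⟩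
      rcases eq_or_lt_of_le hv.2 with h | h
      · left
        rw [← hvu, h, hper]
      · right
        have h1 : v = u := SCA.injOn hγ s ⟨by linarith [hv.1], h⟩ ⟨hu.1, by linarith [hu.2]⟩ hvu
        have h2 : u = t := le_antisymm hu.2 (by rw [← h1]; exact hv.1)
        rw [mem_singleton_iff, h2]
    · rintro (h | h)
      · rw [h]
        exact ⟨⟨s, ⟨le_refl _, hst.le⟩, rfl⟩, s + 1, ⟨hts.le, le_refl _⟩, hper s⟩
      · rw [mem_singleton_iff.1 h]
        exact ⟨⟨t, ⟨hst.le, le_refl _⟩, rfl⟩, t, ⟨le_refl _, hts.le⟩, rfl⟩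

end BBP
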