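import Pool.Agent.BBP.StmtsB

/-!
# MP_6eac38_gt, part 3: module SCB (simple closed curves)
-/

set_option autoImplicit false

namespace BBP

open Set Topology

namespace SCB

variable {Y : Type} [MetricSpace Y]

theorem arc_symm {A : Set Y} {a b : Y} (h : Arc A a b) : Arc A b a := by
  obtain ⟨α, hc, hi, h0, h1, hA⟩ := h
  have hmaps : MapsTo (fun t : ℝ => 1 - t) (Icc 0 1) (Icc 0 1) := fun t ht =>
    ⟨by have := ht.2; show 0 ≤ 1 - t; linarith, by have := ht.1; show 1 - t ≤ 1; linarith⟩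
  refine ⟨fun t => α (1 - t), ?_, ?_, ?_, ?_, ?_⟩
  · exact hc.comp (continuous_const.sub continuous_id).continuousOn hmaps
  · intro s hs t ht hst
    have h2 := hi (hmaps hs) (hmaps ht) hst
    have h3 : 1 - s = 1 - t := h2
    linarith
  · show α (1 - 0) = b
    rw [sub_zero, h1]
  · show α (1 - 1) = a
    rw [sub_self, h0]
  · rw [hA]
    ext x
    constructor
    · rintro ⟨t, ht, rfl⟩
      refine ⟨1 - t, hmaps ht, ?_⟩
      show α (1 - (1 - t)) = α t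
      rw [sub_sub_cancel]
    · rintro ⟨t, ht, rfl⟩
      exact ⟨1 - t, hmaps ht, rfl⟩

theorem arc_left {A : Set Y} {a b : Y} (h : Arc A a b) : a ∈ A := by
  obtain ⟨α, _, _, h0, _, hA⟩ := h
  rw [hA, ← h0]
  exact ⟨0, ⟨le_rfl, zero_le_one⟩, rfl⟩

theorem arc_closed {A : Set Y} {a b : Y} (h : Arc A a b) : IsClosed A := by
  obtain ⟨α, hc, _, _, _, hA⟩ := h
  rw [hA]
  exact (isCompact_Icc.image_of_continuousOn hc).isClosed

variable {γ : ℝ → Y}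

/-- the second parameter -/
theorem second (hS : S_SCA) (hγ : Scp γ) (s : ℝ) {b : Y} (hb : b ∈ range γ) (hne : γ s ≠ b) :
    ∃ t, s < t ∧ t < s + 1 ∧ γ t = b := by
  rw [← ((hS Y γ hγ).1 s).2] at hb
  obtain ⟨t, ht, rfl⟩ := hb
  refine ⟨t, lt_of_le_of_ne ht.1 fun h => hne (by rw [h]), lt_of_le_of_ne ht.2 fun h => hne ?_,
    rfl⟩
  rw [h]
  exact (hγ.2.1 s).symm

theorem first (hS : S_SCA) (hγ : Scp γ) {a : Y} (ha : a ∈ range γ) :
    ∃ s, s ∈ Icc (0 : ℝ) 1 ∧ γ s = a := by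
  have h1 := ((hS Y γ hγ).1 0).2
  rw [zero_add] at h1
  rw [← h1] at ha
  exact ha

theorem conn_diff (hS : S_SCA) (hγ : Scp γ) (t0 : ℝ) : IsConnected (range γ \ {γ t0}) := by
  have h1 : range γ \ {γ t0} = γ '' Ioo t0 (t0 + 1) := by
    ext x
    constructor
    · rintro ⟨hx, hx0⟩
      obtain ⟨t, h1, h2, h3⟩ := second hS hγ t0 hx fun h => hx0 h.symm
      exact ⟨t, ⟨h1, h2⟩, h3⟩
    · rintro ⟨t, ht, rfl⟩
      refine ⟨mem_range_self t, fun h => ?_⟩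
      have h2 := ((hS Y γ hγ).1 t0).1 ⟨ht.1.le, ht.2⟩ ⟨le_rfl, by linarith⟩ h
      exact ht.1.ne' h2
  rw [h1]
  exact (isConnected_Ioo (by linarith)).image _ hγ.1.continuousOn

theorem small_arc (hS : S_SCA) (hγ : Scp γ) (t0 : ℝ) {W : Set Y} (hW : IsOpen W)
    (hx : γ t0 ∈ W) : ∃ (A B : Set Y) (a b : Y), Arc A a b ∧ Arc B a b ∧
      A ∪ B = range γ ∧ A ∩ B = {a, b} ∧ γ t0 ∈ B ∧ γ t0 ∉ A ∧ B ⊆ W := by
  have h1 : γ ⁻¹' W ∈ 𝓝 t0 := hγ.1.continuousAt.preimage_mem_nhds (hW.mem_nhds hx)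
  obtain ⟨ε, hε, h2⟩ := Metric.mem_nhds_iff.1 h1
  set δ : ℝ := min (ε / 2) (1 / 4) with hδ
  have hδ0 : 0 < δ := lt_min (by linarith) (by norm_num)
  have hδ1 : δ ≤ ε / 2 := min_le_left _ _
  have hδ2 : δ ≤ 1 / 4 := min_le_right _ _
  obtain ⟨h3, h4, h5, h6⟩ := (hS Y γ hγ).2 (t0 - δ) (t0 + δ) (by linarith) (by linarith)
  refine ⟨_, _, _, _, arc_symm h4, h3, ?_, ?_, ⟨t0, ⟨by linarith, by linarith⟩, rfl⟩, ?_, ?_⟩
  · rw [union_comm]
    exact h5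
  · rw [inter_comm]
    exact h6
  · intro h7
    have h8 : γ t0 ∈ ({γ (t0 - δ), γ (t0 + δ)} : Set Y) := by
      rw [← h6]
      exact ⟨⟨t0, ⟨by linarith, by linarith⟩, rfl⟩, h7⟩
    have hinj := ((hS Y γ hγ).1 (t0 - δ)).1
    rcases h8 with h8 | h8
    · have := hinj (x₁ := t0) (x₂ := t0 - δ) ⟨by linarith, by linarith⟩
        ⟨by linarith, by linarith⟩ h8
      linarith
    · have := hinj (x₁ := t0) (x₂ := t0 + δ) ⟨by linarith, by linarith⟩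
        ⟨by linarith, by linarith⟩ h8
      linarith
  · rintro _ ⟨t, ht, rfl⟩
    apply h2
    rw [Metric.mem_ball, Real.dist_eq, abs_lt]
    constructor
    · linarith [ht.1]
    · linarith [ht.2]

theorem two_arcs (hS : S_SCA) (hγ : Scp γ) {a b : Y} (ha : a ∈ range γ) (hb : b ∈ range γ)
    (hab : a ≠ b) : ∃ A B : Set Y, Arc A a b ∧ Arc B a b ∧ A ∪ B = range γ ∧
      A ∩ B = {a, b} := by
  obtain ⟨s, _, rfl⟩ := first hS hγ ha
  obtain ⟨t, h1, h2, rfl⟩ := second hS hγ s hb hab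
  obtain ⟨h3, h4, h5, h6⟩ := (hS Y γ hγ).2 s t h1 h2
  exact ⟨_, _, h3, arc_symm h4, h5, h6⟩

theorem unif (hS : S_SCA) (hγ : Scp γ) {ε : ℝ} (hε : 0 < ε) :
    ∃ η > 0, ∀ x ∈ range γ, ∀ y ∈ range γ, x ≠ y → dist x y < η → ∃ B ⊆ range γ, Arc B x y ∧
      ∀ u ∈ B, ∀ v ∈ B, dist u v < ε := by
  have huc : UniformContinuousOn γ (Icc 0 2) :=
    isCompact_Icc.uniformContinuousOn_of_continuous hγ.1.continuousOn
  obtain ⟨δ, hδ, huc⟩ := Metric.uniformContinuousOn_iff.1 huc ε hε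
  have hsmall : ∀ s t : ℝ, 0 ≤ s → t ≤ 2 → t - s < δ →
      ∀ u ∈ γ '' Icc s t, ∀ v ∈ γ '' Icc s t, dist u v < ε := by
    rintro s t hs ht hst _ ⟨u, hu, rfl⟩ _ ⟨v, hv, rfl⟩
    apply huc u ⟨by linarith [hu.1], by linarith [hu.2]⟩ v ⟨by linarith [hv.1], by linarith [hv.2]⟩
    rw [Real.dist_eq, abs_lt]
    constructor
    · linarith [hu.1, hv.2]
    · linarith [hu.2, hv.1]
  let K : Set (ℝ × ℝ) := {p | (0 ≤ p.1 ∧ p.1 ≤ 1) ∧ p.1 + δ ≤ p.2 ∧ p.2 ≤ p.1 + 1 - δ}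
  have hKsub : K ⊆ Icc 0 1 ×ˢ Icc 0 2 := by
    rintro ⟨s, t⟩ ⟨⟨h1, h2⟩, h3, h4⟩
    simp only at h1 h2 h3 h4
    exact ⟨⟨h1, h2⟩, ⟨by show 0 ≤ t; linarith, by show t ≤ 2; linarith⟩⟩
  have hKclosed : IsClosed K := by
    apply IsClosed.inter
    · exact (isClosed_le continuous_const continuous_fst).inter
        (isClosed_le continuous_fst continuous_const)
    · exact (isClosed_le (continuous_fst.add continuous_const) continuous_snd).inter
        (isClosed_le continuous_snd ((continuous_fst.add continuous_const).sub continuous_const))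
  have hK : IsCompact K := (isCompact_Icc.prod isCompact_Icc).of_isClosed_subset hKclosed hKsub
  have hpos : ∀ p ∈ K, 0 < dist (γ p.1) (γ p.2) := by
    rintro ⟨s, t⟩ ⟨⟨h1, h2⟩, h3, h4⟩
    simp only at h1 h2 h3 h4
    apply dist_pos.2
    intro h5
    have h6 := ((hS Y γ hγ).1 s).1 (x₁ := s) (x₂ := t) ⟨le_rfl, by linarith⟩
      ⟨by linarith, by linarith⟩ h5
    linarith
  have hη : ∃ η > 0, ∀ p ∈ K, η ≤ dist (γ p.1) (γ p.2) := by
    rcases K.eq_empty_or_nonempty with he | hne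
    · exact ⟨1, one_pos, fun p hp => by rw [he] at hp; exact absurd hp (notMem_empty _)⟩
    · obtain ⟨p, hp, hmin⟩ := hK.exists_isMinOn hne
        (f := fun p : ℝ × ℝ => dist (γ p.1) (γ p.2))
        ((hγ.1.comp continuous_fst).dist (hγ.1.comp continuous_snd)).continuousOn
      exact ⟨_, hpos p hp, fun q hq => hmin hq⟩
  obtain ⟨η, hη0, hη⟩ := hη
  refine ⟨η, hη0, fun x hx y hy hxy hd => ?_⟩
  obtain ⟨s, hs, rfl⟩ := first hS hγ hx
  obtain ⟨t, h1, h2, rfl⟩ := second hS hγ s hy hxy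
  obtain ⟨h3, h4, _, _⟩ := (hS Y γ hγ).2 s t h1 h2
  by_cases hst : t - s < δ
  · exact ⟨_, image_subset_range _ _, h3, hsmall s t hs.1 (by linarith [hs.2]) hst⟩
  · by_cases hst2 : s + 1 - t < δ
    · exact ⟨_, image_subset_range _ _, arc_symm h4,
        hsmall t (s + 1) (by linarith [hs.1]) (by linarith [hs.2]) hst2⟩
    · exfalso
      have h5 : (s, t) ∈ K :=
        ⟨⟨hs.1, hs.2⟩, by show s + δ ≤ t; linarith, by show t ≤ s + 1 - δ; linarith⟩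
      have h6 := hη _ h5
      simp only at h6
      linarith

theorem nbhd {C A B : Set Y} {a b : Y} (hA : Arc A a b) (hAB : A ∪ B = C) {x : Y}
    (hx : x ∉ A) : ∃ W : Set Y, IsOpen W ∧ x ∈ W ∧ W ∩ C ⊆ B \ {a, b} := by
  refine ⟨Aᶜ, (arc_closed hA).isOpen_compl, hx, ?_⟩
  rintro y ⟨hy, hyC⟩
  rw [← hAB] at hyC
  refine ⟨hyC.resolve_left hy, ?_⟩
  rintro (rfl | rfl)
  · exact hy (arc_left hA)
  · exact hy (arc_left (arc_symm hA))

end SCB

open SCB in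
theorem t_SCB : M_SCB := by
  intro hS Y _ C hC
  obtain ⟨γ, hγ, rfl⟩ := hC
  refine ⟨?_, isConnected_range hγ.1, ?_, ?_, ?_, fun ε hε => unif hS hγ hε, ?_⟩
  · rw [← ((hS Y γ hγ).1 0).2]
    exact isCompact_Icc.image hγ.1
  · rintro _ ⟨t0, rfl⟩
    exact conn_diff hS hγ t0
  · rintro _ ⟨t0, rfl⟩ W hW hx
    exact small_arc hS hγ t0 hW hx
  · intro a ha b hb hab
    exact two_arcs hS hγ ha hb hab
  · intro A B a b hA _ hAB _ x _ hx
    exact nbhd hA hAB hx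

end BBP
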