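import Pool.Agent.BBP.StmtsB

/-!
# BBP, SGN: the sign
-/

set_option autoImplicit false

namespace BBP

open Set Topology
open Pool.Agent.LIX (CLog)

namespace SGN

/-- Tietze's theorem for complex functions -/
theorem tietze {X : Type} [MetricSpace X] {K : Set X} (hK : IsClosed K) {F : X → ℂ}
    (hF : ContinuousOn F K) : ∃ G : X → ℂ, Continuous G ∧ ∀ x ∈ K, G x = F x := by
  obtain ⟨g, hg⟩ := ContinuousMap.exists_restrict_eq hK
    (⟨K.domRestrict F, continuousOn_iff_continuous_domRestrict.1 hF⟩ : C(K, ℂ))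
  refine ⟨g, g.continuous, fun x hx => ?_⟩
  exact congrArg (fun φ : C(K, ℂ) => φ ⟨x, hx⟩) hg

/-- gluing of two functions on closed sets -/
theorem glue {X : Type} [TopologicalSpace X] {A B : Set X} (hA : IsClosed A) (hB : IsClosed B)
    {f g : X → ℂ} (hf : ContinuousOn f A) (hg : ContinuousOn g B)
    (hfg : ∀ x ∈ A ∩ B, f x = g x) :
    ∃ h : X → ℂ, ContinuousOn h (A ∪ B) ∧ (∀ x ∈ A, h x = f x) ∧ ∀ x ∈ B, h x = g x := by
  classical
  have h1 : ∀ x ∈ A, (if x ∈ A then f x else g x) = f x := fun x hx => if_pos hx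
  have h2 : ∀ x ∈ B, (if x ∈ A then f x else g x) = g x := by
    intro x hx
    by_cases hxA : x ∈ A
    · rw [if_pos hxA]
      exact hfg x ⟨hxA, hx⟩
    · rw [if_neg hxA]
  exact ⟨fun x => if x ∈ A then f x else g x,
    ContinuousOn.union_of_isClosed (hf.congr h1) (hg.congr h2) hA hB, h1, h2⟩

/-- a function without zeros on the closed disk has degree zero on its boundary -/
theorem deg_zero {Y : Type} [MetricSpace Y] {U J0 T0 : Set Y} {f0 : Y → ℂ} (hF : S_FIV)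
    (hU : Uni U J0 T0 f0) {J : Set Y} {fJ : Y → ℂ} (hJ : Scc J) (hJU : J ⊆ U) (hG : Gen J fJ)
    (hcJ : IsClosed J) (hJ0 : ∀ x ∈ J, fJ x ≠ 0) {h : Y → ℂ} {c : ℤ}
    (hc : ContinuousOn h (J ∪ ins J)) (h0 : ∀ x ∈ J ∪ ins J, h x ≠ 0) (hd : Deg J fJ h c) :
    c = 0 := by
  by_contra hne
  obtain ⟨l, hl, he⟩ := hd
  obtain ⟨l', hl', hl2⟩ := tietze hcJ hl
  refine hF Y U J0 T0 f0 hU J fJ c hJ hJU hG hne ⟨fun x => h x / Complex.exp (l' x), ?_, ?_, ?_⟩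
  · exact hc.div (Complex.continuous_exp.comp hl').continuousOn
      fun x _ => Complex.exp_ne_zero _
  · intro x hx
    exact div_ne_zero (h0 x hx) (Complex.exp_ne_zero _)
  · intro x hx
    have h1 : Complex.exp (l x) = h x / fJ x ^ c := he x hx
    have h2 : fJ x ^ c ≠ 0 := zpow_ne_zero _ (hJ0 x hx)
    have h3 : h x ≠ 0 := h0 x (Or.inl hx)
    show h x / Complex.exp (l' x) = fJ x ^ c
    rw [hl2 x hx, h1]
    field_simp

end SGN

open SGN in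
theorem t_SGN : M_SGN := by
  intro hDEG hCMP hMMN hJCT hFIV hNST Y _ U J0 T0 f0 hU C J fC fJ hC hJ hJU hCJ hGC hGJ
  -- facts on `J` and `C`
  obtain ⟨hJm, hJins, -, -, -, -, -, -⟩ := hJCT Y U J0 T0 f0 hU J fJ hJ hJU hGJ
  have hCU : C ⊆ U := hCJ.trans hJins
  obtain ⟨hCm, -, -, -, -, -, -, -⟩ := hJCT Y U J0 T0 f0 hU C fC hC hCU hGC
  have hins : ins C ⊆ ins J := hNST Y U J0 T0 f0 hU C J hC hJ hJU (hCJ.trans subset_union_right)
  obtain ⟨hJc, hJ0, hJd, -⟩ := (hDEG Y J hJ).2.1 fJ hGJ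
  obtain ⟨hCc, hC0, hCd, -⟩ := (hDEG Y C hC).2.1 fC hGC
  have hJcl : IsClosed J := hJm.cptL.isClosed
  have hCcl : IsClosed C := hCm.cptL.isClosed
  have hNc : IsCompact ((J ∪ ins J) \ ins C) := hJm.cpt.diff hCm.opn
  have hCN : C ⊆ (J ∪ ins J) \ ins C := fun x hx =>
    ⟨Or.inr (hCJ hx), fun h => Set.disjoint_left.1 hCm.disj h hx⟩
  have hJN : J ⊆ (J ∪ ins J) \ ins C := fun x hx =>
    ⟨Or.inl hx, fun h => Set.disjoint_left.1 hJm.disj (hins h) hx⟩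
  -- (i)
  have hE1 : ExtC C ((J ∪ ins J) \ ins C) fC := by
    by_contra hne
    obtain ⟨Q, hQ, hQm⟩ := hCMP Y hU.ax C _ fC hCm.cptL hNc hCN hCc hC0 hne
    have h1 : Q ⊆ ins C := subset_sUnion_of_mem ⟨hQm.opn, hQm.conn, hQm.disj, hQm.cpt⟩
    obtain ⟨x, hx⟩ := hQm.conn.nonempty
    exact (hQ hx).2 (h1 hx)
  obtain ⟨g1, hg1c, hg10, hg1e⟩ := hE1
  obtain ⟨n, hn⟩ := hJd g1 (hg1c.mono hJN) fun x hx => hg10 x (hJN hx)
  -- (ii)
  obtain ⟨F, hFc, hF0, hFe⟩ := hMMN Y hU.ax J (ins J) fJ hJm (ins C) hCm.opn hCm.conn.nonempty hins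
  obtain ⟨k, hk⟩ := hCd F (hFc.mono hCN) fun x hx => hF0 x (hCN hx)
  -- (iii)
  have key : ∀ (g : Y → ℂ) (a b : ℤ), ContinuousOn g ((J ∪ ins J) \ ins C) →
      (∀ x ∈ (J ∪ ins J) \ ins C, g x ≠ 0) → Deg J fJ g a → Deg C fC g b → a = n * b := by
    intro g a b hgc hg0 hga hgb
    have hq : ContinuousOn (fun x => g x / g1 x ^ b) ((J ∪ ins J) \ ins C) :=
      hgc.div (hg1c.zpow₀ b fun x hx => Or.inl (hg10 x hx))
        fun x hx => zpow_ne_zero _ (hg10 x hx)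
    have hq0 : ∀ x ∈ (J ∪ ins J) \ ins C, g x / g1 x ^ b ≠ 0 := fun x hx =>
      div_ne_zero (hg0 x hx) (zpow_ne_zero _ (hg10 x hx))
    obtain ⟨l, hl, he⟩ := hgb
    obtain ⟨l', hl', hl2⟩ := tietze hCcl hl
    obtain ⟨h, hh1, hh2, hh3⟩ := glue (A := (J ∪ ins J) \ ins C) (B := C ∪ ins C)
      hNc.isClosed hCm.cpt.isClosed hq (Complex.continuous_exp.comp hl').continuousOn (by
        rintro x ⟨hx1, hx2 | hx2⟩
        · show g x / g1 x ^ b = Complex.exp (l' x)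
          rw [hl2 x hx2, he x hx2, hg1e hx2]
        · exact absurd hx2 hx1.2)
    have hsub : J ∪ ins J ⊆ (J ∪ ins J) \ ins C ∪ (C ∪ ins C) := by
      intro x hx
      by_cases hxC : x ∈ ins C
      · exact Or.inr (Or.inr hxC)
      · exact Or.inl ⟨hx, hxC⟩
    have hh0 : ∀ x ∈ J ∪ ins J, h x ≠ 0 := by
      intro x hx
      rcases hsub hx with h4 | h4
      · rw [hh2 x h4]
        exact hq0 x h4
      · rw [hh3 x h4]
        exact Complex.exp_ne_zero _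
    have hdeg : Deg J fJ h (a - n * b) := by
      have h5 : CLog J fun x => (g x / fJ x ^ a) / (g1 x / fJ x ^ n) ^ b :=
        Pool.Agent.LIX.CLog.div hga (Pool.Agent.LIX.CLog.zpow hn b)
      refine Pool.Agent.LIX.CLog.congr h5 fun x hx => ?_
      rw [hh2 x (hJN hx)]
      have h6 : fJ x ≠ 0 := hJ0 x hx
      have h7 : g1 x ≠ 0 := hg10 x (hJN hx)
      rw [zpow_sub₀ h6, zpow_mul, div_zpow]
      have h8 : fJ x ^ a ≠ 0 := zpow_ne_zero _ h6
      have h9 : (fJ x ^ n) ^ b ≠ 0 := zpow_ne_zero _ (zpow_ne_zero _ h6)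
      have h10 : g1 x ^ b ≠ 0 := zpow_ne_zero _ h7
      field_simp
    have h11 := deg_zero hFIV hU hJ hJU hGJ hJcl hJ0 (hh1.mono hsub) hh0 hdeg
    omega
  -- (iv)
  have h1 : Deg J fJ F 1 := by
    refine Pool.Agent.LIX.CLog.congr (Pool.Agent.LIX.cLog_const (one_ne_zero)) fun x hx => ?_
    rw [hFe hx, zpow_one, div_self (hJ0 x hx)]
  have h2 : 1 = n * k := key F 1 k hFc hF0 h1 hk
  have h3 : n = 1 ∨ n = -1 := Int.isUnit_iff.1 (IsUnit.of_mul_eq_one k h2.symm)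
  exact ⟨n, h3, key⟩

end BBP
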