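import Pool.Agent.BBP.StmtsB

/-!
# BBP, SML: small simple closed curves around a point
-/

set_option autoImplicit false

namespace BBP

open Set Topology
open Pool.Agent.LIX (CLog)

namespace SML

/-- Small connected open neighbourhoods. -/
theorem nb {Y : Type} [MetricSpace Y] [LocallyConnectedSpace Y] {y : Y} {V : Set Y}
    (hV : IsOpen V) (hy : y ∈ V) :
    ∃ B : Set Y, IsOpen B ∧ IsConnected B ∧ y ∈ B ∧ closure B ⊆ V := by
  obtain ⟨ε, hε, hb⟩ := Metric.nhds_basis_closedBall.mem_iff.1 (hV.mem_nhds hy)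
  have hyb : y ∈ Metric.ball y ε := Metric.mem_ball_self hε
  refine ⟨connectedComponentIn (Metric.ball y ε) y, Metric.isOpen_ball.connectedComponentIn,
    isConnected_connectedComponentIn_iff.2 hyb, mem_connectedComponentIn hyb, ?_⟩
  exact ((closure_mono (connectedComponentIn_subset _ _)).trans
    Metric.closure_ball_subset_closedBall).trans hb

/-- A function with a logarithm on a closed set extends to the whole space without zeros. -/
theorem ext_of_log {Y : Type} [MetricSpace Y] {S K : Set Y} {F : Y → ℂ} (hS : IsClosed S)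
    (h : CLog S F) : ExtC S K F := by
  obtain ⟨l, hl, hlF⟩ := h
  obtain ⟨g, hg⟩ := ContinuousMap.exists_restrict_eq hS
    (⟨S.restrict l, hl.restrict⟩ : C(S, ℂ))
  refine ⟨fun x => Complex.exp (g x), (Complex.continuous_exp.comp g.continuous).continuousOn,
    fun x _ => Complex.exp_ne_zero _, fun x hx => ?_⟩
  have h1 : g x = l x := by
    have h2 := congrArg (fun k : C(S, ℂ) => k ⟨x, hx⟩) hg
    exact h2
  show Complex.exp (g x) = F x
  rw [h1, hlF x hx]

end SML

open SML in
theorem t_SML : M_SML := by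
  intro hlpc hlog hnsp hnrm Y _ hax L Q f F y hmem hyQ hF W hW hyW
  have hloc : LocallyPathConnectedSpace Y := hlpc Y hax
  have hlc : LocallyConnectedSpace Y := inferInstance
  obtain ⟨W0, hW0o, hW0c, hyW0, hW0⟩ := nb (hW.inter hmem.opn) ⟨hyW, hyQ⟩
  have hsub : W0 ⊆ W ∩ Q := subset_closure.trans hW0
  have hm0 : Mem (closure W0 \ W0) F W0 := hnrm Y L Q f F y hmem hyQ hF W0 hW0o hW0c hyW0
    (hW0.trans inter_subset_right)
  have hOm : IsConnected (W0 \ {y}) := by
    refine hnsp Y hax (closure W0 \ W0) W0 {y} F hm0 (singleton_subset_iff.2 hyW0)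
      isCompact_singleton ?_
    intro g _ hg
    obtain ⟨z, hz⟩ : ∃ z, Complex.exp z = g y :=
      ⟨Complex.log (g y), Complex.exp_log (hg y rfl)⟩
    refine ⟨fun _ => z, continuousOn_const, fun x hx => ?_⟩
    rw [mem_singleton_iff.1 hx]
    exact hz
  by_contra hcon
  have hlogs : ∀ C : Set Y, Scc C → C ⊆ W0 \ {y} → CLog C F := by
    intro C hC hCs
    by_contra hno
    exact hcon ⟨C, hC, fun x hx => (hsub (hCs hx).1).1, fun x hx => (hsub (hCs hx).1).2,
      fun hy => (hCs hy).2 rfl, hno⟩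
  have hsub2 : W0 \ {y} ⊆ (L ∪ Q) \ {y} := fun x hx => ⟨Or.inr (hsub hx.1).2, hx.2⟩
  have hcl : CLog (W0 \ {y}) F := hlog Y hloc (W0 \ {y}) F
    (hW0o.sdiff isClosed_singleton) hOm (hF.1.mono hsub2) (fun x hx => hF.2.1 x (hsub2 hx)) hlogs
  obtain ⟨B, hBo, hBc, hyB, hB⟩ := nb hW0o hyW0
  have hmB : Mem (closure B \ B) F B := hnrm Y L Q f F y hmem hyQ hF B hBo hBc hyB
    (hB.trans (hsub.trans inter_subset_right))
  refine hmB.ess (ext_of_log ?_ (hcl.mono ?_))
  · exact isClosed_closure.sdiff hBo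
  · intro x hx
    refine ⟨hB hx.1, fun h => hx.2 ?_⟩
    rw [mem_singleton_iff.1 h]
    exact hyB

end BBP
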