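import Pool.Agent.BBP.StmtsB

/-!
# Module TRI: increments
-/

namespace BBP

open Set Topology

namespace TRI

/-- values of `exp` equal and close: equal -/
theorem eq_of_exp {z w : ℂ} (h : Complex.exp z = Complex.exp w) (hd : dist z w < 2 * Real.pi) :
    z = w := by
  obtain ⟨n, hn⟩ := Complex.exp_eq_exp_iff_exists_int.1 h
  have h1 : dist z w = |(n : ℝ)| * (2 * Real.pi) := by
    rw [hn, dist_eq_norm]
    have : w + (n : ℂ) * (2 * Real.pi * Complex.I) - w = (n : ℂ) * (2 * Real.pi * Complex.I) := by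
      ring
    rw [this, norm_mul, norm_mul, Complex.norm_I, mul_one, norm_mul]
    rw [Complex.norm_intCast, Complex.norm_real, Complex.norm_ofNat, Real.norm_eq_abs,
      abs_of_pos Real.pi_pos]
  rw [h1] at hd
  have hpi := Real.pi_pos
  have h2 : |(n : ℝ)| < 1 := by
    by_contra h3
    push Not at h3
    nlinarith
  have h3 : n = 0 := by
    have h4 : |n| < 1 := by exact_mod_cast h2
    exact Int.abs_lt_one_iff.1 h4
  rw [hn, h3]
  simp

end TRI

open TRI

theorem t_TRI : S_TRI := by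
  intro Y _ T β l θ hT hβ hl hθ hexp h0 h1 hgap
  set K0 : Set ℝ := Icc 0 1 ∩ β ⁻¹' T with hK0
  have hK0c : IsClosed K0 := hβ.preimage_isClosed_of_isClosed isClosed_Icc hT
  set k : ℝ → ℂ := fun t => θ t - l (β t) with hk
  have hkc : ContinuousOn k K0 := by
    refine (hθ.mono inter_subset_left).sub (hl.comp (hβ.mono inter_subset_left) ?_)
    intro t ht
    exact ht.2
  have hkexp : ∀ t ∈ K0, Complex.exp (k t) = 1 := by
    intro t ht
    rw [hk]
    simp only
    rw [Complex.exp_sub, hexp t ht.1 ht.2, div_self (Complex.exp_ne_zero _)]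
  have hloc : ∀ t ∈ K0, ∃ δ > 0, ∀ s ∈ K0, |s - t| < δ → k s = k t := by
    intro t ht
    have h2 := Metric.continuousOn_iff.1 hkc t ht (2 * Real.pi) (by positivity)
    obtain ⟨δ, hδ, h3⟩ := h2
    refine ⟨δ, hδ, fun s hs hst => ?_⟩
    have h4 := h3 s hs (by rw [Real.dist_eq]; exact hst)
    exact eq_of_exp (by rw [hkexp s hs, hkexp t ht]) h4
  have h0K : (0 : ℝ) ∈ K0 := ⟨⟨le_refl _, zero_le_one⟩, h0⟩
  have h1K : (1 : ℝ) ∈ K0 := ⟨⟨zero_le_one, le_refl _⟩, h1⟩
  set M : Set ℝ := {t | t ∈ K0 ∧ k t = k 0} with hM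
  have hMne : M.Nonempty := ⟨0, h0K, rfl⟩
  have hMb : BddAbove M := ⟨1, fun t ht => ht.1.1.2⟩
  set m := sSup M with hm
  have hm0 : 0 ≤ m := le_csSup hMb ⟨h0K, rfl⟩
  have hm1 : m ≤ 1 := csSup_le hMne fun t ht => ht.1.1.2
  have hmcl : m ∈ closure M := csSup_mem_closure hMne hMb
  have hmK : m ∈ K0 := by
    have : closure M ⊆ K0 := closure_minimal (fun t ht => ht.1) hK0c
    exact this hmcl
  have hmM : k m = k 0 := by
    obtain ⟨δ, hδ, h2⟩ := hloc m hmK
    obtain ⟨t, ht, htd⟩ := Metric.mem_closure_iff.1 hmcl δ hδ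
    rw [← ht.2]
    refine (h2 t ht.1 ?_).symm
    rw [Real.dist_eq] at htd
    rw [abs_sub_comm]
    exact htd
  have hmeq : m = 1 := by
    by_contra hne
    have hlt : m < 1 := lt_of_le_of_ne hm1 hne
    set S : Set ℝ := K0 ∩ Ioc m 1 with hS
    have hSne : S.Nonempty := ⟨1, h1K, hlt, le_refl _⟩
    have hSb : BddBelow S := ⟨m, fun t ht => ht.2.1.le⟩
    set m' := sInf S with hm'
    have hmm' : m ≤ m' := le_csInf hSne fun t ht => ht.2.1.le
    have hm'cl : m' ∈ closure S := csInf_mem_closure hSne hSb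
    have hm'K : m' ∈ K0 := by
      have : closure S ⊆ K0 := closure_minimal (fun t ht => ht.1) hK0c
      exact this hm'cl
    have hne' : m < m' := by
      rcases hmm'.lt_or_eq with h | h
      · exact h
      · exfalso
        obtain ⟨δ, hδ, h2⟩ := hloc m hmK
        rw [← h] at hm'cl
        obtain ⟨t, ht, htd⟩ := Metric.mem_closure_iff.1 hm'cl δ hδ
        have h3 : k t = k m := h2 t ht.1 (by
          rw [Real.dist_eq] at htd
          rw [abs_sub_comm]
          exact htd)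
        have h4 : t ≤ m := le_csSup hMb ⟨ht.1, by rw [h3, hmM]⟩
        exact absurd ht.2.1 (not_lt.2 h4)
    have hgap' := hgap m m' hm0 hne' hm'K.1.2 hmK.2 hm'K.2 (by
      intro r hr hrT
      have : r ∈ S := ⟨⟨⟨hm0.trans hr.1.le, hr.2.le.trans hm'K.1.2⟩, hrT⟩, hr.1,
        hr.2.le.trans hm'K.1.2⟩
      exact absurd hr.2 (not_lt.2 (csInf_le hSb this)))
    have h5 : k m' = k m := by
      rw [hk]
      simp only
      linear_combination hgap'
    have h6 : m' ≤ m := le_csSup hMb ⟨hm'K, by rw [h5, hmM]⟩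
    exact absurd hne' (not_lt.2 h6)
  rw [hmeq] at hmM
  rw [hk] at hmM
  simp only at hmM
  linear_combination hmM

end BBP
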