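import Pool.Agent.BBP.StmtsB

/-!
# BBP, block B, module UNI: the universe
-/

set_option autoImplicit false

namespace BBP

open Set Topology
open Pool.Agent.LIX (CLog)

theorem t_UNI : M_UNI := by
  intro hCMP hPNT hSML hDEG hCTH hCTR Y _ hAx ⟨L, K, f, hL, hK, hLK, hf, hf0, hext⟩
  have := hAx.lc
  obtain ⟨Q, hQK, hQ⟩ := hCMP Y hAx L K f hL hK hLK hf hf0 hext
  obtain ⟨x, hx⟩ := hQ.conn.nonempty
  obtain ⟨G0, -, hG0o, hxG0, H0, hH0c, hH00, hH01, -⟩ := hAx.loc x univ isOpen_univ (mem_univ x)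
  obtain ⟨K1, hK1c, hxK1, hK1s⟩ := exists_compact_subset (hG0o.inter hQ.opn) ⟨hxG0, hx⟩
  have hNK1 : closure (interior K1) ⊆ K1 := closure_minimal interior_subset hK1c.isClosed
  have hNc : IsCompact (closure (interior K1)) := hK1c.of_isClosed_subset isClosed_closure hNK1
  have hNG : closure (interior K1) ⊆ G0 := fun y hy => (hK1s (hNK1 hy)).1
  obtain ⟨W1, hW1N, hW1o, hxW1, H1, hH1c, hH10, hH11, hH1N⟩ :=
    hAx.loc x (interior K1) isOpen_interior hxK1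
  obtain ⟨F, hF⟩ := hPNT Y hAx L Q f x hQ hx
  obtain ⟨J0, hJ0, hJ0W, -, -, -⟩ := hSML Y hAx L Q f F x hQ hx hF W1 hW1o hxW1
  obtain ⟨⟨f0, hgen⟩, hD, -⟩ := hDEG Y J0 hJ0
  obtain ⟨hf0c, hf0n, -, -⟩ := hD f0 hgen
  have hcon : Contr (closure (interior K1)) J0 :=
    hCTH Y _ J0 W1 H1 x hH1c hH10 hH11 hJ0W
      fun y hy t ht => subset_closure (hH1N y (hJ0W hy) t ht)
  have hJ0N : J0 ⊆ closure (interior K1) := (hJ0W.trans hW1N).trans subset_closure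
  have hJ0c : IsCompact J0 := by
    obtain ⟨γ, hγ, rfl⟩ := hJ0
    exact hγ.2.1.compact_of_continuous one_ne_zero hγ.1
  have hne : ¬ ExtC J0 (closure (interior K1)) f0 := by
    rintro ⟨F1, h1, h2, h3⟩
    exact hCTR Y _ J0 f0 1 hgen hcon one_ne_zero ⟨F1, h1, h2, fun y hy => by
      rw [zpow_one]
      exact h3 hy⟩
  obtain ⟨U, hUN, hU⟩ := hCMP Y hAx J0 _ f0 hJ0c hNc hJ0N hf0c hf0n hne
  have hsub : closure (interior K1) ⊆ H0 '' (closure (interior K1) ×ˢ Icc 0 1) := fun y hy =>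
    ⟨(y, 0), ⟨hy, by simp⟩, hH00 y (hNG hy)⟩
  refine ⟨U, J0, H0 '' (closure (interior K1) ×ˢ Icc 0 1), f0, hAx, hJ0, hgen, hU, ?_, ?_, ?_⟩
  · exact (hNc.prod isCompact_Icc).image_of_continuousOn
      (hH0c.mono (prod_mono hNG Subset.rfl))
  · exact union_subset (hUN.trans hsub) (hJ0N.trans hsub)
  · intro C _ hCU
    exact hCTH Y _ C G0 H0 x hH0c hH00 hH01 ((hCU.trans hUN).trans hNG)
      fun y hy t ht => ⟨(y, t), ⟨hUN (hCU hy), ht⟩, rfl⟩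

end BBP
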