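import Pool.Agent.BBP.StmtsC

/-!
# BBP, ACP: all points of a simple closed curve are accessible from the inside
-/

set_option autoImplicit false

namespace BBP

open Set Topology Metric
open Pool.Agent.LIX (CLog)

namespace ACP

/-- infinitely many paths with shrinking distance to `x` form an access path -/
theorem build {Y : Type} [MetricSpace Y] (S : Set Y) (x : Y) (y : ℕ → Y)
    (h : ∀ n : ℕ, JoinedIn (ball x (1 / ((n : ℝ) + 1)) ∩ S) (y n) (y (n + 1))) : Accs S x := by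
  classical
  -- the path on `[0, ∞)`
  obtain ⟨p, hp⟩ : ∃ p : ∀ n : ℕ, Path (y n) (y (n + 1)),
      ∀ (n : ℕ) (t : unitInterval), p n t ∈ ball x (1 / ((n : ℝ) + 1)) ∩ S :=
    ⟨fun n => (h n).somePath, fun n t => (h n).somePath_mem t⟩
  have hpe : ∀ (n : ℕ) (t : ℝ), (p n).extend t ∈ ball x (1 / ((n : ℝ) + 1)) ∩ S :=
    fun n t => hp n _
  obtain ⟨γ, hγ⟩ : ∃ γ : ℝ → Y, ∀ s : ℝ, γ s = (p ⌊s⌋₊).extend (s - ⌊s⌋₊) := ⟨_, fun _ => rfl⟩
  have hγn : ∀ (n : ℕ) (s : ℝ), s ∈ Icc (n : ℝ) ((n : ℝ) + 1) → γ s = (p n).extend (s - n) := by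
    intro n s hs
    rcases lt_or_eq_of_le hs.2 with h1 | h1
    · have h2 : ⌊s⌋₊ = n := (Nat.floor_eq_iff (le_trans (Nat.cast_nonneg n) hs.1)).2 ⟨hs.1, h1⟩
      rw [hγ, h2]
    · have h2 : ⌊s⌋₊ = n + 1 := by
        rw [h1]
        exact_mod_cast Nat.floor_natCast (R := ℝ) (n + 1)
      rw [hγ, h2, h1]
      have h3 : (n : ℝ) + 1 - ((n + 1 : ℕ) : ℝ) = 0 := by
        push_cast
        ring
      have h4 : (n : ℝ) + 1 - n = 1 := by ring
      rw [h3, h4, Path.extend_zero, Path.extend_one]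
  have hcont : ∀ N : ℕ, ContinuousOn γ (Icc 0 (N : ℝ)) := by
    intro N
    induction N with
    | zero =>
      rw [Nat.cast_zero, Icc_self]
      exact continuousOn_singleton _ _
    | succ N ih =>
      have h1 : Icc (0 : ℝ) ((N + 1 : ℕ) : ℝ) = Icc 0 (N : ℝ) ∪ Icc (N : ℝ) ((N : ℝ) + 1) := by
        rw [Icc_union_Icc_eq_Icc (Nat.cast_nonneg N) (by linarith)]
        push_cast
        rfl
      rw [h1]
      refine ContinuousOn.union_of_isClosed ih ?_ isClosed_Icc isClosed_Icc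
      have h2 : ContinuousOn (fun s : ℝ => (p N).extend (s - N)) (Icc (N : ℝ) ((N : ℝ) + 1)) :=
        ((p N).continuous_extend.comp (continuous_id.sub continuous_const)).continuousOn
      exact h2.congr fun s hs => hγn N s hs
  have hball : ∀ (n : ℕ) (s : ℝ), (n : ℝ) ≤ s → γ s ∈ ball x (1 / ((n : ℝ) + 1)) := by
    intro n s hs
    rw [hγ]
    have h1 : n ≤ ⌊s⌋₊ := Nat.le_floor hs
    have h2 : (n : ℝ) ≤ (⌊s⌋₊ : ℝ) := by exact_mod_cast h1
    refine ball_subset_ball ?_ (hpe ⌊s⌋₊ _).1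
    exact one_div_le_one_div_of_le (by positivity) (by linarith)
  have hS : ∀ s : ℝ, γ s ∈ S := by
    intro s
    rw [hγ]
    exact (hpe _ _).2
  -- reparametrisation
  refine ⟨fun t => if t < 1 then γ (t / (1 - t)) else x, ?_, ?_, ?_⟩
  · intro t ht
    rcases lt_or_eq_of_le ht.2 with h1 | h1
    · obtain ⟨N, hN⟩ := exists_nat_gt (t / (1 - t))
      have hφ : ContinuousAt (fun u : ℝ => u / (1 - u)) t :=
        continuousAt_id.div (continuousAt_const.sub continuousAt_id) (by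
          show (1 : ℝ) - t ≠ 0
          linarith)
      have hA1 : ∀ᶠ u : ℝ in 𝓝 t, u < 1 := Iio_mem_nhds h1
      have hA2 : ∀ᶠ u : ℝ in 𝓝 t, u / (1 - u) < N := hφ.eventually (Iio_mem_nhds hN)
      have hA : {u : ℝ | u < 1 ∧ u / (1 - u) < N} ∩ Icc 0 1 ∈ 𝓝[Icc 0 1] t := by
        refine Filter.inter_mem ?_ self_mem_nhdsWithin
        exact mem_nhdsWithin_of_mem_nhds (hA1.and hA2)
      refine ContinuousWithinAt.mono_of_mem_nhdsWithin ?_ hA
      have hm : MapsTo (fun u : ℝ => u / (1 - u)) ({u : ℝ | u < 1 ∧ u / (1 - u) < N} ∩ Icc 0 1)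
          (Icc 0 (N : ℝ)) := by
        rintro u ⟨⟨hu1, hu2⟩, hu3⟩
        exact ⟨div_nonneg hu3.1 (by linarith), hu2.le⟩
      have h2 : ContinuousWithinAt (fun u : ℝ => γ (u / (1 - u)))
          ({u : ℝ | u < 1 ∧ u / (1 - u) < N} ∩ Icc 0 1) t := by
        refine ContinuousWithinAt.comp (t := Icc 0 (N : ℝ)) (g := γ)
          (f := fun u : ℝ => u / (1 - u)) ?_ hφ.continuousWithinAt hm
        exact hcont N _ ⟨div_nonneg ht.1 (by linarith), hN.le⟩
      refine h2.congr ?_ (if_pos h1)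
      rintro u ⟨⟨hu1, -⟩, -⟩
      exact if_pos hu1
    · subst h1
      rw [Metric.continuousWithinAt_iff]
      intro ε hε
      obtain ⟨n, hn⟩ := exists_nat_one_div_lt hε
      refine ⟨1 / ((n : ℝ) + 1), by positivity, ?_⟩
      intro u hu hd
      show dist (if u < 1 then γ (u / (1 - u)) else x) (if (1 : ℝ) < 1 then _ else x) < ε
      rw [if_neg (lt_irrefl _)]
      by_cases h2 : u < 1
      · rw [if_pos h2]
        have h3 : 1 - u < 1 / ((n : ℝ) + 1) := by
          rw [Real.dist_eq, abs_sub_comm, abs_of_nonneg (by linarith)] at hd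
          exact hd
        have h4 : (n : ℝ) ≤ u / (1 - u) := by
          rw [le_div_iff₀ (by linarith)]
          rw [lt_div_iff₀ (by positivity)] at h3
          nlinarith
        exact lt_trans (hball n _ h4) hn
      · rw [if_neg h2, dist_self]
        exact hε
  · exact if_neg (lt_irrefl _)
  · intro t ht
    show (if t < 1 then γ (t / (1 - t)) else x) ∈ S
    rw [if_pos ht.2]
    exact hS _

end ACP

open ACP in
theorem t_ACP : M_ACP := by
  intro hULC Y _ U V hP C hC hCV x hx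
  have h1 : ∀ n : ℕ, ∃ W : Set Y, IsOpen W ∧ x ∈ W ∧ ∀ y ∈ W ∩ ins C, ∀ z ∈ W ∩ ins C,
      JoinedIn (ball x (1 / ((n : ℝ) + 1)) ∩ ins C) y z := by
    intro n
    obtain ⟨W, -, h2, h3, h4⟩ := hULC Y U V hP C hC hCV x hx (ball x (1 / ((n : ℝ) + 1)))
      isOpen_ball (mem_ball_self (by positivity))
    exact ⟨W, h2, h3, h4⟩
  choose W hW1 hW2 hW3 using h1
  have hcl : x ∈ closure (ins C) := by
    rw [hP.clos C hC (hCV.trans hP.sub)]
    exact Or.inl hx
  have h2 : ∀ n : ℕ, ∃ y : Y, y ∈ W n ∩ W (n - 1) ∧ y ∈ ins C := by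
    intro n
    obtain ⟨y, hy1, hy2⟩ := mem_closure_iff.1 hcl (W n ∩ W (n - 1)) ((hW1 n).inter (hW1 _))
      ⟨hW2 n, hW2 _⟩
    exact ⟨y, hy1, hy2⟩
  choose y hy1 hy2 using h2
  exact build (ins C) x y fun n => hW3 n (y n) ⟨(hy1 n).1, hy2 n⟩ (y (n + 1))
    ⟨(hy1 (n + 1)).2, hy2 (n + 1)⟩

end BBP
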