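import Pool.Agent.BBP.StmtsC

/-!
# BBP: the system of cells
-/

set_option autoImplicit false

namespace BBP

open Set Topology Metric
open Pool.Agent.LIX (CLog)

namespace CEL

theorem sub {Y : Type} [MetricSpace Y] {U V : Set Y} (h : Pln U V) {C : Set Y} (hC : Scc C)
    (hCV : C ⊆ V) : C ∪ ins C ⊆ V :=
  union_subset hCV (h.insV C hC hCV)

theorem divs {Y : Type} [MetricSpace Y] {U V : Set Y} (h : Pln U V) (ε : ℝ) (N : Y → Set Y)
    (hN : ∀ x ∈ V, ∀ C : Set Y, Scc C → C ⊆ V →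
      Div (fun C' => Scc C' ∧ C' ∪ ins C' ⊆ C ∪ ins C ∧
        (C' ∪ ins C' ⊆ ball x ε ∨ Disjoint (C' ∪ ins C') (N x))) C)
    (C : Set Y) (hC : Scc C) (hCV : C ⊆ V) (t : Finset Y) :
    (∀ x ∈ t, x ∈ V) →
    Div (fun C' => Scc C' ∧ C' ∪ ins C' ⊆ C ∪ ins C ∧
      ∀ x ∈ t, (C' ∪ ins C' ⊆ ball x ε ∨ Disjoint (C' ∪ ins C') (N x))) C := by
  classical
  induction t using Finset.induction_on with
  | empty =>
    intro _
    exact Div.leaf C ⟨hC, subset_rfl, fun x hx => absurd hx (Finset.notMem_empty x)⟩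
  | insert x t _ ih =>
    intro ht
    refine (ih fun y hy => ht y (Finset.mem_insert_of_mem hy)).bind ?_
    rintro C' ⟨h1, h2, h3⟩
    have h4 : C' ⊆ V := (subset_union_left.trans h2).trans (sub h hC hCV)
    refine (hN x (ht x (Finset.mem_insert_self x t)) C' h1 h4).imp ?_
    rintro C2 ⟨k1, k2, k3⟩
    refine ⟨k1, k2.trans h2, fun y hy => ?_⟩
    rw [Finset.mem_insert] at hy
    rcases hy with rfl | hy
    · exact k3
    · rcases h3 y hy with h5 | h5
      · exact Or.inl (k2.trans h5)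
      · exact Or.inr (h5.mono_left k2)

theorem nonempty {Y : Type} [MetricSpace Y] {C : Set Y} (hC : Scc C) : C.Nonempty := by
  obtain ⟨γ, -, rfl⟩ := hC
  exact range_nonempty γ

end CEL

/-- The simple closed curves in `V` form a system of cells. -/
theorem t_CEL : M_CEL := by
  intro hXCT hTHE hLMS Y _ U V hP
  refine ⟨?_, ?_, ?_, ?_, ?_, ?_⟩
  · rintro C ⟨h1, -⟩
    exact h1
  · rintro C ⟨h1, h2⟩
    exact hP.cpt C h1 (h2.trans hP.sub)
  · rintro C ⟨h1, h2⟩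
    exact hP.disj C h1 (h2.trans hP.sub)
  · rintro C ⟨h1, h2⟩ a ha b hb hab
    exact hXCT Y U V hP C h1 h2 a ha b hb hab
  · rintro C ⟨h1, h2⟩ A1 A2 P a b hA1 hA2 hu hi hPa hPi
    obtain ⟨t1, t2, t3, -, -, -, -, -, t9, t10, -⟩ :=
      hTHE Y U V hP C A1 A2 P a b h1 (h2.trans hP.sub) hA1 hA2 hu hi hPa hPi
    have hPV : P ⊆ V := t3.trans (CEL.sub hP h1 h2)
    have hA1V : A1 ⊆ V := by
      refine subset_trans ?_ h2
      rw [← hu]
      exact subset_union_left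
    have hA2V : A2 ⊆ V := by
      refine subset_trans ?_ h2
      rw [← hu]
      exact subset_union_right
    exact ⟨⟨t1, union_subset hA1V hPV⟩, ⟨t2, union_subset hA2V hPV⟩, t9, t10⟩
  · rintro C ⟨h1, h2⟩ ε hε
    have hL : ∀ x : Y, x ∈ V → ∃ N : Set Y, IsOpen N ∧ x ∈ N ∧ ∀ C : Set Y, Scc C → C ⊆ V →
        Div (fun C' => Scc C' ∧ C' ∪ ins C' ⊆ C ∪ ins C ∧
          (C' ∪ ins C' ⊆ ball x (ε / 2) ∨ Disjoint (C' ∪ ins C') N)) C :=
      fun x hx => hLMS Y U V hP x hx (ε / 2) (by linarith)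
    choose! N hN1 hN2 hN3 using hL
    have hK : IsCompact (C ∪ ins C) := hP.cpt C h1 (h2.trans hP.sub)
    have hKV : C ∪ ins C ⊆ V := CEL.sub hP h1 h2
    obtain ⟨t, ht1, ht2⟩ := hK.elim_nhds_subcover N
      (fun x hx => (hN1 x (hKV hx)).mem_nhds (hN2 x (hKV hx)))
    refine (CEL.divs hP (ε / 2) N hN3 C h1 h2 t (fun x hx => hKV (ht1 x hx))).imp ?_
    rintro C' ⟨k1, k2, k3⟩
    refine ⟨⟨k1, (subset_union_left.trans k2).trans hKV⟩, ?_⟩
    obtain ⟨w, hw⟩ := CEL.nonempty k1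
    have hw2 := ht2 (k2 (Or.inl hw))
    rw [mem_iUnion₂] at hw2
    obtain ⟨x, hx, hwx⟩ := hw2
    rcases k3 x hx with h5 | h5
    · intro u hu v hv
      have a1 := mem_ball.1 (h5 hu)
      have a2 := mem_ball.1 (h5 hv)
      have a3 := dist_triangle_right u v x
      linarith
    · exact absurd hwx (Set.disjoint_left.1 h5 (Or.inl hw))

end BBP
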