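import Pool.Agent.BBP.StmtsC

/-!
# DVA: division along finitely many cross-cuts
-/

set_option autoImplicit false

namespace BBP

open Set Topology Metric

namespace DVA

/-- one of the two halves -/
lemma half {Y : Type} [MetricSpace Y] {U V : Set Y} (hP : Pln U V) {ι : Type}
    (s s1 : Finset ι) (P : ι → Set Y) (a b : ι → Y) (C C1 : Set Y) (I2 : Set Y) (i : ι)
    (hC1 : Scc C1) (hC1U : C1 ⊆ U)
    (hCC : Disjoint (ins C) C) (h1 : ins C1 ⊆ ins C) (h2 : C1 ∪ ins C1 ⊆ C ∪ ins C)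
    (h3 : Disjoint (ins C1) (P i)) (h4 : Disjoint (ins C1) I2)
    (hab : ∀ j ∈ s, a j ∈ C ∧ b j ∈ C)
    (hs : ∀ j ∈ s, j = i ∨ j ∈ s1 ∨ P j \ {a j, b j} ⊆ I2)
    (hD : Div (fun C' => Scc C' ∧ C' ∪ ins C' ⊆ C1 ∪ ins C1 ∧
      ∀ j ∈ s1, Disjoint (ins C') (P j)) C1) :
    Div (fun C' => Scc C' ∧ C' ∪ ins C' ⊆ C ∪ ins C ∧ ∀ j ∈ s, Disjoint (ins C') (P j)) C1 := by
  refine hD.imp ?_
  rintro C' ⟨hC', hsub, hdis⟩
  have hins : ins C' ⊆ ins C1 :=
    hP.nst C' C1 hC' hC1 hC1U (subset_union_left.trans hsub)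
  refine ⟨hC', hsub.trans h2, ?_⟩
  intro j hj
  rcases hs j hj with rfl | hj1 | hj2
  · exact h3.mono_left hins
  · exact hdis j hj1
  · rw [Set.disjoint_left]
    intro y hy hyP
    have hyC : y ∉ C := fun h => Set.disjoint_left.1 hCC (h1 (hins hy)) h
    by_cases hyab : y ∈ ({a j, b j} : Set Y)
    · rcases hyab with h | h
      · exact hyC (h ▸ (hab j hj).1)
      · rw [mem_singleton_iff] at h
        exact hyC (h ▸ (hab j hj).2)
    · exact Set.disjoint_left.1 h4 (hins hy) (hj2 ⟨hyP, hyab⟩)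

end DVA

open DVA in
theorem t_DVA : M_DVA := by
  classical
  intro hARB hSCB hTHE Y _ U V hP ι s
  induction s using Finset.strongInduction with
  | H s ih =>
    intro P a b C hC hCV hs hdis
    rcases s.eq_empty_or_nonempty with rfl | ⟨i, hi⟩
    · exact Div.leaf C ⟨hC, subset_rfl, fun i hi => absurd hi (Finset.notMem_empty i)⟩
    obtain ⟨hPi, hai, hbi, hPins⟩ := hs i hi
    have hab := (hARB Y (P i) (a i) (b i) hPi).1
    have hCU : C ⊆ U := hCV.trans hP.sub
    obtain ⟨A1, A2, hA1, hA2, hA12, hA12'⟩ := (hSCB Y C hC).2.2.2.2.1 (a i) hai (b i) hbi hab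
    obtain ⟨hS1, hS2, hPC, hi1, hi2, hd1, hd2, hd12, hun, -, hcov⟩ :=
      hTHE Y U V hP C A1 A2 (P i) (a i) (b i) hC hCU hA1 hA2 hA12 hA12' hPi hPins
    have hCC := hP.disj C hC hCU
    have hclV : C ∪ ins C ⊆ V := union_subset hCV (hP.insV C hC hCV)
    have hA1C : A1 ⊆ C := by
      rw [← hA12]
      exact subset_union_left
    have hA2C : A2 ⊆ C := by
      rw [← hA12]
      exact subset_union_right
    have hC1V : A1 ∪ P i ⊆ V := union_subset (hA1C.trans hCV) (hPC.trans hclV)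
    have hC2V : A2 ∪ P i ⊆ V := union_subset (hA2C.trans hCV) (hPC.trans hclV)
    have hC1U := hC1V.trans hP.sub
    have hC2U := hC2V.trans hP.sub
    have hdich : ∀ j ∈ s, j ≠ i → P j \ {a j, b j} ⊆ ins (A1 ∪ P i) ∨
        P j \ {a j, b j} ⊆ ins (A2 ∪ P i) := by
      intro j hj hji
      have hconn := (hARB Y (P j) (a j) (b j) (hs j hj).1).2.2.2.2.2.2.2.2.1
      refine hconn.isPreconnected.subset_or_subset (hP.opn _ hS1 hC1U) (hP.opn _ hS2 hC2U)
        hd12 ?_
      intro y hy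
      rcases hcov ((hs j hj).2.2.2 hy) with h | h
      · exact h
      · exact absurd h (Set.disjoint_left.1 (hdis j hj i hi hji) hy)
    have hends : ∀ (j : ι) (C1 : Set Y), j ∈ s → Scc C1 → C1 ⊆ U → ins C1 ⊆ ins C →
        P j \ {a j, b j} ⊆ ins C1 → a j ∈ C1 ∧ b j ∈ C1 := by
      intro j C1 hj hS hU' hsub hPj
      obtain ⟨-, hajP, hbjP, -, -, -, -, -, -, hcl, -⟩ := hARB Y (P j) (a j) (b j) (hs j hj).1
      have h1 : P j ⊆ C1 ∪ ins C1 := by
        rw [← hP.clos C1 hS hU']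
        exact hcl.trans (closure_mono hPj)
      constructor
      · rcases h1 hajP with h | h
        · exact h
        · exact absurd (hs j hj).2.1 (Set.disjoint_left.1 hCC (hsub h))
      · rcases h1 hbjP with h | h
        · exact h
        · exact absurd (hs j hj).2.2.1 (Set.disjoint_left.1 hCC (hsub h))
    have habs : ∀ j ∈ s, a j ∈ C ∧ b j ∈ C := fun j hj => ⟨(hs j hj).2.1, (hs j hj).2.2.1⟩
    have hsub1 : (A1 ∪ P i) ∪ ins (A1 ∪ P i) ⊆ C ∪ ins C := by
      rw [← hun]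
      exact subset_union_left
    have hsub2 : (A2 ∪ P i) ∪ ins (A2 ∪ P i) ⊆ C ∪ ins C := by
      rw [← hun]
      exact subset_union_right
    refine Div.node C A1 A2 (P i) (a i) (b i) hA1 hA2 hA12 hA12' hPi hPins ?_ ?_
    · have hss : (s.filter fun j => j ≠ i ∧ P j \ {a j, b j} ⊆ ins (A1 ∪ P i)) ⊂ s := by
        refine Finset.filter_ssubset.2 ⟨i, hi, fun h => h.1 rfl⟩
      refine half hP s (s.filter fun j => j ≠ i ∧ P j \ {a j, b j} ⊆ ins (A1 ∪ P i)) P a b C
        (A1 ∪ P i) (ins (A2 ∪ P i)) i hS1 hC1U hCC hi1 hsub1 hd1 hd12 habs ?_ ?_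
      · intro j hj
        by_cases hji : j = i
        · exact Or.inl hji
        · rcases hdich j hj hji with h | h
          · exact Or.inr (Or.inl (Finset.mem_filter.2 ⟨hj, hji, h⟩))
          · exact Or.inr (Or.inr h)
      · refine ih _ hss P a b (A1 ∪ P i) hS1 hC1V ?_ ?_
        · intro j hj
          obtain ⟨hj1, -, hj3⟩ := Finset.mem_filter.1 hj
          obtain ⟨h1, h2⟩ := hends j _ hj1 hS1 hC1U hi1 hj3
          exact ⟨(hs j hj1).1, h1, h2, hj3⟩
        · intro j hj k hk hjk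
          exact hdis j (Finset.mem_filter.1 hj).1 k (Finset.mem_filter.1 hk).1 hjk
    · have hss : (s.filter fun j => j ≠ i ∧ P j \ {a j, b j} ⊆ ins (A2 ∪ P i)) ⊂ s := by
        refine Finset.filter_ssubset.2 ⟨i, hi, fun h => h.1 rfl⟩
      refine half hP s (s.filter fun j => j ≠ i ∧ P j \ {a j, b j} ⊆ ins (A2 ∪ P i)) P a b C
        (A2 ∪ P i) (ins (A1 ∪ P i)) i hS2 hC2U hCC hi2 hsub2 hd2 hd12.symm habs ?_ ?_
      · intro j hj
        by_cases hji : j = i
        · exact Or.inl hji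
        · rcases hdich j hj hji with h | h
          · exact Or.inr (Or.inr h)
          · exact Or.inr (Or.inl (Finset.mem_filter.2 ⟨hj, hji, h⟩))
      · refine ih _ hss P a b (A2 ∪ P i) hS2 hC2V ?_ ?_
        · intro j hj
          obtain ⟨hj1, -, hj3⟩ := Finset.mem_filter.1 hj
          obtain ⟨h1, h2⟩ := hends j _ hj1 hS2 hC2U hi2 hj3
          exact ⟨(hs j hj1).1, h1, h2, hj3⟩
        · intro j hj k hk hjk
          exact hdis j (Finset.mem_filter.1 hj).1 k (Finset.mem_filter.1 hk).1 hjk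

end BBP
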