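import Pool.Agent.BBP.StmtsC

/-!
# BBP, LMA: the core of the subdivision lemma
-/

set_option autoImplicit false

namespace BBP

open Set Topology Metric
open Pool.Agent.LIX (CLog)

namespace LMA

/-- the long complementary intervals -/
def LL {Y : Type} [TopologicalSpace Y] (C : Set Y) (β : ℝ → Y) (δ : ℝ) : Set (ℝ × ℝ) :=
  {p | 0 ≤ p.1 ∧ p.2 ≤ 1 ∧ δ ≤ p.2 - p.1 ∧ β p.1 ∈ C ∧ β p.2 ∈ C ∧ ∀ r ∈ Ioo p.1 p.2, β r ∉ C}

theorem isCompact_LL {Y : Type} [TopologicalSpace Y] {C : Set Y} {β : ℝ → Y} {δ : ℝ}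
    (hC : IsClosed C) (hβ : Continuous β) (hδ : 0 < δ) : IsCompact (LL C β δ) := by
  have hcl : IsClosed (LL C β δ) := by
    have e : LL C β δ = {p : ℝ × ℝ | 0 ≤ p.1} ∩ {p | p.2 ≤ 1} ∩ {p | δ ≤ p.2 - p.1} ∩
        {p | β p.1 ∈ C} ∩ {p | β p.2 ∈ C} ∩ (⋃ r ∈ {r : ℝ | β r ∈ C},
          {p : ℝ × ℝ | p.1 < r ∧ r < p.2})ᶜ := by
      ext p
      simp only [LL, mem_ofPred_eq, mem_inter_iff, mem_compl_iff, mem_iUnion, exists_prop,
        not_exists, not_and, mem_Ioo]
      constructor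
      · rintro ⟨h1, h2, h3, h4, h5, h6⟩
        exact ⟨⟨⟨⟨⟨h1, h2⟩, h3⟩, h4⟩, h5⟩, fun r hr h7 h8 => h6 r ⟨h7, h8⟩ hr⟩
      · rintro ⟨⟨⟨⟨⟨h1, h2⟩, h3⟩, h4⟩, h5⟩, h6⟩
        exact ⟨h1, h2, h3, h4, h5, fun r hr hc => h6 r hc hr.1 hr.2⟩
    rw [e]
    refine ((((((isClosed_le continuous_const continuous_fst).inter
      (isClosed_le continuous_snd continuous_const)).inter
      (isClosed_le continuous_const (continuous_snd.sub continuous_fst))).inter
      (hC.preimage (hβ.comp continuous_fst))).inter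
      (hC.preimage (hβ.comp continuous_snd))).inter ?_)
    rw [isClosed_compl_iff]
    refine isOpen_biUnion fun r _ => ?_
    exact (isOpen_lt continuous_fst continuous_const).inter
      (isOpen_lt continuous_const continuous_snd)
  refine (isCompact_Icc.prod isCompact_Icc : IsCompact (Icc (0 : ℝ) 1 ×ˢ Icc (0 : ℝ) 1)).of_isClosed_subset hcl ?_
  rintro p ⟨h1, h2, h3, -, -, -⟩
  exact ⟨⟨h1, by linarith⟩, ⟨by linarith, h2⟩⟩

/-- the points in the long intervals -/
def KK {Y : Type} [TopologicalSpace Y] (C : Set Y) (β : ℝ → Y) (δ : ℝ) : Set ℝ :=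
  {r | ∃ p ∈ LL C β δ, p.1 ≤ r ∧ r ≤ p.2}

theorem isCompact_KK {Y : Type} [TopologicalSpace Y] {C : Set Y} {β : ℝ → Y} {δ : ℝ}
    (hC : IsClosed C) (hβ : Continuous β) (hδ : 0 < δ) : IsCompact (KK C β δ) := by
  have e : KK C β δ = (fun q : (ℝ × ℝ) × ℝ => q.1.1 + q.2 * (q.1.2 - q.1.1)) ''
      (LL C β δ ×ˢ Icc 0 1) := by
    ext r
    constructor
    · rintro ⟨p, hp, h1, h2⟩
      have h3 : 0 < p.2 - p.1 := hδ.trans_le hp.2.2.1
      refine ⟨(p, (r - p.1) / (p.2 - p.1)), ⟨hp, ?_, ?_⟩, ?_⟩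
      · exact div_nonneg (by linarith) h3.le
      · rw [div_le_one h3]
        linarith
      · change p.1 + (r - p.1) / (p.2 - p.1) * (p.2 - p.1) = r
        rw [div_mul_cancel₀ _ h3.ne']
        ring
    · rintro ⟨⟨p, u⟩, ⟨hp, hu0, hu1⟩, rfl⟩
      have h3 : 0 < p.2 - p.1 := hδ.trans_le hp.2.2.1
      change 0 ≤ u at hu0
      change u ≤ 1 at hu1
      refine ⟨p, hp, ?_, ?_⟩
      · change p.1 ≤ p.1 + u * (p.2 - p.1)
        nlinarith
      · change p.1 + u * (p.2 - p.1) ≤ p.2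
        nlinarith
  rw [e]
  refine ((isCompact_LL hC hβ hδ).prod isCompact_Icc).image ?_
  exact (continuous_fst.comp continuous_fst).add
    (continuous_snd.mul ((continuous_snd.comp continuous_fst).sub
      (continuous_fst.comp continuous_fst)))

end LMA

theorem t_LMA : M_LMA := by
  intro hARB hSCA hGLU hDEG hTRI hINC Y _ U V hP C Jm D β η δ hC hCV hβ hβJ hJV hβ0 _ hδ hδ1 hD
    hβδ hCarc y z A hA hAC hyD hzD hyJ hzJ hzJm hlong
  have hJ : Scc Jm := ⟨β, hβ, hβJ⟩
  have hJU : Jm ⊆ U := hJV.trans hP.sub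
  have hCU : C ⊆ U := hCV.trans hP.sub
  have hyJm : y ∉ Jm := fun h => Set.disjoint_left.mp (hP.disj Jm hJ hJU) hyJ h
  have hyz : y ≠ z := by
    rintro rfl
    exact hzJ hyJ
  have hAV : A ⊆ V := hAC.trans (hP.insV C hC hCV)
  have hyA : y ∈ A := (hARB Y A y z hA).2.1
  have hzA : z ∈ A := (hARB Y A y z hA).2.2.1
  have hACd : Disjoint A C := Set.disjoint_left.mpr fun u hu hu' =>
    Set.disjoint_left.mp (hP.disj C hC hCU) (hAC hu) hu'
  obtain ⟨f, hfc, hf0, hfA, hfC⟩ := hP.dip y (hAV hyA) z (hAV hzA) hyz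
  obtain ⟨l, hlc, hl⟩ := hfA A hA hAV
  have hCcl : IsClosed C := by
    obtain ⟨γ, hγ, hγC⟩ := hC
    have h1 := ((hSCA Y γ hγ).1 0).2
    rw [hγC] at h1
    rw [← h1]
    exact (isCompact_Icc.image hγ.1).isClosed
  have hηpos : 0 < η := by
    have := hβδ 0 0 (by rw [sub_self, abs_zero]; exact hδ)
    rw [dist_self] at this
    linarith
  have hβ1 : β 1 = β 0 := by
    have := hβ.2.1 0
    rwa [zero_add] at this
  have hinj : ∀ s t : ℝ, 0 ≤ s → s < 1 → 0 ≤ t → t < 1 → β s = β t → s = t := by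
    intro s t h1 h2 h3 h4 h5
    exact hβ.2.2 ⟨h1, h2⟩ ⟨h3, h4⟩ h5
  have hβJm : ∀ t, β t ∈ Jm := fun t => by
    rw [← hβJ]
    exact mem_range_self t
  have hJyz : Jm ⊆ V \ {y, z} := by
    intro u hu
    refine ⟨hJV hu, ?_⟩
    rintro (rfl | rfl)
    · exact hyJm hu
    · exact hzJm hu
  -- the logarithm along the curve
  obtain ⟨θ, hθc, hθ⟩ : ∃ θ : ℝ → ℂ, ContinuousOn θ (Icc 0 1) ∧
      ∀ t ∈ Icc (0 : ℝ) 1, Complex.exp (θ t) = f (β t) := by
    have h1 : ContinuousOn (fun t => f (β t)) (Icc (0 : ℝ) 1) :=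
      (hfc.mono hJyz).comp hβ.1.continuousOn fun t _ => hβJm t
    exact Pool.Agent.LIX.cLog_convex isCompact_Icc (convex_Icc (0 : ℝ) 1) h1
      fun t _ => hf0 _ (hJyz (hβJm t))
  set T : Set Y := C ∪ β '' LMA.KK C β δ with hT
  have hTcl : IsClosed T :=
    hCcl.union ((LMA.isCompact_KK hCcl hβ.1 hδ).image hβ.1).isClosed
  have hTA : T ⊆ V \ A := by
    rintro u (hu | ⟨r, ⟨p, hp, h1, h2⟩, rfl⟩)
    · exact ⟨hCV hu, fun h => Set.disjoint_left.mp hACd h hu⟩
    · refine ⟨hJV (hβJm r), fun h => ?_⟩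
      have h3 := hlong p.1 p.2 hp.1 (by linarith [hp.2.2.1]) hp.2.1 hp.2.2.1 hp.2.2.2.1
        hp.2.2.2.2.1 hp.2.2.2.2.2
      exact Set.disjoint_left.mp h3 h ⟨r, ⟨h1, h2⟩, rfl⟩
  have hkey : θ 1 - θ 0 = l (β 1) - l (β 0) := by
    refine hTRI Y T β l θ hTcl hβ.1.continuousOn (hlc.mono hTA) hθc ?_ (Or.inl hβ0)
      (Or.inl (by rw [hβ1]; exact hβ0)) ?_
    · intro t ht htT
      rw [hθ t ht, hl _ (hTA htT)]
    · intro s t hs hst ht hsT htT hr
      have hs1 : s < 1 := hst.trans_le ht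
      have ht0 : 0 < t := hs.trans_lt hst
      have hsC : β s ∈ C := by
        rcases hsT with h | ⟨r', ⟨p, hp, h1, h2⟩, h3⟩
        · exact h
        by_contra hns
        have e1 : p.1 ≠ r' := by
          rintro rfl
          rw [← h3] at hns
          exact hns hp.2.2.2.1
        have e2 : r' ≠ p.2 := by
          intro h
          rw [h] at h3
          rw [← h3] at hns
          exact hns hp.2.2.2.2.1
        have f1 : p.1 < r' := lt_of_le_of_ne h1 e1
        have f2 : r' < p.2 := lt_of_le_of_ne h2 e2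
        have g1 := hp.1
        have g2 := hp.2.1
        have hsr : r' = s := hinj r' s (by linarith) (by linarith) hs hs1 h3
        subst hsr
        obtain ⟨r, hr1, hr2⟩ := exists_between (lt_min hst f2)
        rw [lt_min_iff] at hr2
        exact hr r ⟨hr1, hr2.1⟩ (Or.inr ⟨r, ⟨p, hp, by linarith, hr2.2.le⟩, rfl⟩)
      have htC : β t ∈ C := by
        rcases htT with h | ⟨r', ⟨p, hp, h1, h2⟩, h3⟩
        · exact h
        by_contra hns
        have e1 : p.1 ≠ r' := by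
          rintro rfl
          rw [← h3] at hns
          exact hns hp.2.2.2.1
        have e2 : r' ≠ p.2 := by
          intro h
          rw [h] at h3
          rw [← h3] at hns
          exact hns hp.2.2.2.2.1
        have f1 : p.1 < r' := lt_of_le_of_ne h1 e1
        have f2 : r' < p.2 := lt_of_le_of_ne h2 e2
        have g1 := hp.1
        have g2 := hp.2.1
        have ht1 : t < 1 := by
          refine lt_of_le_of_ne ht fun h => hns ?_
          rw [h, hβ1]
          exact hβ0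
        have hsr : r' = t := hinj r' t (by linarith) (by linarith) ht0.le ht1 h3
        subst hsr
        obtain ⟨r, hr1, hr2⟩ := exists_between (max_lt hst f1)
        rw [max_lt_iff] at hr1
        exact hr r ⟨hr1.1, hr2⟩ (Or.inr ⟨r, ⟨p, hp, hr1.2.le, by linarith⟩, rfl⟩)
      have hδst : t - s < δ := by
        by_contra h
        push Not at h
        have hp : (s, t) ∈ LMA.LL C β δ :=
          ⟨hs, ht, h, hsC, htC, fun r hr' hc => hr r hr' (Or.inl hc)⟩
        obtain ⟨r, hr1, hr2⟩ := exists_between hst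
        exact hr r ⟨hr1, hr2⟩ (Or.inr ⟨r, ⟨(s, t), hp, hr1.le, hr2.le⟩, rfl⟩)
      have hne : β s ≠ β t := by
        intro h
        rcases lt_or_eq_of_le ht with h1 | h1
        · exact hst.ne (hinj s t hs hs1 ht0.le h1 h)
        · rw [h1, hβ1] at h
          have := hinj s 0 hs hs1 le_rfl zero_lt_one h
          linarith
      have habs : |s - t| < δ := by
        rw [abs_sub_comm, abs_of_pos (by linarith)]
        exact hδst
      obtain ⟨B, hBC, hB, hBd⟩ := hCarc s t habs hsC htC hne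
      obtain ⟨-, hsB, htB, -, -, hBconn, -⟩ := hARB Y B _ _ hB
      have hE : Arc (β '' Icc s t) (β s) (β t) := ((hSCA Y β hβ).2 s t hst (by linarith)).1
      have hEB : β '' Icc s t ∩ B = {β s, β t} := by
        ext u
        constructor
        · rintro ⟨⟨r, hr', rfl⟩, hu⟩
          by_cases h1 : r = s
          · exact Or.inl (by rw [h1])
          by_cases h2 : r = t
          · exact Or.inr (by rw [h2]; rfl)
          exact absurd (Or.inl (hBC hu)) (hr r ⟨lt_of_le_of_ne hr'.1 (Ne.symm h1),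
            lt_of_le_of_ne hr'.2 h2⟩)
        · rintro (rfl | rfl)
          · exact ⟨⟨s, ⟨le_rfl, hst.le⟩, rfl⟩, hsB⟩
          · exact ⟨⟨t, ⟨hst.le, le_rfl⟩, rfl⟩, htB⟩
      have hSg : Scc (β '' Icc s t ∪ B) := (hGLU.1 Y _ B _ _ hE hB hEB).1
      have hSgV : β '' Icc s t ∪ B ⊆ V := by
        rintro u (⟨r, -, rfl⟩ | hu)
        · exact hJV (hβJm r)
        · exact hCV (hBC hu)
      have hEd : ∀ u ∈ β '' Icc s t, ∀ v ∈ β '' Icc s t, dist u v < η / 4 := by
        rintro _ ⟨r, hr1, rfl⟩ _ ⟨r', hr2, rfl⟩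
        refine hβδ r r' ?_
        rw [abs_lt]
        constructor <;> linarith [hr1.1, hr1.2, hr2.1, hr2.2]
      have hsE : β s ∈ β '' Icc s t := ⟨s, ⟨le_rfl, hst.le⟩, rfl⟩
      have hSgd : ∀ u ∈ β '' Icc s t ∪ B, ∀ v ∈ β '' Icc s t ∪ B, dist u v < η := by
        have hm : ∀ u ∈ β '' Icc s t ∪ B, dist u (β s) < η / 4 := by
          rintro u (hu | hu)
          · exact hEd u hu _ hsE
          · exact hBd u hu _ hsB
        intro u hu v hv
        have h1 := hm u hu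
        have h2 := hm v hv
        have h3 := dist_triangle u (β s) v
        rw [dist_comm (β s) v] at h3
        linarith
      have hSgD := hD _ hSg hSgV ⟨β s, Or.inl hsE, hβJm s⟩ hSgd
      have hSgyz : β '' Icc s t ∪ B ⊆ V \ {y, z} := by
        intro u hu
        refine ⟨hSgV hu, ?_⟩
        rintro (rfl | rfl)
        · exact hyD (hSgD (Or.inl hu))
        · exact hzD (hSgD (Or.inl hu))
      have hlog : CLog (β '' Icc s t ∪ B) f := by
        rw [hfC _ hSg hSgyz]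
        exact iff_of_false (fun h => hyD (hSgD (Or.inr h))) (fun h => hzD (hSgD (Or.inr h)))
      have hBA : B ⊆ V \ A := fun u hu => hTA (Or.inl (hBC hu))
      refine hINC Y (β '' Icc s t ∪ B) B f l β θ s t hst.le hβ.1.continuousOn
        (hθc.mono (Icc_subset_Icc hs ht)) (fun r hr' => hθ r ⟨hs.trans hr'.1, hr'.2.trans ht⟩)
        (hlc.mono hBA) (fun u hu => hl u (hBA hu)) hBconn.isPreconnected hsB htB hlog
        subset_union_left subset_union_right
  rw [hβ1, sub_self, sub_eq_zero] at hkey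
  have hlogJ : CLog Jm f := ((hDEG Y Jm hJ).2.2 β f hβ hβJ (hfc.mono hJyz)
    (fun u hu => hf0 u (hJyz hu)) θ hθc hθ).mpr hkey
  exact hzJ (((hfC Jm hJ hJyz).mp hlogJ).mp hyJ)

end BBP
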