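import Pool.Agent.BBP.StmtsC

/-!
# BBP, LMB: cells with a point of the boundary in `N`
-/

set_option autoImplicit false

namespace BBP

open Set Topology Metric
open Pool.Agent.LIX (CLog)

namespace LMB

variable {Y : Type} [MetricSpace Y]

/-- Uniform continuity of the parametrisation. -/
theorem unif {β : ℝ → Y} (hβ : Scp β) {ε : ℝ} (hε : 0 < ε) :
    ∃ δ : ℝ, 0 < δ ∧ δ ≤ 1 ∧ ∀ s t : ℝ, |s - t| < δ → dist (β s) (β t) < ε := by
  have huc : UniformContinuousOn β (Icc (-1) 2) :=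
    isCompact_Icc.uniformContinuousOn_of_continuous hβ.1.continuousOn
  obtain ⟨δ, hδ, h⟩ := Metric.uniformContinuousOn_iff.1 huc ε hε
  refine ⟨min δ 1, lt_min hδ one_pos, min_le_right _ _, fun s t hst => ?_⟩
  have h1 : |s - t| < δ := lt_of_lt_of_le hst (min_le_left _ _)
  have h2 : |s - t| < 1 := lt_of_lt_of_le hst (min_le_right _ _)
  have e : ∀ r : ℝ, β (r - (⌊s⌋ : ℝ)) = β r := by
    intro r
    have := hβ.2.1.sub_int_mul_eq (x := r) ⌊s⌋
    rwa [mul_one] at this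
  have hs1 := Int.floor_le s
  have hs2 := Int.lt_floor_add_one s
  have h3 := abs_lt.1 h2
  have h4 := h (s - ⌊s⌋) ⟨by linarith, by linarith⟩ (t - ⌊s⌋)
    ⟨by linarith [h3.1, h3.2], by linarith [h3.1, h3.2]⟩
    (by rw [Real.dist_eq, sub_sub_sub_cancel_right]; exact h1)
  rwa [e, e] at h4

/-- A connected set disjoint from `C` which meets the inside of `C` is contained in it. -/
theorem sub_ins {U V C D : Set Y} (hP : Pln U V) (hC : Scc C) (hCU : C ⊆ U)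
    (hD : IsPreconnected D) (hDC : Disjoint D C) (hm : (D ∩ ins C).Nonempty) : D ⊆ ins C := by
  have hcl : IsClosed (C ∪ ins C) := by
    rw [← hP.clos C hC hCU]
    exact isClosed_closure
  refine hD.subset_left_of_subset_union (hP.opn C hC hCU) hcl.isOpen_compl ?_ ?_ hm
  · exact disjoint_left.2 fun x hx hx' => hx' (Or.inr hx)
  · intro x hx
    by_cases h : x ∈ ins C
    · exact Or.inl h
    · refine Or.inr fun h' => ?_
      rcases h' with h' | h'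
      · exact disjoint_left.1 hDC hx h'
      · exact h h'

/-- The pairs of the long intervals. -/
def II (β : ℝ → Y) (C : Set Y) (δ : ℝ) : Set (ℝ × ℝ) :=
  {i | 0 ≤ i.1 ∧ i.1 < i.2 ∧ i.2 ≤ 1 ∧ δ ≤ i.2 - i.1 ∧ β i.1 ∈ C ∧ β i.2 ∈ C ∧
    (∀ r ∈ Ioo i.1 i.2, β r ∉ C) ∧ ∀ r ∈ Ioo i.1 i.2, β r ∈ ins C}

/-- Overlapping intervals are equal. -/
theorem II_eq {β : ℝ → Y} {C : Set Y} {δ : ℝ} {i j : ℝ × ℝ} (hi : i ∈ II β C δ)
    (hj : j ∈ II β C δ) {r : ℝ} (hr : r ∈ Ioo i.1 i.2) (hr' : r ∈ Ioo j.1 j.2) : i = j := by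
  obtain ⟨-, -, -, -, hi1, hi2, hi3, -⟩ := hi
  obtain ⟨-, -, -, -, hj1, hj2, hj3, -⟩ := hj
  have h1 : i.1 = j.1 := by
    rcases lt_trichotomy i.1 j.1 with h | h | h
    · exact absurd hj1 (hi3 _ ⟨h, hr'.1.trans hr.2⟩)
    · exact h
    · exact absurd hi1 (hj3 _ ⟨h, hr.1.trans hr'.2⟩)
  have h2 : i.2 = j.2 := by
    rcases lt_trichotomy i.2 j.2 with h | h | h
    · exact absurd hi2 (hj3 _ ⟨hr'.1.trans hr.2, h⟩)
    · exact h
    · exact absurd hj2 (hi3 _ ⟨hr.1.trans hr'.2, h⟩)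
  exact Prod.ext h1 h2

theorem II_finite {β : ℝ → Y} {C : Set Y} {δ : ℝ} (hδ : 0 < δ) : (II β C δ).Finite := by
  refine Set.Finite.of_finite_image (f := fun i : ℝ × ℝ => ⌊i.1 / δ⌋₊) ?_ ?_
  · refine (Set.finite_Iic ⌊1 / δ⌋₊).subset ?_
    rintro _ ⟨i, hi, rfl⟩
    exact Nat.floor_mono ((div_le_div_iff_of_pos_right hδ).2 (hi.2.1.le.trans hi.2.2.1))
  · intro i hi j hj hij
    have key : ∀ i j : ℝ × ℝ, i ∈ II β C δ → j ∈ II β C δ → ⌊i.1 / δ⌋₊ = ⌊j.1 / δ⌋₊ →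
        i.1 ≤ j.1 → j.1 < i.2 := by
      intro i j hi hj hij hle
      by_contra hcon
      rw [not_lt] at hcon
      have h1 : i.1 / δ + 1 ≤ j.1 / δ := by
        rw [div_add_one hδ.ne']
        exact (div_le_div_iff_of_pos_right hδ).2 (by linarith [hi.2.2.2.1])
      have h2 := Nat.floor_mono h1
      rw [Nat.floor_add_one (div_nonneg hi.1 hδ.le)] at h2
      omega
    rcases le_total i.1 j.1 with h | h
    · have h1 := key i j hi hj hij h
      have h2 : max i.1 j.1 < min i.2 j.2 := by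
        rw [max_eq_right h]
        exact lt_min h1 hj.2.1
      obtain ⟨r, hr1, hr2⟩ := exists_between h2
      exact II_eq hi hj ⟨(le_max_left _ _).trans_lt hr1, hr2.trans_le (min_le_left _ _)⟩
        ⟨(le_max_right _ _).trans_lt hr1, hr2.trans_le (min_le_right _ _)⟩
    · have h1 := key j i hj hi hij.symm h
      have h2 : max i.1 j.1 < min i.2 j.2 := by
        rw [max_eq_left h]
        exact lt_min hi.2.1 h1
      obtain ⟨r, hr1, hr2⟩ := exists_between h2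
      exact II_eq hi hj ⟨(le_max_left _ _).trans_lt hr1, hr2.trans_le (min_le_left _ _)⟩
        ⟨(le_max_right _ _).trans_lt hr1, hr2.trans_le (min_le_right _ _)⟩

end LMB

open LMB in
theorem t_LMB : M_LMB := by
  intro hPTA hARB hSCA hSCB hDVA hLMA Y _ U V hP Jm N x ε ρ η hJ hJV hJb hρ hη hρb hNo hNJ hNρ
    hsm C hC hCV hCN
  have hCU : C ⊆ U := hCV.trans hP.sub
  have hJU : Jm ⊆ U := hJV.trans hP.sub
  by_cases hcase : C ∪ ins C ⊆ ball x ε
  · exact Div.leaf C ⟨hC, subset_rfl, Or.inl hcase⟩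
  obtain ⟨-, hCc, hCd, -, -, hC6, -⟩ := hSCB Y C hC
  -- two points of `C` on `Jm`
  have hout : ∃ q ∈ C, q ∉ Jm ∪ ins Jm := by
    by_contra hcon
    push Not at hcon
    have h1 := hP.nst C Jm hC hJ hJU hcon
    refine hcase fun u hu => hJb ?_
    rcases hu with hu | hu
    · exact hcon u hu
    · exact Or.inr (h1 hu)
  obtain ⟨q, hqC, hq⟩ := hout
  obtain ⟨p, hpC, hpN⟩ := hCN
  have hpJ : p ∈ ins Jm := hNJ hpN
  have hpnJ : p ∉ Jm := fun h => disjoint_left.1 (hP.disj Jm hJ hJU) hpJ h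
  have hnd : ∀ D : Set Y, IsPreconnected D → p ∈ D → q ∈ D → ∃ c ∈ D, c ∈ Jm := by
    intro D hD hpD hqD
    by_contra hcon
    push Not at hcon
    have h1 := sub_ins hP hJ hJU hD (disjoint_left.2 hcon) ⟨p, hpD, hpJ⟩
    exact hq (Or.inr (h1 hqD))
  obtain ⟨c0, hc0C, hc0J⟩ := hnd C hCc.isPreconnected hpC hqC
  have hpc0 : p ≠ c0 := fun h => hpnJ (h ▸ hc0J)
  have hqc0 : q ≠ c0 := fun h => hq (Or.inl (h ▸ hc0J))
  obtain ⟨c1, ⟨hc1C, hc10⟩, hc1J⟩ := hnd (C \ {c0}) (hCd c0 hc0C).isPreconnected ⟨hpC, hpc0⟩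
    ⟨hqC, hqc0⟩
  -- the parametrisation
  obtain ⟨γ, hγ, hγr⟩ := hJ
  obtain ⟨t0, ht0⟩ : ∃ t0, γ t0 = c0 := by
    rw [← hγr] at hc0J
    exact hc0J
  obtain ⟨β, hβ, hβr, hβ0⟩ : ∃ β : ℝ → Y, Scp β ∧ range β = Jm ∧ β 0 = c0 := by
    refine ⟨fun t => γ (t + t0), ⟨hγ.1.comp (continuous_id.add continuous_const), ?_, ?_⟩, ?_,
      by show γ (0 + t0) = c0; rw [zero_add, ht0]⟩
    · intro t
      show γ (t + 1 + t0) = γ (t + t0)
      rw [add_right_comm]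
      exact hγ.2.1 _
    · intro s hs t ht hst
      have h0 := ((hSCA Y γ hγ).1 t0).1
      have h1 := h0 (show s + t0 ∈ Ico t0 (t0 + 1) from ⟨by linarith [hs.1], by linarith [hs.2]⟩)
        (show t + t0 ∈ Ico t0 (t0 + 1) from ⟨by linarith [ht.1], by linarith [ht.2]⟩) hst
      linarith
    · rw [← hγr]
      ext y
      constructor
      · rintro ⟨t, rfl⟩
        exact ⟨t + t0, rfl⟩
      · rintro ⟨t, rfl⟩
        exact ⟨t - t0, by show γ (t - t0 + t0) = γ t; rw [sub_add_cancel]⟩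
  have hJ : Scc Jm := ⟨γ, hγ, hγr⟩
  have hβ1 : β 1 = c0 := by
    have := hβ.2.1 0
    rw [zero_add] at this
    rw [this, hβ0]
  -- smallness
  obtain ⟨η1, hη1, hη1'⟩ := hC6 (η / 4) (by positivity)
  obtain ⟨δ, hδ, hδ1, hδu⟩ := unif hβ (lt_min hη1 (show (0 : ℝ) < η / 4 by positivity))
  -- no interval is everything
  have hlt : ∀ i ∈ II β C δ, i.2 < i.1 + 1 := by
    intro i hi
    obtain ⟨h1, h2, h3, -, -, -, h7, -⟩ := hi
    by_contra hcon
    rw [not_lt] at hcon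
    have e1 : i.1 = 0 := by linarith
    have e2 : i.2 = 1 := by linarith
    obtain ⟨r, hr, hrr⟩ : ∃ r ∈ Ico (0 : ℝ) (0 + 1), β r = c1 := by
      have h4 := ((hSCA Y β hβ).1 0).2
      have h5 : c1 ∈ β '' Icc 0 (0 + 1) := by
        rw [h4, hβr]
        exact hc1J
      obtain ⟨r, hr, hrr⟩ := h5
      rcases lt_or_eq_of_le hr.2 with h | h
      · exact ⟨r, ⟨hr.1, h⟩, hrr⟩
      · refine absurd ?_ hc10
        rw [mem_singleton_iff, ← hrr, h, zero_add, hβ1]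
    have hr0 : r ≠ 0 := by
      rintro rfl
      exact hc10 (by rw [mem_singleton_iff, ← hrr, hβ0])
    refine h7 r ⟨?_, ?_⟩ (by rw [hrr]; exact hc1C)
    · rw [e1]
      exact lt_of_le_of_ne hr.1 (Ne.symm hr0)
    · rw [e2]
      linarith [hr.2]
  have hdiff : ∀ i : ℝ × ℝ, β '' Icc i.1 i.2 \ {β i.1, β i.2} ⊆ β '' Ioo i.1 i.2 := by
    rintro i _ ⟨⟨r, hr, rfl⟩, hne⟩
    refine ⟨r, ⟨lt_of_le_of_ne hr.1 ?_, lt_of_le_of_ne hr.2 ?_⟩, rfl⟩
    · rintro rfl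
      exact hne (Or.inl rfl)
    · intro h
      exact hne (Or.inr (by rw [h]; rfl))
  have hfin : (II β C δ).Finite := II_finite hδ
  have hdv := hDVA Y U V hP (ℝ × ℝ) hfin.toFinset (fun i => β '' Icc i.1 i.2)
    (fun i => β i.1) (fun i => β i.2) C hC hCV ?_ ?_
  rotate_left
  · intro i hi
    have hi' : i ∈ II β C δ := hfin.mem_toFinset.1 hi
    refine ⟨((hSCA Y β hβ).2 i.1 i.2 hi'.2.1 (hlt i hi')).1, hi'.2.2.2.2.1, hi'.2.2.2.2.2.1, ?_⟩
    intro u hu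
    obtain ⟨r, hr, rfl⟩ := hdiff i hu
    exact hi'.2.2.2.2.2.2.2 r hr
  · intro i hi j hj hij
    have hi' : i ∈ II β C δ := hfin.mem_toFinset.1 hi
    have hj' : j ∈ II β C δ := hfin.mem_toFinset.1 hj
    rw [disjoint_left]
    intro u hu hu'
    obtain ⟨r, hr, rfl⟩ := hdiff i hu
    obtain ⟨r', hr', hrr⟩ := hu'
    have hrC := hi'.2.2.2.2.2.2.1 r hr
    have hr1 : r' ≠ 1 := by
      rintro rfl
      rw [hβ1] at hrr
      exact hrC (hrr ▸ hc0C)
    have h5 : r' = r := by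
      have hr'1 : r' < 1 := lt_of_le_of_ne (hr'.2.trans hj'.2.2.1) hr1
      exact hβ.2.2 ⟨hj'.1.trans hr'.1, hr'1⟩
        ⟨hi'.1.trans hr.1.le, hr.2.trans_le hi'.2.2.1⟩ hrr
    rw [h5] at hr'
    have h6 : r ≠ j.1 := by
      rintro h
      exact hrC (by rw [h]; exact hj'.2.2.2.2.1)
    have h7 : r ≠ j.2 := by
      rintro h
      exact hrC (by rw [h]; exact hj'.2.2.2.2.2.1)
    exact hij (II_eq hi' hj' hr ⟨lt_of_le_of_ne hr'.1 (Ne.symm h6), lt_of_le_of_ne hr'.2 h7⟩)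
  refine hdv.imp fun C' hC' => ⟨hC'.1, hC'.2.1, ?_⟩
  obtain ⟨hC'1, hC'2, hC'3⟩ := hC'
  by_contra hcon
  rw [not_or] at hcon
  obtain ⟨hcon1, hcon2⟩ := hcon
  have hVV : C ∪ ins C ⊆ V := union_subset hCV (hP.insV C hC hCV)
  have hC'V : C' ⊆ V := (subset_union_left.trans hC'2).trans hVV
  have hC'U : C' ⊆ U := hC'V.trans hP.sub
  have hcl := hP.clos C' hC'1 hC'U
  have hins : ins C' ⊆ ins C := hP.nst C' C hC'1 hC hCU (subset_union_left.trans hC'2)
  -- the point `y`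
  obtain ⟨y, hyN, hyC'⟩ : (N ∩ ins C').Nonempty := by
    rw [not_disjoint_iff] at hcon2
    obtain ⟨y0, h1, h2⟩ := hcon2
    rw [← hcl] at h1
    exact mem_closure_iff.1 h1 N hNo h2
  -- the point `z`
  have hJcl : IsClosed (Jm ∪ ins Jm) := by
    rw [← hP.clos Jm hJ hJU]
    exact isClosed_closure
  have hKcl : IsClosed ((Jm ∪ ins Jm) ∪ {u | infDist u Jm ≤ ρ}) :=
    hJcl.union (isClosed_le (continuous_infDist_pt Jm) continuous_const)
  obtain ⟨z, hzK, hzC'⟩ : ((((Jm ∪ ins Jm) ∪ {u | infDist u Jm ≤ ρ})ᶜ) ∩ ins C').Nonempty := by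
    rw [Set.not_subset] at hcon1
    obtain ⟨z0, h1, h2⟩ := hcon1
    rw [← hcl] at h1
    refine mem_closure_iff.1 h1 _ hKcl.isOpen_compl ?_
    intro h3
    rcases h3 with h3 | h3
    · exact h2 (hJb h3)
    · exact h2 (hρb h3)
  have hyJ : y ∈ ins Jm := hNJ hyN
  have hznJ : z ∉ ins Jm := fun h => hzK (Or.inl (Or.inr h))
  have hyz : y ≠ z := fun h => hznJ (h ▸ hyJ)
  haveI := hP.lpc
  have hpath : IsPathConnected (ins C') :=
    ((hP.opn C' hC'1 hC'U).isConnected_iff_isPathConnected).1 (hP.conn C' hC'1 hC'U)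
  obtain ⟨A, hAC', hA⟩ := hPTA.2 Y (ins C') y z (hpath.joinedIn y hyC' z hzC') hyz
  refine hLMA Y U V hP C Jm {u | infDist u Jm < ρ} β η δ hC hCV hβ hβr hJV (hβ0 ▸ hc0C)
    ⟨c1, hc1J, hc1C, by rw [hβ0]; exact hc10⟩ hδ hδ1 hsm
    (fun s t hst => lt_of_lt_of_le (hδu s t hst) (min_le_right _ _))
    (fun s t hst hs ht hne => hη1' (β s) hs (β t) ht hne
      (lt_of_lt_of_le (hδu s t hst) (min_le_left _ _)))
    y z A hA (hAC'.trans hins) ?_ ?_ hyJ hznJ (fun h => hzK (Or.inl (Or.inl h))) ?_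
  · intro h
    exact absurd (hNρ y hyN) (not_le.2 h)
  · intro h
    exact hzK (Or.inr (show infDist z Jm ≤ ρ from le_of_lt h))
  · intro s t hs hst ht hδst hsC htC hr
    have hpre : IsPreconnected (β '' Ioo s t) :=
      (isPreconnected_Ioo).image β hβ.1.continuousOn
    have hdis : Disjoint (β '' Ioo s t) C := by
      rw [disjoint_left]
      rintro _ ⟨r, hr', rfl⟩
      exact hr r hr'
    by_cases hm : (β '' Ioo s t ∩ ins C).Nonempty
    · have h1 := sub_ins hP hC hCU hpre hdis hm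
      have hi : (s, t) ∈ II β C δ :=
        ⟨hs, hst, ht, hδst, hsC, htC, hr, fun r hr' => h1 ⟨r, hr', rfl⟩⟩
      exact (hC'3 (s, t) (hfin.mem_toFinset.2 hi)).mono_left hAC'
    · rw [disjoint_left]
      rintro _ hA' ⟨r, hr', rfl⟩
      have hrC : β r ∈ ins C := hins (hAC' hA')
      have hrnC : β r ∉ C := fun h => disjoint_left.1 (hP.disj C hC hCU) hrC h
      refine hm ⟨β r, ⟨r, ⟨lt_of_le_of_ne hr'.1 ?_, lt_of_le_of_ne hr'.2 ?_⟩, rfl⟩, hrC⟩
      · rintro rfl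
        exact hrnC hsC
      · rintro rfl
        exact hrnC htC

end BBP
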