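import Pool.Agent.BBP.StmtsC

/-!
# BBP, block C, module LMS: subdivision at one point
-/

set_option autoImplicit false

namespace BBP

open Set Topology Metric
open Pool.Agent.LIX (CLog)

theorem t_LMS : M_LMS := by
  intro hSCB hTHE hLMX hLMB Y _ U V hP x hx ε hε
  obtain ⟨Jm, hJ, hJV, hxJ, hJb⟩ := hP.sml x hx (ball x ε) isOpen_ball (mem_ball_self hε)
  have hJU : Jm ⊆ U := hJV.trans hP.sub
  obtain ⟨hJc, hJconn, -⟩ := hSCB Y Jm hJ
  have hJne : Jm.Nonempty := hJconn.nonempty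
  have hxnJ : x ∉ Jm := fun h => (hP.disj Jm hJ hJU).le_bot ⟨hxJ, h⟩
  have hpos : 0 < infDist x Jm := (hJc.isClosed.notMem_iff_infDist_pos hJne).1 hxnJ
  obtain ⟨δ, hδ, hδs⟩ := hJc.exists_thickening_subset_open isOpen_ball
    (subset_union_left.trans hJb)
  obtain ⟨ρ, hρ, hρδ, hρx⟩ : ∃ ρ : ℝ, 0 < ρ ∧ ρ < δ ∧ 2 * ρ < infDist x Jm := by
    refine ⟨min (δ / 2) (infDist x Jm / 3), lt_min (by linarith) (by linarith), ?_, ?_⟩
    · exact (min_le_left _ _).trans_lt (by linarith)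
    · have := min_le_right (δ / 2) (infDist x Jm / 3)
      linarith
  have hρs : {u | infDist u Jm ≤ ρ} ⊆ ball x ε := by
    intro u hu
    apply hδs
    rw [mem_thickening_iff_infDist_lt hJne]
    exact lt_of_le_of_lt hu hρδ
  have hopJ := hP.opn Jm hJ hJU
  have hNo : IsOpen (ins Jm ∩ ball x ρ) := hopJ.inter isOpen_ball
  -- the Lebesgue number
  have hloc : ∀ p : Jm, ∃ W1 ⊆ ball (p : Y) ρ, IsOpen W1 ∧ (p : Y) ∈ W1 ∧
      ∀ C : Set Y, Scc C → C ⊆ W1 → C ∪ ins C ⊆ ball (p : Y) ρ ∩ V := fun p =>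
    hP.loc p (hJV p.2) (ball p ρ) isOpen_ball (mem_ball_self hρ)
  choose W1 hW1s hW1o hW1m hW1 using hloc
  obtain ⟨η, hη, hηW⟩ := lebesgue_number_lemma_of_metric hJc hW1o
    (fun p hp => mem_iUnion.2 ⟨⟨p, hp⟩, hW1m ⟨p, hp⟩⟩)
  have hmain := hLMB Y U V hP Jm (ins Jm ∩ ball x ρ) x ε ρ η hJ hJV hJb hρ hη hρs hNo
    inter_subset_left
    (by
      intro u hu
      have h1 : infDist x Jm ≤ infDist u Jm + dist x u := infDist_le_infDist_add_dist
      have h2 : dist u x < ρ := hu.2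
      rw [dist_comm] at h2
      linarith)
    (by
      intro Sg hSg _ hmeet hd
      obtain ⟨q, hqS, hqJ⟩ := hmeet
      obtain ⟨p, hp⟩ := hηW q hqJ
      have h1 : Sg ⊆ W1 p := fun u hu => hp (hd u hu q hqS)
      intro u hu
      have h2 : dist u (p : Y) < ρ := (hW1 p Sg hSg h1 hu).1
      exact (infDist_le_dist_of_mem p.2).trans_lt h2)
  refine ⟨ins Jm ∩ ball x ρ, hNo, ⟨hxJ, mem_ball_self hρ⟩, fun C hC hCV => ?_⟩
  have hCU : C ⊆ U := hCV.trans hP.sub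
  by_cases hdis : Disjoint (C ∪ ins C) (ins Jm ∩ ball x ρ)
  · exact Div.leaf C ⟨hC, Subset.rfl, Or.inr hdis⟩
  · have hne : ((ins Jm ∩ ball x ρ) ∩ ins C).Nonempty := by
      rw [not_disjoint_iff] at hdis
      obtain ⟨u, hu1, hu2⟩ := hdis
      rw [← hP.clos C hC hCU] at hu1
      exact mem_closure_iff.1 hu1 _ hNo hu2
    obtain ⟨a, ha, b, hb, P, hPa, hPs, hPN⟩ := hLMX Y U V hP C _ hC hCV hNo hne
    have hab : a ≠ b := by
      obtain ⟨α, -, hinj, h0, h1, -⟩ := hPa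
      intro h
      have h2 : (0 : ℝ) = 1 := hinj (by simp) (by simp) (by rw [h0, h1, h])
      exact zero_ne_one h2
    obtain ⟨-, -, -, -, h5, -, -⟩ := hSCB Y C hC
    obtain ⟨A1, A2, hA1, hA2, hA12, hAi⟩ := h5 a ha b hb hab
    obtain ⟨s1, s2, hPC, -, -, -, -, -, hun, -, -⟩ :=
      hTHE Y U V hP C A1 A2 P a b hC hCU hA1 hA2 hA12 hAi hPa hPs
    have hPV : P ⊆ V := hPC.trans (union_subset hCV (hP.insV C hC hCV))
    have hA1V : A1 ∪ P ⊆ V := union_subset ((hA12 ▸ subset_union_left).trans hCV) hPV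
    have hA2V : A2 ∪ P ⊆ V := union_subset ((hA12 ▸ subset_union_right).trans hCV) hPV
    have hs1 : (A1 ∪ P) ∪ ins (A1 ∪ P) ⊆ C ∪ ins C := hun ▸ subset_union_left
    have hs2 : (A2 ∪ P) ∪ ins (A2 ∪ P) ⊆ C ∪ ins C := hun ▸ subset_union_right
    refine Div.node C A1 A2 P a b hA1 hA2 hA12 hAi hPa hPs ?_ ?_
    · exact (hmain (A1 ∪ P) s1 hA1V
        (hPN.mono (inter_subset_inter_left _ subset_union_right))).imp
        fun C' h => ⟨h.1, h.2.1.trans hs1, h.2.2⟩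
    · exact (hmain (A2 ∪ P) s2 hA2V
        (hPN.mono (inter_subset_inter_left _ subset_union_right))).imp
        fun C' h => ⟨h.1, h.2.1.trans hs2, h.2.2⟩

end BBP
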