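import Pool.Agent.BBP.StmtsC

/-!
# BBP, block C, module LMX: cross-cuts through a given open set
-/

set_option autoImplicit false

namespace BBP

open Set Topology Metric
open Pool.Agent.LIX (CLog)

theorem t_LMX : M_LMX := by
  intro hPTA hARB hSCB hACP Y _ U V hP C O hC hCV hO hOn
  have hlp := hP.lpc
  have hCU : C ⊆ U := hCV.trans hP.sub
  have hIo := hP.opn C hC hCU
  have hIc := hP.conn C hC hCU
  have hId := hP.disj C hC hCU
  have hIV := hP.insV C hC hCV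
  have hIcl := hP.clos C hC hCU
  have hIp := hIo.isConnected_iff_isPathConnected.1 hIc
  have hnot : ∀ z ∈ ins C, z ∉ C := fun z hz => disjoint_left.1 hId hz
  obtain ⟨hCc, -⟩ := hSCB Y C hC
  obtain ⟨a, ha, b, hb, hab⟩ : ∃ a ∈ C, ∃ b ∈ C, a ≠ b := by
    obtain ⟨γ, hγ, hγC⟩ := hC
    refine ⟨γ 0, hγC ▸ mem_range_self _, γ (1 / 2), hγC ▸ mem_range_self _, fun h => ?_⟩
    have := hγ.2.2 (by norm_num) (by norm_num) h
    norm_num at this
  obtain ⟨w, hwO, hwI⟩ := hOn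
  -- the neighbourhood of `w`
  have hO'o : IsOpen (pathComponentIn (O ∩ ins C) w) := (hO.inter hIo).pathComponentIn w
  have hO's : pathComponentIn (O ∩ ins C) w ⊆ O ∩ ins C := pathComponentIn_subset
  have hO'p : IsPathConnected (pathComponentIn (O ∩ ins C) w) :=
    isPathConnected_pathComponentIn ⟨hwO, hwI⟩
  have hwO' : w ∈ pathComponentIn (O ∩ ins C) w := mem_pathComponentIn_self ⟨hwO, hwI⟩
  generalize pathComponentIn (O ∩ ins C) w = O' at hO'o hO's hO'p hwO'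
  obtain ⟨ε, hε, hεO⟩ := Metric.nhds_basis_closedBall.mem_iff.1 (hO'o.mem_nhds hwO')
  have hεO' : closedBall w ε ⊆ O' := hεO
  have haI : a ∉ ins C := fun h => hnot a h ha
  have hbI : b ∉ ins C := fun h => hnot b h hb
  have haN : a ∉ closedBall w ε := fun h => haI (hO's (hεO' h)).2
  -- the arc `R`
  obtain ⟨α, hα, hα1, hαI⟩ := hACP Y U V hP C hC hCV a ha
  have j1 : JoinedIn (ins C ∪ {a}) a w := by
    have h1 : JoinedIn (ins C ∪ {a}) (α 0) a := by
      refine JoinedIn.ofLine hα rfl hα1 ?_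
      rintro z ⟨t, ht, rfl⟩
      rcases ht.2.lt_or_eq with h | h
      · exact Or.inl (hαI t ⟨ht.1, h⟩)
      · rw [h, hα1]
        exact Or.inr rfl
    exact h1.symm.trans ((hIp.joinedIn (α 0) (hαI 0 (by simp)) w hwI).mono subset_union_left)
  have haw : a ≠ w := fun h => haI (h ▸ hwI)
  obtain ⟨R, hRs, hR⟩ := hPTA.2 Y (ins C ∪ {a}) a w j1 haw
  obtain ⟨-, -, -, -, -, -, -, -, -, -, -, hit, -⟩ := hARB Y R a w hR
  obtain ⟨w', hw'N, R', hR'R, hR', hR'N⟩ := hit _ isClosed_closedBall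
    (mem_closedBall_self hε.le) haN
  obtain ⟨haw', haR', hw'R', -, hR'c, hR'con, -, -, -, hR'cl, -, -, α', hα'c, hα'1, hα'0,
    hα'i⟩ := hARB Y R' a w' hR'
  have hR's : R' ⊆ ins C ∪ {a} := hR'R.trans hRs
  have hwR' : w ∉ R' := by
    intro h
    have h1 : w ∈ R' ∩ closedBall w ε := ⟨h, mem_closedBall_self hε.le⟩
    rw [hR'N, mem_singleton_iff] at h1
    obtain ⟨z, hz1, hz2, hz3⟩ := mem_closure_iff.1 (hR'cl h) (ball w ε) isOpen_ball
      (mem_ball_self hε)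
    have h2 : z ∈ R' ∩ closedBall w ε := ⟨hz2, ball_subset_closedBall hz1⟩
    rw [hR'N, mem_singleton_iff] at h2
    exact hz3 (Or.inr h2)
  have hR'V : R' ⊆ V := by
    intro z hz
    rcases hR's hz with h | h
    · exact hIV h
    · rw [mem_singleton_iff.1 h]
      exact hCV ha
  -- the access path to `b`
  obtain ⟨β, hβ, hβ1, hβI⟩ := hACP Y U V hP C hC hCV b hb
  have hbR' : b ∉ R' := by
    intro h
    rcases hR's h with h1 | h1
    · exact hbI h1
    · exact hab (mem_singleton_iff.1 h1).symm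
  have hbn : R'ᶜ ∈ 𝓝 (β 1) := by
    rw [hβ1]
    exact hR'c.isClosed.isOpen_compl.mem_nhds hbR'
  obtain ⟨δ, hδ, hδs⟩ := Metric.mem_nhdsWithin_iff.1 (hβ 1 (by simp) hbn)
  obtain ⟨t0, ht00, ht01, ht0⟩ : ∃ t0 : ℝ, 0 ≤ t0 ∧ t0 < 1 ∧ ∀ t ∈ Icc t0 1, β t ∉ R' := by
    refine ⟨max 0 (1 - δ / 2), le_max_left _ _, max_lt zero_lt_one (by linarith), ?_⟩
    intro t ht
    have h1 : 0 ≤ t := (le_max_left _ _).trans ht.1
    have h2 : 1 - δ / 2 ≤ t := (le_max_right _ _).trans ht.1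
    refine hδs ⟨?_, h1, ht.2⟩
    rw [mem_ball, Real.dist_eq, abs_lt]
    constructor <;> linarith [ht.2]
  have hyI : β t0 ∈ ins C := hβI t0 ⟨ht00, ht01⟩
  have hyR : β t0 ∉ R' := ht0 t0 ⟨le_rfl, ht01.le⟩
  have hCR : C ∩ R' = {a} := by
    ext z
    simp only [mem_inter_iff, mem_singleton_iff]
    constructor
    · rintro ⟨h1, h2⟩
      rcases hR's h2 with h3 | h3
      · exact absurd h1 (hnot z h3)
      · exact h3
    · rintro rfl
      exact ⟨ha, haR'⟩
  have hVR : IsPathConnected (V \ R') :=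
    (hP.opV.sdiff hR'c.isClosed).isConnected_iff_isPathConnected.1 (hP.nsp R' a w' hR' hR'V)
  obtain ⟨p, hp⟩ := hP.jan C R' hCc hR'c hCV hR'V (by rw [hCR]; exact isConnected_singleton)
    (β t0) w ((hIp.joinedIn _ hyI w hwI).mono fun z hz => ⟨hIV hz, hnot z hz⟩)
    (hVR.joinedIn _ ⟨hIV hyI, hyR⟩ w ⟨hIV hwI, hwR'⟩)
  have hpI : range p ⊆ ins C := by
    refine (isPreconnected_range p.continuous).subset_of_closure_inter_subset hIo
      ⟨β t0, ⟨0, p.source⟩, hyI⟩ ?_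
    rintro z ⟨h1, t, rfl⟩
    rw [hIcl] at h1
    rcases h1 with h1 | h1
    · exact absurd (Or.inl h1) (hp t).2
    · exact h1
  -- the compact set `K`
  have hKc : IsCompact (range p ∪ β '' Icc t0 1) :=
    (isCompact_range p.continuous).union
      (isCompact_Icc.image_of_continuousOn (hβ.mono (Icc_subset_Icc_left ht00)))
  have hKR : ∀ z ∈ range p ∪ β '' Icc t0 1, z ∉ R' := by
    rintro z (⟨t, rfl⟩ | ⟨t, ht, rfl⟩) h
    · exact (hp t).2 (Or.inr h)
    · exact ht0 t ht h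
  have hKI : range p ∪ β '' Icc t0 1 ⊆ ins C ∪ {b} := by
    rintro z (h | ⟨t, ht, rfl⟩)
    · exact Or.inl (hpI h)
    · rcases ht.2.lt_or_eq with h | h
      · exact Or.inl (hβI t ⟨ht00.trans ht.1, h⟩)
      · rw [h, hβ1]
        exact Or.inr rfl
  have jK1 : JoinedIn (range p ∪ β '' Icc t0 1) (β t0) w := ⟨p, fun t => Or.inl ⟨t, rfl⟩⟩
  have jK2 : JoinedIn (range p ∪ β '' Icc t0 1) (β t0) b := by
    have h1 : IsPathConnected (β '' Icc t0 1) :=
      ((convex_Icc t0 1).isPathConnected ⟨1, ht01.le, le_rfl⟩).image'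
        (hβ.mono (Icc_subset_Icc_left ht00))
    exact (h1.joinedIn _ ⟨t0, ⟨le_rfl, ht01.le⟩, rfl⟩ b ⟨1, ⟨ht01.le, le_rfl⟩, hβ1⟩).mono
      subset_union_right
  have hbK : b ∈ range p ∪ β '' Icc t0 1 := Or.inr ⟨1, ⟨ht01.le, le_rfl⟩, hβ1⟩
  generalize range p ∪ β '' Icc t0 1 = Q at hKc hKR hKI jK1 jK2 hbK
  have jR : JoinedIn R' a w' := (JoinedIn.ofLine hα'c hα'0 hα'1 hα'i.subset).symm
  have jO : JoinedIn O' w' w := hO'p.joinedIn w' (hεO' hw'N) w hwO'
  have jAll : JoinedIn (R' ∪ O' ∪ Q) a b :=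
    (jR.mono (subset_union_left.trans subset_union_left)).trans
      ((jO.mono (subset_union_right.trans subset_union_left)).trans
        ((jK1.symm.mono subset_union_right).trans (jK2.mono subset_union_right)))
  obtain ⟨P, hPs, hPa⟩ := hPTA.2 Y _ a b jAll hab
  obtain ⟨-, haP, hbP, -, -, hPcon, -⟩ := hARB Y P a b hPa
  refine ⟨a, ha, b, hb, P, hPa, ?_, ?_⟩
  · rintro z ⟨hz, hzn⟩
    have hza : z ≠ a := fun h => hzn (Or.inl h)
    have hzb : z ≠ b := fun h => hzn (Or.inr h)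
    rcases hPs hz with (h | h) | h
    · rcases hR's h with h1 | h1
      · exact h1
      · exact absurd h1 hza
    · exact (hO's h).2
    · rcases hKI h with h1 | h1
      · exact h1
      · exact absurd h1 hzb
  · by_contra h
    have h0 : ∀ z ∈ P, z ∉ O := fun z h1 h2 => h ⟨z, h1, h2⟩
    have h1 : P ⊆ R' ∪ Q := by
      intro z hz
      rcases hPs hz with (h2 | h2) | h2
      · exact Or.inl h2
      · exact absurd (hO's h2).1 (h0 z hz)
      · exact Or.inr h2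
    obtain ⟨z, -, hz1, hz2⟩ := isPreconnected_closed_iff.1 hPcon.isPreconnected R' Q
      hR'c.isClosed hKc.isClosed h1 ⟨a, haP, haR'⟩ ⟨b, hbP, hbK⟩
    exact hKR z hz2 hz1

end BBP
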