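import Pool.Agent.BBP.StmtsC

/-!
# BBP, module THA: theta curves, first part
-/

set_option autoImplicit false

namespace BBP

open Set Topology Metric

namespace THA

variable {Y : Type} [MetricSpace Y]

/-- a connected set disjoint from `C` is inside or outside -/
theorem dich {U V : Set Y} (hp : Pln U V) {C S : Set Y} (hC : Scc C) (hCU : C ⊆ U)
    (hS : IsPreconnected S) (hd : Disjoint S C) : S ⊆ ins C ∨ Disjoint S (ins C) := by
  have h1 : IsOpen (ins C) := hp.opn C hC hCU
  have h2 : IsOpen (closure (ins C))ᶜ := isClosed_closure.isOpen_compl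
  have h3 : Disjoint (ins C) (closure (ins C))ᶜ :=
    Set.disjoint_left.2 fun x hx hx' => hx' (subset_closure hx)
  have h4 : S ⊆ ins C ∪ (closure (ins C))ᶜ := by
    intro x hx
    by_cases hxi : x ∈ ins C
    · exact Or.inl hxi
    · right
      rw [hp.clos C hC hCU]
      rintro (h | h)
      · exact Set.disjoint_left.1 hd hx h
      · exact hxi h
  by_cases hne : (S ∩ ins C).Nonempty
  · left
    exact hS.subset_left_of_subset_union h1 h2 h3 h4 hne
  · right
    rw [Set.disjoint_iff_inter_eq_empty]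
    exact Set.not_nonempty_iff_eq_empty.1 hne

/-- one side of the theta curve -/
theorem side (hARB : S_ARB) (hGLU : S_GLU) {U V : Set Y} (hp : Pln U V)
    (C A1 A2 P : Set Y) (a b : Y) (hC : Scc C) (hCU : C ⊆ U) (hA1 : Arc A1 a b)
    (hA2 : Arc A2 a b) (hu : A1 ∪ A2 = C) (hi : A1 ∩ A2 = {a, b}) (hP : Arc P a b)
    (hPC : P \ {a, b} ⊆ ins C) :
    Scc (A1 ∪ P) ∧ A1 ∪ P ⊆ U ∧ ins (A1 ∪ P) ⊆ ins C \ P ∧
      ∀ x ∈ A2 \ {a, b}, x ∉ A1 ∪ P := by
  have hdC : Disjoint (ins C) C := hp.disj C hC hCU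
  have ha1 : a ∈ A1 := (hARB Y A1 a b hA1).2.1
  have hb1 : b ∈ A1 := (hARB Y A1 a b hA1).2.2.1
  have haP : a ∈ P := (hARB Y P a b hP).2.1
  have hbP : b ∈ P := (hARB Y P a b hP).2.2.1
  have hA1C : A1 ⊆ C := by
    rw [← hu]
    exact subset_union_left
  have hA2C : A2 ⊆ C := by
    rw [← hu]
    exact subset_union_right
  have hPx : ∀ x ∈ P, x ∈ C → x = a ∨ x = b := by
    intro x hx hxC
    by_contra hne
    have h1 : x ∈ P \ {a, b} := ⟨hx, fun h => hne (by simpa using h)⟩
    exact Set.disjoint_left.1 hdC (hPC h1) hxC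
  have hPsub : P ⊆ C ∪ ins C := by
    intro x hx
    by_cases h : x = a ∨ x = b
    · left
      rcases h with h | h
      · rw [h]
        exact hA1C ha1
      · rw [h]
        exact hA1C hb1
    · right
      exact hPC ⟨hx, fun h' => h (by simpa using h')⟩
  have hinter : A1 ∩ P = {a, b} := by
    ext x
    constructor
    · rintro ⟨h1, h2⟩
      have := hPx x h2 (hA1C h1)
      simpa using this
    · intro h
      have h' : x = a ∨ x = b := by simpa using h
      rcases h' with h' | h'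
      · rw [h']
        exact ⟨ha1, haP⟩
      · rw [h']
        exact ⟨hb1, hbP⟩
  have hscc : Scc (A1 ∪ P) := (hGLU.1 Y A1 P a b hA1 hP hinter).1
  have hsubU : A1 ∪ P ⊆ U := by
    rintro x (hx | hx)
    · exact hCU (hA1C hx)
    · rcases hPsub hx with h | h
      · exact hCU h
      · exact hp.insU C hC hCU h
  have hA2d : ∀ x ∈ A2 \ {a, b}, x ∉ A1 ∪ P := by
    rintro x ⟨hx1, hx2⟩ (h | h)
    · have : x ∈ A1 ∩ A2 := ⟨h, hx1⟩
      rw [hi] at this
      exact hx2 this
    · have := hPx x h (hA2C hx1)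
      exact hx2 (by simpa using this)
  refine ⟨hscc, hsubU, ?_, hA2d⟩
  -- the outside
  have hE : IsConnected (U \ (C ∪ ins C)) := hp.out C hC hCU
  have hEc : C ⊆ closure (U \ (C ∪ ins C)) := hp.outc C hC hCU
  set W : Set Y := (U \ (C ∪ ins C)) ∪ (A2 \ {a, b}) with hW
  have hWc : IsConnected W := by
    refine hE.subset_closure subset_union_left ?_
    rintro x (hx | hx)
    · exact subset_closure hx
    · exact hEc (hA2C hx.1)
  have hWd : Disjoint W (A1 ∪ P) := by
    refine Set.disjoint_left.2 ?_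
    rintro x (hx | hx) hx'
    · rcases hx' with h | h
      · exact hx.2 (Or.inl (hA1C h))
      · exact hx.2 (hPsub h)
    · exact hA2d x hx hx'
  have hWi : Disjoint W (ins (A1 ∪ P)) := by
    rcases dich hp hscc hsubU hWc.isPreconnected hWd with h | h
    · exfalso
      refine hp.ncp C hC hCU ((A1 ∪ P) ∪ ins (A1 ∪ P)) (hp.cpt _ hscc hsubU) ?_ ?_
      · exact union_subset hsubU (hp.insU _ hscc hsubU)
      · intro x hx
        exact Or.inr (h (Or.inl hx))
    · exact h
  have hd1 : Disjoint (ins (A1 ∪ P)) (A1 ∪ P) := hp.disj _ hscc hsubU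
  intro x hx
  have hxU : x ∈ U := hp.insU _ hscc hsubU hx
  have hxP : x ∉ P := fun h => Set.disjoint_left.1 hd1 hx (Or.inr h)
  have hxA1 : x ∉ A1 := fun h => Set.disjoint_left.1 hd1 hx (Or.inl h)
  have hxW : x ∉ W := fun h => Set.disjoint_left.1 hWi h hx
  refine ⟨?_, hxP⟩
  by_contra hxi
  have hxC : x ∉ C := by
    intro h
    rw [← hu] at h
    rcases h with h | h
    · exact hxA1 h
    · refine hxW (Or.inr ⟨h, ?_⟩)
      intro h'
      have h'' : x = a ∨ x = b := by simpa using h'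
      rcases h'' with h'' | h''
      · exact hxA1 (h'' ▸ ha1)
      · exact hxA1 (h'' ▸ hb1)
  refine hxW (Or.inl ⟨hxU, ?_⟩)
  rintro (h | h)
  · exact hxC h
  · exact hxi h

end THA

theorem t_THA : M_THA := by
  intro hARB hGLU Y _ U V hp C A1 A2 P a b hC hCU hA1 hA2 hu hi hP hPC
  obtain ⟨s1, u1, i1, d1⟩ := THA.side hARB hGLU hp C A1 A2 P a b hC hCU hA1 hA2 hu hi hP hPC
  obtain ⟨s2, u2, i2, d2⟩ := THA.side hARB hGLU hp C A2 A1 P a b hC hCU hA2 hA1
    (by rw [union_comm]; exact hu) (by rw [inter_comm]; exact hi) hP hPC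
  refine ⟨s1, s2, i1, i2, ?_⟩
  have hdC : Disjoint (ins C) C := hp.disj C hC hCU
  have hA1C : A1 ⊆ C := by
    rw [← hu]
    exact subset_union_left
  have hA2C : A2 ⊆ C := by
    rw [← hu]
    exact subset_union_right
  have hdis : ∀ B B' : Set Y, B ⊆ C → ins (B' ∪ P) ⊆ ins C \ P →
      Disjoint (ins (B' ∪ P)) (B ∪ P) := by
    intro B B' hB h
    refine Set.disjoint_left.2 ?_
    rintro x hx (h' | h')
    · exact Set.disjoint_left.1 hdC (h hx).1 (hB h')
    · exact (h hx).2 h'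
  by_contra hnd
  rw [Set.not_disjoint_iff] at hnd
  obtain ⟨z, hz1, hz2⟩ := hnd
  have h12 : ins (A1 ∪ P) ⊆ ins (A2 ∪ P) := by
    rcases THA.dich hp s2 u2 (hp.conn _ s1 u1).isPreconnected (hdis A2 A1 hA2C i1) with h | h
    · exact h
    · exact absurd hz2 (Set.disjoint_left.1 h hz1)
  have h21 : ins (A2 ∪ P) ⊆ ins (A1 ∪ P) := by
    rcases THA.dich hp s1 u1 (hp.conn _ s2 u2).isPreconnected (hdis A1 A2 hA1C i2) with h | h
    · exact h
    · exact absurd hz1 (Set.disjoint_left.1 h hz2)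
  have heq : ins (A1 ∪ P) = ins (A2 ∪ P) := Set.Subset.antisymm h12 h21
  have hconn : IsConnected (A2 \ {a, b}) := (hARB Y A2 a b hA2).2.2.2.2.2.2.2.2.1
  obtain ⟨x, hx⟩ := hconn.nonempty
  have h1 : x ∈ closure (ins (A2 ∪ P)) := by
    rw [hp.clos _ s2 u2]
    exact Or.inl (Or.inl hx.1)
  rw [← heq, hp.clos _ s1 u1] at h1
  rcases h1 with h1 | h1
  · exact d1 x hx h1
  · exact Set.disjoint_left.1 hdC (i1 h1).1 (hA2C hx.1)

end BBP
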