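import Pool.Agent.BBP.StmtsC

/-!
# BBP, module THB: theta curves, second part
-/

set_option autoImplicit false

namespace BBP

open Set Topology Metric

namespace THB

variable {Y : Type} [MetricSpace Y]

theorem open_out {U V : Set Y} (hP : Pln U V) {J : Set Y} (hJ : Scc J) (hJU : J ⊆ U) :
    IsOpen (U \ (J ∪ ins J)) :=
  hP.opU.sdiff (hP.cpt J hJ hJU).isClosed

/-- a connected set disjoint from `J` is inside or outside -/
theorem side {U V : Set Y} (hP : Pln U V) {J : Set Y} (hJ : Scc J) (hJU : J ⊆ U) {X : Set Y}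
    (hX : IsPreconnected X) (hXU : X ⊆ U) (hXJ : Disjoint X J) :
    X ⊆ ins J ∨ X ⊆ U \ (J ∪ ins J) := by
  refine hX.subset_or_subset (hP.opn J hJ hJU) (open_out hP hJ hJU) ?_ ?_
  · rw [Set.disjoint_left]
    intro x hx hx'
    exact hx'.2 (Or.inr hx)
  · intro x hx
    by_cases h : x ∈ ins J
    · exact Or.inl h
    · refine Or.inr ⟨hXU hx, ?_⟩
      rintro (h1 | h1)
      · exact Set.disjoint_left.1 hXJ hx h1
      · exact h h1

/-- the component of a point -/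
theorem comp {F : Set Y} (hl : LocallyPathConnectedSpace Y) (hF : IsOpen F) {w : Y}
    (hw : w ∈ F) : ∃ R : Set Y, IsOpen R ∧ IsConnected R ∧ w ∈ R ∧ R ⊆ F ∧ closure R ∩ F ⊆ R := by
  refine ⟨connectedComponentIn F w, hF.connectedComponentIn,
    isConnected_connectedComponentIn_iff.2 hw, mem_connectedComponentIn hw,
    connectedComponentIn_subset F w, ?_⟩
  rintro z ⟨hz, hzF⟩
  have h1 : IsOpen (connectedComponentIn F z) := hF.connectedComponentIn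
  obtain ⟨u, hu1, hu2⟩ := mem_closure_iff.1 hz _ h1 (mem_connectedComponentIn hzF)
  have h2 := connectedComponentIn_eq hu1
  have h3 := connectedComponentIn_eq hu2
  rw [h3, ← h2]
  exact mem_connectedComponentIn hzF

theorem arc_sub {α : ℝ → Y} (hc : ContinuousOn α (Icc 0 1)) (hi : InjOn α (Icc 0 1)) {s t : ℝ}
    (hs : 0 ≤ s) (hst : s < t) (ht : t ≤ 1) : Arc (α '' Icc s t) (α s) (α t) := by
  have hm : ∀ u ∈ Icc (0 : ℝ) 1, s + u * (t - s) ∈ Icc s t := by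
    intro u hu
    have h1 := hu.1
    have h2 := hu.2
    constructor <;> nlinarith
  have hsub : Icc s t ⊆ Icc (0 : ℝ) 1 := Icc_subset_Icc hs ht
  refine ⟨fun u => α (s + u * (t - s)), ?_, ?_, by simp, by simp, ?_⟩
  · exact hc.comp (by fun_prop) fun u hu => hsub (hm u hu)
  · intro u hu v hv huv
    have := hi (hsub (hm u hu)) (hsub (hm v hv)) huv
    have h3 : u * (t - s) = v * (t - s) := by linarith
    exact mul_right_cancel₀ (sub_ne_zero.2 hst.ne') h3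
  · ext z
    constructor
    · rintro ⟨r, hr, rfl⟩
      have hp : 0 < t - s := sub_pos.2 hst
      refine ⟨(r - s) / (t - s), ⟨div_nonneg (by linarith [hr.1]) hp.le, ?_⟩, ?_⟩
      · rw [div_le_one hp]; linarith [hr.2]
      · show α (s + (r - s) / (t - s) * (t - s)) = α r
        rw [div_mul_cancel₀ _ hp.ne']
        congr 1
        ring
    · rintro ⟨u, hu, rfl⟩
      exact ⟨_, hm u hu, rfl⟩

theorem sub_aux {α : ℝ → Y} (hc : ContinuousOn α (Icc 0 1)) (hi : InjOn α (Icc 0 1)) {s t : ℝ}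
    (hs : 0 < s) (hst : s < t) (ht : t < 1) :
    Arc (α '' Icc s t) (α s) (α t) ∧ α '' Icc s t ⊆ α '' Icc 0 1 \ {α 0, α 1} ∧
    ∃ H1 H2 : Set Y, IsPreconnected H1 ∧ IsPreconnected H2 ∧ α 0 ∈ H1 ∧ α 1 ∈ H2 ∧
      α '' Icc 0 1 \ α '' Icc s t = H1 ∪ H2 := by
  have h0 : (0 : ℝ) ∈ Icc (0 : ℝ) 1 := by simp
  have h1 : (1 : ℝ) ∈ Icc (0 : ℝ) 1 := by simp
  have hsub : Icc s t ⊆ Icc (0 : ℝ) 1 := Icc_subset_Icc hs.le ht.le
  refine ⟨arc_sub hc hi hs.le hst ht.le, ?_, α '' Ico 0 s, α '' Ioc t 1, ?_, ?_,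
    ⟨0, ⟨le_refl _, hs⟩, rfl⟩, ⟨1, ⟨ht, le_refl _⟩, rfl⟩, ?_⟩
  · rintro _ ⟨r, hr, rfl⟩
    refine ⟨⟨r, hsub hr, rfl⟩, ?_⟩
    rintro (h | h)
    · have := hi (hsub hr) h0 h
      linarith [hr.1]
    · have := hi (hsub hr) h1 h
      linarith [hr.2]
  · refine isPreconnected_Ico.image _ (hc.mono ?_)
    intro r hr
    exact ⟨hr.1, by linarith [hr.2]⟩
  · refine isPreconnected_Ioc.image _ (hc.mono ?_)
    intro r hr
    exact ⟨by linarith [hr.1], hr.2⟩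
  · ext z
    constructor
    · rintro ⟨⟨r, hr, rfl⟩, hz⟩
      by_cases h : r < s
      · exact Or.inl ⟨r, ⟨hr.1, h⟩, rfl⟩
      · by_cases h' : t < r
        · exact Or.inr ⟨r, ⟨h', hr.2⟩, rfl⟩
        · exact absurd ⟨r, ⟨not_lt.1 h, not_lt.1 h'⟩, rfl⟩ hz
    · rintro (⟨r, hr, rfl⟩ | ⟨r, hr, rfl⟩)
      · have hr' : r ∈ Icc (0 : ℝ) 1 := ⟨hr.1, by linarith [hr.2]⟩
        refine ⟨⟨r, hr', rfl⟩, ?_⟩
        rintro ⟨r', hr'', h⟩
        have := hi (hsub hr'') hr' h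
        linarith [hr.2, hr''.1]
      · have hr' : r ∈ Icc (0 : ℝ) 1 := ⟨by linarith [hr.1], hr.2⟩
        refine ⟨⟨r, hr', rfl⟩, ?_⟩
        rintro ⟨r', hr'', h⟩
        have := hi (hsub hr'') hr' h
        linarith [hr.1, hr''.2]

/-- subarcs that avoid the ends -/
theorem sub (hA : S_ARB) {A : Set Y} {a b x y : Y} (h : Arc A a b) (hx : x ∈ A \ {a, b})
    (hy : y ∈ A \ {a, b}) (hxy : x ≠ y) : ∃ D : Set Y, Arc D x y ∧ D ⊆ A \ {a, b} ∧
    ∃ H1 H2 : Set Y, IsPreconnected H1 ∧ IsPreconnected H2 ∧ a ∈ H1 ∧ b ∈ H2 ∧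
      A \ D = H1 ∪ H2 := by
  obtain ⟨α, hc, hi, rfl, rfl, rfl⟩ := h
  obtain ⟨⟨s, hs, rfl⟩, hx2⟩ := hx
  obtain ⟨⟨t, ht, rfl⟩, hy2⟩ := hy
  have e : ∀ r ∈ Icc (0 : ℝ) 1, α r ∉ ({α 0, α 1} : Set Y) → 0 < r ∧ r < 1 := by
    intro r hr h
    constructor
    · rcases hr.1.lt_or_eq with h1 | h1
      · exact h1
      · exact absurd (Or.inl (by rw [← h1])) h
    · rcases hr.2.lt_or_eq with h1 | h1
      · exact h1
      · exact absurd (Or.inr (by rw [h1]; rfl)) h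
  have es := e s hs hx2
  have et := e t ht hy2
  rcases lt_trichotomy s t with h | h | h
  · exact ⟨_, sub_aux hc hi es.1 h et.2⟩
  · exact absurd (by rw [h]) hxy
  · obtain ⟨h1, h2, h3⟩ := sub_aux hc hi et.1 h es.2
    exact ⟨_, (hA Y _ _ _ h1).2.2.2.1, h2, h3⟩

theorem second (hA : S_ARB) {A : Set Y} {a b : Y} (h : Arc A a b) (x : Y) :
    ∃ p ∈ A \ {a, b}, p ≠ x := by
  obtain ⟨h1, ha, hb, -, -, -, -, -, -, h2, -⟩ := hA Y A a b h
  by_contra hcon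
  push Not at hcon
  have h3 : A \ {a, b} ⊆ {x} := hcon
  have h4 : A ⊆ {x} := by
    refine h2.trans ?_
    have := closure_mono h3
    rwa [closure_singleton] at this
  exact h1 ((h4 ha).trans (h4 hb).symm)

theorem meets {U V : Set Y} (hP : Pln U V) {C A1 A2 P : Set Y} {a b : Y} (hC : Scc C)
    (hCU : C ⊆ U) (h12 : A1 ∪ A2 = C) (hI : A1 ∩ A2 = {a, b}) (hs1 : Scc (A1 ∪ P))
    (hPU : P ⊆ U) (hi1 : ins (A1 ∪ P) ⊆ ins C \ P)
    (hPC : ∀ z ∈ P, z ∈ C → z ∈ ({a, b} : Set Y)) (hne : (A2 \ {a, b}).Nonempty)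
    {R : Set Y} {w : Y} (hRc : IsConnected R) (hRo : IsOpen R) (hRF : R ⊆ U \ (C ∪ P))
    (hcl : closure R ∩ U ⊆ R ∪ (C ∪ P)) (hwR : w ∈ R) (hw1 : w ∉ ins (A1 ∪ P)) :
    ∃ p ∈ A2 \ {a, b}, p ∈ closure R := by
  by_contra hcon
  push Not at hcon
  have hA1C : A1 ⊆ C := by rw [← h12]; exact subset_union_left
  have hA2C : A2 ⊆ C := by rw [← h12]; exact subset_union_right
  have hC1U : A1 ∪ P ⊆ U := union_subset (hA1C.trans hCU) hPU
  have habA1 : ({a, b} : Set Y) ⊆ A1 := by rw [← hI]; exact inter_subset_left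
  have hRU : R ⊆ U := fun x hx => (hRF hx).1
  have hR1 : R ⊆ U \ ((A1 ∪ P) ∪ ins (A1 ∪ P)) := by
    rcases side hP hs1 hC1U hRc.isPreconnected hRU (by
      rw [Set.disjoint_left]
      rintro x hx (h | h)
      · exact (hRF hx).2 (Or.inl (hA1C h))
      · exact (hRF hx).2 (Or.inr h)) with h | h
    · exact absurd (h hwR) hw1
    · exact h
  have hO : U \ ((A1 ∪ P) ∪ ins (A1 ∪ P)) ⊆ R := by
    refine (hP.out _ hs1 hC1U).isPreconnected.subset_of_closure_inter_subset hRo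
      ⟨w, hR1 hwR, hwR⟩ ?_
    rintro z ⟨hz, hzO⟩
    rcases hcl ⟨hz, hzO.1⟩ with h | h | h
    · exact h
    · exfalso
      rw [← h12] at h
      rcases h with h | h
      · exact hzO.2 (Or.inl (Or.inl h))
      · by_cases h' : z ∈ ({a, b} : Set Y)
        · exact hzO.2 (Or.inl (Or.inl (habA1 h')))
        · exact hcon z ⟨h, h'⟩ hz
    · exact absurd (Or.inl (Or.inr h)) hzO.2
  obtain ⟨p, hp, hp'⟩ := hne
  have hpO : p ∈ U \ ((A1 ∪ P) ∪ ins (A1 ∪ P)) := by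
    refine ⟨hCU (hA2C hp), ?_⟩
    rintro ((h | h) | h)
    · apply hp'
      rw [← hI]
      exact ⟨h, hp⟩
    · exact hp' (hPC p h (hA2C hp))
    · exact Set.disjoint_left.1 (hP.disj C hC hCU) (hi1 h).1 (hA2C hp)
  exact (hRF (hO hpO)).2 (Or.inl (hA2C hp))

theorem Accs.mono {W W' : Set Y} {p : Y} (h : Accs W p) (hW : W ⊆ W') : Accs W' p := by
  obtain ⟨α, h1, h2, h3⟩ := h
  exact ⟨α, h1, h2, fun t ht => hW (h3 t ht)⟩

/-- accessible points on an arc -/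
theorem acc (hACC : S_ACC) {U V : Set Y} (hP : Pln U V) {K W B G : Set Y} (hK : IsClosed K)
    (hKU : K ⊆ U) (hW : Clo U K W) (hB : IsClosed B) (hG : ∀ z ∈ K, z ∉ B → z ∈ G)
    {p : Y} (hp : p ∈ K) (hpW : p ∈ closure W) (hpB : p ∉ B) : ∃ p' ∈ G, p' ∉ B ∧ Accs W p' := by
  obtain ⟨p', hp', hac⟩ := hACC.1 Y hP.lpc U K W hP.opU hK hKU hW p hp hpW Bᶜ hB.isOpen_compl hpB
  exact ⟨p', hG p' hp'.1 hp'.2, hp'.2, Accs.mono hac inter_subset_left⟩

theorem main (hARB : S_ARB) (hGLU : S_GLU) (hACC : S_ACC) {U V : Set Y} (hP : Pln U V)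
    {C A1 A2 P : Set Y} {a b : Y} (hC : Scc C) (hCU : C ⊆ U) (hA1 : Arc A1 a b)
    (hA2 : Arc A2 a b) (h12 : A1 ∪ A2 = C) (hI : A1 ∩ A2 = {a, b}) (hPa : Arc P a b)
    (hPi : P \ {a, b} ⊆ ins C) (hs1 : Scc (A1 ∪ P)) (hs2 : Scc (A2 ∪ P))
    (hi1 : ins (A1 ∪ P) ⊆ ins C \ P) (hi2 : ins (A2 ∪ P) ⊆ ins C \ P) :
    ins C ⊆ ins (A1 ∪ P) ∪ ins (A2 ∪ P) ∪ P := by
  intro w hw
  by_contra hcon
  have hwP : w ∉ P := fun h => hcon (Or.inr h)
  have hw1 : w ∉ ins (A1 ∪ P) := fun h => hcon (Or.inl (Or.inl h))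
  have hw2 : w ∉ ins (A2 ∪ P) := fun h => hcon (Or.inl (Or.inr h))
  have hdis := Set.disjoint_left.1 (hP.disj C hC hCU)
  have hA1C : A1 ⊆ C := by rw [← h12]; exact subset_union_left
  have hA2C : A2 ⊆ C := by rw [← h12]; exact subset_union_right
  have habA1 : ({a, b} : Set Y) ⊆ A1 := by rw [← hI]; exact inter_subset_left
  have habA2 : ({a, b} : Set Y) ⊆ A2 := by rw [← hI]; exact inter_subset_right
  have hPC : ∀ z ∈ P, z ∈ C → z ∈ ({a, b} : Set Y) := by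
    intro z hz hzC
    by_contra h
    exact hdis (hPi ⟨hz, h⟩) hzC
  have hPU : P ⊆ U := by
    intro z hz
    by_cases h : z ∈ ({a, b} : Set Y)
    · exact hCU (hA1C (habA1 h))
    · exact hP.insU C hC hCU (hPi ⟨hz, h⟩)
  have hCcl : IsClosed C := by
    have h1 := (hARB Y A1 a b hA1).2.2.2.2.1.isClosed
    have h2 := (hARB Y A2 a b hA2).2.2.2.2.1.isClosed
    rw [← h12]
    exact h1.union h2
  have hA1cl : IsClosed A1 := (hARB Y A1 a b hA1).2.2.2.2.1.isClosed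
  have hA2cl : IsClosed A2 := (hARB Y A2 a b hA2).2.2.2.2.1.isClosed
  have hPcl : IsClosed P := (hARB Y P a b hPa).2.2.2.2.1.isClosed
  have hF : IsOpen (U \ (C ∪ P)) := hP.opU.sdiff (hCcl.union hPcl)
  have hwF : w ∈ U \ (C ∪ P) := by
    refine ⟨hP.insU C hC hCU hw, ?_⟩
    rintro (h | h)
    · exact hdis hw h
    · exact hwP h
  obtain ⟨R, hRo, hRc, hwR, hRF, hRcl⟩ := comp hP.lpc hF hwF
  have hRU : R ⊆ U := fun x hx => (hRF hx).1
  have hRdC : ∀ x ∈ R, x ∉ C := fun x hx h => (hRF hx).2 (Or.inl h)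
  have hRdP : ∀ x ∈ R, x ∉ P := fun x hx h => (hRF hx).2 (Or.inr h)
  have hRC : R ⊆ ins C := by
    rcases side hP hC hCU hRc.isPreconnected hRU (Set.disjoint_left.2 hRdC) with h | h
    · exact h
    · exact absurd (Or.inr hw) (h hwR).2
  have hRclo : closure R ∩ U ⊆ R ∪ (C ∪ P) := by
    rintro z ⟨hz, hzU⟩
    by_cases h : z ∈ C ∪ P
    · exact Or.inr h
    · exact Or.inl (hRcl ⟨hz, hzU, h⟩)
  have hcloR : Clo U (C ∪ P) R := ⟨hRo, hRc.nonempty, hRF, hRclo⟩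
  have hCPU : C ∪ P ⊆ U := union_subset hCU hPU
  have hCPcl : IsClosed (C ∪ P) := hCcl.union hPcl
  -- the outside
  set E := U \ (C ∪ ins C) with hE
  have hEo : IsOpen E := open_out hP hC hCU
  have hEc : IsConnected E := hP.out C hC hCU
  have hEdC : ∀ x ∈ E, x ∉ C := fun x hx h => hx.2 (Or.inl h)
  have hEdI : ∀ x ∈ E, x ∉ ins C := fun x hx h => hx.2 (Or.inr h)
  have hcloE : Clo U C E := by
    refine ⟨hEo, hEc.nonempty, fun x hx => ⟨hx.1, hEdC x hx⟩, ?_⟩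
    rintro z ⟨hz, hzU⟩
    by_cases h : z ∈ C
    · exact Or.inr h
    · refine Or.inl ⟨hzU, ?_⟩
      rintro (h' | h')
      · exact h h'
      · obtain ⟨u, hu1, hu2⟩ := mem_closure_iff.1 hz _ (hP.opn C hC hCU) h'
        exact hEdI u hu2 hu1
  -- accessible points
  obtain ⟨q1, hq1, -⟩ := second hARB hA1 a
  obtain ⟨q2, hq2, -⟩ := second hARB hA2 a
  obtain ⟨p1, hp1, hp1R⟩ := meets hP hC hCU (by rw [union_comm]; exact h12)
    (by rw [inter_comm]; exact hI) hs2 hPU hi2 hPC ⟨q1, hq1⟩ hRc hRo hRF hRclo hwR hw2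
  obtain ⟨p2, hp2, hp2R⟩ := meets hP hC hCU h12 hI hs1 hPU hi1 hPC ⟨q2, hq2⟩ hRc hRo hRF hRclo
    hwR hw1
  have n12 : ∀ z ∈ A1 \ {a, b}, z ∉ A2 := fun z hz h => hz.2 (by rw [← hI]; exact ⟨hz.1, h⟩)
  have n21 : ∀ z ∈ A2 \ {a, b}, z ∉ A1 := fun z hz h => hz.2 (by rw [← hI]; exact ⟨h, hz.1⟩)
  have n1P : ∀ z ∈ A1 \ {a, b}, z ∉ P := fun z hz h => hz.2 (hPC z h (hA1C hz.1))
  have n2P : ∀ z ∈ A2 \ {a, b}, z ∉ P := fun z hz h => hz.2 (hPC z h (hA2C hz.1))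
  have g1 : ∀ z ∈ C, z ∉ A2 → z ∈ A1 \ {a, b} := by
    intro z hz h
    rw [← h12] at hz
    exact ⟨hz.resolve_right h, fun h' => h (habA2 h')⟩
  have g2 : ∀ z ∈ C, z ∉ A1 → z ∈ A2 \ {a, b} := by
    intro z hz h
    rw [← h12] at hz
    exact ⟨hz.resolve_left h, fun h' => h (habA1 h')⟩
  obtain ⟨a1, ha1, -, hac1⟩ := acc hACC hP hCPcl hCPU hcloR (hA2cl.union hPcl)
    (G := A1 \ {a, b}) (by
      rintro z (hz | hz) h
      · exact g1 z hz fun h' => h (Or.inl h')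
      · exact absurd (Or.inr hz) h) (Or.inl (hA1C hp1.1)) hp1R (by
      rintro (h | h)
      · exact n12 p1 hp1 h
      · exact n1P p1 hp1 h)
  obtain ⟨a2, ha2, -, hac2⟩ := acc hACC hP hCPcl hCPU hcloR (hA1cl.union hPcl)
    (G := A2 \ {a, b}) (by
      rintro z (hz | hz) h
      · exact g2 z hz fun h' => h (Or.inl h')
      · exact absurd (Or.inr hz) h) (Or.inl (hA2C hp2.1)) hp2R (by
      rintro (h | h)
      · exact n21 p2 hp2 h
      · exact n2P p2 hp2 h)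
  obtain ⟨r1, hr1, hr1'⟩ := second hARB hA1 a1
  obtain ⟨r2, hr2, hr2'⟩ := second hARB hA2 a2
  have hCE := hP.outc C hC hCU
  obtain ⟨b1, hb1, hb1n, hbc1⟩ := acc hACC hP hCcl hCU hcloE (hA2cl.union
    (isClosed_singleton (x := a1))) (G := A1 \ {a, b}) (fun z hz h => g1 z hz fun h' =>
      h (Or.inl h')) (hA1C hr1.1) (hCE (hA1C hr1.1)) (by
      rintro (h | h)
      · exact n12 r1 hr1 h
      · exact hr1' h)
  obtain ⟨b2, hb2, hb2n, hbc2⟩ := acc hACC hP hCcl hCU hcloE (hA1cl.union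
    (isClosed_singleton (x := a2))) (G := A2 \ {a, b}) (fun z hz h => g2 z hz fun h' =>
      h (Or.inl h')) (hA2C hr2.1) (hCE (hA2C hr2.1)) (by
      rintro (h | h)
      · exact n21 r2 hr2 h
      · exact hr2' h)
  have hab1 : a1 ≠ b1 := fun h => hb1n (Or.inr h.symm)
  have hab2 : b2 ≠ a2 := fun h => hb2n (Or.inr h)
  have ha12 : a1 ≠ a2 := fun h => n12 a1 ha1 (h ▸ ha2.1)
  have hb12 : b1 ≠ b2 := fun h => n12 b1 hb1 (h ▸ hb2.1)
  obtain ⟨B1, hB1, hB1R⟩ := hACC.2 Y hP.lpc R a1 a2 hRo hRc ha12 hac1 hac2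
  obtain ⟨B2, hB2, hB2E⟩ := hACC.2 Y hP.lpc E b1 b2 hEo hEc hb12 hbc1 hbc2
  obtain ⟨D1, hD1, hD1s, H1, H2, hH1, hH2, haH1, hbH2, hH⟩ := sub hARB hA1 ha1 hb1 hab1
  obtain ⟨D2, hD2, hD2s, G1, G2, hG1, hG2, haG1, hbG2, hG⟩ := sub hARB hA2 hb2 ha2 hab2
  have eD1 := hARB Y D1 a1 b1 hD1
  have eD2 := hARB Y D2 b2 a2 hD2
  have eB1 := hARB Y B1 a1 a2 hB1
  have eB2 := hARB Y B2 b1 b2 hB2
  have eP := hARB Y P a b hPa
  have hD1C : D1 ⊆ C := fun z hz => hA1C (hD1s hz).1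
  have hD2C : D2 ⊆ C := fun z hz => hA2C (hD2s hz).1
  -- the closed curve
  have i1 : D1 ∩ B2 = {b1} := by
    ext z
    constructor
    · rintro ⟨h1, h2⟩
      by_contra h3
      by_cases h4 : z = b2
      · exact n12 z (hD1s h1) (h4 ▸ hb2.1)
      · exact hEdC z (hB2E ⟨h2, by rintro (h | h); exacts [h3 h, h4 h]⟩) (hD1C h1)
    · rintro rfl
      exact ⟨eD1.2.2.1, eB2.2.1⟩
  have k1 : Arc (D1 ∪ B2) a1 b2 := hGLU.2 Y D1 B2 a1 b1 b2 hD1 hB2 i1
  have i2 : (D1 ∪ B2) ∩ D2 = {b2} := by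
    ext z
    constructor
    · rintro ⟨h1 | h1, h2⟩
      · exact absurd (hD2s h2).1 (n12 z (hD1s h1))
      · by_contra h3
        by_cases h4 : z = b1
        · exact n21 z (hD2s h2) (h4 ▸ hb1.1)
        · exact hEdC z (hB2E ⟨h1, by rintro (h | h); exacts [h4 h, h3 h]⟩) (hD2C h2)
    · rintro rfl
      exact ⟨Or.inr eB2.2.2.1, eD2.2.1⟩
  have k2 : Arc ((D1 ∪ B2) ∪ D2) a1 a2 := hGLU.2 Y (D1 ∪ B2) D2 a1 b2 a2 k1 hD2 i2
  have hB1in : ∀ z ∈ B1, z ∉ ({a1, a2} : Set Y) → z ∈ R := fun z hz h => hB1R ⟨hz, h⟩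
  have hB2in : ∀ z ∈ B2, z ∈ E ∨ z = b1 ∨ z = b2 := by
    intro z hz
    by_cases h : z ∈ ({b1, b2} : Set Y)
    · exact Or.inr h
    · exact Or.inl (hB2E ⟨hz, h⟩)
  have i3 : ((D1 ∪ B2) ∪ D2) ∩ B1 = {a1, a2} := by
    ext z
    constructor
    · rintro ⟨h1, h2⟩
      by_contra h3
      have h4 := hB1in z h2 h3
      rcases h1 with (h1 | h1) | h1
      · exact hRdC z h4 (hD1C h1)
      · rcases hB2in z h1 with h5 | h5 | h5
        · exact hEdI z h5 (hRC h4)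
        · exact hRdC z h4 (h5 ▸ hA1C hb1.1)
        · exact hRdC z h4 (h5 ▸ hA2C hb2.1)
      · exact hRdC z h4 (hD2C h1)
    · rintro (rfl | rfl)
      · exact ⟨Or.inl (Or.inl eD1.2.1), eB1.2.1⟩
      · exact ⟨Or.inr eD2.2.2.1, eB1.2.2.1⟩
  set J := ((D1 ∪ B2) ∪ D2) ∪ B1 with hJdef
  have hJ : Scc J := (hGLU.1 Y _ B1 a1 a2 k2 hB1 i3).1
  have hJU : J ⊆ U := by
    rintro z (((h | h) | h) | h)
    · exact hCU (hD1C h)
    · rcases hB2in z h with h5 | h5 | h5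
      · exact h5.1
      · exact hCU (h5 ▸ hA1C hb1.1)
      · exact hCU (h5 ▸ hA2C hb2.1)
    · exact hCU (hD2C h)
    · by_cases h5 : z ∈ ({a1, a2} : Set Y)
      · rcases h5 with h5 | h5
        · exact hCU (h5 ▸ hA1C ha1.1)
        · exact hCU (h5 ▸ hA2C ha2.1)
      · exact hRU (hB1in z h h5)
  -- the connected set
  set S := (((P ∪ H1) ∪ H2) ∪ G1) ∪ G2 with hSdef
  have hS : IsPreconnected S := by
    have s1 := IsPreconnected.union a eP.2.1 haH1 eP.2.2.2.2.2.1.isPreconnected hH1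
    have s2 := IsPreconnected.union b (Or.inl eP.2.2.1) hbH2 s1 hH2
    have s3 := IsPreconnected.union a (Or.inl (Or.inl eP.2.1)) haG1 s2 hG1
    exact IsPreconnected.union b (Or.inl (Or.inl (Or.inl eP.2.2.1))) hbG2 s3 hG2
  have hSc : ∀ z ∈ S, z ∈ P ∨ z ∈ A1 \ D1 ∨ z ∈ A2 \ D2 := by
    rintro z ((((h | h) | h) | h) | h)
    · exact Or.inl h
    · exact Or.inr (Or.inl (by rw [hH]; exact Or.inl h))
    · exact Or.inr (Or.inl (by rw [hH]; exact Or.inr h))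
    · exact Or.inr (Or.inr (by rw [hG]; exact Or.inl h))
    · exact Or.inr (Or.inr (by rw [hG]; exact Or.inr h))
  have hSC : ∀ z ∈ C, z ∈ S ∨ z ∈ J := by
    intro z hz
    rw [← h12] at hz
    rcases hz with hz | hz
    · by_cases h : z ∈ D1
      · exact Or.inr (Or.inl (Or.inl (Or.inl h)))
      · have : z ∈ A1 \ D1 := ⟨hz, h⟩
        rw [hH] at this
        rcases this with h' | h'
        · exact Or.inl (Or.inl (Or.inl (Or.inl (Or.inr h'))))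
        · exact Or.inl (Or.inl (Or.inl (Or.inr h')))
    · by_cases h : z ∈ D2
      · exact Or.inr (Or.inl (Or.inr h))
      · have : z ∈ A2 \ D2 := ⟨hz, h⟩
        rw [hG] at this
        rcases this with h' | h'
        · exact Or.inl (Or.inl (Or.inr h'))
        · exact Or.inl (Or.inr h')
  have hSU : S ⊆ U := by
    intro z hz
    rcases hSc z hz with h | h | h
    · exact hPU h
    · exact hCU (hA1C h.1)
    · exact hCU (hA2C h.1)
  have hSJ : Disjoint S J := by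
    rw [Set.disjoint_left]
    intro z hz hzJ
    rcases hSc z hz with h | h | h
    · rcases hzJ with ((h1 | h1) | h1) | h1
      · exact n1P z (hD1s h1) h
      · rcases hB2in z h1 with h5 | h5 | h5
        · by_cases h6 : z ∈ ({a, b} : Set Y)
          · exact hEdC z h5 (hA1C (habA1 h6))
          · exact hEdI z h5 (hPi ⟨h, h6⟩)
        · exact n1P b1 hb1 (h5 ▸ h)
        · exact n2P b2 hb2 (h5 ▸ h)
      · exact n2P z (hD2s h1) h
      · by_cases h5 : z ∈ ({a1, a2} : Set Y)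
        · rcases h5 with h5 | h5
          · exact n1P a1 ha1 (h5 ▸ h)
          · exact n2P a2 ha2 (h5 ▸ h)
        · exact hRdP z (hB1in z h1 h5) h
    · rcases hzJ with ((h1 | h1) | h1) | h1
      · exact h.2 h1
      · rcases hB2in z h1 with h5 | h5 | h5
        · exact hEdC z h5 (hA1C h.1)
        · exact h.2 (h5 ▸ eD1.2.2.1)
        · exact n21 b2 hb2 (h5 ▸ h.1)
      · exact n21 z (hD2s h1) h.1
      · by_cases h5 : z ∈ ({a1, a2} : Set Y)
        · rcases h5 with h5 | h5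
          · exact h.2 (h5 ▸ eD1.2.1)
          · exact n21 a2 ha2 (h5 ▸ h.1)
        · exact hRdC z (hB1in z h1 h5) (hA1C h.1)
    · rcases hzJ with ((h1 | h1) | h1) | h1
      · exact n12 z (hD1s h1) h.1
      · rcases hB2in z h1 with h5 | h5 | h5
        · exact hEdC z h5 (hA2C h.1)
        · exact n12 b1 hb1 (h5 ▸ h.1)
        · exact h.2 (h5 ▸ eD2.2.1)
      · exact h.2 h1
      · by_cases h5 : z ∈ ({a1, a2} : Set Y)
        · rcases h5 with h5 | h5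
          · exact n12 a1 ha1 (h5 ▸ h.1)
          · exact h.2 (h5 ▸ eD2.2.2.1)
        · exact hRdC z (hB1in z h1 h5) (hA2C h.1)
  -- the other side
  have fin : ∀ R' : Set Y, IsPreconnected R' → R' ⊆ U → Disjoint R' S → Disjoint R' J →
      J ⊆ closure R' → False := by
    intro R' hR' hR'U h1 h2 h3
    have hd : Disjoint R' C := by
      rw [Set.disjoint_left]
      intro z hz hzC
      rcases hSC z hzC with h | h
      · exact Set.disjoint_left.1 h1 hz h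
      · exact Set.disjoint_left.1 h2 hz h
    obtain ⟨z1, hz1, -⟩ := second hARB hB1 a
    obtain ⟨u1, hu1, hu1'⟩ := mem_closure_iff.1 (h3 (Or.inr hz1.1)) R hRo (hB1R hz1)
    obtain ⟨z2, hz2, -⟩ := second hARB hB2 a
    obtain ⟨u2, hu2, hu2'⟩ := mem_closure_iff.1 (h3 (Or.inl (Or.inl (Or.inr hz2.1)))) E hEo
      (hB2E hz2)
    rcases side hP hC hCU hR' hR'U hd with h | h
    · exact hEdI u2 hu2 (h hu2')
    · exact (h hu1').2 (Or.inr (hRC hu1))
  have hJcl := hP.clos J hJ hJU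
  rcases side hP hJ hJU hS hSU hSJ with h | h
  · refine fin (U \ (J ∪ ins J)) (hP.out J hJ hJU).isPreconnected sdiff_subset ?_ ?_
      (hP.outc J hJ hJU)
    · rw [Set.disjoint_left]
      exact fun z hz hz' => hz.2 (Or.inr (h hz'))
    · rw [Set.disjoint_left]
      exact fun z hz hz' => hz.2 (Or.inl hz')
  · refine fin (ins J) (hP.conn J hJ hJU).isPreconnected (hP.insU J hJ hJU) ?_
      (hP.disj J hJ hJU) (by rw [hJcl]; exact subset_union_left)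
    rw [Set.disjoint_left]
    exact fun z hz hz' => (h hz').2 (Or.inr hz)

end THB

theorem t_THB : M_THB := by
  intro hARB hGLU hACC hTHA Y _ U V hP C A1 A2 P a b hC hCU hA1 hA2 h12 hI hPa hPi
  obtain ⟨hs1, hs2, hi1, hi2, -⟩ := hTHA Y U V hP C A1 A2 P a b hC hCU hA1 hA2 h12 hI hPa hPi
  exact THB.main hARB hGLU hACC hP hC hCU hA1 hA2 h12 hI hPa hPi hs1 hs2 hi1 hi2

end BBP
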