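import Pool.Agent.BBP.StmtsC

/-!
# Module THE: theta curves, summary
-/

namespace BBP

open Set Topology

theorem t_THE : M_THE := by
  intro hARB hTHA hTHB Y _ U V hPln C A1 A2 P a b hC hCU hA1 hA2 hun hint hP hPC
  obtain ⟨s1, s2, i1, i2, hd⟩ := hTHA Y U V hPln C A1 A2 P a b hC hCU hA1 hA2 hun hint hP hPC
  have hB := hTHB Y U V hPln C A1 A2 P a b hC hCU hA1 hA2 hun hint hP hPC
  obtain ⟨-, ha1, hb1, -⟩ := hARB Y A1 a b hA1
  obtain ⟨-, haP, hbP, -⟩ := hARB Y P a b hP
  have hdC : Disjoint (ins C) C := hPln.disj C hC hCU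
  have hA1C : A1 ⊆ C := by rw [← hun]; exact subset_union_left
  have hA2C : A2 ⊆ C := by rw [← hun]; exact subset_union_right
  have hPsub : P ⊆ C ∪ ins C := by
    intro x hx
    by_cases h : x ∈ ({a, b} : Set Y)
    · left
      rcases h with rfl | h
      · exact hA1C ha1
      · rw [mem_singleton_iff] at h
        rw [h]
        exact hA1C hb1
    · right
      exact hPC ⟨hx, h⟩
  refine ⟨s1, s2, hPsub, fun x hx => (i1 hx).1, fun x hx => (i2 hx).1, ?_, ?_, hd, ?_, ?_, hB⟩
  · rw [Set.disjoint_left]
    exact fun x hx hxP => (i1 hx).2 hxP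
  · rw [Set.disjoint_left]
    exact fun x hx hxP => (i2 hx).2 hxP
  · apply Subset.antisymm
    · rintro x (((hx | hx) | hx) | ((hx | hx) | hx))
      · exact Or.inl (hA1C hx)
      · exact hPsub hx
      · exact Or.inr (i1 hx).1
      · exact Or.inl (hA2C hx)
      · exact hPsub hx
      · exact Or.inr (i2 hx).1
    · rintro x (hx | hx)
      · rw [← hun] at hx
        rcases hx with hx | hx
        · exact Or.inl (Or.inl (Or.inl hx))
        · exact Or.inr (Or.inl (Or.inl hx))
      · rcases hB hx with (h | h) | h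
        · exact Or.inl (Or.inr h)
        · exact Or.inr (Or.inr h)
        · exact Or.inl (Or.inl (Or.inr h))
  · apply Subset.antisymm
    · rintro x ⟨(hx | hx) | hx, (hy | hy) | hy⟩
      · have : x ∈ A1 ∩ A2 := ⟨hx, hy⟩
        rw [hint] at this
        rcases this with h | h
        · rw [h]
          exact haP
        · rw [mem_singleton_iff] at h
          rw [h]
          exact hbP
      · exact hy
      · exact absurd (hA1C hx) (Set.disjoint_left.1 hdC (i2 hy).1)
      · exact hx
      · exact hx
      · exact hx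
      · exact absurd (hA2C hy) (Set.disjoint_left.1 hdC (i1 hx).1)
      · exact hy
      · exact absurd hy (Set.disjoint_left.1 hd hx)
    · intro x hx
      exact ⟨Or.inl (Or.inr hx), Or.inl (Or.inr hx)⟩

end BBP
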