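import Pool.Agent.BBP.StmtsC

/-!
# BBP, module ULC: the inside of a simple closed curve is uniformly locally connected
-/

set_option autoImplicit false

namespace BBP

open Set Topology Metric
open Pool.Agent.LIX (CLog)

theorem t_ULC : M_ULC := by
  intro hSCB hARB Y _ U V h C hC hCV x hx W hW hxW
  have := h.lc
  have := h.lpc
  have hCU : C ⊆ U := hCV.trans h.sub
  obtain ⟨hCc, -, -, hiv, -, -, -⟩ := hSCB Y C hC
  -- a small neighbourhood
  obtain ⟨W', hW'o, hxW', hW'cl, hW'c⟩ := exists_open_between_and_isCompact_closure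
    (isCompact_singleton (x := x)) (hW.inter h.opV) (singleton_subset_iff.2 ⟨hxW, hCV hx⟩)
  rw [singleton_subset_iff] at hxW'
  obtain ⟨A, B, a, b, hA, -, hAB, -, hxB, hxA, hBW⟩ := hiv x hx W' hW'o hxW'
  obtain ⟨-, -, -, -, hAc, hAconn, -⟩ := hARB Y A a b hA
  have hAC : A ⊆ C := hAB ▸ subset_union_left
  have hop : IsOpen (W' \ A) := hW'o.sdiff hAc.isClosed
  have hxWA : x ∈ W' \ A := ⟨hxW', hxA⟩
  refine ⟨pathComponentIn (W' \ A) x, ?_, hop.pathComponentIn x,
    mem_pathComponentIn_self hxWA, ?_⟩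
  · exact fun y hy => (hW'cl (subset_closure (pathComponentIn_subset hy).1)).1
  rintro y ⟨hy1, hy2⟩ z ⟨hz1, hz2⟩
  have hj : JoinedIn (W' \ A) y z := (JoinedIn.symm hy1).trans hz1
  have hins : IsPathConnected (ins C) :=
    ((h.opn C hC hCU).isConnected_iff_isPathConnected).1 (h.conn C hC hCU)
  have hj1 : JoinedIn (V \ C) y z := (hins.joinedIn y hy2 z hz2).mono fun p hp =>
    ⟨h.insV C hC hCV hp, fun hpC => disjoint_left.1 (h.disj C hC hCU) hp hpC⟩
  have hj2 : JoinedIn (V \ (A ∪ (closure W' \ W'))) y z := hj.mono fun p hp =>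
    ⟨(hW'cl (subset_closure hp.1)).2, fun hp' => hp'.elim hp.2 fun h' => h'.2 hp.1⟩
  have hint : C ∩ (A ∪ (closure W' \ W')) = A := by
    ext p
    constructor
    · rintro ⟨hp1, hp2 | hp2⟩
      · exact hp2
      · rw [← hAB] at hp1
        rcases hp1 with hp1 | hp1
        · exact hp1
        · exact absurd (hBW hp1) hp2.2
    · exact fun hp => ⟨hAC hp, Or.inl hp⟩
  obtain ⟨γ, hγ⟩ := h.jan C (A ∪ (closure W' \ W')) hCc
    (hAc.union (hW'c.diff hW'o)) hCV
    (union_subset (hAC.trans hCV) fun p hp => (hW'cl hp.1).2)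
    (by rw [hint]; exact hAconn) y z hj1 hj2
  have hpc : IsPreconnected (range γ) := isPreconnected_range γ.continuous
  have hyr : y ∈ range γ := ⟨0, γ.source⟩
  have h1 : range γ ⊆ ins C := by
    refine hpc.subset_of_closure_inter_subset (h.opn C hC hCU) ⟨y, hyr, hy2⟩ ?_
    rintro p ⟨hp1, t, rfl⟩
    rw [h.clos C hC hCU] at hp1
    rcases hp1 with hp1 | hp1
    · exact absurd (Or.inl hp1) (hγ t).2
    · exact hp1
  have h2 : range γ ⊆ W' := by
    refine hpc.subset_of_closure_inter_subset hW'o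
      ⟨y, hyr, (pathComponentIn_subset hy1).1⟩ ?_
    rintro p ⟨hp1, t, rfl⟩
    by_contra hp2
    exact (hγ t).2 (Or.inr (Or.inr ⟨hp1, hp2⟩))
  exact ⟨γ, fun t => ⟨(hW'cl (subset_closure (h2 ⟨t, rfl⟩))).1, h1 ⟨t, rfl⟩⟩⟩

end BBP
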