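import Pool.Agent.BBP.StmtsC

/-!
# MP_6eac38_gt, part 3: module XCT (cross-cuts)
-/

set_option autoImplicit false

namespace BBP

theorem t_XCT : M_XCT := by
  intro hA hP Y _ U V h C hC hCV a ha b hb hab
  have hCU : C ⊆ U := hCV.trans h.sub
  exact hA.2 Y h.lpc (ins C) a b (h.opn C hC hCU) (h.conn C hC hCU) hab
    (hP Y U V h C hC hCV a ha) (hP Y U V h C hC hCV b hb)

end BBP
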