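import Pool.Agent.BBP.StmtsD

/-!
# BBP, module ARZ: an arc in the second factor
-/

set_option autoImplicit false

namespace BBP

open Set Topology Metric CTO

theorem t_ARZ : M_ARZ := by
  intro hLCA hPTA X K Z _ _ _ _ _ _ e A B b0 hX he hinj hop hA hb0 hiso
  obtain ⟨k, hk⟩ := hA
  have : Nonempty (K × Z) := ⟨(k, b0)⟩
  obtain ⟨W1, _, hW1o, hxW1, H, hH, hH0, hH1, hHW⟩ :=
    hLCA X hX (e (k, b0)) (e '' (A ×ˢ B)) hop ⟨(k, b0), ⟨hk, hb0⟩, rfl⟩
  have hek : Continuous fun b : Z => e (k, b) := he.comp (by fun_prop)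
  obtain ⟨b1, hb1, hne⟩ := hiso ((fun b : Z => e (k, b)) ⁻¹' W1) (hW1o.preimage hek) hxW1
  have hb1W : e (k, b1) ∈ W1 := hb1
  set p : ℝ → K × Z := fun t => Function.invFun e (H (e (k, b1), t)) with hp
  have hep : ∀ t ∈ Icc (0 : ℝ) 1, e (p t) = H (e (k, b1), t) := by
    intro t ht
    obtain ⟨q, _, hq⟩ := hHW _ hb1W t ht
    exact Function.invFun_eq ⟨q, hq⟩
  have hemb : IsClosedEmbedding e := he.isClosedEmbedding hinj
  have hpc : ContinuousOn p (Icc 0 1) := by
    rw [hemb.isInducing.continuousOn_iff]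
    have h1 : ContinuousOn (fun t : ℝ => H (e (k, b1), t)) (Icc 0 1) := by
      refine hH.comp (by fun_prop) ?_
      intro t ht
      exact ⟨hb1W, ht⟩
    exact h1.congr fun t ht => hep t ht
  have hp0 : p 0 = (k, b1) := by
    simp only [hp]
    rw [hH0 _ hb1W]
    exact Function.leftInverse_invFun hinj _
  have hp1 : p 1 = (k, b0) := by
    simp only [hp]
    rw [hH1 _ hb1W]
    exact Function.leftInverse_invFun hinj _
  have hqc : ContinuousOn (fun t => (p t).2) (Icc 0 1) := continuous_snd.comp_continuousOn hpc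
  have hq : (fun t => (p t).2) 0 ≠ (fun t => (p t).2) 1 := by
    show (p 0).2 ≠ (p 1).2
    rw [hp0, hp1]
    exact hne
  obtain ⟨A', _, α, hα1, hα2, _⟩ := hPTA.1 Z (fun t => (p t).2) hqc hq
  exact ⟨α, hα1, hα2⟩

end BBP
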