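import Pool.Agent.BBP.StmtsD

/-!
# BBP: the factor of a product is plane-like
-/

set_option autoImplicit false

namespace BBP

open Set Topology Metric CTO
open Pool.Agent.LIX (CLog)

namespace AXY

theorem glue {Z : Type} [TopologicalSpace Z] {A B : Set Z} (hA : IsClosed A) (hB : IsClosed B)
    {F1 F2 : Z → ℂ} (h1 : ContinuousOn F1 A) (h2 : ContinuousOn F2 B)
    (heq : ∀ x ∈ A, x ∈ B → F1 x = F2 x) (n1 : ∀ x ∈ A, F1 x ≠ 0) (n2 : ∀ x ∈ B, F2 x ≠ 0) :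
    ∃ F : Z → ℂ, ContinuousOn F (A ∪ B) ∧ (∀ x ∈ A ∪ B, F x ≠ 0) ∧ EqOn F F1 A ∧
      EqOn F F2 B := by
  classical
  have e1 : EqOn (fun x => if x ∈ A then F1 x else F2 x) F1 A := fun x hx => if_pos hx
  have e2 : EqOn (fun x => if x ∈ A then F1 x else F2 x) F2 B := by
    intro x hx
    show (if x ∈ A then F1 x else F2 x) = F2 x
    split_ifs with h
    · exact heq x h hx
    · rfl
  refine ⟨fun x => if x ∈ A then F1 x else F2 x,
    (h1.congr e1).union_of_isClosed (h2.congr e2) hA hB, ?_, e1, e2⟩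
  rintro x (hx | hx)
  · rw [e1 hx]
    exact n1 x hx
  · rw [e2 hx]
    exact n2 x hx

/-- functions on a subset, extended by a constant -/
theorem exists_ext {Z : Type} [TopologicalSpace Z] (A : Set Z) (G : A → ℂ) :
    ∃ Gt : Z → ℂ, (∀ y : A, Gt y = G y) ∧
      ∀ B : Set A, ContinuousOn G B → ContinuousOn Gt (Subtype.val '' B) := by
  classical
  refine ⟨fun z => if h : z ∈ A then G ⟨z, h⟩ else 0, ?_, ?_⟩
  · rintro ⟨y, hy⟩
    exact dif_pos hy
  · intro B hB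
    rw [IsInducing.subtypeVal.continuousOn_image_iff]
    refine hB.congr ?_
    rintro ⟨y, hy⟩ _
    exact dif_pos hy

section

variable {K : Type} [MetricSpace K] [CompactSpace K] {L : Set K} {f : K → ℂ}

theorem conn (h : MinK L f) : ConnectedSpace (Lᶜ : Set K) := by
  rw [connectedSpace_iff_clopen]
  have hLo : IsOpen Lᶜ := h.cl.isOpen_compl
  refine ⟨?_, ?_⟩
  · by_contra hne
    apply h.ess
    have hL : L = univ := by
      rw [eq_univ_iff_forall]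
      intro x
      by_contra hx
      exact hne ⟨⟨x, hx⟩⟩
    rw [← hL]
    exact ⟨f, h.cont, h.ne, fun _ _ => rfl⟩
  · intro s hs
    by_contra hcon
    push Not at hcon
    obtain ⟨hs1, hs2⟩ := hcon
    have ho1 : IsOpen (Subtype.val '' s : Set K) := hLo.isOpenMap_subtype_val s hs.isOpen
    have ho2 : IsOpen (Subtype.val '' sᶜ : Set K) := hLo.isOpenMap_subtype_val _ hs.compl.isOpen
    have hn1 : (Subtype.val '' s : Set K).Nonempty := hs1.image _
    have hn2 : (Subtype.val '' sᶜ : Set K).Nonempty :=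
      (nonempty_compl.2 hs2).image _
    have hd : ∀ t : Set (Lᶜ : Set K), Disjoint (Subtype.val '' t : Set K) L := by
      intro t
      rw [Set.disjoint_left]
      rintro _ ⟨y, -, rfl⟩ hy
      exact y.2 hy
    obtain ⟨F1, c1, n1, q1⟩ := h.min _ ho1 hn1 (hd s)
    obtain ⟨F2, c2, n2, q2⟩ := h.min _ ho2 hn2 (hd sᶜ)
    have heq : ∀ x ∈ (Subtype.val '' s : Set K)ᶜ, x ∈ (Subtype.val '' sᶜ : Set K)ᶜ →
        F1 x = F2 x := by
      intro x h1 h2
      have hx : x ∈ L := by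
        by_contra hx
        by_cases hxs : (⟨x, hx⟩ : (Lᶜ : Set K)) ∈ s
        · exact h1 ⟨_, hxs, rfl⟩
        · exact h2 ⟨_, hxs, rfl⟩
      rw [q1 hx, q2 hx]
    obtain ⟨F, a1, a2, a3, -⟩ := glue ho1.isClosed_compl ho2.isClosed_compl c1 c2 heq n1 n2
    have hu : (Subtype.val '' s : Set K)ᶜ ∪ (Subtype.val '' sᶜ : Set K)ᶜ = univ := by
      rw [eq_univ_iff_forall]
      intro x
      by_contra hx
      rw [mem_union, not_or, notMem_compl_iff, notMem_compl_iff] at hx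
      obtain ⟨⟨y, hy, rfl⟩, ⟨z, hz, hzy⟩⟩ := hx
      rw [Subtype.val_injective hzy] at hz
      exact hz hy
    rw [hu] at a1 a2
    refine h.ess ⟨F, a1, a2, fun x hx => ?_⟩
    have hx1 : x ∈ (Subtype.val '' s : Set K)ᶜ := fun hx' => Set.disjoint_left.1 (hd s) hx' hx
    rw [a3 hx1, q1 hx]

theorem ncpt (h : MinK L f) : ¬ CompactSpace (Lᶜ : Set K) := by
  intro hc
  have h1 : IsClosed Lᶜ := (isCompact_iff_compactSpace.2 hc).isClosed
  obtain ⟨F, a1, a2, a3, -⟩ := glue (F1 := f) (F2 := fun _ => 1) h.cl h1 h.cont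
    continuousOn_const (fun x hx hx' => absurd hx hx') h.ne (fun _ _ => one_ne_zero)
  rw [union_compl_self] at a1 a2
  exact h.ess ⟨F, a1, a2, a3⟩

theorem nonext (h : MinK L f) : ∃ (L' K' : Set (Lᶜ : Set K)) (f' : (Lᶜ : Set K) → ℂ),
    IsCompact L' ∧ IsCompact K' ∧ L' ⊆ K' ∧ ContinuousOn f' L' ∧ (∀ x ∈ L', f' x ≠ 0) ∧
      ¬ ExtC L' K' f' := by
  obtain ⟨⟨x, hx⟩⟩ := (conn h).toNonempty
  have hLo : IsOpen Lᶜ := h.cl.isOpen_compl
  obtain ⟨W, hWo, hxW, hWc⟩ : ∃ W : Set K, IsOpen W ∧ x ∈ W ∧ closure W ⊆ Lᶜ := by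
    obtain ⟨W, hW1, hW2, hW3⟩ := exists_mem_nhds_isClosed_subset (hLo.mem_nhds hx)
    refine ⟨interior W, isOpen_interior, mem_interior_iff_mem_nhds.2 hW1, ?_⟩
    exact (closure_minimal interior_subset hW2).trans hW3
  have hWL : Disjoint W L := by
    rw [Set.disjoint_left]
    intro y hy hy'
    exact hWc (subset_closure hy) hy'
  obtain ⟨F, c1, n1, q1⟩ := h.min W hWo ⟨x, hxW⟩ hWL
  have himg : ∀ A : Set K, A ⊆ Lᶜ → Subtype.val '' (Subtype.val ⁻¹' A : Set (Lᶜ : Set K)) = A := by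
    intro A hA
    rw [Subtype.image_preimage_coe, inter_eq_right.2 hA]
  have hcpt : ∀ A : Set K, IsClosed A → A ⊆ Lᶜ →
      IsCompact (Subtype.val ⁻¹' A : Set (Lᶜ : Set K)) := by
    intro A hA hA2
    rw [Subtype.isCompact_iff, himg A hA2]
    exact hA.isCompact
  have hB : IsClosed (closure W \ W) := isClosed_closure.sdiff hWo
  refine ⟨Subtype.val ⁻¹' (closure W \ W), Subtype.val ⁻¹' (closure W), fun y => F y,
    hcpt _ hB (diff_subset.trans hWc), hcpt _ isClosed_closure hWc,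
    preimage_mono diff_subset, ?_, ?_, ?_⟩
  · refine c1.comp continuous_subtype_val.continuousOn ?_
    intro y hy
    exact hy.2
  · intro y hy
    exact n1 y hy.2
  · rintro ⟨G, g1, g2, g3⟩
    obtain ⟨Gt, t1, t2⟩ := exists_ext (Lᶜ) G
    have t3 := t2 _ g1
    rw [himg _ hWc] at t3
    have hGF : ∀ y ∈ closure W, y ∈ Wᶜ → Gt y = F y := by
      intro y hy hy'
      have e1 := t1 ⟨y, hWc hy⟩
      have e2 := g3 (show (⟨y, hWc hy⟩ : (Lᶜ : Set K)) ∈ Subtype.val ⁻¹' (closure W \ W) from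
        ⟨hy, hy'⟩)
      exact e1.trans e2
    have hGn : ∀ y ∈ closure W, Gt y ≠ 0 := by
      intro y hy
      have e1 := t1 ⟨y, hWc hy⟩
      rw [e1]
      exact g2 ⟨y, hWc hy⟩ hy
    obtain ⟨H, a1, a2, -, a4⟩ := glue isClosed_closure hWo.isClosed_compl t3 c1 hGF hGn n1
    have hu : closure W ∪ Wᶜ = univ := by
      rw [eq_univ_iff_forall]
      intro y
      by_cases hy : y ∈ W
      · exact Or.inl (subset_closure hy)
      · exact Or.inr hy
    rw [hu] at a1 a2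
    refine h.ess ⟨H, a1, a2, fun y hy => ?_⟩
    have hy' : y ∈ Wᶜ := fun hyW => Set.disjoint_left.1 hWL hyW hy
    rw [a4 hy', q1 hy]

end

/-- the middle of the interval -/
noncomputable def half : Icc (0 : ℝ) 1 := ⟨1 / 2, by norm_num, by norm_num⟩

theorem half_mem : half ∈ ({⟨0, by norm_num, by norm_num⟩, ⟨1, by norm_num, by norm_num⟩} :
    Set (Icc (0 : ℝ) 1))ᶜ := by
  intro h
  rw [mem_insert_iff, mem_singleton_iff] at h
  rcases h with h | h
  · have h2 := congrArg Subtype.val h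
    simp only [half] at h2
    norm_num at h2
  · have h2 := congrArg Subtype.val h
    simp only [half] at h2
    norm_num at h2

section main

variable {X K : Type} [MetricSpace X] [MetricSpace K] [CompactSpace K]

theorem open_img {Z : Type} [TopologicalSpace Z] [CompactSpace Z] {e : K × Z → X}
    (he : Continuous e) (hi : Function.Injective e) {O V : Set (K × Z)} (hO : IsOpen (e '' O))
    (hV : IsOpen V) (hVO : V ⊆ O) : IsOpen (e '' V) := by
  have h1 : e '' V = e '' O ∩ (e '' Vᶜ)ᶜ := by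
    ext z
    constructor
    · rintro ⟨p, hp, rfl⟩
      refine ⟨⟨p, hVO hp, rfl⟩, ?_⟩
      rintro ⟨p', hp', hpp⟩
      rw [hi hpp] at hp'
      exact hp' hp
    · rintro ⟨⟨p, hp, rfl⟩, h⟩
      refine ⟨p, ?_, rfl⟩
      by_contra hpV
      exact h ⟨p, hpV, rfl⟩
  rw [h1]
  exact hO.inter (hV.isClosed_compl.isCompact.image he).isClosed.isOpen_compl

theorem loc [CompactSpace X] (hLCA : S_LCA) (hX : IsANR X) {e : K × Icc (0 : ℝ) 1 → X}
    {L : Set K} (hL : IsClosed L) (he : Continuous e) (hi : Function.Injective e)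
    {J : Set (Icc (0 : ℝ) 1)} (hJ : half ∈ J) (hJo : IsOpen J) (hO : IsOpen (e '' (Lᶜ ×ˢ J)))
    (x : (Lᶜ : Set K)) (W : Set (Lᶜ : Set K)) (hW : IsOpen W) (hxW : x ∈ W) :
    ∃ W1 ⊆ W, IsOpen W1 ∧ x ∈ W1 ∧ ∃ H : (Lᶜ : Set K) × ℝ → (Lᶜ : Set K),
      ContinuousOn H (W1 ×ˢ Icc 0 1) ∧ (∀ y ∈ W1, H (y, 0) = y) ∧ (∀ y ∈ W1, H (y, 1) = x) ∧
      ∀ y ∈ W1, ∀ t ∈ Icc (0 : ℝ) 1, H (y, t) ∈ W := by
  classical
  have hV : IsOpen ((Subtype.val '' W : Set K) ×ˢ J) :=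
    (hL.isOpen_compl.isOpenMap_subtype_val W hW).prod hJo
  have hVO : (Subtype.val '' W : Set K) ×ˢ J ⊆ Lᶜ ×ˢ J := by
    rintro ⟨_, j⟩ ⟨⟨y, -, rfl⟩, hj⟩
    exact ⟨y.2, hj⟩
  obtain ⟨U, -, hUo, hxU, H, hH, h0, h1, hm⟩ := hLCA X hX (e (x.1, half))
    (e '' ((Subtype.val '' W : Set K) ×ˢ J)) (open_img he hi hO hV hVO)
    ⟨(x.1, half), ⟨⟨x, hxW, rfl⟩, hJ⟩, rfl⟩
  have hemb : IsEmbedding e := (he.isClosedEmbedding hi).isEmbedding
  have hne : Nonempty (K × Icc (0 : ℝ) 1) := ⟨(x.1, half)⟩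
  have hg : ∀ q, Function.invFun e (e q) = q := Function.leftInverse_invFun hi
  let j : (Lᶜ : Set K) → X := fun y => e (y.1, half)
  have hj : Continuous j := he.comp (continuous_subtype_val.prodMk continuous_const)
  let Q : (Lᶜ : Set K) × ℝ → K × Icc (0 : ℝ) 1 := fun p => Function.invFun e (H (j p.1, p.2))
  let U1 : Set (Lᶜ : Set K) := {y | y ∈ W ∧ j y ∈ U}
  have hQ : ∀ p ∈ U1 ×ˢ Icc (0 : ℝ) 1, e (Q p) = H (j p.1, p.2) ∧
      ∃ y ∈ W, y.1 = (Q p).1 := by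
    rintro ⟨y, t⟩ ⟨hy, ht⟩
    obtain ⟨q, ⟨⟨z, hz, hzq⟩, hq2⟩, hq⟩ := hm (j y) hy.2 t ht
    have hQq : Q (y, t) = q := by
      show Function.invFun e (H (j y, t)) = q
      rw [← hq, hg]
    rw [hQq]
    exact ⟨hq, z, hz, hzq⟩
  have hQc : ContinuousOn Q (U1 ×ˢ Icc (0 : ℝ) 1) := by
    rw [hemb.continuousOn_iff]
    have h2 : ContinuousOn (fun p : (Lᶜ : Set K) × ℝ => H (j p.1, p.2))
        (U1 ×ˢ Icc (0 : ℝ) 1) := by
      refine hH.comp ((hj.comp continuous_fst).prodMk continuous_snd).continuousOn ?_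
      rintro ⟨y, t⟩ ⟨hy, ht⟩
      exact ⟨hy.2, ht⟩
    exact h2.congr fun p hp => (hQ p hp).1
  let H2 : (Lᶜ : Set K) × ℝ → (Lᶜ : Set K) := fun p =>
    if h : (Q p).1 ∈ Lᶜ then ⟨(Q p).1, h⟩ else x
  have hH2 : ∀ p ∈ U1 ×ˢ Icc (0 : ℝ) 1, H2 p ∈ W ∧ (H2 p).1 = (Q p).1 := by
    intro p hp
    obtain ⟨y, hy, hyq⟩ := (hQ p hp).2
    have hmem : (Q p).1 ∈ Lᶜ := by
      rw [← hyq]
      exact y.2
    have e1 : H2 p = ⟨(Q p).1, hmem⟩ := dif_pos hmem
    rw [e1]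
    refine ⟨?_, rfl⟩
    have e2 : (⟨(Q p).1, hmem⟩ : (Lᶜ : Set K)) = y := Subtype.ext hyq.symm
    rw [e2]
    exact hy
  refine ⟨U1, fun y hy => hy.1, hW.inter (hUo.preimage hj), ⟨hxW, hxU⟩, H2, ?_, ?_, ?_, ?_⟩
  · rw [IsEmbedding.subtypeVal.continuousOn_iff]
    exact (continuous_fst.comp_continuousOn hQc).congr fun p hp => (hH2 p hp).2
  · intro y hy
    have hp : (y, (0 : ℝ)) ∈ U1 ×ˢ Icc (0 : ℝ) 1 := ⟨hy, le_rfl, zero_le_one⟩
    apply Subtype.ext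
    rw [(hH2 _ hp).2]
    show (Function.invFun e (H (j y, 0))).1 = y.1
    rw [h0 _ hy.2]
    show (Function.invFun e (e (y.1, half))).1 = y.1
    rw [hg]
  · intro y hy
    have hp : (y, (1 : ℝ)) ∈ U1 ×ˢ Icc (0 : ℝ) 1 := ⟨hy, zero_le_one, le_rfl⟩
    apply Subtype.ext
    rw [(hH2 _ hp).2]
    show (Function.invFun e (H (j y, 1))).1 = x.1
    rw [h1 _ hy.2, hg]
  · intro y hy t ht
    exact (hH2 (y, t) ⟨hy, ht⟩).1

theorem om [CompactSpace X] (hOPA : S_OPA) (hMNI : S_MNI) (hX : IsANR X) (hHom : Homog X)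
    (hShr : ShrLE X 3) {e : K × Icc (0 : ℝ) 1 → X} {L : Set K} (he : Continuous e)
    (hi : Function.Injective e) (L' K' : Set (Lᶜ : Set K)) (f' : (Lᶜ : Set K) → ℂ)
    (hL' : IsCompact L') (hK' : IsCompact K') (hLK : L' ⊆ K') (hc : ContinuousOn f' L')
    (hn : ∀ x ∈ L', f' x ≠ 0) (hess : ¬ ExtC L' K' f')
    (hmin : ∀ W : Set (Lᶜ : Set K), IsOpen W → (W ∩ (K' \ L')).Nonempty →
      ExtC L' ((K' \ W) ∪ L') f') : IsOpen (K' \ L') := by
  have hcs : CompactSpace K' := isCompact_iff_compactSpace.1 hK'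
  have hM : MinK (Subtype.val ⁻¹' L' : Set K') (fun k : K' => f' k.1) := by
    refine ⟨hL'.isClosed.preimage continuous_subtype_val,
      hc.comp continuous_subtype_val.continuousOn (fun k hk => hk), fun k hk => hn _ hk, ?_, ?_⟩
    · rintro ⟨F, c, n, q⟩
      obtain ⟨Ft, t1, t2⟩ := exists_ext K' F
      have t3 := t2 univ c
      rw [image_univ, Subtype.range_coe] at t3
      refine hess ⟨Ft, t3, fun y hy => ?_, fun y hy => ?_⟩
      · rw [t1 ⟨y, hy⟩]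
        exact n _ (mem_univ _)
      · exact (t1 ⟨y, hLK hy⟩).trans (q (show (⟨y, hLK hy⟩ : K') ∈ Subtype.val ⁻¹' L' from hy))
    · intro W hWo hWn hWd
      obtain ⟨W', hW'o, rfl⟩ := isOpen_induced_iff.1 hWo
      obtain ⟨k, hk⟩ := hWn
      obtain ⟨F, c, n, q⟩ := hmin W' hW'o ⟨k.1, hk, k.2, fun hkL => Set.disjoint_left.1 hWd hk hkL⟩
      refine ⟨fun k => F k.1, ?_, ?_, ?_⟩
      · exact c.comp continuous_subtype_val.continuousOn (fun k hk => Or.inl ⟨k.2, hk⟩)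
      · intro k hk
        exact n _ (Or.inl ⟨k.2, hk⟩)
      · intro k hk
        exact q hk
  have he2 : Continuous (fun p : K' × Icc (0 : ℝ) 1 => e (p.1.1.1, p.2)) := by
    refine he.comp (Continuous.prodMk ?_ continuous_snd)
    exact continuous_subtype_val.comp (continuous_subtype_val.comp continuous_fst)
  have hi2 : Function.Injective (fun p : K' × Icc (0 : ℝ) 1 => e (p.1.1.1, p.2)) := by
    rintro ⟨p1, p2⟩ ⟨q1, q2⟩ h
    have h2 := hi h
    rw [Prod.mk.injEq] at h2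
    obtain ⟨h3, h4⟩ := h2
    rw [Prod.mk.injEq]
    exact ⟨Subtype.ext (Subtype.ext h3), h4⟩
  have hO := hOPA X K' (Icc (0 : ℝ) 1) hX hHom hShr _ _ _ _ _ he2 hi2 hM hMNI
  have hpre : K' \ L' = (fun y : (Lᶜ : Set K) => e (y.1, half)) ⁻¹'
      ((fun p : K' × Icc (0 : ℝ) 1 => e (p.1.1.1, p.2)) ''
        ((Subtype.val ⁻¹' L' : Set K')ᶜ ×ˢ
          ({⟨0, by norm_num, by norm_num⟩, ⟨1, by norm_num, by norm_num⟩} :
            Set (Icc (0 : ℝ) 1))ᶜ)) := by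
    ext y
    constructor
    · rintro ⟨h1, h2⟩
      exact ⟨(⟨y, h1⟩, half), ⟨h2, half_mem⟩, rfl⟩
    · rintro ⟨⟨k, z⟩, ⟨h1, -⟩, h3⟩
      have h4 := hi h3
      rw [Prod.mk.injEq] at h4
      have h5 : k.1 = y := Subtype.ext h4.1
      rw [← h5]
      exact ⟨k.2, h1⟩
  rw [hpre]
  exact hO.preimage (he.comp (continuous_subtype_val.prodMk continuous_const))

end main

end AXY

/-- The factor of a product is plane-like. -/
theorem t_AXY : M_AXY := by
  intro hLCA hOPA hMNI X K _ _ _ _ e L f hX hHom hShr he hi hmin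
  have hO := hOPA X K (Icc (0 : ℝ) 1) hX hHom hShr e L f _ _ he hi hmin hMNI
  have hJo : IsOpen ({⟨0, by norm_num, by norm_num⟩, ⟨1, by norm_num, by norm_num⟩} :
      Set (Icc (0 : ℝ) 1))ᶜ := ((Set.finite_singleton _).insert _).isClosed.isOpen_compl
  refine ⟨⟨hmin.cl.isOpen_compl.isOpenEmbedding_subtypeVal.locallyCompactSpace, AXY.conn hmin,
    AXY.ncpt hmin, fun x W hW hx => ?_, fun L' K' f' h1 h2 h3 h4 h5 h6 h7 => ?_⟩,
    AXY.nonext hmin⟩
  · exact AXY.loc hLCA hX hmin.cl he hi AXY.half_mem hJo hO x W hW hx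
  · exact AXY.om hOPA hMNI hX hHom hShr he hi L' K' f' h1 h2 h3 h4 h5 h6 h7

end BBP
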