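import Pool.Agent.BBP.StmtsD

/-!
# BBP, module CPL: the plane as an example
-/

set_option autoImplicit false

namespace BBP

open Set Topology Metric Complex

namespace CPL

/-- the parametrised circle -/
noncomputable def circ (r : ℝ) (t : ℝ) : ℂ := r * exp (2 * Real.pi * t * I)

theorem circ_cont (r : ℝ) : Continuous (circ r) := by
  unfold circ
  fun_prop

theorem circ_norm {r : ℝ} (hr : 0 < r) (t : ℝ) : ‖circ r t‖ = r := by
  have h : (2 * Real.pi * t * I : ℂ) = ((2 * Real.pi * t : ℝ) : ℂ) * I := by push_cast; ring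
  rw [circ, h, norm_mul, norm_exp_ofReal_mul_I, mul_one, norm_real, Real.norm_eq_abs,
    abs_of_pos hr]

theorem circ_inj {r : ℝ} (hr : 0 < r) {s t : ℝ} (hs : s ∈ Ico (0 : ℝ) 1) (ht : t ∈ Ico (0 : ℝ) 1)
    (h : circ r s = circ r t) : s = t := by
  have hr0 : (r : ℂ) ≠ 0 := by exact_mod_cast hr.ne'
  have h1 : exp (2 * Real.pi * s * I) = exp (2 * Real.pi * t * I) := mul_left_cancel₀ hr0 h
  rw [exp_eq_exp_iff_exists_int] at h1
  obtain ⟨n, hn⟩ := h1
  have hpi : (2 * Real.pi * I : ℂ) ≠ 0 := by
    simp [Real.pi_ne_zero]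
  have h2 : ((s : ℝ) : ℂ) = ((t + n : ℝ) : ℂ) := by
    have h3 : (2 * Real.pi * I : ℂ) * s = (2 * Real.pi * I) * (t + n) := by
      linear_combination hn
    have h4 := mul_left_cancel₀ hpi h3
    push_cast
    exact h4
  have h5 : s = t + n := by exact_mod_cast h2
  have h6 : (n : ℝ) < 1 := by
    have := hs.2
    have := ht.1
    linarith
  have h7 : (-1 : ℝ) < n := by
    have := hs.1
    have := ht.2
    linarith
  have h8 : n < 1 := by exact_mod_cast h6
  have h9 : -1 < n := by exact_mod_cast h7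
  have h10 : n = 0 := by omega
  rw [h5, h10]
  simp

theorem circ_per (r : ℝ) : Function.Periodic (circ r) 1 := by
  intro t
  have h : (2 * Real.pi * ((t + 1 : ℝ) : ℂ) * I : ℂ) = 2 * Real.pi * t * I + 2 * Real.pi * I := by
    push_cast
    ring
  rw [circ, circ, h, exp_add, exp_two_pi_mul_I, mul_one]

theorem circ_range {r : ℝ} (hr : 0 < r) : range (circ r) = sphere (0 : ℂ) r := by
  apply Subset.antisymm
  · rintro _ ⟨t, rfl⟩
    rw [mem_sphere_zero_iff_norm]
    exact circ_norm hr t
  · intro z hz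
    rw [mem_sphere_zero_iff_norm] at hz
    refine ⟨arg z / (2 * Real.pi), ?_⟩
    have h : (2 * Real.pi * ((arg z / (2 * Real.pi) : ℝ) : ℂ) * I : ℂ) = arg z * I := by
      have hpi : (Real.pi : ℂ) ≠ 0 := by exact_mod_cast Real.pi_ne_zero
      push_cast
      field_simp
    rw [circ, h, ← hz]
    exact norm_mul_exp_arg_mul_I z

theorem circ_scp {r : ℝ} (hr : 0 < r) : Scp (circ r) :=
  ⟨circ_cont r, circ_per r, fun _ hs _ ht h => circ_inj hr hs ht h⟩

theorem scc_sphere {r : ℝ} (hr : 0 < r) : Scc (sphere (0 : ℂ) r) :=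
  ⟨circ r, circ_scp hr, circ_range hr⟩

theorem sphere_union_ball (r : ℝ) : sphere (0 : ℂ) r ∪ ball 0 r = closedBall 0 r := by
  rw [union_comm]
  exact ball_union_sphere

theorem isConnected_ball' {r : ℝ} (hr : 0 < r) : IsConnected (ball (0 : ℂ) r) :=
  ⟨⟨0, mem_ball_self hr⟩, (convex_ball 0 r).isPreconnected⟩

theorem ins_sphere {r : ℝ} (hr : 0 < r) : ins (sphere (0 : ℂ) r) = ball 0 r := by
  apply Subset.antisymm
  · rintro z ⟨Q, ⟨hQo, hQc, hQd, hQk⟩, hzQ⟩
    by_contra hz
    have hz1 : z ∉ sphere (0 : ℂ) r := Set.disjoint_left.mp hQd hzQ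
    rw [mem_ball_zero_iff] at hz
    rw [mem_sphere_zero_iff_norm] at hz1
    have hz2 : r < ‖z‖ := lt_of_le_of_ne (not_lt.mp hz) (Ne.symm hz1)
    -- the ray
    obtain ⟨R, hR⟩ : ∃ R : Set ℂ, R = (fun t : ℝ => (t : ℂ) * z) '' Ici 1 := ⟨_, rfl⟩
    have hRc : IsPreconnected R := by
      rw [hR]
      refine isPreconnected_Ici.image _ (Continuous.continuousOn ?_)
      fun_prop
    have hRd : ∀ w ∈ R, r < ‖w‖ := by
      rintro w hw
      rw [hR] at hw
      obtain ⟨t, ht, rfl⟩ := hw
      have ht1 : (1 : ℝ) ≤ t := ht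
      have h1 : ‖(t : ℂ) * z‖ = t * ‖z‖ := by
        rw [norm_mul, norm_real, Real.norm_eq_abs, abs_of_nonneg (by linarith)]
      show r < ‖(t : ℂ) * z‖
      rw [h1]
      have h2 : 0 ≤ ‖z‖ := norm_nonneg z
      nlinarith
    have hRQ : R ⊆ Q := by
      refine hRc.subset_of_closure_inter_subset hQo ⟨z, ?_, hzQ⟩ ?_
      · rw [hR]
        exact ⟨1, mem_Ici.mpr le_rfl, by simp⟩
      · rintro w ⟨hwc, hwR⟩
        have h1 : closure Q ⊆ sphere (0 : ℂ) r ∪ Q :=
          closure_minimal subset_union_right hQk.isClosed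
        rcases h1 hwc with h | h
        · rw [mem_sphere_zero_iff_norm] at h
          exact absurd h (hRd w hwR).ne'
        · exact h
    obtain ⟨b, hb⟩ := hQk.isBounded.exists_norm_le
    have hzp : 0 < ‖z‖ := hr.trans hz2
    have hmem : (((max 1 ((|b| + 1) / ‖z‖) : ℝ) : ℂ) * z) ∈ R := by
      rw [hR]
      exact ⟨_, mem_Ici.mpr (le_max_left _ _), rfl⟩
    have h1 := hb _ (Or.inr (hRQ hmem))
    have h0 : (0 : ℝ) ≤ max 1 ((|b| + 1) / ‖z‖) := zero_le_one.trans (le_max_left _ _)
    rw [norm_mul, norm_real, Real.norm_eq_abs, abs_of_nonneg h0] at h1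
    have h2 : (|b| + 1) / ‖z‖ * ‖z‖ ≤ max 1 ((|b| + 1) / ‖z‖) * ‖z‖ :=
      mul_le_mul_of_nonneg_right (le_max_right _ _) hzp.le
    rw [div_mul_cancel₀ _ hzp.ne'] at h2
    have h3 := le_abs_self b
    linarith
  · intro z hz
    refine ⟨ball 0 r, ⟨isOpen_ball, isConnected_ball' hr, ?_, ?_⟩, hz⟩
    · rw [Set.disjoint_left]
      intro w hw hw'
      rw [mem_ball_zero_iff] at hw
      rw [mem_sphere_zero_iff_norm] at hw'
      exact hw.ne hw'
    · rw [sphere_union_ball]
      exact isCompact_closedBall _ _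

theorem ax (hOMC : S_OMC) : Ax ℂ where
  lc := inferInstance
  conn := inferInstance
  ncpt := by
    rw [not_compactSpace_iff]
    infer_instance
  loc := by
    intro x W hW hx
    obtain ⟨e, he, heW⟩ := Metric.isOpen_iff.mp hW x hx
    refine ⟨ball x e, heW, isOpen_ball, mem_ball_self he,
      fun p => p.1 + (p.2 : ℂ) * (x - p.1), ?_, ?_, ?_, ?_⟩
    · apply Continuous.continuousOn
      fun_prop
    · intro y _
      simp
    · intro y _
      simp
    · intro y hy t ht
      apply heW
      have h : y + (t : ℂ) * (x - y) = (1 - t) • y + t • x := by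
        simp only [real_smul]
        push_cast
        ring
      show y + (t : ℂ) * (x - y) ∈ ball x e
      rw [h]
      exact (convex_ball x e) hy (mem_ball_self he) (by linarith [ht.2]) ht.1 (by ring)
  om := hOMC

theorem uni (hA : Ax ℂ) :
    Uni (ball (0 : ℂ) 3) (sphere 0 3) (closedBall 0 3) (fun z => z / 3) where
  ax := hA
  scc := scc_sphere (by norm_num)
  gen := by
    refine ⟨circ 3, circ_scp (by norm_num), circ_range (by norm_num), fun t => ?_⟩
    simp [circ]
  mem :=
    { cont := by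
        apply Continuous.continuousOn
        fun_prop
      ne := by
        intro x hx h
        rw [mem_sphere_zero_iff_norm] at hx
        have h1 : x = 0 := by
          have h2 : x / 3 * 3 = 0 := by rw [h, zero_mul]
          rwa [div_mul_cancel₀ _ (by norm_num : (3 : ℂ) ≠ 0)] at h2
        rw [h1, norm_zero] at hx
        norm_num at hx
      cptL := isCompact_sphere _ _
      opn := isOpen_ball
      conn := isConnected_ball' (by norm_num)
      disj := by
        rw [Set.disjoint_left]
        intro w hw hw'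
        rw [mem_ball_zero_iff] at hw
        rw [mem_sphere_zero_iff_norm] at hw'
        exact hw.ne hw'
      clos := by
        refine closure_ball_subset_closedBall.trans ?_
        rw [← ball_union_sphere]
      cpt := by
        rw [sphere_union_ball]
        exact isCompact_closedBall _ _
      ess := by
        rintro ⟨F, hF, hF0, hFe⟩
        rw [sphere_union_ball] at hF hF0
        obtain ⟨z, hz, hz0⟩ := Pool.Agent.LIX.exists_zero_of_sphere (c := 0) (R := 3)
          (by norm_num) (F := fun z => 3 * F z) (continuousOn_const.mul hF) (fun z hz => by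
            have h1 : F z = z / 3 := hFe hz
            show 3 * F z = z - 0
            rw [h1]
            ring)
        rcases mul_eq_zero.mp hz0 with h | h
        · norm_num at h
        · exact hF0 z hz h }
  cptT := isCompact_closedBall _ _
  sub := by
    rw [union_comm, sphere_union_ball]
  contr := by
    intro C _ hCs γ hγ hγr
    refine ⟨fun p => ((1 - p.2 : ℝ) : ℂ) * γ p.1, ?_, ?_, ?_, ?_, ?_⟩
    · apply Continuous.continuousOn
      have h := hγ.1
      fun_prop
    · intro t _
      simp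
    · intro s _
      have h : γ 1 = γ 0 := by
        have := hγ.2.1 0
        rwa [zero_add] at this
      simp only [h]
    · intro t _
      simp
    · rintro ⟨t, s⟩ hq
      have hs : s ∈ Icc (0 : ℝ) 1 := hq.2
      have h1 : γ t ∈ ball (0 : ℂ) 3 := hCs (hγr ▸ mem_range_self t)
      rw [mem_ball_zero_iff] at h1
      show ((1 - s : ℝ) : ℂ) * γ t ∈ closedBall (0 : ℂ) 3
      rw [mem_closedBall_zero_iff, norm_mul, norm_real, Real.norm_eq_abs,
        abs_of_nonneg (by linarith [hs.2])]
      have h2 : 0 ≤ ‖γ t‖ := norm_nonneg _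
      nlinarith [hs.1, hs.2]

end CPL

theorem t_CPL : M_CPL := by
  intro hOMC
  have hA := CPL.ax hOMC
  exact ⟨hA, fun r hr => ⟨CPL.scc_sphere hr, CPL.ins_sphere hr⟩, CPL.uni hA⟩

end BBP
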