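import Pool.Agent.BBP.StmtsD

/-!
# BBP, CPS: functions without zeros on compact proper subsets of a circle have logarithms
-/

set_option autoImplicit false

namespace BBP

open Set Topology Metric CTO
open Pool.Agent.LIX (CLog)

namespace CPS

/-- gluing of logarithms on two closed sets with at most one common point -/
theorem clog_union {X : Type} [TopologicalSpace X] {A B : Set X} (hA : IsClosed A)
    (hB : IsClosed B) {p : X} (hAB : A ∩ B ⊆ {p}) {f : X → ℂ} (h1 : CLog A f) (h2 : CLog B f) :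
    CLog (A ∪ B) f := by
  classical
  obtain ⟨a, ha, hea⟩ := h1
  obtain ⟨b, hb, heb⟩ := h2
  obtain ⟨c, hc1, hc2⟩ : ∃ c : ℂ, Complex.exp c = 1 ∧ ∀ x ∈ A ∩ B, a x = b x + c := by
    by_cases h : (A ∩ B).Nonempty
    · obtain ⟨x, hx⟩ := h
      refine ⟨a x - b x, ?_, ?_⟩
      · rw [Complex.exp_sub, hea x hx.1, heb x hx.2, div_self]
        rw [← hea x hx.1]
        exact Complex.exp_ne_zero _
      · intro z hz
        have h3 : z = x := (hAB hz).trans (hAB hx).symm
        rw [h3]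
        ring
    · exact ⟨0, Complex.exp_zero, fun x hx => absurd ⟨x, hx⟩ h⟩
  have h3 : ∀ x ∈ A, (if x ∈ A then a x else b x + c) = a x := fun x hx => if_pos hx
  have h4 : ∀ x ∈ B, (if x ∈ A then a x else b x + c) = b x + c := by
    intro x hx
    by_cases hxA : x ∈ A
    · rw [if_pos hxA]
      exact hc2 x ⟨hxA, hx⟩
    · rw [if_neg hxA]
  refine ⟨fun x => if x ∈ A then a x else b x + c, ContinuousOn.union_of_isClosed (ha.congr h3)
    ((hb.add continuousOn_const).congr h4) hA hB, ?_⟩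
  rintro x (hx | hx)
  · show Complex.exp (if x ∈ A then a x else b x + c) = f x
    rw [h3 x hx, hea x hx]
  · show Complex.exp (if x ∈ A then a x else b x + c) = f x
    rw [h4 x hx, Complex.exp_add, hc1, mul_one, heb x hx]

/-- compact subsets of the unit interval -/
theorem clog_real {A : Set ℝ} (hA : IsCompact A) (hA1 : A ⊆ Icc 0 1) {g : ℝ → ℂ}
    (hg : ContinuousOn g A) (h0 : ∀ t ∈ A, g t ≠ 0) : CLog A g := by
  rcases A.eq_empty_or_nonempty with rfl | hne
  · exact ⟨fun _ => 0, continuousOn_empty _, fun x hx => absurd hx (Set.notMem_empty x)⟩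
  obtain ⟨t0, ht0, hmin⟩ := hA.exists_isMinOn hne (f := fun t => ‖g t‖) hg.norm
  have hm : 0 < ‖g t0‖ := norm_pos_iff.2 (h0 t0 ht0)
  have huc : UniformContinuousOn g A := hA.uniformContinuousOn_of_continuous hg
  rw [Metric.uniformContinuousOn_iff] at huc
  obtain ⟨δ, hδ, huc⟩ := huc ‖g t0‖ hm
  -- small pieces
  have hpiece : ∀ a b : ℝ, b - a < δ → CLog (A ∩ Icc a b) g := by
    intro a b hab
    rcases (A ∩ Icc a b).eq_empty_or_nonempty with h | ⟨s, hs⟩
    · rw [h]
      exact ⟨fun _ => 0, continuousOn_empty _, fun x hx => absurd hx (Set.notMem_empty x)⟩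
    · refine Pool.Agent.LIX.CLog.of_close (f' := fun _ => g s)
        (Pool.Agent.LIX.cLog_const (h0 s hs.1)) (hg.mono inter_subset_left) ?_
      intro x hx
      have h1 : dist x s < δ := by
        rw [Real.dist_eq, abs_lt]
        constructor
        · linarith [hx.2.1, hs.2.2]
        · linarith [hx.2.2, hs.2.1]
      have h2 := huc x hx.1 s hs.1 h1
      rw [dist_eq_norm] at h2
      exact lt_of_lt_of_le h2 (hmin hs.1)
  obtain ⟨N, hN⟩ := exists_nat_gt (1 / δ)
  have hN0 : (0 : ℝ) < N := lt_trans (by positivity) hN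
  have hstep : ∀ k : ℕ, CLog (A ∩ Icc 0 ((k : ℝ) / N)) g := by
    intro k
    induction k with
    | zero =>
      refine hpiece 0 _ ?_
      rw [Nat.cast_zero, zero_div, sub_zero]
      exact hδ
    | succ k ih =>
      have h1 : A ∩ Icc (0 : ℝ) (((k + 1 : ℕ) : ℝ) / N) =
          (A ∩ Icc 0 ((k : ℝ) / N)) ∪ (A ∩ Icc ((k : ℝ) / N) (((k + 1 : ℕ) : ℝ) / N)) := by
        rw [← inter_union_distrib_left, Icc_union_Icc_eq_Icc (by positivity)]
        exact div_le_div_of_nonneg_right (by push_cast; linarith) hN0.le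
      rw [h1]
      refine clog_union (p := (k : ℝ) / N) (hA.isClosed.inter isClosed_Icc)
        (hA.isClosed.inter isClosed_Icc) ?_ ih (hpiece _ _ ?_)
      · rintro x ⟨⟨-, hx1⟩, ⟨-, hx2⟩⟩
        exact le_antisymm hx1.2 hx2.1
      · rw [← sub_div]
        push_cast
        rw [add_sub_cancel_left]
        rw [div_lt_iff₀ hδ] at hN
        rw [div_lt_iff₀ hN0]
        linarith
  refine Pool.Agent.LIX.CLog.mono (hstep N) fun t ht => ⟨ht, ?_⟩
  rw [div_self hN0.ne']
  exact hA1 ht

end CPS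

open CPS in
theorem t_CPS : S_CPS := by
  intro y r A f hr hAs hAne hAc hf hf0
  obtain ⟨p, hp, hpA⟩ : ∃ p ∈ sphere y r, p ∉ A := by
    by_contra h
    push Not at h
    exact hAne (Subset.antisymm hAs h)
  have hpy : ‖p - y‖ = r := by rwa [mem_sphere_iff_norm] at hp
  have hpy0 : p - y ≠ 0 := by
    rw [← norm_pos_iff, hpy]
    exact hr
  obtain ⟨γ, hγ⟩ : ∃ γ : ℝ → ℂ, ∀ t : ℝ,
      γ t = y + (p - y) * Complex.exp (2 * Real.pi * t * Complex.I) := ⟨_, fun _ => rfl⟩
  have hγc : Continuous γ := by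
    have h : γ = fun t : ℝ => y + (p - y) * Complex.exp (2 * Real.pi * t * Complex.I) :=
      funext hγ
    rw [h]
    fun_prop
  have hγ0 : γ 0 = p := by
    rw [hγ]
    simp
  have hγ1 : γ 1 = p := by
    rw [hγ]
    have h : (2 * Real.pi * ((1 : ℝ) : ℂ) * Complex.I) = 2 * Real.pi * Complex.I := by
      push_cast
      ring
    rw [h, Complex.exp_two_pi_mul_I]
    ring
  have hsurj : ∀ x ∈ sphere y r, ∃ t ∈ Icc (0 : ℝ) 1, γ t = x := by
    intro x hx
    rw [mem_sphere_iff_norm] at hx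
    obtain ⟨z, hz⟩ : ∃ z : ℂ, z = (x - y) / (p - y) := ⟨_, rfl⟩
    have hz1 : ‖z‖ = 1 := by
      rw [hz, norm_div, hx, hpy, div_self hr.ne']
    have hz2 : Complex.exp (Complex.arg z * Complex.I) = z := by
      have h := Complex.norm_mul_exp_arg_mul_I z
      rwa [hz1, Complex.ofReal_one, one_mul] at h
    refine ⟨Int.fract (Complex.arg z / (2 * Real.pi)),
      ⟨Int.fract_nonneg _, (Int.fract_lt_one _).le⟩, ?_⟩
    have h1 : (2 * Real.pi * ((Int.fract (Complex.arg z / (2 * Real.pi)) : ℝ) : ℂ) * Complex.I) =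
        Complex.arg z * Complex.I -
          (⌊Complex.arg z / (2 * Real.pi)⌋ : ℤ) * (2 * Real.pi * Complex.I) := by
      rw [Int.fract]
      push_cast
      have h2 : (Real.pi : ℂ) ≠ 0 := by exact_mod_cast Real.pi_ne_zero
      field_simp
    rw [hγ, h1, Complex.exp_sub, hz2, Complex.exp_int_mul_two_pi_mul_I, div_one, hz]
    field_simp
    ring
  have hAc' : IsCompact {t ∈ Icc (0 : ℝ) 1 | γ t ∈ A} :=
    isCompact_Icc.inter_right (hAc.isClosed.preimage hγc)
  have himg : γ '' {t ∈ Icc (0 : ℝ) 1 | γ t ∈ A} = A := by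
    apply Subset.antisymm
    · rintro x ⟨t, ht, rfl⟩
      exact ht.2
    · intro x hx
      obtain ⟨t, ht, rfl⟩ := hsurj x (hAs hx)
      exact ⟨t, ⟨ht, hx⟩, rfl⟩
  have hIoo : ∀ t ∈ {t ∈ Icc (0 : ℝ) 1 | γ t ∈ A}, 0 < t ∧ t < 1 := by
    rintro t ⟨ht1, ht2⟩
    constructor
    · refine lt_of_le_of_ne ht1.1 fun h => ?_
      rw [← h, hγ0] at ht2
      exact hpA ht2
    · refine lt_of_le_of_ne ht1.2 fun h => ?_
      rw [h, hγ1] at ht2
      exact hpA ht2
  have hinj : InjOn γ {t ∈ Icc (0 : ℝ) 1 | γ t ∈ A} := by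
    intro s hs t ht hst
    rw [hγ, hγ] at hst
    have h1 : Complex.exp (2 * Real.pi * s * Complex.I) =
        Complex.exp (2 * Real.pi * t * Complex.I) :=
      mul_left_cancel₀ hpy0 (add_left_cancel hst)
    rw [Complex.exp_eq_exp_iff_exists_int] at h1
    obtain ⟨n, hn⟩ := h1
    have h2 : (2 * Real.pi * Complex.I : ℂ) ≠ 0 := Complex.two_pi_I_ne_zero
    have h3 : (s : ℂ) = t + n := by
      apply mul_left_cancel₀ h2
      linear_combination hn
    have h4 : s = t + n := by exact_mod_cast h3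
    have h5 := hIoo s hs
    have h6 := hIoo t ht
    have h7 : (n : ℝ) < 1 := by linarith
    have h8 : (-1 : ℝ) < n := by linarith
    have h9 : n < 1 := by exact_mod_cast h7
    have h10 : -1 < n := by exact_mod_cast h8
    have h11 : n = 0 := by omega
    rw [h4, h11, Int.cast_zero, add_zero]
  rw [← himg]
  refine Pool.Agent.LIX.CLog.image hAc' hγc.continuousOn hinj ?_
  refine clog_real hAc' (fun t ht => ht.1) ?_ fun t ht => hf0 _ ht.2
  exact hf.comp hγc.continuousOn fun t ht => ht.2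

end BBP
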