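import Pool.Agent.BBP.StmtsD

/-!
# BBP, block D, module DSC: a disc in `Y`
-/

set_option autoImplicit false

namespace BBP

open Set Topology Metric CTO
open Pool.Agent.LIX (CLog)

theorem t_DSC : M_DSC := by
  intro hUNI hPNT hSML hPLN hCEL hCPL hLIM Y _ hAx hex
  obtain ⟨U, J0, T0, f0, hU⟩ := hUNI Y hAx hex
  obtain ⟨x, hx⟩ := hU.mem.conn.nonempty
  obtain ⟨F, hF⟩ := hPNT Y hAx J0 U f0 x hU.mem hx
  obtain ⟨J, hJ, -, hJU, -, -⟩ :=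
    hSML Y hAx J0 U f0 F x hU.mem hx hF univ isOpen_univ (mem_univ x)
  have hP := hPLN Y U J0 T0 f0 hU J hJ hJU
  obtain ⟨x1, hx1⟩ := hP.connV.nonempty
  obtain ⟨C, hC, hCV, -, -⟩ := hP.sml x1 hx1 univ isOpen_univ (mem_univ x1)
  have hS := hCEL Y U (ins J) hP
  obtain ⟨-, hcirc, hUC⟩ := hCPL
  have hsub : sphere (0 : ℂ) 2 ⊆ ball 0 3 := by
    intro z hz
    rw [mem_sphere] at hz
    rw [mem_ball, hz]
    norm_num
  have hPC := hPLN ℂ _ _ _ _ hUC (sphere 0 2) (hcirc 2 (by norm_num)).1 hsub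
  have hSC := hCEL ℂ _ _ hPC
  have hsub1 : sphere (0 : ℂ) 1 ⊆ ins (sphere (0 : ℂ) 2) := by
    rw [(hcirc 2 (by norm_num)).2]
    intro z hz
    rw [mem_sphere] at hz
    rw [mem_ball, hz]
    norm_num
  obtain ⟨h, h1, h2, -⟩ := hLIM ℂ Y _ _ hSC hS (sphere 0 1) ⟨(hcirc 1 one_pos).1, hsub1⟩ C
    ⟨hC, hCV⟩
  have hcel : cel (sphere (0 : ℂ) 1) = closedBall 0 1 := by
    unfold cel
    rw [(hcirc 1 one_pos).2, sphere_union_ball]
  rw [hcel] at h1 h2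
  exact ⟨h, h1, h2⟩

end BBP
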