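import Pool.Agent.BBP.StmtsD

/-!
# MP_6eac38_gt, part 3: module LIM (the limit homeomorphism)
-/

set_option autoImplicit false

namespace BBP

open Set Topology Metric

namespace LIM

/-- a function with a compact graph is continuous -/
theorem graph {X X' : Type} [MetricSpace X] [MetricSpace X'] {K : Set X} {h : X → X'}
    {R : Set (X × X')} (hR : IsCompact R) (h1 : ∀ x ∈ K, (x, h x) ∈ R)
    (h2 : ∀ x y, (x, y) ∈ R → x ∈ K → y = h x) : ContinuousOn h K := by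
  rw [continuousOn_iff_isClosed]
  intro F hF
  refine ⟨Prod.fst '' (R ∩ Prod.snd ⁻¹' F), ?_, ?_⟩
  · exact ((hR.inter_right (hF.preimage continuous_snd)).image continuous_fst).isClosed
  · ext x
    constructor
    · rintro ⟨hx, hK⟩
      exact ⟨⟨(x, h x), ⟨h1 x hK, hx⟩, rfl⟩, hK⟩
    · rintro ⟨⟨⟨x', y⟩, ⟨hxy, hy⟩, hx⟩, hK⟩
      have hx' : x' = x := hx
      subst hx'
      refine ⟨?_, hK⟩
      show h x' ∈ F
      rw [← h2 _ _ hxy hK]
      exact hy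

section circle

variable {Y Y' : Type} [MetricSpace Y] [MetricSpace Y']

theorem fract_eq {γ : ℝ → Y} (hγ : Scp γ) (t : ℝ) : γ (Int.fract t) = γ t := by
  have h := hγ.2.1.sub_int_mul_eq (x := t) ⌊t⌋
  rw [mul_one] at h
  exact h

/-- two simple closed curves are homeomorphic -/
theorem circle {C : Set Y} {C' : Set Y'} (hC : Scc C) (hC' : Scc C') :
    ∃ g : Y → Y', InjOn g C ∧ ContinuousOn g C ∧ g '' C = C' := by
  obtain ⟨γ, hγ, rfl⟩ := hC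
  obtain ⟨γ', hγ', rfl⟩ := hC'
  have hne : (Ico (0 : ℝ) 1).Nonempty := ⟨0, le_rfl, one_pos⟩
  have hfr : ∀ t : ℝ, Int.fract t ∈ Ico (0 : ℝ) 1 := fun t =>
    ⟨Int.fract_nonneg t, Int.fract_lt_one t⟩
  have hch : ∀ x : Y, ∃ t : ℝ, t ∈ Ico (0 : ℝ) 1 ∧ (x ∈ range γ → γ t = x) := by
    intro x
    by_cases hx : x ∈ range γ
    · obtain ⟨t, rfl⟩ := hx
      exact ⟨Int.fract t, hfr t, fun _ => fract_eq hγ t⟩
    · exact ⟨0, ⟨le_rfl, one_pos⟩, fun h => absurd h hx⟩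
  choose i hi hi' using hch
  have hg : ∀ t, γ' (i (γ t)) = γ' t := by
    intro t
    have h1 : i (γ t) = Int.fract t := by
      apply hγ.2.2 (hi _) (hfr t)
      rw [hi' _ (mem_range_self t), fract_eq hγ]
    rw [h1, fract_eq hγ']
  refine ⟨fun x => γ' (i x), ?_, ?_, ?_⟩
  · intro x hx y hy hxy
    have h1 := hγ'.2.2 (hi x) (hi y) hxy
    rw [← hi' x hx, ← hi' y hy, h1]
  · have hR : IsCompact ((fun t : ℝ => (γ t, γ' t)) '' Icc 0 1) :=
      isCompact_Icc.image (hγ.1.prodMk hγ'.1)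
    refine graph hR ?_ ?_
    · intro x hx
      refine ⟨i x, ⟨(hi x).1, (hi x).2.le⟩, ?_⟩
      show (γ (i x), γ' (i x)) = (x, γ' (i x))
      rw [hi' x hx]
    · rintro x y ⟨t, _, ht⟩ _
      have h1 : γ t = x := congrArg Prod.fst ht
      have h2 : γ' t = y := congrArg Prod.snd ht
      rw [← h1, ← h2]
      exact (hg t).symm
  · ext y
    constructor
    · rintro ⟨x, _, rfl⟩
      exact mem_range_self _
    · rintro ⟨t, rfl⟩
      exact ⟨γ t, mem_range_self t, hg t⟩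

theorem scc_ne {C : Set Y} (hC : Scc C) : C.Nonempty := by
  obtain ⟨γ, _, rfl⟩ := hC
  exact ⟨γ 0, mem_range_self 0⟩

end circle

variable {Y Y' : Type} [MetricSpace Y] [MetricSpace Y'] {S : Set (Set Y)} {S' : Set (Set Y')}

/-- the initial state -/
theorem init (hS : Cel S) (hS' : Cel S') {C : Set Y} {C' : Set Y'} (hC : C ∈ S) (hC' : C' ∈ S') :
    ∃ g : Y → Y', Sta S S' (cel C) (cel C') {(C, C')} g := by
  obtain ⟨g, h1, h2, h3⟩ := circle (hS.scc C hC) (hS'.scc C' hC')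
  have hU : (⋃ q ∈ ({(C, C')} : Set (Set Y × Set Y')), q.1) = C := by
    rw [biUnion_singleton]
  refine ⟨g, finite_singleton _, ?_, ?_, ?_, ?_, ?_, ?_, ?_, ?_⟩
  · intro q hq
    rw [mem_singleton_iff.1 hq]
    exact ⟨hC, hC'⟩
  · intro q hq
    rw [mem_singleton_iff.1 hq]
    exact h3
  · rw [biUnion_singleton]
  · rw [biUnion_singleton]
  · intro q hq r hr hne
    exact absurd ((mem_singleton_iff.1 hq).trans (mem_singleton_iff.1 hr).symm) hne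
  · intro q hq r hr hne
    exact absurd ((mem_singleton_iff.1 hq).trans (mem_singleton_iff.1 hr).symm) hne
  · rw [hU]
    exact h1
  · rw [hU]
    exact h2

/-- the relation of a state -/
def Rel (Sg : Set (Set Y × Set Y')) : Set (Y × Y') := ⋃ q ∈ Sg, cel q.1 ×ˢ cel q.2

variable {K : Set Y} {K' : Set Y'} {Sg : Set (Set Y × Set Y')} {g : Y → Y'}

theorem rel_mem {x : Y} {y : Y'} : (x, y) ∈ Rel Sg ↔ ∃ q ∈ Sg, x ∈ cel q.1 ∧ y ∈ cel q.2 := by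
  constructor
  · intro h
    obtain ⟨q, hq⟩ := mem_iUnion.1 h
    obtain ⟨hq, hxy⟩ := mem_iUnion.1 hq
    exact ⟨q, hq, hxy.1, hxy.2⟩
  · rintro ⟨q, hq, h1, h2⟩
    exact mem_iUnion.2 ⟨q, mem_iUnion.2 ⟨hq, ⟨h1, h2⟩⟩⟩

theorem rel_compact (hS : Cel S) (hS' : Cel S') (h : Sta S S' K K' Sg g) : IsCompact (Rel Sg) :=
  h.fin.isCompact_biUnion fun q hq => (hS.cpt _ (h.mem q hq).1).prod (hS'.cpt _ (h.mem q hq).2)

theorem rel_ref {Sg' : Set (Set Y × Set Y')} (h : Ref Sg Sg') : Rel Sg' ⊆ Rel Sg := by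
  rintro ⟨x, y⟩ hxy
  obtain ⟨q', hq', h1, h2⟩ := rel_mem.1 hxy
  obtain ⟨q, hq, h3, h4⟩ := h q' hq'
  exact rel_mem.2 ⟨q, hq, h3 h1, h4 h2⟩

theorem rel_left (hS' : Cel S') (h : Sta S S' K K' Sg g) {x : Y} (hx : x ∈ K) :
    ∃ y, (x, y) ∈ Rel Sg := by
  rw [← h.cov] at hx
  obtain ⟨q, hq⟩ := mem_iUnion.1 hx
  obtain ⟨hq, hxq⟩ := mem_iUnion.1 hq
  obtain ⟨y, hy⟩ := scc_ne (hS'.scc _ (h.mem q hq).2)
  exact ⟨y, rel_mem.2 ⟨q, hq, hxq, Or.inl hy⟩⟩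

theorem rel_right (hS : Cel S) (h : Sta S S' K K' Sg g) {y : Y'} (hy : y ∈ K') :
    ∃ x, (x, y) ∈ Rel Sg := by
  rw [← h.cov'] at hy
  obtain ⟨q, hq⟩ := mem_iUnion.1 hy
  obtain ⟨hq, hyq⟩ := mem_iUnion.1 hq
  obtain ⟨x, hx⟩ := scc_ne (hS.scc _ (h.mem q hq).1)
  exact ⟨x, rel_mem.2 ⟨q, hq, Or.inl hx, hyq⟩⟩

theorem rel_K (h : Sta S S' K K' Sg g) {x : Y} {y : Y'} (hxy : (x, y) ∈ Rel Sg) :
    x ∈ K ∧ y ∈ K' := by
  obtain ⟨q, hq, h1, h2⟩ := rel_mem.1 hxy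
  rw [← h.cov, ← h.cov']
  exact ⟨mem_iUnion.2 ⟨q, mem_iUnion.2 ⟨hq, h1⟩⟩, mem_iUnion.2 ⟨q, mem_iUnion.2 ⟨hq, h2⟩⟩⟩

/-- small mesh -/
def Sml (ε : ℝ) (Sg : Set (Set Y × Set Y')) : Prop :=
  ∀ q ∈ Sg, (∀ u ∈ cel q.1, ∀ v ∈ cel q.1, dist u v < ε) ∧
    ∀ u ∈ cel q.2, ∀ v ∈ cel q.2, dist u v < ε

theorem uniq_right (h : Sta S S' K K' Sg g) {ε : ℝ} (hε : 0 < ε) (hs : Sml ε Sg) {x : Y}
    {y y' : Y'} (h1 : (x, y) ∈ Rel Sg) (h2 : (x, y') ∈ Rel Sg) : dist y y' < 2 * ε := by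
  obtain ⟨q, hq, hxq, hyq⟩ := rel_mem.1 h1
  obtain ⟨r, hr, hxr, hyr⟩ := rel_mem.1 h2
  by_cases hqr : q = r
  · subst hqr
    have := (hs q hq).2 y hyq y' hyr
    linarith
  · obtain ⟨h3, h4⟩ := h.int q hq r hr hqr ⟨hxq, hxr⟩
    have h5 : g x ∈ q.2 := by
      rw [← h.img q hq]
      exact ⟨x, h3, rfl⟩
    have h6 : g x ∈ r.2 := by
      rw [← h.img r hr]
      exact ⟨x, h4, rfl⟩
    have h7 := (hs q hq).2 y hyq (g x) (Or.inl h5)
    have h8 := (hs r hr).2 (g x) (Or.inl h6) y' hyr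
    have h9 := dist_triangle y (g x) y'
    linarith

theorem uniq_left (h : Sta S S' K K' Sg g) {ε : ℝ} (hε : 0 < ε) (hs : Sml ε Sg) {x x' : Y}
    {y : Y'} (h1 : (x, y) ∈ Rel Sg) (h2 : (x', y) ∈ Rel Sg) : dist x x' < 2 * ε := by
  obtain ⟨q, hq, hxq, hyq⟩ := rel_mem.1 h1
  obtain ⟨r, hr, hxr, hyr⟩ := rel_mem.1 h2
  by_cases hqr : q = r
  · subst hqr
    have := (hs q hq).1 x hxq x' hxr
    linarith
  · obtain ⟨h3, h4⟩ := h.int' q hq r hr hqr ⟨hyq, hyr⟩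
    rw [← h.img q hq] at h3
    rw [← h.img r hr] at h4
    obtain ⟨u, hu, hgu⟩ := h3
    obtain ⟨v, hv, hgv⟩ := h4
    have huv : u = v := by
      apply h.inj (mem_iUnion.2 ⟨q, mem_iUnion.2 ⟨hq, hu⟩⟩)
        (mem_iUnion.2 ⟨r, mem_iUnion.2 ⟨hr, hv⟩⟩)
      rw [hgu, hgv]
    have h7 := (hs q hq).1 x hxq u (Or.inl hu)
    have h8 := (hs r hr).1 u (Or.inl (by rw [huv]; exact hv)) x' hxr
    have h9 := dist_triangle x u x'
    linarith

end LIM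

open LIM in
theorem t_LIM : M_LIM := by
  intro _ _ hM Y Y' _ _ S S' hS hS' C hC C' hC'
  obtain ⟨g0, h0⟩ := init hS hS' hC hC'
  have hK : (cel C).Nonempty := (scc_ne (hS.scc C hC)).mono subset_union_left
  have hK' : (cel C').Nonempty := (scc_ne (hS'.scc C' hC')).mono subset_union_left
  let St := {p : Set (Set Y × Set Y') × (Y → Y') // Sta S S' (cel C) (cel C') p.1 p.2}
  have hnext : ∀ (s : St) (n : ℕ), ∃ s' : St, Ref s.1.1 s'.1.1 ∧
      Sml (1 / ((n : ℝ) + 1)) s'.1.1 := by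
    intro s n
    obtain ⟨Sg', g', h1, h2, h3⟩ := hM Y Y' S S' (cel C) (cel C') s.1.1 s.1.2 hS hS' hK hK' s.2
      (1 / ((n : ℝ) + 1)) (by positivity)
    exact ⟨⟨(Sg', g'), h1⟩, h2, h3⟩
  choose nx hnx1 hnx2 using hnext
  let sq : ℕ → St := fun n => Nat.rec ⟨(_, g0), h0⟩ (fun n s => nx s n) n
  have hsq : ∀ n, sq (n + 1) = nx (sq n) n := fun n => rfl
  let R : ℕ → Set (Y × Y') := fun n => Rel (sq n).1.1
  have hRc : ∀ n, IsCompact (R n) := fun n => rel_compact hS hS' (sq n).2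
  have hRd : ∀ n, R (n + 1) ⊆ R n := fun n => rel_ref (by rw [hsq]; exact hnx1 _ _)
  have hcl : IsClosed (⋂ n, R n) := isClosed_iInter fun n => (hRc n).isClosed
  have hcpt : IsCompact (⋂ n, R n) := (hRc 0).of_isClosed_subset hcl (iInter_subset _ 0)
  have hlim : Filter.Tendsto (fun n : ℕ => 2 * (1 / ((n : ℝ) + 1))) Filter.atTop (𝓝 0) := by
    have h1 := (tendsto_one_div_add_atTop_nhds_zero_nat (𝕜 := ℝ)).const_mul 2
    rw [mul_zero] at h1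
    exact h1
  have hur : ∀ (x : Y) (y y' : Y'), (x, y) ∈ ⋂ n, R n → (x, y') ∈ ⋂ n, R n → y = y' := by
    intro x y y' h1 h2
    apply dist_le_zero.1
    apply ge_of_tendsto' hlim
    intro n
    exact (uniq_right (sq (n + 1)).2 (by positivity) (by rw [hsq]; exact hnx2 _ _)
      (mem_iInter.1 h1 (n + 1)) (mem_iInter.1 h2 (n + 1))).le
  have hul : ∀ (x x' : Y) (y : Y'), (x, y) ∈ ⋂ n, R n → (x', y) ∈ ⋂ n, R n → x = x' := by
    intro x x' y h1 h2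
    apply dist_le_zero.1
    apply ge_of_tendsto' hlim
    intro n
    exact (uniq_left (sq (n + 1)).2 (by positivity) (by rw [hsq]; exact hnx2 _ _)
      (mem_iInter.1 h1 (n + 1)) (mem_iInter.1 h2 (n + 1))).le
  have hel : ∀ x ∈ cel C, ∃ y, (x, y) ∈ ⋂ n, R n := by
    intro x hx
    have hF : IsClosed (Prod.fst ⁻¹' {x} : Set (Y × Y')) := isClosed_singleton.preimage continuous_fst
    obtain ⟨⟨x', y⟩, h1⟩ := IsCompact.nonempty_iInter_of_sequence_nonempty_isCompact_isClosed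
      (fun n => R n ∩ Prod.fst ⁻¹' {x}) (fun n => inter_subset_inter_left _ (hRd n))
      (fun n => by
        obtain ⟨y, hy⟩ := rel_left hS' (sq n).2 hx
        exact ⟨(x, y), hy, rfl⟩) ((hRc 0).inter_right hF)
      (fun n => (hRc n).isClosed.inter hF)
    have hx' : x' = x := (mem_iInter.1 h1 0).2
    subst hx'
    exact ⟨y, mem_iInter.2 fun n => (mem_iInter.1 h1 n).1⟩
  have her : ∀ y ∈ cel C', ∃ x, (x, y) ∈ ⋂ n, R n := by
    intro y hy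
    have hF : IsClosed (Prod.snd ⁻¹' {y} : Set (Y × Y')) := isClosed_singleton.preimage continuous_snd
    obtain ⟨⟨x, y'⟩, h1⟩ := IsCompact.nonempty_iInter_of_sequence_nonempty_isCompact_isClosed
      (fun n => R n ∩ Prod.snd ⁻¹' {y}) (fun n => inter_subset_inter_left _ (hRd n))
      (fun n => by
        obtain ⟨x, hx⟩ := rel_right hS (sq n).2 hy
        exact ⟨(x, y), hx, rfl⟩) ((hRc 0).inter_right hF)
      (fun n => (hRc n).isClosed.inter hF)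
    have hy' : y' = y := (mem_iInter.1 h1 0).2
    subst hy'
    exact ⟨x, mem_iInter.2 fun n => (mem_iInter.1 h1 n).1⟩
  have hch : ∀ x, ∃ y, x ∈ cel C → (x, y) ∈ ⋂ n, R n := by
    intro x
    by_cases hx : x ∈ cel C
    · obtain ⟨y, hy⟩ := hel x hx
      exact ⟨y, fun _ => hy⟩
    · obtain ⟨y, _⟩ := hK'
      exact ⟨y, fun h => absurd h hx⟩
  choose h hh using hch
  refine ⟨h, graph hcpt hh fun x y hxy hx => hur x _ _ hxy (hh x hx), ?_, ?_⟩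
  · intro x hx x' hx' hxx
    have h1 := hh x hx
    rw [hxx] at h1
    exact hul _ _ _ h1 (hh x' hx')
  · ext y
    constructor
    · rintro ⟨x, hx, rfl⟩
      exact (rel_K (sq 0).2 (mem_iInter.1 (hh x hx) 0)).2
    · intro hy
      obtain ⟨x, hx⟩ := her y hy
      have hxK : x ∈ cel C := (rel_K (sq 0).2 (mem_iInter.1 hx 0)).1
      exact ⟨x, hxK, hur x _ _ (hh x hxK) hx⟩

end BBP
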