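import Pool.Agent.BBP.StmtsD

/-!
# MP_6eac38_gt, BBP, module MAIN3: the theorem from the blocks
-/

set_option autoImplicit false

namespace BBP

open Set Topology CTO

theorem t_MAIN3 : M_MAIN3 := by
  intro hSHR hROT hFLP hPRM X _ _ hX hom h3 h2
  have h3' : ShrLE X 3 := (hSHR X 3).1 h3
  have h2' : ¬ ShrLE X 2 := fun h => h2 ((hSHR X 2).2 h)
  have hne : Nonempty X := by
    by_contra hn
    rw [not_nonempty_iff] at hn
    refine h2' fun k U hU hc => ⟨U, hU, fun i => Subset.rfl, hc, fun x => (hn.false x).elim⟩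
  have hm : IsMfd3 X → HasFlow X := fun h => hROT X h hne
  have hf : HasFlow X → HasProduct X := hFLP X hom h3' h2'
  have hp : HasProduct X → IsMfd3 X := hPRM X hX hom h3'
  exact ⟨⟨fun h => hf (hm h), hp⟩, ⟨hm, fun h => hp (hf h)⟩⟩

end BBP
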