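import Pool.Agent.BBP.StmtsD

/-!
# BBP, module MNI: the unit interval is a minimal connection between its end points
-/

set_option autoImplicit false

namespace BBP

open Set Topology Metric CTO

theorem t_MNI : S_MNI where
  ne := by
    intro h
    have := congrArg Subtype.val h
    norm_num at this
  ess := by
    rintro ⟨A, B, hA, hB, hd, hu, ha, hb⟩
    have hc : IsClopen A := by
      refine ⟨hA, ?_⟩
      have : A = Bᶜ := by
        ext x
        have hx : x ∈ A ∪ B := by rw [hu]; trivial
        constructor
        · intro h1 h2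
          exact Set.disjoint_left.1 hd h1 h2
        · intro h1
          rcases hx with h2 | h2
          · exact h2
          · exact absurd h2 h1
      rw [this]
      exact hB.isOpen_compl
    have := hc.eq_univ ⟨_, ha⟩
    rw [this] at hd
    exact Set.disjoint_left.1 hd (mem_univ _) hb
  min := by
    rintro O hO ⟨z, hz⟩ ha hb
    refine ⟨Oᶜ ∩ Iic z, Oᶜ ∩ Ici z, hO.isClosed_compl.inter isClosed_Iic,
      hO.isClosed_compl.inter isClosed_Ici, ?_, ?_, ⟨ha, ?_⟩, ⟨hb, ?_⟩⟩
    · rw [Set.disjoint_left]
      rintro x ⟨h1, h2⟩ ⟨-, h3⟩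
      have : x = z := le_antisymm h2 h3
      exact h1 (this ▸ hz)
    · rw [← inter_union_distrib_left, Iic_union_Ici, inter_univ]
    · exact z.2.1
    · exact z.2.2

end BBP
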