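import Pool.Agent.BBP.StmtsD

/-!
# BBP, block D: small meshes (module MSH)
-/

set_option autoImplicit false

namespace BBP

open Set Topology

theorem t_MSH : M_MSH := by
  intro hRFN hSWP Y Y' _ _ S S' K K' Sg g hS hS' hK hK' hst ε hε
  obtain ⟨Sg1, g1, hst1, href1, hR1⟩ := hRFN Y Y' S S' K K' Sg g
    (fun C' => C' ∈ S ∧ ∀ u ∈ C' ∪ ins C', ∀ v ∈ C' ∪ ins C', dist u v < ε) hS hS' hst
    (fun q hq => hS.div q.1 (hst.mem q hq).1 ε hε)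
  obtain ⟨g2, hst2⟩ := hSWP Y Y' S S' K K' Sg1 g1 hS hS' hK hst1
  obtain ⟨Sg3, g3, hst3, href3, hR3⟩ := hRFN Y' Y S' S K' K (Prod.swap '' Sg1) g2
    (fun C' => C' ∈ S' ∧ ∀ u ∈ C' ∪ ins C', ∀ v ∈ C' ∪ ins C', dist u v < ε) hS' hS hst2
    (fun q hq => hS'.div q.1 (hst2.mem q hq).1 ε hε)
  obtain ⟨g4, hst4⟩ := hSWP Y' Y S' S K' K Sg3 g3 hS' hS hK' hst3
  refine ⟨Prod.swap '' Sg3, g4, hst4, ?_, ?_⟩
  · rintro _ ⟨r, hr, rfl⟩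
    obtain ⟨s, ⟨t, ht, rfl⟩, h1, h2⟩ := href3 r hr
    obtain ⟨q, hq, h3, h4⟩ := href1 t ht
    exact ⟨q, hq, h2.trans h3, h1.trans h4⟩
  · rintro _ ⟨r, hr, rfl⟩
    obtain ⟨s, ⟨t, ht, rfl⟩, -, h2⟩ := href3 r hr
    exact ⟨fun u hu v hv => (hR1 t ht).2 u (h2 hu) v (h2 hv), fun u hu v hv =>
      (hR3 r hr).2 u hu v hv⟩

end BBP
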