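import Pool.Agent.BBP.StmtsD

/-!
# Minimal membranes in the plane are open
-/

set_option autoImplicit false

namespace BBP

open Set Topology Metric CTO
open Pool.Agent.LIX (CLog)

namespace OMC

/-- the radial projection to the circle -/
noncomputable def rp (y : ℂ) (r : ℝ) (z : ℂ) : ℂ := y + ((r / ‖z - y‖ : ℝ) : ℂ) * (z - y)

theorem rp_mem {y z : ℂ} {r : ℝ} (hr : 0 < r) (hz : z ≠ y) : rp y r z ∈ sphere y r := by
  have h1 : 0 < ‖z - y‖ := norm_pos_iff.2 (sub_ne_zero.2 hz)
  rw [mem_sphere_iff_norm, rp, add_sub_cancel_left, norm_mul, Complex.norm_real, norm_div,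
    Real.norm_of_nonneg hr.le, norm_norm]
  field_simp

theorem rp_self {y z : ℂ} {r : ℝ} (hr : 0 < r) (hz : z ∈ sphere y r) : rp y r z = z := by
  have h1 : ‖z - y‖ = r := mem_sphere_iff_norm.1 hz
  rw [rp, h1, div_self hr.ne', Complex.ofReal_one, one_mul, add_sub_cancel]

theorem rp_cont (y : ℂ) (r : ℝ) : ContinuousOn (rp y r) {z | z ≠ y} := by
  unfold rp
  apply ContinuousOn.add continuousOn_const
  apply ContinuousOn.mul
  · apply Complex.continuous_ofReal.comp_continuousOn
    apply ContinuousOn.div continuousOn_const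
    · exact (continuous_id.sub continuous_const).norm.continuousOn
    · intro z hz
      exact norm_ne_zero_iff.2 (sub_ne_zero.2 hz)
  · exact (continuous_id.sub continuous_const).continuousOn

/-- extension to the circle -/
theorem ext_circle (hC : S_CPS) (y : ℂ) (r : ℝ) (hr : 0 < r) (A : Set ℂ) (F : ℂ → ℂ)
    (hA : A ⊆ sphere y r) (hAc : IsCompact A) (hF : ContinuousOn F A) (hF0 : ∀ x ∈ A, F x ≠ 0) :
    ∃ G : ℂ → ℂ, ContinuousOn G (sphere y r) ∧ (∀ x ∈ sphere y r, G x ≠ 0) ∧ EqOn G F A := by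
  by_cases h : A = sphere y r
  · rw [h] at hF hF0
    exact ⟨F, hF, hF0, fun _ _ => rfl⟩
  · obtain ⟨g, hg, hg2⟩ := hC y r A F hr hA h hAc hF hF0
    obtain ⟨g', hg'⟩ := ContinuousMap.exists_restrict_eq hAc.isClosed
      (⟨A.restrict g, continuousOn_iff_continuous_restrict.1 hg⟩ : C(A, ℂ))
    refine ⟨fun x => Complex.exp (g' x), (Complex.continuous_exp.comp g'.continuous).continuousOn,
      fun x _ => Complex.exp_ne_zero _, ?_⟩
    intro x hx
    have h1 : g' x = g x := by
      have := congrArg (fun k : C(A, ℂ) => k ⟨x, hx⟩) hg'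
      exact this
    show Complex.exp (g' x) = F x
    rw [h1, hg2 x hx]

end OMC

theorem t_OMC : M_OMC := by
  intro hC L K f hL hK hLK hf hf0 hne hW
  rw [Metric.isOpen_iff]
  intro x hx
  by_contra hcon
  have hcon' : ∀ ε : ℝ, 0 < ε → ¬ ball x ε ⊆ K \ L := fun ε hε h => hcon ⟨ε, hε, h⟩
  have hLc : IsOpen (Lᶜ) := hL.isClosed.isOpen_compl
  obtain ⟨t, ht, hxt⟩ := Metric.isOpen_iff.1 hLc x hx.2
  set s := t / 4 with hs
  have hs0 : 0 < s := by positivity
  obtain ⟨y, hy, hyn⟩ := Set.not_subset.1 (hcon' s hs0)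
  have hyt : ∀ z, dist z y ≤ 2 * s → z ∉ L := by
    intro z hz
    apply hxt
    rw [mem_ball]
    have h1 := dist_triangle z y x
    have h2 : dist y x < s := hy
    have h3 : t = 4 * s := by rw [hs]; ring
    rw [h3]
    linarith
  have hyK : y ∉ K := by
    intro h
    apply hyn
    exact ⟨h, hyt y (by rw [dist_self]; positivity)⟩
  set r := 2 * s with hr
  have hr0 : 0 < r := by positivity
  have hxB : x ∈ ball y r := by
    rw [mem_ball, dist_comm]
    have h2 : dist y x < s := hy
    rw [hr]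
    linarith
  obtain ⟨F, hF, hF0, hFf⟩ := hW (ball y r) isOpen_ball ⟨x, hxB, hx⟩
  have hLB : ∀ z ∈ L, z ∉ ball y r := by
    intro z hz hzb
    exact hyt z (mem_ball.1 hzb).le hz
  have hsub : K ∩ sphere y r ⊆ (K \ ball y r) ∪ L := by
    intro z hz
    left
    refine ⟨hz.1, ?_⟩
    rw [mem_ball, mem_sphere.1 hz.2]
    exact lt_irrefl _
  obtain ⟨G, hG, hG0, hGF⟩ := OMC.ext_circle hC y r hr0 (K ∩ sphere y r) F inter_subset_right
    (hK.inter_right isClosed_sphere) (hF.mono hsub) (fun z hz => hF0 z (hsub hz))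
  apply hne
  classical
  let H : ℂ → ℂ := fun z => if z ∈ ball y r then G (OMC.rp y r z) else F z
  have hH1 : ∀ z, z ∉ ball y r → H z = F z := fun z hz => if_neg hz
  have hne' : ∀ z ∈ K, z ≠ y := by
    rintro z hz rfl
    exact hyK hz
  have hH2 : ∀ z ∈ K ∩ closedBall y r, H z = G (OMC.rp y r z) := by
    intro z hz
    by_cases hzb : z ∈ ball y r
    · exact if_pos hzb
    · rw [hH1 z hzb]
      have hzs : z ∈ sphere y r := by
        rw [mem_sphere]
        exact le_antisymm hz.2 (not_lt.1 hzb)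
      rw [OMC.rp_self hr0 hzs, hGF ⟨hz.1, hzs⟩]
  refine ⟨H, ?_, ?_, ?_⟩
  · have hKu : K = (K \ ball y r) ∪ (K ∩ closedBall y r) := by
      ext z
      constructor
      · intro hz
        by_cases hzb : z ∈ ball y r
        · exact Or.inr ⟨hz, ball_subset_closedBall hzb⟩
        · exact Or.inl ⟨hz, hzb⟩
      · rintro (h | h)
        · exact h.1
        · exact h.1
    rw [hKu]
    apply ContinuousOn.union_of_isClosed
    · apply (hF.mono (fun z hz => Or.inl hz)).congr
      intro z hz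
      exact hH1 z hz.2
    · have h1 : ContinuousOn (fun z => G (OMC.rp y r z)) (K ∩ closedBall y r) := by
        apply hG.comp ((OMC.rp_cont y r).mono fun z hz => hne' z hz.1)
        intro z hz
        exact OMC.rp_mem hr0 (hne' z hz.1)
      exact h1.congr hH2
    · exact hK.isClosed.sdiff isOpen_ball
    · exact hK.isClosed.inter isClosed_closedBall
  · intro z hz
    by_cases hzb : z ∈ ball y r
    · rw [hH2 z ⟨hz, ball_subset_closedBall hzb⟩]
      exact hG0 _ (OMC.rp_mem hr0 (hne' z hz))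
    · rw [hH1 z hzb]
      exact hF0 z (Or.inl ⟨hz, hzb⟩)
  · intro z hz
    rw [hH1 z (hLB z hz)]
    exact hFf hz

end BBP
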