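import Pool.Agent.BBP.StmtsD

/-!
# BBP, PRM: products give manifolds
-/

set_option autoImplicit false

namespace BBP

open Set Topology Metric CTO

namespace PRM

/-- the complement of `L` is nonempty -/
theorem exists_compl {K : Type} [TopologicalSpace K] {L : Set K} {f : K → ℂ} (h : MinK L f) :
    (Lᶜ : Set K).Nonempty := by
  by_contra h1
  rw [not_nonempty_iff_eq_empty, compl_empty_iff] at h1
  apply h.ess
  refine ⟨f, ?_, fun x _ => h.ne x (by rw [h1]; trivial), fun x _ => rfl⟩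
  rw [← h1]
  exact h.cont

/-- there is a third point -/
theorem exists_third {Z : Type} [TopologicalSpace Z] [T1Space Z] {a b : Z} (h : MinZ a b) :
    ∃ b0 : Z, b0 ≠ a ∧ b0 ≠ b := by
  by_contra h1
  push Not at h1
  apply h.ess
  refine ⟨{a}, {b}, isClosed_singleton, isClosed_singleton, ?_, ?_, rfl, rfl⟩
  · rw [disjoint_singleton]
    exact h.ne
  · rw [eq_univ_iff_forall]
    intro z
    by_cases hz : z = a
    · exact Or.inl hz
    · exact Or.inr (h1 z hz)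

/-- no point except `a`, `b` is isolated -/
theorem not_isolated {Z : Type} [TopologicalSpace Z] [T1Space Z] {a b : Z} (h : MinZ a b)
    {b0 : Z} (ha : b0 ≠ a) (hb : b0 ≠ b) (N : Set Z) (hN : IsOpen N) (hbN : b0 ∈ N) :
    ∃ b1 ∈ N, b1 ≠ b0 := by
  by_contra h1
  push Not at h1
  have hN1 : N = {b0} := by
    ext z
    exact ⟨fun hz => h1 z hz, fun hz => by rw [mem_singleton_iff] at hz; rw [hz]; exact hbN⟩
  rw [hN1] at hN
  obtain ⟨A, B, hA, hB, hd, hu, haA, hbB⟩ := h.min {b0} hN ⟨b0, rfl⟩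
    (fun h2 => ha (mem_singleton_iff.1 h2).symm) (fun h2 => hb (mem_singleton_iff.1 h2).symm)
  apply h.ess
  refine ⟨A ∪ {b0}, B, hA.union isClosed_singleton, hB, ?_, ?_, Or.inl haA, hbB⟩
  · rw [disjoint_union_left]
    refine ⟨hd, ?_⟩
    rw [disjoint_singleton_left]
    intro h2
    have h3 : b0 ∈ ({b0} : Set Z)ᶜ := by rw [← hu]; exact Or.inr h2
    exact h3 rfl
  · rw [eq_univ_iff_forall]
    intro z
    by_cases hz : z = b0
    · exact Or.inl (Or.inr hz)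
    · have h3 : z ∈ ({b0} : Set Z)ᶜ := hz
      rw [← hu] at h3
      rcases h3 with h3 | h3
      · exact Or.inl (Or.inl h3)
      · exact Or.inr h3

/-- the point of the square -/
noncomputable def pl (v : Fin 3 → ℝ) : ℂ := ((v 0 : ℂ) + (v 1 : ℂ) * Complex.I) / 2

theorem pl_cont : Continuous pl := by
  unfold pl
  fun_prop

theorem pl_inj {v w : Fin 3 → ℝ} (h : pl v = pl w) : v 0 = w 0 ∧ v 1 = w 1 := by
  unfold pl at h
  have h1 : (v 0 : ℂ) + (v 1 : ℂ) * Complex.I = (w 0 : ℂ) + (w 1 : ℂ) * Complex.I := by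
    have h2 := congrArg (fun z : ℂ => z * 2) h
    simpa using h2
  have hre := congrArg Complex.re h1
  have him := congrArg Complex.im h1
  simp at hre him
  exact ⟨hre, him⟩

theorem pl_mem {v : Fin 3 → ℝ} (h : v ∈ Icc (-1 : Fin 3 → ℝ) 1) : pl v ∈ closedBall (0 : ℂ) 1 := by
  rw [mem_closedBall_zero_iff]
  unfold pl
  rw [norm_div]
  have h0 := h.1 0
  have h0' := h.2 0
  have h1 := h.1 1
  have h1' := h.2 1
  simp only [Pi.neg_apply, Pi.one_apply] at h0 h0' h1 h1'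
  have a0 : ‖(v 0 : ℂ)‖ ≤ 1 := by
    rw [Complex.norm_real, Real.norm_eq_abs, abs_le]
    exact ⟨h0, h0'⟩
  have a1 : ‖(v 1 : ℂ) * Complex.I‖ ≤ 1 := by
    rw [norm_mul, Complex.norm_I, mul_one, Complex.norm_real, Real.norm_eq_abs, abs_le]
    exact ⟨h1, h1'⟩
  have a2 : ‖(v 0 : ℂ) + (v 1 : ℂ) * Complex.I‖ ≤ 2 :=
    (norm_add_le _ _).trans (by linarith)
  have a3 : ‖(2 : ℂ)‖ = 2 := by simp
  rw [a3]
  linarith

/-- the height -/
noncomputable def ht (v : Fin 3 → ℝ) : Icc (0 : ℝ) 1 := projIcc 0 1 zero_le_one ((1 + v 2) / 2)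

theorem ht_cont : Continuous ht := by
  unfold ht
  exact continuous_projIcc.comp (by fun_prop)

theorem ht_inj {v w : Fin 3 → ℝ} (hv : v ∈ Icc (-1 : Fin 3 → ℝ) 1)
    (hw : w ∈ Icc (-1 : Fin 3 → ℝ) 1) (h : ht v = ht w) : v 2 = w 2 := by
  have key : ∀ v ∈ Icc (-1 : Fin 3 → ℝ) 1, ((ht v : Icc (0 : ℝ) 1) : ℝ) = (1 + v 2) / 2 := by
    intro v hv
    have h2 := hv.1 2
    have h2' := hv.2 2
    simp only [Pi.neg_apply, Pi.one_apply] at h2 h2'
    unfold ht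
    rw [projIcc_of_mem zero_le_one ⟨by linarith, by linarith⟩]
  have h1 := congrArg (fun t : Icc (0 : ℝ) 1 => (t : ℝ)) h
  have h2 : ((ht v : Icc (0 : ℝ) 1) : ℝ) = ((ht w : Icc (0 : ℝ) 1) : ℝ) := h1
  rw [key v hv, key w hw] at h2
  linarith

end PRM

/-- the main part -/
theorem PRM.core (hEMB : S_EMB) (hNEX : S_NEX) (hKMN : S_KMN) (hDI0 : S_DI0) (hZMN : S_ZMN)
    (hOPA : S_OPA) (hARZ : S_ARZ) (hAXY : S_AXY) (hDSC : S_DSC) (hCELL2 : S_CELL2)
    (hMAN2 : S_MAN2) (X : Type) [MetricSpace X] [CompactSpace X] (hA : IsANR X) (hH : Homog X)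
    (h3 : ShrLE X 3) (K Z : Type) [MetricSpace K] [CompactSpace K] [MetricSpace Z]
    [CompactSpace Z] (hK : ¬ ShrLE K 1) (hZ : ¬ CovDimLE Z 0) (e : K × Z → X)
    (he : Continuous e) (hinj : Function.Injective e) : IsMfd3 X := by
  obtain ⟨a, b, hab, hsep⟩ := hDI0 Z hZ
  have hK3 : ShrLE K 3 := by
    apply hEMB X K 3 (fun k => e (k, a)) (by fun_prop) _ h3
    intro k k' h
    exact congrArg Prod.fst (hinj h)
  obtain ⟨L, K1, f, hL, hK1, hLK, hf, hf0, hext⟩ := hNEX K hK3 hK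
  obtain ⟨K0, L', f', hK0, hmK⟩ := hKMN K L K1 f hL hK1 hLK hf hf0 hext
  obtain ⟨Z0, a', b', hZ0, hmZ⟩ := hZMN Z a b hab hsep
  have cK0 : CompactSpace K0 := isCompact_iff_compactSpace.1 hK0.isCompact
  have cZ0 : CompactSpace Z0 := isCompact_iff_compactSpace.1 hZ0.isCompact
  let e0 : K0 × Z0 → X := fun q => e (q.1.1, q.2.1)
  have he0 : Continuous e0 := by
    apply he.comp
    fun_prop
  have hinj0 : Function.Injective e0 := by
    rintro ⟨k, z⟩ ⟨k', z'⟩ h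
    have h1 := hinj h
    have h2 : k = k' := Subtype.ext (congrArg Prod.fst h1)
    have h3 : z = z' := Subtype.ext (congrArg Prod.snd h1)
    rw [h2, h3]
  have hopen := hOPA X K0 Z0 hA hH h3 e0 L' f' a' b' he0 hinj0 hmK hmZ
  obtain ⟨b0, hb0a, hb0b⟩ := PRM.exists_third hmZ
  obtain ⟨ζ, hζ, hζi⟩ := hARZ X K0 Z0 e0 L'ᶜ {a', b'}ᶜ b0 hA he0 hinj0 hopen
    (PRM.exists_compl hmK) (by simp [hb0a, hb0b]) (PRM.not_isolated hmZ hb0a hb0b)
  let e' : K0 × Icc (0 : ℝ) 1 → X := fun q => e0 (q.1, ζ q.2)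
  have he' : Continuous e' := by
    have h1 : Continuous fun q : K0 × Icc (0 : ℝ) 1 => ζ (q.2 : ℝ) :=
      (continuousOn_iff_continuous_domRestrict.1 hζ).comp continuous_snd
    exact he0.comp (continuous_fst.prodMk h1)
  have hinj' : Function.Injective e' := by
    rintro ⟨k, t⟩ ⟨k', t'⟩ h
    have h1 := hinj0 h
    have h2 : k = k' := congrArg Prod.fst h1
    have h3 : ζ (t : ℝ) = ζ (t' : ℝ) := congrArg Prod.snd h1
    have h4 : t = t' := Subtype.ext (hζi t.2 t'.2 h3)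
    rw [h2, h4]
  obtain ⟨hax, hdat⟩ := hAXY X K0 e' L' f' hA hH h3 he' hinj' hmK
  obtain ⟨h, hh, hhi⟩ := hDSC _ hax hdat
  let g : (Fin 3 → ℝ) → X := fun v => e' ((h (PRM.pl v)).1, PRM.ht v)
  have hg : ContinuousOn g (Icc (-1) 1) := by
    apply he'.comp_continuousOn
    apply ContinuousOn.prodMk
    · apply continuous_subtype_val.comp_continuousOn
      exact hh.comp PRM.pl_cont.continuousOn fun v hv => PRM.pl_mem hv
    · exact PRM.ht_cont.continuousOn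
  have hgi : InjOn g (Icc (-1) 1) := by
    intro v hv w hw hvw
    have h1 := hinj' hvw
    have h2 : h (PRM.pl v) = h (PRM.pl w) := Subtype.ext (congrArg Prod.fst h1)
    have h3 : PRM.ht v = PRM.ht w := congrArg Prod.snd h1
    have h4 := PRM.pl_inj (hhi (PRM.pl_mem hv) (PRM.pl_mem hw) h2)
    have h5 := PRM.ht_inj hv hw h3
    funext i
    fin_cases i
    · exact h4.1
    · exact h4.2
    · exact h5
  exact hMAN2 X hH g hg hgi (hCELL2 X hA hH h3 g hg hgi)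

theorem t_PRM : M_PRM := by
  intro hSHR hEMB hNPR hNEX hKMN hDI0 hZMN hOPA hARZ hAXY hDSC hCELL2 hMAN2 X _ _ hA hH h3 hP
  obtain ⟨K, Z, _, _, _, _, hK0, hZ0, hKZ, e, he, hinj⟩ := hP
  have hKZ3 : ShrLE (K × Z) 3 := hEMB X (K × Z) 3 e he hinj h3
  have hKZ2 : ¬ ShrLE (K × Z) 2 := fun h => hKZ ((hSHR _ 2).2 h)
  by_cases hK1 : ShrLE K 1
  · have hZ1 : ¬ ShrLE Z 1 := fun h => hKZ2 (hNPR K Z hKZ3 hK1 h)
    exact PRM.core hEMB hNEX hKMN hDI0 hZMN hOPA hARZ hAXY hDSC hCELL2 hMAN2 X hA hH h3 Z K hZ1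
      hK0 (fun q => e (q.2, q.1)) (by fun_prop) (by
        rintro ⟨z, k⟩ ⟨z', k'⟩ h
        have h1 := hinj h
        have h2 : k = k' := congrArg Prod.fst h1
        have h3 : z = z' := congrArg Prod.snd h1
        rw [h2, h3])
  · exact PRM.core hEMB hNEX hKMN hDI0 hZMN hOPA hARZ hAXY hDSC hCELL2 hMAN2 X hA hH h3 K Z hK1
      hZ0 e he hinj

end BBP
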