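import Pool.Agent.BBP.StmtsD

/-!
# BBP, module RFN: refinement along a division
-/

set_option autoImplicit false

namespace BBP

open Set Topology Metric CTO

namespace RFN

theorem ref_refl {Y Y' : Type} [TopologicalSpace Y] [TopologicalSpace Y']
    (Sg : Set (Set Y × Set Y')) : Ref Sg Sg :=
  fun q' hq' => ⟨q', hq', Subset.rfl, Subset.rfl⟩

theorem ref_trans {Y Y' : Type} [TopologicalSpace Y] [TopologicalSpace Y']
    {Sg Sg' Sg'' : Set (Set Y × Set Y')} (h : Ref Sg Sg') (h' : Ref Sg' Sg'') : Ref Sg Sg'' := by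
  intro q'' hq''
  obtain ⟨q', hq', h1, h2⟩ := h' q'' hq''
  obtain ⟨q, hq, h3, h4⟩ := h q' hq'
  exact ⟨q, hq, h1.trans h3, h2.trans h4⟩

theorem one (hS : S_STP) (Y Y' : Type) [MetricSpace Y] [MetricSpace Y'] (S : Set (Set Y))
    (S' : Set (Set Y')) (K : Set Y) (K' : Set Y') (R : Set Y → Prop) (hc : Cel S)
    (hc' : Cel S') (C : Set Y) (hD : Div R C) :
    ∀ (Sg : Set (Set Y × Set Y')) (g : Y → Y'), Sta S S' K K' Sg g → ∀ q ∈ Sg, q.1 = C →
    ∃ (Sg' : Set (Set Y × Set Y')) (g' : Y → Y'), Sta S S' K K' Sg' g' ∧ Ref Sg Sg' ∧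
      ∀ q' ∈ Sg', q' ∈ Sg \ {q} ∨ R q'.1 := by
  induction hD with
  | leaf C hR =>
    intro Sg g hst q hq hqC
    refine ⟨Sg, g, hst, ref_refl Sg, ?_⟩
    intro q' hq'
    by_cases h : q' = q
    · right
      rw [h, hqC]
      exact hR
    · exact Or.inl ⟨hq', h⟩
  | node C A1 A2 P a b h1 h2 h3 h4 h5 h6 _ _ ih1 ih2 =>
    intro Sg g hst q hq hqC
    obtain ⟨B1, B2, g1, hst1, href1⟩ := hS Y Y' S S' K K' Sg g hc hc' hst q hq A1 A2 P a b
      h1 h2 (by rw [hqC]; exact h3) h4 h5 (by rw [hqC]; exact h6)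
    obtain ⟨Sg2, g2, hst2, href2, hq2⟩ := ih1 _ g1 hst1 (A1 ∪ P, B1)
      (Or.inr (Or.inl rfl)) rfl
    have key : ∀ q' : Set Y × Set Y', q' ∈ ((Sg \ {q}) ∪ {(A1 ∪ P, B1), (A2 ∪ P, B2)}) \
        {(A1 ∪ P, B1)} → q' ≠ (A2 ∪ P, B2) → q' ∈ Sg \ {q} := by
      rintro q' ⟨h7 | h7, h8⟩ h9
      · exact h7
      · rcases h7 with h7 | h7
        · exact absurd h7 h8
        · exact absurd h7 h9
    by_cases hm : (A2 ∪ P, B2) ∈ Sg2
    · obtain ⟨Sg3, g3, hst3, href3, hq3⟩ := ih2 _ g2 hst2 (A2 ∪ P, B2) hm rfl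
      refine ⟨Sg3, g3, hst3, ref_trans (ref_trans href1 href2) href3, ?_⟩
      intro q' hq'
      rcases hq3 q' hq' with ⟨h7, h8⟩ | h7
      · rcases hq2 q' h7 with h9 | h9
        · exact Or.inl (key q' h9 h8)
        · exact Or.inr h9
      · exact Or.inr h7
    · refine ⟨Sg2, g2, hst2, ref_trans href1 href2, ?_⟩
      intro q' hq'
      rcases hq2 q' hq' with h9 | h9
      · exact Or.inl (key q' h9 (fun h => hm (h ▸ hq')))
      · exact Or.inr h9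

theorem all (hS : S_STP) (Y Y' : Type) [MetricSpace Y] [MetricSpace Y'] (S : Set (Set Y))
    (S' : Set (Set Y')) (K : Set Y) (K' : Set Y') (R : Set Y → Prop) (hc : Cel S)
    (hc' : Cel S') (n : ℕ) :
    ∀ (Sg : Set (Set Y × Set Y')) (g : Y → Y'), Sta S S' K K' Sg g → (∀ q ∈ Sg, Div R q.1) →
    {q ∈ Sg | ¬ R q.1}.ncard ≤ n →
    ∃ (Sg' : Set (Set Y × Set Y')) (g' : Y → Y'), Sta S S' K K' Sg' g' ∧ Ref Sg Sg' ∧
      ∀ q ∈ Sg', R q.1 := by
  induction n with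
  | zero =>
    intro Sg g hst _ hn
    refine ⟨Sg, g, hst, ref_refl Sg, ?_⟩
    intro q hq
    by_contra hR
    have hfin : {q ∈ Sg | ¬ R q.1}.Finite := hst.fin.subset fun q hq => hq.1
    have h0 : {q ∈ Sg | ¬ R q.1} = ∅ := (Set.ncard_eq_zero hfin).1 (Nat.le_zero.1 hn)
    have : q ∈ {q ∈ Sg | ¬ R q.1} := ⟨hq, hR⟩
    rw [h0] at this
    exact this
  | succ n ih =>
    intro Sg g hst hD hn
    by_cases hex : ∃ q ∈ Sg, ¬ R q.1
    · obtain ⟨q, hq, hR⟩ := hex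
      obtain ⟨Sg1, g1, hst1, href1, hq1⟩ := one hS Y Y' S S' K K' R hc hc' q.1 (hD q hq) Sg g
        hst q hq rfl
      have hfin : {q ∈ Sg | ¬ R q.1}.Finite := hst.fin.subset fun q hq => hq.1
      have hsub : {q ∈ Sg1 | ¬ R q.1} ⊆ {q ∈ Sg | ¬ R q.1} \ {q} := by
        rintro q' ⟨h1, h2⟩
        rcases hq1 q' h1 with h3 | h3
        · exact ⟨⟨h3.1, h2⟩, h3.2⟩
        · exact absurd h3 h2
      have hlt : {q ∈ Sg1 | ¬ R q.1}.ncard ≤ n := by
        have e1 := Set.ncard_le_ncard hsub hfin.sdiff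
        have e2 := Set.ncard_sdiff_singleton_lt_of_mem (a := q) (s := {q ∈ Sg | ¬ R q.1})
          ⟨hq, hR⟩ hfin
        omega
      obtain ⟨Sg2, g2, hst2, href2, hq2⟩ := ih Sg1 g1 hst1 (fun q' hq' => by
        rcases hq1 q' hq' with h3 | h3
        · exact hD q' h3.1
        · exact Div.leaf _ h3) hlt
      exact ⟨Sg2, g2, hst2, ref_trans href1 href2, hq2⟩
    · refine ⟨Sg, g, hst, ref_refl Sg, ?_⟩
      intro q hq
      by_contra hR
      exact hex ⟨q, hq, hR⟩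

end RFN

theorem t_RFN : M_RFN := by
  intro hS Y Y' _ _ S S' K K' Sg g R hc hc' hst hD
  exact RFN.all hS Y Y' S S' K K' R hc hc' _ Sg g hst hD le_rfl

end BBP
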