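import Pool.Agent.BBP.StmtsD

/-!
# MP_6eac38_gt, module STP: one cross-cut
-/

set_option autoImplicit false

namespace BBP

open Set Topology

namespace STP

variable {Y Y' : Type} [MetricSpace Y] [MetricSpace Y']

/-- `α' ∘ α⁻¹` is continuous -/
theorem inv_cont {α : ℝ → Y} {α' : ℝ → Y'} (hα : ContinuousOn α (Icc 0 1))
    (hi : InjOn α (Icc 0 1)) (hα' : ContinuousOn α' (Icc 0 1)) :
    ∃ h : Y → Y', ContinuousOn h (α '' Icc 0 1) ∧ ∀ t ∈ Icc (0 : ℝ) 1, h (α t) = α' t := by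
  have key : ∀ t ∈ Icc (0 : ℝ) 1, (fun y => α' (Function.invFunOn α (Icc 0 1) y)) (α t) = α' t := by
    intro t ht
    have h1 : Function.invFunOn α (Icc 0 1) (α t) = t := by
      apply hi (Function.invFunOn_mem ⟨t, ht, rfl⟩) ht
      exact Function.invFunOn_eq ⟨t, ht, rfl⟩
    simp only [h1]
  refine ⟨fun y => α' (Function.invFunOn α (Icc 0 1) y), ?_, key⟩
  rw [continuousOn_iff_isClosed]
  intro T hT
  have hc : IsCompact (α '' (Icc 0 1 ∩ α' ⁻¹' T)) := by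
    have h1 : IsCompact (Icc (0 : ℝ) 1 ∩ α' ⁻¹' T) := by
      apply isCompact_Icc.of_isClosed_subset _ inter_subset_left
      exact hα'.preimage_isClosed_of_isClosed isClosed_Icc hT
    exact h1.image_of_continuousOn (hα.mono inter_subset_left)
  refine ⟨_, hc.isClosed, ?_⟩
  ext y
  constructor
  · rintro ⟨h1, t, ht, rfl⟩
    refine ⟨⟨t, ⟨ht, ?_⟩, rfl⟩, t, ht, rfl⟩
    have h2 : α' (Function.invFunOn α (Icc 0 1) (α t)) ∈ T := h1
    have h3 := key t ht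
    simp only at h3
    rw [h3] at h2
    exact h2
  · rintro ⟨⟨t, ⟨ht, h1⟩, rfl⟩, h2⟩
    refine ⟨?_, h2⟩
    change α' (Function.invFunOn α (Icc 0 1) (α t)) ∈ T
    have h3 := key t ht
    simp only at h3
    rw [h3]
    exact h1

theorem scc_compact {C : Set Y} (hC : Scc C) : IsCompact C := by
  obtain ⟨γ, ⟨h1, h2, -⟩, h3⟩ := hC
  have h4 := h2.image_Icc (by norm_num : (0 : ℝ) < 1) 0
  rw [← h3, ← h4]
  exact isCompact_Icc.image h1

theorem int_aux {C D A1 A2 P : Set Y} (h : cel C ∩ cel D ⊆ C ∩ D) (hC : A1 ∪ A2 = C)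
    (hu : cel (A1 ∪ P) ∪ cel (A2 ∪ P) = cel C) (hi : cel (A1 ∪ P) ∩ cel (A2 ∪ P) = P) :
    cel (A1 ∪ P) ∩ cel D ⊆ (A1 ∪ P) ∩ D := by
  rintro y ⟨h1, h2⟩
  have h3 : y ∈ cel C := by
    rw [← hu]
    exact Or.inl h1
  obtain ⟨h4, h5⟩ := h ⟨h3, h2⟩
  refine ⟨?_, h5⟩
  rw [← hC] at h4
  rcases h4 with h4 | h4
  · exact Or.inl h4
  · right
    rw [← hi]
    exact ⟨h1, Or.inl (Or.inl h4)⟩

/-- the conditions `int` for the new cells -/
theorem int_new {Z W : Type} [MetricSpace Z] {Sg : Set W} {φ : W → Set Z} {q p1 p2 : W}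
    {A1 A2 P : Set Z} (hq : q ∈ Sg)
    (h : ∀ s ∈ Sg, ∀ r ∈ Sg, s ≠ r → cel (φ s) ∩ cel (φ r) ⊆ φ s ∩ φ r)
    (hC : A1 ∪ A2 = φ q) (hu : cel (A1 ∪ P) ∪ cel (A2 ∪ P) = cel (φ q))
    (hi : cel (A1 ∪ P) ∩ cel (A2 ∪ P) = P) (h1 : φ p1 = A1 ∪ P) (h2 : φ p2 = A2 ∪ P) :
    ∀ s ∈ (Sg \ {q}) ∪ {p1, p2}, ∀ r ∈ (Sg \ {q}) ∪ {p1, p2}, s ≠ r →
      cel (φ s) ∩ cel (φ r) ⊆ φ s ∩ φ r := by
  have k1 : ∀ r ∈ Sg \ {q}, cel (A1 ∪ P) ∩ cel (φ r) ⊆ (A1 ∪ P) ∩ φ r := by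
    intro r hr
    exact int_aux (h q hq r hr.1 (fun e => hr.2 e.symm)) hC hu hi
  have k2 : ∀ r ∈ Sg \ {q}, cel (A2 ∪ P) ∩ cel (φ r) ⊆ (A2 ∪ P) ∩ φ r := by
    intro r hr
    refine int_aux (A2 := A1) (h q hq r hr.1 (fun e => hr.2 e.symm)) ?_ ?_ ?_
    · rw [union_comm, hC]
    · rw [union_comm, hu]
    · rw [inter_comm, hi]
  intro s hs r hr hsr
  rcases hs with hs | rfl | hs <;> rcases hr with hr | rfl | hr
  · exact h s hs.1 r hr.1 hsr
  · rw [inter_comm, inter_comm (φ s), h1]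
    exact k1 s hs
  · rw [mem_singleton_iff.1 hr, inter_comm, inter_comm (φ s), h2]
    exact k2 s hs
  · rw [h1]
    exact k1 r hr
  · exact absurd rfl hsr
  · rw [mem_singleton_iff.1 hr, h1, h2, hi]
    exact fun y hy => ⟨Or.inr hy, Or.inr hy⟩
  · rw [mem_singleton_iff.1 hs, h2]
    exact k2 r hr
  · rw [mem_singleton_iff.1 hs, h1, h2, inter_comm, hi]
    exact fun y hy => ⟨Or.inr hy, Or.inr hy⟩
  · exact absurd ((mem_singleton_iff.1 hs).trans (mem_singleton_iff.1 hr).symm) hsr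

/-- the covering by the new cells -/
theorem cov_new {Z W : Type} [MetricSpace Z] {Sg : Set W} {φ : W → Set Z} {q p1 p2 : W}
    {A1 A2 P : Set Z} (hq : q ∈ Sg)
    (hu : cel (A1 ∪ P) ∪ cel (A2 ∪ P) = cel (φ q)) (h1 : φ p1 = A1 ∪ P)
    (h2 : φ p2 = A2 ∪ P) :
    (⋃ s ∈ (Sg \ {q}) ∪ {p1, p2}, cel (φ s)) = ⋃ s ∈ Sg, cel (φ s) := by
  ext y
  simp only [mem_iUnion, exists_prop]
  constructor
  · rintro ⟨s, hs | rfl | hs, hy⟩
    · exact ⟨s, hs.1, hy⟩
    · refine ⟨q, hq, ?_⟩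
      rw [← hu, ← h1]
      exact Or.inl hy
    · refine ⟨q, hq, ?_⟩
      rw [← hu, ← h2, ← mem_singleton_iff.1 hs]
      exact Or.inr hy
  · rintro ⟨s, hs, hy⟩
    by_cases e : s = q
    · subst e
      rw [← hu] at hy
      rcases hy with hy | hy
      · exact ⟨p1, Or.inr (Or.inl rfl), by rw [h1]; exact hy⟩
      · exact ⟨p2, Or.inr (Or.inr rfl), by rw [h2]; exact hy⟩
    · exact ⟨s, Or.inl ⟨hs, e⟩, hy⟩

end STP

open STP in
open Classical in
theorem t_STP : M_STP := by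
  intro hARB Y Y' _ _ S S' K K' Sg g hS hS' hst q hq A1 A2 P a b hA1 hA2 h12 hi hP hPi
  obtain ⟨hqS, hqS'⟩ := hst.mem q hq
  set G : Set Y := ⋃ r ∈ Sg, r.1 with hG
  have hsub : ∀ r ∈ Sg, r.1 ⊆ G := fun r hr y hy => by
    rw [hG]
    exact mem_biUnion hr hy
  have hqG : q.1 ⊆ G := hsub q hq
  have hA1q : A1 ⊆ q.1 := by rw [← h12]; exact subset_union_left
  have hA2q : A2 ⊆ q.1 := by rw [← h12]; exact subset_union_right
  obtain ⟨hab, haA1, hbA1, -⟩ := hARB Y A1 a b hA1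
  obtain ⟨-, haA2, hbA2, -⟩ := hARB Y A2 a b hA2
  obtain ⟨-, haP, hbP, -, hPc, -⟩ := hARB Y P a b hP
  have haG : a ∈ G := hqG (hA1q haA1)
  have hbG : b ∈ G := hqG (hA1q hbA1)
  have hgab : g a ≠ g b := fun e => hab (hst.inj haG hbG e)
  have himg := hst.img q hq
  -- the cross-cut on the other side
  obtain ⟨P', hP', hPi'⟩ := hS'.cross q.2 hqS' (g a) (by rw [← himg]; exact ⟨a, hA1q haA1, rfl⟩)
    (g b) (by rw [← himg]; exact ⟨b, hA1q hbA1, rfl⟩) hgab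
  have harc : ∀ A ⊆ q.1, Arc A a b → Arc (g '' A) (g a) (g b) := by
    rintro A hA ⟨α, h1, h2, h3, h4, rfl⟩
    have hαG : ∀ t ∈ Icc (0 : ℝ) 1, α t ∈ G := fun t ht => hqG (hA ⟨t, ht, rfl⟩)
    refine ⟨g ∘ α, hst.cont.comp h1 hαG, fun s hs t ht e => h2 hs ht (hst.inj (hαG s hs)
      (hαG t ht) e), ?_, ?_, ?_⟩
    · rw [Function.comp_apply, h3]
    · rw [Function.comp_apply, h4]
    · rw [image_comp]
  have hB1 := harc A1 hA1q hA1
  have hB2 := harc A2 hA2q hA2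
  have h12' : g '' A1 ∪ g '' A2 = q.2 := by rw [← image_union, h12, himg]
  have hi' : g '' A1 ∩ g '' A2 = {g a, g b} := by
    rw [← hst.inj.image_inter (hA1q.trans hqG) (hA2q.trans hqG), hi, image_pair]
  obtain ⟨s1, s2, s3, s4⟩ := hS.split q.1 hqS A1 A2 P a b hA1 hA2 h12 hi hP hPi
  obtain ⟨s1', s2', s3', s4'⟩ := hS'.split q.2 hqS' (g '' A1) (g '' A2) P' (g a) (g b) hB1 hB2
    h12' hi' hP' hPi'
  -- the insides are disjoint from the curves
  have hdis : ∀ y ∈ ins q.1, y ∉ G := by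
    intro y hy hyG
    rw [hG] at hyG
    obtain ⟨r, hr, hyr⟩ := mem_iUnion₂.1 hyG
    have h1 := hS.dsj q.1 hqS
    by_cases e : q = r
    · rw [← e] at hyr
      exact disjoint_left.1 h1 hy hyr
    · exact disjoint_left.1 h1 hy (hst.int q hq r hr e ⟨Or.inr hy, Or.inl hyr⟩).1
  have hdis' : ∀ y ∈ G, g y ∉ ins q.2 := by
    intro y hyG hy
    rw [hG] at hyG
    obtain ⟨r, hr, hyr⟩ := mem_iUnion₂.1 hyG
    have hyr' : g y ∈ r.2 := by
      rw [← hst.img r hr]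
      exact ⟨y, hyr, rfl⟩
    have h1 := hS'.dsj q.2 hqS'
    by_cases e : q = r
    · rw [← e] at hyr'
      exact disjoint_left.1 h1 hy hyr'
    · exact disjoint_left.1 h1 hy (hst.int' q hq r hr e ⟨Or.inr hy, Or.inl hyr'⟩).1
  have hPG : ∀ y ∈ P, y ∈ G → y = a ∨ y = b := by
    intro y hyP hyG
    by_contra hcon
    exact hdis y (hPi ⟨hyP, by simpa using hcon⟩) hyG
  -- the map on `P`
  obtain ⟨β, b1, b2, b3, b4, b5⟩ := hP
  obtain ⟨β', c1, c2, c3, c4, c5⟩ := hP'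
  obtain ⟨h, hh1, hh2⟩ := inv_cont b1 b2 c1
  rw [← b5] at hh1
  have hha : h a = g a := by
    rw [← b3, hh2 0 (by simp), c3, b3]
  have hhb : h b = g b := by
    rw [← b4, hh2 1 (by simp), c4, b4]
  have hhP : h '' P = P' := by
    rw [b5, c5, image_image]
    exact image_congr fun t ht => hh2 t ht
  have hhinj : InjOn h P := by
    intro y hy z hz e
    rw [b5] at hy hz
    obtain ⟨s, hs, rfl⟩ := hy
    obtain ⟨t, ht, rfl⟩ := hz
    rw [hh2 s hs, hh2 t ht] at e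
    rw [c2 hs ht e]
  have e1 : EqOn (fun y => if y ∈ G then g y else h y) g G := fun y hy => by simp only [hy, if_true]
  have e2 : EqOn (fun y => if y ∈ G then g y else h y) h P := fun y hy => by
    by_cases hyG : y ∈ G
    · simp only [hyG, if_true]
      rcases hPG y hy hyG with rfl | rfl
      · exact hha.symm
      · exact hhb.symm
    · simp only [hyG, if_false]
  have hGc : IsCompact G := by
    rw [hG]
    exact hst.fin.isCompact_biUnion fun r hr => scc_compact (hS.scc _ (hst.mem r hr).1)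
  have hnew : (⋃ r ∈ (Sg \ {q}) ∪ {(A1 ∪ P, g '' A1 ∪ P'), (A2 ∪ P, g '' A2 ∪ P')}, r.1) =
      G ∪ P := by
    ext y
    simp only [mem_iUnion, exists_prop]
    constructor
    · rintro ⟨r, hr | rfl | hr, hy⟩
      · exact Or.inl (hsub r hr.1 hy)
      · rcases hy with hy | hy
        · exact Or.inl (hqG (hA1q hy))
        · exact Or.inr hy
      · rw [mem_singleton_iff.1 hr] at hy
        rcases hy with hy | hy
        · exact Or.inl (hqG (hA2q hy))
        · exact Or.inr hy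
    · rintro (hy | hy)
      · rw [hG] at hy
        obtain ⟨r, hr, hyr⟩ := mem_iUnion₂.1 hy
        by_cases e : r = q
        · rw [e, ← h12] at hyr
          rcases hyr with hyr | hyr
          · exact ⟨_, Or.inr (Or.inl rfl), Or.inl hyr⟩
          · exact ⟨_, Or.inr (Or.inr rfl), Or.inl hyr⟩
        · exact ⟨r, Or.inl ⟨hr, e⟩, hyr⟩
      · exact ⟨_, Or.inr (Or.inl rfl), Or.inr hy⟩
  refine ⟨g '' A1 ∪ P', g '' A2 ∪ P', fun y => if y ∈ G then g y else h y, ⟨?_, ?_, ?_, ?_, ?_,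
    ?_, ?_, ?_, ?_⟩, ?_⟩
  · exact (hst.fin.sdiff).union (by simp)
  · rintro r (hr | rfl | hr)
    · exact hst.mem r hr.1
    · exact ⟨s1, s1'⟩
    · rw [mem_singleton_iff.1 hr]
      exact ⟨s2, s2'⟩
  · rintro r (hr | rfl | hr)
    · rw [(e1.mono (hsub r hr.1)).image_eq]
      exact hst.img r hr.1
    · change _ '' (A1 ∪ P) = _
      rw [image_union, (e1.mono (hA1q.trans hqG)).image_eq, e2.image_eq, hhP]
    · rw [mem_singleton_iff.1 hr]
      change _ '' (A2 ∪ P) = _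
      rw [image_union, (e1.mono (hA2q.trans hqG)).image_eq, e2.image_eq, hhP]
  · rw [← hst.cov]
    exact cov_new (φ := Prod.fst) hq s3 rfl rfl
  · rw [← hst.cov']
    exact cov_new (φ := Prod.snd) hq s3' rfl rfl
  · exact int_new (φ := Prod.fst) hq hst.int h12 s3 s4 rfl rfl
  · exact int_new (φ := Prod.snd) hq hst.int' h12' s3' s4' rfl rfl
  · rw [hnew]
    have hmix : ∀ y ∈ G, ∀ z ∈ P, z ∉ G → g y ≠ h z := by
      intro y hy z hz hzG e
      have hz1 : z ≠ a := fun e => hzG (e ▸ haG)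
      have hz2 : z ≠ b := fun e => hzG (e ▸ hbG)
      apply hdis' y hy
      rw [e]
      apply hPi'
      refine ⟨by rw [← hhP]; exact ⟨z, hz, rfl⟩, ?_⟩
      rintro (e3 | e3)
      · rw [← hha] at e3
        exact hz1 (hhinj hz haP e3)
      · rw [mem_singleton_iff, ← hhb] at e3
        exact hz2 (hhinj hz hbP e3)
    intro y hy z hz e
    by_cases hyG : y ∈ G <;> by_cases hzG : z ∈ G <;> simp only [hyG, hzG, if_true, if_false] at e
    · exact hst.inj hyG hzG e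
    · exact absurd e (hmix y hyG z (hz.resolve_left hzG) hzG)
    · exact absurd e.symm (hmix z hzG y (hy.resolve_left hyG) hyG)
    · exact hhinj (hy.resolve_left hyG) (hz.resolve_left hzG) e
  · rw [hnew]
    exact (hst.cont.congr e1).union_of_isClosed (hh1.congr e2) hGc.isClosed hPc.isClosed
  · rintro r (hr | rfl | hr)
    · exact ⟨r, hr.1, subset_rfl, subset_rfl⟩
    · refine ⟨q, hq, ?_, ?_⟩
      · change (A1 ∪ P) ∪ ins (A1 ∪ P) ⊆ q.1 ∪ ins q.1
        rw [← s3]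
        exact subset_union_left
      · change (g '' A1 ∪ P') ∪ ins (g '' A1 ∪ P') ⊆ q.2 ∪ ins q.2
        rw [← s3']
        exact subset_union_left
    · rw [mem_singleton_iff.1 hr]
      refine ⟨q, hq, ?_, ?_⟩
      · change (A2 ∪ P) ∪ ins (A2 ∪ P) ⊆ q.1 ∪ ins q.1
        rw [← s3]
        exact subset_union_right
      · change (g '' A2 ∪ P') ∪ ins (g '' A2 ∪ P') ⊆ q.2 ∪ ins q.2
        rw [← s3']
        exact subset_union_right

end BBP
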