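import Pool.Agent.BBP.StmtsD

/-!
# BBP, module SWP: exchange of the two spaces
-/

set_option autoImplicit false

namespace BBP

open Set Topology Metric CTO
open Pool.Agent.LIX (CLog)

theorem t_SWP : M_SWP := by
  intro hSCB Y Y' _ _ S S' K K' Sg g hS hS' hK hSta
  classical
  have hne : Nonempty Y := ⟨hK.some⟩
  have hinv : ∀ x ∈ (⋃ q ∈ Sg, q.1 : Set Y), Function.invFunOn g (⋃ q ∈ Sg, q.1) (g x) = x :=
    fun x hx => hSta.inj.leftInvOn_invFunOn hx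
  have hsub : ∀ q ∈ Sg, q.1 ⊆ (⋃ q ∈ Sg, q.1 : Set Y) := fun q hq =>
    subset_biUnion_of_mem (u := fun q : Set Y × Set Y' => q.1) hq
  have hcpt : IsCompact (⋃ q ∈ Sg, q.1 : Set Y) :=
    hSta.fin.isCompact_biUnion fun q hq => (hSCB Y q.1 (hS.scc q.1 (hSta.mem q hq).1)).1
  have hG' : (⋃ q' ∈ Prod.swap '' Sg, q'.1 : Set Y') = g '' (⋃ q ∈ Sg, q.1) := by
    rw [biUnion_image, image_iUnion₂]
    exact iUnion₂_congr fun q hq => (hSta.img q hq).symm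
  refine ⟨Function.invFunOn g (⋃ q ∈ Sg, q.1), ?_, ?_, ?_, ?_, ?_, ?_, ?_, ?_, ?_⟩
  · exact hSta.fin.image _
  · rintro _ ⟨q, hq, rfl⟩
    exact ⟨(hSta.mem q hq).2, (hSta.mem q hq).1⟩
  · rintro _ ⟨q, hq, rfl⟩
    change Function.invFunOn g (⋃ q ∈ Sg, q.1) '' q.2 = q.1
    rw [← hSta.img q hq, image_image]
    ext x
    constructor
    · rintro ⟨y, hy, rfl⟩
      change Function.invFunOn g (⋃ q ∈ Sg, q.1) (g y) ∈ q.1
      rw [hinv y (hsub q hq hy)]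
      exact hy
    · intro hx
      exact ⟨x, hx, hinv x (hsub q hq hx)⟩
  · rw [biUnion_image]
    exact hSta.cov'
  · rw [biUnion_image]
    exact hSta.cov
  · rintro _ ⟨q, hq, rfl⟩ _ ⟨r, hr, rfl⟩ hne'
    exact hSta.int' q hq r hr fun h => hne' (by rw [h])
  · rintro _ ⟨q, hq, rfl⟩ _ ⟨r, hr, rfl⟩ hne'
    exact hSta.int q hq r hr fun h => hne' (by rw [h])
  · rw [hG']
    rintro _ ⟨x, hx, rfl⟩ _ ⟨y, hy, rfl⟩ hxy
    rw [hinv x hx, hinv y hy] at hxy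
    rw [hxy]
  · rw [hG', continuousOn_iff_isClosed]
    intro t ht
    have h1 : IsCompact ((⋃ q ∈ Sg, q.1 : Set Y) ∩ t) := hcpt.inter_right ht
    refine ⟨g '' ((⋃ q ∈ Sg, q.1 : Set Y) ∩ t),
      (h1.image_of_continuousOn (hSta.cont.mono inter_subset_left)).isClosed, ?_⟩
    ext y
    constructor
    · rintro ⟨h2, x, hx, rfl⟩
      refine ⟨⟨x, ⟨hx, ?_⟩, rfl⟩, x, hx, rfl⟩
      have h3 : Function.invFunOn g (⋃ q ∈ Sg, q.1) (g x) ∈ t := h2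
      rwa [hinv x hx] at h3
    · rintro ⟨⟨x, hx, rfl⟩, h2⟩
      refine ⟨?_, h2⟩
      change Function.invFunOn g (⋃ q ∈ Sg, q.1) (g x) ∈ t
      rw [hinv x hx.1]
      exact hx.2

end BBP
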