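import Pool.Agent.CTO.Stmts2
import Pool.Agent.LIX.Bors

/-!
# MP_6eac38_gt, third part (BBP): products and flows. Definitions

* `HasFlow`, `HasProduct`, `MainStmt3`: the theorem.
* `ExtC L K f`: `f` on `L` has a continuous extension to `K` without zeros (values in `ℂ`).
* `Sm ε l`: all distances in the list `l` are `< ε`.  Integer valued cochains are functions of 2, 3, 4, 5 points;
  `d1, d2, d3, d4` are the coboundaries, `pr2 … pr5` the prism operators.
-/

set_option autoImplicit false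

namespace BBP

open Set Topology CTO

/-- `X` has a nontrivial flow: a continuous action of `ℝ` with a point that is not fixed -/
def HasFlow (X : Type) [TopologicalSpace X] : Prop :=
  ∃ φ : ℝ → X → X, (Continuous fun p : ℝ × X => φ p.1 p.2) ∧ (∀ x, φ 0 x = x) ∧
    (∀ s t x, φ (s + t) x = φ s (φ t x)) ∧ ∃ t x, φ t x ≠ x

/-- `X` contains a 3-dimensional product of two compact metric spaces of positive dimension -/
def HasProduct (X : Type) [TopologicalSpace X] : Prop :=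
  ∃ (K Z : Type) (_ : MetricSpace K) (_ : CompactSpace K) (_ : MetricSpace Z)
    (_ : CompactSpace Z), ¬ CovDimLE K 0 ∧ ¬ CovDimLE Z 0 ∧ ¬ CovDimLE (K × Z) 2 ∧
    ∃ e : K × Z → X, Continuous e ∧ Function.Injective e

/-- the third main theorem -/
def MainStmt3 : Prop := ∀ (X : Type) [MetricSpace X] [CompactSpace X],
  IsANR X → Homog X → CovDimLE X 3 → ¬ CovDimLE X 2 →
    (IsMfd3 X ↔ HasProduct X) ∧ (IsMfd3 X ↔ HasFlow X)

/-! ### Definitions for the proof -/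

/-- `f` on `L` has an extension to `K` without zeros -/
def ExtC {Y : Type} [TopologicalSpace Y] (L K : Set Y) (f : Y → ℂ) : Prop :=
  ∃ F : Y → ℂ, ContinuousOn F K ∧ (∀ x ∈ K, F x ≠ 0) ∧ EqOn F f L

/-- `E` is separated between `a` and `b` -/
def Sepd {Z : Type} [TopologicalSpace Z] (E : Set Z) (a b : Z) : Prop :=
  ∃ A B : Set Z, IsClosed A ∧ IsClosed B ∧ Disjoint A B ∧ A ∪ B = E ∧ a ∈ A ∧ b ∈ B

/-- small tuples -/
def Sm {X : Type} [MetricSpace X] (ε : ℝ) (l : List X) : Prop :=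
  ∀ x ∈ l, ∀ y ∈ l, dist x y < ε

theorem Sm.mono {X : Type} [MetricSpace X] {ε ε' : ℝ} {l l' : List X} (h : Sm ε l)
    (hl : ∀ x ∈ l', x ∈ l) (he : ε ≤ ε') : Sm ε' l' :=
  fun x hx y hy => (h x (hl x hx) y (hl y hy)).trans_le he

section cochains

variable {X P : Type}

/-- coboundary of a 1-cochain -/
def d1 (κ : X → X → ℤ) (a b c : X) : ℤ := κ b c - κ a c + κ a b

/-- coboundary of a 2-cochain -/
def d2 (ψ : X → X → X → ℤ) (a b c d : X) : ℤ := ψ b c d - ψ a c d + ψ a b d - ψ a b c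

/-- coboundary of a 3-cochain -/
def d3 (φ : X → X → X → X → ℤ) (a b c d e : X) : ℤ :=
  φ b c d e - φ a c d e + φ a b d e - φ a b c e + φ a b c d

/-- coboundary of a 4-cochain -/
def d4 (θ : X → X → X → X → X → ℤ) (a b c d e f : X) : ℤ :=
  θ b c d e f - θ a c d e f + θ a b d e f - θ a b c e f + θ a b c d f - θ a b c d e

theorem d2_d1 (κ : X → X → ℤ) (a b c d : X) : d2 (d1 κ) a b c d = 0 := by
  simp only [d1, d2]
  ring

theorem d3_d2 (ψ : X → X → X → ℤ) (a b c d e : X) : d3 (d2 ψ) a b c d e = 0 := by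
  simp only [d2, d3]
  ring

theorem d4_d3 (φ : X → X → X → X → ℤ) (a b c d e f : X) : d4 (d3 φ) a b c d e f = 0 := by
  simp only [d3, d4]
  ring

/-- prism operators for two maps `f g : P → X` -/
def pr2 (f g : P → X) (ψ : X → X → X → ℤ) (a b : P) : ℤ :=
  ψ (f a) (g a) (g b) - ψ (f a) (f b) (g b)

/-- prism operator -/
def pr3 (f g : P → X) (φ : X → X → X → X → ℤ) (a b c : P) : ℤ :=
  φ (f a) (g a) (g b) (g c) - φ (f a) (f b) (g b) (g c) + φ (f a) (f b) (f c) (g c)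

/-- prism operator -/
def pr4 (f g : P → X) (θ : X → X → X → X → X → ℤ) (a b c d : P) : ℤ :=
  θ (f a) (g a) (g b) (g c) (g d) - θ (f a) (f b) (g b) (g c) (g d) +
    θ (f a) (f b) (f c) (g c) (g d) - θ (f a) (f b) (f c) (f d) (g d)

/-- prism operator -/
def pr5 (f g : P → X) (θ : X → X → X → X → X → X → ℤ) (a b c d e : P) : ℤ :=
  θ (f a) (g a) (g b) (g c) (g d) (g e) - θ (f a) (f b) (g b) (g c) (g d) (g e) +
    θ (f a) (f b) (f c) (g c) (g d) (g e) - θ (f a) (f b) (f c) (f d) (g d) (g e) +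
    θ (f a) (f b) (f c) (f d) (f e) (g e)

theorem prism2 (f g : P → X) (ψ : X → X → X → ℤ) (a b c : P) :
    ψ (g a) (g b) (g c) - ψ (f a) (f b) (f c) =
      d1 (pr2 f g ψ) a b c + pr3 f g (d2 ψ) a b c := by
  simp only [d1, d2, pr2, pr3]
  ring

theorem prism3 (f g : P → X) (φ : X → X → X → X → ℤ) (a b c d : P) :
    φ (g a) (g b) (g c) (g d) - φ (f a) (f b) (f c) (f d) =
      d2 (pr3 f g φ) a b c d + pr4 f g (d3 φ) a b c d := by
  simp only [d2, d3, pr3, pr4]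
  ring

theorem prism4 (f g : P → X) (θ : X → X → X → X → X → ℤ) (a b c d e : P) :
    θ (g a) (g b) (g c) (g d) (g e) - θ (f a) (f b) (f c) (f d) (f e) =
      d3 (pr4 f g θ) a b c d e + pr5 f g (d4 θ) a b c d e := by
  simp only [d3, d4, pr4, pr5]
  ring

/-- antisymmetric -/
def Alt2 (κ : X → X → ℤ) : Prop := ∀ a b, κ b a = -κ a b

/-- antisymmetric -/
def Alt3 (ψ : X → X → X → ℤ) : Prop := ∀ a b c, ψ b a c = -ψ a b c ∧ ψ a c b = -ψ a b c

/-- antisymmetric -/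
def Alt4 (φ : X → X → X → X → ℤ) : Prop := ∀ a b c d,
  φ b a c d = -φ a b c d ∧ φ a c b d = -φ a b c d ∧ φ a b d c = -φ a b c d

end cochains

/-- symmetric rounding -/
noncomputable def rnd (r : ℝ) : ℤ := if 0 ≤ r then ⌊r + 1 / 2⌋ else -⌊-r + 1 / 2⌋

/-- an argument, in full turns -/
noncomputable def th {K : Type} (f : K → ℂ) (x : K) : ℝ := Complex.arg (f x) / (2 * Real.pi)

open Classical in
/-- the integral cocycle of the map `f : L → ℂ \ 0` -/
noncomputable def cc {K : Type} (L : Set K) (f : K → ℂ) (x y : K) : ℤ :=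
  if x ∈ L ∧ y ∈ L then rnd (th f y - th f x) else 0

/-- the 2-cochain on the product, `χ` has the values 0 and 1 -/
noncomputable def vv {K Z : Type} (L : Set K) (f : K → ℂ) (χ : Z → ℤ) (p q r : K × Z) : ℤ :=
  d1 (cc L f) p.1 q.1 r.1 * max (χ p.2) (max (χ q.2) (χ r.2))

/-- `γ` parametrises a simple closed curve -/
def Scp {Y : Type} [TopologicalSpace Y] (γ : ℝ → Y) : Prop :=
  Continuous γ ∧ Function.Periodic γ 1 ∧ InjOn γ (Ico 0 1)

/-- simple closed curve -/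
def Scc {Y : Type} [TopologicalSpace Y] (C : Set Y) : Prop := ∃ γ : ℝ → Y, Scp γ ∧ range γ = C

/-- `A` is an arc from `a` to `b` -/
def Arc {Y : Type} [TopologicalSpace Y] (A : Set Y) (a b : Y) : Prop :=
  ∃ α : ℝ → Y, ContinuousOn α (Icc 0 1) ∧ InjOn α (Icc 0 1) ∧ α 0 = a ∧ α 1 = b ∧
    A = α '' Icc 0 1

/-- `f` is a generator on the simple closed curve `C` -/
def Gen {Y : Type} [TopologicalSpace Y] (C : Set Y) (f : Y → ℂ) : Prop :=
  ∃ γ : ℝ → Y, Scp γ ∧ range γ = C ∧ ∀ t : ℝ, f (γ t) = Complex.exp (2 * Real.pi * t * Complex.I)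

/-- `g` has the degree `n` on `C`, with respect to the generator `f` -/
def Deg {Y : Type} [TopologicalSpace Y] (C : Set Y) (f g : Y → ℂ) (n : ℤ) : Prop :=
  Pool.Agent.LIX.CLog C fun x => g x / f x ^ n

/-- the simple closed curve `C` is contractible in `T` -/
def Contr {Y : Type} [TopologicalSpace Y] (T C : Set Y) : Prop :=
  ∀ γ : ℝ → Y, Scp γ → range γ = C → ∃ c : ℝ × ℝ → Y, ContinuousOn c (Icc 0 1 ×ˢ Icc 0 1) ∧
    (∀ t ∈ Icc (0 : ℝ) 1, c (t, 0) = γ t) ∧ (∀ s ∈ Icc (0 : ℝ) 1, c (0, s) = c (1, s)) ∧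
    (∀ t ∈ Icc (0 : ℝ) 1, c (t, 1) = c (0, 1)) ∧ ∀ q ∈ Icc (0 : ℝ) 1 ×ˢ Icc (0 : ℝ) 1, c q ∈ T

/-- `Q` is the inside of a minimal membrane for the map `f` on `L` -/
structure Mem {Y : Type} [TopologicalSpace Y] (L : Set Y) (f : Y → ℂ) (Q : Set Y) : Prop where
  cont : ContinuousOn f L
  ne : ∀ x ∈ L, f x ≠ 0
  cptL : IsCompact L
  opn : IsOpen Q
  conn : IsConnected Q
  disj : Disjoint Q L
  clos : closure Q ⊆ Q ∪ L
  cpt : IsCompact (L ∪ Q)
  ess : ¬ ExtC L (L ∪ Q) f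

/-- the inside of `C`: the union of the components of the complement with compact closure -/
def ins {Y : Type} [TopologicalSpace Y] (C : Set Y) : Set Y :=
  ⋃₀ {Q | IsOpen Q ∧ IsConnected Q ∧ Disjoint Q C ∧ IsCompact (C ∪ Q)}

/-- the axioms for the 2-dimensional space: `loc`: small sets contract; `om`: minimal membranes are open -/
structure Ax (Y : Type) [MetricSpace Y] : Prop where
  lc : LocallyCompactSpace Y
  conn : ConnectedSpace Y
  ncpt : ¬ CompactSpace Y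
  loc : ∀ (x : Y) (W : Set Y), IsOpen W → x ∈ W → ∃ W1 ⊆ W, IsOpen W1 ∧ x ∈ W1 ∧
    ∃ H : Y × ℝ → Y, ContinuousOn H (W1 ×ˢ Icc 0 1) ∧ (∀ y ∈ W1, H (y, 0) = y) ∧
      (∀ y ∈ W1, H (y, 1) = x) ∧ ∀ y ∈ W1, ∀ t ∈ Icc (0 : ℝ) 1, H (y, t) ∈ W
  om : ∀ (L K : Set Y) (f : Y → ℂ), IsCompact L → IsCompact K → L ⊆ K → ContinuousOn f L →
    (∀ x ∈ L, f x ≠ 0) → ¬ ExtC L K f →
    (∀ W : Set Y, IsOpen W → (W ∩ (K \ L)).Nonempty → ExtC L ((K \ W) ∪ L) f) → IsOpen (K \ L)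

end BBP
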