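import Pool.Agent.BBP.StmtsB

/-!
# BBP, block C: cells, cross-cuts, theta curves, small subdivisions

Module `X` proves `theorem t_X : M_X` (or `t_X : S_X` if there is no `M_X`) in the namespace `BBP`, in the file
`Pool/Agent/BBP/C_X.lean`, importing this file (the statements `S_PTA`, `S_ARB`, `S_SCA`, `S_SCB`, `S_GLU`, `S_DEG`, `S_TRI`, `S_INC`, `S_ACC` of block B come as
hypotheses).  Everything happens in a plane-like pair `Pln U V` (structure in `StmtsB.lean`).  The closed cell of an scc `C` is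
`C ∪ ins C`.  In an open connected set, any two points are joined by a path (`Pln.lpc`), so by an arc (S_PTA).
For an scc `C ⊆ U`, `ins C` is open and, by `Pln.clos`, closed in `Cᶜ`: a connected set disjoint from `C` which meets `ins C` is contained in it.
-/

set_option autoImplicit false

namespace BBP

open Set Topology Metric
open Pool.Agent.LIX (CLog)

/-- the scc `C` can be divided by finitely many successive cross-cuts in scc's with the property `R` -/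
inductive Div {Y : Type} [MetricSpace Y] (R : Set Y → Prop) : Set Y → Prop
  | leaf (C : Set Y) : R C → Div R C
  | node (C A1 A2 P : Set Y) (a b : Y) : Arc A1 a b → Arc A2 a b → A1 ∪ A2 = C →
      A1 ∩ A2 = {a, b} → Arc P a b → P \ {a, b} ⊆ ins C → Div R (A1 ∪ P) → Div R (A2 ∪ P) →
      Div R C

theorem Div.bind {Y : Type} [MetricSpace Y] {R R' : Set Y → Prop} {C : Set Y} (h : Div R C)
    (hR : ∀ C' : Set Y, R C' → Div R' C') : Div R' C := by
  induction h with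
  | leaf C h => exact hR C h
  | node C A1 A2 P a b h1 h2 h3 h4 h5 h6 _ _ ih1 ih2 =>
    exact Div.node C A1 A2 P a b h1 h2 h3 h4 h5 h6 ih1 ih2

theorem Div.imp {Y : Type} [MetricSpace Y] {R R' : Set Y → Prop} {C : Set Y} (h : Div R C)
    (hR : ∀ C' : Set Y, R C' → R' C') : Div R' C :=
  h.bind fun C' hC' => Div.leaf C' (hR C' hC')

/-- ULC. The inside is uniformly locally connected. PROOF. Let `W'` be an open neighbourhood of `x` with compact closure contained in `W ∩ V`. S_SCB (iv) with `W'`: `C = A ∪ B`, arcs from `a` to `b`, `x ∈ B`, `x ∉ A`, `B ⊆ W'`. `T1 = C`,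
`T2 = A ∪ (closure W' \ W')`, compact, in `V`; `T1 ∩ T2 = A` (as `B ⊆ W'`) is connected. Let `W'' ⊆ W'` be a path connected open neighbourhood of `x` disjoint from `A`. Let `y, z ∈ W'' ∩ ins C`. They are joined in `V \ T1` (in the open connected set `ins C`) and in
`V \ T2` (in `W''`), so by `Pln.jan` in `V \ (T1 ∪ T2)`. This path is disjoint from `C` and starts in `ins C`, so it stays in `ins C`; it is disjoint from `closure W' \ W'` and starts in `W'`, so it stays in `W' ⊆ W`. -/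
def S_ULC : Prop := ∀ (Y : Type) [MetricSpace Y] (U V : Set Y), Pln U V → ∀ C : Set Y, Scc C →
  C ⊆ V → ∀ x ∈ C, ∀ W : Set Y, IsOpen W → x ∈ W → ∃ W2 ⊆ W, IsOpen W2 ∧ x ∈ W2 ∧
    ∀ y ∈ W2 ∩ ins C, ∀ z ∈ W2 ∩ ins C, JoinedIn (W ∩ ins C) y z

def M_ULC : Prop := S_SCB → S_ARB → S_ULC

/-- ACP. All points of `C` are accessible from the inside. PROOF. By S_ULC there are open neighbourhoods `G n ⊆ ball x (1/(n+1))` of `x`, decreasing, such that any two points of `G n ∩ ins C` are joined in `ball x (1/(n+1)) ∩ ins C`. Choose `y n ∈ G n ∩ ins C` (`x ∈ closure (ins C)` by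
`Pln.clos`) and paths `p n` from `y n` to `y (n+1)` in `ball x (1/(n+1)) ∩ ins C`. Run through `p n` on the interval `[1 - 2⁻ⁿ, 1 - 2⁻ⁿ⁻¹]`; value `x` at `1`: continuous. (One can first define a continuous function on `[0, ∞)` with
`γ (n + s) = p n s` and limit `x` at infinity, and reparametrise by `t / (1 - t)`.) -/
def S_ACP : Prop := ∀ (Y : Type) [MetricSpace Y] (U V : Set Y), Pln U V → ∀ C : Set Y, Scc C →
  C ⊆ V → ∀ x ∈ C, Accs (ins C) x

def M_ACP : Prop := S_ULC → S_ACP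

/-- XCT. Cross-cuts exist: S_ACC (II) for the open connected set `ins C`. -/
def S_XCT : Prop := ∀ (Y : Type) [MetricSpace Y] (U V : Set Y), Pln U V → ∀ C : Set Y, Scc C →
  C ⊆ V → ∀ a ∈ C, ∀ b ∈ C, a ≠ b → ∃ P : Set Y, Arc P a b ∧ P \ {a, b} ⊆ ins C

def M_XCT : Prop := S_ACC → S_ACP → S_XCT

/-- THA. Theta curves, first part. PROOF. `P ∩ C = {a, b}` (`P \ {a, b} ⊆ ins C`), so `C1 = A1 ∪ P`, `C2 = A2 ∪ P` are scc's in `U` (S_GLU). Let `E = U \ (C ∪ ins C)`, connected, and `A2' = A2 \ {a, b}`, connected (S_ARB), `A2' ⊆ C ⊆ closure E`. So `E ∪ A2'` is connected, and it is disjoint from `C1`.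
It is not contained in `ins C1`: otherwise `E ⊆ C1 ∪ ins C1`, compact, against `Pln.ncp` for `C`. So it is disjoint from `ins C1`. So `ins C1` is disjoint from `C1`, `A2'`, `E`: `ins C1 ⊆ ins C \ P`. Same for `C2`. Suppose `ins C1` and `ins C2` meet: `ins C1` is connected and disjoint from
`C ∪ P ⊇ C2`, so `ins C1 ⊆ ins C2`, and symmetrically; so they are equal. But `A2' ⊆ closure (ins C2) = C2 ∪ ins C2`, and the points of `A2'` are not in `closure (ins C1) = C1 ∪ ins C1`. -/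
def S_THA : Prop := ∀ (Y : Type) [MetricSpace Y] (U V : Set Y), Pln U V →
  ∀ (C A1 A2 P : Set Y) (a b : Y), Scc C → C ⊆ U → Arc A1 a b → Arc A2 a b → A1 ∪ A2 = C →
  A1 ∩ A2 = {a, b} → Arc P a b → P \ {a, b} ⊆ ins C →
  Scc (A1 ∪ P) ∧ Scc (A2 ∪ P) ∧ ins (A1 ∪ P) ⊆ ins C \ P ∧ ins (A2 ∪ P) ⊆ ins C \ P ∧
    Disjoint (ins (A1 ∪ P)) (ins (A2 ∪ P))

def M_THA : Prop := S_ARB → S_GLU → S_THA

/-- THB. Theta curves, second part. PROOF. Suppose `w ∈ ins C \ P`, `w ∉ ins C1`, `w ∉ ins C2` (`C1 = A1 ∪ P`, `C2 = A2 ∪ P`). Let `R` be the connected component of `w` in the open set `U \ (C ∪ P)`: open, connected, `Clo U (C ∪ P) R`, `R ⊆ ins C`, and disjoint from `ins C1`, `ins C2` (which are connected, contained in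
`U \ (C ∪ P)` by S_THA, and open and closed there). (1) `closure R` meets `A2' = A2 \ {a, b}`: otherwise `closure R ∩ U ⊆ R ∪ C1`, so `R` is open and closed in `U \ C1`; `U \ C1` is the union of the disjoint connected open sets `ins C1` and `U \ (C1 ∪ ins C1)`, so `R` contains one of them, hence
(not the first) `A2' ⊆ U \ (C1 ∪ ins C1) ⊆ R`, but `R ∩ C = ∅`. (2) Similarly `closure R` meets `A1' = A1 \ {a, b}`. (3) By S_ACC (I) (with a neighbourhood `N` such that `N ∩ (C ∪ P) ⊆ A1'`, resp. `A2'`) there are `a1 ∈ A1'`, `a2 ∈ A2'` accessible from `R`, and `a1' ∈ A1'`, `a2' ∈ A2'` accessible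
from `E = U \ (C ∪ ins C)`, with `a1' ≠ a1`, `a2' ≠ a2` (`Clo U C E`, `C ⊆ closure E`). By S_ACC (II) there are arcs `B1 ⊆ R ∪ {a1, a2}` from `a1` to `a2` and `B2 ⊆ E ∪ {a1', a2'}` from `a1'` to `a2'`. Let `D1 ⊆ A1'` be the subarc between `a1` and `a1'`, `D2 ⊆ A2'` between `a2` and `a2'`.
`J' = B1 ∪ D2 ∪ B2 ∪ D1` is an scc in `U` (S_GLU). The set `S = P ∪ (A1 \ D1) ∪ (A2 \ D2)` is connected (`A1 \ D1` consists of two half-open arcs, one contains `a`, the other one `b`) and disjoint from `J'`; `S ∪ J' ⊇ C ∪ P`. (4) `U \ J'` is the disjoint union of the connected sets `ins J'` and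
`U \ (J' ∪ ins J')`, both open; `S` is contained in one of them; let `R'` be the other one: connected, disjoint from `S ∪ J' ⊇ C ∪ P`, `J' ⊆ closure R'` (`Pln.clos`, `Pln.outc`). As `B1 \ {a1, a2} ⊆ R` is nonempty and in `closure R'`, `R'` meets `R`; as `R'` is connected and in `U \ (C ∪ P)`, `R' ⊆ R ⊆ ins C`. In the same way `R'` meets
`E`: contradiction. -/
def S_THB : Prop := ∀ (Y : Type) [MetricSpace Y] (U V : Set Y), Pln U V →
  ∀ (C A1 A2 P : Set Y) (a b : Y), Scc C → C ⊆ U → Arc A1 a b → Arc A2 a b → A1 ∪ A2 = C →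
  A1 ∩ A2 = {a, b} → Arc P a b → P \ {a, b} ⊆ ins C →
  ins C ⊆ ins (A1 ∪ P) ∪ ins (A2 ∪ P) ∪ P

def M_THB : Prop := S_ARB → S_GLU → S_ACC → S_THA → S_THB

/-- THE. Summary: `C ∪ ins C` is divided in the cells of `A1 ∪ P` and `A2 ∪ P`, with intersection `P`. From S_THA, S_THB by set theory: `A1 ∩ P = A2 ∩ P = A1 ∩ A2 = {a, b}`; `ins C1` is disjoint from `C` (`ins C1 ⊆ ins C`), `P`, `ins C2`. -/
def S_THE : Prop := ∀ (Y : Type) [MetricSpace Y] (U V : Set Y), Pln U V →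
  ∀ (C A1 A2 P : Set Y) (a b : Y), Scc C → C ⊆ U → Arc A1 a b → Arc A2 a b → A1 ∪ A2 = C →
  A1 ∩ A2 = {a, b} → Arc P a b → P \ {a, b} ⊆ ins C →
  Scc (A1 ∪ P) ∧ Scc (A2 ∪ P) ∧ P ⊆ C ∪ ins C ∧ ins (A1 ∪ P) ⊆ ins C ∧
    ins (A2 ∪ P) ⊆ ins C ∧ Disjoint (ins (A1 ∪ P)) P ∧ Disjoint (ins (A2 ∪ P)) P ∧
    Disjoint (ins (A1 ∪ P)) (ins (A2 ∪ P)) ∧
    ((A1 ∪ P) ∪ ins (A1 ∪ P)) ∪ ((A2 ∪ P) ∪ ins (A2 ∪ P)) = C ∪ ins C ∧
    ((A1 ∪ P) ∪ ins (A1 ∪ P)) ∩ ((A2 ∪ P) ∪ ins (A2 ∪ P)) = P ∧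
    ins C ⊆ ins (A1 ∪ P) ∪ ins (A2 ∪ P) ∪ P

def M_THE : Prop := S_ARB → S_THA → S_THB → S_THE

/-- LMX. Cross-cuts through a given open set. PROOF. Let `a ≠ b` be in `C`, `w ∈ O ∩ ins C`, `O' ⊆ O ∩ ins C` an open path connected neighbourhood of `w`, `O1` an open path connected neighbourhood of `w` with `closure O1 ⊆ O'`. There is a path from `a` to `w` in `ins C ∪ {a}` (S_ACP, `ins C` is path
connected), so an arc `R` (S_PTA). First hit (S_ARB, last but one item) with `closure O1`: an arc `R' ⊆ R` from `a` to `w'`, `R' ∩ closure O1 = {w'}`; `R' ∩ O1 = ∅` (if `w' ∈ O1`, other points of `R'` near `w'` would be in `O1`). Let `β` be an access path from `ins C` to `b` (S_ACP); `b ∉ R'`, so there is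
`t0 < 1` with `β '' [t0, 1]` disjoint from the compact set `R'`; `y = β t0`. Apply `Pln.jan` with `T1 = C`, `T2 = R'`, `T1 ∩ T2 = {a}`, to `y` and `w`: both are in `ins C` (connected), and `V \ R'` is connected by `Pln.nsp`. So `y` and `w` are joined in `V \ (C ∪ R')`, by a path that stays in
`ins C`. Altogether: `R'` from `a` to `w'`, a path with image `Σ ⊆ O'` from `w'` to `w`, a path with image `ρ ⊆ (ins C ∪ {b}) \ R'` from `w` through `y` to `b`. S_PTA: an arc `P` from `a` to `b` in `R' ∪ Σ ∪ ρ ⊆ ins C ∪ {a, b}`. If `P ∩ O = ∅` then `P` is contained in the union of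
the disjoint compact sets `R' ∋ a` and `ρ ∋ b`: impossible, as `P` is connected. -/
def S_LMX : Prop := ∀ (Y : Type) [MetricSpace Y] (U V : Set Y), Pln U V → ∀ C O : Set Y, Scc C →
  C ⊆ V → IsOpen O → (O ∩ ins C).Nonempty →
  ∃ a ∈ C, ∃ b ∈ C, ∃ P : Set Y, Arc P a b ∧ P \ {a, b} ⊆ ins C ∧ (P ∩ O).Nonempty

def M_LMX : Prop := S_PTA → S_ARB → S_SCB → S_ACP → S_LMX

/-- DVA. Division along finitely many cross-cuts. PROOF. Induction on `s` (on its cardinality, for all `C`). `s = ∅`: leaf. Let `i ∈ s`: S_SCB (v) for `a i ≠ b i` gives `C = A1 ∪ A2`; `C1 = A1 ∪ P i`, `C2 = A2 ∪ P i` (S_THE). For `j ∈ s`, `j ≠ i`, the connected set `P j \ {a j, b j} ⊆ ins C \ P i` is contained in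
`ins C1` or `ins C2`; in the first case `a j, b j ∈ closure (ins C1) = C1 ∪ ins C1`, and they are in `C`, which is disjoint from `ins C1`, so in `C1`. Apply the induction hypothesis to `C1` and `s1 = {j ∈ s | j ≠ i, P j \ {a j, b j} ⊆ ins C1}`, and to `C2` with `s2`. The insides of the cells `C'` in
`C1` are contained in `ins C1` (`Pln.nst`, from `C' ∪ ins C' ⊆ C1 ∪ ins C1`), so disjoint from `P i` and from `P j`, `j ∈ s2` (`P j \ {a j, b j} ⊆ ins C2`, `a j, b j ∈ C`). -/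
def S_DVA : Prop := ∀ (Y : Type) [MetricSpace Y] (U V : Set Y), Pln U V →
  ∀ (ι : Type) (s : Finset ι) (P : ι → Set Y) (a b : ι → Y) (C : Set Y), Scc C → C ⊆ V →
  (∀ i ∈ s, Arc (P i) (a i) (b i) ∧ a i ∈ C ∧ b i ∈ C ∧ P i \ {a i, b i} ⊆ ins C) →
  (∀ i ∈ s, ∀ j ∈ s, i ≠ j → Disjoint (P i \ {a i, b i}) (P j)) →
  Div (fun C' => Scc C' ∧ C' ∪ ins C' ⊆ C ∪ ins C ∧ ∀ i ∈ s, Disjoint (ins C') (P i)) C

def M_DVA : Prop := S_ARB → S_SCB → S_THE → S_DVA

/-- LMA. The core of the subdivision lemma. PROOF. `y, z ∉ Jm` and `y ≠ z`. `f`: from `Pln.dip` for `y, z`; `l`: a logarithm of `f` on `V \ A`. Long intervals: `(s, t)` as in the last hypothesis; they are pairwise disjoint and have length `≥ δ`, so there are finitely many; let `T` be the union of `C` and of the sets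
`β '' [s, t]`, `(s, t)` long: compact, contained in `V \ A` (`A ⊆ ins C` is disjoint from `C`). `θ`: a logarithm of `f ∘ β` on `[0, 1]` (`cLog_convex`). Apply S_TRI. Let `(s, t)` be a complementary interval (`β s, β t ∈ T`, `β r ∉ T` for `r ∈ (s, t)`). Then `β s ∈ C`: otherwise `β s = β r'` with `r'` in an open long interval
`(s', t')`, so `s = r'` (injectivity of `β` on `[0, 1)`, `β 0 = β 1 ∈ C`), and `β r ∈ T` for `r > s` near `s`. Similarly `β t ∈ C`. So `t - s < δ` (otherwise `(s, t)` is long). `β s ≠ β t`: otherwise `s = 0`, `t = 1`, but there is a second point of `C` on `Jm`. Let `B ⊆ C` be the arc from `β s` to `β t` of the hypothesis `hC`,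
`E = β '' [s, t]` (arc, S_SCA), `E ∩ B = {β s, β t}`; `Σ = E ∪ B` is an scc (S_GLU) with diameter `< η`, in `V`, so `Σ ∪ ins Σ ⊆ D` does not contain `y, z`, and `f` has a logarithm on `Σ` (`Pln.dip`). S_INC (`Sg = Σ`, `Ga = B`): `θ t - θ s = l (β t) - l (β s)`. So S_TRI gives `θ 1 - θ 0 = l (β 1) - l (β 0) = 0`, and
`f` has a logarithm on `Jm` (S_DEG, last item): by `Pln.dip`, `y ∈ ins Jm ↔ z ∈ ins Jm`: contradiction. -/
def S_LMA : Prop := ∀ (Y : Type) [MetricSpace Y] (U V : Set Y), Pln U V →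
  ∀ (C Jm D : Set Y) (β : ℝ → Y) (η δ : ℝ), Scc C → C ⊆ V → Scp β → range β = Jm → Jm ⊆ V →
  β 0 ∈ C → (∃ x ∈ Jm, x ∈ C ∧ x ≠ β 0) → 0 < δ → δ ≤ 1 →
  (∀ Sg : Set Y, Scc Sg → Sg ⊆ V → (Sg ∩ Jm).Nonempty → (∀ u ∈ Sg, ∀ v ∈ Sg, dist u v < η) →
    Sg ∪ ins Sg ⊆ D) →
  (∀ s t : ℝ, |s - t| < δ → dist (β s) (β t) < η / 4) →
  (∀ s t : ℝ, |s - t| < δ → β s ∈ C → β t ∈ C → β s ≠ β t →
    ∃ B ⊆ C, Arc B (β s) (β t) ∧ ∀ u ∈ B, ∀ v ∈ B, dist u v < η / 4) →
  ∀ (y z : Y) (A : Set Y), Arc A y z → A ⊆ ins C → y ∉ D → z ∉ D → y ∈ ins Jm → z ∉ ins Jm →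
  z ∉ Jm →
  (∀ s t : ℝ, 0 ≤ s → s < t → t ≤ 1 → δ ≤ t - s → β s ∈ C → β t ∈ C →
    (∀ r ∈ Ioo s t, β r ∉ C) → Disjoint A (β '' Icc s t)) → False

def M_LMA : Prop := S_ARB → S_SCA → S_GLU → S_DEG → S_TRI → S_INC → S_LMA

/-- LMB. Cells with a point of the boundary in `N`. PROOF. If `C ∪ ins C ⊆ ball x ε`: leaf. Otherwise `C ⊄ Jm ∪ ins Jm` (else `ins C ⊆ ins Jm` by `Pln.nst`). `C` meets `N ⊆ ins Jm` and the complement of `Jm ∪ ins Jm`; as `C` is connected, it meets `Jm`, and in at least two points: `C \ {c}` is connected (S_SCB (iii)), and if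
it were disjoint from `Jm` it could not meet both `ins Jm` and its complement. Let `c0 ≠ c1` be in `Jm ∩ C`, `β` a parametrisation of `Jm` with `β 0 = c0` (shift). Let `η1` be from S_SCB (vi) for `η / 4`, and `0 < δ ≤ 1` such that `|s - t| < δ` implies `dist (β s) (β t) < min η1 (η / 4)` (uniform continuity of periodic functions). Let `I` be the
set of the pairs `(s, t)`, `0 ≤ s < t ≤ 1`, `δ ≤ t - s`, `β s, β t ∈ C`, `β '' (s, t) ∩ C = ∅`, `β '' (s, t) ⊆ ins C`: finite (disjoint intervals of length `≥ δ`). The arcs `P (s, t) = β '' [s, t]` (ends `β s ≠ β t`: otherwise `s = 0`, `t = 1` and `c1` would not be in `C`) satisfy the hypotheses of S_DVA, so `C` is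
divided in scc's `C'` with `C' ∪ ins C' ⊆ C ∪ ins C`, `ins C'` disjoint from these arcs. Claim: each of them is as required. Suppose that `C' ∪ ins C' = closure (ins C')` meets `N` and is not contained in `ball x ε`. Then there are `y ∈ ins C' ∩ N`, and `z ∈ ins C'` outside of the closed set
`(Jm ∪ ins Jm) ∪ {u | infDist u Jm ≤ ρ} ⊆ ball x ε`. Let `A ⊆ ins C'` be an arc from `y` to `z` (`ins C'` is open and connected; `y ∈ ins Jm`, so `y ≠ z`). `ins C' ⊆ ins C` (`Pln.nst`). S_LMA with `D = {u | infDist u Jm < ρ}` gives a contradiction; its last hypothesis: the connected set `β '' (s, t)` is disjoint from `C`, so it is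
contained in `ins C` (then `(s, t) ∈ I` and `β '' [s, t]` is disjoint from `ins C'`) or disjoint from `ins C ⊇ A`; the ends are in `C`, which is disjoint from `ins C`. -/
def S_LMB : Prop := ∀ (Y : Type) [MetricSpace Y] (U V : Set Y), Pln U V →
  ∀ (Jm N : Set Y) (x : Y) (ε ρ η : ℝ), Scc Jm → Jm ⊆ V → Jm ∪ ins Jm ⊆ ball x ε →
  0 < ρ → 0 < η → {u | infDist u Jm ≤ ρ} ⊆ ball x ε → IsOpen N → N ⊆ ins Jm →
  (∀ u ∈ N, ρ ≤ infDist u Jm) →
  (∀ Sg : Set Y, Scc Sg → Sg ⊆ V → (Sg ∩ Jm).Nonempty → (∀ u ∈ Sg, ∀ v ∈ Sg, dist u v < η) →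
    Sg ∪ ins Sg ⊆ {u | infDist u Jm < ρ}) →
  ∀ C : Set Y, Scc C → C ⊆ V → (C ∩ N).Nonempty →
  Div (fun C' => Scc C' ∧ C' ∪ ins C' ⊆ C ∪ ins C ∧
    (C' ∪ ins C' ⊆ ball x ε ∨ Disjoint (C' ∪ ins C') N)) C

def M_LMB : Prop := S_PTA → S_ARB → S_SCA → S_SCB → S_DVA → S_LMA → S_LMB

/-- LMS. PROOF. `Pln.sml`: an scc `Jm ⊆ V`, `x ∈ ins Jm`, `Jm ∪ ins Jm ⊆ ball x ε`. Let `ρ > 0` with `{u | infDist u Jm ≤ ρ} ⊆ ball x ε` (compactness of `Jm`) and `2 ρ < infDist x Jm`, `N = ins Jm ∩ ball x ρ`. `η`: for every `p ∈ Jm` let `W1 p` be from `Pln.loc` for `ball p ρ`; let `η` be a Lebesgue number of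
the cover of the compact set `Jm` by the `W1 p`: for `q ∈ Jm`, `ball q η ⊆ W1 p` for some `p`; an scc of diameter `< η` that meets `Jm` in `q` is in `W1 p`, so its cell is in `ball p ρ`. Let `C` be given. If `C ∪ ins C` is disjoint from `N`: leaf. Otherwise `ins C` meets `N` (`C ∪ ins C = closure (ins C)`, `N` open). If `C` meets
`N`: S_LMB. (In general:) S_LMX gives a cross-cut `P` from `a` to `b` that meets `N`; S_SCB (v) gives `A1, A2`; S_THE; both `A1 ∪ P` and `A2 ∪ P` meet `N`; apply S_LMB to them and use `Div.node`, `Div.imp` (the cells of `A1 ∪ P` are in `C ∪ ins C`). -/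
def S_LMS : Prop := ∀ (Y : Type) [MetricSpace Y] (U V : Set Y), Pln U V → ∀ x ∈ V, ∀ ε : ℝ,
  0 < ε → ∃ N : Set Y, IsOpen N ∧ x ∈ N ∧ ∀ C : Set Y, Scc C → C ⊆ V →
    Div (fun C' => Scc C' ∧ C' ∪ ins C' ⊆ C ∪ ins C ∧
      (C' ∪ ins C' ⊆ ball x ε ∨ Disjoint (C' ∪ ins C') N)) C

def M_LMS : Prop := S_SCB → S_THE → S_LMX → S_LMB → S_LMS

/-- a system of cells -/
structure Cel {Y : Type} [MetricSpace Y] (S : Set (Set Y)) : Prop where
  scc : ∀ C ∈ S, Scc C
  cpt : ∀ C ∈ S, IsCompact (C ∪ ins C)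
  dsj : ∀ C ∈ S, Disjoint (ins C) C
  cross : ∀ C ∈ S, ∀ a ∈ C, ∀ b ∈ C, a ≠ b → ∃ P : Set Y, Arc P a b ∧ P \ {a, b} ⊆ ins C
  split : ∀ C ∈ S, ∀ (A1 A2 P : Set Y) (a b : Y), Arc A1 a b → Arc A2 a b → A1 ∪ A2 = C →
    A1 ∩ A2 = {a, b} → Arc P a b → P \ {a, b} ⊆ ins C → A1 ∪ P ∈ S ∧ A2 ∪ P ∈ S ∧
    ((A1 ∪ P) ∪ ins (A1 ∪ P)) ∪ ((A2 ∪ P) ∪ ins (A2 ∪ P)) = C ∪ ins C ∧
    ((A1 ∪ P) ∪ ins (A1 ∪ P)) ∩ ((A2 ∪ P) ∪ ins (A2 ∪ P)) = P
  div : ∀ C ∈ S, ∀ ε : ℝ, 0 < ε →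
    Div (fun C' => C' ∈ S ∧ ∀ u ∈ C' ∪ ins C', ∀ v ∈ C' ∪ ins C', dist u v < ε) C

/-- CEL. `scc`, `cpt`, `dsj`: `Pln`; `cross`: S_XCT; `split`: S_THE (`P ⊆ C ∪ ins C ⊆ V` by `Pln.insV`). `div`: the compact set `C ∪ ins C ⊆ V` is covered by finitely many of the sets `N x` of S_LMS for `x ∈ C ∪ ins C` and `ε / 2`, say `N (x 1), …, N (x m)`. By induction on `m` with `Div.bind`: `C` can be divided in scc's `C'` in
`C ∪ ins C` (so in `V`) such that for `i = 1, …, m`: `C' ∪ ins C' ⊆ ball (x i) (ε / 2)` or `C' ∪ ins C'` is disjoint from `N (x i)` (both properties are inherited by subsets). As `C' ∪ ins C'` is nonempty and covered by the `N (x i)`, it is contained in some `ball (x i) (ε / 2)`. -/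
def S_CEL : Prop := ∀ (Y : Type) [MetricSpace Y] (U V : Set Y), Pln U V →
  Cel {C : Set Y | Scc C ∧ C ⊆ V}

def M_CEL : Prop := S_XCT → S_THE → S_LMS → S_CEL

end BBP
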