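import Pool.Agent.BBP.StmtsA
import Pool.Agent.BBP.StmtsC

/-!
# BBP, block D: back and forth, the complex plane, final assembly

Module `X` proves `theorem t_X : M_X` (or `t_X : S_X` if there is no `M_X`) in the namespace `BBP`, in the file
`Pool/Agent/BBP/D_X.lean`, importing this file.
-/

set_option autoImplicit false

namespace BBP

open Set Topology Metric CTO
open Pool.Agent.LIX (CLog)

/-! ## 1. Back and forth -/

/-- the closed cell -/
def cel {Y : Type} [TopologicalSpace Y] (C : Set Y) : Set Y := C ∪ ins C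

/-- a finite system of pairs of cells with a homeomorphism `g` of the unions of the boundary curves -/
structure Sta {Y Y' : Type} [MetricSpace Y] [MetricSpace Y'] (S : Set (Set Y))
    (S' : Set (Set Y')) (K : Set Y) (K' : Set Y') (Sg : Set (Set Y × Set Y')) (g : Y → Y') :
    Prop where
  fin : Sg.Finite
  mem : ∀ q ∈ Sg, q.1 ∈ S ∧ q.2 ∈ S'
  img : ∀ q ∈ Sg, g '' q.1 = q.2
  cov : (⋃ q ∈ Sg, cel q.1) = K
  cov' : (⋃ q ∈ Sg, cel q.2) = K'
  int : ∀ q ∈ Sg, ∀ r ∈ Sg, q ≠ r → cel q.1 ∩ cel r.1 ⊆ q.1 ∩ r.1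
  int' : ∀ q ∈ Sg, ∀ r ∈ Sg, q ≠ r → cel q.2 ∩ cel r.2 ⊆ q.2 ∩ r.2
  inj : InjOn g (⋃ q ∈ Sg, q.1)
  cont : ContinuousOn g (⋃ q ∈ Sg, q.1)

/-- `Sg'` refines `Sg` -/
def Ref {Y Y' : Type} [TopologicalSpace Y] [TopologicalSpace Y'] (Sg Sg' : Set (Set Y × Set Y')) :
    Prop := ∀ q' ∈ Sg', ∃ q ∈ Sg, cel q'.1 ⊆ cel q.1 ∧ cel q'.2 ⊆ cel q.2

/-- STP. One cross-cut. PROOF. `g a ≠ g b` are in `q.2 = g '' q.1`; `P'`: a cross-cut of `q.2` from `g a` to `g b` (`Cel.cross`). `g '' A1`, `g '' A2` are arcs from `g a` to `g b` with union `q.2` and intersection `{g a, g b}` (`g` is continuous and injective on `q.1`), so `Cel.split` applies to `q.2` too.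
`g' = g` on `G = ⋃ q.1`, and `g' = α' ∘ α⁻¹ : P → P'` on `P` (parametrisations, `a ↦ g a`, `b ↦ g b`); well defined: `P \ {a, b} ⊆ ins q.1` is disjoint from `q.1` and from the other curves `r.1` (`r.1 ∩ cel q.1 ⊆ q.1` by `int`). `G` and `P` are compact, so `g'` is continuous on `G ∪ P`; injective as `P' \ {g a, g b}` is
disjoint from `g '' G = ⋃ q.2`. `int`: for the two new cells `cel ∩ cel = P`; for a new cell, say `A1 ∪ P`, and an old `r ≠ q`: a common point is in `cel q.1 ∩ cel r.1 ⊆ q.1 ∩ r.1`, and if it is in `A2` then it is in both new cells, so in `P`; so it is in `A1 ∪ P`. Similarly in `Y'`. -/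
def S_STP : Prop := ∀ (Y Y' : Type) [MetricSpace Y] [MetricSpace Y'] (S : Set (Set Y))
  (S' : Set (Set Y')) (K : Set Y) (K' : Set Y') (Sg : Set (Set Y × Set Y')) (g : Y → Y'),
  Cel S → Cel S' → Sta S S' K K' Sg g → ∀ q ∈ Sg, ∀ (A1 A2 P : Set Y) (a b : Y), Arc A1 a b →
  Arc A2 a b → A1 ∪ A2 = q.1 → A1 ∩ A2 = {a, b} → Arc P a b → P \ {a, b} ⊆ ins q.1 →
  ∃ (B1 B2 : Set Y') (g' : Y → Y'),
    Sta S S' K K' ((Sg \ {q}) ∪ {(A1 ∪ P, B1), (A2 ∪ P, B2)}) g' ∧
    Ref Sg ((Sg \ {q}) ∪ {(A1 ∪ P, B1), (A2 ∪ P, B2)})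

def M_STP : Prop := S_ARB → S_STP

/-- RFN. Refinement along a division. PROOF. (I) For one cell: if `Div R C`, then for every state `Sg, g` and `q ∈ Sg` with `q.1 = C` there is a state `Sg', g'` that refines it such that every `q' ∈ Sg'` is in `Sg \ {q}` or has `R q'.1`: induction on `Div`; node: S_STP, then the induction hypothesis for the
first new cell, and, if the second new cell `q2` is still there, for `q2` (it is in `Sg' `, or it is not and nothing has to be done). (II) By induction on the number of the members `q` of `Sg` that do not satisfy `R q.1`. `Ref` is transitive. -/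
def S_RFN : Prop := ∀ (Y Y' : Type) [MetricSpace Y] [MetricSpace Y'] (S : Set (Set Y))
  (S' : Set (Set Y')) (K : Set Y) (K' : Set Y') (Sg : Set (Set Y × Set Y')) (g : Y → Y')
  (R : Set Y → Prop), Cel S → Cel S' → Sta S S' K K' Sg g → (∀ q ∈ Sg, Div R q.1) →
  ∃ (Sg' : Set (Set Y × Set Y')) (g' : Y → Y'), Sta S S' K K' Sg' g' ∧ Ref Sg Sg' ∧
    ∀ q ∈ Sg', R q.1

def M_RFN : Prop := S_STP → S_RFN

/-- SWP. Exchange the two spaces: `g` is a homeomorphism from the compact set `⋃ q.1` onto `⋃ q.2`. -/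
def S_SWP : Prop := ∀ (Y Y' : Type) [MetricSpace Y] [MetricSpace Y'] (S : Set (Set Y))
  (S' : Set (Set Y')) (K : Set Y) (K' : Set Y') (Sg : Set (Set Y × Set Y')) (g : Y → Y'),
  Cel S → Cel S' → K.Nonempty → Sta S S' K K' Sg g →
  ∃ g' : Y' → Y, Sta S' S K' K (Prod.swap '' Sg) g'

def M_SWP : Prop := S_SCB → S_SWP

/-- MSH. Small meshes. PROOF. `Cel.div` for `Y` and S_RFN, with `R C' = (C' ∈ S ∧ ∀ u v ∈ C' ∪ ins C', dist u v < ε)`; swap (S_SWP), `Cel.div` for `Y'` and S_RFN; swap back. The cells in `Y` stay small by `Ref`. (`Sg` is nonempty if `K` is.) -/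
def S_MSH : Prop := ∀ (Y Y' : Type) [MetricSpace Y] [MetricSpace Y'] (S : Set (Set Y))
  (S' : Set (Set Y')) (K : Set Y) (K' : Set Y') (Sg : Set (Set Y × Set Y')) (g : Y → Y'),
  Cel S → Cel S' → K.Nonempty → K'.Nonempty → Sta S S' K K' Sg g → ∀ ε : ℝ, 0 < ε →
  ∃ (Sg' : Set (Set Y × Set Y')) (g' : Y → Y'), Sta S S' K K' Sg' g' ∧ Ref Sg Sg' ∧
    ∀ q ∈ Sg', (∀ u ∈ cel q.1, ∀ v ∈ cel q.1, dist u v < ε) ∧
      ∀ u ∈ cel q.2, ∀ v ∈ cel q.2, dist u v < ε

def M_MSH : Prop := S_RFN → S_SWP → S_MSH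

/-- LIM. The homeomorphism. PROOF. Initial state: `{(C, C')}` with a homeomorphism `g : C → C'` (compare two parametrisations). By S_MSH there are states `Sg n, g n`, each refining the former one, with cells of diameter `< 1/(n+1)`. `R n = ⋃ q ∈ Sg n, cel q.1 ×ˢ cel q.2`: compact (`Cel.cpt`), decreasing by `Ref`;
`R = ⋂ R n`. For `x ∈ cel C` the sets `{y | (x, y) ∈ R n}` are nonempty (`cov`), compact and decreasing, so there is `y` with `(x, y) ∈ R`. It is unique: if `(x, y), (x, y') ∈ R n` via `q`, `r`: if `q = r` then `dist y y' < 1/(n+1)`; otherwise `x ∈ cel q.1 ∩ cel r.1 ⊆ q.1 ∩ r.1`, so `g x ∈ q.2 ∩ r.2` and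
`dist y y' ≤ dist y (g x) + dist (g x) y' < 2/(n+1)`. Symmetrically, for every `y ∈ cel C'` there is exactly one `x` (if `y ∈ cel q.2 ∩ cel r.2 ⊆ q.2 ∩ r.2`, `y = g u = g v` with `u ∈ q.1`, `v ∈ r.1`, then `u = v` by `inj`). So `R` is the graph of a bijection `h : cel C → cel C'`, continuous because `R` is compact. -/
def S_LIM : Prop := ∀ (Y Y' : Type) [MetricSpace Y] [MetricSpace Y'] (S : Set (Set Y))
  (S' : Set (Set Y')), Cel S → Cel S' → ∀ C ∈ S, ∀ C' ∈ S', ∃ h : Y → Y',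
    ContinuousOn h (cel C) ∧ InjOn h (cel C) ∧ h '' cel C = cel C'

def M_LIM : Prop := S_SCA → S_SCB → S_MSH → S_LIM

/-! ## 2. The complex plane -/

/-- CPS. Compact proper subsets of a circle. PROOF. Let `p = y + r exp (i τ)` be a point of the circle not in `A`, `γ t = y + r exp (i (τ + 2 π t))`, `A' = {t ∈ [0, 1] | γ t ∈ A}` (compact), `h` a Tietze extension of `f ∘ γ` from `A'` to `ℝ`, `h ≠ 0` on the `δ`-neighbourhood of `A'`. Let `N > 1/δ`. By induction on `k`,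
`h` has a logarithm on `A' ∩ [0, k/N]`: if `[k/N, (k+1)/N]` meets `A'`, `h` has a logarithm on this interval (`cLog_convex`), adjust it by a constant at `k/N` if `k/N ∈ A'`, and glue (the two closed sets have at most the point `k/N` in common). So `f ∘ γ` has a logarithm on `A'`; `γ` is injective on
`A'` (`0, 1 ∉ A'`): `CLog.image`. -/
def S_CPS : Prop := ∀ (y : ℂ) (r : ℝ) (A : Set ℂ) (f : ℂ → ℂ), 0 < r → A ⊆ sphere y r →
  A ≠ sphere y r → IsCompact A → ContinuousOn f A → (∀ x ∈ A, f x ≠ 0) → CLog A f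

/-- OMC. Minimal membranes in the plane are open. PROOF. Let `x ∈ K \ L` and suppose that `x` is not an interior point of `K`. Let `closedBall x (4 s)` be disjoint from `L`, `y ∉ K` with `dist x y < s`, `r = 2 s`, `B = ball y r ∋ x`, `closedBall y r` is disjoint from `L`. By hypothesis (`W = B`) `f` extends to `F` on
`(K \ B) ∪ L = K \ B`. Let `A = K ∩ sphere y r`. There is a continuous `G` on `sphere y r` without zeros, `G = F` on `A`: if `A = sphere y r` take `F`; otherwise `F` has a logarithm on `A` (S_CPS), extend it by Tietze's theorem. Let `π z = y + r (z - y) / ‖z - y‖`. `F` on `K \ B` and `G ∘ π` on `K ∩ closedBall y r` (`y ∉ K`) agree on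
`A` and give an extension of `f` to `K`: contradiction. So `K \ L` is open (every point is an interior point of `K`, and `L` is closed). -/
def S_OMC : Prop := ∀ (L K : Set ℂ) (f : ℂ → ℂ), IsCompact L → IsCompact K → L ⊆ K →
  ContinuousOn f L → (∀ x ∈ L, f x ≠ 0) → ¬ ExtC L K f →
  (∀ W : Set ℂ, IsOpen W → (W ∩ (K \ L)).Nonempty → ExtC L ((K \ W) ∪ L) f) → IsOpen (K \ L)

def M_OMC : Prop := S_CPS → S_OMC

/-- CPL. The plane as an example. `Ax ℂ`: `loc` with balls and straight lines, `om` is S_OMC. Circles: `γ t = r exp (2 π i t)`, generator `z / r`. `Uni`: `mem.ess`: a function without zeros on the closed disk cannot be `z / 3` on the circle (`exists_zero_of_sphere` in `Pool/Agent/LIX/Bors.lean`), `contr`: straight lines to `0`. `ins (sphere 0 r) = ball 0 r`: the ball is a member of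
the family in the definition of `ins`; let `Q` be a member: if it contains a point `z` with `‖z‖ > r`, it contains the ray `{t z | t ≥ 1}` (connected, disjoint from the sphere; `Q` is open, and closed in the complement of the sphere as `sphere ∪ Q` is compact), but it is bounded. -/
def S_CPL : Prop := Ax ℂ ∧ (∀ r : ℝ, 0 < r → Scc (sphere (0 : ℂ) r) ∧
    ins (sphere (0 : ℂ) r) = ball 0 r) ∧
  Uni (ball (0 : ℂ) 3) (sphere 0 3) (closedBall 0 3) (fun z => z / 3)

def M_CPL : Prop := S_OMC → S_CPL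

/-! ## 3. Discs and 3-cells -/

/-- DSC. A disc in `Y`. PROOF. S_UNI: `Uni U J0 T0 f0`. Let `x ∈ U` (`mem.conn`), point function `F` at `x` (S_PNT), scc `J ⊆ U` from S_SML (`W = univ`). S_PLN: `Pln U (ins J)`. `Pln.sml` at a point of `ins J` (`connV`): an scc `C ⊆ ins J`. S_CEL: `Cel {C | Scc C ∧ C ⊆ ins J}`. In the plane: S_CPL, S_PLN with `J = sphere 0 2 ⊆ ball 0 3`, S_CEL, and
`sphere 0 1 ⊆ ball 0 2 = ins (sphere 0 2)`. S_LIM from `ℂ` to `Y`: `cel (sphere 0 1) = closedBall 0 1`. -/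
def S_DSC : Prop := ∀ (Y : Type) [MetricSpace Y], Ax Y → (∃ (L K : Set Y) (f : Y → ℂ),
  IsCompact L ∧ IsCompact K ∧ L ⊆ K ∧ ContinuousOn f L ∧ (∀ x ∈ L, f x ≠ 0) ∧ ¬ ExtC L K f) →
  ∃ h : ℂ → Y, ContinuousOn h (closedBall 0 1) ∧ InjOn h (closedBall 0 1)

def M_DSC : Prop := S_UNI → S_PNT → S_SML → S_PLN → S_CEL → S_CPL → S_LIM → S_DSC

/-- MNI. The interval: `ess`: connectedness; `min`: let `z ∈ O`; `Oᶜ ∩ [0, z]` and `Oᶜ ∩ [z, 1]`. -/
def S_MNI : Prop := MinZ (⟨0, by norm_num, by norm_num⟩ : Icc (0 : ℝ) 1) ⟨1, by norm_num, by norm_num⟩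

/-- ARZ. An arc in the second factor. PROOF. `k ∈ A`. `b0 ∈ B` is not isolated in `Z`. S_LCA at `e (k, b0)` with `W = e '' (A ×ˢ B)`: `W1`, `H`. There is `b1 ≠ b0` with `e (k, b1) ∈ W1` (continuity). `t ↦` second coordinate of the unique `q ∈ A ×ˢ B` with `e q = H (e (k, b1), t)` is a path in `Z` from `b1` to `b0` (`e` is a homeomorphism onto its
range, `K × Z` is compact). S_PTA: an arc. -/
def S_ARZ : Prop := ∀ (X K Z : Type) [MetricSpace X] [CompactSpace X] [MetricSpace K]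
  [CompactSpace K] [MetricSpace Z] [CompactSpace Z] (e : K × Z → X) (A : Set K) (B : Set Z)
  (b0 : Z), IsANR X → Continuous e → Function.Injective e → IsOpen (e '' (A ×ˢ B)) →
  A.Nonempty → b0 ∈ B → (∀ N : Set Z, IsOpen N → b0 ∈ N → ∃ b1 ∈ N, b1 ≠ b0) →
  ∃ ζ : ℝ → Z, ContinuousOn ζ (Icc 0 1) ∧ InjOn ζ (Icc 0 1)

def M_ARZ : Prop := S_LCA → S_PTA → S_ARZ

/-- AXY. The factor. PROOF. Let `Y = Lᶜ` (subtype), `Z = [0, 1]`, `a = 0`, `b = 1`. By S_OPA and S_MNI `O = e '' (Lᶜ ×ˢ {a, b}ᶜ)` is open in `X`, and `e` is a homeomorphism from `Y × (0, 1)` onto it. `Ax Y`: `lc`: open subset of a compact space. `conn`: nonempty, since otherwise `L = univ` and `f` itself is an extension; if `Y` is the union of disjoint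
nonempty open `O1, O2` (open in `K`): `f` extends to `O1ᶜ` and to `O2ᶜ` (`MinK.min`), closed sets with union `K` and intersection `L`: `f` extends to `K`. `ncpt`: if `Y` is compact, `Lᶜ` is closed, and `f` on `L`, `1` on `Lᶜ` is an extension. `loc`: let `y ∈ W`, `W` open in `Y`; S_LCA at `e (y, 1/2)` with `e '' (W ×ˢ (0, 1))` (open in `X`) gives `𝒲1`, `H`;
`W1 = {y' ∈ W | e (y', 1/2) ∈ 𝒲1}`, and the homotopy is the first coordinate of `e⁻¹ (H (e (y', 1/2), t))`. `om`: let `L', K'` be compact in `Y`, `f'` minimal. Apply S_OPA to the compact space `K'` (subtype), `L'`, `f'` (restricted), `e (·, ·)` restricted: `MinK` holds (a set `W` open in `K'`, nonempty and disjoint from `L'` is `K' ∩ W'`; `W' ∩ (K' \ L') ≠ ∅`, and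
`(K' \ W') ∪ L' = K' \ W'`). So `e '' ((K' \ L') ×ˢ {a, b}ᶜ)` is open in `X`, hence `K' \ L'` is open in `Y` (preimage under `y ↦ e (y, 1/2)`). Last item: let `x ∈ Y` and `W` an open neighbourhood of `x` in `K` with `closure W ⊆ Lᶜ`; `F` an extension of `f` to `Wᶜ`; the pair `closure W \ W ⊆ closure W` with `F`: an extension to `closure W` would give an extension
of `f` to `K`. -/
def S_AXY : Prop := ∀ (X K : Type) [MetricSpace X] [CompactSpace X] [MetricSpace K]
  [CompactSpace K] (e : K × Icc (0 : ℝ) 1 → X) (L : Set K) (f : K → ℂ), IsANR X → Homog X →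
  ShrLE X 3 → Continuous e → Function.Injective e → MinK L f →
  Ax (Lᶜ : Set K) ∧ ∃ (L' K' : Set (Lᶜ : Set K)) (f' : (Lᶜ : Set K) → ℂ),
    IsCompact L' ∧ IsCompact K' ∧ L' ⊆ K' ∧ ContinuousOn f' L' ∧ (∀ x ∈ L', f' x ≠ 0) ∧
      ¬ ExtC L' K' f'

def M_AXY : Prop := S_LCA → S_OPA → S_MNI → S_AXY

/-- PRM. Products give manifolds. PROOF. By `CTO.S_SHR` we may use `ShrLE`. `ShrLE (K × Z) 3` by S_EMB, so by S_NPR `¬ ShrLE K 1` or `¬ ShrLE Z 1`; exchanging `K` and `Z` we may assume `¬ ShrLE K 1` (and `¬ ShrLE Z 0`). (If `K × Z` is empty, `ShrLE (K × Z) 2`; so `Z` has a point and S_EMB gives `ShrLE K 3`.) S_NEX: `L, K', f` in `K`; S_KMN: `K0, L', f'` with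
`MinK L' f'`. S_DI0: `a ≠ b` in `Z`, `¬ Sepd univ a b`; S_ZMN: `Z0`, `a', b'`, `MinZ a' b'`. `e` restricted to `K0 × Z0`. S_OPA: `e '' (L'ᶜ ×ˢ {a', b'}ᶜ)` is open. `L'ᶜ ≠ ∅` (otherwise `f'` extends). There is a point `b0 ≠ a', b'` in `Z0`, and it is not isolated: if `Z0 = {a', b'}` then `Sepd univ a' b'`; if `{b0}` is open, `MinZ.min` for `{b0}` separates `Z0 \ {b0}` by closed
`A, B`, and then `A ∪ {b0}`, `B` separate `Z0`. S_ARZ: an arc `ζ`. `e' (k, t) = e (k, ζ t)` on `K0 × [0, 1]`. S_AXY and S_DSC: `h : closedBall 0 1 → L'ᶜ` continuous, injective. `(Fin 3 → ℝ) → X`, `v ↦ e' (h ((v 0 + i v 1) / 2), (1 + v 2) / 2)` on the cube: `ContainsCell`-data; `CTO.S_CELL2` and `CTO.S_MAN2`: `IsMfd3 X`. -/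
def S_PRM : Prop := ∀ (X : Type) [MetricSpace X] [CompactSpace X], IsANR X → Homog X →
  ShrLE X 3 → HasProduct X → IsMfd3 X

def M_PRM : Prop := S_SHR → S_EMB → S_NPR → S_NEX → S_KMN → S_DI0 → S_ZMN → S_OPA → S_ARZ →
  S_AXY → S_DSC → S_CELL2 → S_MAN2 → S_PRM

/-- MAIN3. `X` is nonempty (otherwise `ShrLE X 2`). Manifold → flow: S_ROT. Flow → product: S_FLP. Product → manifold: S_PRM. -/
def M_MAIN3 : Prop := S_SHR → S_ROT → S_FLP → S_PRM → MainStmt3

end BBP
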